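import Pool.Graph.R_seed8.Y715.T.Comb

/-!
# Laplacians with a root
-/

set_option autoImplicit false
set_option linter.unusedSectionVars false

namespace Pool.Agent.H91.Rt

open Finset Matrix
open Pool.Agent.Y715.T.Comb

variable {ι F : Type*} [DecidableEq ι] [Field F] [Fintype ι]

/-- the matrix with the root -/
def ao (a : ι → ι → F) (c : ι → F) : Option ι → Option ι → F
  | some i, some j => a i j
  | some i, none => c i
  | none, _ => 0

/-- the principal minor -/
def W (a : ι → ι → F) (c : ι → F) (T : Finset ι) : F := w (ao a c) (insertNone T) none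

lemma D_none (a : ι → ι → F) (c : ι → F) (T : Finset (Option ι)) :
    D (ao a c) (fun o => if o = none then 1 else 0) T = if none ∈ T then w (ao a c) T none else 0 := by
  unfold D
  simp only [ite_mul, one_mul, zero_mul]
  rw [Finset.sum_ite_eq']

lemma W_empty (a : ι → ι → F) (c : ι → F) : W a c ∅ = 1 := by
  have h := D_one (ao a c) (fun o => if o = none then 1 else 0) none
  rw [D_none, if_pos (mem_singleton_self _), if_pos rfl] at h
  exact h

/-- **The recursion.** -/
theorem W_rec (a : ι → ι → F) (c : ι → F) (S : Finset ι) (hS : S.Nonempty) :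
    ∑ T ∈ S.powerset, (-1) ^ T.card * (W a c T * ∏ i ∈ S \ T, (c i + ∑ j ∈ T, a i j)) = 0 := by
  have h := D_rec (ao a c) (fun o => if o = none then 1 else 0) (insertNone S) (by
    rw [card_insertNone]
    have := card_pos.2 hS
    omega)
  have h1 : ∑ T ∈ (insertNone S).powerset, (-1) ^ T.card *
      (D (ao a c) (fun o => if o = none then 1 else 0) T *
        ∏ i ∈ insertNone S \ T, ∑ j ∈ T, ao a c i j) =
      ∑ T ∈ (insertNone S).powerset.filter (fun T => none ∈ T), (-1) ^ T.card *
      (w (ao a c) T none * ∏ i ∈ insertNone S \ T, ∑ j ∈ T, ao a c i j) := by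
    rw [sum_filter]
    refine sum_congr rfl fun T _ => ?_
    rw [D_none]
    split_ifs
    · rfl
    · ring
  rw [h1] at h
  have h2 : ∑ T ∈ (insertNone S).powerset.filter (fun T => none ∈ T), (-1) ^ T.card *
      (w (ao a c) T none * ∏ i ∈ insertNone S \ T, ∑ j ∈ T, ao a c i j) =
      ∑ T ∈ S.powerset, (-1) ^ (T.card + 1) * (W a c T * ∏ i ∈ S \ T, (c i + ∑ j ∈ T, a i j)) := by
    symm
    refine sum_bij (fun T _ => insertNone T) ?_ ?_ ?_ ?_
    · intro T hT
      rw [mem_powerset] at hT
      rw [mem_filter, mem_powerset]
      exact ⟨insertNone.monotone hT, none_mem_insertNone⟩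
    · intro T _ T' _ hTT
      exact insertNone.injective hTT
    · intro T hT
      rw [mem_filter, mem_powerset] at hT
      refine ⟨eraseNone T, ?_, ?_⟩
      · rw [mem_powerset]
        intro i hi
        rw [mem_eraseNone] at hi
        have := hT.1 hi
        rwa [some_mem_insertNone] at this
      · ext o
        rcases o with _ | i
        · simp [hT.2]
        · simp
    · intro T hT
      rw [mem_powerset] at hT
      show _ = (-1) ^ (insertNone T).card * _
      rw [card_insertNone]
      congr 1
      unfold W
      congr 1
      have h3 : insertNone S \ insertNone T = (S \ T).map Function.Embedding.some := by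
        ext o
        rcases o with _ | i
        · simp
        · simp
      rw [h3, prod_map]
      refine prod_congr rfl fun i _ => ?_
      rw [sum_insertNone]
      rfl
  rw [h2] at h
  have h4 : ∀ T ∈ S.powerset, (-1) ^ (T.card + 1) * (W a c T * ∏ i ∈ S \ T, (c i + ∑ j ∈ T, a i j)) =
      -((-1) ^ T.card * (W a c T * ∏ i ∈ S \ T, (c i + ∑ j ∈ T, a i j))) := fun T _ => by ring
  rw [sum_congr rfl h4, sum_neg_distrib, neg_eq_zero] at h
  exact h

/-- the criterion -/
theorem W_ne_iff (a : ι → ι → F) (c : ι → F) : W a c univ ≠ 0 ↔
    ∀ x : ι → F, (∀ i, ∑ j, a i j * (x i - x j) + c i * x i = 0) → x = 0 := by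
  have hI : (insertNone (univ : Finset ι)) = (univ : Finset (Option ι)) := by
    ext o
    simp
  unfold W w
  rw [hI, V_eq, ← not_iff_not, not_not, ← Matrix.exists_mulVec_eq_zero_iff]
  push Not
  have hrow : ∀ (y : Option ι → F) (i : ι), (M (ao a c) univ).mulVec y (some i) =
      ∑ j, a i j * (y (some i) - y (some j)) + c i * (y (some i) - y none) := by
    intro y i
    have h1 := M_apply (ao a c) univ y (some i) (mem_univ _)
    have h2 : (fun j => if j ∈ (univ : Finset (Option ι)) then y j else 0) = y := by
      funext j
      simp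
    rw [h2] at h1
    rw [h1, Fintype.sum_option]
    show c i * _ + ∑ j, a i j * _ = _
    ring
  constructor
  · rintro ⟨y, hy, hy0⟩
    have h0 : y none = 0 := by
      have := congrFun hy0 none
      rwa [Matrix.mulVec, Matrix.updateRow_self, single_dotProduct, one_mul] at this
    refine ⟨fun i => y (some i), fun i => ?_, ?_⟩
    · have h1 := congrFun hy0 (some i)
      rw [Matrix.mulVec, Matrix.updateRow_ne (by simp)] at h1
      have h2 := hrow y i
      rw [Matrix.mulVec, h1, h0, sub_zero] at h2
      exact h2.symm
    · intro h
      apply hy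
      funext o
      rcases o with _ | i
      · exact h0
      · exact congrFun h i
  · rintro ⟨x, hx, hx0⟩
    refine ⟨fun o => o.elim 0 x, ?_, ?_⟩
    · intro h
      apply hx0
      funext i
      exact congrFun h (some i)
    · funext o
      rcases o with _ | i
      · rw [Matrix.mulVec, Matrix.updateRow_self, single_dotProduct, one_mul]
        rfl
      · rw [Matrix.mulVec, Matrix.updateRow_ne (by simp)]
        have h2 := hrow (fun o => o.elim 0 x) i
        rw [Matrix.mulVec] at h2
        rw [h2]
        have h3 := hx i
        simpa using h3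

end Pool.Agent.H91.Rt
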