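import Pool.Agent.H91.Lev
import Pool.Agent.H91.Rt

/-!
# The sums modulo the maximal ideal, characters of a level
-/

set_option autoImplicit false
set_option linter.unusedSectionVars false
set_option linter.unusedVariables false

open Filter
open scoped Topology PeriodPair

namespace Pool.Agent.H91.An

open H667R3 Pool.Agent.W192.HK Pool.Agent.TH936.CM Pool.Agent.TH936.PU
open Pool.Agent.Y715.Dist Pool.Agent.Y715.Idn Pool.Agent.Y715.T.Lat Pool.Agent.Y696
open Pool.Agent.Y715.Two (v_nat v_int v_unit v_mul_le_of)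
open Pool.Agent.Y715.T.Three Pool.Agent.Y715.T.Cg
open Pool.Agent.H91.Lev Pool.Agent.H91.Rt
open Pool.Agent.Y703.CT.Ana (ej eo_j ej_u ej_ncop ej_prim PX)

variable {Γ : Type*} [LinearOrderedCommGroupWithZero Γ] {v : Valuation ℂ Γ}
  {L : PeriodPair} {Ω : ℂ} {ι : Type*} [DecidableEq ι]

/-- the family with all the data -/
structure Fz (v : Valuation ℂ Γ) (π : ι → eis) (X : ι → eis → ℂ) (z : ℂ)
    (a : ι → ι → ZMod 3) (κ : eis → ℂ) (c : ι → ZMod 3) : Prop extends Fm π X where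
  three : ∀ i, IsCoprime (3 : eis) (π i)
  prm : ∀ i, π i - 1 ∈ (sp 3 : Ideal eis)
  max : ∀ i, (sp (π i)).IsMaximal
  val : ∀ i x, x ∉ sp (π i) → ∃ n : ℕ, X i x = z ^ n
  cub : ∀ i j, i ≠ j → ∃ n : ℕ, X j (π i) = z ^ n ∧ (n : ZMod 3) = a i j
  lin : ∀ i, v ((π i : ℂ) - 1) ≤ v 3
  card : ∀ i, v ((Nat.card (eis ⧸ sp (π i)) : ℂ) - 1) ≤ v 3
  kne : ∀ i, κ (π i) ≠ 0
  kap : ∀ i, ∃ n : ℕ, (κ (π i))⁻¹ = z ^ n ∧ (n : ZMod 3) = -c i

variable {π : ι → eis} {X : ι → eis → ℂ} {z : ℂ} {a : ι → ι → ZMod 3} {κ : eis → ℂ}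
  {c : ι → ZMod 3} {g : eis}

lemma sum_ind (h : Fz v π X z a κ c) (i : ι) :
    Sm (π i) (fun x => ind (π i) x - X i x) = (Nat.card (eis ⧸ sp (π i)) : ℂ) - 1 := by
  classical
  have : Fintype (eis ⧸ sp (π i)) := @Fintype.ofFinite _ (finq _ (h.ne i))
  have h1 : Sm (π i) (fun x => ind (π i) x - X i x) = Sm (π i) (ind (π i)) - Sm (π i) (X i) :=
    Finset.sum_sub_distrib _ _
  rw [h1, h.sum, sub_zero, Sm_eq]
  have h2 : ∀ x : eis ⧸ sp (π i), ind (π i) x.out = 1 - (if x = 0 then 1 else 0) := by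
    intro x
    by_cases hx : x = 0
    · rw [if_pos hx, sub_self]
      apply ind_mem
      rw [hx]
      have := out_mk (sp (π i)) (0 : eis)
      rw [map_zero, zero_sub] at this
      exact neg_mem_iff.1 this
    · rw [if_neg hx, sub_zero, ind_notMem (out_notMem hx)]
  rw [Finset.sum_congr rfl fun x _ => h2 x, Finset.sum_sub_distrib, Finset.sum_const,
    Finset.sum_ite_eq' , if_pos (Finset.mem_univ _), Finset.card_univ, nsmul_eq_mul, mul_one,
    Nat.card_eq_fintype_card]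

lemma Fz.cop_iff (h : Fz v π X z a κ c) {S : Finset ι} {x : eis} :
    IsCoprime x (cc π S) ↔ ∀ i ∈ S, x ∉ sp (π i) := by
  constructor
  · intro hx i hi hxi
    have h1 : IsCoprime x (π i) := by
      have h2 : cc π S = π i * cc π (S.erase i) := by
        rw [← cc_insert (Finset.notMem_erase i S), Finset.insert_erase hi]
      rw [h2] at hx
      exact hx.of_mul_right_left
    exact notMem_of_cop (h.max i).ne_top h1 hxi
  · intro hx
    refine IsCoprime.prod_right fun i hi => ?_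
    obtain ⟨y, t, ht, hyt⟩ := (h.max i).exists_inv (hx i hi)
    obtain ⟨w, hw⟩ := Ideal.mem_span_singleton'.1 ht
    exact ⟨y, w, by rw [hw]; exact hyt⟩

lemma Fz.cc_top (h : Fz v π X z a κ c) {S : Finset ι} (hS : S.Nonempty) :
    sp (cc π S) ≠ ⊤ := by
  obtain ⟨i, hi⟩ := hS
  intro h1
  apply (h.max i).ne_top
  rw [Ideal.eq_top_iff_one] at h1 ⊢
  exact cc_mem hi h1

lemma PX_zero (h : Fz v π X z a κ c) {S : Finset ι} {x : eis} (hx : ¬ IsCoprime x (cc π S)) :
    PX π X S x = 0 := by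
  rw [h.cop_iff] at hx
  push Not at hx
  obtain ⟨i, hi, hxi⟩ := hx
  refine Finset.prod_eq_zero hi ?_
  rw [ind_mem hxi, h.zero i x hxi, sub_zero]

lemma PX_le (hz : Zt v z) (h : Fz v π X z a κ c) {S : Finset ι} (x : eis) :
    v (PX π X S x) ≤ v (1 - z) ^ S.card := by
  classical
  by_cases hx : IsCoprime x (cc π S)
  · rw [h.cop_iff] at hx
    unfold PX
    rw [map_prod]
    refine Finset.prod_le_pow_card _ _ _ fun i hi => ?_
    obtain ⟨n, hn⟩ := h.val i x (hx i hi)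
    rw [ind_notMem (hx i hi), hn]
    exact hz.pow_le n
  · rw [PX_zero h hx, map_zero]
    exact zero_le

lemma sum_PX (h : Fz v π X z a κ c) (S : Finset ι) : Sm (cc π S) (fun x => PX π X S x) =
    ∏ i ∈ S, ((Nat.card (eis ⧸ sp (π i)) : ℂ) - 1) := by
  have h3 := Sm_prod finq h.ne h.cop (g := fun i x => ind (π i) x - X i x)
    (fun i x y hxy => by
      show ind (π i) x - X i x = ind (π i) y - X i y
      rw [ind_per hxy, h.per i x y hxy]) S
  rw [Finset.prod_congr rfl fun i _ => sum_ind h i] at h3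
  exact h3

section

variable (h3 : v 3 < 1) (hC : Cur L Ω) (hκ : Kp g κ) (h : Fz v π X z a κ c) (hz : Zt v z)
  (hzl : v (1 - z) = v lam) [Fintype (eis ⧸ (sp (lv g) : Ideal eis))]

/-- the sum for the three characters -/
noncomputable def SQ (L : PeriodPair) (Ω : ℂ) (g : eis) [Fintype (eis ⧸ (sp (lv g) : Ideal eis))]
    (κ : eis → ℂ) (π : ι → eis) (X : ι → eis → ℂ) (T : Finset ι) : ℂ :=
  ∑ j : Fin 3, SP L Ω (lv g) (ek κ j) (Ek L Ω g κ j) π X T

/-- the constant -/
noncomputable def C0 (L : PeriodPair) (Ω : ℂ) (g : eis) (κ : eis → ℂ) : ℂ := -2 * Rk L Ω g κ 0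

lemma sum_Ek : ∑ j : Fin 3, Ek L Ω g κ j = C0 L Ω g κ := by
  rw [Fin.sum_univ_three]
  unfold Ek C0
  rw [if_pos rfl, if_neg (by decide), if_neg (by decide)]
  ring

lemma SQ_empty : SQ L Ω g κ π X ∅ = C0 L Ω g κ := by
  unfold SQ
  rw [Finset.sum_congr rfl fun j _ => SP_empty finq, sum_Ek]

/-- the value of the function -/
noncomputable def Gt (L : PeriodPair) (Ω : ℂ) (g : eis) (κ : eis → ℂ) (x : ℂ) : ℂ :=
  3 * Rk L Ω g κ x + C0 L Ω g κ

lemma Fz.lv_cop (h : Fz v π X z a κ c) (i : ι) (hg : ∃ n : ℕ, g ∣ 3 ^ n) :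
    IsCoprime (lv g) (π i) := by
  have h1 : IsCoprime (3 : eis) (π i) := h.three i
  have h2 : IsCoprime la (π i) := by
    have h4 : (3 : eis) = la * -la := by
      rw [mul_neg, la_sq, neg_neg]
    rw [h4] at h1
    exact h1.of_mul_left_left
  obtain ⟨n, hn⟩ := hg
  have h5 : IsCoprime g (π i) := IsCoprime.of_isCoprime_of_dvd_left (h.three i).pow_left hn
  unfold lv
  exact h1.mul_left (h2.mul_left h5)

include hC hκ h in
/-- the identity -/
theorem idn (hg : ∃ n : ℕ, g ∣ 3 ^ n) {S : Finset ι} (hS : S.Nonempty) :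
    Sm (cc π S) (fun x => PX π X S x * Gt L Ω g κ (℘[L] (Ω * x / cc π S))) =
      ∑ T ∈ S.powerset, (-1) ^ T.card *
        ((∏ i ∈ S \ T, ((π i : ℂ) * (κ (π i))⁻¹ - XT X T (π i))) * SQ L Ω g κ π X T) := by
  have hfπ : ∀ i, IsCoprime (lv g) (π i) := fun i => h.lv_cop i hg
  have hej : ∀ (j : Fin 3) (i : ι), ek κ j (π i) = κ (π i) := by
    intro j i
    unfold ek
    rw [ej_prim j (h.prm i), one_mul]
  have h4 : ∑ T ∈ S.powerset, (-1) ^ T.card *
        ((∏ i ∈ S \ T, ((π i : ℂ) * (κ (π i))⁻¹ - XT X T (π i))) * SQ L Ω g κ π X T) =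
      ∑ j : Fin 3, ∑ T ∈ S.powerset, (-1) ^ T.card *
          ((∏ i ∈ S \ T, ((π i : ℂ) * (ek κ j (π i))⁻¹ - XT X T (π i))) *
            SP L Ω (lv g) (ek κ j) (Ek L Ω g κ j) π X T) := by
    rw [Finset.sum_comm]
    refine Finset.sum_congr rfl fun T _ => ?_
    unfold SQ
    rw [Finset.mul_sum, Finset.mul_sum]
    refine Finset.sum_congr rfl fun j _ => ?_
    simp only [hej j]
  rw [h4, Finset.sum_congr rfl fun j _ => (Pool.Agent.H91.DistG.main hC.lat finq (lv_ne hκ.gne)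
    h.toFm hfπ (ek_eo hκ j) (fun i => by rw [hej]; exact h.kne i) (lim_k hC hκ j) S).symm]
  unfold Sm
  rw [Finset.sum_comm]
  refine Finset.sum_congr rfl fun x _ => ?_
  show PX π X S x * _ =
    ∑ j : Fin 3, PX π X S x * Ph L Ω (lv g) (ek κ j) (Ek L Ω g κ j) (cc π S) x
  rw [← Finset.mul_sum]
  by_cases hx : IsCoprime x (cc π S)
  · have hx' : x ∉ sp (cc π S) := notMem_of_cop (h.cc_top hS) hx
    rw [Finset.sum_congr rfl fun j _ => Ph_of_notMem hx', Finset.sum_add_distrib, HH_tot hC hκ,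
      sum_Ek]
    rfl
  · rw [PX_zero h hx]
    ring

/-- the normalized sums -/
noncomputable def sT (L : PeriodPair) (Ω : ℂ) (g : eis)
    [Fintype (eis ⧸ (sp (lv g) : Ideal eis))] (κ : eis → ℂ)
    (π : ι → eis) (X : ι → eis → ℂ) (z : ℂ) (T : Finset ι) : ℂ :=
  SQ L Ω g κ π X T / (C0 L Ω g κ * (1 - z) ^ T.card)

include h3 hC hκ h hz hzl in
/-- **The sums modulo the maximal ideal.** -/
theorem sT_cg [Fintype ι] (hg : ∃ n : ℕ, g ∣ 3 ^ n) (hC0 : C0 L Ω g κ ≠ 0) {cs : ℂ}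
    (hcs : v cs ≤ 1)
    (hE : ∀ (S : Finset ι) (x : eis), S.Nonempty → IsCoprime x (cc π S) →
      v (Gt L Ω g κ (℘[L] (Ω * x / cc π S)) / C0 L Ω g κ - cs) < 1) (S : Finset ι) :
    Cg v (sT L Ω g κ π X z S) (W a c S) := by
  classical
  induction S using Finset.strongInduction with
  | H S ih =>
  have hz1 := hz.ne
  have hl0 : v lam ≠ 0 := lam_ne
  have hl1 := lam_lt h3
  rcases S.eq_empty_or_nonempty with rfl | hS
  · rw [W_empty]
    apply Cg.one
    unfold sT
    rw [SQ_empty, Finset.card_empty, pow_zero, mul_one, div_self hC0, sub_self, map_zero]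
    exact zero_lt_one
  have hid := idn hC hκ h hg hS
  set R : ℂ := Sm (cc π S) (fun x => PX π X S x * Gt L Ω g κ (℘[L] (Ω * x / cc π S))) with hR
  set N : ℂ := C0 L Ω g κ * (1 - z) ^ S.card with hN
  have hN0 : N ≠ 0 := mul_ne_zero hC0 (pow_ne_zero _ hz1)
  have hvz : v (1 - z) ≠ 0 := (Valuation.ne_zero_iff v).2 hz1
  -- the left side is small
  have hRs : v (R / N) < 1 := by
    have e1 : R / N = cs * ((∏ i ∈ S, ((Nat.card (eis ⧸ sp (π i)) : ℂ) - 1)) / (1 - z) ^ S.card) +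
        (Sm (cc π S) (fun x => PX π X S x *
          (Gt L Ω g κ (℘[L] (Ω * x / cc π S)) / C0 L Ω g κ - cs))) / (1 - z) ^ S.card := by
      rw [← sum_PX h S, mul_div_assoc', ← Sm_mul_left, ← add_div, ← Sm_add, hN, ← div_div]
      congr 1
      rw [hR, div_eq_inv_mul, ← Sm_mul_left]
      refine Finset.sum_congr rfl fun x _ => ?_
      beta_reduce
      field_simp
      ring
    rw [e1]
    refine v.map_add_lt ?_ ?_
    · rw [map_mul]
      refine (mul_le_mul' hcs le_rfl).trans_lt ?_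
      rw [one_mul, map_div₀, map_pow, hzl, div_lt_one₀ (pow_pos lam_pos _), map_prod]
      have h4 : ∏ i ∈ S, v ((Nat.card (eis ⧸ sp (π i)) : ℂ) - 1) ≤ (v 3) ^ S.card :=
        Finset.prod_le_pow_card _ _ _ fun i _ => h.card i
      refine h4.trans_lt ?_
      rw [← sq_three, ← pow_two, ← pow_mul]
      have := Finset.card_pos.2 hS
      exact pow_lt_pow_right_of_lt_one₀ lam_pos hl1 (by omega)
    · rw [map_div₀, map_pow, div_lt_one₀ (pow_pos (zero_lt_iff.2 hvz) _)]
      have : Fintype (eis ⧸ sp (cc π S)) := @Fintype.ofFinite _ (finq _ (h.cc_ne S))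
      rw [Sm_eq]
      refine v.map_sum_lt (pow_ne_zero _ hvz) fun q _ => ?_
      by_cases hq : IsCoprime q.out (cc π S)
      · have h4 := hE S q.out hS hq
        rw [map_mul]
        calc v (PX π X S q.out) * v (Gt L Ω g κ (℘[L] (Ω * q.out / cc π S)) / C0 L Ω g κ - cs) ≤
            v (1 - z) ^ S.card *
              v (Gt L Ω g κ (℘[L] (Ω * q.out / cc π S)) / C0 L Ω g κ - cs) :=
              mul_le_mul' (PX_le hz h q.out) le_rfl
          _ < v (1 - z) ^ S.card * 1 :=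
              mul_lt_mul_of_pos_left h4 (pow_pos (zero_lt_iff.2 hvz) _)
          _ = v (1 - z) ^ S.card := mul_one _
      · rw [PX_zero h hq, zero_mul, map_zero]
        exact pow_pos (zero_lt_iff.2 hvz) _
  -- the terms
  set E : Finset ι → ℂ := fun T => (∏ i ∈ S \ T, ((π i : ℂ) * (κ (π i))⁻¹ - XT X T (π i))) *
    SQ L Ω g κ π X T / N with hEd
  have hsum : ∑ T ∈ S.powerset, (-1) ^ T.card * E T = R / N := by
    rw [hid, Finset.sum_div]
    exact Finset.sum_congr rfl fun T _ => by rw [hEd]; ring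
  have hES : E S = sT L Ω g κ π X z S := by
    rw [hEd]
    show (∏ i ∈ S \ S, _) * _ / N = _
    unfold sT
    rw [Finset.sdiff_self, Finset.prod_empty, one_mul]
  have hlz : v (3 : ℂ) < v (1 - z) := hz.three
  have hET : ∀ T ∈ S.powerset.erase S, Cg v (E T) (W a c T * ∏ i ∈ S \ T, (c i + ∑ j ∈ T, a i j)) := by
    intro T hT
    rw [Finset.mem_erase, Finset.mem_powerset] at hT
    have hssub : T ⊂ S := Finset.ssubset_iff_subset_ne.2 ⟨hT.2, hT.1⟩
    have h4 := ih T hssub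
    have h5 : (S \ T).card + T.card = S.card := Finset.card_sdiff_add_card_eq_card hT.2
    have h6 : E T = sT L Ω g κ π X z T *
        ∏ i ∈ S \ T, (((π i : ℂ) * (κ (π i))⁻¹ - XT X T (π i)) / (1 - z)) := by
      rw [hEd]
      show (∏ i ∈ S \ T, _) * _ / N = _
      unfold sT
      rw [Finset.prod_div_distrib, Finset.prod_const, hN, ← h5, pow_add]
      field_simp
    rw [h6]
    refine h4.mul h3 (Cg.prod h3 _ fun i hi => ?_)
    rw [Finset.mem_sdiff] at hi
    -- the quotient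
    have h7 : ∀ j ∈ T, ∃ n : ℕ, X j (π i) = z ^ n ∧ (n : ZMod 3) = a i j := fun j hj =>
      h.cub i j fun hij => hi.2 (hij ▸ hj)
    choose! n hn1 hn2 using h7
    have h8 : XT X T (π i) = z ^ (∑ j ∈ T, n j) := by
      unfold XT
      rw [← Finset.prod_pow_eq_pow_sum]
      exact Finset.prod_congr rfl fun j hj => hn1 j hj
    obtain ⟨m, hm1, hm2⟩ := h.kap i
    have h9 : ((π i : ℂ) * (κ (π i))⁻¹ - XT X T (π i)) / (1 - z) =
        ((π i : ℂ) - 1) * z ^ m / (1 - z) + (-((1 - z ^ m) / (1 - z)) +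
          (1 - z ^ (∑ j ∈ T, n j)) / (1 - z)) := by
      rw [h8, hm1]
      ring
    rw [h9]
    have h10 : c i + (∑ j ∈ T, a i j) = 0 + (-(m : ZMod 3) + ((∑ j ∈ T, n j : ℕ) : ZMod 3)) := by
      rw [zero_add, hm2, neg_neg]
      push_cast
      congr 1
      exact Finset.sum_congr rfl fun j hj => (hn2 j hj).symm
    rw [h10]
    refine (Cg.zero ?_).add h3 (((Zt.quot h3 hz _).neg h3).add h3 (Zt.quot h3 hz _))
    have h11 : v (z ^ m) ≤ 1 := by
      have h13 : z ^ m = 1 - (1 - z ^ m) := by ring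
      rw [h13]
      refine v.map_sub_le (by rw [map_one]) ((hz.pow_le m).trans ?_)
      rw [hzl]
      exact hl1.le
    rw [map_div₀]
    have h12 : 0 < v (1 - z) := zero_lt_iff.2 hvz
    rw [div_lt_one₀ h12]
    exact (v_mul_le_of (h.lin i) h11).trans_lt hlz
  -- conclusion
  have hSmem : S ∈ S.powerset := Finset.mem_powerset_self S
  have hsplit := Finset.add_sum_erase S.powerset (fun T => (-1) ^ T.card * E T) hSmem
  have hrest : Cg v (∑ T ∈ S.powerset.erase S, (-1) ^ T.card * E T)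
      (-((-1) ^ S.card * W a c S)) := by
    have h4 : -((-1) ^ S.card * W a c S) = ∑ T ∈ S.powerset.erase S, (-1) ^ T.card *
        (W a c T * ∏ i ∈ S \ T, (c i + ∑ j ∈ T, a i j)) := by
      have h6 := W_rec a c S hS
      rw [← Finset.add_sum_erase _ _ hSmem, Finset.sdiff_self, Finset.prod_empty, mul_one] at h6
      linear_combination -h6
    rw [h4]
    exact Cg.sum h3 _ fun T hT => Cg.sign h3 (hET T hT) _
  have hES2 : Cg v ((-1) ^ S.card * E S) ((-1) ^ S.card * W a c S) := by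
    have h4 : (-1) ^ S.card * E S = (∑ T ∈ S.powerset, (-1) ^ T.card * E T) -
        ∑ T ∈ S.powerset.erase S, (-1) ^ T.card * E T := by
      rw [← hsplit]
      ring
    rw [h4]
    have h5 := hrest.neg h3
    rw [neg_neg] at h5
    refine Cg.of_sub (t := -(∑ T ∈ S.powerset.erase S, (-1) ^ T.card * E T)) ?_ h5
    rw [sub_neg_eq_add, sub_add_cancel, hsum]
    exact hRs
  have h4 := hES2.sign h3 S.card
  rw [← mul_assoc, ← mul_pow, neg_one_mul, neg_neg, one_pow, one_mul, hES, ← mul_assoc,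
    ← mul_pow, neg_one_mul, neg_neg, one_pow, one_mul] at h4
  exact h4

end

end Pool.Agent.H91.An
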