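import Pool.Agent.H91.Lw1

/-!
# The two forms of the linear system
-/

set_option autoImplicit false
set_option linter.unusedVariables false

open scoped Classical

namespace Pool.Agent.H91.Cr2

open Pool.Agent.Y692.QS (Ei w nr)
open Pool.Agent.Y715.T.Rec (cs)
open Pool.Agent.Y715.T.RecG (Pq)
open Pool.Agent.Y703.CT
open Pool.Agent.H91.Sel (dD KerC)
open Pool.Agent.H91.Kc (ex)

variable {J : Type} [Fintype J] {π : J → Ei} {e : J → ZMod 3} {c : ZMod 3}

/-- the kernel of the system with the additional equation is zero -/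
def KerS (c : ZMod 3) (π : J → Ei) (e : J → ZMod 3) : Prop :=
  ∀ x : J → ZMod 3, (∀ i, ∑ k, e k * cs (π i) (π k) * (x k - x i) - c * ex (nr (π i)) * x i = 0) →
    ∑ i, e i * ex (nr (π i)) * x i = 0 → x = 0

lemma ex_rq {α : Ei} (h : (3 : Ei) ∣ α - 1) : ex (nr α) = -rq α := by
  obtain ⟨x, y, he, hr⟩ := ex_q h
  rw [hr, he, nr_form]
  unfold ex
  have e1 : (1 + 3 * (2 * x - y) + 9 * nr (⟨x, y⟩ : Ei) - 1) / 3 =
      2 * x - y + 3 * nr (⟨x, y⟩ : Ei) := by omega
  rw [e1]
  push_cast
  have h3 : (3 : ZMod 3) = 0 := by decide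
  rw [h3]
  have h2 : (2 : ZMod 3) = -1 := by decide
  rw [h2]
  ring

/-- the sum of the equations -/
lemma sum_rows (h : Dt π e) (x : J → ZMod 3) :
    ∑ i, e i * (∑ k, e k * cs (π i) (π k) * (x k - x i)) = 0 := by
  have h3 : ∑ i, e i * (∑ k, e k * cs (π i) (π k) * (x k - x i)) =
      ∑ i, ∑ k, e i * e k * cs (π i) (π k) * (x k - x i) := by
    refine Finset.sum_congr rfl fun i _ => ?_
    rw [Finset.mul_sum]
    exact Finset.sum_congr rfl fun k _ => by ring
  have h4 : ∑ i, ∑ k, e i * e k * cs (π i) (π k) * (x k - x i) =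
      ∑ i, ∑ k, -(e i * e k * cs (π i) (π k) * (x k - x i)) := by
    rw [Finset.sum_comm]
    refine Finset.sum_congr rfl fun k _ => Finset.sum_congr rfl fun i _ => ?_
    by_cases hik : i = k
    · rw [hik, sub_self, mul_zero, neg_zero]
    · rw [Pool.Agent.Y350.CT.rec (π k) (π i) (h.pq k) (h.pq i) (h.nd k i (Ne.symm hik))]
      ring
  rw [h3]
  have h5 : ∑ i, ∑ k, -(e i * e k * cs (π i) (π k) * (x k - x i)) =
      -∑ i, ∑ k, e i * e k * cs (π i) (π k) * (x k - x i) := by
    rw [← Finset.sum_neg_distrib]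
    exact Finset.sum_congr rfl fun i _ => by rw [← Finset.sum_neg_distrib]
  rw [h5] at h4
  have h6 : ∀ z : ZMod 3, z = -z → z = 0 := by decide
  exact h6 _ h4

theorem kerS_iff (hc : c ≠ 0) (h : Dt π e) : KerS c π e ↔ KerC c π e := by
  constructor
  · intro hk x hx
    refine hk x hx ?_
    have h1 : ∑ i, e i * (∑ k, e k * cs (π i) (π k) * (x k - x i) - c * ex (nr (π i)) * x i) = 0 :=
      Finset.sum_eq_zero fun i _ => by rw [hx i, mul_zero]
    have h2 := sum_rows h x
    have h3 : ∑ i, e i * (∑ k, e k * cs (π i) (π k) * (x k - x i) - c * ex (nr (π i)) * x i) =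
        ∑ i, e i * (∑ k, e k * cs (π i) (π k) * (x k - x i)) -
          c * ∑ i, e i * ex (nr (π i)) * x i := by
      rw [Finset.mul_sum, ← Finset.sum_sub_distrib]
      exact Finset.sum_congr rfl fun i _ => by ring
    rw [h3, h2, zero_sub, neg_eq_zero] at h1
    exact (mul_eq_zero.1 h1).resolve_left hc
  · intro hk x hx _
    exact hk x hx

theorem kerS_zero [Nonempty J] (h : Dt π e) (h9 : ¬ (9 : ℤ) ∣ nr (pD π e) - 1) :
    KerS 0 π e ↔ Ker π e := by
  have hs : ∑ i, e i * ex (nr (π i)) ≠ 0 := by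
    have h1 := (sum_ne_iff h).1 h9
    have h2 : ∑ i, e i * ex (nr (π i)) = -∑ i, e i * rq (π i) := by
      rw [← Finset.sum_neg_distrib]
      refine Finset.sum_congr rfl fun i _ => ?_
      rw [ex_rq (h.pq i).three]
      ring
    rw [h2]
    exact neg_ne_zero.2 h1
  set s := ∑ i, e i * ex (nr (π i)) with hsd
  constructor
  · intro hk v hv i j
    set t := (∑ i, e i * ex (nr (π i)) * v i) * s⁻¹ with ht
    have h1 := hk (fun i => v i - t) (fun i => by
      rw [zero_mul, zero_mul, sub_zero]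
      rw [← hv i]
      exact Finset.sum_congr rfl fun k _ => by ring) (by
      have h2 : ∑ i, e i * ex (nr (π i)) * (v i - t) = ∑ i, e i * ex (nr (π i)) * v i - s * t := by
        rw [hsd, Finset.sum_mul, ← Finset.sum_sub_distrib]
        exact Finset.sum_congr rfl fun i _ => by ring
      rw [h2, ht, mul_comm s, mul_assoc, inv_mul_cancel₀ hs, mul_one, sub_self])
    have h3 := congrFun h1 i
    have h4 := congrFun h1 j
    simp only [Pi.zero_apply] at h3 h4
    rw [sub_eq_zero.1 h3, sub_eq_zero.1 h4]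
  · intro hk x hx hsum
    have h1 := hk x (fun j => by
      have := hx j
      rwa [zero_mul, zero_mul, sub_zero] at this)
    obtain ⟨i₀⟩ := (inferInstance : Nonempty J)
    have h2 : ∑ i, e i * ex (nr (π i)) * x i = s * x i₀ := by
      rw [hsd, Finset.sum_mul]
      exact Finset.sum_congr rfl fun i _ => by rw [h1 i i₀]
    rw [h2] at hsum
    have h3 := (mul_eq_zero.1 hsum).resolve_left hs
    funext i
    rw [h1 i i₀, h3]
    rfl

section
open NumberField
open Pool.Agent.Y696.CTK (Tri)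
open Pool.Agent.H91.LKz (Pm)

variable {K : Type} [Field K] [NumberField K] (j : Ei ≃+* 𝓞 K)

/-- the criterion in all cases -/
theorem tri_iff3 [Nonempty J] (h : Dt π e) (h9 : c = 0 → ¬ (9 : ℤ) ∣ nr (pD π e) - 1) {D : Ei}
    (hpm : Pm (dD c π e) D) : Tri (j D) ↔ KerS c π e := by
  by_cases hc : c = 0
  · subst hc
    rw [kerS_zero h (h9 rfl)]
    exact Pool.Agent.H91.Lw1.tri_iff1 j h (h9 rfl) hpm
  · rw [kerS_iff hc h]
    exact Pool.Agent.H91.Lw.tri_iff2 j hc h hpm

end

end Pool.Agent.H91.Cr2
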