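import Pool.Agent.H91.Lev

/-!
# The level `3 √-3`: explicit values
-/

set_option autoImplicit false
set_option linter.unusedSectionVars false
set_option linter.unusedVariables false

open Filter
open scoped Topology PeriodPair

namespace Pool.Agent.H91.Cst

open H667R3 Pool.Agent.W192.HK Pool.Agent.TH936.CM Pool.Agent.TH936.PU
open Pool.Agent.Y715.Dist Pool.Agent.Y715.Idn Pool.Agent.Y715.T.Lat Pool.Agent.Y696
open Pool.Agent.Y715.T.LF (rd rd_ez rd_eq_zero)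
open Pool.Agent.Y715.CT.Hec (rd_la rd_omr la_ne prime_la three_eq)
open Pool.Agent.Y715.T.Three (lam lam_lt lam_ne lam_ne' lam_pos lam_sq sq_three v_two)
open Pool.Agent.Y715.Two (v_nat v_int v_unit v_mul_le_of)
open Pool.Agent.H91.Lev

/-! ### sums modulo `√-3` -/

lemma sm_la {F : eis → ℂ} (hF : ∀ x y : eis, x - y ∈ (sp la : Ideal eis) → F x = F y) :
    Sm la F = F 0 + F 1 + F (-1) := by
  have := finq _ la_ne
  have : Fintype (eis ⧸ (sp la : Ideal eis)) := Fintype.ofFinite _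
  have hmem : ∀ x : eis, rd x = 0 → x ∈ (sp la : Ideal eis) := by
    intro x hx
    obtain ⟨t, ht⟩ := rd_eq_zero hx
    exact mem_of t ht
  have hmem' : ∀ x : eis, x ∈ (sp la : Ideal eis) → rd x = 0 := by
    intro x hx
    obtain ⟨t, ht⟩ := ex_mem hx
    rw [ht, map_mul, rd_la, zero_mul]
  set c : Fin 3 → eis := ![0, 1, -1] with hc
  have hrd : ∀ i : Fin 3, rd (c i) = (i.val : ZMod 3) := by
    intro i
    fin_cases i
    · show rd 0 = _
      rw [map_zero]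
      rfl
    · show rd 1 = _
      rw [map_one]
      rfl
    · show rd (-1) = _
      rw [map_neg, map_one]
      rfl
  have hb : Function.Bijective (fun i : Fin 3 => Ideal.Quotient.mk (sp la : Ideal eis) (c i)) := by
    constructor
    · intro i j hij
      have h1 : c i - c j ∈ (sp la : Ideal eis) := by
        rw [← Ideal.Quotient.mk_eq_mk_iff_sub_mem]
        exact hij
      have h2 := hmem' _ h1
      rw [map_sub, hrd, hrd, sub_eq_zero] at h2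
      fin_cases i <;> fin_cases j <;> first | rfl | exact absurd h2 (by decide)
    · intro y
      obtain ⟨r, rfl⟩ := Ideal.Quotient.mk_surjective y
      have h3 : ∀ z : ZMod 3, ∃ i : Fin 3, (i.val : ZMod 3) = z := by decide
      obtain ⟨i, hi⟩ := h3 (rd r)
      refine ⟨i, ?_⟩
      show Ideal.Quotient.mk _ _ = _
      rw [Ideal.Quotient.mk_eq_mk_iff_sub_mem]
      apply hmem
      rw [map_sub, hrd, hi, sub_self]
  rw [Sm_eq, sum_rep _ hb F hF, Fin.sum_univ_three]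
  rfl

/-! ### the derivative of the multiplication by `√-3` -/

theorem dwp_la {L : PeriodPair} {Ω : ℂ} (hC : Cur L Ω) {u : ℂ} (hu : 2 * u ∉ L.lattice)
    (hl : lam * u ∉ L.lattice) :
    lam * ℘[L] u * ℘'[L] (lam * u) = -(℘'[L] u * (℘[L] u + 2 * ℘[L] (lam * u))) := by
  have hu0 := two_mul_notMem_of L hu
  have h1 := wp_la hC hu hl
  have d0 := hasDerivAt_weierstrassP L hu0
  have d1 : HasDerivAt (fun x : ℂ => lam * x) lam u := by
    simpa using (hasDerivAt_id u).const_mul lam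
  have d2 : HasDerivAt (fun x => ℘[L] (lam * x)) (℘'[L] (lam * u) * lam) u :=
    (hasDerivAt_weierstrassP L hl).comp u d1
  have d3 := ((d0.fun_pow 2).const_mul 3).fun_mul d2
  have d4 := ((d0.fun_pow 3).add_const 1).fun_neg
  have h4 : (fun x => 3 * ℘[L] x ^ 2 * ℘[L] (lam * x)) =ᶠ[𝓝 u] (fun x => -(℘[L] x ^ 3 + 1)) := by
    have o1 : ∀ᶠ x in 𝓝 u, lam * x ∉ L.lattice := by
      have : IsOpen ((fun x => lam * x) ⁻¹' (L.lattice : Set ℂ)ᶜ) :=
        (isOpen_compl L).preimage (by fun_prop)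
      exact this.mem_nhds hl
    filter_upwards [(isOpen_two L).mem_nhds hu, o1] with x hx hx1
    exact wp_la hC hx hx1
  have h5 := d3.unique (d4.congr_of_eventuallyEq h4)
  have hx : ℘[L] u ≠ 0 := by
    intro h
    rw [h] at h1
    norm_num at h1
  have h6 : (3 * ℘[L] u) * (lam * ℘[L] u * ℘'[L] (lam * u) +
      ℘'[L] u * (℘[L] u + 2 * ℘[L] (lam * u))) = 0 := by
    push_cast at h5
    linear_combination h5
  have h7 := (mul_eq_zero.1 h6).resolve_left (mul_ne_zero (by norm_num) hx)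
  linear_combination h7

/-! ### the points of level `3 √-3` -/

/-- normalized curves: `℘(Ω / 3) = -1` -/
structure Nc (L : PeriodPair) (Ω : ℂ) : Prop extends Cur L Ω where
  nx : ℘[L] (Ω / 3) = -1

/-- the second root -/
def rA (X : ℂ) : ℂ := 2 + 2 * X - X ^ 2

/-- the third root -/
def rB (X : ℂ) : ℂ := 1 - 3 * X + X ^ 2

/-- the ordinate -/
def yf (X : ℂ) : ℂ := 2 * X ^ 2 - 2 * X - 1

section pts

variable {L : PeriodPair} {Ω : ℂ} (hN : Nc L Ω)

include hN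

lemma lam_pt (t : eis) : lam * pt Ω 1 t = Ω / 3 + Ω * t := by
  have h3 : ((3 : eis) : ℂ) = 3 := rfl
  unfold pt lv
  push_cast
  rw [la_coe, h3]
  have := lam_ne'
  field_simp

lemma lam_notMem (t : eis) : lam * pt Ω 1 t ∉ L.lattice := by
  rw [lam_pt hN]
  intro h
  apply hN.third
  have h1 : Ω * t ∈ L.lattice := (hN.lat.mem _).2 ⟨t, rfl⟩
  have := sub_mem h h1
  rwa [add_sub_cancel_right] at this

lemma two_notMem (t : eis) : 2 * pt Ω 1 t ∉ L.lattice := by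
  have h3 : ((3 : eis) : ℂ) = 3 := rfl
  intro h
  have h1 := hN.lat.mul la _ h
  have e1 : (la : ℂ) * (2 * pt Ω 1 t) = 2 * (Ω / 3) + Ω * ((2 * t : eis) : ℂ) := by
    have h2 : ((2 : eis) : ℂ) = 2 := rfl
    push_cast
    rw [la_coe, h2]
    linear_combination (2 : ℂ) * lam_pt hN t
  rw [e1] at h1
  apply hN.third_two
  have h2 : Ω * ((2 * t : eis) : ℂ) ∈ L.lattice := (hN.lat.mem _).2 ⟨2 * t, rfl⟩
  have := sub_mem h1 h2
  rwa [add_sub_cancel_right] at this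

lemma wp_lam (t : eis) : ℘[L] (lam * pt Ω 1 t) = -1 := by
  rw [lam_pt hN, ← hN.nx]
  apply wp_per
  rw [add_sub_cancel_left]
  exact (hN.lat.mem _).2 ⟨t, rfl⟩

lemma dwp_lam (t : eis) : ℘'[L] (lam * pt Ω 1 t) = ℘'[L] (Ω / 3) := by
  rw [lam_pt hN]
  apply dwp_per
  rw [add_sub_cancel_left]
  exact (hN.lat.mem _).2 ⟨t, rfl⟩

/-- the cubic equation -/
lemma cub (t : eis) : ℘[L] (pt Ω 1 t) ^ 3 - 3 * ℘[L] (pt Ω 1 t) ^ 2 + 1 = 0 := by
  have h := wp_la hN.toCur (two_notMem hN t) (lam_notMem hN t)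
  rw [wp_lam hN] at h
  linear_combination h

omit hN in
/-- the sign -/
lemma sgn_ex (hC : Cur L Ω) : ∃ ε : ℂ, ε ^ 2 = 1 ∧ lam * ℘'[L] (Ω / 3) = -(3 * ε) := by
  refine ⟨-(lam * ℘'[L] (Ω / 3)) / 3, ?_, by ring⟩
  have h := hC.y0
  have h1 := lam_sq
  field_simp
  linear_combination (lam ^ 2) * h - 3 * h1

lemma ord {ε : ℂ} (hε : lam * ℘'[L] (Ω / 3) = -(3 * ε)) (t : eis) :
    ℘'[L] (pt Ω 1 t) = ε * yf (℘[L] (pt Ω 1 t)) := by
  have h := dwp_la hN.toCur (two_notMem hN t) (lam_notMem hN t)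
  rw [dwp_lam hN, wp_lam hN] at h
  have hc := cub hN t
  set X := ℘[L] (pt Ω 1 t)
  set y := ℘'[L] (pt Ω 1 t)
  have h1 : X - 2 ≠ 0 := by
    intro h0
    have h2 : (-3 : ℂ) = 0 := by linear_combination hc - (X ^ 2 - X - 2) * h0
    norm_num at h2
  have h3 : (X - 2) * (y - ε * yf X) = 0 := by
    unfold yf
    linear_combination h - X * hε - 2 * ε * hc
  linear_combination (mul_eq_zero.1 h3).resolve_left h1

omit hN in
lemma tr_formula {X y τ : ℂ} (hX : X ≠ 0) (hy : y ^ 2 = 4 * X ^ 3 + 1) :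
    X - ((6 * X ^ 2 - 0 / 2) * (X - 0) - (y - τ) * y) / (2 * (X - 0) ^ 2) =
      (1 - τ * y) / (2 * X ^ 2) := by
  rw [sub_zero, zero_div, sub_zero]
  field_simp
  linear_combination hy

/-- the other points -/
lemma others {ε : ℂ} (hε2 : ε ^ 2 = 1) (hε : lam * ℘'[L] (Ω / 3) = -(3 * ε)) :
    (℘[L] (pt Ω 1 1) = rA (℘[L] (pt Ω 1 0)) ∧ ℘[L] (pt Ω 1 (-1)) = rB (℘[L] (pt Ω 1 0))) ∨
    (℘[L] (pt Ω 1 1) = rB (℘[L] (pt Ω 1 0)) ∧ ℘[L] (pt Ω 1 (-1)) = rA (℘[L] (pt Ω 1 0))) := by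
  have hC := hN.toCur
  have h3c : ((3 : eis) : ℂ) = 3 := rfl
  have hl := lam_ne'
  have hlsq := lam_sq
  set W : ℂ := lam * (Ω / 3) with hW
  have hw0 := wp_la_third hC
  rw [← hW] at hw0
  have hWn : W ∉ L.lattice := by
    rw [hC.mem_third (r := la) (by rw [la_coe]; ring)]
    unfold la
    rw [mem_three]
    norm_num
  have hode := hC.ode hWn
  rw [hw0] at hode
  have e1 : pt Ω 1 1 = pt Ω 1 0 + -W := by
    unfold pt lv
    push_cast
    rw [la_coe, h3c, hW]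
    field_simp
    linear_combination Ω * hlsq
  have e2 : pt Ω 1 (-1) = pt Ω 1 0 + W := by
    unfold pt lv
    push_cast
    rw [la_coe, h3c, hW]
    field_simp
    linear_combination -Ω * hlsq
  have n1 := pt_notMem hC one_ne_zero 1
  have n2 := pt_notMem hC one_ne_zero (-1)
  have a1 := wp_add L (two_notMem hN 0) (w := -W) (by rwa [neg_mem_iff]) (by rwa [← e1])
    (by rw [sub_neg_eq_add, ← e2]; exact n2)
  have a2 := wp_add L (two_notMem hN 0) (w := W) hWn (by rwa [← e2])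
    (by
      have : pt Ω 1 0 - W = pt Ω 1 0 + -W := by ring
      rw [this, ← e1]
      exact n1)
  rw [← e1, L.weierstrassP_neg, L.derivWeierstrassP_neg, hw0, hC.g2] at a1
  rw [← e2, hw0, hC.g2] at a2
  have ho := ord hN hε 0
  have hc := cub hN 0
  have hy := hC.ode (pt_notMem hC one_ne_zero 0)
  rw [a1, a2, ho]
  set X := ℘[L] (pt Ω 1 0)
  set τ := ℘'[L] W
  have hX : X ≠ 0 := by
    intro h
    rw [h] at hc
    norm_num at hc
  have hs : (ε * τ - 1) * (ε * τ + 1) = 0 := by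
    linear_combination ε ^ 2 * hode + hε2
  have hX2 : 2 * X ^ 2 ≠ 0 := mul_ne_zero two_ne_zero (pow_ne_zero _ hX)
  have hyy : (ε * yf X) ^ 2 = 4 * X ^ 3 + 1 := by rw [← ho, hy]
  rcases mul_eq_zero.1 hs with h | h
  · right
    constructor
    · rw [tr_formula hX hyy, div_eq_iff hX2]
      unfold rB yf
      linear_combination (2 * X ^ 2 - 2 * X - 1) * h - 2 * X * hc
    · rw [tr_formula hX hyy, div_eq_iff hX2]
      unfold rA yf
      linear_combination -(2 * X ^ 2 - 2 * X - 1) * h + 2 * (X + 1) * hc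
  · left
    constructor
    · rw [tr_formula hX hyy, div_eq_iff hX2]
      unfold rA yf
      linear_combination (2 * X ^ 2 - 2 * X - 1) * h + 2 * (X + 1) * hc
    · rw [tr_formula hX hyy, div_eq_iff hX2]
      unfold rB yf
      linear_combination -(2 * X ^ 2 - 2 * X - 1) * h - 2 * X * hc

end pts

/-! ### the closed form -/

/-- the resolvent -/
noncomputable def Sk (k X : ℂ) : ℂ := -((1 - k ^ 2) * (X + k * rA X + k ^ 2 * rB X))

/-- the rational function -/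
noncomputable def Qk (k x : ℂ) : ℂ := (2 * x ^ 2 + k ^ 2 * x - 1) / (x ^ 3 - 3 * x ^ 2 + 1)

section alg

variable {k X : ℂ} (hk : k ^ 2 + k + 1 = 0) (hc : X ^ 3 - 3 * X ^ 2 + 1 = 0)

include hc in
lemma fac (x : ℂ) : (X - x) * ((rA X - x) * (rB X - x)) = -(x ^ 3 - 3 * x ^ 2 + 1) := by
  unfold rA rB
  linear_combination (1 + (X - x) * (2 - X)) * hc

include hk hc in
lemma num (x : ℂ) : yf X * ((rA X - x) * (rB X - x)) + k * yf (rA X) * ((X - x) * (rB X - x)) +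
    k ^ 2 * yf (rB X) * ((X - x) * (rA X - x)) = -(Sk k X * (2 * x ^ 2 + k ^ 2 * x - 1)) := by
  unfold Sk rA rB yf
  linear_combination (-2 * X ^ 4 * k ^ 2 + 2 * X ^ 4 * k + 2 * X ^ 3 * k ^ 2 * x + 10 * X ^ 3 * k ^ 2 - 2 * X ^ 3 * k * x - 8 * X ^ 3 * k - 2 * X ^ 3 - 12 * X ^ 2 * k ^ 2 * x - 10 * X ^ 2 * k ^ 2 + 6 * X ^ 2 * k * x + 4 * X ^ 2 * k + 6 * X ^ 2 + 2 * X * k ^ 2 * x ^ 2 + 16 * X * k ^ 2 * x - 6 * X * k ^ 2 + 2 * X * k * x ^ 2 - 2 * X * k * x + 8 * X * k - X - 6 * k ^ 2 * x ^ 2 + 4 * k ^ 2 * x + k ^ 2 - 2 * k * x ^ 2 - 4 * k * x + k + 2 * x - 4) * hc +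
    (X ^ 2 * k ^ 4 * x - 2 * X ^ 2 * k ^ 3 * x + 2 * X ^ 2 * k ^ 2 * x ^ 2 - X ^ 2 * k ^ 2 - 4 * X ^ 2 * k * x ^ 2 + 3 * X ^ 2 * k * x + 2 * X ^ 2 * k + 2 * X ^ 2 * x ^ 2 - 2 * X ^ 2 * x - X ^ 2 - 3 * X * k ^ 4 * x + 5 * X * k ^ 3 * x - 6 * X * k ^ 2 * x ^ 2 + 2 * X * k ^ 2 * x + 3 * X * k ^ 2 + 10 * X * k * x ^ 2 - 9 * X * k * x - 5 * X * k - 4 * X * x ^ 2 + 5 * X * x + 2 * X + k ^ 4 * x + k ^ 3 * x + 2 * k ^ 2 * x ^ 2 - 3 * k ^ 2 * x - k ^ 2 + 2 * k * x ^ 2 - k - x ^ 2 + x + 2) * hk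

include hk hc in
theorem closed {x : ℂ} (h0 : X - x ≠ 0) (h1 : rA X - x ≠ 0) (h2 : rB X - x ≠ 0) :
    yf X / (X - x) + k * (yf (rA X) / (rA X - x)) + k ^ 2 * (yf (rB X) / (rB X - x)) =
      Sk k X * Qk k x := by
  have hf := fac hc x
  have hd : x ^ 3 - 3 * x ^ 2 + 1 ≠ 0 := by
    intro h
    rw [h, neg_zero] at hf
    exact mul_ne_zero h0 (mul_ne_zero h1 h2) hf
  have hn := num hk hc x
  unfold Qk
  have e1 : yf X / (X - x) + k * (yf (rA X) / (rA X - x)) + k ^ 2 * (yf (rB X) / (rB X - x)) =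
      (yf X * ((rA X - x) * (rB X - x)) + k * yf (rA X) * ((X - x) * (rB X - x)) +
        k ^ 2 * yf (rB X) * ((X - x) * (rA X - x))) / ((X - x) * ((rA X - x) * (rB X - x))) := by
    field_simp
  rw [e1, hn, hf, neg_div_neg_eq, mul_div_assoc]

include hk hc in
lemma Sk_cube : Sk k X ^ 3 = -(81 * (k + 2)) := by
  unfold Sk rA rB
  linear_combination (X ^ 3 * k ^ 12 - 3 * X ^ 3 * k ^ 11 + 8 * X ^ 3 * k ^ 9 - 6 * X ^ 3 * k ^ 8 - 6 * X ^ 3 * k ^ 7 + 8 * X ^ 3 * k ^ 6 - 3 * X ^ 3 * k ^ 4 + X ^ 3 * k ^ 3 - 6 * X ^ 2 * k ^ 12 + 15 * X ^ 2 * k ^ 11 + 9 * X ^ 2 * k ^ 10 - 48 * X ^ 2 * k ^ 9 + 12 * X ^ 2 * k ^ 8 + 54 * X ^ 2 * k ^ 7 - 30 * X ^ 2 * k ^ 6 - 24 * X ^ 2 * k ^ 5 + 18 * X ^ 2 * k ^ 4 + 3 * X ^ 2 * k ^ 3 - 3 * X ^ 2 * k ^ 2 + 12 * X * k ^ 12 - 18 * X * k ^ 11 - 42 * X * k ^ 10 + 69 * X * k ^ 9 + 54 * X * k ^ 8 - 102 * X * k ^ 7 - 30 * X * k ^ 6 + 72 * X * k ^ 5 + 6 * X * k ^ 4 - 24 * X * k ^ 3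 + 3 * X * k - 10 * k ^ 12 - 3 * k ^ 11 + 54 * k ^ 10 + 9 * k ^ 9 - 111 * k ^ 8 - 12 * k ^ 7 + 110 * k ^ 6 + 12 * k ^ 5 - 54 * k ^ 4 - 9 * k ^ 3 + 12 * k ^ 2 + 3 * k - 1) * hc +
    (6 * X ^ 2 * k ^ 10 - 3 * X ^ 2 * k ^ 9 - 18 * X ^ 2 * k ^ 8 + 3 * X ^ 2 * k ^ 7 + 21 * X ^ 2 * k ^ 6 + 9 * X ^ 2 * k ^ 5 - 15 * X ^ 2 * k ^ 4 - 15 * X ^ 2 * k ^ 3 + 9 * X ^ 2 * k ^ 2 + 6 * X ^ 2 * k - 3 * X ^ 2 - 21 * X * k ^ 10 + 9 * X * k ^ 9 + 72 * X * k ^ 8 - 24 * X * k ^ 7 - 90 * X * k ^ 6 + 18 * X * k ^ 5 + 48 * X * k ^ 4 - 9 * X * k ^ 2 - 3 * X * k + 11 * k ^ 10 - 2 * k ^ 9 - 54 * k ^ 8 + 37 * k ^ 7 + 95 * k ^ 6 - 126 * k ^ 5 - 44 * k ^ 4 + 176 * k ^ 3 - 90 * k ^ 2 - 85 * k + 163) * hk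

end alg

/-! ### valuations -/

section val

variable {Γ : Type*} [LinearOrderedCommGroupWithZero Γ] {v : Valuation ℂ Γ} (h3 : v 3 < 1)

lemma v_k {k : ℂ} (hk : k ^ 2 + k + 1 = 0) : v k = 1 := by
  refine Pool.Agent.Y715.T.Cg.z_pow (k := 3) (by norm_num) ?_
  linear_combination (k - 1) * hk

include h3 in
lemma v_one_sub {k : ℂ} (hk : k ^ 2 + k + 1 = 0) : v (1 - k) = v lam := by
  have h1 : (1 - k) * (1 - k) = -(3 * k) := by linear_combination hk
  have h2 : v (1 - k) * v (1 - k) = v lam * v lam := by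
    rw [← map_mul, h1, v.map_neg, map_mul, v_k hk, mul_one, sq_three]
  rw [← pow_two, ← pow_two] at h2
  exact (pow_left_inj₀ zero_le zero_le two_ne_zero).1 h2

include h3 in
lemma v_one_sub2 {k : ℂ} (hk : k ^ 2 + k + 1 = 0) : v (1 - k ^ 2) = v lam :=
  v_one_sub h3 (k := k ^ 2) (by linear_combination (k ^ 2 - k + 1) * hk)

include h3 in
lemma v_Sk {k X : ℂ} (hk : k ^ 2 + k + 1 = 0) (hc : X ^ 3 - 3 * X ^ 2 + 1 = 0) :
    v (Sk k X) = v lam ^ 3 := by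
  have h1 := congrArg v (Sk_cube hk hc)
  have h2 : v (81 : ℂ) = v lam ^ 8 := by
    have : (81 : ℂ) = 9 * 9 := by norm_num
    rw [this, map_mul, Pool.Agent.Y715.T.Three.v_nine, ← pow_add]
  have h4 : v (k + 2) = v lam := by
    have e : k + 2 = 1 - k ^ 2 := by linear_combination hk
    rw [e]
    exact v_one_sub2 h3 hk
  rw [v.map_neg, map_mul, h2, h4, map_pow, ← pow_succ] at h1
  have h5 : v (Sk k X) ^ 3 = (v lam ^ 3) ^ 3 := by rw [h1, ← pow_mul]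
  exact (pow_left_inj₀ zero_le zero_le three_ne_zero).1 h5

include h3 in
/-- the correction is small -/
lemma del {k x : ℂ} (hk : k ^ 2 + k + 1 = 0) (ht : v (4 * x ^ 3 + 1) ≤ v lam ^ 3) :
    v (3 * Qk k x) < 1 := by
  have hl := lam_lt h3
  have hl0 := lam_pos (v := v)
  have hlne := lam_ne (v := v)
  obtain ⟨s, hs⟩ : ∃ s, s = x + 1 := ⟨_, rfl⟩
  have hx : x = s - 1 := by rw [hs]; ring
  have h4 : v (4 : ℂ) = 1 := by
    have : (4 : ℂ) = 2 * 2 := by norm_num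
    rw [this, map_mul, v_two h3, one_mul]
  have hq2 : v (3 : ℂ) = v lam ^ 2 := by rw [pow_two, sq_three]
  -- the cube of `s`
  have h5 : v (s * (s ^ 2 - 3 * s + 3)) = v lam ^ 2 := by
    have e1 : 4 * (s * (s ^ 2 - 3 * s + 3)) = (4 * x ^ 3 + 1) + 3 := by rw [hx]; ring
    have e2 := Pool.Agent.Y715.T.Three.add_ne h3 ht
    rw [← e1, map_mul, h4, one_mul, hq2] at e2
    exact e2
  have hbig : ∀ w : ℂ, v w ≤ v lam ^ 2 → v lam ^ 2 < v s ^ 2 → v (s ^ 2 + w) = v s ^ 2 := by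
    intro w hw hlt
    rw [v.map_add_eq_of_lt_left (by rw [map_pow]; exact hw.trans_lt hlt), map_pow]
  have hs1 : v s < 1 := by
    by_contra hcon
    push Not at hcon
    have e1 : v (s ^ 2 + (-3 * s + 3)) = v s ^ 2 := by
      rw [v.map_add_eq_of_lt_left, map_pow]
      rw [map_pow]
      have h6 : v (-3 * s + 3) ≤ v 3 * v s := by
        refine v.map_add_le ?_ ?_
        · rw [map_mul, v.map_neg]
        · calc v (3 : ℂ) = v 3 * 1 := (mul_one _).symm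
            _ ≤ v 3 * v s := mul_le_mul' le_rfl hcon
      refine h6.trans_lt ?_
      calc v 3 * v s < 1 * v s := mul_lt_mul_of_pos_right h3 (zero_lt_one.trans_le hcon)
        _ = v s * 1 := by rw [one_mul, mul_one]
        _ ≤ v s * v s := mul_le_mul' le_rfl hcon
        _ = v s ^ 2 := (pow_two _).symm
    have e2 : s ^ 2 - 3 * s + 3 = s ^ 2 + (-3 * s + 3) := by ring
    rw [e2, map_mul, e1] at h5
    have h6 : (1 : Γ) ≤ v s * v s ^ 2 := by
      calc (1 : Γ) = 1 * 1 ^ 2 := by rw [one_pow, mul_one]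
        _ ≤ v s * v s ^ 2 := mul_le_mul' hcon (pow_le_pow_left₀ zero_le hcon 2)
    rw [h5] at h6
    exact absurd (pow_lt_one₀ zero_le hl two_ne_zero) (not_lt.2 h6)
  have hs2 : v lam < v s := by
    by_contra hcon
    push Not at hcon
    have h6 : v (s ^ 2 - 3 * s + 3) ≤ v lam ^ 2 := by
      refine v.map_add_le (v.map_sub_le ?_ ?_) hq2.le
      · rw [map_pow]
        exact pow_le_pow_left₀ zero_le hcon 2
      · rw [map_mul, hq2]
        calc v lam ^ 2 * v s ≤ v lam ^ 2 * 1 := mul_le_mul' le_rfl hs1.le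
          _ = v lam ^ 2 := mul_one _
    have h7 : v (s * (s ^ 2 - 3 * s + 3)) ≤ v lam * v lam ^ 2 := by
      rw [map_mul]
      exact mul_le_mul' hcon h6
    rw [h5] at h7
    have h8 : v lam * v lam ^ 2 < 1 * v lam ^ 2 :=
      mul_lt_mul_of_pos_right hl (pow_pos hl0 2)
    rw [one_mul] at h8
    exact absurd h7 (not_le.2 h8)
  have hs0 : 0 < v s := hl0.trans hs2
  have hsq : v lam ^ 2 < v s ^ 2 := pow_lt_pow_left₀ hs2 zero_le two_ne_zero
  have hcube : v s ^ 3 = v lam ^ 2 := by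
    have e1 := hbig (-3 * s + 3) (by
      refine v.map_add_le ?_ hq2.le
      rw [map_mul, v.map_neg, hq2]
      calc v lam ^ 2 * v s ≤ v lam ^ 2 * 1 := mul_le_mul' le_rfl hs1.le
        _ = v lam ^ 2 := mul_one _) hsq
    have e2 : s ^ 2 - 3 * s + 3 = s ^ 2 + (-3 * s + 3) := by ring
    rw [e2, map_mul, e1] at h5
    rw [pow_succ', h5]
  have hs3 : v s ^ 2 ≤ v lam := by
    by_contra hcon
    push Not at hcon
    have h6 : v lam ^ 3 < (v s ^ 2) ^ 3 := pow_lt_pow_left₀ hcon zero_le three_ne_zero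
    have h7 : (v s ^ 2) ^ 3 = v lam ^ 4 := by
      rw [← pow_mul, mul_comm, pow_mul, hcube, ← pow_mul]
    rw [h7] at h6
    exact absurd h6 (not_lt.2 (pow_le_pow_right_of_le_one' hl.le (by norm_num)))
  -- the numerator
  have hnum : v (2 * x ^ 2 + k ^ 2 * x - 1) ≤ v lam := by
    have e1 : 2 * x ^ 2 + k ^ 2 * x - 1 = 2 * s ^ 2 + (-(1 - k ^ 2) - 3) * s + (1 - k ^ 2) := by
      rw [hx]
      ring
    have h7 := v_one_sub2 h3 hk
    rw [e1]
    refine v.map_add_le (v.map_add_le ?_ ?_) h7.le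
    · rw [map_mul, v_two h3, one_mul, map_pow]
      exact hs3
    · rw [map_mul]
      have h8 : v (-(1 - k ^ 2) - 3) ≤ v lam := by
        refine v.map_sub_le (by rw [v.map_neg, h7]) ?_
        rw [hq2, pow_two]
        calc v lam * v lam ≤ v lam * 1 := mul_le_mul' le_rfl hl.le
          _ = v lam := mul_one _
      calc v (-(1 - k ^ 2) - 3) * v s ≤ v lam * 1 := mul_le_mul' h8 hs1.le
        _ = v lam := mul_one _
  -- the denominator
  have hlams : v lam ^ 2 < v s := by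
    rw [pow_two]
    calc v lam * v lam ≤ v lam * 1 := mul_le_mul' le_rfl hl.le
      _ = v lam := mul_one _
      _ < v s := hs2
  have hden : v (x ^ 3 - 3 * x ^ 2 + 1) = v lam ^ 2 * v s := by
    have e1 : 4 * (x ^ 3 - 3 * x ^ 2 + 1) =
        3 * ((2 * s - 3) * (1 - 2 * s)) + (4 * x ^ 3 + 1) := by
      rw [hx]
      ring
    have e2 : v (2 * s - 3) = v s := by
      rw [v.map_sub_eq_of_lt_left (by rw [map_mul, v_two h3, one_mul, hq2]; exact hlams),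
        map_mul, v_two h3, one_mul]
    have e3 : v (1 - 2 * s) = 1 := by
      rw [v.map_sub_eq_of_lt_left (by rw [map_mul, v_two h3, one_mul, map_one]; exact hs1),
        map_one]
    have e4 : v (3 * ((2 * s - 3) * (1 - 2 * s))) = v lam ^ 2 * v s := by
      rw [map_mul, map_mul, e2, e3, mul_one, hq2]
    have e5 : v (4 * (x ^ 3 - 3 * x ^ 2 + 1)) = v lam ^ 2 * v s := by
      rw [e1, v.map_add_eq_of_lt_left, e4]
      rw [e4]
      refine ht.trans_lt ?_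
      rw [pow_succ]
      exact mul_lt_mul_of_pos_left hs2 (pow_pos hl0 2)
    rwa [map_mul, h4, one_mul] at e5
  unfold Qk
  rw [map_mul, map_div₀, hden, hq2]
  have h9 : v lam ^ 2 ≠ 0 := pow_ne_zero _ hlne
  have e6 : v lam ^ 2 * (v (2 * x ^ 2 + k ^ 2 * x - 1) / (v lam ^ 2 * v s)) =
      v (2 * x ^ 2 + k ^ 2 * x - 1) / v s := by
    field_simp
  rw [e6, div_lt_one₀ hs0]
  exact hnum.trans_lt hs2

end val

/-! ### the function of level `3 √-3` -/

/-- **The closed form.** -/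
theorem Rk_eq {L : PeriodPair} {Ω : ℂ} (hN : Nc L Ω) {κ : eis → ℂ} (hκ : Kp 1 κ) :
    ∃ k C : ℂ, k ^ 2 + k + 1 = 0 ∧ C ≠ 0 ∧
      (∀ (Γ : Type) [LinearOrderedCommGroupWithZero Γ] (v : Valuation ℂ Γ), v 3 < 1 →
        v C = v lam ^ 3) ∧
      ∀ x : ℂ, (∀ t : eis, ℘[L] (pt Ω 1 t) - x ≠ 0) → Rk L Ω 1 κ x = C * Qk k x := by
  obtain ⟨ε, hε2, hε⟩ := sgn_ex hN.toCur
  have hε0 : ε ≠ 0 := by
    rintro rfl
    norm_num at hε2
  have k0 : κ (1 + 3 * 0) = 1 := by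
    rw [mul_zero, add_zero]
    exact hκ.unit 1 isUnit_one
  set a := κ (1 + 3 * 1) with ha
  set b := κ (1 + 3 * (-1)) with hb
  have hper : ∀ x y : eis, x - y ∈ (sp la : Ideal eis) → κ (1 + 3 * x) = κ (1 + 3 * y) := by
    intro x y hxy
    refine kap_per hκ ?_
    rwa [mul_one]
  have hab : 1 + a + b = 0 := by
    have h1 := hκ.prim 0
    have h2 : (fun s : eis => κ (1 + 3 * (0 + 1 * s))) = fun s => κ (1 + 3 * s) := by
      funext s
      congr 1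
      ring
    rw [h2, sm_la hper, k0] at h1
    exact h1
  have hmul : a * b = 1 := by
    rw [ha, hb, ← hκ.mul, ← hκ.unit 1 isUnit_one]
    apply hκ.per
    refine mem_of la ?_
    unfold lv
    linear_combination (-3 : eis) * la_sq
  have hk : a ^ 2 + a + 1 = 0 := by linear_combination a * hab - hmul
  have hb2 : b = a ^ 2 := by linear_combination hab - hk
  have hk' : b ^ 2 + b + 1 = 0 := by
    rw [hb2]
    linear_combination (a ^ 2 - a + 1) * hk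
  have ha2 : a = b ^ 2 := by
    rw [hb2]
    linear_combination -(a ^ 2 - a) * hk
  set X := ℘[L] (pt Ω 1 0) with hX
  have hc : X ^ 3 - 3 * X ^ 2 + 1 = 0 := cub hN 0
  have hsum : ∀ x : ℂ, Rk L Ω 1 κ x = ε * (yf X / (X - x) +
      a * (yf (℘[L] (pt Ω 1 1)) / (℘[L] (pt Ω 1 1) - x)) +
      b * (yf (℘[L] (pt Ω 1 (-1))) / (℘[L] (pt Ω 1 (-1)) - x))) := by
    intro x
    unfold Rk
    rw [mul_one, sm_la]
    · rw [k0, ord hN hε, ord hN hε, ord hN hε]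
      ring
    · intro s t hst
      rw [hper s t hst]
      have h1 : pt Ω 1 s - pt Ω 1 t ∈ L.lattice := pt_per hN.toCur one_ne_zero (by rwa [mul_one])
      rw [wp_per h1, dwp_per h1]
  have hSne : ∀ k : ℂ, k ^ 2 + k + 1 = 0 → Sk k X ≠ 0 := by
    intro k hk h0
    have h1 := Sk_cube hk hc
    rw [h0] at h1
    have h2 : k = -2 := by linear_combination (1 / 81 : ℂ) * h1
    rw [h2] at hk
    norm_num at hk
  have hvε : ∀ (Γ : Type) [LinearOrderedCommGroupWithZero Γ] (v : Valuation ℂ Γ), v ε = 1 := by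
    intro Γ _ v
    exact Pool.Agent.Y715.T.Cg.z_pow (k := 2) (by norm_num) hε2
  rcases others hN hε2 hε with ⟨h1, h2⟩ | ⟨h1, h2⟩
  · refine ⟨a, ε * Sk a X, hk, mul_ne_zero hε0 (hSne a hk), fun Γ _ v hv => ?_, fun x hx => ?_⟩
    · rw [map_mul, hvε, one_mul, v_Sk hv hk hc]
    · have n0 := hx 0
      have n1 := hx 1
      have n2 := hx (-1)
      rw [h1] at n1
      rw [h2] at n2
      rw [hsum, h1, h2, hb2, closed hk hc n0 n1 n2, mul_assoc]
  · refine ⟨b, ε * Sk b X, hk', mul_ne_zero hε0 (hSne b hk'), fun Γ _ v hv => ?_, fun x hx => ?_⟩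
    · rw [map_mul, hvε, one_mul, v_Sk hv hk' hc]
    · have n0 := hx 0
      have n1 := hx 1
      have n2 := hx (-1)
      rw [h1] at n1
      rw [h2] at n2
      have h4 := closed hk' hc n0 n2 n1
      rw [← ha2] at h4
      rw [hsum, h1, h2, mul_assoc, ← h4]
      ring

end Pool.Agent.H91.Cst
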