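import Pool.Agent.H91.Lev

/-!
# The characters modulo `3 √-3` that factor through the norm
-/

set_option autoImplicit false
set_option linter.unusedSectionVars false
set_option linter.unusedVariables false

open scoped Classical

namespace Pool.Agent.H91.Kc

open Pool.Agent.Y692.QS (Ei w nr toC)
open Pool.Agent.W192.HK
open Pool.Agent.Y696 hiding nr
open Pool.Agent.Y715.Dist Pool.Agent.Y715.T.Lat
open Pool.Agent.Y715.T.Rs (eq0)
open Pool.Agent.Y715.T.LF (rd rd_ez rd_eq_zero)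
open Pool.Agent.Y715.CT.Hec (rd_la rd_omr la_ne)
open Pool.Agent.Y703.CT (toC_w_add)
open Pool.Agent.H91.Lev

/-- the exponent of the norm modulo nine -/
def ex (n : ℤ) : ZMod 3 := (((n - 1) / 3 : ℤ) : ZMod 3)

lemma ex_congr {m n : ℤ} (h : (9 : ℤ) ∣ m - n) : ex m = ex n := by
  unfold ex
  obtain ⟨k, hk⟩ := h
  have e1 : (m - 1) / 3 = (n - 1) / 3 + 3 * k := by omega
  rw [e1]
  push_cast
  have h3 : (3 : ZMod 3) = 0 := by decide
  rw [h3]
  ring

lemma ex_mul {m n : ℤ} (hm : (3 : ℤ) ∣ m - 1) (hn : (3 : ℤ) ∣ n - 1) :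
    ex (m * n) = ex m + ex n := by
  unfold ex
  obtain ⟨a, ha⟩ := hm
  obtain ⟨b, hb⟩ := hn
  have h3 : (3 : ZMod 3) = 0 := by decide
  have e1 : m = 1 + 3 * a := by linarith
  have e2 : n = 1 + 3 * b := by linarith
  subst e1 e2
  have e3 : (1 + 3 * a) * (1 + 3 * b) - 1 = 3 * (a + b + 3 * (a * b)) := by ring
  rw [e3, Int.mul_ediv_cancel_left _ (by norm_num), add_sub_cancel_left, add_sub_cancel_left,
    Int.mul_ediv_cancel_left _ (by norm_num), Int.mul_ediv_cancel_left _ (by norm_num)]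
  push_cast
  rw [h3]
  ring

lemma ex_one : ex 1 = 0 := by decide

lemma nr_mod (α : Ei) : (3 : ℤ) ∣ nr α ∨ (3 : ℤ) ∣ nr α - 1 := by
  unfold Pool.Agent.Y692.QS.nr
  set a := α.re
  set b := α.im
  have h : a ^ 2 - a * b + b ^ 2 = (a + b) ^ 2 - 3 * (a * b) := by ring
  rw [h]
  have h1 : (a + b) % 3 = 0 ∨ (a + b) % 3 = 1 ∨ (a + b) % 3 = 2 := by omega
  rcases h1 with h1 | h1 | h1
  · left
    obtain ⟨k, hk⟩ : ∃ k, a + b = 3 * k := ⟨(a + b) / 3, by omega⟩
    exact ⟨3 * k ^ 2 - a * b, by rw [hk]; ring⟩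
  · right
    obtain ⟨k, hk⟩ : ∃ k, a + b = 3 * k + 1 := ⟨(a + b) / 3, by omega⟩
    exact ⟨3 * k ^ 2 + 2 * k - a * b, by rw [hk]; ring⟩
  · right
    obtain ⟨k, hk⟩ : ∃ k, a + b = 3 * k + 2 := ⟨(a + b) / 3, by omega⟩
    exact ⟨3 * k ^ 2 + 4 * k + 1 - a * b, by rw [hk]; ring⟩

lemma nr_one_of {α : Ei} (h : ¬ (3 : ℤ) ∣ nr α) : (3 : ℤ) ∣ nr α - 1 := (nr_mod α).resolve_left h

lemma cop_iff {x : eis} : IsCoprime x 3 ↔ ¬ (3 : ℤ) ∣ nr (eq0.symm x) := by
  set α := eq0.symm x with hα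
  have hx : IsCoprime x 3 ↔ IsCoprime α 3 := by
    constructor
    · intro h
      have := h.map (eq0.symm : eis →+* Ei)
      rwa [map_ofNat] at this
    · intro h
      have := h.map (eq0 : Ei →+* eis)
      rw [map_ofNat] at this
      have e : (eq0 : Ei →+* eis) α = x := eq0.apply_symm_apply x
      rwa [e] at this
  rw [hx]
  constructor
  · rintro ⟨a, b, hab⟩ h3
    have h1 : nr (a * α) = nr (1 - b * 3) := by
      congr 1
      linear_combination hab
    rw [Pool.Agent.Y692.QS.nr_mul] at h1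
    have h2 : (3 : ℤ) ∣ nr (1 - b * 3) - 1 := by
      have e3 : (3 : Ei) = ⟨3, 0⟩ := rfl
      have e1 : (1 : Ei) = ⟨1, 0⟩ := rfl
      have e : (1 - b * 3 : Ei) = ⟨1 - 3 * b.re, -(3 * b.im)⟩ := by
        rw [e3, e1]
        ext
        · simp
          ring
        · simp
          ring
      rw [e]
      unfold Pool.Agent.Y692.QS.nr
      simp only
      exact ⟨-2 * b.re + 3 * b.re ^ 2 + b.im - 3 * b.re * b.im + 3 * b.im ^ 2, by ring⟩
    rw [← h1] at h2
    have h4 : (3 : ℤ) ∣ nr a * nr α := h3.mul_left _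
    omega
  · intro h3
    obtain ⟨k, hk⟩ := nr_one_of h3
    have h4 := Pool.Agent.Y692.QS.mul_star α
    refine ⟨star α, -(k : Ei), ?_⟩
    have h5 : ((nr α : ℤ) : Ei) = 1 + 3 * (k : Ei) := by
      have : nr α = 1 + 3 * k := by linarith
      rw [this]
      push_cast
      ring
    linear_combination h4 + h5

/-- the character -/
noncomputable def kc (c : ZMod 3) (x : eis) : ℂ :=
  if (3 : ℤ) ∣ nr (eq0.symm x) then 0 else toC w ^ (c * ex (nr (eq0.symm x))).val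

variable {c : ZMod 3}

lemma kc_of {x : eis} (h : IsCoprime x 3) : kc c x = toC w ^ (c * ex (nr (eq0.symm x))).val := by
  unfold kc
  rw [if_neg (cop_iff.1 h)]

lemma kc_cube {x : eis} (h : IsCoprime x 3) : kc c x ^ 3 = 1 := by
  rw [kc_of h, ← pow_mul, mul_comm, pow_mul, Pool.Agent.Y715.T.Fin.toC_w_cube, one_pow]

lemma kc_zero {x : eis} (h : ¬ IsCoprime x 3) : kc c x = 0 := by
  unfold kc
  rw [cop_iff, not_not] at h
  rw [if_pos h]

lemma nine_dvd (x y : eis) (h : x - y ∈ (sp (lv 1) : Ideal eis)) :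
    (9 : ℤ) ∣ nr (eq0.symm x) - nr (eq0.symm y) := by
  obtain ⟨s, hs⟩ := ex_mem h
  have e1 : eq0.symm la = ⟨1, 2⟩ := by
    rw [RingEquiv.symm_apply_eq]
    apply Subtype.ext
    rw [Pool.Agent.Y715.T.Rs.eq0_coe, Pool.Agent.Y703.CT.toC_eq']
    unfold la
    rw [ez_coe]
  have e2 : eq0.symm x = eq0.symm y + 3 * (⟨1, 2⟩ * eq0.symm s) := by
    have : x = y + 3 * (la * s) := by
      unfold lv at hs
      linear_combination hs
    rw [this, map_add, map_mul, map_mul, map_ofNat, e1]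
  rw [e2]
  generalize eq0.symm y = β
  generalize eq0.symm s = t
  have e3 : (3 : Ei) = ⟨3, 0⟩ := rfl
  have e : (β + 3 * (⟨1, 2⟩ * t) : Ei) = ⟨β.re + 3 * (t.re - 2 * t.im), β.im + 3 * (2 * t.re - t.im)⟩ := by
    rw [e3]
    ext
    · simp
      ring
    · simp
      ring
  rw [e]
  unfold Pool.Agent.Y692.QS.nr
  simp only
  refine ⟨-β.re * t.im + β.im * t.re + (t.re - 2 * t.im) ^ 2 -
    (t.re - 2 * t.im) * (2 * t.re - t.im) + (2 * t.re - t.im) ^ 2, ?_⟩
  ring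

lemma kc_mul (x y : eis) : kc c (x * y) = kc c x * kc c y := by
  by_cases hx : IsCoprime x 3
  · by_cases hy : IsCoprime y 3
    · rw [kc_of hx, kc_of hy, kc_of (hx.mul_left hy), ← toC_w_add, map_mul,
        Pool.Agent.Y692.QS.nr_mul, ex_mul (nr_one_of (cop_iff.1 hx)) (nr_one_of (cop_iff.1 hy)),
        mul_add]
    · rw [kc_zero hy, mul_zero, kc_zero]
      intro h
      exact hy h.of_mul_left_right
  · rw [kc_zero hx, zero_mul, kc_zero]
    intro h
    exact hx h.of_mul_left_left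

/-- the linear formula -/
lemma nr_lin (a b : ℤ) : nr (eq0.symm (1 + 3 * ez a b)) =
    1 + 3 * (2 * a - b) + 9 * (a ^ 2 - a * b + b ^ 2) := by
  have e1 : eq0.symm (ez a b) = ⟨a, b⟩ := by
    rw [RingEquiv.symm_apply_eq]
    apply Subtype.ext
    rw [Pool.Agent.Y715.T.Rs.eq0_coe, Pool.Agent.Y703.CT.toC_eq', ez_coe]
  rw [map_add, map_mul, map_one, map_ofNat, e1, Pool.Agent.Y703.CT.nr_form]
  rfl

lemma ex_lin (a b : ℤ) : ex (nr (eq0.symm (1 + 3 * ez a b))) = ((2 * a - b : ℤ) : ZMod 3) := by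
  rw [nr_lin, ex_congr (n := 1 + 3 * (2 * a - b)) ⟨a ^ 2 - a * b + b ^ 2, by ring⟩]
  unfold ex
  rw [add_sub_cancel_left, Int.mul_ediv_cancel_left _ (by norm_num)]

lemma cop13 (t : eis) : IsCoprime (1 + 3 * t) 3 := ⟨1, -t, by ring⟩

lemma w_pow_ne {a : ZMod 3} (ha : a ≠ 0) : toC w ^ a.val ≠ 1 := by
  intro h3
  have h4 : toC w ^ a.val = toC w ^ 0 := by rw [h3, pow_zero]
  have h5 := Pool.Agent.Y715.T.Fin.w_pow_mod h4
  rw [ZMod.natCast_zmod_val, Nat.cast_zero] at h5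
  exact ha h5

lemma kc_prim (hc : c ≠ 0) (x : eis) : Sm la (fun s => kc c (1 + 3 * (x + 1 * s))) = 0 := by
  have hper : ∀ y z : eis, y - z ∈ (sp la : Ideal eis) → kc c (1 + 3 * y) = kc c (1 + 3 * z) := by
    intro y z hyz
    rw [kc_of (cop13 y), kc_of (cop13 z)]
    congr 2
    congr 1
    apply ex_congr
    apply nine_dvd
    obtain ⟨s, hs⟩ := ex_mem hyz
    exact mem_of s (by unfold lv; linear_combination 3 * hs)
  have h1 : Sm la (fun s => kc c (1 + 3 * (x + 1 * s))) = Sm la (fun s => kc c (1 + 3 * s)) := by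
    have h2 := Sm_shift (finq la la_ne) x (F := fun t => kc c (1 + 3 * t)) hper
    rw [← h2]
    refine Finset.sum_congr rfl fun t _ => ?_
    beta_reduce
    rw [one_mul]
  rw [h1]
  have : Finite (eis ⧸ (sp la : Ideal eis)) := finq la la_ne
  have : Fintype (eis ⧸ (sp la : Ideal eis)) := Fintype.ofFinite _
  -- multiplication by `1 + 3`
  have h4 := Sm_shift (finq la la_ne) 1 (F := fun t => kc c (1 + 3 * t)) hper
  have h5 : ∀ t : eis, kc c (1 + 3 * (1 + t)) = kc c 4 * kc c (1 + 3 * t) := by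
    intro t
    rw [← kc_mul]
    rw [show (4 : eis) * (1 + 3 * t) = 1 + 3 * (1 + t + 3 * t) by ring]
    apply hper
    exact mem_of (la * t) (by rw [← mul_assoc]; linear_combination -t * la_sq)
  have h6 : Sm la (fun t => kc c (1 + 3 * (1 + t))) = kc c 4 * Sm la (fun t => kc c (1 + 3 * t)) := by
    rw [← Sm_mul_left]
    exact Finset.sum_congr rfl fun t _ => h5 t
  have h7 : kc c 4 ≠ 1 := by
    have e4 : (4 : eis) = 1 + 3 * ez 1 0 := by
      rw [ez_one]
      ring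
    rw [e4, kc_of (cop13 _), ex_lin]
    apply w_pow_ne
    norm_num
    exact ⟨hc, by decide⟩
  have h8 : (kc c 4 - 1) * Sm la (fun t => kc c (1 + 3 * t)) = 0 := by
    have h9 : Sm la (fun t => kc c (1 + 3 * (1 + t))) = Sm la (fun t => kc c (1 + 3 * t)) := h4
    rw [h6] at h9
    linear_combination h9
  exact (mul_eq_zero.1 h8).resolve_left (sub_ne_zero.2 h7)

lemma kc_bd (x : eis) : ‖kc c x‖ ≤ 1 := by
  by_cases hx : IsCoprime x 3
  · exact (Complex.norm_eq_one_of_pow_eq_one (kc_cube hx) (by norm_num)).le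
  · rw [kc_zero hx, norm_zero]
    exact zero_le_one

lemma kc_unit (u : eis) (hu : IsUnit u) : kc c u = 1 := by
  have h1 : IsCoprime u 3 := by
    obtain ⟨v, hv⟩ := hu.exists_right_inv
    exact ⟨v, 0, by linear_combination hv⟩
  have h2 : nr (eq0.symm u) = 1 := by
    rw [← Pool.Agent.Y692.QS.isUnit_iff]
    exact hu.map eq0.symm
  rw [kc_of h1, h2, ex_one, mul_zero, ZMod.val_zero, pow_zero]

lemma kc_per (x y : eis) (h : x - y ∈ (sp (lv 1) : Ideal eis)) : kc c x = kc c y := by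
  have h1 := nine_dvd x y h
  have h2 : (3 : ℤ) ∣ nr (eq0.symm x) ↔ (3 : ℤ) ∣ nr (eq0.symm y) := by omega
  unfold kc
  rw [ex_congr h1]
  by_cases h3 : (3 : ℤ) ∣ nr (eq0.symm y)
  · rw [if_pos h3, if_pos (h2.2 h3)]
  · rw [if_neg h3, if_neg (fun h4 => h3 (h2.1 h4))]

/-- the conditions -/
theorem kp_kc (hc : c ≠ 0) : Kp 1 (kc c) :=
  ⟨one_ne_zero, kc_per, kc_mul, kc_bd, kc_unit, kc_prim hc⟩

end Pool.Agent.H91.Kc
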