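import Pool.Graph.R_seed8.Y699.E.Fin
import Pool.Agent.H91.Kc

/-!
# Mean values for the cubic characters twisted by a character of the norm modulo nine
-/

set_option autoImplicit false
set_option linter.unusedVariables false

open Finset

namespace Pool.Agent.H91.Dz

open Pool.Agent.Y692.QS (Ei w nr)
open Pool.Agent.Y715.T.Rec (cs)
open Pool.Agent.Y715.T.RecG (Pq)
open Pool.Agent.Y699.E
open scoped ComplexConjugate

/-- the class of the norm, with the value zero at the multiples of `√-3` -/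
noncomputable def cz (t : ZMod 3) (a : Ei) : ℂ := if (3 : ℤ) ∣ nr a then 0 else ez (t * tht a)

lemma tht_ex (a : Ei) : tht a = Pool.Agent.H91.Kc.ex (nr a) := rfl

lemma cz_one (t : ZMod 3) : cz t 1 = 1 := by
  unfold cz
  have h1 : nr (1 : Ei) = 1 := by decide
  have h2 : tht 1 = 0 := by
    rw [tht_ex, h1]
    exact Pool.Agent.H91.Kc.ex_one
  rw [if_neg (by rw [h1]; norm_num), h2, mul_zero, ez_zero]

lemma cz_mul (t : ZMod 3) (a b : Ei) : cz t (a * b) = cz t a * cz t b := by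
  unfold cz
  have h3 : Prime (3 : ℤ) := Int.prime_three
  by_cases ha : (3 : ℤ) ∣ nr a
  · rw [if_pos ha, if_pos (by rw [Pool.Agent.Y692.QS.nr_mul]; exact ha.mul_right _), zero_mul]
  by_cases hb : (3 : ℤ) ∣ nr b
  · rw [if_pos hb, if_pos (by rw [Pool.Agent.Y692.QS.nr_mul]; exact hb.mul_left _), mul_zero]
  have hab : ¬ (3 : ℤ) ∣ nr (a * b) := by
    rw [Pool.Agent.Y692.QS.nr_mul]
    exact fun h => (h3.dvd_or_dvd h).elim ha hb
  rw [if_neg ha, if_neg hb, if_neg hab, tht_ex, tht_ex, tht_ex, Pool.Agent.Y692.QS.nr_mul,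
    Pool.Agent.H91.Kc.ex_mul (Pool.Agent.H91.Kc.nr_one_of ha) (Pool.Agent.H91.Kc.nr_one_of hb),
    mul_add, ez_add]

lemma cz_prm {t : ZMod 3} {a : Ei} (ha : prm a) : cz t a = ez (t * tht a) := by
  unfold cz
  obtain ⟨k, hk⟩ := prm_nr ha
  rw [if_neg]
  rw [hk]
  omega

lemma cz_norm (t : ZMod 3) (a : Ei) : ‖cz t a‖ ≤ 1 := by
  unfold cz
  split_ifs
  · simp
  · rw [norm_ez]

/-- the twisted character -/
noncomputable def xz (t : ZMod 3) (A B : Ei) (a : Ei) : ℂ := xab A B a * cz t a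

lemma xz_ch {t : ZMod 3} {A B : Ei} (hA : PS A) (hB : PS B) : CH (xz t A B) := by
  have h := xab_ch hA hB
  refine ⟨?_, ?_, ?_⟩
  · unfold xz
    rw [h.one, cz_one, one_mul]
  · intro a b
    unfold xz
    rw [h.mul, cz_mul]
    ring
  · intro a
    unfold xz cz
    by_cases h3 : (3 : ℤ) ∣ nr a
    · left; rw [if_pos h3, mul_zero]
    · rw [if_neg h3]
      unfold xab
      rcases jac_cases A a with h1 | ⟨c, h1⟩
      · left; rw [h1, zero_mul, zero_mul]
      · rcases jac_cases B a with h' | ⟨c', h'⟩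
        · left; rw [h', map_zero, mul_zero, zero_mul]
        · right
          rw [h1, h', conj_ez, ← ez_add, ← ez_add]
          exact ez_val _

lemma three_nine : (3 : Ei) ∣ 9 := ⟨3, by norm_num⟩

lemma nrm_nine : nrm (9 : Ei) = 81 := by decide

lemma nine_ne : (9 : Ei) ≠ 0 := by decide

/-- prescribed symbols, in a class modulo nine -/
lemma exists_twz {S : Finset Ei} (hS : ∀ ρ ∈ S, Pq ρ) {π : Ei} (hπ : Pq π) (hπS : π ∉ S) :
    ∃ c : Ei, (9 : Ei) ∣ c - 1 ∧ chi π c ≠ 1 ∧ chi π c ≠ 0 ∧ (∀ ρ ∈ S, chi ρ c = 1) := by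
  set m : Ei := 9 * ∏ ρ ∈ S, ρ with hm
  have hcop : IsCoprime π m := by
    refine IsCoprime.mul_right ?_ ?_
    · have h3 : IsCoprime π (3 : Ei) := (hπ.prime.irreducible.coprime_iff_not_dvd).2 hπ.norm
      have h9 : (9 : Ei) = 3 * 3 := by norm_num
      rw [h9]
      exact h3.mul_right h3
    · rw [IsCoprime.prod_right_iff]
      intro ρ hρ
      exact pq_cop hπ (hS ρ hρ) fun h => hπS (by rw [h]; exact hρ)
  obtain ⟨b, hb0, hb⟩ := exists_nonres hπ
  obtain ⟨x, y, hxy⟩ := hcop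
  set a : Ei := x * π + b * (y * m) with ha
  have ha1 : m ∣ a - 1 := ⟨b * y - y, by rw [ha]; linear_combination hxy⟩
  have ha2 : π ∣ a - b := ⟨x - b * x, by rw [ha]; linear_combination b * hxy⟩
  refine ⟨a, (dvd_mul_right _ _).trans ha1, ?_, ?_, ?_⟩
  · rw [chi_per hπ ha2, chi_of hb0]
    exact ez_ne hb
  · rw [chi_per hπ ha2, chi_of hb0]
    exact ez_ne_zero _
  · intro ρ hρ
    have h1 : ρ ∣ a - 1 := (Finset.dvd_prod_of_mem _ hρ).trans ((dvd_mul_left _ _).trans ha1)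
    rw [chi_per (hS ρ hρ) h1, chi_one (hS ρ hρ)]

open Classical in
/-- the twisted symbol, on primary elements -/
noncomputable def FZ (t : ZMod 3) (x x' a : Ei) : ℂ := if prm a then xz t x x' a else 0

lemma nr_per {a b : Ei} (h : (9 : Ei) ∣ a - b) : (9 : ℤ) ∣ nr a - nr b := by
  obtain ⟨k, hk⟩ := h
  have e : a = b + 9 * k := by linear_combination hk
  have h9 : ∀ (b k : Ei), nr (b + 9 * k) - nr b = 9 * (2 * b.re * k.re - b.re * k.im - b.im * k.re +
      2 * b.im * k.im + 9 * (k.re ^ 2 - k.re * k.im + k.im ^ 2)) := by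
    intro b k
    have e9 : (9 : Ei) = ⟨9, 0⟩ := by decide
    have e1 : (b + 9 * k).re = b.re + 9 * k.re := by
      rw [e9, QuadraticAlgebra.re_add, Pool.Agent.Y692.QS.mul_re]
      show b.re + (9 * k.re - 0 * k.im) = _
      ring
    have e2 : (b + 9 * k).im = b.im + 9 * k.im := by
      rw [e9, QuadraticAlgebra.im_add, Pool.Agent.Y692.QS.mul_im]
      show b.im + (9 * k.im + 0 * k.re - 0 * k.im) = _
      ring
    show (b + 9 * k).re ^ 2 - (b + 9 * k).re * (b + 9 * k).im + (b + 9 * k).im ^ 2 -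
      (b.re ^ 2 - b.re * b.im + b.im ^ 2) = _
    rw [e1, e2]
    ring
  rw [e, h9]
  exact dvd_mul_right _ _

lemma cz_per {t : ZMod 3} {a b : Ei} (h : (9 : Ei) ∣ a - b) : cz t a = cz t b := by
  have h9 := nr_per h
  unfold cz
  have h3 : (3 : ℤ) ∣ nr a ↔ (3 : ℤ) ∣ nr b := by
    constructor <;> intro h1 <;> omega
  rw [tht_ex, tht_ex, Pool.Agent.H91.Kc.ex_congr h9]
  by_cases h4 : (3 : ℤ) ∣ nr a
  · rw [if_pos h4, if_pos (h3.1 h4)]
  · rw [if_neg h4, if_neg (fun h => h4 (h3.2 h))]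

lemma FZ_norm (t : ZMod 3) (x x' a : Ei) : ‖FZ t x x' a‖ ≤ 1 := by
  unfold FZ xz xab
  split_ifs
  · rw [norm_mul, norm_mul, Complex.norm_conj]
    exact mul_le_one₀ (mul_le_one₀ (jac_norm _ _) (norm_nonneg _) (jac_norm _ _)) (norm_nonneg _)
      (cz_norm _ _)
  · simp

lemma prm_per {a b : Ei} (e1 : (3 : Ei) ∣ a - b) : prm a ↔ prm b := by
  unfold prm
  constructor
  · intro h
    have := dvd_sub h e1
    have e : a - 1 - (a - b) = b - 1 := by ring
    rwa [e] at this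
  · intro h
    have := dvd_add h e1
    have e : b - 1 + (a - b) = a - 1 := by ring
    rwa [e] at this

/-- the sum vanishes over the periods if there is a suitable multiplier -/
lemma FZ_mult {t : ZMod 3} {x x' : Ei} (hx : PS x) (hx' : PS x') {c : Ei} (hc1 : prm c)
    (hcop : IsCoprime c (9 * (x * x'))) (hc : xz t x x' c ≠ 1) (V : ℕ) :
    ‖∑ a ∈ ZB V, FZ t x x' a‖ ≤ 243 * (nrm x * nrm x') * (3 * Real.sqrt V + 1) := by
  classical
  have hq : 9 * (x * x') ≠ 0 := mul_ne_zero nine_ne (mul_ne_zero hx.ne hx'.ne)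
  have hch := xz_ch (t := t) hx hx'
  have h3 := csum hq (f := FZ t x x') ?_ (FZ_norm t x x') hcop hc ?_ V
  · refine h3.trans (le_of_eq ?_)
    rw [nrm_mul, nrm_mul, nrm_nine]
    push_cast
    ring
  · intro a b hab
    unfold FZ
    have e9 : (9 : Ei) ∣ a - b := (dvd_mul_right _ _).trans hab
    have e1 : (3 : Ei) ∣ a - b := three_nine.trans e9
    have e2 : x ∣ a - b := ((dvd_mul_right _ _).trans (dvd_mul_left _ _)).trans hab
    have e3 : x' ∣ a - b := ((dvd_mul_left _ _).trans (dvd_mul_left _ _)).trans hab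
    have e4 := prm_per e1
    have e5 : xz t x x' a = xz t x x' b := by
      unfold xz xab
      rw [jac_per hx.ne e2, jac_per hx'.ne e3, cz_per e9]
    by_cases h : prm a
    · rw [if_pos h, if_pos (e4.1 h), e5]
    · rw [if_neg h, if_neg (fun hh => h (e4.2 hh))]
  · intro a
    unfold FZ
    have e4 : prm (c * a) ↔ prm a :=
      ⟨fun h => prm_cancel hc1 h, fun h => prm_mul hc1 h⟩
    by_cases h : prm a
    · rw [if_pos h, if_pos (e4.2 h), hch.mul]
    · rw [if_neg h, if_neg (fun hh => h (e4.1 hh)), mul_zero]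

lemma cz_nine {t : ZMod 3} {c : Ei} (h : (9 : Ei) ∣ c - 1) : cz t c = 1 := by
  rw [cz_per h, cz_one]

lemma cop_prm {c x x' : Ei} (hc1 : prm c) (h1 : IsCoprime c x) (h2 : IsCoprime c x') :
    IsCoprime c (9 * (x * x')) := by
  have h3 : IsCoprime c (3 : Ei) := by
    obtain ⟨k, hk⟩ := hc1
    exact ⟨1, -k, by linear_combination hk⟩
  have h9 : (9 : Ei) = 3 * 3 := by norm_num
  rw [h9]
  exact (h3.mul_right h3).mul_right (h1.mul_right h2)

lemma FZ_sum_aux {t : ZMod 3} {x x' : Ei} (hx : PS x) (hx' : PS x') {π : Ei}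
    (h : (π ∈ PD x ∧ π ∉ PD x') ∨ (π ∈ PD x' ∧ π ∉ PD x))
    (V : ℕ) : ‖∑ a ∈ ZB V, FZ t x x' a‖ ≤ 243 * (nrm x * nrm x') * (3 * Real.sqrt V + 1) := by
  classical
  have hπ : Pq π := by
    rcases h with ⟨h, -⟩ | ⟨h, -⟩
    · exact ((mem_PD hx.ne).1 h).1
    · exact ((mem_PD hx'.ne).1 h).1
  have hS : ∀ ρ ∈ (PD x ∪ PD x').erase π, Pq ρ := by
    intro ρ hρ
    have := mem_of_mem_erase hρ
    rw [mem_union] at this
    rcases this with h | h
    · exact ((mem_PD hx.ne).1 h).1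
    · exact ((mem_PD hx'.ne).1 h).1
  obtain ⟨c, hc9, hc2, hc4, hc3⟩ := exists_twz hS hπ (notMem_erase _ _)
  have hc1 : prm c := three_nine.trans hc9
  have hone : ∀ {z : Ei}, (PD z ⊆ PD x ∪ PD x') → π ∉ PD z → jac z c = 1 := by
    intro z hz hn
    refine prod_eq_one fun ρ hρ => hc3 ρ ?_
    rw [mem_erase]
    exact ⟨fun h => hn (by rw [← h]; exact hρ), hz hρ⟩
  have hval : ∀ {z : Ei}, (PD z ⊆ PD x ∪ PD x') → π ∈ PD z → jac z c = chi π c := by
    intro z hz hn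
    unfold jac
    rw [← mul_prod_erase (PD z) _ hn, prod_eq_one, mul_one]
    intro ρ hρ
    exact hc3 ρ (mem_erase.2 ⟨ne_of_mem_erase hρ, hz (mem_of_mem_erase hρ)⟩)
  have s1 : PD x ⊆ PD x ∪ PD x' := subset_union_left
  have s2 : PD x' ⊆ PD x ∪ PD x' := subset_union_right
  have hne : jac x c ≠ 0 ∧ jac x' c ≠ 0 := by
    rcases h with ⟨h1, h2⟩ | ⟨h1, h2⟩
    · rw [hval s1 h1, hone s2 h2]
      exact ⟨hc4, one_ne_zero⟩
    · rw [hval s2 h1, hone s1 h2]
      exact ⟨one_ne_zero, hc4⟩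
  refine FZ_mult hx hx' hc1 (cop_prm hc1 (jac_cop hx hne.1).symm (jac_cop hx' hne.2).symm) ?_ V
  unfold xz xab
  rw [cz_nine hc9, mul_one]
  rcases h with ⟨h1, h2⟩ | ⟨h1, h2⟩
  · rw [hval s1 h1, hone s2 h2, map_one, mul_one]
    exact hc2
  · rw [hval s2 h1, hone s1 h2, one_mul]
    intro h3
    apply hc2
    have h4 := congrArg conj h3
    rwa [Complex.conj_conj, map_one] at h4

theorem FZ_sum {t : ZMod 3} {x x' : Ei} (hx : PS x) (hx' : PS x') (hne : x ≠ x' ∨ t ≠ 0) (V : ℕ) :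
    ‖∑ a ∈ ZB V, FZ t x x' a‖ ≤ 243 * (nrm x * nrm x') * (3 * Real.sqrt V + 1) := by
  classical
  by_cases hxx : x = x'
  · subst hxx
    have ht : t ≠ 0 := hne.resolve_left (fun h => h rfl)
    -- an element equal to four modulo nine and one modulo `x`
    have hcop : IsCoprime x (9 : Ei) := by
      have h3 : IsCoprime x (3 : Ei) := by
        obtain ⟨k, hk⟩ := hx.prm
        exact ⟨1, -k, by linear_combination hk⟩
      have h9 : (9 : Ei) = 3 * 3 := by norm_num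
      rw [h9]
      exact h3.mul_right h3
    obtain ⟨a, b, hab⟩ := hcop
    set c : Ei := 4 * (a * x) + b * 9 with hc
    have c1 : x ∣ c - 1 := ⟨3 * a, by rw [hc]; linear_combination hab⟩
    have c2 : (9 : Ei) ∣ c - 4 := ⟨-3 * b, by rw [hc]; linear_combination 4 * hab⟩
    have hc1 : prm c := by
      obtain ⟨k, hk⟩ := c2
      exact ⟨3 * k + 1, by linear_combination hk⟩
    have hj : jac x c = 1 := by rw [jac_per hx.ne c1, jac_one_right hx.ne]
    have hcx : IsCoprime c x := (jac_cop hx (by rw [hj]; exact one_ne_zero)).symm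
    refine FZ_mult hx hx hc1 (cop_prm hc1 hcx hcx) ?_ V
    unfold xz xab
    rw [hj, map_one, one_mul, one_mul, cz_per c2]
    have h4 : cz t 4 = ez (t * 2) := by
      unfold cz
      have h5 : nr (4 : Ei) = 16 := by decide
      have h6 : tht 4 = 2 := by
        rw [tht_ex, h5]
        decide
      rw [if_neg (by rw [h5]; norm_num), h6]
    rw [h4]
    apply ez_ne
    intro h0
    rcases mul_eq_zero.1 h0 with h7 | h7
    · exact ht h7
    · exact absurd h7 (by decide)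
  · have h1 : PD x ≠ PD x' := by
      intro h
      apply hxx
      rw [← hx.prod, ← hx'.prod, h]
    by_cases h2 : PD x ⊆ PD x'
    · have h3 : ¬ PD x' ⊆ PD x := fun h => h1 (Subset.antisymm h2 h)
      obtain ⟨π, hπ, hπ'⟩ := not_subset.1 h3
      exact FZ_sum_aux hx hx' (Or.inr ⟨hπ, hπ'⟩) V
    · obtain ⟨π, hπ, hπ'⟩ := not_subset.1 h2
      exact FZ_sum_aux hx hx' (Or.inl ⟨hπ, hπ'⟩) V

/-- character sums -/
lemma chsz_le {t : ZMod 3} {A B : Ei} (hA : PS A) (hB : PS B) (h1 : A ≠ B ∨ t ≠ 0) {v : ℕ} (hv : 1 ≤ v) :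
    ‖∑ d ∈ PB v, xz t A B d‖ ≤ 972 * (nrm A * nrm B : ℕ) * Real.sqrt v := by
  classical
  have h := FZ_sum hA hB h1 v
  have e : ∑ a ∈ ZB v, FZ t A B a = ∑ d ∈ PB v, xz t A B d := by
    unfold PB
    rw [sum_filter]
    refine sum_congr rfl fun a _ => ?_
    unfold FZ
    rfl
  rw [e] at h
  have h2 : (1 : ℝ) ≤ Real.sqrt v := Real.one_le_sqrt.2 (by exact_mod_cast hv)
  have h3 : (0 : ℝ) ≤ (nrm A : ℝ) * nrm B := by positivity
  refine h.trans ?_
  push_cast
  nlinarith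

theorem chsz_log {t : ZMod 3} {A B : Ei} (hA : PS A) (hB : PS B) (h1 : A ≠ B ∨ t ≠ 0) (Y : ℕ) :
    ‖∑ d ∈ PB Y, xz t A B d / nrm d‖ ≤ 1992 * lg (nrm A * nrm B) := by
  classical
  have hN1 : 1 ≤ nrm A * nrm B := Nat.mul_pos (nrm_pos' hA.ne) (nrm_pos' hB.ne)
  have hch := xz_ch (t := t) hA hB
  set χ := xz t A B with hχ
  set N := nrm A * nrm B with hN
  have hlg := one_le_lg N
  rcases Nat.eq_zero_or_pos Y with h0 | hY
  · have : PB Y = ∅ := by
      rw [eq_empty_iff_forall_notMem]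
      intro x hx
      rw [mem_PB] at hx
      have := nrm_pos' (prm_ne_zero hx.2)
      omega
    rw [this, sum_empty, norm_zero]
    linarith
  have hYr : (0 : ℝ) < Y := by exact_mod_cast hY
  -- summation by parts
  have e1 : ∑ d ∈ PB Y, χ d / nrm d = (∑ d ∈ PB Y, χ d) * ((1 / Y : ℝ) : ℂ) +
      ∑ v ∈ Ico 1 Y, (∑ d ∈ PB v, χ d) * ((1 / ((v : ℝ) * (v + 1)) : ℝ) : ℂ) := by
    have e2 : ∀ d ∈ PB Y, χ d / nrm d = χ d * ((1 / Y : ℝ) : ℂ) +
        ∑ v ∈ Ico 1 Y, if nrm d ≤ v then χ d * ((1 / ((v : ℝ) * (v + 1)) : ℝ) : ℂ) else 0 := by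
      intro d hd
      rw [mem_PB] at hd
      have hd1 := nrm_pos' (prm_ne_zero hd.2)
      have h2 := inv_tel (nrm d) hd1 Y hd.1
      have h3 : χ d / (nrm d : ℂ) = χ d * ((1 / (nrm d : ℝ) : ℝ) : ℂ) := by
        push_cast
        rw [mul_one_div]
      rw [h3, h2, Complex.ofReal_add, mul_add]
      congr 1
      rw [Complex.ofReal_sum, mul_sum, ← sum_filter]
      refine sum_congr ?_ fun _ _ => rfl
      ext v
      rw [mem_filter, mem_Ico, mem_Ico]
      constructor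
      · rintro ⟨a1, a2⟩; exact ⟨⟨by omega, a2⟩, a1⟩
      · rintro ⟨⟨-, a2⟩, a1⟩; exact ⟨a1, a2⟩
    rw [sum_congr rfl e2, sum_add_distrib, ← sum_mul, sum_comm]
    congr 1
    refine sum_congr rfl fun v hv => ?_
    rw [mem_Ico] at hv
    rw [← sum_filter, ← sum_mul]
    congr 1
    refine sum_congr ?_ fun _ _ => rfl
    ext d
    rw [mem_filter, mem_PB, mem_PB]
    constructor
    · rintro ⟨⟨-, a2⟩, a1⟩; exact ⟨a1, a2⟩
    · rintro ⟨a1, a2⟩; exact ⟨⟨by omega, a2⟩, a1⟩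
  rw [e1]
  refine (norm_add_le _ _).trans ?_
  have nr : ∀ {r : ℝ}, 0 ≤ r → ‖(r : ℂ)‖ = r := fun {r} h => by
    rw [Complex.norm_real, Real.norm_of_nonneg h]
  have e3 : ‖(∑ d ∈ PB Y, χ d) * ((1 / Y : ℝ) : ℂ)‖ ≤ 16 := by
    rw [norm_mul, nr (by positivity), mul_one_div, div_le_iff₀ hYr]
    exact chs_le' hch hY
  have e4 : ∀ v ∈ Ico 1 Y, ‖(∑ d ∈ PB v, χ d) * ((1 / ((v : ℝ) * (v + 1)) : ℝ) : ℂ)‖ ≤
      (if v < N ^ 2 then 16 * (1 / ((v : ℝ) + 1)) else 0) +
      (if N ^ 2 ≤ v then 972 * N * (Real.sqrt v / (v * (v + 1))) else 0) := by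
    intro v hv
    rw [mem_Ico] at hv
    have v0 : (0 : ℝ) < v := by exact_mod_cast hv.1
    have hp : (0 : ℝ) < 1 / ((v : ℝ) * (v + 1)) := by positivity
    rw [norm_mul, nr hp.le]
    by_cases h : v < N ^ 2
    · rw [if_pos h, if_neg (by omega), add_zero]
      calc ‖∑ d ∈ PB v, χ d‖ * (1 / ((v : ℝ) * (v + 1))) ≤ (16 * v) * (1 / ((v : ℝ) * (v + 1))) :=
            mul_le_mul_of_nonneg_right (chs_le' hch hv.1) hp.le
        _ = 16 * (1 / ((v : ℝ) + 1)) := by field_simp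
    · rw [if_neg h, if_pos (by omega), zero_add]
      calc ‖∑ d ∈ PB v, χ d‖ * (1 / ((v : ℝ) * (v + 1))) ≤
            (972 * N * Real.sqrt v) * (1 / ((v : ℝ) * (v + 1))) :=
            mul_le_mul_of_nonneg_right (chsz_le hA hB h1 hv.1) hp.le
        _ = 972 * N * (Real.sqrt v / (v * (v + 1))) := by ring
  have e5 : ‖∑ v ∈ Ico 1 Y, (∑ d ∈ PB v, χ d) * ((1 / ((v : ℝ) * (v + 1)) : ℝ) : ℂ)‖ ≤
      16 * (2 * lg N) + 1944 := by
    refine (norm_sum_le _ _).trans ((sum_le_sum e4).trans ?_)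
    rw [sum_add_distrib]
    have hN2 : 1 ≤ N ^ 2 := Nat.one_le_pow _ _ hN1
    have a1 : ∑ v ∈ Ico 1 Y, (if v < N ^ 2 then 16 * (1 / ((v : ℝ) + 1)) else 0) ≤ 16 * (2 * lg N) := by
      rw [← sum_filter, ← mul_sum]
      have h2 : ∑ v ∈ (Ico 1 Y).filter (fun v => v < N ^ 2), (1 : ℝ) / ((v : ℝ) + 1) ≤
          ∑ v ∈ Ico 1 (N ^ 2), (1 : ℝ) / ((v : ℝ) + 1) := by
        refine sum_le_sum_of_subset_of_nonneg ?_ (fun _ _ _ => by positivity)
        intro v hv
        rw [mem_filter, mem_Ico] at hv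
        rw [mem_Ico]
        exact ⟨hv.1.1, hv.2⟩
      have h3 := harm_le (N ^ 2) hN2
      have h4 : Real.log ((N ^ 2 : ℕ) : ℝ) = 2 * Real.log N := by
        push_cast
        rw [Real.log_pow]
        push_cast
        ring
      rw [h4] at h3
      have h5 := log_le_lg hN1
      linarith
    have a2 : ∑ v ∈ Ico 1 Y, (if N ^ 2 ≤ v then 972 * (N : ℝ) * (Real.sqrt v / (v * (v + 1))) else 0) ≤ 1944 := by
      rw [← sum_filter, ← mul_sum]
      have h2 : ∑ v ∈ (Ico 1 Y).filter (fun v => N ^ 2 ≤ v), Real.sqrt v / ((v : ℝ) * (v + 1)) ≤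
          ∑ v ∈ Ico (N ^ 2) (max Y (N ^ 2)), Real.sqrt v / ((v : ℝ) * (v + 1)) := by
        refine sum_le_sum_of_subset_of_nonneg ?_ (fun _ _ _ => by positivity)
        intro v hv
        rw [mem_filter, mem_Ico] at hv
        rw [mem_Ico]
        exact ⟨hv.2, lt_of_lt_of_le hv.1.2 (le_max_left _ _)⟩
      have h3 := sqrt_tel (N ^ 2) hN2 (max Y (N ^ 2)) (le_max_right _ _)
      have h4 : Real.sqrt ((N ^ 2 : ℕ) : ℝ) = N := by
        push_cast
        exact Real.sqrt_sq (Nat.cast_nonneg _)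
      rw [h4] at h3
      have h5 : (0 : ℝ) ≤ 1 / Real.sqrt ((max Y (N ^ 2) : ℕ) : ℝ) := by positivity
      have Nr : (0 : ℝ) < N := by exact_mod_cast hN1
      calc 972 * (N : ℝ) * ∑ v ∈ (Ico 1 Y).filter (fun v => N ^ 2 ≤ v), Real.sqrt v / ((v : ℝ) * (v + 1))
          ≤ 972 * N * (2 * (1 / N)) := by
            apply mul_le_mul_of_nonneg_left _ (by positivity)
            linarith
        _ = 1944 := by field_simp; norm_num
    linarith
  linarith

/-- **the mean value for a character** -/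
theorem hallz {t : ZMod 3} {A B : Ei} (hA : PS A) (hB : PS B) (h1 : A ≠ B ∨ t ≠ 0) (T : ℕ) :
    ∑ n ∈ SB T, mf (fun π => (1 + 2 * (xz t A B π).re) / 3) n ≤
      5670 * (lg (nrm A * nrm B)) ^ (1 / 3 : ℝ) * (T * (lg T) ^ (-(1 / 3) : ℝ)) := by
  classical
  rcases Nat.eq_zero_or_pos T with h0 | hT
  · rw [SB_empty h0, sum_empty]
    have h2 := lg_pos T
    have h3 := lg_pos (nrm A * nrm B)
    positivity
  have hch := xz_ch (t := t) hA hB
  have hl := one_le_lg (nrm A * nrm B)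
  have hlT := lg_pos T
  have hAA : ∑ n ∈ PB (T ^ 3), mf (fun π => 3 * ((1 + 2 * (xz t A B π).re) / 3)) n / nrm n ≤
      (19683000 * lg (nrm A * nrm B)) * lg T ^ 2 := by
    have e1 : (fun π : Ei => 3 * ((1 + 2 * (xz t A B π).re) / 3)) = fun π => 1 + 2 * (xz t A B π).re := by
      funext π; ring
    rw [e1]
    refine (conv_bound hch (chsz_log hA hB h1) (T ^ 3)).trans ?_
    have e5 := lg_cube T
    have e6 := lg_pos (T ^ 3)
    have e7 : (32 * lg (T ^ 3)) ^ 2 ≤ (96 * lg T) ^ 2 := by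
      apply pow_le_pow_left₀ (by positivity)
      linarith
    calc (32 * lg (T ^ 3)) ^ 2 * (1992 * lg (nrm A * nrm B)) ≤ (96 * lg T) ^ 2 * (1992 * lg (nrm A * nrm B)) := by
          apply mul_le_mul_of_nonneg_right e7 (by positivity)
      _ = 18358272 * (lg (nrm A * nrm B) * lg T ^ 2) := by ring
      _ ≤ 19683000 * (lg (nrm A * nrm B) * lg T ^ 2) := by
          have : 0 ≤ lg (nrm A * nrm B) * lg T ^ 2 := by positivity
          linarith
      _ = _ := by ring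
  have hv := fun π => hch.val π
  have h2 := hall_aux (g := fun π => (1 + 2 * (xz t A B π).re) / 3)
    (fun π => by have := re_nonneg (hv π); linarith)
    (fun π => by have := re_le (hv π); linarith) hT (by linarith) hAA
  refine h2.trans (le_of_eq ?_)
  have e : (19683000 * lg (nrm A * nrm B)) ^ (1 / 3 : ℝ) = 270 * (lg (nrm A * nrm B)) ^ (1 / 3 : ℝ) := by
    rw [Real.mul_rpow (by norm_num) (by linarith)]
    congr 1
    rw [show (19683000 : ℝ) = 270 ^ (3 : ℝ) by norm_num, ← Real.rpow_mul (by norm_num)]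
    norm_num
  rw [e]
  ring


end Pool.Agent.H91.Dz
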