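import Pool.Agent.H91.Dz1

/-!
# The rooted Laplacian: the number of kernel elements as a character sum
-/

set_option autoImplicit false
set_option linter.unusedVariables false

open Finset

namespace Pool.Agent.H91.Dz

open Pool.Agent.Y692.QS (Ei w nr)
open Pool.Agent.Y715.T.Rec (cs)
open Pool.Agent.Y715.T.RecG (Pq)
open Pool.Agent.Y699.E
open scoped ComplexConjugate

/-- the rooted Laplacian -/
noncomputable def Lr (c : ZMod 3) {n : Ei} (x : PT n → ZMod 3) (π : PT n) : ZMod 3 :=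
  Lap x π - c * tht (π : Ei) * x π

open Classical in
/-- the number of kernel elements -/
noncomputable def KZ (c : ZMod 3) (n : Ei) : ℕ :=
  (univ.filter (fun x : PT n → ZMod 3 => ∀ π, Lr c x π = 0)).card

/-- the weight -/
noncomputable def wz (c : ZMod 3) (u : UU) (m : Ei) : ℂ := wt m * ez (-(c * Qf u * tht m))

lemma tht_one : tht 1 = 0 := by
  rw [tht_ex]
  decide

lemma tht_prod {ι : Type} [DecidableEq ι] (s : Finset ι) (f : ι → Ei) (hf : ∀ i, prm (f i)) :
    tht (∏ i ∈ s, f i) = ∑ i ∈ s, tht (f i) := by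
  induction s using Finset.induction_on with
  | empty => rw [prod_empty, sum_empty, tht_one]
  | insert a s ha ih =>
    have hs : prm (∏ i ∈ s, f i) := prod_induction _ prm (fun a b => prm_mul) prm_one fun i _ => hf i
    rw [prod_insert ha, sum_insert ha, tht_mul (hf a) hs, ih]

lemma wz_prt {c : ZMod 3} {n : Ei} (hn : PS n) (h : PT n → UU) :
    ∏ u, wz c u (prt h u) = (1 / 3) ^ (PD n).card * ez (-(c * ∑ π : PT n, tht (π : Ei) * Qf (h π))) := by
  classical
  unfold wz
  rw [prod_mul_distrib, wt_prt hn h, ← ez_sum]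
  congr 2
  have e1 : ∀ u, tht (prt h u) = ∑ π ∈ univ.filter (fun π => h π = u), tht (π : Ei) := by
    intro u
    unfold prt
    exact tht_prod _ (fun π : PT n => (π : Ei)) fun π => ((mem_PD hn.ne).1 π.2).1.three
  rw [sum_neg_distrib]
  congr 1
  rw [mul_sum]
  have e2 : ∀ u, c * Qf u * tht (prt h u) =
      ∑ π ∈ univ.filter (fun π => h π = u), c * (tht (π : Ei) * Qf (h π)) := by
    intro u
    rw [e1, mul_sum]
    refine sum_congr rfl fun π hπ => ?_
    rw [(mem_filter.1 hπ).2]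
    ring
  rw [sum_congr rfl (fun u _ => e2 u)]
  exact sum_fiberwise univ h (fun π => c * (tht (π : Ei) * Qf (h π)))

/-- **the number of kernel elements** -/
theorem KZ_eq {c : ZMod 3} {n : Ei} (hn : PS n) :
    (KZ c n : ℂ) = ∑ h : PT n → UU, (∏ u, wz c u (prt h u)) * TT (prt h) := by
  classical
  have e1 : (KZ c n : ℂ) = ∑ x : PT n → ZMod 3, ∏ π : PT n, (1 / 3) * ∑ k : ZMod 3, ez (k * Lr c x π) := by
    unfold KZ
    rw [card_eq_sum_ones, sum_filter]
    push_cast
    refine sum_congr rfl fun x _ => ?_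
    have e2 : ∀ π : PT n, (1 / 3 : ℂ) * ∑ k : ZMod 3, ez (k * Lr c x π) = if Lr c x π = 0 then 1 else 0 := by
      intro π
      rw [sum_ez]
      split_ifs <;> norm_num
    rw [prod_congr rfl (fun π _ => e2 π)]
    by_cases h : ∀ π, Lr c x π = 0
    · rw [if_pos h, prod_eq_one]
      intro π _
      rw [if_pos (h π)]
    · rw [if_neg h]
      push Not at h
      obtain ⟨π, hπ⟩ := h
      rw [prod_eq_zero (mem_univ π)]
      rw [if_neg hπ]
  have hcard : (univ : Finset (PT n)).card = (PD n).card := by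
    rw [card_univ]
    exact Fintype.card_coe (PD n)
  rw [e1]
  have e2 : ∀ x : PT n → ZMod 3, ∏ π : PT n, (1 / 3 : ℂ) * ∑ k : ZMod 3, ez (k * Lr c x π) =
      (1 / 3) ^ (PD n).card * ∑ y : PT n → ZMod 3, ez (∑ π, y π * Lr c x π) := by
    intro x
    rw [prod_mul_distrib, prod_const, hcard, Finset.prod_univ_sum, Fintype.piFinset_univ]
    congr 1
    refine sum_congr rfl fun y _ => ?_
    rw [ez_sum]
  rw [sum_congr rfl (fun x _ => e2 x), ← mul_sum]
  have e3 : ∑ h : PT n → UU, (∏ u, wz c u (prt h u)) * TT (prt h) =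
      (1 / 3) ^ (PD n).card * ∑ z : (PT n → ZMod 3) × (PT n → ZMod 3), ez (∑ π, z.2 π * Lr c z.1 π) := by
    rw [mul_sum]
    refine Fintype.sum_equiv (Equiv.arrowProdEquivProdArrow (PT n) (fun _ => ZMod 3) (fun _ => ZMod 3)) _ _ ?_
    intro h
    rw [TT_prt hn h, wz_prt hn h, mul_assoc, ← ez_add]
    congr 2
    show -(c * ∑ π : PT n, tht (π : Ei) * Qf (h π)) +
      ∑ π : PT n, ∑ ρ : PT n, cs (π : Ei) (ρ : Ei) * Qf (h π - h ρ) =
      ∑ π : PT n, (h π).2 * Lr c (fun π => (h π).1) π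
    have e4 := lap_sym hn.ne (fun π => (h π).1) (fun π => (h π).2)
    have e5 : ∑ π : PT n, (h π).2 * Lr c (fun π => (h π).1) π =
        ∑ π : PT n, (h π).2 * Lap (fun π => (h π).1) π - c * ∑ π : PT n, tht (π : Ei) * Qf (h π) := by
      rw [mul_sum, ← sum_sub_distrib]
      refine sum_congr rfl fun π _ => ?_
      unfold Lr Qf
      ring
    rw [e5, e4]
    ring
  rw [e3, Fintype.sum_prod_type]

lemma wz_norm (c : ZMod 3) (u : UU) (n : Ei) : ‖wz c u n‖ ≤ 1 := by
  unfold wz
  rw [norm_mul, norm_ez, mul_one]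
  exact wt_norm n

lemma norm_wz (c : ZMod 3) (u : UU) (n : Ei) : ‖wz c u n‖ = wtr n := by
  unfold wz
  rw [norm_mul, norm_ez, mul_one, norm_wt]

lemma Ind_supp {X : ℕ} : ∀ n, Ind X n ≠ 0 → PS n ∧ nrm n ≤ X := by
  intro n h
  unfold Ind at h
  by_contra h'
  rw [if_neg h'] at h
  exact h rfl

/-- **the average as a sum over factorisations** -/
theorem KZ_sum (c : ZMod 3) (X : ℕ) :
    ∑ n ∈ SB X, Ind X n * (KZ c n : ℂ) = ∑ f ∈ Fintype.piFinset (fun _ : UU => SB X),
      Ind X (∏ u, f u) * ((∏ u, wz c u (f u)) * TT f) := by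
  rw [J_all Ind_supp]
  refine sum_congr rfl fun n hn => ?_
  have hn' := (mem_SB.1 hn).2
  rw [KZ_eq hn']

end Pool.Agent.H91.Dz
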