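import Pool.Agent.H91.Dz2

/-!
# The rooted Laplacian: the first two regimes
-/

set_option autoImplicit false
set_option linter.unusedVariables false

open Finset

namespace Pool.Agent.H91.Dz

open Pool.Agent.Y692.QS (Ei w nr)
open Pool.Agent.Y715.T.Rec (cs)
open Pool.Agent.Y715.T.RecG (Pq)
open Pool.Agent.Y699.E
open scoped ComplexConjugate

lemma wz_one {c : ZMod 3} {u : UU} : wz c u 1 = 1 := by
  unfold wz
  rw [wt_one, tht_one, mul_zero, neg_zero, ez_zero, one_mul]

lemma wz_mul {c : ZMod 3} {g k : UU → Ei} (h : ∀ w, g w = 1 ∨ k w = 1) :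
    ∏ w, wz c w ((g * k) w) = (∏ w, wz c w (g w)) * ∏ w, wz c w (k w) := by
  rw [← prod_mul_distrib]
  refine prod_congr rfl fun w _ => ?_
  rw [Pi.mul_apply]
  rcases h w with h1 | h1
  · rw [h1, one_mul, wz_one, one_mul]
  · rw [h1, mul_one, wz_one, mul_one]

/-- the summand -/
noncomputable def HZ (c : ZMod 3) (X : ℕ) (f : UU → Ei) : ℂ :=
  Ind X (∏ u, f u) * ((∏ u, wz c u (f u)) * TT f)

lemma HZ_mul {c : ZMod 3} {X : ℕ} {g k : UU → Ei} (hg : ∀ w, PS (g w)) (hk : ∀ w, PS (k w))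
    (h : ∀ w, g w = 1 ∨ k w = 1) :
    HZ c X (g * k) = ((∏ w, wz c w (g w)) * TT g) * (Ind X ((∏ u, k u) * ∏ u, g u) *
      (TT k * ∏ w, (wz c w (k w) * psi g w (k w)))) := by
  unfold HZ
  rw [wz_mul h, TT_mul hg hk h, prod_mul_distrib]
  have : ∏ u, (g * k) u = (∏ u, k u) * ∏ u, g u := by
    rw [← prod_mul_distrib]
    refine prod_congr rfl fun u _ => ?_
    rw [Pi.mul_apply, mul_comm]
  rw [this]
  ring

lemma prod_wz_norm (c : ZMod 3) (g : UU → Ei) : ‖∏ w, wz c w (g w)‖ ≤ 1 := by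
  rw [norm_prod]
  exact prod_le_one (fun _ _ => norm_nonneg _) fun w _ => wz_norm _ _ _

lemma Ind_Phr (X : ℕ) (D : Ei) : ‖Ind X D‖ = Phr X D := by
  unfold Ind Phr
  split_ifs <;> simp

lemma norm_HZ (c : ZMod 3) (X : ℕ) (f : UU → Ei) :
    ‖HZ c X f‖ ≤ Phr X (∏ u, f u) * ∏ u, wtr (f u) := by
  unfold HZ
  rw [norm_mul, norm_mul, Ind_Phr]
  have h1 : ‖∏ u, wz c u (f u)‖ = ∏ u, wtr (f u) := by
    rw [norm_prod]
    exact prod_congr rfl fun u _ => norm_wz _ _ _
  rw [h1]
  apply mul_le_mul_of_nonneg_left _ (Phr_nonneg _ _)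
  exact mul_le_of_le_one_right (prod_nonneg fun u _ => (wtr_pos _).le) (TT_norm f)

/-- **two linked large variables** -/
theorem regAz (c : ZMod 3) : ∃ C : ℝ, 1 ≤ C ∧ ∀ (X Z : ℕ), 1 ≤ Z → ∀ (W : Finset UU) (u v : UU), u ∈ W → v ∈ W →
    Qf (u - v) ≠ 0 → ‖∑ f ∈ (FF X).filter (fun f => ls Z f = W), HZ c X f‖ ≤
      C * (X * lg X ^ 10) * (Z : ℝ) ^ (-(1 / 96) : ℝ) := by
  classical
  obtain ⟨C, hC1, hC⟩ := blq
  refine ⟨32 ^ 9 * C, by linarith, ?_⟩
  intro X Z hZ W u v hu hv hQ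
  have hlg := lg_pos X
  have huv : u ≠ v := by
    rintro rfl
    exact hQ (Qf_self u)
  rw [sum_filter, split_set X {u, v}]
  refine (norm_sum_le _ _).trans ?_
  have key : ∀ g ∈ FI X ({u, v} : Finset UU)ᶜ,
      ‖∑ k ∈ FI X {u, v}, if ls Z (g * k) = W then HZ c X (g * k) else 0‖ ≤
        (C * (X * lg X) * (Z : ℝ) ^ (-(1 / 96) : ℝ)) * ∏ w, (1 : ℝ) / nrm (g w) := by
    intro g hg
    have hgps := FI_ps hg
    have hr : prm (∏ w, g w) := prod_induction _ prm (fun a b => prm_mul) prm_one fun w _ => (hgps w).prm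
    have gu : g u = 1 := (mem_FI.1 hg).2 u (by rw [mem_compl, not_not]; exact mem_insert_self _ _)
    have gv : g v = 1 := (mem_FI.1 hg).2 v (by
      rw [mem_compl, not_not]; exact mem_insert_of_mem (mem_singleton_self _))
    rw [sum_pair X huv]
    have hm : 2 * (Qf (u - v)).val = 2 ∨ 2 * (Qf (u - v)).val = 4 := by
      have h3 : ∀ c : ZMod 3, c ≠ 0 → 2 * c.val = 2 ∨ 2 * c.val = 4 := by decide
      exact h3 _ hQ
    have h1 := hC (fun a => hi Z a * (wz c u a * psi g u a)) (fun b => hi Z b * (wz c v b * psi g v b))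
      (fun a => norm_mul_le' (hi_norm _ _) (norm_mul_le' (wz_norm _ _ _) (psi_norm _ _ _)))
      (fun a => norm_mul_le' (hi_norm _ _) (norm_mul_le' (wz_norm _ _ _) (psi_norm _ _ _))) Z X hZ
      (fun x hx => by rw [hi_zero hx, zero_mul]) (fun x hx => by rw [hi_zero hx, zero_mul]) (∏ w, g w) hr
      _ hm
    have e1 : ∑ a ∈ SB X, ∑ b ∈ SB X, (if ls Z (g * pr2 u v a b) = W then HZ c X (g * pr2 u v a b) else 0) =
        ((if (∀ w, w ≠ u → w ≠ v → (Z < nrm (g w) ↔ w ∈ W)) then 1 else 0) * ((∏ w, wz c w (g w)) * TT g)) *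
        ∑ a ∈ SB X, ∑ b ∈ SB X, Ind X (a * b * ∏ w, g w) *
          ((hi Z a * (wz c u a * psi g u a)) * (hi Z b * (wz c v b * psi g v b)) * jac a b ^ (2 * (Qf (u - v)).val)) := by
      rw [mul_sum]
      refine sum_congr rfl fun a ha => ?_
      rw [mul_sum]
      refine sum_congr rfl fun b hb => ?_
      have pa := (mem_SB.1 ha).2
      have pb := (mem_SB.1 hb).2
      have hk := pr2_mem huv ha hb
      have e2 : ls Z (g * pr2 u v a b) = W ↔ (Z < nrm a ∧ Z < nrm b) ∧
          ∀ w, w ≠ u → w ≠ v → (Z < nrm (g w) ↔ w ∈ W) := by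
        constructor
        · intro h
          have h2 : ∀ w, Z < nrm ((g * pr2 u v a b) w) ↔ w ∈ W := by
            intro w
            rw [← h]
            unfold ls
            rw [mem_filter]
            exact ⟨fun h => ⟨mem_univ _, h⟩, fun h => h.2⟩
          refine ⟨⟨?_, ?_⟩, ?_⟩
          · have := (h2 u).2 hu
            rwa [Pi.mul_apply, gu, one_mul, pr2_u] at this
          · have := (h2 v).2 hv
            rwa [Pi.mul_apply, gv, one_mul, pr2_v huv] at this
          · intro w w1 w2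
            have := h2 w
            rwa [Pi.mul_apply, pr2_o w1 w2, mul_one] at this
        · rintro ⟨⟨h2, h3⟩, h4⟩
          ext w
          unfold ls
          rw [mem_filter, Pi.mul_apply]
          by_cases w1 : w = u
          · subst w1
            rw [gu, one_mul, pr2_u]
            exact ⟨fun _ => hu, fun _ => ⟨mem_univ _, h2⟩⟩
          · by_cases w2 : w = v
            · subst w2
              rw [gv, one_mul, pr2_v huv]
              exact ⟨fun _ => hv, fun _ => ⟨mem_univ _, h3⟩⟩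
            · rw [pr2_o w1 w2, mul_one]
              exact ⟨fun h => (h4 w w1 w2).1 h.2, fun h => ⟨mem_univ _, (h4 w w1 w2).2 h⟩⟩
      have e3 : HZ c X (g * pr2 u v a b) = ((∏ w, wz c w (g w)) * TT g) * (Ind X (a * b * ∏ w, g w) *
          (jac a b ^ (2 * (Qf (u - v)).val) * ((wz c u a * psi g u a) * (wz c v b * psi g v b)))) := by
        rw [HZ_mul hgps (FI_ps hk) (FI_one hg hk), TT_pr2 huv pa pb,
          prod_pr2 huv (F := fun w => pr2 u v a b w) (fun w w1 w2 => pr2_o w1 w2 a b),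
          prod_pr2 huv (F := fun w => wz c w (pr2 u v a b w) * psi g w (pr2 u v a b w))
            (fun w w1 w2 => by rw [pr2_o w1 w2, wz_one, psi_one_right hgps, one_mul]), pr2_u, pr2_v huv]
      rw [e3]
      unfold hi
      by_cases c1 : Z < nrm a
      · by_cases c2 : Z < nrm b
        · by_cases c3 : ∀ w, w ≠ u → w ≠ v → (Z < nrm (g w) ↔ w ∈ W)
          · rw [if_pos (e2.2 ⟨⟨c1, c2⟩, c3⟩), if_pos c1, if_pos c2, if_pos c3]; ring
          · rw [if_neg (fun h => c3 (e2.1 h).2), if_neg c3]; ring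
        · rw [if_neg (fun h => c2 (e2.1 h).1.2), if_neg c2]; ring
      · rw [if_neg (fun h => c1 (e2.1 h).1.1), if_neg c1]; ring
    rw [e1, norm_mul]
    have h2 : ‖(if (∀ w, w ≠ u → w ≠ v → (Z < nrm (g w) ↔ w ∈ W)) then (1 : ℂ) else 0) *
        ((∏ w, wz c w (g w)) * TT g)‖ ≤ 1 := by
      refine norm_mul_le' ?_ (norm_mul_le' (prod_wz_norm c g) (TT_norm g))
      split_ifs <;> simp
    refine (mul_le_of_le_one_left (norm_nonneg _) h2).trans (h1.trans (le_of_eq ?_))
    rw [← nrm_prod_real]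
    ring
  refine (sum_le_sum key).trans ?_
  rw [← mul_sum]
  refine (mul_le_mul_of_nonneg_left (sum_inv_FI _) (by positivity)).trans (le_of_eq ?_)
  ring

/-- **few large variables** -/
theorem regBz (c : ZMod 3) {X Z : ℕ} (hZ : 1 ≤ Z) (hZX : Z ^ 18 ≤ X) {W : Finset UU} (hW : W.card ≤ 2) :
    ‖∑ f ∈ (FF X).filter (fun f => ls Z f = W), HZ c X f‖ ≤
      (882 * 32 ^ 9) * (X * lg Z ^ 9 * (lg X) ^ (-(1 / 3) : ℝ)) := by
  classical
  have hX : 1 ≤ X := (Nat.one_le_pow _ _ hZ).trans hZX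
  have hlX := lg_pos X
  have hlZ := lg_pos Z
  have hcard : 2 ≤ Fintype.card UU := by decide
  obtain ⟨S, hWS, hS⟩ := exists_superset_card_eq hW hcard
  rw [sum_filter]
  refine (norm_sum_le _ _).trans ?_
  have h1 : ∀ f ∈ FF X, ‖if ls Z f = W then HZ c X f else 0‖ ≤
      if (∀ w, w ∉ S → nrm (f w) ≤ Z) then Phr X (∏ u, f u) * ∏ u, wtr (f u) else 0 := by
    intro f _
    by_cases h : ls Z f = W
    · rw [if_pos h, if_pos]
      · exact norm_HZ c X f
      · intro w hw
        by_contra h2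
        apply hw
        apply hWS
        rw [← h]
        unfold ls
        rw [mem_filter]
        exact ⟨mem_univ _, by omega⟩
    · rw [if_neg h, norm_zero]
      split_ifs
      · exact mul_nonneg (Phr_nonneg _ _) (prod_nonneg fun u _ => (wtr_pos _).le)
      · exact le_rfl
  refine (sum_le_sum h1).trans ?_
  rw [split_set X S]
  have h2 : ∀ g ∈ FI X Sᶜ, ∑ k ∈ FI X S, (if (∀ w, w ∉ S → nrm ((g * k) w) ≤ Z) then
      Phr X (∏ u, (g * k) u) * ∏ u, wtr ((g * k) u) else 0) ≤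
      if sm Z g then (882 * (X * (lg X) ^ (-(1 / 3) : ℝ))) * ∏ w, (1 : ℝ) / nrm (g w) else 0 := by
    intro g hg
    have hgps := FI_ps hg
    have hr : prm (∏ w, g w) := prod_induction _ prm (fun a b => prm_mul) prm_one fun w _ => (hgps w).prm
    by_cases hs : sm Z g
    · rw [if_pos hs]
      have h3 : ∀ k ∈ FI X S, (if (∀ w, w ∉ S → nrm ((g * k) w) ≤ Z) then
          Phr X (∏ u, (g * k) u) * ∏ u, wtr ((g * k) u) else 0) ≤
          Phr X ((∏ u, k u) * ∏ w, g w) * ∏ u, wtr (k u) := by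
        intro k hk
        have h4 : ∏ u, (g * k) u = (∏ u, k u) * ∏ w, g w := by
          rw [← prod_mul_distrib]
          exact prod_congr rfl fun u _ => by rw [Pi.mul_apply, mul_comm]
        have h5 : ∏ u, wtr ((g * k) u) ≤ ∏ u, wtr (k u) := by
          refine prod_le_prod (fun u _ => (wtr_pos _).le) fun u _ => ?_
          rw [Pi.mul_apply]
          rcases FI_one hg hk u with h6 | h6
          · rw [h6, one_mul]
          · rw [h6, mul_one, wtr_one]
            exact wtr_le _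
        have h6 := Phr_nonneg X ((∏ u, k u) * ∏ w, g w)
        split_ifs
        · rw [h4]
          exact mul_le_mul_of_nonneg_left h5 h6
        · exact mul_nonneg h6 (prod_nonneg fun u _ => (wtr_pos _).le)
      refine (sum_le_sum h3).trans ((inner_two hX hS hr).trans ?_)
      have h4 := TB hZX (nrm_pos' (prm_ne_zero hr)) (sm_nrm hs)
      rw [← nrm_prod_real]
      calc 441 * (((X / nrm (∏ w, g w) : ℕ) : ℝ) * (lg (X / nrm (∏ w, g w))) ^ (-(1 / 3) : ℝ))
          ≤ 441 * (2 * (X * (lg X) ^ (-(1 / 3) : ℝ)) * (1 / nrm (∏ w, g w))) :=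
            mul_le_mul_of_nonneg_left h4 (by norm_num)
        _ = _ := by ring
    · rw [if_neg hs]
      refine le_of_eq (sum_eq_zero fun k hk => ?_)
      rw [if_neg]
      intro h3
      apply hs
      intro w
      by_cases hw : w ∈ S
      · rw [(mem_FI.1 hg).2 w (by rw [mem_compl, not_not]; exact hw), nrm_one]
        exact hZ
      · have := h3 w hw
        rwa [Pi.mul_apply, (mem_FI.1 hk).2 w hw, mul_one] at this
  refine (sum_le_sum h2).trans ?_
  rw [← sum_filter, ← mul_sum]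
  have h3 := sum_sm (X := X) (Z := Z) Sᶜ
  calc (882 * (X * (lg X) ^ (-(1 / 3) : ℝ))) *
        ∑ g ∈ (FI X Sᶜ).filter (fun g => sm Z g), ∏ w, (1 : ℝ) / nrm (g w)
      ≤ (882 * (X * (lg X) ^ (-(1 / 3) : ℝ))) * (32 * lg Z) ^ 9 :=
        mul_le_mul_of_nonneg_left h3 (by positivity)
    _ = _ := by ring


end Pool.Agent.H91.Dz
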