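import Pool.Agent.H91.Dz3

/-!
# The rooted Laplacian: the lines
-/

set_option autoImplicit false
set_option linter.unusedVariables false

open Finset

namespace Pool.Agent.H91.Dz

open Pool.Agent.Y692.QS (Ei w nr)
open Pool.Agent.Y715.T.Rec (cs)
open Pool.Agent.Y715.T.RecG (Pq)
open Pool.Agent.Y699.E
open scoped ComplexConjugate

lemma Ind_ne {X : ℕ} {D : Ei} (h : Ind X D ≠ 0) : PS D ∧ nrm D ≤ X := Ind_supp D h

lemma Ind_supp' {X : ℕ} {r : Ei} (hr : prm r) : ∀ n, Ind X (n * r) ≠ 0 → PS n ∧ nrm n ≤ X := by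
  intro n h
  apply Phr_supp hr n
  intro h0
  apply h
  have := Ind_Phr X (n * r)
  rw [h0] at this
  exact norm_eq_zero.1 this

/-- the form at the points of the line -/
lemma Qf_line (L : Ln) (k : ZMod 3) : Qf (L.e k) = k * L.de 0 + L.ka 0 := by
  rw [← L.form]
  unfold Qf
  simp only [Prod.fst_sub, Prod.snd_sub, Prod.fst_zero, Prod.snd_zero]
  ring

lemma ka_zero {L : Ln} (h0 : L.de 0 = 0) : L.ka 0 = 0 := by
  obtain ⟨k, hk⟩ := L.off 0 h0
  have h1 := Qf_line L k
  rw [← hk, h0, mul_zero, zero_add] at h1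
  rw [← h1]
  decide

/-- the local factor -/
lemma local_fz {c : ZMod 3} {L : Ln} {g : UU → Ei} {π : Ei} (hpq : Pq π) (hg : ∀ w, PS (g w))
    (h : PS (∏ w, g w)) (hπ : IsCoprime (∏ w, g w) π) :
    ‖∑ w ∈ L.pts, (1 / 3 : ℂ) * psi g w π * ez (-(c * Qf w * tht π))‖ =
      (1 + 2 * (xz (-(c * L.de 0)) (LA L g) (LB L g) π).re) / 3 := by
  classical
  have hcop : ∀ w, IsCoprime (g w) π := fun w =>
    hπ.of_isCoprime_of_dvd_left (dvd_prod_of_mem _ (mem_univ w))
  have hj : ∀ w, ∃ j : ZMod 3, jac (g w) π = ez j := by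
    intro w
    rcases jac_cases (g w) π with h1 | h1
    · exact absurd h1 (jac_ne_zero (hg w) (hcop w))
    · exact h1
  choose j hj using hj
  obtain ⟨hA, hB, -⟩ := LAB (L := L) (fun w => (hg w).prm) h
  set D : ZMod 3 := ∑ w, 2 * j w * L.de w with hD
  set K : ZMod 3 := ∑ w, 2 * j w * L.ka w with hK
  have e1 : ∀ k : ZMod 3, psi g (L.e k) π = ez (k * D + K) := by
    intro k
    unfold psi
    have e2 : ∀ w, jac (g w) π ^ (2 * (Qf (w - L.e k)).val) = ez (k * (2 * j w * L.de w) + 2 * j w * L.ka w) := by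
      intro w
      rw [hj w, pow_mul, sq, ← ez_add, ez_pow_val, L.form]
      congr 1
      ring
    rw [prod_congr rfl (fun w _ => e2 w), ← ez_sum, sum_add_distrib, ← mul_sum]
  set D' : ZMod 3 := D - c * L.de 0 * tht π with hD'
  set K' : ZMod 3 := K - c * L.ka 0 * tht π with hK'
  have e3 : ∑ w ∈ L.pts, (1 / 3 : ℂ) * psi g w π * ez (-(c * Qf w * tht π)) =
      ez K' * (if D' = 0 then 1 else 0) := by
    unfold Ln.pts
    rw [sum_image (fun a _ b _ hab => L.inj hab)]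
    have e4 : ∀ k ∈ (univ : Finset (ZMod 3)), (1 / 3 : ℂ) * psi g (L.e k) π *
        ez (-(c * Qf (L.e k) * tht π)) = (1 / 3 * ez K') * ez (k * D') := by
      intro k _
      have e7 : (1 / 3 * ez K') * ez (k * D') = 1 / 3 * ez (K' + k * D') := by
        rw [mul_assoc, ← ez_add]
      have e8 : (1 / 3 : ℂ) * ez (k * D + K) * ez (-(c * Qf (L.e k) * tht π)) =
          1 / 3 * ez (k * D + K + -(c * Qf (L.e k) * tht π)) := by
        rw [mul_assoc, ← ez_add]
      rw [e1, e7, e8, Qf_line]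
      congr 2
      rw [hD', hK']
      ring
    rw [sum_congr rfl e4, ← mul_sum, sum_ez]
    split_ifs
    · ring
    · ring
  have e5 : xab (LA L g) (LB L g) π = ez D := by
    unfold xab LA LB
    unfold LA at hA
    unfold LB at hB
    rw [jac_prod_left g (fun w => (hg w).prm) π _ hA, jac_prod_left g (fun w => (hg w).prm) π _ hB,
      prod_congr rfl (fun w _ => hj w), prod_congr rfl (fun w _ => hj w), ← ez_sum, ← ez_sum, conj_ez, ← ez_add,
      sum_filter, sum_filter, ← sum_neg_distrib, ← sum_add_distrib, hD]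
    congr 1
    refine sum_congr rfl fun w _ => ?_
    have h3 : ∀ c j : ZMod 3, (if c = 2 then j else 0) + -(if c = 1 then j else 0) = 2 * j * c := by decide
    exact h3 _ _
  have e6 : xz (-(c * L.de 0)) (LA L g) (LB L g) π = ez D' := by
    unfold xz
    rw [e5, cz_prm hpq.three, ← ez_add]
    congr 1
    rw [hD']
    ring
  rw [e3, e6, norm_mul, norm_ez, one_mul]
  by_cases h0 : D' = 0
  · rw [if_pos h0, h0, ez_zero]
    norm_num
  · rw [if_neg h0, CH.root_re (ez_root h0)]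
    norm_num

/-- the inner sum -/
noncomputable def IZ (c : ZMod 3) (X : ℕ) (L : Ln) (g : UU → Ei) : ℂ :=
  ∑ n ∈ SB X, Ind X (n * ∏ w, g w) *
    ∏ π ∈ PD n, ∑ w ∈ L.pts, (1 / 3 : ℂ) * psi g w π * ez (-(c * Qf w * tht π))

lemma IZ_one (c : ZMod 3) (X : ℕ) {L : Ln} (h0 : L.de 0 = 0) : IZ c X L 1 = ∑ n ∈ SB X, Ind X n := by
  unfold IZ
  refine sum_congr rfl fun n _ => ?_
  have h1 : ∏ w : UU, (1 : UU → Ei) w = 1 := prod_eq_one fun w _ => rfl
  have h2 : ∀ (w : UU) (π : Ei), psi 1 w π = 1 := by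
    intro w π
    unfold psi
    refine prod_eq_one fun w' _ => ?_
    rw [Pi.one_apply, jac_one_left, one_pow]
  rw [h1, mul_one, prod_eq_one, mul_one]
  intro π _
  have h3 : ∀ w ∈ L.pts, (1 / 3 : ℂ) * psi 1 w π * ez (-(c * Qf w * tht π)) = 1 / 3 := by
    intro w hw
    unfold Ln.pts at hw
    obtain ⟨k, -, rfl⟩ := mem_image.1 hw
    rw [h2, Qf_line, h0, ka_zero h0, mul_zero, add_zero, mul_zero, zero_mul, neg_zero, ez_zero, mul_one,
      mul_one]
  rw [sum_congr rfl h3, sum_const, L.card]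
  norm_num

lemma ez_tht {n : Ei} {q : ZMod 3} (hn : PS n) : ez (-(q * tht n)) = ∏ π ∈ PD n, ez (-(q * tht π)) := by
  classical
  rw [← ez_sum, sum_neg_distrib, ← mul_sum]
  congr 3
  have h1 : tht (∏ π : PT n, (π : Ei)) = ∑ π : PT n, tht (π : Ei) :=
    tht_prod univ (fun π : PT n => (π : Ei)) fun π => ((mem_PD hn.ne).1 π.2).1.three
  have h2 : ∏ π : PT n, (π : Ei) = n := (prod_coe_sort (PD n) (fun π => π)).trans hn.prod
  rw [h2] at h1
  rw [h1]
  exact sum_coe_sort (PD n) (fun π => tht π)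

lemma IZ_le {c : ZMod 3} (hc : c ≠ 0) {X Z : ℕ} (hZ : 1 ≤ Z) (hZX : Z ^ 18 ≤ X) {L : Ln} {g : UU → Ei}
    (hg : ∀ w, PS (g w))
    (hs : sm Z g) (hl : ∀ w ∈ L.pts, g w = 1) (hne : g ≠ 1 ∨ L.de 0 ≠ 0) :
    ‖IZ c X L g‖ ≤ (204120 * (X * lg Z * (lg X) ^ (-(1 / 3) : ℝ))) * ∏ w, (1 : ℝ) / nrm (g w) := by
  classical
  have hlX := lg_pos X
  have hlZ := one_le_lg Z
  have hgp : ∀ w, prm (g w) := fun w => (hg w).prm
  have hr : prm (∏ w, g w) := prod_induction _ prm (fun a b => prm_mul) prm_one fun w _ => hgp w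
  have hpos : 0 ≤ (204120 * (X * lg Z * (lg X) ^ (-(1 / 3) : ℝ))) * ∏ w, (1 : ℝ) / nrm (g w) := by
    have : 0 ≤ ∏ w, (1 : ℝ) / nrm (g w) := prod_nonneg fun _ _ => by positivity
    positivity
  by_cases hps : PS (∏ w, g w)
  swap
  · have : IZ c X L g = 0 := by
      unfold IZ
      refine sum_eq_zero fun n hn => ?_
      have h0 : Ind X (n * ∏ w, g w) = 0 := by
        by_contra h0
        obtain ⟨h1, -⟩ := Ind_ne h0
        exact hps ((PS.mul_iff (mem_SB.1 hn).2.prm hr).1 h1).2.1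
      rw [h0, zero_mul]
    rw [this, norm_zero]
    exact hpos
  obtain ⟨hA, hB, -⟩ := LAB (L := L) hgp hps
  have hAB : LA L g ≠ LB L g ∨ -(c * L.de 0) ≠ 0 := by
    rcases hne with hne | hne
    · exact Or.inl (LA_ne (L := L) hgp hps hl hne)
    · exact Or.inr (neg_ne_zero.2 (mul_ne_zero hc hne))
  have hch := xz_ch (t := -(c * L.de 0)) hA hB
  have h1 : ‖IZ c X L g‖ ≤ ∑ n ∈ SB X, Phr X (n * ∏ w, g w) *
      mf (fun π => (1 + 2 * (xz (-(c * L.de 0)) (LA L g) (LB L g) π).re) / 3) n := by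
    unfold IZ
    refine (norm_sum_le _ _).trans (sum_le_sum fun n hn => ?_)
    rw [norm_mul, norm_prod]
    by_cases h0 : Ind X (n * ∏ w, g w) = 0
    · rw [h0, norm_zero, zero_mul]
      exact mul_nonneg (Phr_nonneg _ _) (mf_nonneg (fun π => by
        have := re_nonneg (hch.val π)
        linarith) _)
    · have h2 := Ind_ne h0
      have hn' := (mem_SB.1 hn).2
      have hcop := ((PS.mul_iff hn'.prm hr).1 h2.1).2.2
      have h3 : ∏ π ∈ PD n, ‖∑ w ∈ L.pts, (1 / 3 : ℂ) * psi g w π * ez (-(c * Qf w * tht π))‖ =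
          mf (fun π => (1 + 2 * (xz (-(c * L.de 0)) (LA L g) (LB L g) π).re) / 3) n := by
        unfold mf
        refine prod_congr rfl fun π hπ => ?_
        exact local_fz ((mem_PD hn'.ne).1 hπ).1 hg hps (hcop.symm.of_isCoprime_of_dvd_right ((mem_PD hn'.ne).1 hπ).2)
      rw [h3]
      exact mul_le_mul_of_nonneg_right (Ind_Phr _ _).le (mf_nonneg (fun π => by
        have := re_nonneg (hch.val π)
        linarith) _)
  refine h1.trans ((sum_Phr_le hr (fun n => mf_nonneg (fun π => by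
        have := re_nonneg (hch.val π)
        linarith) n)).trans ((hallz hA hB hAB _).trans ?_))
  have h4 := TB hZX (nrm_pos' (prm_ne_zero hr)) (sm_nrm hs)
  have hnn : ∀ s : Finset UU, nrm (∏ w ∈ s, g w) ≤ Z ^ 9 := by
    intro s
    rw [nrm_prod]
    refine (prod_le_prod' fun w _ => hs w).trans ?_
    rw [prod_const]
    refine Nat.pow_le_pow_right hZ ?_
    have h5 := card_le_univ s
    have h6 : Fintype.card UU = 9 := by decide
    omega
  have h5 : nrm (LA L g) * nrm (LB L g) ≤ Z ^ 18 := by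
    calc nrm (LA L g) * nrm (LB L g) ≤ Z ^ 9 * Z ^ 9 := Nat.mul_le_mul (hnn _) (hnn _)
      _ = Z ^ 18 := by rw [← pow_add]
  have h6 : (lg (nrm (LA L g) * nrm (LB L g))) ^ (1 / 3 : ℝ) ≤ 18 * lg Z := by
    have a1 := one_le_lg (nrm (LA L g) * nrm (LB L g))
    have a2 := lg_mono h5
    have a3 := lg_pow Z 18 (by norm_num)
    have a4 : (lg (nrm (LA L g) * nrm (LB L g))) ^ (1 / 3 : ℝ) ≤ (lg (nrm (LA L g) * nrm (LB L g))) ^ (1 : ℝ) :=
      Real.rpow_le_rpow_of_exponent_le a1 (by norm_num)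
    rw [Real.rpow_one] at a4
    push_cast at a3
    linarith
  rw [← nrm_prod_real]
  have h7 : (0 : ℝ) ≤ ((X / nrm (∏ w, g w) : ℕ) : ℝ) * (lg (X / nrm (∏ w, g w))) ^ (-(1 / 3) : ℝ) := by
    have := lg_pos (X / nrm (∏ w, g w))
    positivity
  calc 5670 * (lg (nrm (LA L g) * nrm (LB L g))) ^ (1 / 3 : ℝ) *
        (((X / nrm (∏ w, g w) : ℕ) : ℝ) * (lg (X / nrm (∏ w, g w))) ^ (-(1 / 3) : ℝ))
      ≤ (5670 * (18 * lg Z)) * (2 * (X * (lg X) ^ (-(1 / 3) : ℝ)) * (1 / nrm (∏ w, g w))) := by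
        apply mul_le_mul _ h4 h7 (by positivity)
        linarith
    _ = _ := by ring

/-- **a line of large variables** -/
theorem regCz {c : ZMod 3} (hc : c ≠ 0) {X Z : ℕ} (hZ : 1 ≤ Z) (hZX : Z ^ 18 ≤ X) (L : Ln) :
    ‖∑ f ∈ (FF X).filter (fun f => ls Z f ⊆ L.pts), HZ c X f -
      (if L.de 0 = 0 then ∑ n ∈ SB X, Ind X n else 0)‖ ≤
      (204120 * 32 ^ 9) * (X * lg Z ^ 10 * (lg X) ^ (-(1 / 3) : ℝ)) := by
  classical
  have hX : 1 ≤ X := (Nat.one_le_pow _ _ hZ).trans hZX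
  have hlX := lg_pos X
  have hlZ := lg_pos Z
  have e1 : ∑ f ∈ (FF X).filter (fun f => ls Z f ⊆ L.pts), HZ c X f =
      ∑ g ∈ (FI X (L.pts)ᶜ).filter (fun g => sm Z g), ((∏ w, wz c w (g w)) * TT g) * IZ c X L g := by
    rw [sum_filter, split_set X L.pts, sum_filter]
    refine sum_congr rfl fun g hg => ?_
    have hgps := FI_ps hg
    have hr : prm (∏ w, g w) := prod_induction _ prm (fun a b => prm_mul) prm_one fun w _ => (hgps w).prm
    have e2 : ∀ k ∈ FI X L.pts, (ls Z (g * k) ⊆ L.pts ↔ sm Z g) := by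
      intro k hk
      constructor
      · intro h w
        by_cases hw : w ∈ L.pts
        · rw [(mem_FI.1 hg).2 w (by rw [mem_compl, not_not]; exact hw), nrm_one]
          exact hZ
        · by_contra h2
          apply hw
          apply h
          unfold ls
          rw [mem_filter, Pi.mul_apply, (mem_FI.1 hk).2 w hw, mul_one]
          exact ⟨mem_univ _, by omega⟩
      · intro h w hw
        unfold ls at hw
        rw [mem_filter, Pi.mul_apply] at hw
        by_contra hw'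
        rw [(mem_FI.1 hk).2 w hw', mul_one] at hw
        have := h w
        omega
    by_cases hs : sm Z g
    · rw [if_pos hs]
      have e3 : ∀ k ∈ FI X L.pts, (if ls Z (g * k) ⊆ L.pts then HZ c X (g * k) else 0) =
          ((∏ w, wz c w (g w)) * TT g) * (Ind X ((∏ u, k u) * ∏ u, g u) *
            ∏ u, mfc (fun π => (1 / 3 : ℂ) * psi g u π * ez (-(c * Qf u * tht π))) (k u)) := by
        intro k hk
        have hkps := FI_ps hk
        rw [if_pos ((e2 k hk).2 hs), HZ_mul hgps hkps (FI_one hg hk)]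
        have hTT : TT k = 1 := by
          unfold TT
          refine prod_eq_one fun u _ => prod_eq_one fun v _ => ?_
          by_cases hu : u ∈ L.pts
          · by_cases hv : v ∈ L.pts
            · unfold Ln.pts at hu hv
              obtain ⟨c, -, rfl⟩ := mem_image.1 hu
              obtain ⟨c', -, rfl⟩ := mem_image.1 hv
              rw [L.on, ZMod.val_zero, pow_zero]
            · rw [(mem_FI.1 hk).2 v hv, jac_one_right (hkps u).ne, one_pow]
          · rw [(mem_FI.1 hk).2 u hu, jac_one_left, one_pow]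
        rw [hTT, one_mul]
        have e4 : ∀ u, wz c u (k u) * psi g u (k u) = mfc (fun π => (1 / 3 : ℂ) * psi g u π * ez (-(c * Qf u * tht π))) (k u) := by
          intro u
          unfold wz
          rw [psi_mfc hgps u (hkps u), wt_mfc, ez_tht (hkps u)]
          unfold mfc
          rw [prod_mul_distrib, prod_mul_distrib]
          ring
        rw [prod_congr rfl (fun u _ => e4 u)]
      rw [sum_congr rfl e3, ← mul_sum]
      congr 1
      exact J_FI hX (Φ := fun n => Ind X (n * ∏ u, g u)) (Ind_supp' hr) L.pts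
        (fun u π => (1 / 3 : ℂ) * psi g u π * ez (-(c * Qf u * tht π)))
    · rw [if_neg hs]
      refine sum_eq_zero fun k hk => ?_
      rw [if_neg (fun h => hs ((e2 k hk).1 h))]
  have h1S : (1 : Ei) ∈ SB X := mem_SB.2 ⟨by rw [nrm_one]; exact hX, PS_one⟩
  have h1m : (1 : UU → Ei) ∈ (FI X (L.pts)ᶜ).filter (fun g => sm Z g) := by
    rw [mem_filter, mem_FI]
    refine ⟨⟨fun w _ => h1S, fun w _ => rfl⟩, fun w => ?_⟩
    rw [Pi.one_apply, nrm_one]
    exact hZ
  have h2 : ∀ g ∈ (FI X (L.pts)ᶜ).filter (fun g => sm Z g), (g ≠ 1 ∨ L.de 0 ≠ 0) →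
      ‖((∏ w, wz c w (g w)) * TT g) * IZ c X L g‖ ≤
        (204120 * (X * lg Z * (lg X) ^ (-(1 / 3) : ℝ))) * ∏ w, (1 : ℝ) / nrm (g w) := by
    intro g hg hg1
    rw [mem_filter] at hg
    rw [norm_mul]
    refine (mul_le_of_le_one_left (norm_nonneg _) (norm_mul_le' (prod_wz_norm c g) (TT_norm g))).trans ?_
    exact IZ_le hc hZ hZX (FI_ps hg.1) hg.2
      (fun w hw => (mem_FI.1 hg.1).2 w (by rw [mem_compl, not_not]; exact hw)) hg1
  have hfin : (204120 * (X * lg Z * (lg X) ^ (-(1 / 3) : ℝ))) *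
        ∑ g ∈ (FI X (L.pts)ᶜ).filter (fun g => sm Z g), ∏ w, (1 : ℝ) / nrm (g w)
      ≤ (204120 * 32 ^ 9) * (X * lg Z ^ 10 * (lg X) ^ (-(1 / 3) : ℝ)) := by
    calc (204120 * (X * lg Z * (lg X) ^ (-(1 / 3) : ℝ))) *
        ∑ g ∈ (FI X (L.pts)ᶜ).filter (fun g => sm Z g), ∏ w, (1 : ℝ) / nrm (g w)
        ≤ (204120 * (X * lg Z * (lg X) ^ (-(1 / 3) : ℝ))) * (32 * lg Z) ^ 9 :=
          mul_le_mul_of_nonneg_left (sum_sm _) (by positivity)
      _ = _ := by ring
  rw [e1]
  by_cases h0 : L.de 0 = 0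
  · have e5 : ((∏ w : UU, wz c w ((1 : UU → Ei) w)) * TT 1) * IZ c X L 1 = ∑ n ∈ SB X, Ind X n := by
      rw [IZ_one c X h0]
      have a1 : ∏ w : UU, wz c w ((1 : UU → Ei) w) = 1 := prod_eq_one fun w _ => wz_one
      have a2 : TT 1 = 1 := by
        unfold TT
        refine prod_eq_one fun u _ => prod_eq_one fun v _ => ?_
        rw [Pi.one_apply, jac_one_left, one_pow]
      rw [a1, a2, one_mul, one_mul]
    rw [if_pos h0, ← add_sum_erase _ _ h1m, e5, add_sub_cancel_left]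
    refine (norm_sum_le _ _).trans ?_
    refine (sum_le_sum (fun g hg => h2 g (mem_of_mem_erase hg) (Or.inl (ne_of_mem_erase hg)))).trans ?_
    rw [← mul_sum]
    refine (mul_le_mul_of_nonneg_left ?_ (by positivity)).trans hfin
    exact sum_le_sum_of_subset_of_nonneg (erase_subset _ _)
      (fun _ _ _ => prod_nonneg fun _ _ => by positivity)
  · rw [if_neg h0, sub_zero]
    refine (norm_sum_le _ _).trans ?_
    refine (sum_le_sum (fun g hg => h2 g hg (Or.inr h0))).trans ?_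
    rw [← mul_sum]
    exact hfin


end Pool.Agent.H91.Dz
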