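import Pool.Agent.H91.Dz4

/-!
# The rooted Laplacian: the average
-/

set_option autoImplicit false
set_option linter.unusedVariables false

open Finset

namespace Pool.Agent.H91.Dz

open Pool.Agent.Y692.QS (Ei w nr)
open Pool.Agent.Y715.T.Rec (cs)
open Pool.Agent.Y715.T.RecG (Pq)
open Pool.Agent.Y699.E
open scoped ComplexConjugate

lemma card_lns0 : (lns.filter (fun W => (0 : UU) ∈ W)).card = 2 := by decide

lemma mem_zero (L : Ln) : (0 : UU) ∈ L.pts ↔ L.de 0 = 0 := by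
  unfold Ln.pts
  rw [mem_image]
  constructor
  · rintro ⟨k, -, hk⟩
    have h0 := L.form 0 0
    have h1 := L.form 0 1
    rw [← hk, L.on] at h0
    rw [← hk, L.on] at h1
    rw [hk] at h0 h1
    linear_combination h0 - h1
  · intro h
    obtain ⟨k, hk⟩ := L.off 0 h
    exact ⟨k, mem_univ _, hk.symm⟩

/-- **the average** -/
theorem averagez {c : ZMod 3} (hc : c ≠ 0) : ∃ C : ℝ, 1 ≤ C ∧ ∀ (X Z : ℕ), 1 ≤ Z → Z ^ 18 ≤ X →
    ‖∑ n ∈ SB X, Ind X n * (KZ c n : ℂ) - 2 * ∑ n ∈ SB X, Ind X n‖ ≤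
      C * (X * lg X ^ 10 * (Z : ℝ) ^ (-(1 / 96) : ℝ) + X * lg Z ^ 10 * (lg X) ^ (-(1 / 3) : ℝ)) := by
  classical
  obtain ⟨C, hC1, hC⟩ := regAz c
  refine ⟨512 * (C + 8 * (882 * 32 ^ 9) + 204120 * 32 ^ 9), by linarith, ?_⟩
  intro X Z hZ hZX
  have hlX := lg_pos X
  have hlZ := one_le_lg Z
  set S : Finset UU → ℂ := fun W => ∑ f ∈ (FF X).filter (fun f => ls Z f = W), HZ c X f with hS
  set M : ℂ := ∑ n ∈ SB X, Ind X n with hM
  set A : ℝ := X * lg X ^ 10 * (Z : ℝ) ^ (-(1 / 96) : ℝ) with hA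
  set B : ℝ := X * lg Z ^ 10 * (lg X) ^ (-(1 / 3) : ℝ) with hB
  have hA0 : 0 ≤ A := by positivity
  have hB0 : 0 ≤ B := by positivity
  have hB9 : X * lg Z ^ 9 * (lg X) ^ (-(1 / 3) : ℝ) ≤ B := by
    rw [hB]
    have h1 : lg Z ^ 9 ≤ lg Z ^ 10 := pow_le_pow_right₀ hlZ (by norm_num)
    have h2 : (0 : ℝ) ≤ (lg X) ^ (-(1 / 3) : ℝ) := by positivity
    gcongr
  have e1 : ∑ n ∈ SB X, Ind X n * (KZ c n : ℂ) = ∑ W : Finset UU, S W := by
    rw [KZ_sum]
    have : ∑ f ∈ Fintype.piFinset (fun _ : UU => SB X), Ind X (∏ u, f u) * ((∏ u, wz c u (f u)) * TT f) =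
        ∑ f ∈ FF X, HZ c X f := rfl
    rw [this, hS, sum_fiberwise (FF X) (fun f => ls Z f) (fun f => HZ c X f)]
  have e2 : ∑ W : Finset UU, (if W ∈ lns ∧ (0 : UU) ∈ W then M else 0) = 2 * M := by
    rw [← sum_filter]
    have : (univ.filter (fun W : Finset UU => W ∈ lns ∧ (0 : UU) ∈ W)) =
      lns.filter (fun W => (0 : UU) ∈ W) := by ext W; simp
    rw [this, sum_const, card_lns0, nsmul_eq_mul]
    norm_num
  rw [e1, ← e2, ← sum_sub_distrib]
  have hsmall : ∀ W : Finset UU, W.card ≤ 2 → ‖S W‖ ≤ (882 * 32 ^ 9) * B := by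
    intro W hW
    refine (regBz c hZ hZX hW).trans ?_
    exact mul_le_mul_of_nonneg_left hB9 (by norm_num)
  have key : ∀ W ∈ (univ : Finset (Finset UU)), ‖S W - (if W ∈ lns ∧ (0 : UU) ∈ W then M else 0)‖ ≤
      (C + 8 * (882 * 32 ^ 9) + 204120 * 32 ^ 9) * (A + B) := by
    intro W _
    have hfin : ∀ {x : ℝ}, x ≤ C * A ∨ x ≤ 8 * (882 * 32 ^ 9) * B + (204120 * 32 ^ 9) * B →
        x ≤ (C + 8 * (882 * 32 ^ 9) + 204120 * 32 ^ 9) * (A + B) := by
      intro x hx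
      have c1 : 0 ≤ C * A := by positivity
      have c2 : 0 ≤ C * B := by positivity
      rcases hx with hx | hx <;> nlinarith
    by_cases hl : W ∈ lns
    · obtain ⟨L, rfl⟩ := mem_lns hl
      obtain ⟨M', hM'⟩ : ∃ M' : ℂ, M' = (if L.de 0 = 0 then M else 0) := ⟨_, rfl⟩
      have hMM : (if L.pts ∈ lns ∧ (0 : UU) ∈ L.pts then M else 0) = M' := by
        rw [hM']
        by_cases h0 : L.de 0 = 0
        · rw [if_pos h0, if_pos ⟨hl, (mem_zero L).2 h0⟩]
        · rw [if_neg h0, if_neg (fun h => h0 ((mem_zero L).1 h.2))]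
      rw [hMM]
      have h1 := regCz hc hZ hZX L
      rw [← hM, ← hM'] at h1
      have h2 : ∑ f ∈ (FF X).filter (fun f => ls Z f ⊆ L.pts), HZ c X f = ∑ W ∈ L.pts.powerset, S W := by
        rw [← sum_fiberwise_of_maps_to (t := L.pts.powerset) (g := fun f => ls Z f)
          (fun f hf => mem_powerset.2 (mem_filter.1 hf).2)]
        refine sum_congr rfl fun W hW => ?_
        rw [hS]
        refine sum_congr ?_ fun _ _ => rfl
        ext f
        simp only [mem_filter]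
        constructor
        · rintro ⟨⟨a1, -⟩, a2⟩; exact ⟨a1, a2⟩
        · rintro ⟨a1, a2⟩
          exact ⟨⟨a1, by rw [a2]; exact mem_powerset.1 hW⟩, a2⟩
      have h3 : L.pts.powerset = insert L.pts L.pts.ssubsets := by
        unfold ssubsets
        rw [insert_erase (mem_powerset_self _)]
      rw [h2, h3, sum_insert (by rw [mem_ssubsets]; exact fun h => ssubset_irrefl _ h)] at h1
      have h4 : ‖∑ W ∈ L.pts.ssubsets, S W‖ ≤ 8 * (882 * 32 ^ 9) * B := by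
        refine (norm_sum_le _ _).trans ?_
        have h5 : ∀ W ∈ L.pts.ssubsets, ‖S W‖ ≤ (882 * 32 ^ 9) * B := by
          intro W hW
          apply hsmall
          rw [mem_ssubsets] at hW
          have := card_lt_card hW
          rw [L.card] at this
          omega
        refine (sum_le_sum h5).trans ?_
        rw [sum_const, nsmul_eq_mul]
        have h6 : L.pts.ssubsets.card ≤ 8 := by
          have : L.pts.powerset.card = 8 := by rw [card_powerset, L.card]; norm_num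
          rw [← this]
          exact card_le_card (by rw [h3]; exact subset_insert _ _)
        have h7 : (L.pts.ssubsets.card : ℝ) ≤ 8 := by exact_mod_cast h6
        have h8 : 0 ≤ (882 * 32 ^ 9) * B := by positivity
        nlinarith
      have h9 : ‖S L.pts - M'‖ ≤ ‖S L.pts + ∑ W ∈ L.pts.ssubsets, S W - M'‖ + ‖∑ W ∈ L.pts.ssubsets, S W‖ := by
        have : S L.pts - M' = (S L.pts + ∑ W ∈ L.pts.ssubsets, S W - M') - ∑ W ∈ L.pts.ssubsets, S W := by ring
        rw [this]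
        exact norm_sub_le _ _
      apply hfin
      right
      linarith
    · rw [if_neg (fun h => hl h.1), sub_zero]
      apply hfin
      rcases trich W with ⟨u, hu, v, hv, hQ⟩ | h | h
      · left
        refine (hC X Z hZ W u v hu hv hQ).trans (le_of_eq ?_)
        rw [hA]; ring
      · right
        have := hsmall W h
        have h8 : 0 ≤ (882 * 32 ^ 9) * B := by positivity
        have h9 : 0 ≤ (204120 * 32 ^ 9) * B := by positivity
        linarith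
      · exact absurd h hl
  refine (norm_sum_le _ _).trans ((sum_le_sum key).trans (le_of_eq ?_))
  rw [sum_const, card_univ, Fintype.card_finset]
  have : Fintype.card UU = 9 := by decide
  rw [this, nsmul_eq_mul]
  push_cast
  ring

/-- **the average** -/
theorem averagez' {c : ZMod 3} (hc : c ≠ 0) : ∀ ε : ℝ, 0 < ε → ∃ X0 : ℕ, ∀ X : ℕ, X0 ≤ X →
    ‖∑ n ∈ SB X, Ind X n * (KZ c n : ℂ) - 2 * ∑ n ∈ SB X, Ind X n‖ ≤ ε * X := by
  obtain ⟨C, hC1, hC⟩ := averagez hc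
  intro ε hε
  obtain ⟨k, hk, hk1⟩ : ∃ k : ℕ, (k : ℝ) = 1056 ∧ 1 ≤ k := ⟨1056, by norm_num, by norm_num⟩
  obtain ⟨κ, hκ⟩ : ∃ κ : ℝ, κ = ((k : ℝ) * 3) ^ 10 := ⟨_, rfl⟩
  have hκ0 : 0 < κ := by
    rw [hκ, hk]
    positivity
  obtain ⟨L1, hL1⟩ := ev_log (ε / (2 * C * κ)) (by positivity)
  obtain ⟨L2, hL2⟩ := ev_pow (k * 18)
  obtain ⟨L3, hL3⟩ := exists_nat_ge (2 * C / ε)
  refine ⟨2 ^ (L1 + L2 + L3 + 2), fun X hX => ?_⟩
  set m := Nat.log 2 X with hm
  have hX0 : X ≠ 0 := by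
    have : 0 < 2 ^ (L1 + L2 + L3 + 2) := by positivity
    omega
  have hmL : L1 + L2 + L3 + 2 ≤ m := (Nat.le_log_iff_pow_le (by norm_num) hX0).2 hX
  obtain ⟨L, hL⟩ : ∃ L : ℕ, L = m + 1 := ⟨_, rfl⟩
  have hlgX : lg X = L := by
    unfold lg
    rw [hL]
    push_cast
    rfl
  have hLpos : (0 : ℝ) < L := by
    rw [hL]; positivity
  have hL2' : 2 ≤ L := by omega
  obtain ⟨Z, hZ⟩ : ∃ Z : ℕ, Z = L ^ k := ⟨_, rfl⟩
  have hZ1 : 1 ≤ Z := by rw [hZ]; exact Nat.one_le_pow _ _ (by omega)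
  have hZX : Z ^ 18 ≤ X := by
    rw [hZ, ← pow_mul]
    refine (hL2 L (by omega)).trans ?_
    rw [hL, Nat.add_sub_cancel]
    exact Nat.pow_log_le_self 2 hX0
  refine (hC X Z hZ1 hZX).trans ?_
  have hZr : (Z : ℝ) ^ (-(1 / 96) : ℝ) = (L : ℝ) ^ (-11 : ℝ) := by
    rw [hZ]
    push_cast
    rw [← Real.rpow_natCast (L : ℝ) k, ← Real.rpow_mul hLpos.le, hk]
    norm_num
  have e1 : (X : ℝ) * lg X ^ 10 * (Z : ℝ) ^ (-(1 / 96) : ℝ) = X * (1 / L) := by
    rw [hlgX, hZr, mul_assoc, ← Real.rpow_natCast (L : ℝ) 10, ← Real.rpow_add hLpos]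
    congr 1
    rw [one_div, ← Real.rpow_neg_one]
    norm_num
  have e2 : C * ((X : ℝ) * (1 / L)) ≤ ε / 2 * X := by
    have h1 : C * (1 / L) ≤ ε / 2 := by
      rw [mul_one_div, div_le_iff₀ hLpos]
      have h2 : 2 * C / ε ≤ L := by
        refine hL3.trans ?_
        have : L3 ≤ L := by omega
        exact_mod_cast this
      rw [div_le_iff₀ hε] at h2
      linarith
    have h3 : (0 : ℝ) ≤ X := Nat.cast_nonneg _
    nlinarith
  have e3 : (X : ℝ) * lg Z ^ 10 * (lg X) ^ (-(1 / 3) : ℝ) ≤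
      κ * X * (Real.log L ^ 10 * (L : ℝ) ^ (-(1 / 3) : ℝ)) := by
    have h1 : lg Z ≤ k * (3 * Real.log L) := by
      rw [hZ]
      refine (lg_pow L k hk1).trans ?_
      exact mul_le_mul_of_nonneg_left (lg_le_log hL2') (Nat.cast_nonneg _)
    have h0 := lg_pos Z
    have h2 : lg Z ^ 10 ≤ (k * (3 * Real.log L)) ^ 10 := pow_le_pow_left₀ h0.le h1 10
    rw [hlgX]
    have h3 : (0 : ℝ) ≤ (L : ℝ) ^ (-(1 / 3) : ℝ) := by positivity
    calc (X : ℝ) * lg Z ^ 10 * (L : ℝ) ^ (-(1 / 3) : ℝ) ≤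
          X * (k * (3 * Real.log L)) ^ 10 * (L : ℝ) ^ (-(1 / 3) : ℝ) := by gcongr
      _ = _ := by rw [hκ]; ring
  have e4 : C * ((X : ℝ) * lg Z ^ 10 * (lg X) ^ (-(1 / 3) : ℝ)) ≤ ε / 2 * X := by
    have h1 := hL1 L (by omega)
    have h2 : (0 : ℝ) ≤ X := Nat.cast_nonneg _
    calc C * ((X : ℝ) * lg Z ^ 10 * (lg X) ^ (-(1 / 3) : ℝ))
        ≤ C * (κ * X * (Real.log L ^ 10 * (L : ℝ) ^ (-(1 / 3) : ℝ))) :=
          mul_le_mul_of_nonneg_left e3 (by linarith)
      _ ≤ C * (κ * X * (ε / (2 * C * κ))) := by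
          apply mul_le_mul_of_nonneg_left _ (by linarith)
          exact mul_le_mul_of_nonneg_left h1 (by positivity)
      _ = ε / 2 * X := by
          have : C ≠ 0 := by linarith
          field_simp
  rw [mul_add, e1]
  linarith


/-- the condition -/
def Gz (c : ZMod 3) (n : Ei) : Prop := ∀ x : PT n → ZMod 3, (∀ π, Lr c x π = 0) → x = 0

lemma Lr_zero {c : ZMod 3} {n : Ei} (π : PT n) : Lr c (0 : PT n → ZMod 3) π = 0 := by
  unfold Lr Lap
  simp

lemma Lr_mul {c : ZMod 3} {n : Ei} (x : PT n → ZMod 3) (b : ZMod 3) (π : PT n) :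
    Lr c (fun ρ => b * x ρ) π = b * Lr c x π := by
  unfold Lr Lap
  rw [mul_sub, mul_sum]
  congr 1
  · refine sum_congr rfl fun ρ _ => ?_
    ring
  · ring

lemma KZ_one {c : ZMod 3} (n : Ei) : 1 ≤ KZ c n := by
  classical
  unfold KZ
  rw [Nat.one_le_iff_ne_zero, Ne, card_eq_zero]
  intro h
  have : (0 : PT n → ZMod 3) ∈ univ.filter (fun x : PT n → ZMod 3 => ∀ π, Lr c x π = 0) :=
    mem_filter.2 ⟨mem_univ _, fun π => Lr_zero π⟩
  rw [h] at this
  exact notMem_empty _ this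

lemma KZ_three {c : ZMod 3} {n : Ei} (h : ¬ Gz c n) : 3 ≤ KZ c n := by
  classical
  unfold Gz at h
  push Not at h
  obtain ⟨x, hx, hne⟩ := h
  unfold KZ
  have key : (univ : Finset (ZMod 3)).card ≤
      (univ.filter (fun x : PT n → ZMod 3 => ∀ π, Lr c x π = 0)).card := ?_
  · exact key
  refine card_le_card_of_injOn (fun a : ZMod 3 => fun σ : PT n => a * x σ) ?_ ?_
  · intro a _
    rw [mem_coe, mem_filter]
    refine ⟨mem_univ _, fun σ => ?_⟩
    rw [Lr_mul, hx, mul_zero]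
  · intro b _ b' _ hab
    obtain ⟨π, hπ⟩ : ∃ π, x π ≠ 0 := by
      by_contra hcon
      push Not at hcon
      exact hne (funext hcon)
    have h2 := congrFun hab π
    simp only at h2
    exact mul_right_cancel₀ hπ h2

open Classical in
/-- the good elements -/
noncomputable def Gl (c : ZMod 3) (X : ℕ) : Finset Ei := (SB X).filter (Gz c)

/-- **half of the squarefree elements are good** -/
theorem halfz {c : ZMod 3} (hc : c ≠ 0) : ∀ ε : ℝ, 0 < ε → ∃ X0 : ℕ, ∀ X : ℕ, X0 ≤ X →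
    (1 / 2) * ((SB X).card : ℝ) - ε * X ≤ ((Gl c X).card : ℝ) := by
  classical
  intro ε hε
  obtain ⟨X0, hX0⟩ := averagez' hc (2 * ε) (by linarith)
  refine ⟨X0, fun X hX => ?_⟩
  have h1 := hX0 X hX
  have hI : ∀ n ∈ SB X, Ind X n = 1 := by
    intro n hn
    rw [mem_SB] at hn
    unfold Ind
    rw [if_pos ⟨hn.2, hn.1⟩]
  have e1 : ∑ n ∈ SB X, Ind X n * (KZ c n : ℂ) = ((∑ n ∈ SB X, KZ c n : ℕ) : ℂ) := by
    push_cast
    exact sum_congr rfl fun n hn => by rw [hI n hn, one_mul]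
  have e2 : ∑ n ∈ SB X, Ind X n = ((SB X).card : ℂ) := by
    rw [sum_congr rfl hI, sum_const, nsmul_eq_mul, mul_one]
  rw [e1, e2] at h1
  have e3 : ((∑ n ∈ SB X, KZ c n : ℕ) : ℂ) - 2 * ((SB X).card : ℂ) =
      (((∑ n ∈ SB X, KZ c n : ℕ) : ℝ) - 2 * ((SB X).card : ℝ) : ℝ) := by push_cast; ring
  rw [e3, Complex.norm_real] at h1
  have h2 := (le_abs_self _).trans h1
  have h3 : (SB X).card + 2 * ((SB X).filter (fun n => ¬ Gz c n)).card ≤ ∑ n ∈ SB X, KZ c n := by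
    have h4 : ∀ n ∈ SB X, 1 + (if ¬ Gz c n then 2 else 0) ≤ KZ c n := by
      intro n _
      by_cases hg : Gz c n
      · rw [if_neg (not_not.2 hg)]
        exact KZ_one n
      · rw [if_pos hg]
        exact KZ_three hg
    refine le_trans (le_of_eq ?_) (sum_le_sum h4)
    rw [sum_add_distrib, sum_const, ← sum_filter, sum_const]
    simp only [smul_eq_mul, mul_one]
    ring
  have h5 : ((SB X).card : ℝ) + 2 * (((SB X).filter (fun n => ¬ Gz c n)).card : ℝ) ≤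
      ((∑ n ∈ SB X, KZ c n : ℕ) : ℝ) := by exact_mod_cast h3
  have h6 : ((Gl c X).card : ℝ) + (((SB X).filter (fun n => ¬ Gz c n)).card : ℝ) = (SB X).card := by
    unfold Gl
    exact_mod_cast card_filter_add_card_filter_not _
  linarith

end Pool.Agent.H91.Dz
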