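import Pool.Agent.H91.Dz5
import Pool.Agent.H91.Fin1

/-!
# At least half of the squarefree elements of the class are good
-/

set_option autoImplicit false
set_option linter.unusedVariables false

open scoped Classical
open Finset

namespace Pool.Agent.H91.Dz

open NumberField
open Pool.Agent.Y692.QS (Ei w nr)
open Pool.Agent.Y715.T.Rec (cs)
open Pool.Agent.Y715.T.RecG (Pq)
open Pool.Agent.Y715.T.Rs
open Pool.Agent.Y703.CT (Dt pD)
open Pool.Agent.Y699.E
open Pool.Agent.Y696.CTK (Tri)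
open Pool.Agent.Y350.CTK.Tam (te te_prime te_sq)
open Pool.Agent.H91.Sel (dD KerC unit_cases)
open Pool.Agent.H91.LKz (Pm)

/-- the squarefree elements of the class -/
def Cs (D : Ei) : Prop :=
  ¬ te ∣ D ∧ ¬ (3 : Ei) ∣ D - 1 ∧ ¬ (3 : Ei) ∣ D + 1 ∧ Squarefree D ∧ ¬ IsUnit D

/-- the data of a squarefree primary element -/
lemma dt_ps {n : Ei} (hn : PS n) : Dt (fun π : PT n => (π : Ei)) (fun _ => (1 : ZMod 3)) := by
  refine ⟨fun π => ((mem_PD hn.ne).1 π.2).1, fun i k hik hd => ?_, fun _ => one_ne_zero⟩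
  apply hik
  apply Subtype.ext
  exact (eq_of_dvd ((mem_PD hn.ne).1 k.2).1 ((mem_PD hn.ne).1 i.2).1 hd).symm

lemma pD_ps {n : Ei} (hn : PS n) : pD (fun π : PT n => (π : Ei)) (fun _ => (1 : ZMod 3)) = n := by
  unfold pD
  have h1 : (1 : ZMod 3).val = 1 := rfl
  simp only [h1, pow_one]
  exact (prod_coe_sort (PD n) (fun π => π)).trans hn.prod

lemma kerC_iff {c : ZMod 3} {n : Ei} :
    KerC c (fun π : PT n => (π : Ei)) (fun _ => (1 : ZMod 3)) ↔ Gz c n := by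
  unfold KerC Gz Lr Lap
  simp only [one_mul]
  exact Iff.rfl

lemma nonempty_pt {n : Ei} (hn : PS n) (h1 : n ≠ 1) : Nonempty (PT n) := by
  by_contra h
  apply h1
  have h2 : (PD n) = ∅ := by
    rw [eq_empty_iff_forall_notMem]
    intro π hπ
    exact h ⟨⟨π, hπ⟩⟩
  rw [← hn.prod, h2, prod_empty]

/-- the good elements satisfy the condition -/
lemma tri_of {K : Type} [Field K] [NumberField K] (j : Ei ≃+* 𝓞 K) {c : ZMod 3} (hc : c ≠ 0)
    {n : Ei} (hn : PS n) (h1 : n ≠ 1) (hg : Gz c n) {D : Ei}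
    (hD : D = w ^ c.val * n ∨ D = -(w ^ c.val * n)) : Tri (j D) := by
  have hne := nonempty_pt hn h1
  have hpm : Pm (dD c (fun π : PT n => (π : Ei)) (fun _ => (1 : ZMod 3))) D := by
    unfold dD
    rw [pD_ps hn]
    exact hD
  exact (Pool.Agent.H91.Lw.tri_iff2 j hc (dt_ps hn) hpm).2 (kerC_iff.2 hg)

lemma three_nr {D : Ei} (h : ¬ te ∣ D) : ¬ (3 : ℤ) ∣ nr D := by
  intro h4
  apply h
  have h6 : ((3 : ℤ) : Ei) ∣ ((nr D : ℤ) : Ei) := by
    obtain ⟨t, ht⟩ := h4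
    exact ⟨(t : Ei), by rw [ht]; push_cast; ring⟩
  rw [← Pool.Agent.Y692.QS.mul_star] at h6
  have h7 : te ∣ D * star D := by
    refine Dvd.dvd.trans ?_ h6
    exact ⟨-te, by push_cast; linear_combination te_sq⟩
  rcases te_prime.dvd_or_dvd h7 with h8 | h8
  · exact h8
  · obtain ⟨t, ht⟩ := h8
    have h9 := congrArg star ht
    rw [star_star, star_mul'] at h9
    have h10 : star te = -te := by decide
    rw [h10] at h9
    exact ⟨-star t, by rw [h9]; ring⟩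

/-- the four classes -/
def U4 : Finset Ei := {w, -w, w ^ 2, -w ^ 2}

lemma card_U4 : U4.card = 4 := by decide

/-- the exponent -/
def cc (u : Ei) : ZMod 3 := if u = w ∨ u = -w then 1 else 2

lemma cc_ne (u : Ei) : cc u ≠ 0 := by
  unfold cc
  split_ifs <;> decide

lemma cc_eq : ∀ u ∈ U4, u = w ^ (cc u).val ∨ u = -w ^ (cc u).val := by decide

lemma U4_unit : ∀ u ∈ U4, IsUnit u := by
  intro u hu
  rw [Pool.Agent.Y692.QS.isUnit_iff]
  revert u
  decide

/-- the representation -/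
lemma rep {D : Ei} (hD : Cs D) : ∃ u ∈ U4, ∃ n : Ei, PS n ∧ D = u * n := by
  obtain ⟨hte, h3a, h3b, hsq, hnu⟩ := hD
  have h3 := three_nr hte
  obtain ⟨v, hv⟩ := (Pool.Agent.Y274.CT.assoc_ns h3).symm
  have hn3 : (3 : Ei) ∣ Pool.Agent.Y692.QS.ns D - 1 := Pool.Agent.Y696.CT.ns_prim h3
  have hps : PS (Pool.Agent.Y692.QS.ns D) := by
    refine ⟨hn3, ?_⟩
    intro x hx
    apply hsq x
    rw [← hv]
    exact hx.mul_right _
  obtain ⟨b, γ, hγ, hb⟩ := unit_cases v.isUnit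
  have hD2 : D = w ^ b.val * Pool.Agent.Y692.QS.ns D ∨ D = -w ^ b.val * Pool.Agent.Y692.QS.ns D := by
    rcases Pool.Agent.H91.Fc.unit_pm hγ with h | h
    · left
      conv_lhs => rw [← hv, hb, h]
      ring
    · right
      conv_lhs => rw [← hv, hb, h]
      ring
  have hb0 : b ≠ 0 := by
    rintro rfl
    rw [ZMod.val_zero, pow_zero] at hD2
    rcases hD2 with h | h
    · apply h3a
      rw [h, one_mul]
      exact hn3
    · apply h3b
      rw [h]
      have e : -1 * Pool.Agent.Y692.QS.ns D + 1 = -(Pool.Agent.Y692.QS.ns D - 1) := by ring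
      rw [e, dvd_neg]
      exact hn3
  have hmem : ∀ b : ZMod 3, b ≠ 0 → w ^ b.val ∈ U4 ∧ -w ^ b.val ∈ U4 := by decide
  rcases hD2 with h | h
  · exact ⟨_, (hmem b hb0).1, _, hps, h⟩
  · exact ⟨_, (hmem b hb0).2, _, hps, h⟩

lemma nrm_unit_mul {u n : Ei} (hu : u ∈ U4) : nrm (u * n) = nrm n := by
  rw [nrm_mul]
  have : ∀ u ∈ U4, nrm u = 1 := by decide
  rw [this u hu, one_mul]

lemma te_three : te ∣ (3 : Ei) := ⟨-te, by linear_combination te_sq⟩

/-- the elements of the class -/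
lemma cs_of {u n : Ei} (hu : u ∈ U4) (hn : PS n) (h1 : n ≠ 1) : Cs (u * n) := by
  have hun := U4_unit u hu
  have hten : ¬ te ∣ n := by
    intro h
    have h2 := dvd_sub h (te_three.trans hn.prm)
    rw [sub_sub_cancel] at h2
    exact te_prime.not_isUnit (isUnit_of_dvd_one h2)
  refine ⟨fun h => hten ((hun.dvd_mul_left).1 h), ?_, ?_, ?_, ?_⟩
  · intro h
    have h2 : (3 : Ei) ∣ u - 1 := by
      have e : u - 1 = (u * n - 1) - u * (n - 1) := by ring
      rw [e]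
      exact dvd_sub h (hn.prm.mul_left _)
    obtain ⟨t, ht⟩ := h2
    have h3 := congrArg nr ht
    rw [Pool.Agent.Y692.QS.nr_mul] at h3
    have h4 : nr (3 : Ei) = 9 := by decide
    have h5 : ∀ u ∈ U4, nr (u - 1) = 3 ∨ nr (u - 1) = 1 := by decide
    rw [h4] at h3
    rcases h5 u hu with h6 | h6 <;> rw [h6] at h3 <;> omega
  · intro h
    have h2 : (3 : Ei) ∣ u + 1 := by
      have e : u + 1 = (u * n + 1) - u * (n - 1) := by ring
      rw [e]
      exact dvd_sub h (hn.prm.mul_left _)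
    obtain ⟨t, ht⟩ := h2
    have h3 := congrArg nr ht
    rw [Pool.Agent.Y692.QS.nr_mul] at h3
    have h4 : nr (3 : Ei) = 9 := by decide
    have h5 : ∀ u ∈ U4, nr (u + 1) = 3 ∨ nr (u + 1) = 1 := by decide
    rw [h4] at h3
    rcases h5 u hu with h6 | h6 <;> rw [h6] at h3 <;> omega
  · intro x hx
    exact hn.sqf x ((hun.dvd_mul_left).1 hx)
  · intro h
    apply h1
    have h2 : IsUnit n := isUnit_of_mul_isUnit_right h
    exact eq_one_of_prm hn.prm h2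

lemma inj4 {u u' n n' : Ei} (hu : u ∈ U4) (hu' : u' ∈ U4) (hn : PS n) (hn' : PS n')
    (h : u * n = u' * n') : u = u' ∧ n = n' := by
  have h1 := congrArg Pool.Agent.Y692.QS.ns h
  rw [Pool.Agent.Y692.QS.ns_mul, Pool.Agent.Y692.QS.ns_mul,
    Pool.Agent.Y696.CT.ns_unit (U4_unit u hu), Pool.Agent.Y696.CT.ns_unit (U4_unit u' hu'), one_mul,
    one_mul, Pool.Agent.Y696.CT.ns_of_prim hn.prm, Pool.Agent.Y696.CT.ns_of_prim hn'.prm] at h1
  subst h1
  exact ⟨mul_right_cancel₀ hn.ne h, rfl⟩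

section count

variable {K : Type} [Field K] [NumberField K] (j : Ei ≃+* 𝓞 K)

lemma fin_nr (X : ℕ) : {D : Ei | nr D ≤ X}.Finite :=
  (fin_norm_le X).subset fun D hD => nr_le.1 hD

lemma upper (X : ℕ) : ({D : Ei | nr D ≤ X ∧ Cs D}.ncard : ℝ) ≤ 4 * ((SB X).card : ℝ) := by
  have h1 : {D : Ei | nr D ≤ X ∧ Cs D} ⊆ ((U4 ×ˢ SB X).image fun p => p.1 * p.2 : Finset Ei) := by
    rintro D ⟨h1, h2⟩
    obtain ⟨u, hu, n, hn, rfl⟩ := rep h2
    rw [mem_coe, mem_image]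
    refine ⟨(u, n), mem_product.2 ⟨hu, ?_⟩, rfl⟩
    rw [mem_SB]
    refine ⟨?_, hn⟩
    rw [nr_le, nrm_unit_mul hu] at h1
    exact h1
  have h2 := Set.ncard_le_ncard h1 (Finset.finite_toSet _)
  rw [Set.ncard_coe_finset] at h2
  have h3 : ((U4 ×ˢ SB X).image fun p => p.1 * p.2 : Finset Ei).card ≤ 4 * (SB X).card := by
    refine card_image_le.trans ?_
    rw [card_product, card_U4]
  exact_mod_cast h2.trans h3

/-- the index set -/
noncomputable def TT4 (X : ℕ) : Finset (Σ _ : Ei, Ei) := U4.sigma fun u => (Gl (cc u) X).erase 1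

lemma lower (X : ℕ) : (∑ u ∈ U4, ((Gl (cc u) X).card : ℝ)) - 4 ≤
    ({D : Ei | nr D ≤ X ∧ Cs D ∧ Tri (j D)}.ncard : ℝ) := by
  have h1 : (((TT4 X).image fun p => p.1 * p.2 : Finset Ei) : Set Ei) ⊆
      {D : Ei | nr D ≤ X ∧ Cs D ∧ Tri (j D)} := by
    intro D hD
    rw [mem_coe, mem_image] at hD
    obtain ⟨⟨u, n⟩, hp, rfl⟩ := hD
    unfold TT4 at hp
    rw [mem_sigma] at hp
    obtain ⟨hu, hn⟩ := hp
    simp only at hu hn
    rw [mem_erase] at hn
    unfold Gl at hn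
    rw [mem_filter, mem_SB] at hn
    obtain ⟨hn1, ⟨hn2, hn3⟩, hn4⟩ := hn
    refine ⟨?_, cs_of hu hn3 hn1, ?_⟩
    · rw [nr_le, nrm_unit_mul hu]
      exact hn2
    · refine tri_of j (cc_ne u) hn3 hn1 hn4 ?_
      rcases cc_eq u hu with h | h
      · left
        show u * n = _
        rw [← h]
      · right
        show u * n = _
        rw [← neg_mul, ← h]
  have h2 := Set.ncard_le_ncard h1 ((fin_nr X).subset fun D hD => hD.1)
  rw [Set.ncard_coe_finset, card_image_of_injOn] at h2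
  · have h3 : (TT4 X).card = ∑ u ∈ U4, ((Gl (cc u) X).erase 1).card := by
      unfold TT4
      exact card_sigma _ _
    rw [h3] at h2
    have h4 : ∀ u ∈ U4, ((Gl (cc u) X).card : ℝ) - 1 ≤ (((Gl (cc u) X).erase 1).card : ℝ) := by
      intro u _
      have := pred_card_le_card_erase (s := Gl (cc u) X) (a := 1)
      have h5 : (Gl (cc u) X).card ≤ ((Gl (cc u) X).erase 1).card + 1 := by omega
      have h6 : ((Gl (cc u) X).card : ℝ) ≤ (((Gl (cc u) X).erase 1).card : ℝ) + 1 := by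
        exact_mod_cast h5
      linarith
    have h5 := sum_le_sum h4
    rw [sum_sub_distrib, sum_const, card_U4] at h5
    have h6 : (∑ u ∈ U4, (((Gl (cc u) X).erase 1).card : ℝ)) ≤
        ({D : Ei | nr D ≤ X ∧ Cs D ∧ Tri (j D)}.ncard : ℝ) := by exact_mod_cast h2
    simp only [nsmul_eq_mul, mul_one] at h5
    push_cast at h5
    linarith
  · rintro ⟨u, n⟩ hp ⟨u', n'⟩ hp' heq
    unfold TT4 at hp hp'
    rw [mem_coe, mem_sigma] at hp hp'
    simp only [mem_erase] at hp hp' heq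
    unfold Gl at hp hp'
    simp only [mem_filter, mem_SB] at hp hp'
    obtain ⟨h3, h4⟩ := inj4 hp.1 hp'.1 hp.2.2.1.2 hp'.2.2.1.2 heq
    subst h3 h4
    rfl

lemma SB_ge : ∃ c : ℝ, 0 < c ∧ ∃ X₀ : ℕ, ∀ X : ℕ, X₀ ≤ X → c * X ≤ ((SB X).card : ℝ) := by
  obtain ⟨c, hc, X₀, h⟩ := Pool.Agent.Y145.CT9.cnt9
  refine ⟨c, hc, X₀, fun X hX => (h X hX).trans ?_⟩
  rw [← Set.ncard_coe_finset]
  have h1 : {D : Ei | nr D ≤ X ∧ Pool.Agent.Y703.CT.ClsE D} ⊆ (SB X : Set Ei) := by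
    rintro D ⟨h2, h3, h4, -⟩
    rw [mem_coe, mem_SB]
    exact ⟨nr_le.1 h2, h3, h4⟩
  exact_mod_cast Set.ncard_le_ncard h1 (Finset.finite_toSet _)

/-- **at least half of the class** -/
theorem half_class : ∀ ε : ℝ, 0 < ε → ∃ X₀ : ℕ, ∀ X : ℕ, X₀ ≤ X →
    (1 / 2 - ε) * ({D : Ei | nr D ≤ X ∧ Cs D}.ncard : ℝ) ≤
      ({D : Ei | nr D ≤ X ∧ Cs D ∧ Tri (j D)}.ncard : ℝ) := by
  intro ε hε
  obtain ⟨c, hc, X1, h1⟩ := SB_ge
  obtain ⟨X2, h2⟩ := halfz (c := 1) one_ne_zero (ε * c / 2) (by positivity)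
  obtain ⟨X3, h3⟩ := halfz (c := 2) (by decide) (ε * c / 2) (by positivity)
  obtain ⟨X4, h4⟩ := exists_nat_ge (4 / (2 * ε * c))
  refine ⟨X1 + X2 + X3 + X4, fun X hX => ?_⟩
  have a1 := h1 X (by omega)
  have a2 := h2 X (by omega)
  have a3 := h3 X (by omega)
  have a4 : 4 ≤ 2 * ε * c * X := by
    rw [div_le_iff₀ (by positivity)] at h4
    have h5 : (X4 : ℝ) ≤ X := by exact_mod_cast (by omega : X4 ≤ X)
    have h6 : 0 < 2 * ε * c := by positivity
    nlinarith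
  have hU : (∑ u ∈ U4, ((Gl (cc u) X).card : ℝ)) =
      2 * ((Gl 1 X).card : ℝ) + 2 * ((Gl 2 X).card : ℝ) := by
    have d1 : U4 = {w, -w, w ^ 2, -w ^ 2} := rfl
    rw [d1, sum_insert (by decide), sum_insert (by decide), sum_insert (by decide), sum_singleton]
    have c1 : cc w = 1 := by decide
    have c2 : cc (-w) = 1 := by decide
    have c3 : cc (w ^ 2) = 2 := by decide
    have c4 : cc (-w ^ 2) = 2 := by decide
    rw [c1, c2, c3, c4]
    ring
  have hup := upper X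
  have hlo := lower j X
  rw [hU] at hlo
  have hS : (0 : ℝ) ≤ ((SB X).card : ℝ) := Nat.cast_nonneg _
  have hA : (0 : ℝ) ≤ ({D : Ei | nr D ≤ X ∧ Cs D}.ncard : ℝ) := Nat.cast_nonneg _
  by_cases hε2 : 1 / 2 - ε ≤ 0
  · exact (mul_nonpos_of_nonpos_of_nonneg hε2 hA).trans (Nat.cast_nonneg _)
  · push Not at hε2
    have b1 : (1 / 2 - ε) * ({D : Ei | nr D ≤ X ∧ Cs D}.ncard : ℝ) ≤ (1 / 2 - ε) * (4 * ((SB X).card : ℝ)) :=
      mul_le_mul_of_nonneg_left hup hε2.le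
    have b2 : ε * (c * X) ≤ ε * ((SB X).card : ℝ) := mul_le_mul_of_nonneg_left a1 hε.le
    nlinarith

/-- the class has positive density -/
theorem pos_class : ∃ c : ℝ, 0 < c ∧ ∃ X₀ : ℕ, ∀ X : ℕ, X₀ ≤ X →
    c * X ≤ ({D : Ei | nr D ≤ X ∧ Cs D}.ncard : ℝ) := by
  obtain ⟨c, hc, X1, h1⟩ := SB_ge
  obtain ⟨X2, h2⟩ := exists_nat_ge (2 / c)
  refine ⟨c / 2, by positivity, X1 + X2, fun X hX => ?_⟩
  have a1 := h1 X (by omega)
  have a2 : 2 ≤ c * X := by
    rw [div_le_iff₀ hc] at h2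
    have h5 : (X2 : ℝ) ≤ X := by exact_mod_cast (by omega : X2 ≤ X)
    nlinarith
  have h3 : (((SB X).erase 1).image fun n => w * n : Finset Ei).card ≤
      {D : Ei | nr D ≤ X ∧ Cs D}.ncard := by
    rw [← Set.ncard_coe_finset]
    refine Set.ncard_le_ncard ?_ ((fin_nr X).subset fun D hD => hD.1)
    intro D hD
    rw [mem_coe, mem_image] at hD
    obtain ⟨n, hn, rfl⟩ := hD
    rw [mem_erase, mem_SB] at hn
    have hw : w ∈ U4 := by decide
    refine ⟨?_, cs_of hw hn.2.2 hn.1⟩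
    rw [nr_le, nrm_unit_mul hw]
    exact hn.2.1
  rw [card_image_of_injective _ (mul_right_injective₀ (by decide : (w : Ei) ≠ 0))] at h3
  have h4 := pred_card_le_card_erase (s := SB X) (a := 1)
  have h5 : (SB X).card ≤ {D : Ei | nr D ≤ X ∧ Cs D}.ncard + 1 := by omega
  have h6 : ((SB X).card : ℝ) ≤ ({D : Ei | nr D ≤ X ∧ Cs D}.ncard : ℝ) + 1 := by exact_mod_cast h5
  linarith

end count

end Pool.Agent.H91.Dz
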