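import Pool.Agent.H91.Dz6

/-!
# At least half of the squarefree elements of the class: in the ring of integers
-/

set_option autoImplicit false
set_option linter.unusedVariables false
set_option linter.unusedSectionVars false

open scoped Classical

namespace Pool.Agent.H91.Dz7

open NumberField IsDedekindDomain WeierstrassCurve WithZero
open Pool.Agent.Y692.QS (Ei w nr)
open Pool.Agent.Y696.CTK
open Pool.Agent.Y350.CTK.Tam (te te_prime te_sq)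
open Pool.Agent.H91.Fin1 (Cl cz_of)
open Pool.Agent.H91.Dz (Cs)

variable {K : Type} [Field K] [NumberField K] (j : Ei ≃+* 𝓞 K)

lemma sqf_iff {z : Ei} : Squarefree (j z) ↔ Squarefree z := by
  constructor
  · intro h x hx
    have h1 := h (j x) (by rw [← map_mul]; exact map_dvd j hx)
    exact (MulEquiv.isUnit_map j).1 h1
  · intro h x hx
    obtain ⟨y, rfl⟩ := j.surjective x
    have h1 := h y (by
      have := map_dvd j.symm hx
      rwa [map_mul, RingEquiv.symm_apply_apply, RingEquiv.symm_apply_apply] at this)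
    exact h1.map j

/-- prime to `3` -/
lemma cop_iff {z : Ei} : IsCoprime (j z) 3 ↔ ¬ te ∣ z := by
  constructor
  · rintro ⟨a, b, hab⟩ h
    apply te_prime.not_isUnit
    apply isUnit_of_dvd_one
    have h6 : (1 : Ei) = j.symm a * z + j.symm b * 3 := by
      apply j.injective
      rw [map_add, map_mul, map_mul, RingEquiv.apply_symm_apply, RingEquiv.apply_symm_apply,
        map_one, map_ofNat]
      exact hab.symm
    rw [h6]
    refine dvd_add (h.mul_left _) (Dvd.dvd.mul_left ?_ _)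
    exact ⟨-te, by linear_combination te_sq⟩
  · intro h
    have h3 := Pool.Agent.H91.Dz.three_nr h
    have h4 : IsCoprime (nr z) (3 : ℤ) := by
      rw [isCoprime_comm]
      exact (Int.prime_three.coprime_iff_not_dvd).2 h3
    obtain ⟨a, b, hab⟩ := h4
    refine ⟨j ((a : Ei) * star z), (b : 𝓞 K), ?_⟩
    have h5 : ((a : Ei) * star z) * z + (b : Ei) * 3 = 1 := by
      have h6 := Pool.Agent.Y692.QS.mul_star z
      have h7 : ((a * nr z + b * 3 : ℤ) : Ei) = ((1 : ℤ) : Ei) := by rw [hab]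
      push_cast at h7
      linear_combination h7 + (a : Ei) * h6
    have h8 := congrArg j h5
    rw [map_add, map_mul, map_mul (f := j) (b : Ei), map_one, map_ofNat, map_intCast] at h8
    exact h8

lemma cs_iff {z : Ei} : Cs z ↔ Squarefree (j z) ∧ Cl (j z) := by
  unfold Cs Cl
  rw [cop_iff, sqf_iff]
  have e1 : (3 : 𝓞 K) ∣ j z - 1 ↔ (3 : Ei) ∣ z - 1 := by
    constructor
    · intro h
      have := map_dvd j.symm h
      rwa [map_sub, map_one, map_ofNat, RingEquiv.symm_apply_apply] at this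
    · intro h
      have := map_dvd j h
      rwa [map_sub, map_one, map_ofNat] at this
  have e2 : (3 : 𝓞 K) ∣ j z + 1 ↔ (3 : Ei) ∣ z + 1 := by
    constructor
    · intro h
      have := map_dvd j.symm h
      rwa [map_add, map_one, map_ofNat, RingEquiv.symm_apply_apply] at this
    · intro h
      have := map_dvd j h
      rwa [map_add, map_one, map_ofNat] at this
  have e3 : IsUnit (j z) ↔ IsUnit z := MulEquiv.isUnit_map j
  rw [e1, e2, e3]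
  constructor
  · rintro ⟨h1, h2, h3, h4, h5⟩
    refine ⟨h4, h1, h2, h3, fun p hp => ?_, h5⟩
    have h6 : Squarefree (j z) := (sqf_iff j).2 h4
    apply h6 p
    exact (Dvd.intro p (by ring)).trans hp
  · rintro ⟨h1, h2, h3, h4, h5, h6⟩
    exact ⟨h2, h3, h4, h1, h6⟩

lemma img (hj : ∀ z : Ei, Algebra.norm ℤ (j z) = nr z) (X : ℕ) (P : 𝓞 K → Prop) :
    {D : 𝓞 K | |Algebra.norm ℤ D| ≤ X ∧ Squarefree D ∧ Cl D ∧ P D}.ncard =
      {z : Ei | nr z ≤ X ∧ Cs z ∧ P (j z)}.ncard := by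
  have h1 : {D : 𝓞 K | |Algebra.norm ℤ D| ≤ X ∧ Squarefree D ∧ Cl D ∧ P D} =
      j '' {z : Ei | nr z ≤ X ∧ Cs z ∧ P (j z)} := by
    ext D
    constructor
    · rintro ⟨h1, h2, h3, h4⟩
      obtain ⟨z, rfl⟩ := j.surjective D
      refine ⟨z, ⟨?_, (cs_iff j).2 ⟨h2, h3⟩, h4⟩, rfl⟩
      rw [hj] at h1
      exact (le_abs_self _).trans h1
    · rintro ⟨z, ⟨h1, h2, h3⟩, rfl⟩
      obtain ⟨h4, h5⟩ := (cs_iff j).1 h2
      refine ⟨?_, h4, h5, h3⟩
      rw [hj, abs_of_nonneg (Pool.Agent.Y692.QS.nr_nonneg z)]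
      exact h1
  rw [h1, Set.ncard_image_of_injective _ j.injective]

/-- the units -/
def U6 : Finset Ei := {1, -1, w, -w, w ^ 2, -w ^ 2}

lemma card_U6 : U6.card = 6 := by decide

lemma rep6 {D : Ei} (hte : ¬ te ∣ D) (hsq : Squarefree D) :
    ∃ u ∈ U6, ∃ n : Ei, Pool.Agent.Y699.E.PS n ∧ D = u * n := by
  have h3 := Pool.Agent.H91.Dz.three_nr hte
  obtain ⟨v, hv⟩ := (Pool.Agent.Y274.CT.assoc_ns h3).symm
  have hn3 : (3 : Ei) ∣ Pool.Agent.Y692.QS.ns D - 1 := Pool.Agent.Y696.CT.ns_prim h3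
  have hps : Pool.Agent.Y699.E.PS (Pool.Agent.Y692.QS.ns D) := by
    refine ⟨hn3, ?_⟩
    intro x hx
    apply hsq x
    rw [← hv]
    exact hx.mul_right _
  obtain ⟨b, γ, hγ, hb⟩ := Pool.Agent.H91.Sel.unit_cases v.isUnit
  have hD2 : D = w ^ b.val * Pool.Agent.Y692.QS.ns D ∨ D = -w ^ b.val * Pool.Agent.Y692.QS.ns D := by
    rcases Pool.Agent.H91.Fc.unit_pm hγ with h | h
    · left
      conv_lhs => rw [← hv, hb, h]
      ring
    · right
      conv_lhs => rw [← hv, hb, h]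
      ring
  have hmem : ∀ b : ZMod 3, w ^ b.val ∈ U6 ∧ -w ^ b.val ∈ U6 := by decide
  rcases hD2 with h | h
  · exact ⟨_, (hmem b).1, _, hps, h⟩
  · exact ⟨_, (hmem b).2, _, hps, h⟩

lemma upper6 (X : ℕ) : ({D : Ei | nr D ≤ X ∧ Squarefree D ∧ ¬ te ∣ D}.ncard : ℝ) ≤
    6 * ((Pool.Agent.Y699.E.SB X).card : ℝ) := by
  have h1 : {D : Ei | nr D ≤ X ∧ Squarefree D ∧ ¬ te ∣ D} ⊆
      ((U6 ×ˢ Pool.Agent.Y699.E.SB X).image fun p => p.1 * p.2 : Finset Ei) := by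
    rintro D ⟨h1, h2, h3⟩
    obtain ⟨u, hu, n, hn, rfl⟩ := rep6 h3 h2
    rw [Finset.mem_coe, Finset.mem_image]
    refine ⟨(u, n), Finset.mem_product.2 ⟨hu, ?_⟩, rfl⟩
    rw [Pool.Agent.Y699.E.mem_SB]
    refine ⟨?_, hn⟩
    have : ∀ u ∈ U6, Pool.Agent.Y699.E.nrm u = 1 := by decide
    rw [Pool.Agent.Y699.E.nr_le, Pool.Agent.Y699.E.nrm_mul, this u hu, one_mul] at h1
    exact h1
  have h2 := Set.ncard_le_ncard h1 (Finset.finite_toSet _)
  rw [Set.ncard_coe_finset] at h2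
  have h3 : ((U6 ×ˢ Pool.Agent.Y699.E.SB X).image fun p => p.1 * p.2 : Finset Ei).card ≤
      6 * (Pool.Agent.Y699.E.SB X).card := by
    refine Finset.card_image_le.trans ?_
    rw [Finset.card_product, card_U6]
  exact_mod_cast h2.trans h3

lemma img6 (hj : ∀ z : Ei, Algebra.norm ℤ (j z) = nr z) (X : ℕ) :
    {D : 𝓞 K | |Algebra.norm ℤ D| ≤ X ∧ Squarefree D ∧ IsCoprime D 3}.ncard =
      {z : Ei | nr z ≤ X ∧ Squarefree z ∧ ¬ te ∣ z}.ncard := by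
  have h1 : {D : 𝓞 K | |Algebra.norm ℤ D| ≤ X ∧ Squarefree D ∧ IsCoprime D 3} =
      j '' {z : Ei | nr z ≤ X ∧ Squarefree z ∧ ¬ te ∣ z} := by
    ext D
    constructor
    · rintro ⟨h1, h2, h3⟩
      obtain ⟨z, rfl⟩ := j.surjective D
      refine ⟨z, ⟨?_, (sqf_iff j).1 h2, (cop_iff j).1 h3⟩, rfl⟩
      rw [hj] at h1
      exact (le_abs_self _).trans h1
    · rintro ⟨z, ⟨h1, h2, h3⟩, rfl⟩
      refine ⟨?_, (sqf_iff j).2 h2, (cop_iff j).2 h3⟩
      rw [hj, abs_of_nonneg (Pool.Agent.Y692.QS.nr_nonneg z)]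
      exact h1
  rw [h1, Set.ncard_image_of_injective _ j.injective]

/-- the class has at least two thirds of all -/
lemma lower4 (X : ℕ) : 4 * ((Pool.Agent.Y699.E.SB X).card : ℝ) - 4 ≤
    ({D : Ei | nr D ≤ X ∧ Cs D}.ncard : ℝ) := by
  have h1 : (((Pool.Agent.H91.Dz.U4 ×ˢ (Pool.Agent.Y699.E.SB X).erase 1).image
      fun p => p.1 * p.2 : Finset Ei) : Set Ei) ⊆ {D : Ei | nr D ≤ X ∧ Cs D} := by
    intro D hD
    rw [Finset.mem_coe, Finset.mem_image] at hD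
    obtain ⟨⟨u, n⟩, hp, rfl⟩ := hD
    rw [Finset.mem_product, Finset.mem_erase, Pool.Agent.Y699.E.mem_SB] at hp
    obtain ⟨hu, hn1, hn2, hn3⟩ := hp
    refine ⟨?_, Pool.Agent.H91.Dz.cs_of hu hn3 hn1⟩
    rw [Pool.Agent.Y699.E.nr_le, Pool.Agent.H91.Dz.nrm_unit_mul hu]
    exact hn2
  have h2 := Set.ncard_le_ncard h1 ((Pool.Agent.H91.Dz.fin_nr X).subset fun D hD => hD.1)
  rw [Set.ncard_coe_finset, Finset.card_image_of_injOn] at h2
  · rw [Finset.card_product, Pool.Agent.H91.Dz.card_U4] at h2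
    have h4 := Finset.pred_card_le_card_erase (s := Pool.Agent.Y699.E.SB X) (a := 1)
    have h5 : 4 * (Pool.Agent.Y699.E.SB X).card ≤ {D : Ei | nr D ≤ X ∧ Cs D}.ncard + 4 := by omega
    have h6 : 4 * ((Pool.Agent.Y699.E.SB X).card : ℝ) ≤
      ({D : Ei | nr D ≤ X ∧ Cs D}.ncard : ℝ) + 4 := by exact_mod_cast h5
    linarith
  · rintro ⟨u, n⟩ hp ⟨u', n'⟩ hp' heq
    rw [Finset.mem_coe, Finset.mem_product, Finset.mem_erase, Pool.Agent.Y699.E.mem_SB] at hp hp'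
    simp only at heq
    obtain ⟨h3, h4⟩ := Pool.Agent.H91.Dz.inj4 hp.1 hp'.1 hp.2.2.2 hp'.2.2.2 heq
    exact Prod.ext h3 h4

/-- **at least one third** of the squarefree elements prime to `3` -/
theorem third (hj : ∀ z : Ei, Algebra.norm ℤ (j z) = nr z) : ∀ ε : ℝ, 0 < ε → ∃ X₀ : ℕ,
    ∀ X : ℕ, X₀ ≤ X →
    (1 / 3 - ε) * ({D : 𝓞 K | |Algebra.norm ℤ D| ≤ X ∧ Squarefree D ∧ IsCoprime D 3}.ncard : ℝ) ≤
      ({D : 𝓞 K | (|Algebra.norm ℤ D| ≤ X ∧ Squarefree D ∧ IsCoprime D 3) ∧ Cl D ∧ Tri D}.ncard : ℝ) := by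
  intro ε hε
  obtain ⟨c, hc, X1, h1⟩ := Pool.Agent.H91.Dz.SB_ge
  obtain ⟨X2, h2⟩ := Pool.Agent.H91.Dz.half_class j (ε / 2) (by positivity)
  obtain ⟨X3, h3⟩ := exists_nat_ge (1 / (ε * c))
  refine ⟨X1 + X2 + X3, fun X hX => ?_⟩
  have a1 := h1 X (by omega)
  have a2 := h2 X (by omega)
  have a3 : 1 ≤ ε * c * X := by
    rw [div_le_iff₀ (by positivity)] at h3
    have h5 : (X3 : ℝ) ≤ X := by exact_mod_cast (by omega : X3 ≤ X)
    have h6 : 0 < ε * c := by positivity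
    nlinarith
  have e1 : {D : 𝓞 K | (|Algebra.norm ℤ D| ≤ X ∧ Squarefree D ∧ IsCoprime D 3) ∧ Cl D ∧ Tri D} =
      {D : 𝓞 K | |Algebra.norm ℤ D| ≤ X ∧ Squarefree D ∧ Cl D ∧ Tri D} := by
    ext D
    constructor
    · rintro ⟨⟨g1, g2, g3⟩, g4, g5⟩
      exact ⟨g1, g2, g4, g5⟩
    · rintro ⟨g1, g2, g4, g5⟩
      exact ⟨⟨g1, g2, g4.1⟩, g4, g5⟩
  rw [e1, img j hj X Tri, img6 j hj X]
  have hup := upper6 X
  have hlo := lower4 X
  have hS : (0 : ℝ) ≤ ((Pool.Agent.Y699.E.SB X).card : ℝ) := Nat.cast_nonneg _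
  have hA : (0 : ℝ) ≤ ({D : Ei | nr D ≤ X ∧ Squarefree D ∧ ¬ te ∣ D}.ncard : ℝ) := Nat.cast_nonneg _
  by_cases hε2 : 1 / 3 - ε ≤ 0
  · exact (mul_nonpos_of_nonpos_of_nonneg hε2 hA).trans (Nat.cast_nonneg _)
  · push Not at hε2
    have b1 : (1 / 3 - ε) * ({D : Ei | nr D ≤ X ∧ Squarefree D ∧ ¬ te ∣ D}.ncard : ℝ) ≤
        (1 / 3 - ε) * (6 * ((Pool.Agent.Y699.E.SB X).card : ℝ)) :=
      mul_le_mul_of_nonneg_left hup hε2.le
    have b2 : (1 / 2 - ε / 2) * (4 * ((Pool.Agent.Y699.E.SB X).card : ℝ) - 4) ≤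
        (1 / 2 - ε / 2) * ({D : Ei | nr D ≤ X ∧ Cs D}.ncard : ℝ) :=
      mul_le_mul_of_nonneg_left hlo (by linarith)
    have b3 : ε * (c * X) ≤ ε * ((Pool.Agent.Y699.E.SB X).card : ℝ) :=
      mul_le_mul_of_nonneg_left a1 hε.le
    nlinarith

/-- positive density -/
theorem pos3 (hj : ∀ z : Ei, Algebra.norm ℤ (j z) = nr z) : ∃ c : ℝ, 0 < c ∧ ∃ X₀ : ℕ,
    ∀ X : ℕ, X₀ ≤ X →
    c * X ≤ ({D : 𝓞 K | |Algebra.norm ℤ D| ≤ X ∧ Squarefree D ∧ IsCoprime D 3}.ncard : ℝ) := by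
  obtain ⟨c, hc, X₀, h⟩ := Pool.Agent.H91.Dz.pos_class
  refine ⟨c, hc, X₀, fun X hX => ?_⟩
  have h1 := h X hX
  rw [img6 j hj X]
  have h2 : {D : Ei | nr D ≤ X ∧ Cs D} ⊆ {D : Ei | nr D ≤ X ∧ Squarefree D ∧ ¬ te ∣ D} := by
    rintro D ⟨g1, g2, g3, g4, g5, g6⟩
    exact ⟨g1, g5, g2⟩
  have h3 := Set.ncard_le_ncard h2 ((Pool.Agent.H91.Dz.fin_nr X).subset fun D hD => hD.1)
  have h4 : ({D : Ei | nr D ≤ X ∧ Cs D}.ncard : ℝ) ≤
    ({D : Ei | nr D ≤ X ∧ Squarefree D ∧ ¬ te ∣ D}.ncard : ℝ) := by exact_mod_cast h3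
  linarith

end Pool.Agent.H91.Dz7
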