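import Pool.Agent.H91.X9
import Pool.Graph.R_seed8.Y699.E.Pr
import Pool.Graph.R_seed8.Y699.E.Lg

/-!
# The squarefree elements `1` modulo `3` are equidistributed in the residues of the norm modulo `9`
-/

set_option autoImplicit false
set_option linter.unusedVariables false

open scoped Classical
open Finset

namespace Pool.Agent.H91.Eq3

open Pool.Agent.Y692.QS (Ei w nr)
open Pool.Agent.Y715.T.RecG (Pq)
open Pool.Agent.Y699.E

/-- the sign -/
noncomputable def sgn (d : Ei) : ℤ := (-1) ^ (PD d).card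

lemma dvd_pd {n d : Ei} (hn : n ≠ 0) (hd : PS d) : d * d ∣ n ↔ ∀ π ∈ PD d, π * π ∣ n := by
  constructor
  · intro h π hπ
    obtain ⟨-, h2⟩ := (mem_PD hd.ne).1 hπ
    exact (mul_dvd_mul h2 h2).trans h
  · intro h
    have e : d * d = ∏ π ∈ PD d, (π * π) := by
      rw [prod_mul_distrib, hd.prod]
    rw [e]
    refine Finset.prod_dvd_of_coprime ?_ h
    intro π hπ ρ hρ hne
    have h1 := ((mem_PD hd.ne).1 hπ).1
    have h2 := ((mem_PD hd.ne).1 hρ).1
    have h3 := pq_cop h1 h2 hne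
    exact IsCoprime.mul_left (IsCoprime.mul_right h3 h3) (IsCoprime.mul_right h3 h3)

/-- the primes whose squares divide -/
noncomputable def P2 (n : Ei) : Finset Ei := (PD n).filter fun π => π * π ∣ n

lemma P2_empty {n : Ei} (hn : prm n) : P2 n = ∅ ↔ Squarefree n := by
  have hn0 := prm_ne_zero hn
  constructor
  · intro h x hx
    by_contra hu
    have hx0 : x ≠ 0 := by
      rintro rfl
      rw [zero_mul, zero_dvd_iff] at hx
      exact hn0 hx
    obtain ⟨ρ, hρ, hρx⟩ := WfDvdMonoid.exists_irreducible_factor hu hx0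
    have hρn : ρ ∣ n := (hρx.mul_left x).trans hx
    have h3 := not_dvd_three hρ.prime hρn hn
    obtain ⟨π, hπ, ha⟩ := exists_PP hρ.prime h3
    have h4 : π ∣ x := ha.dvd.trans hρx
    have h5 : π ∈ P2 n := by
      unfold P2
      rw [mem_filter, mem_PD hn0]
      exact ⟨⟨hπ, ha.dvd.trans hρn⟩, (mul_dvd_mul h4 h4).trans hx⟩
    rw [h] at h5
    exact notMem_empty _ h5
  · intro h
    rw [eq_empty_iff_forall_notMem]
    intro π hπ
    unfold P2 at hπ
    rw [mem_filter, mem_PD hn0] at hπ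
    exact hπ.1.1.prime.not_isUnit (h π hπ.2)

/-- the Möbius identity -/
theorem mob {X : ℕ} {n : Ei} (hn : prm n) (hX : nrm n ≤ X) :
    ∑ d ∈ (SB X).filter (fun d => d * d ∣ n), sgn d = if Squarefree n then 1 else 0 := by
  have hn0 := prm_ne_zero hn
  have h1 : ∑ d ∈ (SB X).filter (fun d => d * d ∣ n), sgn d =
      ∑ S ∈ (P2 n).powerset, (-1 : ℤ) ^ S.card := by
    refine sum_bij' (fun d _ => PD d) (fun S _ => ∏ π ∈ S, π) ?_ ?_ ?_ ?_ ?_
    · intro d hd
      rw [mem_filter, mem_SB] at hd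
      rw [mem_powerset]
      intro π hπ
      unfold P2
      rw [mem_filter, mem_PD hn0]
      have h2 := (mem_PD hd.1.2.ne).1 hπ
      exact ⟨⟨h2.1, (h2.2.mul_right d).trans hd.2⟩, (dvd_pd hn0 hd.1.2).1 hd.2 π hπ⟩
    · intro S hS
      rw [mem_powerset] at hS
      have hP : ∀ π ∈ S, Pq π := by
        intro π hπ
        have := hS hπ
        unfold P2 at this
        rw [mem_filter, mem_PD hn0] at this
        exact this.1.1
      obtain ⟨h5, h6⟩ := PS_prod hP
      have hd : (∏ π ∈ S, π) * ∏ π ∈ S, π ∣ n := by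
        rw [dvd_pd hn0 h5, h6]
        intro π hπ
        have := hS hπ
        unfold P2 at this
        rw [mem_filter] at this
        exact this.2
      rw [mem_filter, mem_SB]
      exact ⟨⟨(norm_le_of_dvd hn0 ((dvd_mul_right _ _).trans hd)).trans hX, h5⟩, hd⟩
    · intro d hd
      rw [mem_filter, mem_SB] at hd
      exact hd.1.2.prod
    · intro S hS
      rw [mem_powerset] at hS
      have hP : ∀ π ∈ S, Pq π := by
        intro π hπ
        have := hS hπ
        unfold P2 at this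
        rw [mem_filter, mem_PD hn0] at this
        exact this.1.1
      exact (PS_prod hP).2
    · intro d hd
      rfl
  rw [h1, Finset.sum_powerset_neg_one_pow_card]
  simp only [P2_empty hn]

/-- sums over the squarefree elements -/
theorem sum_SB (X : ℕ) (f : Ei → ℂ) : ∑ n ∈ SB X, f n =
    ∑ d ∈ SB X, (sgn d : ℂ) * ∑ n ∈ (PB X).filter (fun n => d * d ∣ n), f n := by
  have h1 : ∑ n ∈ SB X, f n = ∑ n ∈ PB X, (if Squarefree n then f n else 0) := by
    rw [← sum_filter]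
    refine sum_congr ?_ fun _ _ => rfl
    ext n
    rw [mem_filter, mem_SB, mem_PB]
    constructor
    · rintro ⟨h1, h2⟩
      exact ⟨⟨h1, h2.prm⟩, h2.sqf⟩
    · rintro ⟨⟨h1, h2⟩, h3⟩
      exact ⟨h1, ⟨h2, h3⟩⟩
  have h2 : ∀ n ∈ PB X, (if Squarefree n then f n else 0) =
      ∑ d ∈ SB X, (if d * d ∣ n then (sgn d : ℂ) * f n else 0) := by
    intro n hn
    rw [mem_PB] at hn
    have h3 := mob hn.2 hn.1
    rw [← sum_filter, ← sum_mul]
    have h4 : ∑ d ∈ (SB X).filter (fun d => d * d ∣ n), ((sgn d : ℤ) : ℂ) =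
        if Squarefree n then 1 else 0 := by
      rw [← Int.cast_sum, h3]
      split_ifs <;> simp
    rw [h4]
    split_ifs <;> simp
  rw [h1, sum_congr rfl h2, sum_comm]
  refine sum_congr rfl fun d _ => ?_
  rw [mul_sum, sum_filter]

/-- the character of the norm -/
noncomputable def Fz (c : ZMod 3) (n : Ei) : ℂ := ez (c * tht n)

lemma Fz_mul {c : ZMod 3} {a b : Ei} (ha : prm a) (hb : prm b) : Fz c (a * b) = Fz c a * Fz c b := by
  unfold Fz
  rw [tht_mul ha hb, mul_add, ez_add]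

lemma ez_nrm (c : ZMod 3) : ‖ez c‖ = 1 := by
  have h1 : ez c ^ 3 = 1 := by
    have h2 : ez c ^ 3 = ez (c + c + c) := by
      rw [ez_add, ez_add]; ring
    rw [h2]
    have h3 : ∀ c : ZMod 3, c + c + c = 0 := by decide
    rw [h3, ez_zero]
  have h3 := congrArg norm h1
  rw [norm_pow, norm_one] at h3
  exact (pow_eq_one_iff_of_nonneg (norm_nonneg _) (by norm_num)).1 h3

lemma nr_congr {a b : Ei} (h : (9 : Ei) ∣ a - b) : (9 : ℤ) ∣ nr a - nr b := by
  obtain ⟨t, ht⟩ := h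
  have e : a = b + 9 * t := by rw [← ht]; ring
  have h9 : (9 : Ei) = ⟨9, 0⟩ := rfl
  have hr : a.re = b.re + 9 * t.re := by
    rw [e, h9]
    simp
  have hi : a.im = b.im + 9 * t.im := by
    rw [e, h9]
    simp
  unfold Pool.Agent.Y692.QS.nr
  rw [hr, hi]
  exact ⟨2 * b.re * t.re + 9 * t.re ^ 2 - b.re * t.im - b.im * t.re - 9 * t.re * t.im +
    2 * b.im * t.im + 9 * t.im ^ 2, by ring⟩

lemma prm_four : prm (4 : Ei) := by
  unfold prm
  exact ⟨1, by norm_num⟩

lemma sum_PB {c : ZMod 3} (hc : c ≠ 0) (V : ℕ) :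
    ‖∑ m ∈ PB V, Fz c m‖ ≤ 243 * (3 * Real.sqrt V + 1) := by
  have h1 : ∑ m ∈ PB V, Fz c m = ∑ a ∈ ZB V, (if prm a then Fz c a else 0) := by
    unfold PB
    rw [sum_filter]
  rw [h1]
  have h2 := csum (q := 9) (by decide) (f := fun a => if prm a then Fz c a else 0) ?_ ?_
    (c := 4) ⟨-2, 1, by norm_num⟩ (z := ez (c * tht 4)) ?_ ?_ V
  · have h3 : nrm (9 : Ei) = 81 := by decide
    rw [h3] at h2
    refine h2.trans (le_of_eq ?_)
    norm_num
  · intro a b hab
    have hp : prm a ↔ prm b := by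
      have h3 : (3 : Ei) ∣ a - b := (Dvd.intro 3 (by norm_num)).trans hab
      unfold prm
      constructor
      · intro h
        have e : b - 1 = (a - 1) - (a - b) := by ring
        rw [e]
        exact dvd_sub h h3
      · intro h
        have e : a - 1 = (b - 1) + (a - b) := by ring
        rw [e]
        exact dvd_add h h3
    have ht : tht a = tht b := Pool.Agent.H91.Kc.ex_congr (nr_congr hab)
    simp only [hp]
    unfold Fz
    rw [ht]
  · intro a
    show ‖if prm a then Fz c a else 0‖ ≤ 1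
    split_ifs
    · unfold Fz
      rw [ez_nrm]
    · simp
  · refine ez_ne ?_
    have h4 : tht 4 = 2 := by
      unfold tht
      have : (nr (4 : Ei) - 1) / 3 = 5 := by decide
      rw [this]
      decide
    rw [h4]
    exact mul_ne_zero hc (by decide)
  · intro a
    show (if prm (4 * a) then Fz c (4 * a) else 0) = _ * (if prm a then Fz c a else 0)
    by_cases ha : prm a
    · rw [if_pos ha, if_pos (prm_mul prm_four ha), Fz_mul prm_four ha]
      rfl
    · rw [if_neg ha, if_neg (fun h => ha (prm_cancel prm_four h)), mul_zero]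

lemma PB_zero : PB 0 = ∅ := by
  rw [eq_empty_iff_forall_notMem]
  intro a ha
  rw [mem_PB] at ha
  exact prm_ne_zero ha.2 (nrm_zero_iff.1 (Nat.le_zero.1 ha.1))

lemma inner {c : ZMod 3} {X : ℕ} {d : Ei} (hd : PS d) :
    ∑ n ∈ (PB X).filter (fun n => d * d ∣ n), Fz c n =
      Fz c (d * d) * ∑ m ∈ PB (X / (nrm d * nrm d)), Fz c m := by
  have hdd : prm (d * d) := prm_mul hd.prm hd.prm
  have hd0 : d * d ≠ 0 := mul_ne_zero hd.ne hd.ne
  have hp : 0 < nrm d * nrm d := Nat.mul_pos (nrm_pos' hd.ne) (nrm_pos' hd.ne)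
  rw [mul_sum]
  symm
  refine sum_bij (fun m _ => d * d * m) ?_ ?_ ?_ ?_
  · intro m hm
    rw [mem_PB, Nat.le_div_iff_mul_le hp] at hm
    rw [mem_filter, mem_PB, nrm_mul, nrm_mul]
    refine ⟨⟨?_, prm_mul hdd hm.2⟩, dvd_mul_right _ _⟩
    rw [mul_comm]
    exact hm.1
  · intro a _ b _ hab
    exact mul_left_cancel₀ hd0 hab
  · intro n hn
    rw [mem_filter, mem_PB] at hn
    obtain ⟨⟨h1, h2⟩, m, rfl⟩ := hn
    refine ⟨m, ?_, rfl⟩
    rw [mem_PB, Nat.le_div_iff_mul_le hp]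
    rw [nrm_mul, nrm_mul] at h1
    refine ⟨?_, prm_cancel hdd h2⟩
    rw [mul_comm]
    exact h1
  · intro m hm
    rw [mem_PB] at hm
    exact (Fz_mul hdd hm.2).symm

lemma inner_le {c : ZMod 3} (hc : c ≠ 0) {X : ℕ} {d : Ei} (hd : PS d) (hX : nrm d ≤ Nat.sqrt X) :
    ‖(sgn d : ℂ) * ∑ n ∈ (PB X).filter (fun n => d * d ∣ n), Fz c n‖ ≤
      243 * (3 * (Real.sqrt X * (1 / nrm d)) + 1) := by
  have hs : ‖((sgn d : ℤ) : ℂ)‖ = 1 := by
    unfold sgn
    push_cast
    rw [norm_pow, norm_neg, norm_one, one_pow]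
  rw [inner hd, norm_mul, norm_mul, hs, one_mul]
  have h1 : ‖Fz c (d * d)‖ = 1 := ez_nrm _
  rw [h1, one_mul]
  refine (sum_PB hc _).trans ?_
  have hd0 : (0 : ℝ) < nrm d := by exact_mod_cast nrm_pos' hd.ne
  have h2 : Real.sqrt ((X / (nrm d * nrm d) : ℕ) : ℝ) ≤ Real.sqrt X * (1 / nrm d) := by
    rw [mul_one_div, le_div_iff₀ hd0]
    have h3 : ((X / (nrm d * nrm d) : ℕ) : ℝ) * (nrm d * nrm d) ≤ X := by
      have := Nat.div_mul_le_self X (nrm d * nrm d)
      exact_mod_cast this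
    calc Real.sqrt ((X / (nrm d * nrm d) : ℕ) : ℝ) * nrm d
        = Real.sqrt ((X / (nrm d * nrm d) : ℕ) : ℝ) * Real.sqrt (nrm d * nrm d) := by
          rw [Real.sqrt_mul_self hd0.le]
      _ = Real.sqrt (((X / (nrm d * nrm d) : ℕ) : ℝ) * (nrm d * nrm d)) := by
          exact (Real.sqrt_mul (Nat.cast_nonneg _) _).symm
      _ ≤ _ := Real.sqrt_le_sqrt h3
  linarith

/-- the bound -/
theorem sum_bound {c : ZMod 3} (hc : c ≠ 0) {X : ℕ} (hX : 1 ≤ X) :
    ‖∑ n ∈ SB X, Fz c n‖ ≤ 243 * (96 * lg X + 16) * Real.sqrt X := by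
  rw [sum_SB]
  have h1 : ∑ d ∈ SB X, (sgn d : ℂ) * ∑ n ∈ (PB X).filter (fun n => d * d ∣ n), Fz c n =
      ∑ d ∈ (SB X).filter (fun d => nrm d ≤ Nat.sqrt X),
        (sgn d : ℂ) * ∑ n ∈ (PB X).filter (fun n => d * d ∣ n), Fz c n := by
    rw [sum_filter]
    refine sum_congr rfl fun d hd => ?_
    split_ifs with h
    · rfl
    · rw [mem_SB] at hd
      have h2 : (PB X).filter (fun n => d * d ∣ n) = ∅ := by
        rw [eq_empty_iff_forall_notMem]
        intro n hn
        rw [mem_filter, mem_PB] at hn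
        have h3 := norm_le_of_dvd (prm_ne_zero hn.1.2) hn.2
        rw [nrm_mul] at h3
        apply h
        rw [Nat.le_sqrt]
        exact h3.trans hn.1.1
      rw [h2, sum_empty, mul_zero]
  rw [h1]
  refine (norm_sum_le _ _).trans ?_
  have h2 : ∑ d ∈ (SB X).filter (fun d => nrm d ≤ Nat.sqrt X),
      ‖(sgn d : ℂ) * ∑ n ∈ (PB X).filter (fun n => d * d ∣ n), Fz c n‖ ≤
      ∑ d ∈ PB (Nat.sqrt X), 243 * (3 * (Real.sqrt X * (1 / nrm d)) + 1) := by
    have h3 : (SB X).filter (fun d => nrm d ≤ Nat.sqrt X) ⊆ PB (Nat.sqrt X) := by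
      intro d hd
      rw [mem_filter, mem_SB] at hd
      rw [mem_PB]
      exact ⟨hd.2, hd.1.2.prm⟩
    refine (sum_le_sum (g := fun d => 243 * (3 * (Real.sqrt X * (1 / nrm d)) + 1)) ?_).trans
      (sum_le_sum_of_subset_of_nonneg h3 ?_)
    · intro d hd
      rw [mem_filter, mem_SB] at hd
      exact inner_le hc hd.1.2 hd.2
    · intro d _ _
      positivity
  refine h2.trans ?_
  have h4 : 1 ≤ Nat.sqrt X := by
    rw [Nat.le_sqrt]
    omega
  have h5 := hsum (Nat.sqrt X)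
  have h6 := card_PB_le h4
  have h7 : (Nat.sqrt X : ℝ) ≤ Real.sqrt X := Real.nat_sqrt_le_real_sqrt
  have h8 : lg (Nat.sqrt X) ≤ lg X := lg_mono (Nat.sqrt_le_self X)
  have e1 : ∑ d ∈ PB (Nat.sqrt X), 243 * (3 * (Real.sqrt X * (1 / nrm d)) + 1) =
      243 * (3 * (Real.sqrt X * ∑ d ∈ PB (Nat.sqrt X), (1 : ℝ) / nrm d) +
        ((PB (Nat.sqrt X)).card : ℝ)) := by
    rw [← mul_sum, sum_add_distrib, ← mul_sum, ← mul_sum, sum_const, nsmul_eq_mul, mul_one]
  rw [e1]
  have hs0 : 0 ≤ Real.sqrt X := Real.sqrt_nonneg _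
  have h9 : Real.sqrt X * ∑ d ∈ PB (Nat.sqrt X), (1 : ℝ) / nrm d ≤ Real.sqrt X * (32 * lg X) :=
    mul_le_mul_of_nonneg_left (h5.trans (by linarith)) hs0
  nlinarith

end Pool.Agent.H91.Eq3
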