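import Pool.Agent.H91.Lw
import Pool.Graph.R_seed8.Y696.CTK.GE2

/-!
# The elements `D` prime to three and different from `± 1` modulo three
-/

set_option autoImplicit false
set_option linter.unusedVariables false

open scoped Classical

namespace Pool.Agent.H91.Fc

open Pool.Agent.Y692.QS
open Pool.Agent.Y715.T.Rs Pool.Agent.Y715.T.Rec
open Pool.Agent.Y703.CT
open Pool.Agent.Y715.T.RecG (Pq)
open Pool.Agent.Y274.CT
open Pool.Agent.Y350.CTK.Tam (te te_prime te_sq)
open Pool.Agent.H91.Sel (dD unit_cases)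
open Pool.Agent.H91.LKz (Pm)

/-- the class -/
def Cz (D : Ei) : Prop :=
  ¬ te ∣ D ∧ ¬ (3 : Ei) ∣ D - 1 ∧ ¬ (3 : Ei) ∣ D + 1 ∧ (∀ p : Ei, p ^ 3 ∣ D → IsUnit p) ∧ ¬ IsUnit D

lemma unit_pm {γ : Ei} (h : IsUnit γ) : γ ^ 3 = 1 ∨ γ ^ 3 = -1 := by
  obtain ⟨b, δ, hδ, h1⟩ := unit_cases h
  rw [isUnit_iff] at h
  have h1 : γ.re ^ 2 - γ.re * γ.im + γ.im ^ 2 = 1 := h
  have hb : -1 ≤ γ.im ∧ γ.im ≤ 1 := by
    constructor <;> nlinarith [sq_nonneg (2 * γ.re - γ.im)]
  have ha : -1 ≤ γ.re ∧ γ.re ≤ 1 := by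
    constructor <;> nlinarith [sq_nonneg (2 * γ.im - γ.re)]
  have hre : γ.re = -1 ∨ γ.re = 0 ∨ γ.re = 1 := by omega
  have him : γ.im = -1 ∨ γ.im = 0 ∨ γ.im = 1 := by omega
  have key : ∀ v : Ei, (v.re = -1 ∨ v.re = 0 ∨ v.re = 1) → (v.im = -1 ∨ v.im = 0 ∨ v.im = 1) →
      nr v = 1 → v ^ 3 = 1 ∨ v ^ 3 = -1 := by
    rintro ⟨x, y⟩ hx hy hv
    simp only at hx hy
    rcases hx with rfl | rfl | rfl <;> rcases hy with rfl | rfl | rfl <;>
      first
        | exact absurd hv (by decide)
        | decide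
  exact key γ hre him h

theorem exi {D : Ei} (hD : Cz D) : ∃ (J : Type) (_ : Fintype J) (_ : Nonempty J) (π : J → Ei)
    (e : J → ZMod 3) (c : ZMod 3), c ≠ 0 ∧ Dt π e ∧ Pm (dD c π e) D := by
  obtain ⟨hte, h3a, h3b, hcf, hnu⟩ := hD
  have hD0 : D ≠ 0 := by
    rintro rfl
    exact hte (dvd_zero _)
  obtain ⟨f, hf, hfD⟩ := UniqueFactorizationMonoid.exists_prime_factors D hD0
  have hf3 : ∀ b ∈ f, ¬ b ∣ 3 := by
    intro b hb hb3
    have h1 : b ∣ D := (Multiset.dvd_prod hb).trans hfD.dvd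
    apply hte
    have h2 : b ∣ te ^ 2 := by rw [te_sq, dvd_neg]; exact hb3
    have h4 : b ∣ te := (hf b hb).dvd_of_dvd_pow h2
    exact (((hf b hb).associated_of_dvd te_prime h4).symm.dvd).trans h1
  obtain ⟨s, hs⟩ : ∃ s, s = f.map ns := ⟨_, rfl⟩
  have hspq : ∀ a ∈ s, Pq a := by
    intro a ha
    rw [hs, Multiset.mem_map] at ha
    obtain ⟨b, hb, rfl⟩ := ha
    exact pq_ns (hf b hb) (hf3 b hb)
  have hsprod : Associated s.prod D := by
    have h1 : ns f.prod = s.prod := by
      rw [hs]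
      exact map_multiset_prod nsH f
    rw [← h1]
    refine Associated.trans ?_ hfD
    symm
    apply assoc_ns
    intro h4
    have h5 : te ∣ f.prod := by
      have h6 : ((3 : ℤ) : Ei) ∣ ((nr f.prod : ℤ) : Ei) := by
        obtain ⟨t, ht⟩ := h4
        exact ⟨(t : Ei), by rw [ht]; push_cast; ring⟩
      rw [← mul_star] at h6
      have h7 : te ∣ f.prod * star f.prod := by
        refine Dvd.dvd.trans ?_ h6
        exact ⟨-te, by push_cast; linear_combination te_sq⟩
      rcases te_prime.dvd_or_dvd h7 with h8 | h8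
      · exact h8
      · obtain ⟨t, ht⟩ := h8
        have h9 := congrArg star ht
        rw [star_star, star_mul'] at h9
        have h10 : star te = -te := by decide
        rw [h10] at h9
        exact ⟨-star t, by rw [h9]; ring⟩
    exact hte (h5.trans hfD.dvd)
  obtain ⟨u, hu⟩ := hsprod
  obtain ⟨c, γ, hγ, huc⟩ := unit_cases u.isUnit
  have hcount : ∀ a ∈ s, s.count a ≤ 2 := by
    intro a ha
    by_contra hcon
    push Not at hcon
    have h1 : a ^ 3 ∣ s.prod := by
      have h2 : Multiset.replicate 3 a ≤ s := Multiset.le_count_iff_replicate_le.1 hcon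
      have h3 := Multiset.prod_dvd_prod_of_le h2
      rwa [Multiset.prod_replicate] at h3
    have h4 : a ^ 3 ∣ D := by
      rw [← hu]
      exact h1.mul_right _
    exact (hspq a ha).prime.not_isUnit (hcf a h4)
  have hne : s ≠ 0 := by
    rintro rfl
    apply hnu
    rw [← hu, Multiset.prod_zero, one_mul]
    exact u.isUnit
  obtain ⟨a0, ha0⟩ := Multiset.exists_mem_of_ne_zero hne
  let J : Type := {x : Ei // x ∈ s.toFinset}
  have hval : ∀ a : J, ((s.count (a : Ei) : ZMod 3)).val = s.count (a : Ei) := by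
    intro a
    rw [ZMod.val_natCast]
    apply Nat.mod_eq_of_lt
    have := hcount a (Multiset.mem_toFinset.1 a.2)
    omega
  have hdt : Dt (fun a : J => (a : Ei)) (fun a : J => ((s.count (a : Ei) : ℕ) : ZMod 3)) := by
    refine ⟨fun a => hspq a (Multiset.mem_toFinset.1 a.2), fun i k hik hd => ?_, fun a h => ?_⟩
    · apply hik
      apply Subtype.ext
      have h1 := hspq i (Multiset.mem_toFinset.1 i.2)
      have h2 := hspq k (Multiset.mem_toFinset.1 k.2)
      exact (Pool.Agent.Y274.CT.eq_of_dvd h1 h2 hd).symm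
    · have h1 := hval a
      rw [h, ZMod.val_zero] at h1
      have h2 : 0 < s.count (a : Ei) := Multiset.count_pos.2 (Multiset.mem_toFinset.1 a.2)
      omega
  have hprod : pD (fun a : J => (a : Ei)) (fun a : J => ((s.count (a : Ei) : ℕ) : ZMod 3)) = s.prod := by
    unfold pD
    rw [Finset.prod_multiset_count s, ← Finset.prod_coe_sort s.toFinset (fun a => a ^ s.count a)]
    refine Finset.prod_congr rfl fun a _ => ?_
    rw [hval a]
  have hpm : Pm (dD c (fun a : J => (a : Ei)) (fun a : J => ((s.count (a : Ei) : ℕ) : ZMod 3))) D := by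
    unfold dD
    rw [hprod]
    rcases unit_pm hγ with h | h
    · left
      rw [← hu, huc, h]
      ring
    · right
      rw [← hu, huc, h]
      ring
  refine ⟨J, inferInstance, ⟨⟨a0, Multiset.mem_toFinset.2 ha0⟩⟩, fun a => a,
    fun a => ((s.count (a : Ei) : ℕ) : ZMod 3), c, ?_, hdt, hpm⟩
  rintro rfl
  have h3 : (3 : Ei) ∣ s.prod - 1 := by
    have : ∀ t : Multiset Ei, (∀ a ∈ t, (3 : Ei) ∣ a - 1) → (3 : Ei) ∣ t.prod - 1 := by
      intro t
      induction t using Multiset.induction_on with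
      | empty => intro _; simp
      | cons a t ih =>
        intro h
        rw [Multiset.prod_cons]
        have e : a * t.prod - 1 = a * (t.prod - 1) + (a - 1) := by ring
        rw [e]
        exact dvd_add ((ih fun b hb => h b (Multiset.mem_cons_of_mem hb)).mul_left _)
          (h a (Multiset.mem_cons_self _ _))
    exact this s fun a ha => (hspq a ha).three
  have h4 : dD 0 (fun a : J => (a : Ei)) (fun a : J => ((s.count (a : Ei) : ℕ) : ZMod 3)) = s.prod := by
    unfold dD
    rw [hprod, ZMod.val_zero, pow_zero, one_mul]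
  rw [h4] at hpm
  rcases hpm with h | h
  · exact h3a (by rw [h]; exact h3)
  · apply h3b
    have : D + 1 = -(s.prod - 1) := by rw [h]; ring
    rw [this, dvd_neg]
    exact h3

end Pool.Agent.H91.Fc
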