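import Pool.Graph.R_seed8.Y696.CTK.Stm

/-!
# `E_D` and `E_{-D}`
-/

set_option autoImplicit false

open scoped Classical

namespace Pool.Agent.H91.Neg

open WithZero WeierstrassCurve
open Pool.Agent.Y696 (NonsingRed)
open Pool.Agent.Y696.CTK (ED)
open WeierstrassCurve.Affine (Point)

variable {L : Type} [Field L]

lemma eq_iff {D x y : L} : (ED D).toAffine.Equation x y ↔ y ^ 2 + D * y = x ^ 3 := by
  rw [Affine.equation_iff]
  unfold ED
  show y ^ 2 + 0 * x * y + D * y = x ^ 3 + 0 * x ^ 2 + 0 * x + 0 ↔ _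
  constructor <;> intro h <;> linear_combination h

lemma ns_iff {D x y : L} : (ED D).toAffine.Nonsingular x y ↔
    (y ^ 2 + D * y = x ^ 3 ∧ (0 ≠ 3 * x ^ 2 ∨ y ≠ -y - D)) := by
  rw [Affine.nonsingular_iff, eq_iff]
  unfold ED
  show _ ∧ (0 * y ≠ 3 * x ^ 2 + 2 * 0 * x + 0 ∨ y ≠ -y - 0 * x - D) ↔ _
  rw [zero_mul, zero_mul, sub_zero, mul_zero, zero_mul, add_zero, add_zero]

lemma ns_neg {D x y : L} (h : (ED D).toAffine.Nonsingular x y) :
    (ED (-D)).toAffine.Nonsingular x (-y) := by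
  rw [ns_iff] at h ⊢
  refine ⟨by linear_combination h.1, ?_⟩
  rcases h.2 with h2 | h2
  · exact Or.inl h2
  · right
    intro h3
    apply h2
    linear_combination -h3

/-- the map -/
def φ (D : L) : (ED D).toAffine.Point → (ED (-D)).toAffine.Point
  | .zero => .zero
  | .some x y h => .some x (-y) (ns_neg h)

lemma negY_ED {D x y : L} : (ED D).toAffine.negY x y = -y - D := by
  unfold Affine.negY ED
  show -y - 0 * x - D = _
  ring

lemma negY_neg {D x y : L} : (ED (-D)).toAffine.negY x (-y) = -(ED D).toAffine.negY x y := by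
  rw [negY_ED, negY_ED]
  ring

lemma slope_neg {D x₁ x₂ y₁ y₂ : L} : (ED (-D)).toAffine.slope x₁ x₂ (-y₁) (-y₂) =
    -(ED D).toAffine.slope x₁ x₂ y₁ y₂ := by
  unfold Affine.slope
  rw [negY_neg, negY_neg]
  by_cases h1 : x₁ = x₂
  · rw [if_pos h1, if_pos h1]
    by_cases h2 : y₁ = (ED D).toAffine.negY x₂ y₂
    · rw [if_pos h2, if_pos (by rw [h2]), neg_zero]
    · rw [if_neg h2, if_neg (fun h => h2 (neg_inj.1 h))]
      rw [negY_ED]
      unfold ED
      show (3 * x₁ ^ 2 + 2 * 0 * x₁ + 0 - 0 * -y₁) / (-y₁ - -(-y₁ - D)) =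
        -((3 * x₁ ^ 2 + 2 * 0 * x₁ + 0 - 0 * y₁) / (y₁ - (-y₁ - D)))
      rw [← div_neg]
      congr 1 <;> ring
  · rw [if_neg h1, if_neg h1, ← neg_div]
    congr 1
    ring

lemma addX_neg {D x₁ x₂ ℓ : L} : (ED (-D)).toAffine.addX x₁ x₂ (-ℓ) =
    (ED D).toAffine.addX x₁ x₂ ℓ := by
  unfold Affine.addX ED
  show (-ℓ) ^ 2 + 0 * -ℓ - 0 - x₁ - x₂ = ℓ ^ 2 + 0 * ℓ - 0 - x₁ - x₂
  ring

lemma addY_neg {D x₁ x₂ y₁ ℓ : L} : (ED (-D)).toAffine.addY x₁ x₂ (-y₁) (-ℓ) =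
    -(ED D).toAffine.addY x₁ x₂ y₁ ℓ := by
  unfold Affine.addY Affine.negAddY
  rw [addX_neg, negY_ED, negY_ED]
  ring

lemma φ_add (D : L) (P Q : (ED D).toAffine.Point) : φ D (P + Q) = φ D P + φ D Q := by
  rcases P with _ | ⟨x₁, y₁, h₁⟩
  · show φ D (0 + Q) = 0 + φ D Q
    rw [zero_add, zero_add]
  rcases Q with _ | ⟨x₂, y₂, h₂⟩
  · show φ D (Point.some x₁ y₁ h₁ + 0) = φ D (Point.some x₁ y₁ h₁) + 0
    rw [add_zero, add_zero]
  show _ = Point.some x₁ (-y₁) (ns_neg h₁) + Point.some x₂ (-y₂) (ns_neg h₂)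
  by_cases hxy : x₁ = x₂ ∧ y₁ = (ED D).toAffine.negY x₂ y₂
  · rw [Point.add_of_Y_eq hxy.1 hxy.2, Point.add_of_Y_eq hxy.1 (by rw [negY_neg, hxy.2])]
    rfl
  · have hxy' : ¬ (x₁ = x₂ ∧ -y₁ = (ED (-D)).toAffine.negY x₂ (-y₂)) := by
      rintro ⟨h1, h2⟩
      apply hxy
      refine ⟨h1, ?_⟩
      rw [negY_neg] at h2
      exact neg_inj.1 h2
    rw [Point.add_some hxy, Point.add_some hxy']
    show Point.some _ _ _ = _
    congr 1
    · rw [slope_neg, addX_neg]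
    · rw [slope_neg, addY_neg]

/-- the equivalence -/
noncomputable def equiv (D : L) : (ED D).toAffine.Point ≃+ (ED (-D)).toAffine.Point :=
  AddEquiv.ofBijective (AddMonoidHom.mk' (φ D) (φ_add D)) (by
    constructor
    · rintro (_ | ⟨x₁, y₁, h₁⟩) (_ | ⟨x₂, y₂, h₂⟩) h
      · rfl
      · exact absurd h (by intro h; cases h)
      · exact absurd h (by intro h; cases h)
      · have h' : Point.some x₁ (-y₁) (ns_neg h₁) = Point.some x₂ (-y₂) (ns_neg h₂) := h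
        rw [Point.some.injEq] at h' ⊢
        exact ⟨h'.1, neg_inj.1 h'.2⟩
    · rintro (_ | ⟨x, y, h⟩)
      · exact ⟨0, rfl⟩
      · have h1 := ns_neg h
        have h2 : (ED D).toAffine.Nonsingular x (-y) := by
          have := h1
          rwa [neg_neg] at this
        refine ⟨Point.some x (-y) h2, ?_⟩
        show Point.some x (-(-y)) _ = _
        congr 1
        exact neg_neg y)

lemma nr_iff (v : Valuation L ℤᵐ⁰) (D : L) (P : (ED D).toAffine.Point) :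
    NonsingRed v (ED (-D)) (equiv D P) ↔ NonsingRed v (ED D) P := by
  rcases P with _ | ⟨x, y, h⟩
  · exact Iff.rfl
  · show (1 ≤ v (2 * -y + 0 * x + -D) ∨ 1 ≤ v (3 * x ^ 2 + 2 * 0 * x + 0 - 0 * -y)) ↔
      (1 ≤ v (2 * y + 0 * x + D) ∨ 1 ≤ v (3 * x ^ 2 + 2 * 0 * x + 0 - 0 * y))
    have e1 : 2 * -y + 0 * x + -D = -(2 * y + 0 * x + D) := by ring
    have e2 : 3 * x ^ 2 + 2 * 0 * x + 0 - 0 * -y = 3 * x ^ 2 + 2 * 0 * x + 0 - 0 * y := by ring
    rw [e1, e2, Valuation.map_neg]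

/-- the indices are equal -/
theorem index_neg (v : Valuation L ℤᵐ⁰) (D : L) (H : AddSubgroup (ED D).toAffine.Point)
    (H' : AddSubgroup (ED (-D)).toAffine.Point) (hH : ∀ P, P ∈ H ↔ NonsingRed v (ED D) P)
    (hH' : ∀ P, P ∈ H' ↔ NonsingRed v (ED (-D)) P) : H'.index = H.index := by
  have e : H = H'.comap (equiv D).toAddMonoidHom := by
    ext P
    rw [AddSubgroup.mem_comap, hH, hH']
    exact (nr_iff v D P).symm
  rw [e, AddSubgroup.index_comap_of_surjective]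
  exact (equiv D).surjective

end Pool.Agent.H91.Neg
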