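import Pool.Agent.H91.Tamz
import Pool.Agent.H91.Neg
import Pool.Graph.R_seed8.Y350.CTK.Loc

/-!
# The Tamagawa numbers of `y² + D y = x³` over `ℚ(ω)`, `D = ± ∏ π^e` with `N(D)` not `1` modulo nine
-/

set_option autoImplicit false
set_option linter.unusedSectionVars false
set_option linter.unusedVariables false

namespace Pool.Agent.H91.Tam1

open scoped Classical

open NumberField IsDedekindDomain WeierstrassCurve WithZero
open Pool.Agent.Y692.QS (Ei w nr toC)
open Pool.Agent.Y715.T.RecG (Pq)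
open Pool.Agent.Y703.CT
open Pool.Agent.Y696 (NonsingRed)
open Pool.Agent.Y696.CTK
open Pool.Agent.Y350.CTK.Tam hiding idx_three
open Pool.Agent.Y350.CTK (tg t3)
open Pool.Agent.Y455.CTK (isMinimal_ED val_theta pid_of ED_map)
open Pool.Agent.Y715.T.Gi (lam lam_sq prime_lam)
open Pool.Agent.H91.Sel (dD te_D dD_ne nd_w)
open Pool.Agent.H91.LKz (Pm)
open Pool.Agent.H91.Tamz

variable {J : Type} [Fintype J] {π : J → Ei} {e : J → ZMod 3} {c : ZMod 3}

lemma dD_zero (π : J → Ei) (e : J → ZMod 3) : dD 0 π e = pD π e := by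
  unfold dD
  rw [ZMod.val_zero, pow_zero, one_mul]

lemma three_pD (h : Dt π e) : (3 : Ei) ∣ pD π e - 1 := by
  unfold pD
  have : ∀ s : Finset J, (3 : Ei) ∣ ∏ i ∈ s, π i ^ (e i).val - 1 := by
    intro s
    induction s using Finset.induction_on with
    | empty => simp
    | insert a s ha ih =>
      rw [Finset.prod_insert ha]
      have h4 : (3 : Ei) ∣ π a ^ (e a).val - 1 := by
        have := sub_dvd_pow_sub_pow (π a) 1 (e a).val
        rw [one_pow] at this
        exact (h.pq a).three.trans this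
      have e : π a ^ (e a).val * ∏ i ∈ s, π i ^ (e i).val - 1 =
        π a ^ (e a).val * (∏ i ∈ s, π i ^ (e i).val - 1) + (π a ^ (e a).val - 1) := by ring
      rw [e]
      exact dvd_add (Dvd.dvd.mul_left ih _) h4
  exact this Finset.univ

section idx

variable {L : Type} [Field L]

lemma idx_pm (v : Valuation L ℤᵐ⁰) {W : WeierstrassCurve L} {D : L}
    (hW : W = ED D) {θ m : L} (h1 : θ ^ 2 = -3) (h2 : v θ = exp (-1 : ℤ))
    (h3 : D = 1 + 3 * m ∨ D = -(1 + 3 * m)) (hD0 : D ≠ 0)
    (h4 : v m = 1) (h5 : ∀ x : L, v x ≤ 1 → v x < 1 ∨ v (x - 1) < 1 ∨ v (x + 1) < 1)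
    (h30 : (27 : L) * D ^ 4 ≠ 0)
    (H : AddSubgroup W.toAffine.Point)
    (hH : ∀ P, P ∈ H ↔ NonsingRed v W P) : H.index = 1 ∨ H.index = 2 ∨ H.index = 4 := by
  rcases h3 with h3 | h3
  · exact idx_t t3 v hW h1 h2 h3 h4 h5 H hH
  · subst hW
    have h3' : -D = 1 + 3 * m := by rw [h3, neg_neg]
    have hv : v (-D) ≤ 1 := by
      rw [h3']
      have hθ : v (3 : L) ≤ 1 := by
        have : (3 : L) = -(θ ^ 2) := by rw [h1, neg_neg]
        rw [this, Valuation.map_neg, map_pow, h2]
        exact pow_le_one' (by rw [← exp_zero, exp_le_exp]; norm_num) 2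
      refine (v.map_add _ _).trans (max_le (by rw [map_one]) ?_)
      rw [map_mul, h4, mul_one]
      exact hθ
    obtain ⟨H', hH'⟩ := sub_ex Pool.Agent.Y891.CTK.e0k v (W := ED (-D)) (D := -D) rfl
      (by rwa [Even.neg_pow (by decide : Even 4)]) hv
    rw [← Pool.Agent.H91.Neg.index_neg v D H H' hH hH']
    exact idx_t t3 v (W := ED (-D)) rfl h1 h2 h3' h4 h5 H' hH'

end idx

section
variable {K : Type} [Field K] [NumberField K] (j : Ei ≃+* 𝓞 K)

/-- the Tamagawa numbers -/
theorem tam1 (hD : Dt π e) (h9 : ¬ (9 : ℤ) ∣ nr (pD π e) - 1) {D : Ei} (hpm : Pm (dD 0 π e) D) :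
    ∃ t : HeightOneSpectrum (𝓞 K) → ℕ, IsTam (ED (j D : K)) t ∧
      ∃ m : ℕ, ¬ 3 ∣ m ∧ ∏ᶠ v, t v = 3 ^ Fintype.card J * m := by
  have hD0 : D ≠ 0 := by
    rcases hpm with h | h <;> rw [h]
    · exact dD_ne hD
    · exact neg_ne_zero.2 (dD_ne hD)
  have hjD0 : ((j D : 𝓞 K) : K) ≠ 0 := by
    intro h
    have h1 : j D = 0 := by
      apply RingOfIntegers.ext
      exact h
    exact hD0 ((map_eq_zero_iff j j.injective).1 h1)
  have h27 : ∀ v : HeightOneSpectrum (𝓞 K), (27 : v.adicCompletion K) *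
      (algebraMap K (v.adicCompletion K) ((j D : 𝓞 K) : K)) ^ 4 ≠ 0 := by
    intro v
    have h1 : (27 : v.adicCompletion K) * (algebraMap K (v.adicCompletion K)
        ((j D : 𝓞 K) : K)) ^ 4 = algebraMap K (v.adicCompletion K)
        (27 * ((j D : 𝓞 K) : K) ^ 4) := by
      rw [map_mul, map_pow, map_ofNat]
    rw [h1, map_ne_zero]
    exact mul_ne_zero (by norm_num) (pow_ne_zero _ hjD0)
  have hsub : ∀ v : HeightOneSpectrum (𝓞 K), ∃ H : AddSubgroup
      ((ED (j D : K)).baseChange (v.adicCompletion K)).toAffine.Point,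
      ∀ P, P ∈ H ↔ NonsingRed Valued.v
        ((ED (j D : K)).baseChange (v.adicCompletion K)) P := by
    intro v
    apply sub_ex Pool.Agent.Y891.CTK.e0k Valued.v (bc_ED _)
    · exact h27 v
    · rw [val_eq]
      exact v.intValuation_le_one _
  choose H hH using hsub
  -- the indices
  have hA : (H (pl j te_prime)).index = 1 ∨ (H (pl j te_prime)).index = 2 ∨
      (H (pl j te_prime)).index = 4 := by
    obtain ⟨m, hm⟩ := three_pD hD
    have hm' : pD π e = 1 + 3 * m := by linear_combination hm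
    have hmte : ¬ te ∣ m := by
      rw [hm'] at h9
      exact te_m h9
    have hDm : D = 1 + 3 * m ∨ D = -(1 + 3 * m) := by
      rw [← hm', ← dD_zero]
      exact hpm
    refine idx_pm Valued.v (bc_ED _)
      (θ := algebraMap K ((pl j te_prime).adicCompletion K) ((j te : 𝓞 K) : K))
      (m := algebraMap K ((pl j te_prime).adicCompletion K) ((j m : 𝓞 K) : K)) ?_ ?_ ?_ ?_ ?_
      (res j) (h27 _) _ (hH _)
    · have h1 : ((j te : 𝓞 K) : K) ^ 2 = -3 := by
        have h2 : (j te) ^ 2 = -3 := by rw [← map_pow, te_sq, map_neg, map_ofNat]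
        have h3 := congrArg (algebraMap (𝓞 K) K) h2
        rw [map_pow, map_neg, map_ofNat] at h3
        exact h3
      rw [← map_pow, h1, map_neg, map_ofNat]
    · rw [val_eq, pl_val]
    · have h1 : ∀ z : Ei, z = 1 + 3 * m → ((j z : 𝓞 K) : K) = 1 + 3 * ((j m : 𝓞 K) : K) := by
        intro z hz
        have h2 : j z = 1 + 3 * j m := by
          rw [hz, map_add, map_mul, map_one, map_ofNat]
        have h3 := congrArg (algebraMap (𝓞 K) K) h2
        rw [map_add, map_mul, map_one, map_ofNat] at h3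
        exact h3
      rcases hDm with h | h
      · left
        rw [h1 D h, map_add, map_mul, map_one, map_ofNat]
      · right
        have h2 : ((j D : 𝓞 K) : K) = -((j (-D) : 𝓞 K) : K) := by
          rw [map_neg]
          have : ((-j D : 𝓞 K) : K) = -((j D : 𝓞 K) : K) := rfl
          rw [this, neg_neg]
        rw [h2, h1 (-D) (by rw [h, neg_neg]), map_neg, map_add, map_mul, map_one, map_ofNat]
    · rw [map_ne_zero]
      exact hjD0
    · apply val_one
      rw [mem_pl]
      exact hmte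
  have hB : ∀ i, (H (pl j (hD.pq i).prime)).index = 3 := by
    intro i
    refine idx3 Valued.v (bc_ED _) ?_ ?_ _ (hH _)
    · rw [three_eq j]
      exact val_one _ (pl_three2 j hD i)
    · rw [val_eq, val_pm j hpm]
      exact val_D_exp2 j 0 hD i
  have hC : ∀ v : HeightOneSpectrum (𝓞 K), j 3 ∉ v.asIdeal → (∀ i, j (π i) ∉ v.asIdeal) →
      (H v).index = 1 := by
    intro v h3 hi
    refine idx_one tg Valued.v (bc_ED _) ?_ ?_ _ (hH _)
    · rw [three_eq j]
      exact val_one _ h3
    · rw [val_eq, val_pm j hpm]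
      exact val_D_one2 j 0 e hi
  -- the support
  have hinj := pl_inj2 j hD
  have hn3 : pl j te_prime ∉ (Finset.univ.image fun i => pl j (hD.pq i).prime :
      Finset (HeightOneSpectrum (𝓞 K))) := by
    intro h
    obtain ⟨i, -, hi⟩ := Finset.mem_image.1 h
    apply pl_three2 j hD i
    rw [hi, mem_pl]
    exact ⟨-te, three_te⟩
  have hsupp : Function.mulSupport (fun v => (H v).index) ⊆
      ((insert (pl j te_prime) (Finset.univ.image fun i => pl j (hD.pq i).prime) :
        Finset (HeightOneSpectrum (𝓞 K))) : Set (HeightOneSpectrum (𝓞 K))) := by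
    intro v hv
    rw [Function.mem_mulSupport] at hv
    by_contra hcon
    apply hv
    rw [Finset.mem_coe, Finset.mem_insert, not_or, Finset.mem_image] at hcon
    by_cases h3 : j 3 ∈ v.asIdeal
    · exact absurd (three_mem j h3) hcon.1
    · refine hC v h3 fun i hi => hcon.2 ⟨i, Finset.mem_univ _, ?_⟩
      exact (eq_pl j (hD.pq i).prime hi).symm
  refine ⟨fun v => (H v).index, ⟨fun v => ⟨mink2 j _ (fun h => te_nd hD ((hpm.dvd te).1 h))
    (fun v => by rw [val_pm j hpm]; exact cf_D j 0 hD v) v, H v, hH v, rfl⟩,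
    ?_⟩, (H (pl j te_prime)).index, ?_, ?_⟩
  · exact (Finset.finite_toSet _).subset hsupp
  · rcases hA with h | h | h <;> rw [h] <;> norm_num
  · rw [finprod_eq_prod_of_mulSupport_subset _ hsupp, Finset.prod_insert hn3, Finset.prod_image]
    · rw [Finset.prod_congr rfl fun i _ => hB i, Finset.prod_const, Finset.card_univ, mul_comm]
    · intro a _ b _ h
      exact hinj h

end

end Pool.Agent.H91.Tam1
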