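import Pool.Agent.H91.Fin1
import Pool.Agent.H91.Fc2
import Pool.Agent.H91.Cr2

/-!
# The law and the criterion for the elements `D` of the ring of integers, all residues but `± 1`
modulo `3 √-3`
-/

set_option autoImplicit false
set_option linter.unusedVariables false
set_option linter.unusedSectionVars false

open scoped Classical

namespace Pool.Agent.H91.Fin2

open NumberField IsDedekindDomain WeierstrassCurve WithZero
open Pool.Agent.Y692.QS (Ei w toC)
open Pool.Agent.Y715.T.RecG (Pq)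
open Pool.Agent.Y703.CT
open Pool.Agent.Y715.T.Rec (cs nn)
open Pool.Agent.Y696.CTK
open Pool.Agent.Y350.CTK.Tam (te te_prime te_sq)
open Pool.Agent.H91.Sel (dD KerC)
open Pool.Agent.H91.LKz (Pm)
open Pool.Agent.H91.Fc2 (Cm Cn exi2 exi3)
open Pool.Agent.H91.Kc (ex)
open Pool.Agent.H91.Cr2 (KerS tri_iff3)
open Pool.Agent.H91.Fin1 (IsF dt_of)

/-- the system has only the zero solution -/
def NonSing2 (c : ZMod 3) {n : ℕ} (e τ : Fin n → ZMod 3) (χ : Fin n → Fin n → ZMod 3) : Prop :=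
  ∀ x : Fin n → ZMod 3, (∀ i, ∑ k, e k * χ i k * (x k - x i) - c * τ i * x i = 0) →
    ∑ i, e i * τ i * x i = 0 → x = 0

/-- the class -/
def Cl2 {K : Type} [Field K] [NumberField K] (D : 𝓞 K) : Prop :=
  IsCoprime D 3 ∧ (∀ t : 𝓞 K, t ^ 2 = -3 → ¬ 3 * t ∣ D - 1 ∧ ¬ 3 * t ∣ D + 1) ∧
    (∀ p : 𝓞 K, p ^ 3 ∣ D → IsUnit p) ∧ ¬ IsUnit D

variable {K : Type} [Field K] [NumberField K] (j : Ei ≃+* 𝓞 K)

lemma cm_of {D : Ei} (h : Cl2 (j D)) : Cm D := by
  obtain ⟨h1, h2, h4, h5⟩ := h
  have ht : (j te) ^ 2 = -3 := by rw [← map_pow, te_sq, map_neg, map_ofNat]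
  obtain ⟨h2a, h2b⟩ := h2 (j te) ht
  refine ⟨?_, ?_, ?_, ?_, ?_⟩
  · intro h
    obtain ⟨a, b, hab⟩ := h1
    apply te_prime.not_isUnit
    apply isUnit_of_dvd_one
    have h6 : (1 : Ei) = j.symm a * D + j.symm b * 3 := by
      apply j.injective
      rw [map_add, map_mul, map_mul, RingEquiv.apply_symm_apply, RingEquiv.apply_symm_apply,
        map_one, map_ofNat]
      exact hab.symm
    rw [h6]
    refine dvd_add (h.mul_left _) (Dvd.dvd.mul_left ?_ _)
    exact ⟨-te, by linear_combination te_sq⟩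
  · intro h
    apply h2a
    have := map_dvd j h
    rwa [map_sub, map_one, map_mul, map_ofNat] at this
  · intro h
    apply h2b
    have := map_dvd j h
    rwa [map_add, map_one, map_mul, map_ofNat] at this
  · intro p hp
    have := h4 (j p) (by rw [← map_pow]; exact map_dvd j hp)
    exact (MulEquiv.isUnit_map j).1 this
  · intro h
    exact h5 (h.map j)

/-- the exponent of `ω` with respect to `w` -/
lemma kerF2 (hj : ∀ z : Ei, Algebra.norm ℤ (j z) = Pool.Agent.Y692.QS.nr z)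
    {ω D : 𝓞 K} {c : ZMod 3} {n : ℕ} {π : Fin n → 𝓞 K} {e τ : Fin n → ZMod 3}
    {χ : Fin n → Fin n → ZMod 3} (h : IsF ω D c n π e τ χ) :
    ∃ ε : ZMod 3, ε ≠ 0 ∧ Pm (dD (ε * c) (fun i => j.symm (π i)) e) (j.symm D) ∧
      (KerS (ε * c) (fun i => j.symm (π i)) e ↔ NonSing2 c e τ χ) := by
  have hdt := dt_of j h
  have hnn : ∀ k, nn (j.symm (π k)) = ((Algebra.norm ℤ (π k)).natAbs - 1) / 3 := by
    intro k
    unfold nn
    rw [← hj, RingEquiv.apply_symm_apply]
  have hww : (w : Ei) ^ 2 + w + 1 = 0 := by decide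
  have hfac : (ω - j w) * (ω - j (w ^ 2)) = 0 := by
    have e1 : (w : Ei) ^ 2 = -w - 1 := by linear_combination hww
    rw [e1, map_sub, map_neg, map_one]
    have e2 : (j w) ^ 2 + j w + 1 = 0 := by
      rw [← map_pow, ← map_one j, ← map_add, ← map_add, hww, map_zero]
    linear_combination h.root - e2
  obtain ⟨ε, hε, hωw, hcs, hct⟩ : ∃ ε : ZMod 3, ε ≠ 0 ∧ (∀ a : ZMod 3, ω ^ a.val = j (w ^ (ε * a).val)) ∧
      (∀ i k, i ≠ k → cs (j.symm (π i)) (j.symm (π k)) = ε * χ i k) ∧
      (∀ i, cs (j.symm (π i)) w = τ i) := by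
    rcases mul_eq_zero.1 hfac with h4 | h4
    · have hω : ω = j w := sub_eq_zero.1 h4
      refine ⟨1, one_ne_zero, fun a => by rw [hω, one_mul, map_pow], fun i k hik => ?_, fun i => ?_⟩
      · rw [one_mul]
        have hpq := hdt.pq i
        apply Pool.Agent.Y715.T.RecG.cs_of hpq.prime hpq.norm
        have h5 := map_dvd j.symm (h.symb i k hik)
        rw [hω, map_sub, map_pow, map_pow, RingEquiv.symm_apply_apply, ← hnn i] at h5
        exact h5
      · have hpq := hdt.pq i
        apply Pool.Agent.Y715.T.RecG.cs_of hpq.prime hpq.norm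
        have h5 := map_dvd j.symm (h.symbr i)
        rw [hω, map_sub, map_pow, map_pow, RingEquiv.symm_apply_apply, ← hnn i] at h5
        exact h5
    · have hω : ω = j (w ^ 2) := sub_eq_zero.1 h4
      have hw2 : ∀ a : ZMod 3, ((w : Ei) ^ 2) ^ a.val = w ^ (-1 * a).val := by
        intro a
        rw [neg_one_mul]
        exact w_two a
      refine ⟨-1, by decide, fun a => by rw [hω, ← map_pow, hw2], fun i k hik => ?_, fun i => ?_⟩
      · rw [neg_one_mul]
        have hpq := hdt.pq i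
        apply Pool.Agent.Y715.T.RecG.cs_of hpq.prime hpq.norm
        have h5 := map_dvd j.symm (h.symb i k hik)
        rw [hω, map_sub, map_pow, map_pow, RingEquiv.symm_apply_apply, ← hnn i, w_two] at h5
        exact h5
      · have hpq := hdt.pq i
        have h6 : cs (j.symm (π i)) (w ^ 2) = -τ i := by
          apply Pool.Agent.Y715.T.RecG.cs_of hpq.prime hpq.norm
          have h9 : j.symm ω = w ^ 2 := by rw [hω, RingEquiv.symm_apply_apply]
          have h5 := map_dvd j.symm (h.symbr i)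
          rw [map_sub, map_pow, map_pow, h9, ← hnn i, w_two] at h5
          exact h5
        have h7 : cs (j.symm (π i)) (w ^ 2) = 2 * cs (j.symm (π i)) w := by
          rw [Pool.Agent.Y715.T.RecG.cs_pow hpq.prime hpq.norm (Pool.Agent.H91.Sel.nd_w hpq.prime)]
          push_cast
          rfl
        rw [h7] at h6
        have h8 : ∀ a b : ZMod 3, 2 * a = -b → a = b := by decide
        exact h8 _ _ h6
  refine ⟨ε, hε, ?_, ?_⟩
  · have h1 : j.symm (ω ^ c.val * ∏ i, π i ^ (e i).val) = dD (ε * c) (fun i => j.symm (π i)) e := by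
      unfold dD pD
      rw [map_mul, hωw, RingEquiv.symm_apply_apply, map_prod]
      congr 1
      exact Finset.prod_congr rfl fun i _ => map_pow _ _ _
    rcases h.eq with h2 | h2
    · left
      rw [h2, h1]
    · right
      rw [h2, map_neg, h1]
  · have key : ∀ (x : Fin n → ZMod 3) (i : Fin n),
        ∑ k, e k * cs (j.symm (π i)) (j.symm (π k)) * (x k - x i) -
          ε * c * ex (Pool.Agent.Y692.QS.nr (j.symm (π i))) * x i =
        ε * (∑ k, e k * χ i k * (x k - x i) - c * τ i * x i) := by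
      intro x i
      have h1 : ex (Pool.Agent.Y692.QS.nr (j.symm (π i))) = τ i := by
        rw [← hct i, Pool.Agent.H91.Sel.cs_w (hdt.pq i).prime (hdt.pq i).norm]
      rw [h1, mul_sub, Finset.mul_sum]
      congr 1
      · refine Finset.sum_congr rfl fun k _ => ?_
        by_cases hik : i = k
        · rw [hik, sub_self, mul_zero, mul_zero, mul_zero]
        · rw [hcs i k hik]
          ring
      · ring
    have key2 : ∀ x : Fin n → ZMod 3, ∑ i, e i * ex (Pool.Agent.Y692.QS.nr (j.symm (π i))) * x i =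
        ∑ i, e i * τ i * x i := by
      intro x
      refine Finset.sum_congr rfl fun i _ => ?_
      have h1 : ex (Pool.Agent.Y692.QS.nr (j.symm (π i))) = τ i := by
        rw [← hct i, Pool.Agent.H91.Sel.cs_w (hdt.pq i).prime (hdt.pq i).norm]
      rw [h1]
    unfold KerS NonSing2
    simp only [key, key2, mul_eq_zero, hε, false_or]

/-- the law in all cases -/
theorem law3 {J : Type} [Fintype J] [Nonempty J] {π : J → Ei} {e : J → ZMod 3} {c : ZMod 3}
    (hdisc : discr K = -3) (hdt : Dt π e)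
    (h9 : c = 0 → ¬ (9 : ℤ) ∣ Pool.Agent.Y692.QS.nr (pD π e) - 1) {D : Ei}
    (hpm : Pm (dD c π e) D) : Law3 (j D) := by
  by_cases hc : c = 0
  · subst hc
    exact Pool.Agent.H91.Lw1.law_of1 j hdisc hdt (h9 rfl) hpm
  · exact Pool.Agent.H91.Lw.law_of2 j hdisc hc hdt hpm

/-- the final statement for one `D` -/
theorem law2 (hj : ∀ z : Ei, Algebra.norm ℤ (j z) = Pool.Agent.Y692.QS.nr z) (hdisc : discr K = -3)
    {D : 𝓞 K} (hD : Cl2 D) : Law3 D := by
  obtain ⟨z, rfl⟩ := j.surjective D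
  obtain ⟨J, h1, h2, π, e, c, hdt, hpm, h9⟩ := exi3 (cm_of j hD)
  exact law3 j hdisc hdt h9 hpm

/-- there is a factorization -/
theorem fac2 (hj : ∀ z : Ei, Algebra.norm ℤ (j z) = Pool.Agent.Y692.QS.nr z)
    {D : 𝓞 K} (hD : Cl2 D) : ∃ (ω : 𝓞 K) (c : ZMod 3) (n : ℕ) (π : Fin n → 𝓞 K)
      (e τ : Fin n → ZMod 3) (χ : Fin n → Fin n → ZMod 3), IsF ω D c n π e τ χ := by
  obtain ⟨z, rfl⟩ := j.surjective D
  obtain ⟨J, h1, h2, π, e, c, hdt, hpm, -⟩ := exi3 (cm_of j hD)
  let f : Fin (Fintype.card J) ≃ J := (Fintype.equivFin J).symm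
  have hww : (w : Ei) ^ 2 + w + 1 = 0 := by decide
  refine ⟨j w, c, Fintype.card J, fun i => j (π (f i)), fun i => e (f i),
    fun i => cs (π (f i)) w, fun i k => cs (π (f i)) (π (f k)), ⟨?_, fun i => ⟨?_, ?_⟩, ?_, ?_, ?_, ?_, ?_⟩⟩
  · rw [← map_pow, ← map_one j, ← map_add, ← map_add, hww, map_zero]
  · exact (MulEquiv.prime_iff (j : Ei ≃* 𝓞 K)).2 (hdt.pq _).prime
  · have h1 := map_dvd j (hdt.pq (f i)).three
    rwa [map_sub, map_one, map_ofNat] at h1
  · intro i k hik h
    have h3 : π (f i) = π (f k) := j.injective h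
    refine hdt.nd (f i) (f k) (fun h4 => hik (f.injective h4)) ?_
    rw [h3]
  · intro i
    exact hdt.e0 _
  · have h3 : j w ^ c.val * ∏ i : Fin (Fintype.card J), j (π (f i)) ^ (e (f i)).val = j (dD c π e) := by
      unfold dD pD
      rw [map_mul, map_pow, map_prod, ← Equiv.prod_comp f]
      congr 1
      exact Finset.prod_congr rfl fun i _ => (map_pow _ _ _).symm
    rw [h3]
    rcases hpm with h | h
    · left; rw [h]
    · right; rw [h, map_neg]
  · intro i k hik
    have h1 := map_dvd j (Pool.Agent.Y715.T.RecG.cs_spec (hdt.pq (f i)).prime (hdt.pq (f i)).norm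
      (hdt.nd (f k) (f i) (fun h4 => hik (f.injective h4).symm)))
    rw [map_sub, map_pow, map_pow] at h1
    rw [hj]
    exact h1
  · intro i
    have h1 := map_dvd j (Pool.Agent.Y715.T.RecG.cs_spec (hdt.pq (f i)).prime (hdt.pq (f i)).norm
      (Pool.Agent.H91.Sel.nd_w (hdt.pq (f i)).prime))
    rw [map_sub, map_pow, map_pow] at h1
    rw [hj]
    exact h1

/-- the criterion -/
theorem crit2 (hj : ∀ z : Ei, Algebra.norm ℤ (j z) = Pool.Agent.Y692.QS.nr z)
    {ω D : 𝓞 K} (hD : Cl2 D) {c : ZMod 3} {n : ℕ} {π : Fin n → 𝓞 K} {e τ : Fin n → ZMod 3}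
    {χ : Fin n → Fin n → ZMod 3} (h : IsF ω D c n π e τ χ) : Tri D ↔ NonSing2 c e τ χ := by
  have hdt := dt_of j h
  obtain ⟨ε, hε, hpm, hk⟩ := kerF2 j hj h
  have hn : Nonempty (Fin n) := by
    rw [← not_isEmpty_iff]
    intro hn
    apply hD.2.2.2
    have hω : IsUnit ω := by
      refine IsUnit.of_mul_eq_one (-(ω + 1)) ?_
      linear_combination -h.root
    rcases h.eq with h2 | h2
    · rw [h2, Finset.univ_eq_empty, Finset.prod_empty, mul_one]
      exact hω.pow _
    · rw [h2, Finset.univ_eq_empty, Finset.prod_empty, mul_one]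
      exact (hω.pow _).neg
  have hcm : Cm (j.symm D) := cm_of j (by rwa [RingEquiv.apply_symm_apply])
  have h9 : ε * c = 0 → ¬ (9 : ℤ) ∣ Pool.Agent.Y692.QS.nr (pD (fun i => j.symm (π i)) e) - 1 := by
    intro h0
    rw [h0, Pool.Agent.H91.Tam1.dD_zero] at hpm
    exact Pool.Agent.H91.Fc2.no_nine hdt hpm hcm.2.1 hcm.2.2.1
  have h1 := tri_iff3 j hdt h9 hpm
  rw [RingEquiv.apply_symm_apply] at h1
  rw [h1, hk]

end Pool.Agent.H91.Fin2
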