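import Pool.Agent.H91.Kc

/-!
# The Hecke characters of conductor divisible by `3 √-3`
-/

set_option autoImplicit false
set_option linter.unusedSectionVars false
set_option linter.unusedVariables false

open scoped Classical

namespace Pool.Agent.H91.Hez

open Pool.Agent.Y692.QS (Ei w nr toC)
open Pool.Agent.Y703.CT
open Pool.Agent.W192.HK
open Pool.Agent.Y715.Idn
open Pool.Agent.Y696 hiding nr
open Pool.Agent.Y715.Dist
open Pool.Agent.Y715.T.Rs (eq0)
open Pool.Agent.Y715.T.Lat (la la_sq ez)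
open Pool.Agent.Y715.T.LF (rd rd_ez rd_eq_zero)
open Pool.Agent.Y703.CT.Ana (ej eo_j ej_u ej_ncop ej_prim)
open Pool.Agent.Y715.CT.Hec (rd_la rd_omr la_ne prime_la three_eq cop_la cP XX X_mul X_per w_ne X_ne_iff
  X_cube nd_unit X_one X_neg_one ex_j unitG X_ne_cop cP_ne cop3)
open Pool.Agent.H91.Lev

variable {J : Type} [Fintype J] {π : J → Ei} {e : J → ZMod 3} {g : eis} {κ : eis → ℂ}

/-- the conditions on the character -/
structure Kq (g : eis) (κ : eis → ℂ) : Prop extends Kp g κ where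
  g3 : ∃ n : ℕ, g ∣ 3 ^ n
  cube : ∀ x : eis, IsCoprime x 3 → κ x ^ 3 = 1

lemma dvd_la {ρ : eis} (hρ : Prime ρ) (hg : ∃ n : ℕ, g ∣ 3 ^ n) (h : ρ ∣ lv g) : ρ ∣ la := by
  have h3 : ρ ∣ 3 → ρ ∣ la := by
    intro h1
    rw [three_eq, dvd_neg] at h1
    exact (hρ.dvd_or_dvd h1).elim id id
  unfold lv at h
  rcases hρ.dvd_or_dvd h with h1 | h1
  · exact h3 h1
  · rcases hρ.dvd_or_dvd h1 with h2 | h2
    · exact h2
    · obtain ⟨n, hn⟩ := hg
      exact h3 (hρ.dvd_of_dvd_pow (h2.trans hn))

lemma lv_cop (hg : ∃ n : ℕ, g ∣ 3 ^ n) {α : eis} : IsCoprime α (lv g) ↔ IsCoprime α 3 := by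
  unfold lv
  constructor
  · intro h
    exact h.of_mul_right_left
  · intro h
    obtain ⟨n, hn⟩ := hg
    exact h.mul_right ((cop_la.2 h).mul_right (IsCoprime.of_isCoprime_of_dvd_right h.pow_right hn))

/-! ### the Hecke character -/

/-- the function on the elements -/
noncomputable def gg (κ : eis → ℂ) (π : J → Ei) (e : J → ZMod 3) (j : Fin 3) (α : eis) : ℂ :=
  (α : ℂ) * (starRingEnd ℂ) (ek κ j α * XX π e α)

/-- the Hecke character -/
noncomputable def th (κ : eis → ℂ) (π : J → Ei) (e : J → ZMod 3) (j : Fin 3) (I : Ideal eis) : ℂ :=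
  gg κ π e j (Submodule.IsPrincipal.generator I)

section T

variable (hκ : Kq g κ) (h : Dt π e) {j : Fin 3} (hj : om ^ (2 * (j : ℕ)) * XX π e omr = 1)

include hκ h

lemma gg_mul (α β : eis) : gg κ π e j (α * β) = gg κ π e j α * gg κ π e j β := by
  unfold gg ek
  rw [X_mul h, (eo_j j).mul, hκ.mul]
  push_cast
  simp only [map_mul]
  ring

include hj

lemma gg_unit {u : eis} (hu : IsUnit u) : gg κ π e j u = 1 := by
  unfold gg ek
  have h1 := unitG h hj hu
  have h2 : Complex.normSq (u : ℂ) = 1 := (isUnit_iff' u).1 hu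
  have h3 : (u : ℂ) * (starRingEnd ℂ) (u : ℂ) = 1 := by
    rw [Complex.mul_conj, h2, Complex.ofReal_one]
  rw [ej_u j hu, pow_succ, hκ.unit u hu, mul_one]
  have h4 : (starRingEnd ℂ) ((u : ℂ) ^ (2 * (j : ℕ)) * XX π e u) = 1 := by rw [h1, map_one]
  rw [map_mul] at h4
  simp only [map_mul]
  linear_combination h3 * ((starRingEnd ℂ) ((u : ℂ) ^ (2 * (j : ℕ))) *
    (starRingEnd ℂ) (XX π e u)) + h4

lemma gg_assoc {α β : eis} (hab : Associated α β) : gg κ π e j α = gg κ π e j β := by
  obtain ⟨u, rfl⟩ := hab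
  rw [gg_mul hκ h, gg_unit hκ h hj u.isUnit, mul_one]

lemma th_sp (α : eis) : th κ π e j (sp α) = gg κ π e j α := by
  refine gg_assoc hκ h hj ?_
  rw [← Ideal.span_singleton_eq_span_singleton]
  exact Ideal.span_singleton_generator _

omit hj in
lemma gg_zero_iff {α : eis} : gg κ π e j α = 0 ↔ (α = 0 ∨ ¬ IsCoprime α (lv g * cP π)) := by
  rw [IsCoprime.mul_right_iff, lv_cop hκ.g3, ← X_ne_cop h]
  unfold gg ek
  rw [mul_eq_zero, map_eq_zero, mul_eq_zero]
  have h1 : ej j α * κ α = 0 ↔ ¬ IsCoprime α 3 := by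
    constructor
    · intro h1 h2
      have hk : κ α ≠ 0 := by
        intro h0
        have h3 := hκ.cube α h2
        rw [h0] at h3
        norm_num at h3
      have h1 := (mul_eq_zero.1 h1).resolve_right hk
      obtain ⟨u, hu, hu3⟩ := cop_three h2
      rw [(eo_j j).per _ _ hu3, ej_u j hu] at h1
      have h3 : (u : ℂ) = 0 := by
        by_contra h4
        exact pow_ne_zero _ h4 h1
      exact hu.ne_zero (coe_inj' h3)
    · intro h1
      rw [ej_ncop j h1, zero_mul]
  have h2 : (α : ℂ) = 0 ↔ α = 0 := by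
    constructor
    · intro h3
      exact coe_inj' h3
    · rintro rfl
      rfl
  rw [h1, h2]
  tauto

omit hj in
lemma ex_div {q' : Ideal eis} (hq : sp (lv g * cP π) < q') :
    3 * g * cP π ∈ q' ∨ ∃ i, lv g * cc (fun i => eq0 (π i)) (Finset.univ.erase i) ∈ q' := by
  obtain ⟨d, rfl⟩ : ∃ d : eis, q' = sp d :=
    ⟨_, (Submodule.IsPrincipal.span_singleton_generator q').symm⟩
  obtain ⟨t, ht⟩ : d ∣ lv g * cP π := Ideal.span_singleton_le_span_singleton.1 hq.le
  have hne : lv g * cP π ≠ 0 := mul_ne_zero (lv_ne hκ.gne) (cP_ne h)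
  have ht0 : t ≠ 0 := by
    rintro rfl
    rw [mul_zero] at ht
    exact hne ht
  have hnu : ¬ IsUnit t := by
    intro hu
    obtain ⟨v, hv⟩ := hu.exists_right_inv
    have h2 : lv g * cP π ∣ d := ⟨v, by rw [ht, mul_assoc, hv, mul_one]⟩
    have := Ideal.span_singleton_le_span_singleton.2 h2
    exact absurd (le_antisymm hq.le this) hq.ne
  obtain ⟨ρ, hρ, s, hs⟩ := WfDvdMonoid.exists_irreducible_factor hnu ht0
  have hρ' := hρ.prime
  have hd : ρ ∣ lv g * cP π := ⟨d * s, by rw [ht, hs]; ring⟩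
  rcases hρ'.dvd_or_dvd hd with h1 | h1
  · left
    obtain ⟨u, hu⟩ := hρ'.associated_of_dvd prime_la (dvd_la hρ' hκ.g3 h1)
    have h3 : ρ * (u * (3 * g * cP π)) = ρ * (d * s) := by
      have h5 : lv g * cP π = d * (ρ * s) := by rw [ht, hs]
      unfold lv at h5
      rw [← hu] at h5
      linear_combination h5
    have h4 := mul_left_cancel₀ hρ'.ne_zero h3
    rw [Ideal.mem_span_singleton']
    refine ⟨s * (↑u⁻¹ : eis), ?_⟩
    have h5 : (↑u⁻¹ : eis) * u = 1 := u.inv_mul
    linear_combination -(↑u⁻¹ : eis) * h4 + (3 * g * cP π) * h5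
  · right
    unfold cP cc at h1
    rw [hρ'.dvd_finsetProd_iff] at h1
    obtain ⟨i, -, hi⟩ := h1
    have hpi : Prime (eq0 (π i)) := (MulEquiv.prime_iff (eq0 : Ei ≃* eis)).2 (h.pq i).prime
    obtain ⟨u, hu⟩ := hρ'.associated_of_dvd hpi hi
    refine ⟨i, ?_⟩
    have hc : cP π = eq0 (π i) * cc (fun i => eq0 (π i)) (Finset.univ.erase i) := by
      unfold cP
      rw [← cc_insert (π := fun i => eq0 (π i)) (Finset.notMem_erase i Finset.univ),
        Finset.insert_erase (Finset.mem_univ i)]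
    have h3 : ρ * (u * (lv g * cc (fun i => eq0 (π i)) (Finset.univ.erase i))) =
        ρ * (d * s) := by
      have h5 : lv g * cP π = d * (ρ * s) := by rw [ht, hs]
      rw [hc, ← hu] at h5
      linear_combination h5
    have h4 := mul_left_cancel₀ hρ'.ne_zero h3
    rw [Ideal.mem_span_singleton']
    refine ⟨s * (↑u⁻¹ : eis), ?_⟩
    have h5 : (↑u⁻¹ : eis) * u = 1 := u.inv_mul
    linear_combination -(↑u⁻¹ : eis) * h4 +
      (lv g * cc (fun i => eq0 (π i)) (Finset.univ.erase i)) * h5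

omit hj h in
lemma ex_k : ∃ s : eis, κ (1 + 3 * (g * s)) ≠ 1 := by
  by_contra hne
  push Not at hne
  have h1 := hκ.prim 0
  have : Finite (eis ⧸ (sp la : Ideal eis)) := finq la la_ne
  have : Fintype (eis ⧸ (sp la : Ideal eis)) := Fintype.ofFinite _
  rw [Sm_eq] at h1
  have h2 : ∀ x : eis ⧸ (sp la : Ideal eis), κ (1 + 3 * (0 + g * x.out)) = 1 := by
    intro x
    rw [zero_add]
    exact hne _
  rw [Finset.sum_congr rfl fun x _ => h2 x, Finset.sum_const, Finset.card_univ, nsmul_eq_mul,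
    mul_one, Nat.cast_eq_zero] at h1
  exact Fintype.card_ne_zero h1

/-- **The primitive Hecke character.** -/
theorem hc_th : HC 1 (sp (lv g * cP π)) (th κ π e j) := by
  refine ⟨?_, ?_, ?_, ?_, ?_⟩
  · rw [Ne, Ideal.span_singleton_eq_bot]
    exact mul_ne_zero (lv_ne hκ.gne) (cP_ne h)
  · intro I K
    obtain ⟨α, rfl⟩ : ∃ α : eis, I = sp α :=
      ⟨_, (Submodule.IsPrincipal.span_singleton_generator I).symm⟩
    obtain ⟨β, rfl⟩ : ∃ β : eis, K = sp β :=
      ⟨_, (Submodule.IsPrincipal.span_singleton_generator K).symm⟩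
    have e1 : sp α * sp β = sp (α * β) := Ideal.span_singleton_mul_span_singleton α β
    rw [e1, th_sp hκ h hj, th_sp hκ h hj, th_sp hκ h hj, gg_mul hκ h]
  · intro I
    obtain ⟨α, rfl⟩ : ∃ α : eis, I = sp α :=
      ⟨_, (Submodule.IsPrincipal.span_singleton_generator I).symm⟩
    rw [th_sp hκ h hj, gg_zero_iff hκ h, Ideal.span_singleton_eq_bot,
      Ideal.isCoprime_span_singleton_iff]
  · intro α _ hα
    rw [th_sp hκ h hj, pow_one]
    have h1 : α - 1 ∈ (sp (lv g) : Ideal eis) := sp_mul_le' hα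
    have h2 : κ α = 1 := by rw [hκ.per α 1 h1, hκ.unit 1 isUnit_one]
    have h3 : α - 1 ∈ (sp 3 : Ideal eis) := by
      obtain ⟨t, ht⟩ := ex_mem h1
      exact mem_of (la * g * t) (by rw [ht]; unfold lv; ring)
    unfold gg ek
    rw [ej_prim j h3, h2, X_per h (sp_mul_le hα), X_one h, mul_one, mul_one, map_one, mul_one]
  · intro q' hq
    have h3c := cop3 h
    rcases ex_div hκ h hq with h1 | ⟨i, h1⟩
    · obtain ⟨s, hs⟩ := ex_k hκ
      have hlac : IsCoprime la (cP π) := by
        have h4 := h3c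
        rw [three_eq, IsCoprime.neg_left_iff] at h4
        exact h4.of_mul_left_left
      obtain ⟨a, b, hab⟩ := hlac
      set α : eis := 1 + 3 * (g * (s * (b * cP π))) with hα
      have hα1 : α - 1 ∈ (sp (cP π) : Ideal eis) := by
        rw [Ideal.mem_span_singleton']
        exact ⟨3 * g * s * b, by rw [hα]; ring⟩
      have hαs : α - (1 + 3 * (g * s)) ∈ (sp (lv g) : Ideal eis) := by
        refine mem_of (-(s * a)) ?_
        rw [hα]
        unfold lv
        linear_combination 3 * g * s * hab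
      have hα3 : α - 1 ∈ (sp 3 : Ideal eis) :=
        mem_of (g * (s * (b * cP π))) (by rw [hα]; ring)
      have hX : XX π e α = 1 := by rw [X_per h hα1, X_one h]
      have hcop : IsCoprime α 3 := cop_of_unit isUnit_one hα3
      have hα0 : α ≠ 0 := prim_ne hα3
      refine ⟨α, hα0, ?_, ?_, ?_⟩
      · have e1 : α - 1 = (s * b) * (3 * g * cP π) := by
          rw [hα]
          ring
        rw [e1]
        exact q'.mul_mem_left _ h1
      · rw [Ideal.isCoprime_span_singleton_iff, IsCoprime.mul_right_iff, lv_cop hκ.g3,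
          ← X_ne_cop h, hX]
        exact ⟨hcop, one_ne_zero⟩
      · rw [th_sp hκ h hj, pow_one]
        unfold gg ek
        rw [hX, mul_one, ej_prim j hα3, one_mul, hκ.per _ _ hαs]
        intro h2
        have h4 : (α : ℂ) ≠ 0 := fun h5 => hα0 (coe_inj' h5)
        have h5 : (starRingEnd ℂ) (κ (1 + 3 * (g * s))) = 1 :=
          mul_left_cancel₀ h4 (by rw [h2, mul_one])
        have h6 := congrArg (starRingEnd ℂ) h5
        rw [Complex.conj_conj, map_one] at h6
        exact hs h6
    · set P : J → eis := fun i => eq0 (π i) with hP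
      set ci : eis := cc P (Finset.univ.erase i) with hci
      obtain ⟨g', hg0, hg⟩ := ex_ne (h.pq i)
      have hci3 : IsCoprime (lv g * ci) (P i) := by
        rw [IsCoprime.mul_left_iff]
        constructor
        · have h4 : IsCoprime (3 : eis) (P i) := by
            have := cop3 h
            unfold cP cc at this
            rw [IsCoprime.prod_right_iff] at this
            exact this i (Finset.mem_univ i)
          exact ((lv_cop hκ.g3).2 h4.symm).symm
        · exact ((Xc_fm h).cop_cc (Finset.notMem_erase i _)).symm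
      obtain ⟨a, b, hab⟩ := hci3
      set α : eis := 1 + a * (lv g * ci) * (eq0 g' - 1) with hα
      have hαl : α - 1 ∈ (sp (lv g) : Ideal eis) :=
        mem_of (a * ci * (eq0 g' - 1)) (by rw [hα]; ring)
      have hκα : κ α = 1 := by rw [hκ.per α 1 hαl, hκ.unit 1 isUnit_one]
      have hα3 : α - 1 ∈ (sp 3 : Ideal eis) :=
        mem_of (a * (la * g * ci) * (eq0 g' - 1)) (by rw [hα]; unfold lv; ring)
      have hαk : ∀ k, k ≠ i → α - 1 ∈ (sp (P k) : Ideal eis) := by
        intro k hk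
        have h2 : α - 1 ∈ (sp ci : Ideal eis) := by
          rw [Ideal.mem_span_singleton']
          exact ⟨a * lv g * (eq0 g' - 1), by rw [hα]; ring⟩
        exact cc_mem (Finset.mem_erase.2 ⟨hk, Finset.mem_univ k⟩) h2
      have hαi : α - eq0 g' ∈ (sp (P i) : Ideal eis) := by
        rw [Ideal.mem_span_singleton']
        exact ⟨-(eq0 g' - 1) * b, by rw [hα]; linear_combination -(eq0 g' - 1) * hab⟩
      have hX : XX π e α = Xc π e i (eq0 g') := by
        unfold XX XT
        rw [← Finset.mul_prod_erase Finset.univ _ (Finset.mem_univ i), Finset.prod_eq_one, mul_one]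
        · exact (Xc_fm h).per i _ _ hαi
        · intro k hk
          have h2 := (Xc_fm h).per k _ _ (hαk k (Finset.ne_of_mem_erase hk))
          rw [h2, Xc_of (nd_unit h isUnit_one k), map_one]
          have h4 := Pool.Agent.Y715.T.RecG.cs_one (h.pq k).prime (h.pq k).norm
          rw [h4, mul_zero, neg_zero, ZMod.val_zero, pow_zero]
      have hg1 : ¬ π i ∣ eq0.symm (eq0 g') := by rwa [RingEquiv.symm_apply_apply]
      have hXg : Xc π e i (eq0 g') ≠ 1 := by
        rw [Xc_of hg1, RingEquiv.symm_apply_apply]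
        intro h3
        have h4 : toC w ^ (-(e i * Pool.Agent.Y715.T.Rec.cs (π i) g')).val = toC w ^ 0 := by
          rw [h3, pow_zero]
        have h5 := Pool.Agent.Y715.T.Fin.w_pow_mod h4
        rw [ZMod.natCast_zmod_val, Nat.cast_zero, neg_eq_zero] at h5
        exact (mul_ne_zero (h.e0 i) hg) h5
      have hX0 : XX π e α ≠ 0 := by
        rw [hX, Xc_of hg1]
        exact pow_ne_zero _ (w_ne h)
      have hcop : IsCoprime α 3 := cop_of_unit isUnit_one hα3
      have hα0 : α ≠ 0 := prim_ne hα3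
      refine ⟨α, hα0, ?_, ?_, ?_⟩
      · have e1 : α - 1 = (a * (eq0 g' - 1)) * (lv g * ci) := by
          rw [hα]
          ring
        rw [e1]
        exact q'.mul_mem_left _ h1
      · rw [Ideal.isCoprime_span_singleton_iff, IsCoprime.mul_right_iff, lv_cop hκ.g3,
          ← X_ne_cop h]
        exact ⟨hcop, hX0⟩
      · rw [th_sp hκ h hj, pow_one]
        unfold gg ek
        rw [hX, ej_prim j hα3, one_mul, hκα, one_mul]
        intro h2
        have h4 : (α : ℂ) ≠ 0 := fun h5 => hα0 (coe_inj' h5)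
        have h5 : (starRingEnd ℂ) (Xc π e i (eq0 g')) = 1 :=
          mul_left_cancel₀ h4 (by rw [h2, mul_one])
        have h6 := congrArg (starRingEnd ℂ) h5
        rw [Complex.conj_conj, map_one] at h6
        exact hXg h6

end T

/-- the characters of the library of this file -/
theorem kq_kc {c : ZMod 3} (hc : c ≠ 0) : Kq 1 (Kc.kc c) :=
  ⟨Kc.kp_kc hc, ⟨0, by rw [pow_zero]⟩, fun _ h => Kc.kc_cube h⟩

end Pool.Agent.H91.Hez
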