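import Pool.Agent.H91.Cv
import Pool.Agent.H91.Cst

/-!
# The valuation of the central value
-/

set_option autoImplicit false
set_option linter.unusedSectionVars false
set_option linter.unusedVariables false

open Filter
open scoped Classical Topology PeriodPair

namespace Pool.Agent.H91.Vl

open Pool.Agent.Y692.QS (Ei w nr toC)
open Pool.Agent.Y715.T.Rec (cs)
open Pool.Agent.Y715.T.RecG (Pq)
open Pool.Agent.Y703.CT
open Pool.Agent.W192.HK Pool.Agent.TH936.CM
open Pool.Agent.TH936.PU hiding v_int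
open Pool.Agent.Y715.Dist Pool.Agent.Y715.Idn
open Pool.Agent.Y696 hiding nr
open Pool.Agent.Y715.T.Rs (eq0)
open Pool.Agent.Y715.T.Lat (la la_coe notMem_of_cop)
open Pool.Agent.Y715.T.Three (lam lam_lt lam_ne lam_ne' lam_pos sq_three v_two Dat X_le)
open Pool.Agent.Y715.T.Cg (Cg Zt zt_of_prim z_pow)
open Pool.Agent.Y715.Two (v_nat v_int v_unit v_mul_le_of)
open Pool.Agent.H91.Lev Pool.Agent.H91.Hez Pool.Agent.H91.An Pool.Agent.H91.Kc Pool.Agent.H91.Cv
open Pool.Agent.H91.Cst Pool.Agent.H91.Rt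

variable {Γ : Type*} [LinearOrderedCommGroupWithZero Γ] {v : Valuation ℂ Γ}
  {L : PeriodPair} {Ω : ℂ} {J : Type} {π : J → Ei} {e : J → ZMod 3}

/-! ### the normalization -/

lemma cur_unit (hC : Cur L Ω) {u : eis} (hu : IsUnit u) : Cur L (u * Ω) := by
  obtain ⟨t, ht⟩ := hu.exists_right_inv
  have ht' : (u : ℂ) * (t : ℂ) = 1 := by
    have := congrArg (fun x : eis => (x : ℂ)) ht
    push_cast at this
    exact this
  refine ⟨⟨mul_ne_zero (coe_ne hu.ne_zero) hC.lat.ne, fun z => ?_⟩, hC.g2, hC.g3⟩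
  rw [hC.lat.mem]
  constructor
  · rintro ⟨r, rfl⟩
    refine ⟨t * r, ?_⟩
    push_cast
    linear_combination (-Ω * r) * ht'
  · rintro ⟨r, rfl⟩
    refine ⟨u * r, ?_⟩
    push_cast
    ring

lemma ex_nc (hC : Cur L Ω) : ∃ u : eis, IsUnit u ∧ Nc L (u * Ω) := by
  have h0 := hC.x0
  have h3 := om_cube
  have hs := om_sq
  set X := ℘[L] (Ω / 3) with hX
  have key : ∀ u : eis, IsUnit u → X = -(u : ℂ) ^ 2 → Nc L (u * Ω) := by
    intro u hu hx
    refine ⟨cur_unit hC hu, ?_⟩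
    have e1 : (u : ℂ) * Ω / 3 = u * (Ω / 3) := by ring
    have hu0 : (u : ℂ) ≠ 0 := coe_ne hu.ne_zero
    rw [e1, wp_unit hC.lat hu, ← hX, hx]
    field_simp
  have h4 : (X + 1) * ((X + om) * (X + om ^ 2)) = 0 := by
    linear_combination h0 + (X ^ 2 + X) * hs + (X + 1) * h3
  have hu : ∀ v ∈ ({1, -1, omr, -omr, omr ^ 2, -omr ^ 2} : Set eis), IsUnit v := fun v hv =>
    (unit_list v).2 hv
  rcases mul_eq_zero.1 h4 with h5 | h5
  · refine ⟨1, hu _ (by simp), key 1 (hu _ (by simp)) ?_⟩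
    push_cast
    linear_combination h5
  · rcases mul_eq_zero.1 h5 with h6 | h6
    · refine ⟨omr ^ 2, hu _ (by simp), key (omr ^ 2) (hu _ (by simp)) ?_⟩
      push_cast
      rw [omr_coe]
      linear_combination h6 + om * h3
    · refine ⟨omr, hu _ (by simp), key omr (hu _ (by simp)) ?_⟩
      rw [omr_coe]
      linear_combination h6

/-! ### the family -/

lemma card_eq (α : Ei) :
    (Nat.card (eis ⧸ (sp (eq0 α) : Ideal eis)) : ℂ) = ((nr α : ℤ) : ℂ) := by
  have h2 : (Nat.card (eis ⧸ (sp (eq0 α) : Ideal eis)) : ℤ) = nr α := by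
    rw [← Pool.Agent.Y715.T.Tf.up_sp, Pool.Agent.Y715.T.Tf.card_up,
      Pool.Agent.Y715.T.Rs.card_quo]
  rw [← h2]
  push_cast
  rfl

theorem fz (hv : v 3 < 1) (h : Dt π e) (c : ZMod 3) :
    Fz v (fun i => eq0 (π i)) (Xc π e) (toC w) (am π e) (kc c) (fun i => c * ex (nr (π i))) := by
  have hy := fy (v := v) hv h
  have hprm : ∀ i, eq0 (π i) - 1 ∈ (sp 3 : Ideal eis) := fun i =>
    Pool.Agent.Y715.T.Ex.three_mem.2 (h.pq i).three
  have hcop : ∀ i, IsCoprime (eq0 (π i)) 3 := fun i => cop_of_unit isUnit_one (hprm i)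
  have hkc : ∀ i, kc c (eq0 (π i)) = toC w ^ (c * ex (nr (π i))).val := by
    intro i
    rw [kc_of (hcop i), RingEquiv.symm_apply_apply]
  refine ⟨Xc_fm h, hy.three, hprm, hy.max, hy.val, hy.cub, hy.lin, hy.card, fun i h0 => ?_,
    fun i => ?_⟩
  · have h1 := kc_cube (c := c) (hcop i)
    rw [h0] at h1
    norm_num at h1
  · refine ⟨(-(c * ex (nr (π i)))).val, ?_, ?_⟩
    · rw [hkc]
      have h1 : toC w ^ (-(c * ex (nr (π i)))).val * toC w ^ (c * ex (nr (π i))).val = 1 := by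
        rw [← toC_w_add, neg_add_cancel, ZMod.val_zero, pow_zero]
      exact inv_eq_of_mul_eq_one_left h1
    · rw [ZMod.natCast_zmod_val]

/-! ### the estimate -/

lemma pt_ne (hC : Cur L Ω) {cS : eis} (hc : cS ≠ 0) (h3 : IsCoprime (3 : eis) cS)
    (hct : sp cS ≠ ⊤) {x : eis} (hx : IsCoprime x cS) (t : eis) :
    ℘[L] (pt Ω 1 t) - ℘[L] (Ω * x / cS) ≠ 0 := by
  have hl : IsCoprime (lv 1) cS := ((lv_cop (g := 1) ⟨0, by rw [pow_zero]⟩).2 h3.symm).symm
  have hxn : x ∉ sp cS := notMem_of_cop hct hx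
  have hc0 := coe_ne hc
  have hl0 := coe_ne (lv_ne (one_ne_zero (α := eis)))
  have hne : lv 1 * cS ≠ 0 := mul_ne_zero (lv_ne one_ne_zero) hc
  have hcop : ∀ r : eis, lv 1 * r ∉ sp cS → (1 + 3 * t) * cS + r * lv 1 ∉ sp (lv 1 * cS) := by
    intro r hr h
    apply hr
    obtain ⟨s, hs⟩ := ex_mem h
    exact mem_of (lv 1 * s - (1 + 3 * t)) (by linear_combination hs)
  have hr1 : lv 1 * x ∉ sp cS := by
    intro h
    obtain ⟨a, b, hab⟩ := hl
    obtain ⟨s, hs⟩ := ex_mem h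
    exact hxn (mem_of (a * s + b * x) (by linear_combination a * hs - x * hab))
  have hr2 : lv 1 * (-x) ∉ sp cS := by
    intro h
    apply hr1
    have := neg_mem h
    rwa [mul_neg, neg_neg] at this
  have h1 : pt Ω 1 t + Ω * x / cS ∉ L.lattice := by
    have h3 := hcop x hr1
    rw [← div_mem_iff hC.lat hne] at h3
    convert h3 using 2
    unfold pt
    push_cast
    field_simp
  have h2 : pt Ω 1 t - Ω * x / cS ∉ L.lattice := by
    have h3 := hcop (-x) hr2
    rw [← div_mem_iff hC.lat hne] at h3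
    convert h3 using 2
    unfold pt
    push_cast
    field_simp
    ring
  exact wp_sub_ne (pt_notMem hC one_ne_zero t) (by rwa [div_mem_iff hC.lat hc]) h1 h2

/-- **The valuation of the central value.** -/
theorem val [Fintype J] [Nonempty J] {c : ZMod 3} (hc : c ≠ 0) (h : Dt π e) :
    ∃ F : ℂ → ℂ, IsHK (kc c) π e F ∧
      ∀ (Γ : Type) [LinearOrderedCommGroupWithZero Γ] (v : Valuation ℂ Γ), v 3 < 1 →
        ∀ (L : PeriodPair) (Ω : ℂ), Cur L Ω → ∃ s : ℂ,
          Cg v s (W (am π e) (fun i => c * ex (nr (π i))) Finset.univ) ∧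
            v ((starRingEnd ℂ) (F 1) / Ω) * v lam ^ 2 = v lam ^ Fintype.card J * v s := by
  have hκ := kq_kc hc
  obtain ⟨F, hF, hval⟩ := cv hκ h
  refine ⟨F, hF, ?_⟩
  intro Γ _ v hv L Ω hC
  have : Fintype (eis ⧸ (sp (lv 1) : Ideal eis)) :=
    @Fintype.ofFinite _ (finq _ (lv_ne one_ne_zero))
  obtain ⟨u, hu, hN⟩ := ex_nc hC
  obtain ⟨ρ, hρ, hval⟩ := hval L _ hN.toCur
  obtain ⟨k, C, hk, hC0, hvC, hRk⟩ := Rk_eq hN hκ.toKp
  have hz : Zt v (toC w) := zt_of_prim hv (k := 1) le_rfl (by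
    rw [pow_one]
    exact Pool.Agent.Y715.T.Fin.prim_w)
  have hw : toC w = om := by
    have := toC_eq' 0 1
    have e1 : (w : Ei) = ⟨0, 1⟩ := rfl
    rw [e1, this]
    push_cast
    ring
  have hzl : v (1 - toC w) = v lam := by
    rw [hw]
    exact Ana.om_val hv
  have hfz := fz (v := v) hv h c
  -- the constant
  have hR0 : Rk L (u * Ω) 1 (kc c) 0 = -C := by
    rw [hRk 0 ?_]
    · unfold Qk
      norm_num
    · intro t h0
      have h1 := cub hN t
      rw [sub_zero] at h0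
      rw [h0] at h1
      norm_num at h1
  have hCC : C0 L (u * Ω) 1 (kc c) = 2 * C := by
    unfold C0
    rw [hR0]
    ring
  have hCC0 : C0 L (u * Ω) 1 (kc c) ≠ 0 := by
    rw [hCC]
    exact mul_ne_zero two_ne_zero hC0
  have hvCC : v (C0 L (u * Ω) 1 (kc c)) = v lam ^ 3 := by
    rw [hCC, map_mul, v_two hv, one_mul, hvC Γ v hv]
  have hg : ∃ n : ℕ, (1 : eis) ∣ 3 ^ n := ⟨0, by rw [pow_zero]⟩
  have hcg := sT_cg hv hN.toCur hκ.toKp hfz hz hzl hg hCC0 (cs := 1) (by rw [map_one]) ?_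
    Finset.univ
  · refine ⟨_, hcg, ?_⟩
    have hz1 := hz.ne
    have e1 : SQ L (u * Ω) 1 (kc c) (fun i => eq0 (π i)) (Xc π e) Finset.univ =
        C0 L (u * Ω) 1 (kc c) * (1 - toC w) ^ Fintype.card J *
          sT L (u * Ω) 1 (kc c) (fun i => eq0 (π i)) (Xc π e) (toC w) Finset.univ := by
      unfold sT
      rw [Finset.card_univ, mul_div_cancel₀]
      exact mul_ne_zero hCC0 (pow_ne_zero _ hz1)
    have hcπ : v (∏ j, toC (π j)) = 1 := by
      rw [map_prod]
      refine Finset.prod_eq_one fun i _ => ?_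
      apply v_unit
      exact (hfz.lin i).trans_lt hv
    have hu1 : v (u : ℂ) = 1 := by
      have h6 : ∀ w ∈ ({1, -1, omr, -omr, omr ^ 2, -omr ^ 2} : Set eis), v (w : ℂ) = 1 := by
        intro w hw
        have ho : v om = 1 := z_pow (k := 3) (by norm_num) om_cube
        simp only [Set.mem_insert_iff, Set.mem_singleton_iff] at hw
        rcases hw with rfl | rfl | rfl | rfl | rfl | rfl
        · push_cast
          exact map_one v
        · push_cast
          rw [v.map_neg, map_one]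
        · rw [omr_coe, ho]
        · push_cast
          rw [v.map_neg, omr_coe, ho]
        · push_cast
          rw [map_pow, omr_coe, ho, one_pow]
        · push_cast
          rw [v.map_neg, map_pow, omr_coe, ho, one_pow]
      exact h6 u ((unit_list u).1 hu)
    have hvl : v ((lv 1 : eis) : ℂ) = v lam ^ 3 := by
      unfold lv
      have h3c : ((3 : eis) : ℂ) = 3 := rfl
      push_cast
      rw [la_coe, h3c, mul_one, map_mul, ← sq_three, pow_succ, pow_two]
    have h6 : v (6 : ℂ) = v lam ^ 2 := by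
      have : (6 : ℂ) = 2 * 3 := by norm_num
      rw [this, map_mul, v_two hv, one_mul, ← sq_three, pow_two]
    have hl : v lam ≠ 0 := lam_ne
    have e2 : v ((starRingEnd ℂ) (F 1) / Ω) = v ((starRingEnd ℂ) (F 1) / (u * Ω)) := by
      rw [map_div₀, map_div₀, map_mul, hu1, one_mul]
    rw [e2, hval, e1]
    simp only [map_mul, map_inv₀, map_pow, hcπ, z_pow (by norm_num) hρ, hvCC, hzl, hvl, h6, inv_one,
      mul_one]
    field_simp
  · intro S x hS hx
    have h3S : IsCoprime (3 : eis) (cc (fun i => eq0 (π i)) S) :=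
      IsCoprime.prod_right fun i _ => hfz.three i
    have hcS := hfz.cc_ne S
    have hct := hfz.cc_top hS
    have hD := Ana.dat' hN.toCur hcS h3S hct finq
    have hx' : x ∉ sp (cc (fun i => eq0 (π i)) S) := notMem_of_cop hct hx
    have hun : (u : ℂ) * Ω * x / cc (fun i => eq0 (π i)) S ∉ L.lattice := by
      rwa [div_mem_iff hN.lat hcS]
    have h4 := X_le hv hD ⟨x, hx⟩
    have h5 : Pool.Agent.Y715.T.Lat.XX L (u * Ω) (cc (fun i => eq0 (π i)) S) ⟨x, hx⟩ =
        4 * ℘[L] (u * Ω * x / cc (fun i => eq0 (π i)) S) ^ 3 + 1 := hN.toCur.ode hun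
    rw [h5] at h4
    have h6 := Cst.del hv hk h4
    have h7 := hRk (℘[L] (u * Ω * x / cc (fun i => eq0 (π i)) S))
      (fun t => pt_ne hN.toCur hcS h3S hct hx t)
    have h8 : Gt L (u * Ω) 1 (kc c) (℘[L] (u * Ω * x / cc (fun i => eq0 (π i)) S)) /
        C0 L (u * Ω) 1 (kc c) - 1 =
        3 * Qk k (℘[L] (u * Ω * x / cc (fun i => eq0 (π i)) S)) / 2 := by
      unfold Gt
      rw [h7, hCC]
      field_simp
      ring
    rw [h8, map_div₀, v_two hv, div_one]
    exact h6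

end Pool.Agent.H91.Vl
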