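import Pool.Agent.H91.Sel3
import Pool.Agent.H91.Vl
import Pool.Graph.R_seed8.Y696.CTK.LK

/-!
# The `L`-function of `y² + D y = x³` over `ℚ(ω)`, `D = ω^c ∏ π^e`
-/

set_option autoImplicit false
set_option linter.unusedVariables false
set_option linter.unusedSectionVars false

namespace Pool.Agent.H91.LKz

open NumberField IsDedekindDomain WeierstrassCurve
open Pool.Agent.W189.NF (aV eV)
open Pool.Agent.H921R2.TatePole (nm two_le_nm)
open Pool.Agent.Y715.T.Rs (eq0 eq0_coe card_quo)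
open Pool.Agent.Y703.CT
open Pool.Agent.Y696 (HBd LSeries_hasProd' eis)
open Pool.Agent.Y696.CT
open Pool.Agent.Y696.CTK hiding bad_three bad_D factorK
open Pool.Agent.Y692.QS hiding chi
open Pool.Agent.Y715.T.Rec (cs nn)
open Pool.Agent.Y715.T.RecG (Pq cs_spec cs_mul cs_pow)
open Pool.Agent.Y715.CT.AN1b (conj_w)
open Pool.Agent.H91.Kc (ex kc kc_of kc_mul kc_unit kc_zero)
open Pool.Agent.H91.Sel (dD nd_w cs_w)
open Pool.Agent.H91.Cv (IsHK)
open scoped Classical

variable {J : Type} [Fintype J] {π : J → Ei} {e : J → ZMod 3} {c : ZMod 3}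

/-- the summand -/
noncomputable def gk (c : ZMod 3) (π : J → Ei) (f : J → ZMod 3) (s : ℂ) (α : Ei) : ℂ :=
  toC α * ((starRingEnd ℂ) (kc c (eq0 α)) * chD π f α) * ((nr α : ℤ) : ℂ) ^ (-s)

lemma gk_one (hpq : ∀ j, Pq (π j)) (f : J → ZMod 3) (s : ℂ) : gk c π f s 1 = 1 := by
  unfold gk
  rw [chD_one hpq, nr_one, map_one, map_one, kc_unit 1 isUnit_one, map_one, Int.cast_one,
    Complex.one_cpow, mul_one, mul_one, mul_one]

lemma gk_mul (hpq : ∀ j, Pq (π j)) (f : J → ZMod 3) (s : ℂ) (α β : Ei) :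
    gk c π f s (α * β) = gk c π f s α * gk c π f s β := by
  unfold gk
  rw [chD_mul hpq, map_mul, map_mul, kc_mul, map_mul, nr_cpow]
  ring

/-- the values at the primes of good reduction -/
lemma coef0 (hdt : Dt π e) {α : Ei} (hα : Pq α) (hD : ¬ α ∣ dD c π e) :
    (starRingEnd ℂ) (kc c (eq0 α)) * chD π (fun i => -e i) α =
      toC w ^ (-cs α (dD c π e)).val := by
  have hcop : IsCoprime (eq0 α) (3 : eis) :=
    Pool.Agent.Y696.cop_of_unit isUnit_one (Pool.Agent.Y715.T.Ex.three_mem.2 hα.three)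
  have hpd : ¬ α ∣ pD π e := fun h => hD (h.mul_left _)
  have hw : ¬ α ∣ w ^ c.val := fun h => nd_w hα.prime (hα.prime.dvd_of_dvd_pow h)
  rw [kc_of hcop, RingEquiv.symm_apply_apply, chD_prime Pool.Agent.Y350.CT.rec hdt (Or.inl rfl) hα hpd]
  have h1 : (starRingEnd ℂ) (toC w ^ (c * ex (nr α)).val) = toC w ^ (-(c * ex (nr α))).val := by
    have := conj_w (-(c * ex (nr α)))
    rwa [neg_neg] at this
  rw [h1, ← toC_w_add]
  congr 2
  unfold dD
  rw [cs_mul hα.prime hα.norm hw hpd, cs_pow hα.prime hα.norm (nd_w hα.prime), cs_w hα.prime hα.norm,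
    ZMod.natCast_zmod_val]
  ring

/-- up to sign -/
def Pm (D D' : Ei) : Prop := D' = D ∨ D' = -D

lemma Pm.dvd {D D' : Ei} (h : Pm D D') (α : Ei) : α ∣ D' ↔ α ∣ D := by
  rcases h with h | h <;> rw [h]
  exact dvd_neg

lemma Pm.pow {D D' : Ei} (h : Pm D D') : D' ^ 4 = D ^ 4 := by
  rcases h with h | h <;> rw [h]
  ring

lemma Pm.cs {D D' : Ei} (h : Pm D D') {α : Ei} (hα : Pq α) (hD : ¬ α ∣ D) : cs α D' = cs α D := by
  rcases h with h | h <;> rw [h]
  have h1 : ¬ α ∣ (-1 : Ei) := fun h1 => hα.prime.not_isUnit (isUnit_of_dvd_unit h1 (by simp))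
  have h2 : (-1 : Ei) = (-1) ^ 3 := by norm_num
  have h3 : Pool.Agent.Y715.T.Rec.cs α (-1) = 0 := by
    rw [h2, cs_pow hα.prime hα.norm h1]
    have : ((3 : ℕ) : ZMod 3) = 0 := by rfl
    rw [this, zero_mul]
  rw [← neg_one_mul, cs_mul hα.prime hα.norm h1 hD, h3, zero_add]

/-- the values at the primes of good reduction -/
lemma coef (hdt : Dt π e) {D : Ei} (hpm : Pm (dD c π e) D) {α : Ei} (hα : Pq α) (hD : ¬ α ∣ D) :
    (starRingEnd ℂ) (kc c (eq0 α)) * chD π (fun i => -e i) α =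
      toC w ^ (-cs α D).val := by
  have hD' : ¬ α ∣ dD c π e := fun h => hD ((hpm.dvd α).2 h)
  rw [hpm.cs hα hD', coef0 hdt hα hD']

section
variable {K : Type} [Field K] [NumberField K] (j : Ei ≃+* 𝓞 K)

/-- at the prime above three -/
theorem bad_three {P : HeightOneSpectrum Ei} (h : (3 : ℤ) ∣ nr (gn P.asIdeal)) {D : Ei}
    (hD : ¬ tht ∣ D) :
    aV (ED (j D : K)) (pK j P) = 0 ∧ eV (ED (j D : K)) (pK j P) = 0 := by
  have hs := three_span h
  refine bad_of (t := j tht) (r := (j D) ^ 4) (m := 6) ?_ (pK_span j hs) (by norm_num) ?_ ?_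
  · rw [Ne, map_eq_zero_iff j j.injective]
    exact tht_prime.ne_zero
  · intro h4
    have h5 := (pK j P).isPrime.mem_of_pow_mem 4 h4
    rw [mem_pK, hs, Ideal.mem_span_singleton] at h5
    exact hD h5
  · have h7 : (-27 : 𝓞 K) = (j tht) ^ 6 := by
      rw [← map_pow]
      have : tht ^ 6 = -27 := by decide
      rw [this, map_neg, map_ofNat]
    rw [h7]

lemma dD_split (i : J) : dD c π e = π i ^ (e i).val *
    (w ^ c.val * ∏ l ∈ Finset.univ.erase i, π l ^ (e l).val) := by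
  unfold dD pD
  rw [← Finset.mul_prod_erase _ _ (Finset.mem_univ i)]
  ring

/-- at the primes dividing `D` -/
theorem bad_D {P : HeightOneSpectrum Ei} (hdt : Dt π e) {D : Ei} (hpm : Pm (dD c π e) D) {i : J}
    (h : P.asIdeal = Ideal.span {π i}) :
    aV (ED (j D : K)) (pK j P) = 0 ∧ eV (ED (j D : K)) (pK j P) = 0 := by
  have hi := hdt.pq i
  have hm : ∀ z : ZMod 3, z ≠ 0 → ¬ 12 ∣ 4 * z.val := by decide
  refine bad_of (t := j (π i)) (r := -27 * (j (w ^ c.val * ∏ l ∈ Finset.univ.erase i, π l ^ (e l).val)) ^ 4)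
    (m := 4 * (e i).val) ?_ (pK_span j h) (hm _ (hdt.e0 i)) ?_ ?_
  · rw [Ne, map_eq_zero_iff j j.injective]
    exact hi.prime.ne_zero
  · intro h4
    rcases (pK j P).isPrime.mem_or_mem h4 with h5 | h5
    · have h6 : (-27 : 𝓞 K) = j (-(3 ^ 3)) := by
        rw [map_neg, map_pow, map_ofNat]
        norm_num
      rw [h6, mem_pK, h, Ideal.mem_span_singleton, dvd_neg] at h5
      exact hi.norm (hi.prime.dvd_of_dvd_pow h5)
    · have h6 := (pK j P).isPrime.mem_of_pow_mem 4 h5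
      rw [mem_pK, h, Ideal.mem_span_singleton] at h6
      rcases hi.prime.dvd_or_dvd h6 with h7 | h7
      · exact nd_w hi.prime (hi.prime.dvd_of_dvd_pow h7)
      · rw [Prime.dvd_finsetProd_iff hi.prime] at h7
        obtain ⟨l, hl, h8⟩ := h7
        exact hdt.nd l i (Finset.ne_of_mem_erase hl) (hi.prime.dvd_of_dvd_pow h8)
  · have h8 : (j D) ^ 4 = (j (dD c π e)) ^ 4 := by
      rw [← map_pow, ← map_pow, hpm.pow]
    rw [h8, dD_split i, map_mul, map_pow]
    ring

/-- the factor of the Hecke `L`-function and its conjugate -/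
theorem factorK (hdt : Dt π e) {D : Ei} (hpm : Pm (dD c π e) D) (s : ℂ) (P : HeightOneSpectrum Ei) :
    HBd (aV (ED (j D : K)) (pK j P))
      (eV (ED (j D : K)) (pK j P)) (nm (pK j P)) ∧
    (1 - (aV (ED (j D : K)) (pK j P) : ℂ) * (nm (pK j P) : ℂ) ^ (-s) +
      (eV (ED (j D : K)) (pK j P) : ℂ) * ((nm (pK j P) : ℂ) ^ (-s)) ^ 2)⁻¹ =
    (1 - fI (gk c π (fun i => -e i) s) P.asIdeal)⁻¹ *
      (starRingEnd ℂ) ((1 - fI (gk c π (fun i => -e i) ((starRingEnd ℂ) s)) P.asIdeal)⁻¹) := by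
  have hbad : aV (ED (j D : K)) (pK j P) = 0 ∧
      eV (ED (j D : K)) (pK j P) = 0 →
      (∀ z, fI (gk c π (fun i => -e i) z) P.asIdeal = 0) →
      HBd (aV (ED (j D : K)) (pK j P))
      (eV (ED (j D : K)) (pK j P)) (nm (pK j P)) ∧
    (1 - (aV (ED (j D : K)) (pK j P) : ℂ) * (nm (pK j P) : ℂ) ^ (-s) +
      (eV (ED (j D : K)) (pK j P) : ℂ) * ((nm (pK j P) : ℂ) ^ (-s)) ^ 2)⁻¹ =
    (1 - fI (gk c π (fun i => -e i) s) P.asIdeal)⁻¹ *
      (starRingEnd ℂ) ((1 - fI (gk c π (fun i => -e i) ((starRingEnd ℂ) s)) P.asIdeal)⁻¹) := by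
    rintro ⟨h1, h2⟩ h3
    refine ⟨Or.inl ⟨h1, h2⟩, ?_⟩
    rw [h1, h2, h3, h3]
    simp
  by_cases h3 : (3 : ℤ) ∣ nr (gn P.asIdeal)
  · refine hbad (bad_three j h3 ?_) fun z => ?_
    · intro h
      rw [hpm.dvd] at h
      have h1 : tht ∣ dD c π e - 1 := Pool.Agent.H91.Sel.te_D hdt
      have h2 := dvd_sub h h1
      rw [sub_sub_cancel] at h2
      exact tht_prime.not_isUnit (isUnit_of_dvd_one h2)
    · unfold fI
      rw [if_pos h3]
  · set α := ns (gn P.asIdeal) with hα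
    have hs := span_ns h3
    rw [← hα] at hs
    have hpq := pq_ns h3
    rw [← hα] at hpq
    have hfI : ∀ g : Ei → ℂ, fI g P.asIdeal = g α := fun g => by
      rw [hs, fI_prim g hpq.three]
    by_cases hD : α ∣ D
    · have hD' : α ∣ pD π e := by
        rw [hpm.dvd] at hD
        unfold dD at hD
        rcases hpq.prime.dvd_or_dvd hD with h1 | h1
        · exact absurd (hpq.prime.dvd_of_dvd_pow h1) (nd_w hpq.prime)
        · exact h1
      obtain ⟨i, hi⟩ := Pool.Agent.Y696.CT.dvd_pD hpq.prime hdt hD'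
      refine hbad (bad_D j hdt hpm (i := i) ?_) fun z => ?_
      · rw [hs]
        exact Ideal.span_singleton_eq_span_singleton.2
          ((hdt.pq i).prime.associated_of_dvd hpq.prime hi).symm
      · rw [hfI]
        unfold gk
        rw [chD_bad hpq.prime hdt (Or.inl rfl) hD', mul_zero, mul_zero, zero_mul]
    · obtain ⟨v1, v2⟩ := good_val j hpq (pK_span j hs) hD
      have hnm := nm_nr j (pK_span j hs)
      set x := toC (w ^ (-cs α D).val * α) with hx
      have hxx : x * (starRingEnd ℂ) x = (nm (pK j P) : ℂ) := by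
        rw [Complex.mul_conj, hx, toC_normSq, nr_mul]
        have h5 : nr (w ^ (-cs α D).val) = 1 := by
          generalize -cs α D = c
          revert c
          decide
        rw [h5, one_mul, ← hnm]
        push_cast
        rfl
      have hg : ∀ z, gk c π (fun i => -e i) z α = x * (nm (pK j P) : ℂ) ^ (-z) := by
        intro z
        unfold gk
        rw [coef hdt hpm hpq hD, ← hnm, hx, map_mul, map_pow]
        push_cast
        ring
      refine ⟨Or.inr ⟨x, v1, ?_, hxx⟩, ?_⟩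
      · rw [v2, hxx]
      · rw [hfI, hfI, hg, hg, v1, v2, map_inv₀, map_sub, map_one, map_mul, conj_nat_cpow',
          map_neg, Complex.conj_conj, ← mul_inv]
        congr 1
        linear_combination (-(((nm (pK j P) : ℕ) : ℂ) ^ (-s)) ^ 2) * hxx

end

/-- **The `L`-function.** -/
theorem lk (K : Type) [Field K] [NumberField K] (j : Ei ≃+* 𝓞 K) (hdt : Dt π e) {D : Ei}
    (hpm : Pm (dD c π e) D) {F : ℂ → ℂ}
    (hF : IsHK (kc c) π (fun i => -e i) F) {s : ℂ} (hs : 3 / 2 < s.re) :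
    LSeriesSummable ((fun n : ℤ => (n : ℂ)) ∘ (ED (j D : K)).LFunction) s ∧
      F s * (starRingEnd ℂ) (F ((starRingEnd ℂ) s)) = (ED (j D : K)).LSeries s := by
  have hsc : 3 / 2 < ((starRingEnd ℂ) s).re := by rwa [Complex.conj_re]
  have h1 : HasSum (fun α : {α : Ei // (3 : Ei) ∣ α - 1} => gk c π (fun i => -e i) s α) (F s) :=
    hF.2 s hs
  have h2 : HasSum (fun α : {α : Ei // (3 : Ei) ∣ α - 1} =>
      gk c π (fun i => -e i) ((starRingEnd ℂ) s) α) (F ((starRingEnd ℂ) s)) := hF.2 _ hsc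
  have h3 := hasProd_Ei (gk_one hdt.pq _ s) (gk_mul hdt.pq _ s) h1
  have h4 := (hasProd_Ei (gk_one hdt.pq _ ((starRingEnd ℂ) s)) (gk_mul hdt.pq _ _) h2).map
    (starRingEnd ℂ) Complex.continuous_conj
  have h5 := h3.mul h4
  have hE : ∀ v : HeightOneSpectrum (𝓞 K), HBd (aV (ED (j D : K)) v)
      (eV (ED (j D : K)) v) (nm v) := by
    intro v
    obtain ⟨P, rfl⟩ := (eK j).surjective v
    exact (factorK j hdt hpm s P).1
  obtain ⟨h6, h7⟩ := LSeries_hasProd' (ED (j D : K)) hE hs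
  refine ⟨h6, ?_⟩
  have h8 := (eK j).hasProd_iff.2 h7
  refine h5.unique (h8.congr_fun fun P => ?_)
  exact ((factorK j hdt hpm s P).2).symm

end Pool.Agent.H91.LKz
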