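import Pool.Agent.H91.DistG
import Pool.Graph.R_seed8.Y715.CT.AN1b

/-!
# Odd characters of level `3 √-3 g`: the constants and the function `HH`
-/

set_option autoImplicit false
set_option linter.unusedSectionVars false
set_option linter.unusedVariables false

open Filter
open scoped Topology PeriodPair

namespace Pool.Agent.H91.Lev

open H667R3 Pool.Agent.W192.HK Pool.Agent.TH936.CM Pool.Agent.TH936.PU
open Pool.Agent.Y715.Dist Pool.Agent.Y715.Idn Pool.Agent.Y715.T.Lat Pool.Agent.Y696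
open Pool.Agent.Y703.CT.Ana (ej eo_j ej_u ej_ncop ej_prim)
open Pool.Agent.Y715.T.LF (rd rd_ez rd_eq_zero)
open Pool.Agent.Y715.CT.Hec (rd_la rd_omr la_ne prime_la three_eq)

/-- the level -/
noncomputable def lv (g : eis) : eis := 3 * (la * g)

/-- the characters `κ` modulo `lv g`, trivial on the units, not trivial on the classes of `1` modulo
`3 g` -/
structure Kp (g : eis) (κ : eis → ℂ) : Prop where
  gne : g ≠ 0
  per : ∀ x y : eis, x - y ∈ (sp (lv g) : Ideal eis) → κ x = κ y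
  mul : ∀ x y : eis, κ (x * y) = κ x * κ y
  bd : ∀ x : eis, ‖κ x‖ ≤ 1
  unit : ∀ u : eis, IsUnit u → κ u = 1
  prim : ∀ x : eis, Sm la (fun s => κ (1 + 3 * (x + g * s))) = 0

lemma lag_ne {g : eis} (hg : g ≠ 0) : la * g ≠ 0 := mul_ne_zero la_ne hg

lemma lv_ne {g : eis} (hg : g ≠ 0) : lv g ≠ 0 := mul_ne_zero three_ne (lag_ne hg)

lemma finq (q : eis) (hq : q ≠ 0) : Finite (eis ⧸ (sp q : Ideal eis)) :=
  Pool.Agent.Y715.T.LF.fin_quot q hq

lemma ex_mem {a x : eis} (h : x ∈ (sp a : Ideal eis)) : ∃ t : eis, x = a * t := by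
  obtain ⟨t, ht⟩ := Ideal.mem_span_singleton'.1 h
  exact ⟨t, by rw [← ht, mul_comm]⟩

lemma mem_of {a x : eis} (t : eis) (h : x = a * t) : x ∈ (sp a : Ideal eis) :=
  Ideal.mem_span_singleton'.2 ⟨t, by rw [h, mul_comm]⟩

lemma cop_add {x t : eis} : IsCoprime (x + 3 * t) 3 ↔ IsCoprime x 3 := by
  constructor
  · rintro ⟨a, b, h⟩
    exact ⟨a, b + a * t, by linear_combination h⟩
  · rintro ⟨a, b, h⟩
    exact ⟨a, b - a * t, by linear_combination h⟩

section sum

variable {g : eis} (hg : g ≠ 0) {F : eis → ℂ}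

include hg

lemma G_unit (hper : ∀ x y : eis, x - y ∈ (sp (lv g) : Ideal eis) → F x = F y) {u : eis}
    (hu : IsUnit u) : Sm (la * g) (fun t => F (u + 3 * t)) =
      Sm (la * g) (fun t => F (u * (1 + 3 * t))) := by
  have := finq _ (lag_ne hg)
  have : Fintype (eis ⧸ (sp (la * g) : Ideal eis)) := Fintype.ofFinite _
  rw [Sm_eq, Sm_eq]
  obtain ⟨w, hw⟩ := hu.exists_right_inv
  have hcop : IsCoprime (la * g) u := ⟨0, w, by linear_combination hw⟩
  rw [← sum_mul_bij hcop (F := fun t => F (u + 3 * t))]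
  · refine Finset.sum_congr rfl fun t _ => ?_
    congr 1
    ring
  · intro x y hxy
    apply hper
    obtain ⟨s, hs⟩ := ex_mem hxy
    exact mem_of s (by unfold lv; linear_combination 3 * hs)

/-- the sum over the residues prime to three -/
theorem sum_lev (hF0 : ∀ x, ¬ IsCoprime x 3 → F x = 0)
    (hper : ∀ x y : eis, x - y ∈ (sp (lv g) : Ideal eis) → F x = F y) :
    Sm (lv g) F = Sm (la * g) (fun t => F (1 * (1 + 3 * t)) + F (-1 * (1 + 3 * t)) +
      F (omr * (1 + 3 * t)) + F (-omr * (1 + 3 * t)) + F (omr ^ 2 * (1 + 3 * t)) +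
        F (-omr ^ 2 * (1 + 3 * t))) := by
  have := finq _ three_ne
  have : Fintype (eis ⧸ (sp 3 : Ideal eis)) := Fintype.ofFinite _
  have e1 : lv g = (la * g) * 3 := by unfold lv; ring
  have hper' : ∀ x y : eis, x - y ∈ (sp ((la * g) * 3) : Ideal eis) → F x = F y := by
    rw [← e1]
    exact hper
  rw [e1, Sm_mul three_ne finq (lag_ne hg) hper']
  have hshift : ∀ x : eis, ∀ y z : eis, y - z ∈ (sp (la * g) : Ideal eis) →
      F (x + 3 * y) = F (x + 3 * z) := by
    intro x y z hyz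
    apply hper
    obtain ⟨s, hs⟩ := ex_mem hyz
    exact mem_of s (by unfold lv; linear_combination 3 * hs)
  rw [Sm_eq]
  have h6 := six_sum (fun x => Sm (la * g) (fun t => F (x + 3 * t))) ?_ ?_
  · rw [h6]
    have hu : ∀ v ∈ ({1, -1, omr, -omr, omr ^ 2, -omr ^ 2} : Set eis), IsUnit v := fun v hv =>
      (unit_list v).2 hv
    rw [G_unit hg hper (hu 1 (by simp)), G_unit hg hper (hu (-1) (by simp)),
      G_unit hg hper (hu omr (by simp)), G_unit hg hper (hu (-omr) (by simp)),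
      G_unit hg hper (hu (omr ^ 2) (by simp)), G_unit hg hper (hu (-omr ^ 2) (by simp))]
    rw [← Sm_add, ← Sm_add, ← Sm_add, ← Sm_add, ← Sm_add]
  · intro x hx
    refine Finset.sum_eq_zero fun t _ => hF0 _ ?_
    rwa [cop_add]
  · intro x y hxy
    obtain ⟨s, hs⟩ := ex_mem hxy
    have e2 : ∀ t : eis, x + 3 * t = y + 3 * (s + t) := fun t => by linear_combination hs
    simp only [e2]
    exact Sm_shift (finq _ (lag_ne hg)) s (F := fun t => F (y + 3 * t)) (hshift y)

end sum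

/-- the odd characters -/
noncomputable def ek (κ : eis → ℂ) (j : Fin 3) (x : eis) : ℂ := ej j x * κ x

section ek

variable {g : eis} {κ : eis → ℂ} (hκ : Kp g κ)

include hκ

lemma ek_eo (j : Fin 3) : Eo (lv g) (ek κ j) := by
  refine ⟨fun x y hxy => ?_, fun x y => ?_, fun x => ?_, fun x => ?_⟩
  · unfold ek
    rw [hκ.per x y hxy]
    congr 1
    apply (eo_j j).per
    obtain ⟨t, ht⟩ := ex_mem hxy
    exact mem_of (la * g * t) (by rw [ht]; unfold lv; ring)
  · unfold ek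
    rw [(eo_j j).mul, hκ.mul]
    ring
  · unfold ek
    have h1 : κ (-x) = κ x := by
      have h2 := hκ.mul (-1) x
      rw [hκ.unit (-1) isUnit_one.neg, one_mul, neg_one_mul] at h2
      exact h2
    rw [(eo_j j).neg, h1]
    ring
  · unfold ek
    rw [norm_mul]
    exact mul_le_one₀ ((eo_j j).bd x) (norm_nonneg _) (hκ.bd x)

lemma ek_ncop (j : Fin 3) {x : eis} (hx : ¬ IsCoprime x 3) : ek κ j x = 0 := by
  unfold ek
  rw [ej_ncop j hx, zero_mul]

lemma ek_u (j : Fin 3) {u : eis} (hu : IsUnit u) (t : eis) :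
    ek κ j (u * (1 + 3 * t)) = (u : ℂ) ^ (2 * (j : ℕ) + 1) * κ (1 + 3 * t) := by
  unfold ek
  rw [(eo_j j).mul, hκ.mul, ej_u j hu, hκ.unit u hu, ej_prim j (x := 1 + 3 * t) (mem_of t (by ring))]
  ring

end ek

/-- the points -/
noncomputable def pt (Ω : ℂ) (g t : eis) : ℂ := Ω * ((1 + 3 * t : eis) : ℂ) / ((lv g : eis) : ℂ)

/-- the function -/
noncomputable def Rk (L : PeriodPair) (Ω : ℂ) (g : eis) (κ : eis → ℂ) (x : ℂ) : ℂ :=
  Sm (la * g) (fun t => κ (1 + 3 * t) * (℘'[L] (pt Ω g t) / (℘[L] (pt Ω g t) - x)))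

lemma rd_13 (t : eis) : rd (1 + 3 * t) = 1 := by
  have h3 : (3 : ZMod 3) = 0 := by decide
  rw [map_add, map_mul, map_ofNat, h3, zero_mul, add_zero, map_one]

lemma one_sub_omr : 1 - omr = omr ^ 2 * la := by
  rw [la_eq]
  linear_combination (omr - 1) * omr_cube

section pts

variable {L : PeriodPair} {Ω : ℂ} (hC : Cur L Ω) {g : eis} (hg : g ≠ 0)

include hC hg

lemma u_notMem {u : eis} (hu : IsUnit u) (t : eis) : (u : ℂ) * pt Ω g t ∉ L.lattice := by
  have e : (u : ℂ) * pt Ω g t = Ω * ((u * (1 + 3 * t) : eis) : ℂ) / ((lv g : eis) : ℂ) := by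
    unfold pt
    push_cast
    ring
  rw [e, hC.div_iff (lv_ne hg)]
  intro h
  obtain ⟨s, hs⟩ := ex_mem h
  have h1 := congrArg rd hs
  have h3 : (3 : ZMod 3) = 0 := by decide
  unfold lv at h1
  rw [map_mul, rd_13, mul_one, map_mul, map_mul, map_ofNat, h3, zero_mul, zero_mul] at h1
  have h2 := hu.map rd
  rw [h1] at h2
  exact not_isUnit_zero h2

lemma pt_notMem (t : eis) : pt Ω g t ∉ L.lattice := by
  have := u_notMem hC hg isUnit_one t
  rwa [show ((1 : eis) : ℂ) = 1 from rfl, one_mul] at this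

lemma sub_notMem (t : eis) : pt Ω g t - om * pt Ω g t ∉ L.lattice := by
  have e : pt Ω g t - om * pt Ω g t = Ω * (((1 - omr) * (1 + 3 * t) : eis) : ℂ) /
      ((lv g : eis) : ℂ) := by
    unfold pt
    push_cast
    rw [omr_coe]
    ring
  rw [e, hC.div_iff (lv_ne hg)]
  intro h
  obtain ⟨s, hs⟩ := ex_mem h
  unfold lv at hs
  rw [one_sub_omr] at hs
  have h1 : omr ^ 2 * (1 + 3 * t) = 3 * (g * s) := by
    apply mul_left_cancel₀ la_ne
    linear_combination hs
  have h2 := congrArg rd h1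
  have h3 : (3 : ZMod 3) = 0 := by decide
  rw [map_mul, rd_13, map_mul, map_ofNat, h3, zero_mul, map_pow, rd_omr, one_pow, mul_one] at h2
  exact absurd h2 (by decide)

lemma pt_per {x y : eis} (h : x - y ∈ (sp (la * g) : Ideal eis)) :
    pt Ω g x - pt Ω g y ∈ L.lattice := by
  have e : pt Ω g x - pt Ω g y = Ω * ((3 * (x - y) : eis) : ℂ) / ((lv g : eis) : ℂ) := by
    unfold pt
    push_cast
    ring
  rw [e, hC.div_iff (lv_ne hg)]
  obtain ⟨s, hs⟩ := ex_mem h
  exact mem_of s (by rw [hs]; unfold lv; ring)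

end pts

section lim

variable {L : PeriodPair} {Ω : ℂ} (hC : Cur L Ω) {g : eis} {κ : eis → ℂ} (hκ : Kp g κ)

lemma kap_per (hκ : Kp g κ) {x y : eis} (h : x - y ∈ (sp (la * g) : Ideal eis)) :
    κ (1 + 3 * x) = κ (1 + 3 * y) := by
  apply hκ.per
  obtain ⟨s, hs⟩ := ex_mem h
  exact mem_of s (by unfold lv; linear_combination 3 * hs)

include hC hκ

/-- the sum over the fibres is zero -/
lemma fib_zero (δ : ℝ) : Sm (la * g) (fun t => κ (1 + 3 * t) *
    EE eis Ω δ (pt Ω g t - om * pt Ω g t)) = 0 := by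
  have hg := hκ.gne
  have hEE : ∀ x y : eis, (∃ s : eis, x - y = g * s) →
      EE eis Ω δ (pt Ω g x - om * pt Ω g x) = EE eis Ω δ (pt Ω g y - om * pt Ω g y) := by
    rintro x y ⟨s, hs⟩
    apply EE_per hC.lat
    have e : pt Ω g x - om * pt Ω g x - (pt Ω g y - om * pt Ω g y) =
        Ω * ((3 * (1 - omr) * (x - y) : eis) : ℂ) / ((lv g : eis) : ℂ) := by
      unfold pt
      push_cast
      rw [omr_coe]
      ring
    rw [e, hC.div_iff (lv_ne hg)]
    exact mem_of (omr ^ 2 * s) (by rw [hs, one_sub_omr]; unfold lv; ring)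
  rw [Sm_mul (a := la) (c := g) hg finq la_ne]
  · refine Finset.sum_eq_zero fun x _ => ?_
    have h1 : ∀ t : eis, EE eis Ω δ (pt Ω g (x + g * t) - om * pt Ω g (x + g * t)) =
        EE eis Ω δ (pt Ω g x - om * pt Ω g x) := fun t => hEE _ _ ⟨t, by ring⟩
    simp only [h1]
    have h2 : Sm la (fun t => κ (1 + 3 * (x + g * t)) * EE eis Ω δ (pt Ω g x - om * pt Ω g x)) =
        Sm la (fun t => EE eis Ω δ (pt Ω g x - om * pt Ω g x) * κ (1 + 3 * (x + g * t))) :=
      Finset.sum_congr rfl fun t _ => mul_comm _ _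
    rw [h2, Sm_mul_left, hκ.prim, mul_zero]
  · intro x y hxy
    rw [kap_per hκ hxy]
    congr 1
    obtain ⟨s, hs⟩ := ex_mem hxy
    exact hEE x y ⟨la * s, by rw [hs]; ring⟩

/-- the limit of the sum over the points -/
theorem lim_pt : Tendsto (fun δ : ℝ => Sm (la * g) (fun t => κ (1 + 3 * t) *
    EE eis Ω δ (pt Ω g t))) (𝓝[>] 0) (𝓝 (-(1 / 3) * Rk L Ω g κ 0)) := by
  have hg := hκ.gne
  have i1 : (om ^ 2)⁻¹ = om :=
    (eq_inv_of_mul_eq_one_left (by linear_combination om_cube)).symm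
  have h1 : Tendsto (fun δ : ℝ => Sm (la * g) (fun t => κ (1 + 3 * t) *
      (EE eis Ω δ (pt Ω g t + om * pt Ω g t) + EE eis Ω δ (pt Ω g t - om * pt Ω g t) -
        2 * EE eis Ω δ (pt Ω g t)))) (𝓝[>] 0)
      (𝓝 (Sm (la * g) (fun t => κ (1 + 3 * t) * Dd L (pt Ω g t) (om * pt Ω g t)))) := by
    unfold Sm
    refine tendsto_finsetSum _ fun t _ => Tendsto.const_mul _ ?_
    refine lim_Dd hC.lat (pt_notMem hC hg t) ?_ ?_ (sub_notMem hC hg t)
    · have := u_notMem hC hg omr_unit t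
      rwa [omr_coe] at this
    · have := u_notMem hC hg (omr_unit.pow 2).neg t
      push_cast at this
      rw [omr_coe] at this
      have e1 : pt Ω g t + om * pt Ω g t = -om ^ 2 * pt Ω g t := by
        linear_combination (pt Ω g t) * om_sq
      rwa [e1]
  have h2 : Sm (la * g) (fun t => κ (1 + 3 * t) * Dd L (pt Ω g t) (om * pt Ω g t)) =
      (1 - om)⁻¹ * Rk L Ω g κ 0 := by
    unfold Rk
    rw [← Sm_mul_left]
    refine Finset.sum_congr rfl fun t _ => ?_
    unfold Dd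
    have h4 := wp_unit hC.lat omr_unit (pt Ω g t)
    rw [omr_coe, i1] at h4
    beta_reduce
    rw [h4, sub_zero, show ℘[L] (pt Ω g t) - om * ℘[L] (pt Ω g t) = (1 - om) * ℘[L] (pt Ω g t) by
      ring, div_mul_eq_div_div, div_eq_mul_inv (℘'[L] (pt Ω g t)) (1 - om)]
    ring
  rw [h2] at h1
  have h3 := h1.const_mul (-(2 + om)⁻¹)
  have hne1 : (1 : ℂ) - om ≠ 0 := by
    intro h
    exact Pool.Agent.Y715.CT.Hec.om_ne_one (by linear_combination -h)
  have hne2 : (2 : ℂ) + om ≠ 0 := by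
    intro h
    have h4 : (3 : ℂ) = 0 := by linear_combination om_sq + (1 - om) * h
    norm_num at h4
  have e5 : -(2 + om)⁻¹ * ((1 - om)⁻¹ * Rk L Ω g κ 0) = -(1 / 3) * Rk L Ω g κ 0 := by
    have e6 : (2 + om) * (1 - om) = 3 := by linear_combination -om_sq
    rw [← e6]
    field_simp
  rw [e5] at h3
  refine h3.congr fun δ => ?_
  have h5 : Sm (la * g) (fun t => κ (1 + 3 * t) *
      (EE eis Ω δ (pt Ω g t + om * pt Ω g t) + EE eis Ω δ (pt Ω g t - om * pt Ω g t) -
        2 * EE eis Ω δ (pt Ω g t))) = -(2 + om) * Sm (la * g) (fun t => κ (1 + 3 * t) *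
      EE eis Ω δ (pt Ω g t)) := by
    have h6 : ∀ t : eis, κ (1 + 3 * t) *
      (EE eis Ω δ (pt Ω g t + om * pt Ω g t) + EE eis Ω δ (pt Ω g t - om * pt Ω g t) -
        2 * EE eis Ω δ (pt Ω g t)) = -(2 + om) * (κ (1 + 3 * t) * EE eis Ω δ (pt Ω g t)) +
          κ (1 + 3 * t) * EE eis Ω δ (pt Ω g t - om * pt Ω g t) := by
      intro t
      have h7 : EE eis Ω δ (pt Ω g t + om * pt Ω g t) = -om * EE eis Ω δ (pt Ω g t) := by
        have h8 := EE_unit (omr_unit.pow 2).neg Ω δ (pt Ω g t)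
        push_cast at h8
        rw [omr_coe] at h8
        have e1 : pt Ω g t + om * pt Ω g t = -om ^ 2 * pt Ω g t := by
          linear_combination (pt Ω g t) * om_sq
        rw [e1, h8, inv_neg, i1]
      rw [h7]
      ring
    simp only [h6]
    rw [Sm_add, Sm_mul_left, fib_zero hC hκ, add_zero]
  rw [h5]
  field_simp

/-- the constants -/
noncomputable def Ek (L : PeriodPair) (Ω : ℂ) (g : eis) (κ : eis → ℂ) (j : Fin 3) : ℂ :=
  if j = 0 then -2 * Rk L Ω g κ 0 else 0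

/-- the limits of the constants -/
theorem lim_k [Fintype (eis ⧸ (sp (lv g) : Ideal eis))] (j : Fin 3) :
    Tendsto (fun δ : ℝ => ∑ y : eis ⧸ (sp (lv g) : Ideal eis), ek κ j y.out *
      EE eis Ω δ (Ω * y.out / ((lv g : eis) : ℂ))) (𝓝[>] 0) (𝓝 (Ek L Ω g κ j)) := by
  have hg := hκ.gne
  have hsum : ∀ δ : ℝ, ∑ y : eis ⧸ (sp (lv g) : Ideal eis), ek κ j y.out *
      EE eis Ω δ (Ω * y.out / ((lv g : eis) : ℂ)) = (if j = 0 then 6 else 0) *
        Sm (la * g) (fun t => κ (1 + 3 * t) * EE eis Ω δ (pt Ω g t)) := by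
    intro δ
    rw [← Sm_eq (lv g) (fun y => ek κ j y * EE eis Ω δ (Ω * y / ((lv g : eis) : ℂ))),
      sum_lev hg (fun x hx => by rw [ek_ncop hκ j hx, zero_mul])]
    · have hterm : ∀ u : eis, IsUnit u → ∀ t : eis, ek κ j (u * (1 + 3 * t)) *
          EE eis Ω δ (Ω * ((u * (1 + 3 * t) : eis) : ℂ) / ((lv g : eis) : ℂ)) =
          (u : ℂ) ^ (2 * (j : ℕ)) * (κ (1 + 3 * t) * EE eis Ω δ (pt Ω g t)) := by
        intro u hu t
        have hu0 : (u : ℂ) ≠ 0 := coe_ne hu.ne_zero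
        have e : Ω * ((u * (1 + 3 * t) : eis) : ℂ) / ((lv g : eis) : ℂ) = u * pt Ω g t := by
          unfold pt
          push_cast
          ring
        rw [ek_u hκ j hu, e, EE_unit hu, pow_succ]
        field_simp
      have hu : ∀ v ∈ ({1, -1, omr, -omr, omr ^ 2, -omr ^ 2} : Set eis), IsUnit v := fun v hv =>
        (unit_list v).2 hv
      rw [← Sm_mul_left]
      refine Finset.sum_congr rfl fun t _ => ?_
      beta_reduce
      rw [hterm 1 (hu _ (by simp)), hterm (-1) (hu _ (by simp)), hterm omr (hu _ (by simp)),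
        hterm (-omr) (hu _ (by simp)), hterm (omr ^ 2) (hu _ (by simp)),
        hterm (-omr ^ 2) (hu _ (by simp))]
      push_cast
      rw [omr_coe]
      have h3 := om_cube
      have hs := om_sq
      set A := κ (1 + 3 * t) * EE eis Ω δ (pt Ω g t)
      have hj' : (j : ℕ) = 0 ∨ (j : ℕ) = 1 ∨ (j : ℕ) = 2 := by
        have h1 := j.2
        omega
      rcases hj' with h | h | h
      · have hj0 : j = 0 := Fin.ext h
        rw [if_pos hj0, h]
        ring
      · have hj0 : j ≠ 0 := fun h' => by rw [h'] at h; simp at h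
        rw [if_neg hj0, h]
        linear_combination (2 * A) * hs + (2 * om * A) * h3
      · have hj0 : j ≠ 0 := fun h' => by rw [h'] at h; simp at h
        rw [if_neg hj0, h]
        linear_combination (2 * A) * hs +
          (2 * om * A + 2 * A * (om ^ 5 + om ^ 2)) * h3
    · intro x y hxy
      rw [(ek_eo hκ j).per x y hxy]
      congr 1
      apply EE_per hC.lat
      have := (div_mem_iff hC.lat (lv_ne hg) (x - y)).2 hxy
      convert this using 1
      push_cast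
      ring
  have h1 := (lim_pt hC hκ).const_mul (if j = 0 then (6 : ℂ) else 0)
  have e1 : (if j = 0 then (6 : ℂ) else 0) * (-(1 / 3) * Rk L Ω g κ 0) = Ek L Ω g κ j := by
    unfold Ek
    split_ifs
    · ring
    · ring
  rw [e1] at h1
  exact h1.congr fun δ => (hsum δ).symm

/-- the function `HH` for the three characters together -/
theorem HH_tot [Fintype (eis ⧸ (sp (lv g) : Ideal eis))] (u : ℂ) :
    ∑ j : Fin 3, HH L Ω (lv g) (ek κ j) u = 3 * Rk L Ω g κ (℘[L] u) := by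
  have hg := hκ.gne
  have h1 : ∑ j : Fin 3, HH L Ω (lv g) (ek κ j) u = (1 / 2) *
      Sm (lv g) (fun y => (∑ j : Fin 3, ek κ j y) * Dd L (Ω * y / ((lv g : eis) : ℂ)) u) := by
    unfold HH
    rw [← Finset.mul_sum, Finset.sum_comm, Sm_eq]
    congr 1
    exact Finset.sum_congr rfl fun y _ => by rw [Finset.sum_mul]
  have hper : ∀ x y : eis, x - y ∈ (sp (lv g) : Ideal eis) →
      (∑ j : Fin 3, ek κ j x) * Dd L (Ω * x / ((lv g : eis) : ℂ)) u =
        (∑ j : Fin 3, ek κ j y) * Dd L (Ω * y / ((lv g : eis) : ℂ)) u := by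
    intro x y hxy
    rw [Finset.sum_congr rfl fun j _ => (ek_eo hκ j).per x y hxy]
    congr 1
    apply Pool.Agent.TH936.PU.Dd_per
    have := (hC.div_iff (lv_ne hg) (x - y)).2 hxy
    convert this using 1
    push_cast
    ring
  rw [h1, sum_lev hg (fun x hx => by
      rw [Finset.sum_eq_zero fun j _ => ek_ncop hκ j hx, zero_mul]) hper]
  have hterm : ∀ x : eis, IsUnit x → ∀ t : eis, (∑ j : Fin 3, ek κ j (x * (1 + 3 * t))) *
      Dd L (Ω * ((x * (1 + 3 * t) : eis) : ℂ) / ((lv g : eis) : ℂ)) u =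
      ((x : ℂ) + x ^ 3 + x ^ 5) * κ (1 + 3 * t) *
        ((((x : ℂ) ^ 3)⁻¹ * ℘'[L] (pt Ω g t)) / (((x : ℂ) ^ 2)⁻¹ * ℘[L] (pt Ω g t) - ℘[L] u)) := by
    intro x hx t
    have h2 : (∑ j : Fin 3, ek κ j (x * (1 + 3 * t))) = ((x : ℂ) + x ^ 3 + x ^ 5) *
        κ (1 + 3 * t) := by
      rw [Fin.sum_univ_three, ek_u hκ _ hx, ek_u hκ _ hx, ek_u hκ _ hx]
      norm_num
      ring
    rw [h2]
    congr 1
    unfold Dd
    have e : Ω * ((x * (1 + 3 * t) : eis) : ℂ) / ((lv g : eis) : ℂ) = x * pt Ω g t := by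
      unfold pt
      push_cast
      ring
    rw [e, wp_unit hC.lat hx, dwp_unit hC.lat hx]
  have hu : ∀ v ∈ ({1, -1, omr, -omr, omr ^ 2, -omr ^ 2} : Set eis), IsUnit v := fun v hv =>
    (unit_list v).2 hv
  unfold Rk
  rw [← Sm_mul_left, ← Sm_mul_left]
  refine Finset.sum_congr rfl fun t _ => ?_
  beta_reduce
  rw [hterm 1 (hu _ (by simp)), hterm (-1) (hu _ (by simp)), hterm omr (hu _ (by simp)),
    hterm (-omr) (hu _ (by simp)), hterm (omr ^ 2) (hu _ (by simp)),
    hterm (-omr ^ 2) (hu _ (by simp))]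
  have h3 := om_cube
  have hs := om_sq
  have z1 : om + om ^ 3 + om ^ 5 = 0 := by linear_combination hs + (1 + om ^ 2) * h3
  have z2 : om ^ 2 + (om ^ 2) ^ 3 + (om ^ 2) ^ 5 = 0 := by
    linear_combination hs + (om ^ 3 + 1 + om * (om ^ 6 + om ^ 3 + 1)) * h3
  push_cast
  rw [omr_coe]
  have z3 : -om + (-om) ^ 3 + (-om) ^ 5 = 0 := by linear_combination -z1
  have z4 : -om ^ 2 + (-om ^ 2) ^ 3 + (-om ^ 2) ^ 5 = 0 := by linear_combination -z2
  rw [z1, z2, z3, z4]
  norm_num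
  ring

end lim

end Pool.Agent.H91.Lev
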