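import Pool.Agent.H91.LKz

/-!
# The valuation of `|F(1)|²`
-/

set_option autoImplicit false
set_option linter.unusedVariables false
set_option linter.unusedSectionVars false

open scoped Classical

namespace Pool.Agent.H91.Sq

open Pool.Agent.Y692.QS (Ei w nr toC)
open Pool.Agent.Y715.T.Rec (cs)
open Pool.Agent.Y715.T.RecG (Pq)
open Pool.Agent.Y703.CT
open Pool.Agent.Y715.T.Cg (Cg z_pow)
open Pool.Agent.Y715.T.Three (lam lam_ne lam_lt lam_ne' lam_pos sq_three)
open Pool.Agent.Y696 (Cur)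
open Pool.Agent.H91.Kc (ex kc)
open Pool.Agent.H91.Cv (IsHK)
open Pool.Agent.H91.Sel (KerC)
open Pool.Agent.H91.Rt

variable {J : Type} [Fintype J] {π : J → Ei} {e : J → ZMod 3} {c : ZMod 3}

/-- the determinant and the kernel -/
theorem det_iff (hD : Dt π e) :
    W (am π (fun i => -e i)) (fun i => c * ex (nr (π i))) Finset.univ ≠ 0 ↔ KerC c π e := by
  rw [W_ne_iff]
  have hrec := Pool.Agent.Y350.CT.rec
  have key : ∀ (x : J → ZMod 3) (i : J),
      ∑ k, am π (fun i => -e i) i k * (x i - x k) + c * ex (nr (π i)) * x i =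
        -(∑ k, e k * cs (π i) (π k) * (x k - x i) - c * ex (nr (π i)) * x i) := by
    intro x i
    have h1 : ∑ k, am π (fun i => -e i) i k * (x i - x k) =
        -∑ k, e k * cs (π i) (π k) * (x k - x i) := by
      rw [← Finset.sum_neg_distrib]
      refine Finset.sum_congr rfl fun k _ => ?_
      by_cases hik : i = k
      · rw [hik, sub_self, mul_zero, mul_zero, neg_zero]
      · unfold am
        rw [hrec (π i) (π k) (hD.pq i) (hD.pq k) (hD.nd i k hik)]
        ring
    rw [h1]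
    ring
  unfold KerC
  constructor
  · intro h x hx
    exact h x fun i => by rw [key, hx, neg_zero]
  · intro h x hx
    exact h x fun i => by rw [← neg_eq_zero, ← key, hx]

/-- the valuation of `|F(1)|²` -/
theorem val_sq [Nonempty J] (hc : c ≠ 0) (hD : Dt π e) :
    ∃ F : ℂ → ℂ, IsHK (kc c) π (fun i => -e i) F ∧
      ∀ (Γ : Type) [LinearOrderedCommGroupWithZero Γ] (v : Valuation ℂ Γ), v 3 < 1 →
        ∀ (L : PeriodPair) (Ω : ℂ), Cur L Ω → ∃ g : Γ, g ≤ 1 ∧ (KerC c π e → g = 1) ∧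
          (¬ KerC c π e → g < 1) ∧
          v (F 1 * (starRingEnd ℂ) (F 1) / (Ω * (starRingEnd ℂ) Ω)) * (v lam * v lam) ^ 2 =
            (v lam * v lam) ^ (Fintype.card J) * g := by
  obtain ⟨F, hF, hval⟩ := Vl.val hc hD.neg
  have hdet := det_iff (c := c) hD
  set d : ZMod 3 := W (am π (fun i => -e i)) (fun i => c * ex (nr (π i))) Finset.univ with hd
  refine ⟨F, hF, ?_⟩
  intro Γ _ v hv L Ω hC
  have hv' : (v.comap (starRingEnd ℂ)) 3 < 1 := by
    rw [Valuation.comap_apply, map_ofNat]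
    exact hv
  obtain ⟨s, hs, h1⟩ := hval Γ v hv L Ω hC
  obtain ⟨s', hs', h1'⟩ := hval Γ (v.comap (starRingEnd ℂ)) hv' L Ω hC
  have h2 : (v.comap (starRingEnd ℂ)) lam = v lam := by
    rw [Valuation.comap_apply, conj_lam, v.map_neg]
  rw [h2] at h1'
  have h3 : (v.comap (starRingEnd ℂ)) ((starRingEnd ℂ) (F 1) / Ω) =
      v (F 1 / (starRingEnd ℂ) Ω) := by
    rw [Valuation.comap_apply, map_div₀ (starRingEnd ℂ), Complex.conj_conj]
  rw [h3] at h1'
  refine ⟨v s * (v.comap (starRingEnd ℂ)) s', ?_, fun hk => ?_, fun hk => ?_, ?_⟩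
  · exact mul_le_one' hs.le hs'.le
  · rw [hs.eq_one hv (hdet.2 hk), hs'.eq_one hv' (hdet.2 hk), one_mul]
  · have h0 : d = 0 := by
      by_contra h4
      exact hk (hdet.1 h4)
    rw [h0] at hs hs'
    exact mul_lt_one_of_lt_of_le hs.lt_one hs'.le
  · have e : F 1 * (starRingEnd ℂ) (F 1) / (Ω * (starRingEnd ℂ) Ω) =
        ((starRingEnd ℂ) (F 1) / Ω) * (F 1 / (starRingEnd ℂ) Ω) := by
      rw [div_mul_div_comm]
      ring
    rw [e, map_mul, mul_pow]
    calc _ = (v ((starRingEnd ℂ) (F 1) / Ω) * v lam ^ 2) * (v (F 1 / (starRingEnd ℂ) Ω) * v lam ^ 2) := by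
          simp only [pow_two]
          ac_rfl
      _ = _ := by
          rw [h1, h1', mul_pow]
          ac_rfl

end Pool.Agent.H91.Sq
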