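import Pool.Agent.H91.Sel3

/-!
# `E_D` and `E_{D a³}`
-/

set_option autoImplicit false
set_option linter.unusedVariables false

namespace Pool.Agent.H91.Tg

open NumberField IsDedekindDomain
open Pool.Agent.Q7.LK (IsPow)
open Pool.Agent.Q7.CE (AE Triv t_ELOC S_ELOC)
open Pool.Agent.Q283.EN (PC HasN t_CPT t_ECX isPow_inv isPow_mul hasN_uniq hasN_pig pc_ne ae_one)

variable {K : Type} [Field K] [NumberField K]

lemma ae_cube {v : HeightOneSpectrum (𝓞 K)} {D b a : K} (hb : b ≠ 0) (h : AE v D a) :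
    AE v (D * b ^ 3) a := by
  obtain ⟨ha, u, w, s, hne, he⟩ := h
  have hb' : (b : v.adicCompletion K) ≠ 0 := by
    intro h
    apply hb
    have := (algebraMap K (v.adicCompletion K)).injective (a₁ := b) (a₂ := 0)
      (by rw [map_zero]; exact h)
    exact this
  refine ⟨ha, u, w, s / (b : v.adicCompletion K), ?_, ?_⟩
  · rcases hne with h | h | h
    · exact Or.inl h
    · exact Or.inr (Or.inl h)
    · exact Or.inr (Or.inr (div_ne_zero h hb'))
  · have h1 : ((D * b ^ 3 : K) : v.adicCompletion K) =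
        (D : v.adicCompletion K) * (b : v.adicCompletion K) ^ 3 := by
      have := map_mul (algebraMap K (v.adicCompletion K)) D (b ^ 3)
      rw [map_pow] at this
      exact this
    rw [he, h1, div_pow]
    field_simp

lemma pc_cube {D b a : K} (hb : b ≠ 0) : PC (D * b ^ 3) a ↔ PC D a := by
  constructor
  · intro h v
    have h1 := ae_cube (inv_ne_zero hb) (h v)
    have h2 : D * b ^ 3 * b⁻¹ ^ 3 = D := by
      field_simp
    rwa [h2] at h1
  · intro h v
    exact ae_cube hb (h v)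

/-- the property `Triv` depends on `D` up to cubes only -/
theorem triv_cube {ω D b : K} (hω : IsPrimitiveRoot ω 3) (hD : D ≠ 0) (hnc : ¬ IsPow 3 D)
    (hb : b ≠ 0) : Triv (D * b ^ 3) ↔ Triv D := by
  have hD' : D * b ^ 3 ≠ 0 := mul_ne_zero hD (pow_ne_zero _ hb)
  have hnc' : ¬ IsPow 3 (D * b ^ 3) := by
    rintro ⟨x, hx⟩
    apply hnc
    refine ⟨x / b, ?_⟩
    rw [div_pow, ← hx]
    field_simp
  obtain ⟨r, hr, -, -, h4⟩ := t_CPT K ω D hω hD hnc
  obtain ⟨r', hr', -, -, h4'⟩ := t_CPT K ω (D * b ^ 3) hω hD' hnc'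
  have h5 : (PC (D * b ^ 3) : K → Prop) = PC D := by
    funext a
    exact propext (pc_cube hb)
  rw [h5] at hr'
  have h6 := hasN_uniq (fun a h => pc_ne h) hr hr'
  have h7 : r + 1 = r' + 1 := Nat.pow_right_injective (le_refl 2 |>.trans (by norm_num)) h6
  have h8 : r = r' := by omega
  rw [h4, h4', h8]

theorem triv_neg {ω D : K} (hω : IsPrimitiveRoot ω 3) (hD : D ≠ 0) (hnc : ¬ IsPow 3 D) :
    Triv (-D) ↔ Triv D := by
  have h := triv_cube hω hD hnc (b := -1) (by norm_num)
  have e : D * (-1) ^ 3 = -D := by ring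
  rwa [e] at h

end Pool.Agent.H91.Tg
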