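import Pool.Agent.H91.Tamz
import Pool.Agent.H91.Sq
import Pool.Agent.H91.LKz
import Pool.Agent.H91.Tg
import Pool.Graph.R_seed8.Y696.CTK.Fin

/-!
# The `3`-part of the leading-term formula for `y² + D y = x³` over `ℚ(ω)`, `D = ω^c ∏ π^e`
-/

set_option autoImplicit false
set_option linter.unusedSectionVars false
set_option linter.unusedVariables false

open scoped Classical

namespace Pool.Agent.H91.Lw

open NumberField IsDedekindDomain WeierstrassCurve WithZero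
open Pool.Agent.Y692.QS (Ei w toC)
open Pool.Agent.Y715.T.RecG (Pq)
open Pool.Agent.Y703.CT
open Pool.Agent.Y696 (NonsingRed Cur)
open Pool.Agent.Y715.T.Gi Pool.Agent.Y715.T.Nr Pool.Agent.Y715.T.Df Pool.Agent.Y715.T.Ell
open Pool.Agent.TH841.NF.D (Sha)
open Pool.Agent.Y715.T.Three (lam_ne sq_three)
open Pool.Agent.Y696.CTK
open Pool.Agent.H91.Sel (dD dD_eq dD_ne KerC triv_iff jK jK_ne vl_mo vl_cube w_not prim_w)
open Pool.Agent.H91.LKz (Pm)
open Pool.Agent.Q7.LK (IsPow)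

lemma pm_ne {J : Type} [Fintype J] {π : J → Ei} {e : J → ZMod 3} {c : ZMod 3} (hD : Dt π e)
    {D : Ei} (hpm : Pm (dD c π e) D) : D ≠ 0 := by
  rcases hpm with h | h <;> rw [h]
  · exact dD_ne hD
  · exact neg_ne_zero.2 (dD_ne hD)

section ane

variable {i₀ : QB} {hi : i₀ ^ 2 + i₀ + 1 = 0} {c : ZMod 3}

/-- `D` is not a cube -/
lemma a_ne2 {J : Type} [Fintype J] [Nonempty J] {π : J → Ei} {e : J → ZMod 3} (hD : Dt π e)
    {D : Ei} (hpm : Pm (dD c π e) D)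
    {u : QB} {a : GK i₀ → ZMod 3} (hT : Tw hi D u a) : ∃ σ, a σ ≠ 0 := by
  by_contra hcon
  push Not at hcon
  have hne : D ≠ 0 := pm_ne hD hpm
  obtain ⟨j⟩ := (inferInstance : Nonempty J)
  have hb : Kc hi D (fun σ => -a σ) :=
    kc_of hi (Pool.Agent.Y715.T.Sel.root_ne (hi := hi) hne hT.cube) hT.cube hT.act
  obtain ⟨p, hp, ι, hl⟩ := exists_emb hi (hD.pq j).prime
  have hp3 := Pool.Agent.Y715.T.Sel.odd_of hi ι (hD.pq j).prime hl
    (Pool.Agent.Y48.CT.SEL.not_assoc_lam (hD.pq j))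
  have hcf0 : CF (pD π e) := Pool.Agent.Y48.CT.SEL.cf_prod hD e
  have hwu : IsUnit (w ^ c.val) := by
    refine IsUnit.pow _ ?_
    rw [Pool.Agent.Y692.QS.isUnit_iff]
    decide
  have hcf : CF D := by
    refine ⟨hne, fun d hd => hcf0.2 d ?_⟩
    have hd' : d ^ 3 ∣ dD c π e := by
      rcases hpm with h | h <;> rw [h] at hd
      · exact hd
      · exact (dvd_neg).1 hd
    unfold dD at hd'
    exact (hwu.dvd_mul_left).1 hd'
  refine Pool.Agent.Y715.T.Sel.not_dvd_of_unr hcf hb hp3 ι (hD.pq j).prime hl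
    (fun τ σ _ _ => by rw [hcon σ, neg_zero]) ?_
  rw [hpm.dvd]
  unfold dD pD
  refine Dvd.dvd.mul_left ?_ _
  refine (dvd_pow_self (π j) ?_).trans (Finset.dvd_prod_of_mem _ (Finset.mem_univ j))
  rw [Ne, ZMod.val_eq_zero]
  exact hD.e0 j

end ane

section
variable {K : Type} [Field K] [NumberField K] (j : Ei ≃+* 𝓞 K)
variable {J : Type} [Fintype J] [Nonempty J] {π : J → Ei} {e : J → ZMod 3} {c : ZMod 3}

lemma nc_D (hD : Dt π e) : ¬ IsPow 3 (jK j (dD c π e)) := by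
  intro h1
  have hDK : jK j (dD c π e) ≠ 0 := jK_ne j (dD_ne hD)
  obtain ⟨i⟩ := (inferInstance : Nonempty J)
  refine hD.e0 i ?_
  rw [← vl_mo j hD i c e]
  rw [dD_eq] at h1
  obtain ⟨r, hr⟩ := h1
  rw [hr]
  apply vl_cube
  rintro rfl
  rw [zero_pow (by norm_num)] at hr
  exact hDK hr

theorem tri_iff2 (hc : c ≠ 0) (hD : Dt π e) {D : Ei} (hpm : Pm (dD c π e) D) :
    Tri (j D) ↔ KerC c π e := by
  rw [← triv_iff j hc hD]
  rcases hpm with h | h
  · rw [h]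
    exact Iff.rfl
  · rw [h]
    have h1 := Tg.triv_neg (prim_w j) (jK_ne j (dD_ne hD)) (nc_D j (c := c) hD)
    have h2 : ((j (-dD c π e) : 𝓞 K) : K) = -jK j (dD c π e) := by
      rw [map_neg]
      rfl
    rw [← h1, ← h2]
    exact Iff.rfl

lemma v_D {Γ : Type} [LinearOrderedCommGroupWithZero Γ] (v : Valuation ℂ Γ) (hv : v 3 < 1)
    (τ : Ei →+* ℂ) (hD : Dt π e) {D : Ei} (hpm : Pm (dD c π e) D) : v (τ D) = 1 := by
  have hw : v (τ w) = 1 := by
    refine Pool.Agent.Y715.T.Cg.z_pow (k := 3) (by norm_num) ?_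
    rw [← map_pow]
    have : (w : Ei) ^ 3 = 1 := by decide
    rw [this, map_one]
  have h0 : v (τ D) = v (τ (dD c π e)) := by
    rcases hpm with h | h <;> rw [h]
    rw [map_neg, Valuation.map_neg]
  rw [h0]
  unfold dD pD
  rw [map_mul, map_mul, map_pow, map_pow, hw, one_pow, one_mul, map_prod, map_prod]
  refine Finset.prod_eq_one fun i _ => ?_
  rw [map_pow, map_pow, v_emb_unit v hv τ (hD.pq i).three, one_pow]

/-- the law for one `D` -/
theorem law_of2 (hdisc : discr K = -3) (hc : c ≠ 0) (hD : Dt π e) {D : Ei}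
    (hpm : Pm (dD c π e) D) : Law3 (j D) := by
  have P := parts
  have hne : D ≠ 0 := pm_ne hD hpm
  have htri := tri_iff2 j hc hD hpm
  obtain ⟨e', i₀, hi, u₀, a, Ψ, g₀, hdata⟩ := P.trf K j _ hne
  obtain ⟨ht1, ht2⟩ := P.tor K j _ hne e' i₀ hi u₀ a Ψ g₀ hdata (a_ne2 hD hpm hdata.1)
  obtain ⟨F, hF, hval⟩ := Pool.Agent.H91.Sq.val_sq hc hD
  obtain ⟨t, ht, hm⟩ := Pool.Agent.H91.Tamz.tam2 j hc hD hpm
  set N := tors (j D) with hN
  have ht2' : padicValNat 3 N = 1 := ht2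
  have hN0 : N ≠ 0 := by
    intro h
    rw [h] at ht2'
    simp at ht2'
  obtain ⟨n', hn'⟩ : 3 ∣ N := by
    have := pow_padicValNat_dvd (p := 3) (n := N)
    rwa [ht2', pow_one] at this
  have hp3 : Fact (Nat.Prime 3) := ⟨Nat.prime_three⟩
  have hn3 : ¬ 3 ∣ n' := by
    rintro ⟨t, rfl⟩
    have h2 : 3 ^ 2 ∣ N := ⟨t, by rw [hn']; ring⟩
    have := (padicValNat_dvd_iff_le hN0).1 h2
    omega
  refine ⟨ht1, ht2, fun s => F s * (starRingEnd ℂ) (F ((starRingEnd ℂ) s)), t, diff_conj hF.1,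
    fun s hs => Pool.Agent.H91.LKz.lk K j hD hpm hF hs, ?_, ht, fun σ => ?_⟩
  · intro hT
    obtain ⟨V, hV⟩ := Pool.Agent.Y715.T.Fin.exists_over_three
    obtain ⟨Ω, hΩ, hC⟩ := Pool.Agent.Y696.exists_cur
    obtain ⟨g, -, hg2, -, hg⟩ := hval V.ValueGroup V.valuation hV _ Ω hC
    rw [hg2 (htri.1 hT), mul_one] at hg
    have hl : V.valuation Pool.Agent.Y715.T.Three.lam ≠ 0 := lam_ne
    intro h0
    have h0' : F 1 * (starRingEnd ℂ) (F 1) = 0 := by
      have : F 1 * (starRingEnd ℂ) (F ((starRingEnd ℂ) 1)) = 0 := h0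
      rwa [map_one] at this
    rw [h0', zero_div, map_zero, zero_mul] at hg
    exact pow_ne_zero _ (mul_ne_zero hl hl) hg.symm
  set τ : Ei →+* ℂ := σ.comp ((algebraMap (𝓞 K) K).comp (j : Ei →+* 𝓞 K)) with hτ
  have hτa : ∀ z, τ z = σ (j z : K) := fun z => rfl
  set d : ℂ := σ (j D : K) with hd
  have hd0 : d ≠ 0 := by
    rw [hd, ← hτa]
    intro h
    apply hne
    apply j.injective
    rw [map_zero]
    have h1 : ((j D : 𝓞 K) : K) = 0 := (map_eq_zero σ).1 h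
    exact_mod_cast h1
  obtain ⟨u, hu⟩ := IsAlgClosed.exists_pow_nat_eq d (n := 3) (by norm_num)
  obtain ⟨hex, hall⟩ := PER d u hd0 hu
  refine ⟨hex, fun Λ k2 k3 => ?_⟩
  obtain ⟨L, Ω, hC, hA⟩ := hall Λ k2 k3
  have hΩ : Ω ≠ 0 := hC.lat.ne
  have hu0 : u ≠ 0 := by
    rintro rfl
    apply hd0
    rw [← hu]
    ring
  have hΩc : (starRingEnd ℂ) Ω ≠ 0 := (map_ne_zero _).2 hΩ
  have huc : (starRingEnd ℂ) u ≠ 0 := (map_ne_zero _).2 hu0
  have hNC : (N : ℂ) ≠ 0 := by exact_mod_cast hN0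
  have hs3 : ((Real.sqrt 3 : ℝ) : ℂ) ≠ 0 := by
    rw [Ne, Complex.ofReal_eq_zero]
    positivity
  have hA' : (((2 * |((starRingEnd ℂ) Λ.ω₁ * Λ.ω₂).im| : ℝ)) : ℂ) =
      ((Real.sqrt 3 : ℝ) : ℂ) * (Ω * (starRingEnd ℂ) Ω) / (u * (starRingEnd ℂ) u) := by
    rw [hA, Complex.mul_conj, Complex.mul_conj, Complex.normSq_eq_norm_sq,
      Complex.normSq_eq_norm_sq]
    push_cast
    ring
  have hdis : ((Real.sqrt |(discr K : ℝ)| : ℝ) : ℂ) = ((Real.sqrt 3 : ℝ) : ℂ) := by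
    rw [hdisc]
    norm_num
  refine ⟨F 1 * (starRingEnd ℂ) (F 1) / (Ω * (starRingEnd ℂ) Ω) * (u * (starRingEnd ℂ) u) *
    (N : ℂ) ^ 2 / (3 ^ Fintype.card J), ?_, ?_⟩
  · rw [hA', hdis, hm, ← hN]
    push_cast
    rw [map_one]
    field_simp
  · intro Γ _ v hv
    obtain ⟨g, hg1, hg2, hg3, hg⟩ := hval Γ v hv L Ω hC
    have hvN : v (N : ℂ) = v 3 := by
      rw [hn']
      push_cast
      rw [map_mul, v_natp hv hn3, mul_one]
    have hvu : v u = 1 := by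
      apply v_cube
      rw [hu, hd, ← hτa]
      exact v_D v hv τ hD hpm
    have hvu' : v ((starRingEnd ℂ) u) = 1 := by
      apply v_cube
      rw [← map_pow, hu, hd, ← hτa]
      exact v_D v hv ((starRingEnd ℂ).comp τ) hD hpm
    have hl : v Pool.Agent.Y715.T.Three.lam ≠ 0 := lam_ne
    have hv3 : v 3 ≠ 0 := by
      rw [← sq_three]
      exact mul_ne_zero hl hl
    have key : v (F 1 * (starRingEnd ℂ) (F 1) / (Ω * (starRingEnd ℂ) Ω) *
        (u * (starRingEnd ℂ) u) * (N : ℂ) ^ 2 / (3 ^ Fintype.card J)) = g := by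
      rw [sq_three] at hg
      rw [map_div₀, map_mul, map_mul, map_mul v u, map_pow, map_pow, hvN, hvu, hvu', mul_one,
        mul_one]
      rw [div_eq_iff (pow_ne_zero _ hv3), hg]
      ac_rfl
    rw [key]
    refine ⟨hg1, ?_⟩
    rw [htri]
    constructor
    · intro h
      by_contra hk
      exact absurd h (hg3 hk).ne
    · exact hg2

end

end Pool.Agent.H91.Lw
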