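import Pool.Graph.R_pool_sql_team_seeded_3997aac3.Q283.EN.All
import Pool.Graph.R_seed8.Y350.CTK.Tam
import Pool.Agent.H91.Kc

/-!
# The `√-3`-Selmer group of `y² + D y = x³` over `ℚ(ω)`, `D` prime to three and different from `± 1`
modulo three
-/

set_option autoImplicit false
set_option linter.unusedSectionVars false
set_option linter.unusedVariables false

open scoped Classical

namespace Pool.Agent.H91.Sel

open NumberField IsDedekindDomain WithZero
open Pool.Agent.Y692.QS (Ei w nr)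
open Pool.Agent.Y715.T.Rec (cs nn)
open Pool.Agent.Y715.T.RecG (Pq cs_of cs_spec cs_mul cs_pow cs_one cs_prod cs_uniq)
open Pool.Agent.Y703.CT
open Pool.Agent.Y350.CTK.Tam
open Pool.Agent.Q7.LK (vl Lpw sy Sy IsPow Dp t_BAS t_CPL S_BAS S_CPL)
open Pool.Agent.Q7.CE (AE Triv t_ELOC S_ELOC)
open Pool.Agent.Q283.EN (PC HasN t_CPT t_ECX isPow_inv isPow_mul hasN_uniq hasN_pig pc_ne ae_one)
open Pool.Agent.H91.Kc (ex)

/-! ### valuations -/

section val

variable {K : Type} [Field K] [NumberField K] (j : Ei ≃+* 𝓞 K)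

lemma fin_mult {p α : Ei} (hp : Prime p) (hα : α ≠ 0) : FiniteMultiplicity p α :=
  FiniteMultiplicity.of_prime_left hp hα

lemma val_mult {p α : Ei} (hp : Prime p) (hα : α ≠ 0) :
    (pl j hp).intValuation (j α) = exp (-(multiplicity p α : ℤ)) := by
  obtain ⟨β, hβ, hn⟩ := (fin_mult hp hα).exists_eq_pow_mul_and_not_dvd
  have h1 : (pl j hp).intValuation (j β) = 1 := by
    rw [HeightOneSpectrum.intValuation_eq_one_iff, mem_pl]
    exact hn
  have h2 : j α = j p ^ multiplicity p α * j β := by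
    rw [← map_pow, ← map_mul, ← hβ]
  rw [h2, map_mul, map_pow, pl_val, h1, mul_one, ← exp_nsmul]
  congr 1
  rw [nsmul_eq_mul]
  ring

lemma valK {v : HeightOneSpectrum (𝓞 K)} (x : 𝓞 K) : v.valuation K (x : K) = v.intValuation x :=
  HeightOneSpectrum.valuation_of_algebraMap v x

lemma vl_mult {p α : Ei} (hp : Prime p) (hα : α ≠ 0) :
    vl 3 (pl j hp) ((j α : 𝓞 K) : K) = (multiplicity p α : ZMod 3) := by
  unfold vl
  rw [valK, val_mult j hp hα, log_exp]
  push_cast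
  ring

lemma ex_pl (v : HeightOneSpectrum (𝓞 K)) : ∃ (p : Ei) (hp : Prime p), v = pl j hp := by
  have hpid : (v.asIdeal.comap (j : Ei →+* 𝓞 K)).IsPrincipal := inferInstance
  set I : Ideal Ei := v.asIdeal.comap (j : Ei →+* 𝓞 K) with hI
  have hp1 : I.IsPrime := Ideal.IsPrime.comap _
  obtain ⟨p, hp⟩ := hpid.principal
  have hp' : I = Ideal.span {p} := hp
  have hne : p ≠ 0 := by
    rintro rfl
    apply v.ne_bot
    rw [eq_bot_iff]
    intro x hx
    obtain ⟨y, rfl⟩ := j.surjective x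
    have h1 : y ∈ I := hx
    rw [hp', Ideal.mem_span_singleton, zero_dvd_iff] at h1
    rw [h1, map_zero]
    exact Submodule.zero_mem _
  have hpr : Prime p := by
    rw [← Ideal.span_singleton_prime hne, ← hp']
    exact hp1
  refine ⟨p, hpr, eq_pl j hpr ?_⟩
  have h1 : p ∈ I := by
    rw [hp', Ideal.mem_span_singleton]
  exact h1

/-- integral representatives -/
lemma ex_int (a : K) (ha : a ≠ 0) : ∃ α β : Ei, α ≠ 0 ∧ β ≠ 0 ∧
    a * ((j β : 𝓞 K) : K) ^ 3 = ((j α : 𝓞 K) : K) := by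
  obtain ⟨x, y, hy, rfl⟩ := IsFractionRing.div_surjective (A := 𝓞 K) a
  have hy0 : y ≠ 0 := nonZeroDivisors.ne_zero hy
  obtain ⟨α, rfl⟩ := j.surjective x
  obtain ⟨β, rfl⟩ := j.surjective y
  have hα : α ≠ 0 := by
    rintro rfl
    apply ha
    rw [map_zero, map_zero, zero_div]
  have hβ : β ≠ 0 := by
    rintro rfl
    rw [map_zero] at hy0
    exact hy0 rfl
  have hyK : algebraMap (𝓞 K) K (j β) ≠ 0 := by
    intro h
    apply hy0
    exact RingOfIntegers.ext h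
  refine ⟨α * β ^ 2, β, mul_ne_zero hα (pow_ne_zero _ hβ), hβ, ?_⟩
  show algebraMap (𝓞 K) K (j α) / algebraMap (𝓞 K) K (j β) * algebraMap (𝓞 K) K (j β) ^ 3 =
    algebraMap (𝓞 K) K (j (α * β ^ 2))
  rw [map_mul, map_pow, map_mul, map_pow]
  field_simp

lemma jne {α : Ei} (hα : α ≠ 0) : ((j α : 𝓞 K) : K) ≠ 0 := by
  intro h
  apply hα
  apply j.injective
  rw [map_zero]
  exact RingOfIntegers.ext h

end val

/-! ### the factorization -/

lemma unit_cases {u : Ei} (hu : IsUnit u) : ∃ (b : ZMod 3) (γ : Ei), IsUnit γ ∧ u = w ^ b.val * γ ^ 3 := by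
  rw [Pool.Agent.Y692.QS.isUnit_iff] at hu
  have h1 : u.re ^ 2 - u.re * u.im + u.im ^ 2 = 1 := hu
  have hb : -1 ≤ u.im ∧ u.im ≤ 1 := by
    constructor <;> nlinarith [sq_nonneg (2 * u.re - u.im)]
  have ha : -1 ≤ u.re ∧ u.re ≤ 1 := by
    constructor <;> nlinarith [sq_nonneg (2 * u.im - u.re)]
  have hre : u.re = -1 ∨ u.re = 0 ∨ u.re = 1 := by omega
  have him : u.im = -1 ∨ u.im = 0 ∨ u.im = 1 := by omega
  have key : ∀ v : Ei, (v.re = -1 ∨ v.re = 0 ∨ v.re = 1) → (v.im = -1 ∨ v.im = 0 ∨ v.im = 1) →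
      nr v = 1 → v = 1 ∨ v = -1 ∨ v = w ∨ v = -w ∨ v = w ^ 2 ∨ v = -w ^ 2 := by
    rintro ⟨x, y⟩ hx hy hv
    simp only at hx hy
    rcases hx with rfl | rfl | rfl <;> rcases hy with rfl | rfl | rfl <;>
      first
        | exact absurd hv (by decide)
        | (revert hv; decide)
  rcases key u hre him hu with rfl | rfl | rfl | rfl | rfl | rfl
  · exact ⟨0, 1, isUnit_one, by decide⟩
  · exact ⟨0, -1, isUnit_one.neg, by decide⟩
  · exact ⟨1, 1, isUnit_one, by decide⟩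
  · exact ⟨1, -1, isUnit_one.neg, by decide⟩
  · exact ⟨2, 1, isUnit_one, by decide⟩
  · exact ⟨2, -1, isUnit_one.neg, by decide⟩

variable {J : Type} [Fintype J] {π : J → Ei} {e : J → ZMod 3} {c : ZMod 3}

/-- the representatives of the classes -/
def mo (π : J → Ei) (b : ZMod 3) (y : J → ZMod 3) : Ei := w ^ b.val * ∏ i, π i ^ (y i).val

lemma pow_val_add (x : Ei) (a b : ZMod 3) : ∃ k : ℕ, x ^ a.val * x ^ b.val = x ^ (a + b).val * (x ^ k) ^ 3 := by
  have h : ∀ a b : ZMod 3, a.val + b.val = (a + b).val ∨ a.val + b.val = (a + b).val + 3 := by decide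
  rcases h a b with h1 | h1
  · exact ⟨0, by rw [← pow_add, h1, pow_zero, one_pow, mul_one]⟩
  · exact ⟨1, by rw [← pow_add, h1, pow_one, pow_add]⟩

lemma mo_mul (hπ : ∀ i, π i ≠ 0) (a b : ZMod 3) (y z : J → ZMod 3) :
    ∃ γ : Ei, γ ≠ 0 ∧ mo π a y * mo π b z = mo π (a + b) (y + z) * γ ^ 3 := by
  obtain ⟨k0, hk0⟩ := pow_val_add w a b
  choose k hk using fun i => pow_val_add (π i) (y i) (z i)
  have hw0 : (w : Ei) ≠ 0 := by decide
  refine ⟨w ^ k0 * ∏ i, π i ^ k i, mul_ne_zero (pow_ne_zero _ hw0)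
    (Finset.prod_ne_zero_iff.2 fun i _ => pow_ne_zero _ (hπ i)), ?_⟩
  unfold mo
  have h1 : (∏ i, π i ^ (y i).val) * ∏ i, π i ^ (z i).val =
      (∏ i, π i ^ ((y + z) i).val) * (∏ i, π i ^ k i) ^ 3 := by
    rw [← Finset.prod_mul_distrib, ← Finset.prod_pow, ← Finset.prod_mul_distrib]
    exact Finset.prod_congr rfl fun i _ => by rw [hk, Pi.add_apply]
  calc _ = (w ^ a.val * w ^ b.val) * ((∏ i, π i ^ (y i).val) * ∏ i, π i ^ (z i).val) := by ring
    _ = _ := by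
      rw [hk0, h1]
      ring

lemma mo_pow (hπ : ∀ i, π i ≠ 0) (a : ZMod 3) (y : J → ZMod 3) (n : ℕ) :
    ∃ γ : Ei, γ ≠ 0 ∧ mo π a y ^ n = mo π (n * a) (fun i => n * y i) * γ ^ 3 := by
  induction n with
  | zero =>
    refine ⟨1, one_ne_zero, ?_⟩
    unfold mo
    simp
  | succ n ih =>
    obtain ⟨γ, hγ, h1⟩ := ih
    obtain ⟨δ, hδ, h2⟩ := mo_mul hπ (n * a) a (fun i => n * y i) y
    refine ⟨δ * γ, mul_ne_zero hδ hγ, ?_⟩
    have e1 : (((n + 1 : ℕ) : ZMod 3)) * a = n * a + a := by push_cast; ring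
    have e2 : (fun i => (((n + 1 : ℕ) : ZMod 3)) * y i) = (fun i => n * y i) + y := by
      funext i
      rw [Pi.add_apply]
      push_cast
      ring
    rw [pow_succ, h1, e1, e2]
    calc _ = (mo π (↑n * a) (fun i => ↑n * y i) * mo π a y) * γ ^ 3 := by ring
      _ = _ := by
        rw [h2]
        ring

lemma mo_ne (hπ : ∀ i, π i ≠ 0) (b : ZMod 3) (y : J → ZMod 3) : mo π b y ≠ 0 := by
  unfold mo
  exact mul_ne_zero (pow_ne_zero _ (by decide))
    (Finset.prod_ne_zero_iff.2 fun i _ => pow_ne_zero _ (hπ i))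

/-- the factorization -/
lemma fact (hπ : ∀ i, Prime (π i)) : ∀ (n : ℕ) (α : Ei), α ≠ 0 → (nr α).natAbs ≤ n →
    (∀ p, Prime p → (∀ i, ¬ Associated p (π i)) → 3 ∣ multiplicity p α) →
    ∃ (b : ZMod 3) (y : J → ZMod 3) (γ δ : Ei), γ ≠ 0 ∧ δ ≠ 0 ∧ α * γ ^ 3 = mo π b y * δ ^ 3 := by
  intro n
  induction n using Nat.strong_induction_on with
  | _ n ih =>
  intro α hα hn hp
  have hπ0 : ∀ i, π i ≠ 0 := fun i => (hπ i).ne_zero
  by_cases hu : IsUnit α
  · obtain ⟨b, γ, hγ, h1⟩ := unit_cases hu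
    refine ⟨b, 0, 1, γ, one_ne_zero, hγ.ne_zero, ?_⟩
    unfold mo
    simp only [Pi.zero_apply, ZMod.val_zero, pow_zero, Finset.prod_const_one, mul_one, one_pow]
    exact h1
  obtain ⟨p, hpi, hpd⟩ := WfDvdMonoid.exists_irreducible_factor hu hα
  have hpp := hpi.prime
  have hlt : ∀ {β δ : Ei}, α = δ * β → ¬ IsUnit δ → β ≠ 0 ∧ (nr β).natAbs < (nr α).natAbs := by
    intro β δ h1 h2
    have hδ : δ ≠ 0 := by
      rintro rfl
      exact hα (by rw [h1, zero_mul])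
    have hβ : β ≠ 0 := by
      rintro rfl
      exact hα (by rw [h1, mul_zero])
    refine ⟨hβ, ?_⟩
    rw [h1, Pool.Agent.Y692.QS.nr_mul, Int.natAbs_mul]
    have h3 := Pool.Agent.Y692.QS.nr_nonneg δ
    have h4 := Pool.Agent.Y692.QS.nr_nonneg β
    have h5 : nr δ ≠ 0 := fun h => hδ (Pool.Agent.Y692.QS.nr_zero_iff.1 h)
    have h6 : nr β ≠ 0 := fun h => hβ (Pool.Agent.Y692.QS.nr_zero_iff.1 h)
    have h7 : nr δ ≠ 1 := fun h => h2 (Pool.Agent.Y692.QS.isUnit_iff.2 h)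
    have h8 : 2 ≤ (nr δ).natAbs := by omega
    have h9 : 1 ≤ (nr β).natAbs := by omega
    nlinarith
  by_cases hpπ : ∃ i, Associated p (π i)
  · obtain ⟨i, hi⟩ := hpπ
    obtain ⟨β, hβ⟩ : π i ∣ α := hi.symm.dvd.trans hpd
    obtain ⟨hβ0, hβn⟩ := hlt hβ (hπ i).not_isUnit
    have hβp : ∀ q, Prime q → (∀ i, ¬ Associated q (π i)) → 3 ∣ multiplicity q β := by
      intro q hq hqπ
      have h1 := hp q hq hqπ
      have h2 : ¬ q ∣ π i := by
        intro h
        exact hqπ i (hq.associated_of_dvd (hπ i) h)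
      have h3 : multiplicity q (π i) = 0 := multiplicity_eq_zero.2 h2
      rw [hβ, multiplicity_mul hq (by rw [← hβ]; exact fin_mult hq hα), h3, zero_add] at h1
      exact h1
    obtain ⟨b, y, γ, δ, hγ, hδ, h1⟩ := ih (nr β).natAbs (lt_of_lt_of_le hβn hn) β hβ0 le_rfl hβp
    obtain ⟨ε, hε, h2⟩ := mo_mul hπ0 0 b (Pi.single i 1) y
    have h3 : mo π 0 (Pi.single i 1) = π i := by
      unfold mo
      rw [ZMod.val_zero, pow_zero, one_mul, Finset.prod_eq_single i]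
      · rw [Pi.single_eq_same]
        have : (1 : ZMod 3).val = 1 := by decide
        rw [this, pow_one]
      · intro k _ hk
        rw [Pi.single_eq_of_ne hk, ZMod.val_zero, pow_zero]
      · intro h
        exact absurd (Finset.mem_univ _) h
    refine ⟨0 + b, Pi.single i 1 + y, γ, ε * δ, hγ, mul_ne_zero hε hδ, ?_⟩
    rw [h3] at h2
    calc α * γ ^ 3 = π i * (β * γ ^ 3) := by rw [hβ]; ring
      _ = (π i * mo π b y) * δ ^ 3 := by rw [h1]; ring
      _ = _ := by rw [h2]; ring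
  · push Not at hpπ
    have h1 := hp p hpp hpπ
    have h2 : multiplicity p α ≠ 0 := by
      intro h
      exact multiplicity_eq_zero.1 h hpd
    have h3 : 3 ≤ multiplicity p α := Nat.le_of_dvd (Nat.pos_of_ne_zero h2) h1
    obtain ⟨β, hβ⟩ : p ^ 3 ∣ α := pow_dvd_of_le_multiplicity h3
    have hnu : ¬ IsUnit (p ^ 3) := fun h => hpp.not_isUnit ((isUnit_pow_iff (by norm_num)).1 h)
    obtain ⟨hβ0, hβn⟩ := hlt hβ hnu
    have hβp : ∀ q, Prime q → (∀ i, ¬ Associated q (π i)) → 3 ∣ multiplicity q β := by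
      intro q hq hqπ
      have h5 := hp q hq hqπ
      rw [hβ, multiplicity_mul hq (by rw [← hβ]; exact fin_mult hq hα),
        (fin_mult hq hpp.ne_zero).multiplicity_pow hq] at h5
      omega
    obtain ⟨b, y, γ, δ, hγ, hδ, h4⟩ := ih (nr β).natAbs (lt_of_lt_of_le hβn hn) β hβ0 le_rfl hβp
    refine ⟨b, y, γ, p * δ, hγ, mul_ne_zero hpp.ne_zero hδ, ?_⟩
    calc α * γ ^ 3 = p ^ 3 * (β * γ ^ 3) := by rw [hβ]; ring
      _ = _ := by rw [h4]; ring

end Pool.Agent.H91.Sel
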