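import Pool.Agent.H91.Sel
import Pool.Agent.H91.Rt
import Pool.Graph.R_seed8.Y696.CTK.Asm

/-!
# The `√-3`-Selmer group of `y² + D y = x³` over `ℚ(ω)`: the criterion
-/

set_option autoImplicit false
set_option linter.unusedSectionVars false
set_option linter.unusedVariables false

open scoped Classical

namespace Pool.Agent.H91.Sel

open NumberField IsDedekindDomain WithZero
open Pool.Agent.Y692.QS (Ei w nr)
open Pool.Agent.Y715.T.Rec (cs nn)
open Pool.Agent.Y715.T.RecG (Pq cs_of cs_spec cs_mul cs_pow cs_one cs_prod cs_uniq)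
open Pool.Agent.Y703.CT
open Pool.Agent.Y350.CTK.Tam
open Pool.Agent.Q7.LK (vl Lpw sy Sy IsPow Dp t_BAS t_CPL S_BAS S_CPL)
open Pool.Agent.Q7.CE (AE Triv t_ELOC S_ELOC)
open Pool.Agent.Q283.EN (PC HasN t_CPT t_ECX isPow_inv isPow_mul hasN_uniq hasN_pig pc_ne ae_one
  not_bad)
open Pool.Agent.Q285.LK (cpl_coe)
open Pool.Agent.Q285.CE (rr rr_mul rr_pow3 rr_neg rr_coe max_twice)
open Pool.Agent.H91.Kc (ex)

section base

variable {K : Type} [Field K] [NumberField K] (j : Ei ≃+* 𝓞 K)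

/-- the embedding -/
noncomputable def jK : Ei →+* K := (algebraMap (𝓞 K) K).comp (j : Ei →+* 𝓞 K)

lemma jK_eq (x : Ei) : jK j x = ((j x : 𝓞 K) : K) := rfl

lemma jK_ne {α : Ei} (hα : α ≠ 0) : jK j α ≠ 0 := jne j hα

lemma jK_inj : Function.Injective (jK j) := by
  intro a b h
  apply j.injective
  exact RingOfIntegers.ext h

local instance f3 : Fact (Nat.Prime 3) := ⟨Nat.prime_three⟩

lemma prim_w : IsPrimitiveRoot (jK j w) 3 := by
  have h : orderOf (w : Ei) = 3 := orderOf_eq_prime (by decide) (by decide)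
  have h1 : IsPrimitiveRoot (w : Ei) 3 := by
    rw [← h]
    exact IsPrimitiveRoot.orderOf w
  exact h1.map_of_injective (jK_inj j)

lemma dp_iff {p : Ei} (hp : Prime p) : Dp 3 (pl j hp) ↔ p ∣ 3 := by
  have h : ((3 : ℕ) : 𝓞 K) = j 3 := by
    rw [map_ofNat]
    rfl
  unfold Dp
  rw [h, mem_pl]

lemma vl_mul (v : HeightOneSpectrum (𝓞 K)) {a b : K} (ha : a ≠ 0) (hb : b ≠ 0) :
    vl 3 v (a * b) = vl 3 v a + vl 3 v b := (t_BAS 3 K v).2.2.2.2.1 a b ha hb

lemma vl_pow (v : HeightOneSpectrum (𝓞 K)) {a : K} (ha : a ≠ 0) (n : ℕ) :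
    vl 3 v (a ^ n) = n * vl 3 v a := by
  induction n with
  | zero =>
    rw [pow_zero, Nat.cast_zero, zero_mul]
    unfold vl
    simp
  | succ n ih =>
    rw [pow_succ, vl_mul v (pow_ne_zero _ ha) ha, ih]
    push_cast
    ring

lemma vl_cube (v : HeightOneSpectrum (𝓞 K)) {a : K} (ha : a ≠ 0) : vl 3 v (a ^ 3) = 0 := by
  rw [vl_pow v ha]
  have : ((3 : ℕ) : ZMod 3) = 0 := by decide
  rw [this, zero_mul]

lemma lpw_cube (v : HeightOneSpectrum (𝓞 K)) {a b : K} (ha : a ≠ 0) (h : IsPow 3 (b / a)) (hb : b ≠ 0)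
    (hl : Lpw 3 v a) : Lpw 3 v b := by
  obtain ⟨x, hx⟩ := h
  have hx0 : x ≠ 0 := by
    rintro rfl
    rw [zero_pow (by norm_num)] at hx
    rcases div_eq_zero_iff.1 hx with h | h
    · exact hb h
    · exact ha h
  have h1 := (t_BAS 3 K v).2.1 a (x ^ 3) hl ((t_BAS 3 K v).2.2.1 x hx0)
  rw [← hx, mul_div_cancel₀ _ ha] at h1
  exact h1

/-! ### the symbols -/

lemma nn_ex {p : Ei} (hp : Prime p) : ((nn p : ℕ) : ZMod 3) = ex (nr p) := by
  unfold ex nn
  have h1 := Pool.Agent.Y692.QS.nr_nonneg p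
  have h2 : nr p ≠ 0 := fun h => hp.ne_zero (Pool.Agent.Y692.QS.nr_zero_iff.1 h)
  have h3 : ((((nr p).natAbs - 1) / 3 : ℕ) : ℤ) = (nr p - 1) / 3 := by omega
  rw [← h3]
  push_cast
  rfl

lemma cs_w {p : Ei} (hp : Prime p) (h3 : ¬ p ∣ 3) : cs p w = ex (nr p) := by
  apply cs_of hp h3
  rw [← nn_ex hp, ZMod.val_natCast]
  have h1 : (w : Ei) ^ nn p = w ^ (nn p % 3) := by
    conv_lhs => rw [← Nat.div_add_mod (nn p) 3]
    rw [pow_add, pow_mul]
    have : (w : Ei) ^ 3 = 1 := by decide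
    rw [this, one_pow, one_mul]
  rw [h1, sub_self]
  exact dvd_zero _

lemma absN {p : Ei} (hp : Prime p) : Ideal.absNorm (pl j hp).asIdeal = (nr p).natAbs := by
  have h1 := Pool.Agent.Y715.T.Rs.card_quo p
  have h2 : Nat.card (𝓞 K ⧸ Ideal.span {j p}) = Nat.card (Ei ⧸ Ideal.span {p}) := by
    have e : Ideal.span {j p} = (Ideal.span {p}).map (j : Ei →+* 𝓞 K) := by
      rw [Ideal.map_span, Set.image_singleton]
      rfl
    exact (Nat.card_congr (Ideal.quotientEquiv (Ideal.span {p}) (Ideal.span {j p}) j e).toEquiv).symm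
  have h3 : Ideal.absNorm (pl j hp).asIdeal = Nat.card (𝓞 K ⧸ Ideal.span {j p}) := by
    rw [Ideal.absNorm_apply, Submodule.cardQuot_apply]
    rfl
  rw [h3, h2]
  omega

lemma val_one_of {p x : Ei} (hp : Prime p) (hx : ¬ p ∣ x) : (pl j hp).valuation K (jK j x) = 1 := by
  rw [jK_eq, valK, HeightOneSpectrum.intValuation_eq_one_iff, mem_pl]
  exact hx

lemma val_lt_of {p x : Ei} (hp : Prime p) (hx : p ∣ x) : (pl j hp).valuation K (jK j x) < 1 := by
  rw [jK_eq, valK]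
  exact ((pl j hp).intValuation_lt_one_iff_mem _).2 ((mem_pl j hp x).2 hx)

lemma vl_zero_of {p x : Ei} (hp : Prime p) (hx : ¬ p ∣ x) : vl 3 (pl j hp) (jK j x) = 0 := by
  unfold vl
  rw [val_one_of j hp hx]
  simp

lemma sy_eq {p x : Ei} (hp : Prime p) (h3 : ¬ p ∣ 3) (hx : ¬ p ∣ x) :
    sy 3 (jK j w) (pl j hp) (jK j x) = cs p x := by
  have hd : ¬ Dp 3 (pl j hp) := fun h => h3 ((dp_iff j hp).1 h)
  have hx0 : x ≠ 0 := by
    rintro rfl
    exact hx (dvd_zero _)
  have h1 := ((t_BAS 3 K (pl j hp)).2.2.2.2.2.2 hd _ (prim_w j)).2.1 (jK j x) (jK_ne j hx0)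
    (vl_zero_of j hp hx) (cs p x)
  rw [eq_comm, ← h1]
  refine ⟨1, ?_, ?_⟩
  · rw [one_pow, mul_one]
    exact val_one_of j hp hx
  · rw [one_pow, mul_one, absN j hp, ← map_pow, ← map_pow, ← map_sub]
    exact val_lt_of j hp (cs_spec hp h3 hx)

lemma lpw_iff {p x : Ei} (hp : Prime p) (h3 : ¬ p ∣ 3) (hx : ¬ p ∣ x) :
    Lpw 3 (pl j hp) (jK j x) ↔ cs p x = 0 := by
  have hd : ¬ Dp 3 (pl j hp) := fun h => h3 ((dp_iff j hp).1 h)
  have hx0 : x ≠ 0 := by
    rintro rfl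
    exact hx (dvd_zero _)
  rw [← ((t_BAS 3 K (pl j hp)).2.2.2.2.2.2 hd _ (prim_w j)).2.2.2 (jK j x) (jK_ne j hx0)
    (vl_zero_of j hp hx), sy_eq j hp h3 hx]

/-! ### the local conditions -/

/-- the condition where `D` is a unit -/
lemma ae_unit (v : HeightOneSpectrum (𝓞 K)) {D a : K} (hD : D ≠ 0) (hDv : vl 3 v D = 0) (h : AE v D a) :
    vl 3 v a = 0 := by
  obtain ⟨ha, u, x, s, h0, h1⟩ := h
  rw [cpl_coe, cpl_coe] at h1
  set A : v.adicCompletion K := algebraMap K (v.adicCompletion K) a with hA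
  set B : v.adicCompletion K := algebraMap K (v.adicCompletion K) D with hB
  have hA0 : A ≠ 0 := (map_ne_zero _).2 ha
  have hB0 : B ≠ 0 := (map_ne_zero _).2 hD
  have hrB : rr v B = 0 := by rw [hB, rr_coe, hDv, neg_zero]
  have h3 : (3 : ℕ) ≠ 0 := by norm_num
  suffices hrA : rr v A = 0 by
    rw [hA, rr_coe, neg_eq_zero] at hrA
    exact hrA
  have hval : ∀ y : v.adicCompletion K, Pool.Agent.Y682.vv v y = 0 → y = 0 := fun y hy =>
    (Valuation.zero_iff _).1 hy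
  have ry : u ≠ 0 → rr v (-(A ^ 2 * u ^ 3)) = 2 * rr v A := fun hu => by
    rw [rr_neg, rr_mul v (pow_ne_zero 2 hA0) (pow_ne_zero 3 hu), rr_pow3, sq, rr_mul v hA0 hA0]
    ring
  have rz : s ≠ 0 → rr v (-(A * B * s ^ 3)) = rr v A := fun hs => by
    rw [rr_neg, rr_mul v (mul_ne_zero hA0 hB0) (pow_ne_zero 3 hs), rr_pow3, rr_mul v hA0 hB0, hrB,
      add_zero, add_zero]
  have req : ∀ {x y : v.adicCompletion K}, Pool.Agent.Y682.vv v x = Pool.Agent.Y682.vv v y → rr v x = rr v y :=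
    fun h1 => by
      unfold rr
      rw [h1]
  have d2 : ∀ A : ZMod 3, 0 = 2 * A → A = 0 := by decide
  have d3 : ∀ A : ZMod 3, 2 * A = A → A = 0 := by decide
  have zx : x = 0 → Pool.Agent.Y682.vv v (x ^ 3) = 0 := by
    rintro rfl
    rw [zero_pow h3, map_zero]
  have zu : u = 0 → Pool.Agent.Y682.vv v (-(A ^ 2 * u ^ 3)) = 0 := by
    rintro rfl
    rw [zero_pow h3, mul_zero, neg_zero, map_zero]
  have zs : s = 0 → Pool.Agent.Y682.vv v (-(A * B * s ^ 3)) = 0 := by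
    rintro rfl
    rw [zero_pow h3, mul_zero, neg_zero, map_zero]
  have zx' : Pool.Agent.Y682.vv v (x ^ 3) = 0 → x = 0 := fun h => (pow_eq_zero_iff h3).1 (hval _ h)
  have zu' : Pool.Agent.Y682.vv v (-(A ^ 2 * u ^ 3)) = 0 → u = 0 := fun h => by
    have := hval _ h
    rw [neg_eq_zero] at this
    exact (pow_eq_zero_iff h3).1 ((mul_eq_zero.1 this).resolve_left (pow_ne_zero 2 hA0))
  have zs' : Pool.Agent.Y682.vv v (-(A * B * s ^ 3)) = 0 → s = 0 := fun h => by
    have := hval _ h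
    rw [neg_eq_zero] at this
    exact (pow_eq_zero_iff h3).1 ((mul_eq_zero.1 this).resolve_left (mul_ne_zero hA0 hB0))
  rcases max_twice (Pool.Agent.Y682.vv v) (x := x ^ 3) (y := -(A ^ 2 * u ^ 3)) (z := -(A * B * s ^ 3))
    (by rw [h1]; ring) with ⟨h4, h5⟩ | ⟨h4, h5⟩ | ⟨h4, h5⟩
  · by_cases hx : x = 0
    · exfalso
      have hu := zu' (by rw [← h4]; exact zx hx)
      have hs := zs' (le_zero_iff.1 (h5.trans (zx hx).le))
      rcases h0 with h | h | h
      · exact h hu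
      · exact h hx
      · exact h hs
    · have hu : u ≠ 0 := fun hu => hx (zx' (by rw [h4]; exact zu hu))
      apply d2
      rw [← ry hu, ← rr_pow3 v x]
      exact req h4
  · by_cases hx : x = 0
    · exfalso
      have hs := zs' (by rw [← h4]; exact zx hx)
      have hu := zu' (le_zero_iff.1 (h5.trans (zx hx).le))
      rcases h0 with h | h | h
      · exact h hu
      · exact h hx
      · exact h hs
    · have hs : s ≠ 0 := fun hs => hx (zx' (by rw [h4]; exact zs hs))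
      rw [← rz hs, ← rr_pow3 v x]
      exact (req h4).symm
  · by_cases hu : u = 0
    · exfalso
      have hs := zs' (by rw [← h4]; exact zu hu)
      have hx := zx' (le_zero_iff.1 (h5.trans (zu hu).le))
      rcases h0 with h | h | h
      · exact h hu
      · exact h hx
      · exact h hs
    · have hs : s ≠ 0 := fun hs => hu (zu' (by rw [h4]; exact zs hs))
      apply d3
      rw [← ry hu, ← rz hs]
      exact req h4

/-- numbers close to one -/
lemma lpw_nine (y : Ei) : Lpw 3 (pl j te_prime) (jK j (1 + 9 * y)) := by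
  apply (t_BAS 3 K (pl j te_prime)).2.2.2.2.2.1 _ (jK j (1 - 3 * y))
  have e2 : (1 + 9 * y) * (1 - 3 * y) ^ 3 - 1 = 9 * (3 * (-2 * y ^ 2 + 8 * y ^ 3 - 9 * y ^ 4)) := by
    ring
  have e3 : jK j (1 + 9 * y) * jK j (1 - 3 * y) ^ 3 - 1 =
      jK j 9 * (jK j 3 * jK j (-2 * y ^ 2 + 8 * y ^ 3 - 9 * y ^ 4)) := by
    rw [← map_pow, ← map_mul, ← map_mul, ← map_mul, ← map_one (jK j), ← map_sub, e2]
  have e4 : (((3 : ℕ) : K) ^ 2) = jK j 9 := by
    rw [map_ofNat]
    norm_num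
  have h3 : te ∣ 3 := ⟨-te, by linear_combination te_sq⟩
  have h5 : (pl j te_prime).valuation K (jK j 3) < 1 := val_lt_of j te_prime h3
  have h6 : (pl j te_prime).valuation K (jK j (-2 * y ^ 2 + 8 * y ^ 3 - 9 * y ^ 4)) ≤ 1 := by
    rw [jK_eq, valK]
    exact (pl j te_prime).intValuation_le_one _
  have h7 : (pl j te_prime).valuation K (jK j 9) ≠ 0 := by
    rw [Valuation.ne_zero_iff]
    exact jK_ne j (by decide)
  rw [e3, e4, map_mul, map_mul]
  calc _ < (pl j te_prime).valuation K (jK j 9) * 1 := by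
        refine mul_lt_mul_of_pos_left ?_ (zero_lt_iff.2 h7)
        exact lt_of_le_of_lt (mul_le_mul' le_rfl h6) (by rwa [mul_one])
    _ = _ := mul_one _

/-- the condition above three: the numbers close to one -/
lemma ae_te {D t : Ei} (hD : te ∣ D - 1) (hD0 : D ≠ 0) (ha : (1 + te ^ 3 * t : Ei) ≠ 0) :
    AE (pl j te_prime) (jK j D) (jK j (1 + te ^ 3 * t)) := by
  refine ⟨jK_ne j ha, ?_⟩
  obtain ⟨d, hd⟩ := hD
  obtain ⟨f, hf⟩ : te ∣ t ^ 3 - t := by
    have e : t ^ 3 - t = t * ((t - 1) * (t + 1)) := by ring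
    rw [e]
    rcases te_mod t with h | h | h
    · exact h.mul_right _
    · exact (h.mul_right _).mul_left _
    · exact (h.mul_left _).mul_left _
  -- `a (a + D s³)`, `s = te t`
  set a : Ei := 1 + te ^ 3 * t with haa
  set X : Ei := a * (a + D * (te * t) ^ 3) with hX
  have hD1 : D = 1 + te * d := by linear_combination hd
  have ht3 : t ^ 3 = t + te * f := by linear_combination hf
  have h9 : ∃ y : Ei, X = 1 + 9 * y := by
    refine ⟨-te * t + d * t ^ 3 + f + te ^ 2 * t * (t + D * t ^ 3), ?_⟩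
    have e2 : te ^ 2 = -3 := te_sq
    rw [hX, haa]
    have e4 : te ^ 4 = 9 := by
      calc te ^ 4 = (te ^ 2) ^ 2 := by ring
        _ = 9 := by rw [e2]; norm_num
    have e3 : te ^ 3 = -3 * te := by
      calc te ^ 3 = te ^ 2 * te := by ring
        _ = _ := by rw [e2]
    -- expand
    have h1 : (1 + te ^ 3 * t) * (1 + te ^ 3 * t + D * (te * t) ^ 3) =
        1 + te ^ 3 * (2 * t + D * t ^ 3) + te ^ 4 * (te ^ 2 * t * (t + D * t ^ 3)) := by ring
    have h2 : te ^ 3 * (2 * t + D * t ^ 3) = te ^ 4 * (-te * t + d * t ^ 3 + f) := by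
      have h3 : 2 * t + D * t ^ 3 = te * (-te * t + d * t ^ 3 + f) := by
        rw [hD1]
        linear_combination hf + t * e2
      rw [h3]
      ring
    rw [h1, h2, e4]
    ring
  obtain ⟨y, hy⟩ := h9
  have hl := lpw_nine j y
  rw [← hy] at hl
  obtain ⟨hX0, z, hz⟩ := (t_CPL 3 K (pl j te_prime) _).1 hl
  refine ⟨1, z, ((jK j (te * t) : K) : (pl j te_prime).adicCompletion K), Or.inl one_ne_zero, ?_⟩
  rw [← hz, one_pow, mul_one]
  rw [cpl_coe, cpl_coe, cpl_coe, cpl_coe, hX]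
  simp only [map_mul, map_add, map_pow]
  ring

end base

end Pool.Agent.H91.Sel
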