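import Pool.Agent.H91.Sel2

/-!
# The `√-3`-Selmer group of `y² + D y = x³` over `ℚ(ω)`: the criterion, second part
-/

set_option autoImplicit false
set_option linter.unusedSectionVars false
set_option linter.unusedVariables false

open scoped Classical

namespace Pool.Agent.H91.Sel

open NumberField IsDedekindDomain WithZero
open Pool.Agent.Y692.QS (Ei w nr)
open Pool.Agent.Y715.T.Rec (cs nn)
open Pool.Agent.Y715.T.RecG (Pq cs_of cs_spec cs_mul cs_pow cs_one cs_prod cs_uniq)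
open Pool.Agent.Y703.CT
open Pool.Agent.Y350.CTK.Tam
open Pool.Agent.Q7.LK (vl Lpw sy Sy IsPow Dp t_BAS t_CPL S_BAS S_CPL)
open Pool.Agent.Q7.CE (AE Triv t_ELOC S_ELOC)
open Pool.Agent.Q283.EN (PC HasN t_CPT t_ECX isPow_inv isPow_mul hasN_uniq hasN_pig pc_ne ae_one
  not_bad)
open Pool.Agent.H91.Kc (ex)

lemma z_sq : ∀ x : ZMod 3, x ≠ 0 → x * x = 1 := by decide

lemma z_neg : ∀ s : ZMod 3, s = -s → s = 0 := by decide

lemma w_one : ∀ b : ZMod 3, ((w : Ei) ^ b.val = 1 ∨ (w : Ei) ^ b.val = -1) → b = 0 := by decide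

section crit

variable {K : Type} [Field K] [NumberField K] (j : Ei ≃+* 𝓞 K)
variable {J : Type} [Fintype J] {π : J → Ei} {e : J → ZMod 3} {c : ZMod 3}

/-- the number `ω^c ∏ π^e` -/
def dD (c : ZMod 3) (π : J → Ei) (e : J → ZMod 3) : Ei := w ^ c.val * pD π e

lemma dD_eq : dD c π e = mo π c e := rfl

/-- the kernel of the rooted Laplacian is zero -/
def KerC (c : ZMod 3) (π : J → Ei) (e : J → ZMod 3) : Prop :=
  ∀ x : J → ZMod 3, (∀ i, ∑ k, e k * cs (π i) (π k) * (x k - x i) - c * ex (nr (π i)) * x i = 0) →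
    x = 0

lemma e_sq (h : Dt π e) (i : J) : e i * e i = 1 := by
  have h1 : ∀ x : ZMod 3, x ≠ 0 → x * x = 1 := by decide
  exact h1 _ (h.e0 i)

lemma nd_w {p : Ei} (hp : Prime p) : ¬ p ∣ w := by
  intro h
  have h1 : p ∣ 1 := by
    have : (w : Ei) ^ 3 = 1 := by decide
    rw [← this]
    exact dvd_pow h (by norm_num)
  exact hp.not_isUnit (isUnit_of_dvd_one h1)

lemma nd_mo (h : Dt π e) {i : J} {b : ZMod 3} {y : J → ZMod 3} (hy : y i = 0) :
    ¬ π i ∣ mo π b y := by
  have hp := (h.pq i).prime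
  unfold mo
  intro h1
  rcases hp.dvd_or_dvd h1 with h2 | h2
  · exact nd_w hp (hp.dvd_of_dvd_pow h2)
  · obtain ⟨k, -, hk⟩ := (hp.dvd_finsetProd_iff _).1 h2
    by_cases hki : k = i
    · subst hki
      rw [hy, ZMod.val_zero, pow_zero] at hk
      exact hp.not_isUnit (isUnit_of_dvd_one hk)
    · exact h.nd k i hki (hp.dvd_of_dvd_pow hk)

lemma cs_mo (h : Dt π e) {i : J} {b : ZMod 3} {y : J → ZMod 3} (hy : y i = 0) :
    cs (π i) (mo π b y) = b * ex (nr (π i)) + ∑ k, y k * cs (π i) (π k) := by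
  have hp := (h.pq i).prime
  have h3 := (h.pq i).norm
  have hf : ∀ k ∈ Finset.univ, ¬ π i ∣ π k ^ (y k).val := by
    intro k _ hk
    by_cases hki : k = i
    · subst hki
      rw [hy, ZMod.val_zero, pow_zero] at hk
      exact hp.not_isUnit (isUnit_of_dvd_one hk)
    · exact h.nd k i hki (hp.dvd_of_dvd_pow hk)
  have hw : ¬ π i ∣ w ^ b.val := fun h1 => nd_w hp (hp.dvd_of_dvd_pow h1)
  have hpr : ¬ π i ∣ ∏ k, π k ^ (y k).val := by
    intro h1
    obtain ⟨k, hk, hk2⟩ := (hp.dvd_finsetProd_iff _).1 h1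
    exact hf k hk hk2
  unfold mo
  rw [cs_mul hp h3 hw hpr, cs_pow hp h3 (nd_w hp), cs_w hp h3, cs_prod hp h3 _ _ hf,
    ZMod.natCast_zmod_val]
  congr 1
  refine Finset.sum_congr rfl fun k _ => ?_
  by_cases hki : k = i
  · subst hki
    rw [hy, ZMod.val_zero, pow_zero, cs_one hp h3, zero_mul]
  · rw [cs_pow hp h3 (h.nd k i hki), ZMod.natCast_zmod_val]

lemma vl_mo (h : Dt π e) (i : J) (b : ZMod 3) (y : J → ZMod 3) :
    vl 3 (pl j (h.pq i).prime) (jK j (mo π b y)) = y i := by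
  have hp := (h.pq i).prime
  have hw0 : (w : Ei) ≠ 0 := by decide
  have hne : ∀ k, jK j (π k) ≠ 0 := fun k => jK_ne j (h.pq k).prime.ne_zero
  unfold mo
  rw [map_mul, map_prod, map_pow, vl_mul _ (pow_ne_zero _ (jK_ne j hw0))
    (Finset.prod_ne_zero_iff.2 fun k _ => by rw [map_pow]; exact pow_ne_zero _ (hne k)),
    vl_pow _ (jK_ne j hw0), vl_zero_of j hp (nd_w hp), mul_zero, zero_add]
  have key : ∀ S : Finset J, vl 3 (pl j hp) (∏ k ∈ S, jK j (π k ^ (y k).val)) =
      ∑ k ∈ S, if k = i then y k else 0 := by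
    intro S
    induction S using Finset.induction_on with
    | empty =>
      rw [Finset.prod_empty, Finset.sum_empty]
      unfold vl
      simp
    | insert k S hk ih =>
      rw [Finset.prod_insert hk, Finset.sum_insert hk, vl_mul _ (by
        rw [map_pow]; exact pow_ne_zero _ (hne k))
        (Finset.prod_ne_zero_iff.2 fun l _ => by rw [map_pow]; exact pow_ne_zero _ (hne l)), ih]
      congr 1
      rw [map_pow, vl_pow _ (hne k), ZMod.natCast_zmod_val]
      by_cases hki : k = i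
      · subst hki
        rw [if_pos rfl, jK_eq, vl_mult j hp hp.ne_zero]
        have : multiplicity (π k) (π k) = 1 := by
          have := multiplicity_self (a := π k)
          exact this
        rw [this, Nat.cast_one, mul_one]
      · rw [if_neg hki, vl_zero_of j hp (h.nd k i hki), mul_zero]
  rw [key, Finset.sum_ite_eq' Finset.univ i, if_pos (Finset.mem_univ i)]

/-- local cubes at the primes -/
lemma lpw_mo (h : Dt π e) {i : J} {b : ZMod 3} {y : J → ZMod 3} (hy : y i = 0) :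
    Lpw 3 (pl j (h.pq i).prime) (jK j (mo π b y)) ↔
      b * ex (nr (π i)) + ∑ k, y k * cs (π i) (π k) = 0 := by
  rw [lpw_iff j (h.pq i).prime (h.pq i).norm (nd_mo h hy), cs_mo h hy]

lemma pi_ne (h : Dt π e) (i : J) : π i ≠ 0 := (h.pq i).prime.ne_zero

lemma isPow_div {x y γ : K} (hy : y ≠ 0) (h : x = y * γ ^ 3) : IsPow 3 (x / y) :=
  ⟨γ, by rw [h]; field_simp⟩

/-- products with the powers of `D` -/
lemma mul_pow_D (h : Dt π e) (b : ZMod 3) (y : J → ZMod 3) (n : ℕ) :
    ∃ γ : Ei, γ ≠ 0 ∧ mo π b y * dD c π e ^ n =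
      mo π (b + n * c) (fun i => y i + n * e i) * γ ^ 3 := by
  obtain ⟨γ, hγ, h1⟩ := mo_pow (pi_ne h) c e n
  obtain ⟨δ, hδ, h2⟩ := mo_mul (pi_ne h) b (n * c) y (fun i => n * e i)
  refine ⟨δ * γ, mul_ne_zero hδ hγ, ?_⟩
  rw [dD_eq, h1]
  calc _ = (mo π b y * mo π (n * c) (fun i => n * e i)) * γ ^ 3 := by ring
    _ = _ := by
      rw [h2]
      have : (y + fun i => (n : ZMod 3) * e i) = fun i => y i + n * e i := rfl
      rw [this]
      ring

lemma dD_ne (h : Dt π e) : dD c π e ≠ 0 := mo_ne (pi_ne h) c e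

lemma AE_mul_cube {v : HeightOneSpectrum (𝓞 K)} {D a b : K} (hD : D ≠ 0) (ha : a ≠ 0) (hb : b ≠ 0)
    (h : IsPow 3 (b / a)) (hA : AE v D a) : AE v D b := by
  have hf3 : Fact (Nat.Prime 3) := ⟨Nat.prime_three⟩
  obtain ⟨x, hx⟩ := h
  have hx0 : x ≠ 0 := by
    rintro rfl
    rw [zero_pow (by norm_num)] at hx
    rcases div_eq_zero_iff.1 hx with h | h
    · exact hb h
    · exact ha h
  have h1 := (t_ELOC K v D hD).1 a (x ^ 3) hA ((t_BAS 3 K v).2.2.1 x hx0)
  rw [← hx, mul_div_cancel₀ _ ha] at h1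
  exact h1

lemma nd_D {p : Ei} (hp : Prime p) (h : ∀ i, ¬ Associated p (π i)) (hD : Dt π e) : ¬ p ∣ dD c π e := by
  unfold dD pD
  intro h1
  rcases hp.dvd_or_dvd h1 with h2 | h2
  · exact nd_w hp (hp.dvd_of_dvd_pow h2)
  · obtain ⟨k, -, hk⟩ := (hp.dvd_finsetProd_iff _).1 h2
    exact h k (hp.associated_of_dvd (hD.pq k).prime (hp.dvd_of_dvd_pow hk))

/-- **The small kernel**: all the classes are trivial. -/
theorem selA (hc : c ≠ 0) (h : Dt π e) (hk : KerC c π e) (a : K) (ha : PC (jK j (dD c π e)) a) :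
    ∃ n : ℕ, IsPow 3 (a * jK j (dD c π e) ^ n) := by
  have hf3 : Fact (Nat.Prime 3) := ⟨Nat.prime_three⟩
  have ha0 : a ≠ 0 := pc_ne ha
  set D : Ei := dD c π e with hDd
  have hD0 : D ≠ 0 := dD_ne h
  have hDK : jK j D ≠ 0 := jK_ne j hD0
  obtain ⟨α, β, hα, hβ, hαβ⟩ := ex_int j a ha0
  have hβK : jK j β ≠ 0 := jK_ne j hβ
  have hαK : jK j α ≠ 0 := jK_ne j hα
  have hαβ' : a * jK j β ^ 3 = jK j α := hαβ
  have hPα : PC (jK j D) (jK j α) := by
    intro v
    exact AE_mul_cube hDK ha0 hαK (isPow_div ha0 hαβ'.symm) (ha v)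
  obtain ⟨b, y, γ, δ, hγ, hδ, h1⟩ := fact (fun i => (h.pq i).prime) _ α hα le_rfl (by
    intro p hp hpi
    have h2 := ae_unit (pl j hp) hDK (vl_zero_of j hp (nd_D hp hpi h)) (hPα (pl j hp))
    rw [jK_eq, vl_mult j hp hα] at h2
    exact (ZMod.natCast_eq_zero_iff _ _).1 h2)
  -- the power of `D`
  set m : ZMod 3 := -(b * c) with hm
  have hcc : c * c = 1 := z_sq c hc
  obtain ⟨ε, hε, h2⟩ := mul_pow_D (c := c) h b y m.val
  have hbm : b + (m.val : ZMod 3) * c = 0 := by
    rw [ZMod.natCast_zmod_val, hm]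
    linear_combination -b * hcc
  rw [hbm] at h2
  set z : J → ZMod 3 := fun i => y i + (m.val : ZMod 3) * e i with hz
  have hM0 : mo π 0 z ≠ 0 := mo_ne (pi_ne h) 0 z
  -- `a D^m` and the representative differ by a cube
  have h3 : α * D ^ m.val * γ ^ 3 = mo π 0 z * (ε * δ) ^ 3 := by
    calc α * D ^ m.val * γ ^ 3 = (α * γ ^ 3) * D ^ m.val := by ring
      _ = (mo π b y * D ^ m.val) * δ ^ 3 := by rw [h1]; ring
      _ = _ := by rw [h2]; ring
  have h4 : a * jK j D ^ m.val = jK j (mo π 0 z) * (jK j (ε * δ) / (jK j β * jK j γ)) ^ 3 := by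
    have h5 := congrArg (jK j) h3
    simp only [map_mul, map_pow] at h5 ⊢
    rw [← hαβ'] at h5
    have hγK : jK j γ ≠ 0 := jK_ne j hγ
    field_simp
    linear_combination h5
  have hPm : ∀ v, AE v (jK j D) (jK j (mo π 0 z)) := by
    intro v
    have hn : ∀ n : ℕ, AE v (jK j D) (a * jK j D ^ n) := by
      intro n
      induction n with
      | zero =>
        rw [pow_zero, mul_one]
        exact ha v
      | succ n ih =>
        rw [pow_succ, ← mul_assoc]
        exact (t_ELOC K v _ hDK).2.2.1 _ ih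
    refine AE_mul_cube hDK (mul_ne_zero ha0 (pow_ne_zero _ hDK)) (jK_ne j hM0) ?_ (hn m.val)
    have h5 := isPow_inv (isPow_div (jK_ne j hM0) h4)
    rwa [inv_div] at h5
  -- the equations
  have hx : (fun i => e i * z i) = 0 := by
    apply hk
    intro i
    have hp := (h.pq i).prime
    have hd3 : ¬ Dp 3 (pl j hp) := fun h1 => (h.pq i).norm ((dp_iff j hp).1 h1)
    have hvD : vl 3 (pl j hp) (jK j D) ≠ 0 := by
      rw [hDd, dD_eq, vl_mo j h]
      exact h.e0 i
    obtain ⟨s, hs⟩ := ((t_ECX K _ (prim_w j) (pl j hp) (jK j D) _ hd3 hDK (jK_ne j hM0)).1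
      (hPm (pl j hp))).2 hvD
    obtain ⟨ρ, hρ, h5⟩ := mul_pow_D (c := c) h 0 z s
    set z' : J → ZMod 3 := fun i => z i + (s : ZMod 3) * e i with hz'
    have hM' : mo π (0 + s * c) z' ≠ 0 := mo_ne (pi_ne h) _ _
    have h6 : Lpw 3 (pl j hp) (jK j (mo π (0 + s * c) z')) := by
      refine lpw_cube _ (mul_ne_zero (jK_ne j hM0) (pow_ne_zero s hDK)) ?_ (jK_ne j hM') hs
      have h7 : jK j (mo π 0 z) * jK j D ^ s = jK j (mo π (0 + s * c) z') * jK j ρ ^ 3 := by
        rw [← map_pow, ← map_mul, ← map_pow, ← map_mul, hDd, h5]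
      have h8 := isPow_inv (isPow_div (jK_ne j hM') h7)
      rwa [inv_div] at h8
    have h7 : z' i = 0 := by
      have h8 := ((t_BAS 3 K (pl j hp)).1 _ h6).2
      rwa [vl_mo j h] at h8
    rw [lpw_mo j h h7] at h6
    have he := e_sq h i
    have hs' : (s : ZMod 3) = -(e i * z i) := by
      have h8 : z i + (s : ZMod 3) * e i = 0 := h7
      linear_combination e i * h8 - (s : ZMod 3) * he
    have h9 : ∑ k, z' k * cs (π i) (π k) =
        ∑ k, e k * cs (π i) (π k) * (e k * z k - e i * z i) := by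
      refine Finset.sum_congr rfl fun k _ => ?_
      have hek := e_sq h k
      show (z k + (s : ZMod 3) * e k) * _ = _
      rw [hs']
      linear_combination (-z k * cs (π i) (π k)) * hek
    rw [h9, hs'] at h6
    linear_combination h6
  have hz0 : z = 0 := by
    funext i
    have h5 := congrFun hx i
    have h6 : e i * z i = 0 := h5
    exact (mul_eq_zero.1 h6).resolve_left (h.e0 i)
  refine ⟨m.val, ?_⟩
  rw [h4, hz0]
  have h5 : mo π 0 (0 : J → ZMod 3) = 1 := by
    unfold mo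
    simp
  rw [h5, map_one, one_mul]
  exact ⟨_, rfl⟩

lemma rq_zero_te {α : Ei} (h : (3 : Ei) ∣ α - 1) (hr : rq α = 0) :
    ∃ t : Ei, α = 1 + te ^ 3 * t := by
  obtain ⟨x, y, h1, h2⟩ := ex_q h
  rw [hr] at h2
  have h3 : (3 : ℤ) ∣ x + y := (ZMod.intCast_zmod_eq_zero_iff_dvd (x + y) 3).1 h2.symm
  obtain ⟨k, hk⟩ := h3
  have hx : x = 3 * k - y := by linarith
  refine ⟨-⟨y - k, y - 2 * k⟩, ?_⟩
  rw [h1, hx]
  have e3 : (3 : Ei) = ⟨3, 0⟩ := rfl
  have e4 : te ^ 3 = ⟨-3, -6⟩ := by decide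
  rw [e3, e4]
  congr 1
  ext
  · simp
    ring
  · simp
    ring

lemma ex_rq {p : Ei} (h : (3 : Ei) ∣ p - 1) : ex (nr p) = -rq p := by
  obtain ⟨x, y, h1, h2⟩ := ex_q h
  rw [h2, h1, nr_form, Pool.Agent.H91.Kc.ex_congr (n := 1 + 3 * (2 * x - y))
    ⟨nr (⟨x, y⟩ : Ei), by ring⟩]
  unfold ex
  rw [add_sub_cancel_left, Int.mul_ediv_cancel_left _ (by norm_num)]
  push_cast
  have h3 : (3 : ZMod 3) = 0 := by decide
  linear_combination (x : ZMod 3) * h3

lemma te_D (h : Dt π e) : te ∣ dD c π e - 1 := by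
  have h1 := (pD_prim h).1
  have h3 : te ∣ 3 := ⟨-te, by linear_combination te_sq⟩
  have h2 : te ∣ pD π e - 1 := h3.trans h1
  have h4 : te ∣ w ^ c.val - 1 := by
    have h5 : te ∣ w - 1 := ⟨-w ^ 2, by decide⟩
    exact h5.trans (sub_one_dvd_pow_sub_one _ _)
  unfold dD
  have e : w ^ c.val * pD π e - 1 = w ^ c.val * (pD π e - 1) + (w ^ c.val - 1) := by ring
  rw [e]
  exact dvd_add (h2.mul_left _) h4

/-- the cube roots of unity are no cubes -/
lemma w_not {b : ZMod 3} (h : IsPow 3 (jK j (w ^ b.val))) : b = 0 := by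
  obtain ⟨x, hx⟩ := h
  have hint : IsIntegral ℤ x := by
    apply IsIntegral.of_pow (n := 3) (by norm_num)
    rw [← hx]
    exact RingOfIntegers.isIntegral_coe _
  obtain ⟨ζ, hζ⟩ := j.surjective (⟨x, hint⟩ : 𝓞 K)
  have h1 : jK j ζ = x := by
    rw [jK_eq, hζ]
    rfl
  rw [← h1, ← map_pow] at hx
  have h2 := jK_inj j hx
  have hu : IsUnit ζ := by
    have h3 : IsUnit (w ^ b.val : Ei) := by
      refine IsUnit.pow _ (IsUnit.of_mul_eq_one (w ^ 2) (by decide))
    rw [h2] at h3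
    exact (isUnit_pow_iff (by norm_num)).1 h3
  obtain ⟨b', γ, hγ, h3⟩ := unit_cases hu
  have key : ∀ u : Ei, IsUnit u → u ^ 3 = 1 ∨ u ^ 3 = -1 := by
    intro u hu'
    have h4 : nr u = 1 := Pool.Agent.Y692.QS.isUnit_iff.1 hu'
    obtain ⟨b2, γ2, hγ2, h5⟩ := unit_cases hu'
    have h6 : u.re ^ 2 - u.re * u.im + u.im ^ 2 = 1 := h4
    have hb : -1 ≤ u.im ∧ u.im ≤ 1 := by
      constructor <;> nlinarith [sq_nonneg (2 * u.re - u.im)]
    have ha : -1 ≤ u.re ∧ u.re ≤ 1 := by
      constructor <;> nlinarith [sq_nonneg (2 * u.im - u.re)]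
    have hre : u.re = -1 ∨ u.re = 0 ∨ u.re = 1 := by omega
    have him : u.im = -1 ∨ u.im = 0 ∨ u.im = 1 := by omega
    have key2 : ∀ v : Ei, (v.re = -1 ∨ v.re = 0 ∨ v.re = 1) → (v.im = -1 ∨ v.im = 0 ∨ v.im = 1) →
        nr v = 1 → v ^ 3 = 1 ∨ v ^ 3 = -1 := by
      rintro ⟨x, y⟩ hx hy hv
      simp only at hx hy
      rcases hx with rfl | rfl | rfl <;> rcases hy with rfl | rfl | rfl <;>
        first
          | exact absurd hv (by decide)
          | (revert hv; decide)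
    exact key2 u hre him h4
  have h7 := key ζ hu
  rw [← h2] at h7
  exact w_one b h7

/-- **A kernel vector**: a new class. -/
theorem selB (hc : c ≠ 0) (h : Dt π e) (hk : ¬ KerC c π e) :
    ∃ a : K, PC (jK j (dD c π e)) a ∧ ∀ n : ℕ, ¬ IsPow 3 (a * jK j (dD c π e) ^ n) := by
  have hf3 : Fact (Nat.Prime 3) := ⟨Nat.prime_three⟩
  unfold KerC at hk
  push Not at hk
  obtain ⟨x, hx, hx0⟩ := hk
  set D : Ei := dD c π e with hDd
  have hD0 : D ≠ 0 := dD_ne h
  have hDK : jK j D ≠ 0 := jK_ne j hD0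
  set y : J → ZMod 3 := fun i => e i * x i with hy
  have hM0 : mo π 0 y ≠ 0 := mo_ne (pi_ne h) 0 y
  -- the level
  have hsum : ∑ i, y i * rq (π i) = 0 := by
    have h1 : ∑ i, e i * (∑ k, e k * cs (π i) (π k) * (x k - x i) - c * ex (nr (π i)) * x i) = 0 :=
      Finset.sum_eq_zero fun i _ => by rw [hx i, mul_zero]
    have h2 : ∑ i, e i * (∑ k, e k * cs (π i) (π k) * (x k - x i)) = 0 := by
      have h3 : ∑ i, e i * (∑ k, e k * cs (π i) (π k) * (x k - x i)) =
          ∑ i, ∑ k, e i * e k * cs (π i) (π k) * (x k - x i) := by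
        refine Finset.sum_congr rfl fun i _ => ?_
        rw [Finset.mul_sum]
        exact Finset.sum_congr rfl fun k _ => by ring
      have h4 : ∑ i, ∑ k, e i * e k * cs (π i) (π k) * (x k - x i) =
          ∑ i, ∑ k, -(e i * e k * cs (π i) (π k) * (x k - x i)) := by
        rw [Finset.sum_comm]
        refine Finset.sum_congr rfl fun k _ => Finset.sum_congr rfl fun i _ => ?_
        by_cases hik : i = k
        · rw [hik, sub_self, mul_zero, neg_zero]
        · rw [Pool.Agent.Y350.CT.rec (π k) (π i) (h.pq k) (h.pq i) (h.nd k i (Ne.symm hik))]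
          ring
      rw [h3]
      apply z_neg
      rw [← Finset.sum_neg_distrib]
      conv_rhs =>
        arg 2
        ext i
        rw [← Finset.sum_neg_distrib]
      exact h4
    have h3 : ∑ i, e i * (∑ k, e k * cs (π i) (π k) * (x k - x i) - c * ex (nr (π i)) * x i) =
        ∑ i, e i * (∑ k, e k * cs (π i) (π k) * (x k - x i)) + c * ∑ i, y i * rq (π i) := by
      rw [Finset.mul_sum, ← Finset.sum_add_distrib]
      refine Finset.sum_congr rfl fun i _ => ?_
      rw [ex_rq (h.pq i).three]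
      show _ = _ + c * (e i * x i * rq (π i))
      ring
    rw [h3, h2, zero_add] at h1
    exact (mul_eq_zero.1 h1).resolve_left hc
  have hrq : (3 : Ei) ∣ mo π 0 y - 1 ∧ rq (mo π 0 y) = 0 := by
    obtain ⟨h1, h2⟩ := rq_prod Finset.univ (f := fun k => π k ^ (y k).val)
      (fun k => (rq_pow (h.pq k).three _).1)
    have h3 : mo π 0 y = ∏ k, π k ^ (y k).val := by
      unfold mo
      rw [ZMod.val_zero, pow_zero, one_mul]
    rw [h3]
    refine ⟨h1, ?_⟩
    rw [h2, ← hsum]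
    refine Finset.sum_congr rfl fun k _ => ?_
    rw [(rq_pow (h.pq k).three _).2, ZMod.natCast_zmod_val]
  obtain ⟨t, ht⟩ := rq_zero_te hrq.1 hrq.2
  refine ⟨jK j (mo π 0 y), fun v => ?_, fun n hn => ?_⟩
  · obtain ⟨p, hp, rfl⟩ := ex_pl j v
    by_cases hpi : ∃ i, Associated p (π i)
    · obtain ⟨i, hi⟩ := hpi
      have e1 : pl j hp = pl j (h.pq i).prime := by
        apply eq_pl j (h.pq i).prime
        rw [mem_pl]
        exact hi.dvd
      rw [e1]
      have hd3 : ¬ Dp 3 (pl j (h.pq i).prime) := fun h1 => (h.pq i).norm ((dp_iff j _).1 h1)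
      refine (t_ECX K _ (prim_w j) _ (jK j D) _ hd3 hDK (jK_ne j hM0)).2 ⟨fun h1 => ?_, fun _ => ?_⟩
      · exfalso
        rw [hDd, dD_eq, vl_mo j h] at h1
        exact h.e0 i h1
      · refine ⟨(-x i).val, ?_⟩
        obtain ⟨ρ, hρ, h5⟩ := mul_pow_D (c := c) h 0 y (-x i).val
        set s : ZMod 3 := (((-x i).val : ℕ) : ZMod 3) with hs
        have hs' : s = -x i := ZMod.natCast_zmod_val _
        set z' : J → ZMod 3 := fun i => y i + s * e i with hz'
        have hM' : mo π (0 + s * c) z' ≠ 0 := mo_ne (pi_ne h) _ _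
        have h7 : z' i = 0 := by
          show e i * x i + s * e i = 0
          rw [hs']
          ring
        have h6 : Lpw 3 (pl j (h.pq i).prime) (jK j (mo π (0 + s * c) z')) := by
          rw [lpw_mo j h h7]
          have h9 : ∑ k, z' k * cs (π i) (π k) = ∑ k, e k * cs (π i) (π k) * (x k - x i) := by
            refine Finset.sum_congr rfl fun k _ => ?_
            show (e k * x k + s * e k) * _ = _
            rw [hs']
            ring
          rw [h9, hs']
          linear_combination hx i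
        refine lpw_cube _ (jK_ne j hM') ?_ (mul_ne_zero (jK_ne j hM0) (pow_ne_zero _ hDK)) h6
        refine isPow_div (γ := jK j ρ) (jK_ne j hM') ?_
        rw [← map_pow, ← map_mul, ← map_pow, ← map_mul, hDd, h5]
    · push Not at hpi
      by_cases h3 : p ∣ 3
      · have e1 : pl j hp = pl j te_prime := by
          apply three_mem j
          rw [mem_pl]
          exact h3
        rw [e1, ht]
        refine ae_te j (te_D h) hD0 ?_
        rw [← ht]
        exact hM0
      · have hd3 : ¬ Dp 3 (pl j hp) := fun h1 => h3 ((dp_iff j _).1 h1)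
        refine (t_ECX K _ (prim_w j) _ (jK j D) _ hd3 hDK (jK_ne j hM0)).2 ⟨fun _ => ?_, fun h1 => ?_⟩
        · apply vl_zero_of j hp
          unfold mo
          intro h1
          rcases hp.dvd_or_dvd h1 with h2 | h2
          · exact nd_w hp (hp.dvd_of_dvd_pow h2)
          · obtain ⟨k, -, hk⟩ := (hp.dvd_finsetProd_iff _).1 h2
            exact hpi k (hp.associated_of_dvd (h.pq k).prime (hp.dvd_of_dvd_pow hk))
        · exfalso
          exact h1 (vl_zero_of j hp (nd_D hp hpi h))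
  · -- no power of `D`
    obtain ⟨ρ, hρ, h5⟩ := mul_pow_D (c := c) h 0 y n
    set z' : J → ZMod 3 := fun i => y i + (n : ZMod 3) * e i with hz'
    have hM' : mo π (0 + n * c) z' ≠ 0 := mo_ne (pi_ne h) _ _
    have h6 : jK j (mo π 0 y) * jK j D ^ n = jK j (mo π (0 + n * c) z') * jK j ρ ^ 3 := by
      rw [← map_pow, ← map_mul, ← map_pow, ← map_mul, hDd, h5]
    have h7 : IsPow 3 (jK j (mo π (0 + n * c) z')) := by
      obtain ⟨r, hr⟩ := hn
      have hρK : jK j ρ ≠ 0 := jK_ne j hρ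
      refine ⟨r / jK j ρ, ?_⟩
      rw [div_pow, ← hr, h6]
      field_simp
    have h8 : ∀ i, z' i = 0 := by
      intro i
      rw [← vl_mo j h i (0 + n * c) z']
      obtain ⟨r, hr⟩ := h7
      rw [hr]
      apply vl_cube
      rintro rfl
      rw [zero_pow (by norm_num)] at hr
      exact jK_ne j hM' hr
    have h9 : mo π (0 + n * c) z' = w ^ ((n : ZMod 3) * c).val := by
      unfold mo
      rw [Finset.prod_eq_one fun i _ => by rw [h8 i, ZMod.val_zero, pow_zero], mul_one, zero_add]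
    rw [h9] at h7
    have h10 := w_not j h7
    have h11 : (n : ZMod 3) = 0 := (mul_eq_zero.1 h10).resolve_right hc
    apply hx0
    funext i
    have h12 : e i * x i + (n : ZMod 3) * e i = 0 := h8 i
    rw [h11, zero_mul, add_zero] at h12
    exact (mul_eq_zero.1 h12).resolve_left (h.e0 i)

/-- **The criterion.** -/
theorem triv_iff (hc : c ≠ 0) (h : Dt π e) : Triv (jK j (dD c π e)) ↔ KerC c π e := by
  have hD0 : dD c π e ≠ 0 := dD_ne h
  have hDK : jK j (dD c π e) ≠ 0 := jK_ne j hD0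
  have hnc : ¬ IsPow 3 (jK j (dD c π e)) := by
    intro h1
    have h8 : ∀ i, e i = 0 := by
      intro i
      rw [← vl_mo j h i c e]
      rw [dD_eq] at h1
      obtain ⟨r, hr⟩ := h1
      rw [hr]
      apply vl_cube
      rintro rfl
      rw [zero_pow (by norm_num)] at hr
      exact hDK hr
    by_cases hJ : Nonempty J
    · obtain ⟨i⟩ := hJ
      exact h.e0 i (h8 i)
    · rw [not_nonempty_iff] at hJ
      have h9 : dD c π e = w ^ c.val := by
        unfold dD pD
        rw [Finset.univ_eq_empty, Finset.prod_empty, mul_one]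
      rw [h9] at h1
      exact hc (w_not j h1)
  obtain ⟨r, hr, -, -, h4⟩ := t_CPT K (jK j w) (jK j (dD c π e)) (prim_w j) hDK hnc
  rw [h4]
  constructor
  · rintro rfl
    by_contra hk
    obtain ⟨a, ha, hn⟩ := selB j hc h hk
    refine not_bad t_ELOC t_ECX (prim_w j) hDK hnc (by simpa using hr) ⟨a, ?_, hn⟩
    have ha0 : a ≠ 0 := pc_ne ha
    refine ⟨ha0, fun v hv h1 => ?_, fun v hv h1 => ?_, fun v _ => ha v⟩
    · exact ((t_ECX K _ (prim_w j) v _ a hv hDK ha0).1 (ha v)).1 h1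
    · exact ((t_ECX K _ (prim_w j) v _ a hv hDK ha0).1 (ha v)).2 h1
  · intro hk
    by_contra hr0
    have h5 : 3 < 3 ^ (r + 1) := by
      calc 3 = 3 ^ 1 := (pow_one 3).symm
        _ < 3 ^ (r + 1) := Nat.pow_lt_pow_right (by norm_num) (by omega)
    -- more than three classes
    obtain ⟨b, hb, hbi, -⟩ := hr
    choose n hn using fun i => selA j hc h hk (b i) (hb i)
    obtain ⟨i, k, hik, hmod⟩ := Fintype.exists_ne_map_eq_of_card_lt
      (fun i : Fin (3 ^ (r + 1)) => (⟨n i % 3, Nat.mod_lt _ (by norm_num)⟩ : Fin 3)) (by simpa using h5)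
    apply hbi i k hik
    have h6 : n i % 3 = n k % 3 := by
      have := congrArg Fin.val hmod
      exact this
    obtain ⟨x, hx⟩ := hn i
    obtain ⟨y, hy⟩ := hn k
    have hbk : b k ≠ 0 := pc_ne (hb k)
    have hy0 : y ≠ 0 := by
      rintro rfl
      rw [zero_pow (by norm_num)] at hy
      exact mul_ne_zero hbk (pow_ne_zero _ hDK) hy
    -- exponents
    have key : ∀ m : ℕ, jK j (dD c π e) ^ m =
        jK j (dD c π e) ^ (m % 3) * (jK j (dD c π e) ^ (m / 3)) ^ 3 := by
      intro m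
      rw [← pow_mul, ← pow_add]
      congr 1
      omega
    rw [key] at hx hy
    rw [h6] at hx
    set A := jK j (dD c π e) ^ (n k % 3) with hA
    have hA0 : A ≠ 0 := pow_ne_zero _ hDK
    set P := jK j (dD c π e) ^ (n i / 3) with hP
    set Q := jK j (dD c π e) ^ (n k / 3) with hQ
    have hP0 : P ≠ 0 := pow_ne_zero _ hDK
    have hQ0 : Q ≠ 0 := pow_ne_zero _ hDK
    refine ⟨x * Q / (y * P), ?_⟩
    rw [div_pow, mul_pow, mul_pow, ← hx, ← hy]
    field_simp

end crit

end Pool.Agent.H91.Sel
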