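import Pool.Graph.R_seed8.Y858.CTE.Core

/-!
# Corestriction with several cubic characters, for the twisted actions

Adapted from the library (`Pool/Graph/R_seed8/Y858/CTE/Core.lean`).
-/

set_option autoImplicit false

open scoped Classical

namespace Pool.Agent.H91.Sh

open WeierstrassCurve
open Pool.Agent.Y692.QS (Ei w nr toC)
open Pool.Agent.Y703.CT
open Pool.Agent.Y715.T.Gi Pool.Agent.Y715.T.Nr Pool.Agent.Y715.T.Df Pool.Agent.Y715.T.Ell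
open Pool.Agent.Y155.CT (jj_jj pm_jj ah ah_apply ah_mul act_def jj_add jj_zero act_add jh jh_apply)
open Pool.Agent.TH841.NF (cor cor_coc cor_cob cor_zero_of mem_H chi_s Loc exists_family)
open Pool.Agent.Y858.CTE (sec sec_spec sec_one jj_z jj_sum jj_sub sum_jj gh_one)

variable {k : ℕ}

/-- the exponents -/
abbrev V (k : ℕ) : Type := Fin k → ZMod 3

/-- the pairing -/
def dot (c x : V k) : ZMod 3 := ∑ i, c i * x i

lemma dot_add (c x y : V k) : dot c (x + y) = dot c x + dot c y := by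
  unfold dot
  rw [← Finset.sum_add_distrib]
  exact Finset.sum_congr rfl fun i _ => by rw [Pi.add_apply, mul_add]

lemma add_dot (c d x : V k) : dot (c + d) x = dot c x + dot d x := by
  unfold dot
  rw [← Finset.sum_add_distrib]
  exact Finset.sum_congr rfl fun i _ => by rw [Pi.add_apply, add_mul]

lemma dot_zero (c : V k) : dot c 0 = 0 := by
  unfold dot
  exact Finset.sum_eq_zero fun i _ => by rw [Pi.zero_apply, mul_zero]

lemma single_dot (i : Fin k) (a : ZMod 3) (x : V k) : dot (Pi.single i a) x = a * x i := by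
  unfold dot
  rw [Finset.sum_eq_single i]
  · rw [Pi.single_eq_same]
  · intro j _ hj
    rw [Pi.single_eq_of_ne hj, zero_mul]
  · intro h
    exact absurd (Finset.mem_univ i) h

section jj

variable {F : Type} [Field F] [Algebra ℚ F] [CharZero F] {I : F} (hI : I ^ 2 + I + 1 = 0)

lemma sum_dot {x : V k} (hx : x ≠ 0) (P : Pt F) : ∑ c : V k, jj hI (dot c x) P = 0 := by
  obtain ⟨i, hi⟩ : ∃ i, x i ≠ 0 := by
    by_contra h
    push Not at h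
    exact hx (funext h)
  rw [← (Equiv.funSplitAt i (ZMod 3)).symm.sum_comp, Fintype.sum_prod_type_right]
  refine Finset.sum_eq_zero fun g _ => ?_
  have h1 : ∀ a : ZMod 3, jj hI (dot ((Equiv.funSplitAt i (ZMod 3)).symm (a, g)) x) P =
      jj hI (a * x i) (jj hI (dot ((Equiv.funSplitAt i (ZMod 3)).symm (0, g)) x) P) := by
    intro a
    have h2 : (Equiv.funSplitAt i (ZMod 3)).symm (a, g) =
        Pi.single i a + (Equiv.funSplitAt i (ZMod 3)).symm (0, g) := by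
      funext j
      rw [Pi.add_apply]
      by_cases hj : j = i
      · subst hj
        rw [Pi.single_eq_same]
        simp [Equiv.funSplitAt, Equiv.piSplitAt]
      · rw [Pi.single_eq_of_ne hj]
        simp [Equiv.funSplitAt, Equiv.piSplitAt, hj]
    rw [h2, add_dot, single_dot, jj_jj]
  rw [Finset.sum_congr rfl fun a _ => h1 a]
  exact sum_jj hI hi _

end jj

section core

variable {i₀ : QB} (hi : i₀ ^ 2 + i₀ + 1 = 0) {a0 : GK i₀ → ZMod 3}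
  (ha0 : ∀ σ τ, a0 (σ * τ) = a0 σ + a0 τ) {A : GK i₀ → V k}
  (hA : ∀ σ τ, A (σ * τ) = A σ + A τ)

lemma A_one {A : GK i₀ → V k} (hA : ∀ σ τ, A (σ * τ) = A σ + A τ) : A 1 = 0 := by
  have h := hA 1 1
  rw [mul_one] at h
  exact left_eq_add.1 h

/-- the characters -/
noncomputable def chr : GK i₀ →* Multiplicative (V k) where
  toFun σ := Multiplicative.ofAdd (A σ)
  map_one' := by
    rw [A_one hA]
    rfl
  map_mul' σ τ := by
    rw [hA]
    rfl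

/-- the kernel -/
noncomputable def HK : Subgroup (GK i₀) := (chr hA).ker

lemma mem_HK (σ : GK i₀) : σ ∈ HK hA ↔ A σ = 0 := by
  unfold HK
  rw [MonoidHom.mem_ker]
  exact Iff.rfl

instance : (HK hA).Normal := MonoidHom.normal_ker _

instance : (HK hA).FiniteIndex := by
  unfold HK
  infer_instance

noncomputable instance : Fintype (GK i₀ ⧸ HK hA) := Subgroup.fintypeQuotientOfFiniteIndex

/-- the characters of the twists -/
def bc (a0 : GK i₀ → ZMod 3) (A : GK i₀ → V k) (c : V k) (σ : GK i₀) : ZMod 3 :=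
  a0 σ + dot c (A σ)

include ha0 hA in
lemma bc_mul (c : V k) (σ τ : GK i₀) : bc a0 A c (σ * τ) = bc a0 A c σ + bc a0 A c τ := by
  unfold bc
  rw [ha0, hA, dot_add]
  ring

/-- the twisted actions -/
noncomputable def Ac (c : V k) : GK i₀ →* AddMonoid.End (Pt QB) where
  toFun σ := ah hi (bc a0 A c) σ
  map_one' := by
    have h := bc_mul ha0 hA c 1 1
    rw [mul_one] at h
    ext P
    show act hi (bc a0 A c) 1 P = P
    rw [act_def, left_eq_add.1 h, jj_z, gh_one]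
  map_mul' σ τ := by
    ext P
    exact ah_mul hi (a := bc a0 A c) (bc_mul ha0 hA c) σ τ P

lemma Ac_apply (c : V k) (σ : GK i₀) (P : Pt QB) :
    Ac hi ha0 hA c σ P = act hi (bc a0 A c) σ P := rfl

lemma Ac_apply' (c : V k) (σ : GK i₀) (P : Pt QB) :
    Ac hi ha0 hA c σ P = jj hi (dot c (A σ)) (act hi a0 σ P) := by
  rw [Ac_apply, act_def, act_def, jj_jj]
  unfold bc
  rw [add_comm]

lemma Ac_H (c : V k) {σ : GK i₀} (h : A σ = 0) (P : Pt QB) :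
    Ac hi ha0 hA c σ P = act hi a0 σ P := by
  rw [Ac_apply', h, dot_zero, jj_z]

lemma one_H : ∀ h ∈ HK hA, (1 : GK i₀ →* ℤ) h = 1 := fun _ _ => rfl

/-- the corestriction -/
noncomputable def Co (f : GK i₀ → Pt QB) (c : V k) (σ : GK i₀) : Pt QB :=
  cor (sec (HK hA)) (Ac hi ha0 hA c) (1 : GK i₀ →* ℤ) f σ

variable {f : GK i₀ → Pt QB} (hf : ∀ σ τ, A σ = 0 → A τ = 0 → f (σ * τ) = f σ + act hi a0 σ (f τ))

include hf in
lemma hf' (c : V k) : ∀ x ∈ HK hA, ∀ y ∈ HK hA, f (x * y) = f x + Ac hi ha0 hA c x (f y) := by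
  intro x hx y hy
  rw [mem_HK] at hx hy
  rw [Ac_H hi ha0 hA c hx]
  exact hf x y hx hy

include hf in
lemma Co_coc (c : V k) (σ τ : GK i₀) :
    Co hi ha0 hA f c (σ * τ) = Co hi ha0 hA f c σ + act hi (bc a0 A c) σ (Co hi ha0 hA f c τ) := by
  have h := cor_coc (sec_spec (HK hA)) (Ac hi ha0 hA c) (one_H hA) (hf' hi ha0 hA hf c) σ τ
  have h1 : (1 : GK i₀ →* ℤ) σ = 1 := rfl
  rw [h1, one_smul] at h
  exact h

lemma Co_smul (n : ℕ) (c : V k) (σ : GK i₀) :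
    n • Co hi ha0 hA f c σ = Co hi ha0 hA (fun τ => n • f τ) c σ := by
  unfold Co cor
  rw [Finset.smul_sum]
  refine Finset.sum_congr rfl fun q _ => ?_
  rw [map_nsmul]
  exact smul_comm _ _ _

lemma Co_cob (n : ℕ) {P : Pt QB} (hP : ∀ σ, A σ = 0 → n • f σ = act hi a0 σ P - P) (c : V k) :
    ∃ Q, ∀ σ, n • Co hi ha0 hA f c σ = act hi (bc a0 A c) σ Q - Q := by
  refine ⟨∑ q : GK i₀ ⧸ HK hA, (1 : GK i₀ →* ℤ) (sec (HK hA) q) •
    Ac hi ha0 hA c (sec (HK hA) q) P, fun σ => ?_⟩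
  rw [Co_smul]
  have h := cor_cob (sec_spec (HK hA)) (Ac hi ha0 hA c) (one_H hA) (f := fun τ => n • f τ) P
    (fun x hx => by
      rw [Ac_H hi ha0 hA c ((mem_HK hA x).1 hx)]
      exact hP x ((mem_HK hA x).1 hx)) σ
  have h1 : (1 : GK i₀ →* ℤ) σ = 1 := rfl
  rw [h1, one_smul] at h
  exact h

lemma Co_nhds (hnb : {σ : GK i₀ | A σ = 0 ∧ f σ = 0} ∈ nhds (1 : GK i₀)) (c : V k) :
    {σ : GK i₀ | Co hi ha0 hA f c σ = 0} ∈ nhds (1 : GK i₀) := by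
  have h1 : ∀ q : GK i₀ ⧸ HK hA, {σ : GK i₀ | A ((sec (HK hA) q)⁻¹ * σ * sec (HK hA) q) = 0 ∧
      f ((sec (HK hA) q)⁻¹ * σ * sec (HK hA) q) = 0} ∈ nhds (1 : GK i₀) := by
    intro q
    have hc : Continuous (fun σ : GK i₀ => (sec (HK hA) q)⁻¹ * σ * sec (HK hA) q) :=
      (continuous_const_mul _).mul_const _
    have h2 : Filter.Tendsto (fun σ : GK i₀ => (sec (HK hA) q)⁻¹ * σ * sec (HK hA) q)
        (nhds (1 : GK i₀)) (nhds ((sec (HK hA) q)⁻¹ * 1 * sec (HK hA) q)) :=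
      hc.continuousAt (x := (1 : GK i₀))
    rw [mul_one, inv_mul_cancel] at h2
    exact h2 hnb
  have h2 := (Filter.iInter_mem (f := nhds (1 : GK i₀))).2 h1
  refine Filter.mem_of_superset h2 fun σ hσ => ?_
  have hσ' := Set.mem_iInter.1 hσ
  have h4 : ∀ q : GK i₀ ⧸ HK hA, σ • q = q := by
    intro q
    have h5 : (sec (HK hA) q)⁻¹ * σ * sec (HK hA) q ∈ HK hA := (mem_HK hA _).2 (hσ' q).1
    rw [mul_assoc, ← QuotientGroup.eq] at h5
    conv_lhs => rw [← sec_spec _ q]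
    exact h5.symm.trans (sec_spec _ q)
  show Co hi ha0 hA f c σ = 0
  unfold Co
  apply cor_zero_of
  intro q
  rw [h4]
  exact (hσ' q).2

include hf in
lemma Co_lc (hnb : {σ : GK i₀ | A σ = 0 ∧ f σ = 0} ∈ nhds (1 : GK i₀)) (c : V k) :
    IsLocallyConstant (Co hi ha0 hA f c) := by
  rw [IsLocallyConstant.iff_eventually_eq]
  intro σ
  have hc : Continuous (fun τ : GK i₀ => σ⁻¹ * τ) := continuous_const_mul _
  have h2 : Filter.Tendsto (fun τ : GK i₀ => σ⁻¹ * τ) (nhds σ) (nhds (σ⁻¹ * σ)) :=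
    hc.continuousAt (x := σ)
  rw [inv_mul_cancel] at h2
  filter_upwards [h2 (Co_nhds hi ha0 hA hnb c)] with τ hτ
  have h3 : Co hi ha0 hA f c (σ⁻¹ * τ) = 0 := hτ
  have h4 := Co_coc hi ha0 hA hf c σ (σ⁻¹ * τ)
  rw [mul_inv_cancel_left, h3, Pool.Agent.Y155.CT.act_zero, add_zero] at h4
  exact h4

/-! ### local triviality -/

section loc

variable {p : ℕ} [Fact p.Prime] (ι₀ : QB →ₐ[ℚ] PadicAlgCl p) {D : Ei} {u : QB}

/-- the embeddings with the same root of unity -/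
abbrev JJ (i₀ : QB) (ι₀ : QB →ₐ[ℚ] PadicAlgCl p) : Type :=
  {j : QB →ₐ[ℚ] PadicAlgCl p // j i₀ = ι₀ i₀}

/-- the local automorphisms which fix the root of unity -/
def LL (i₀ : QB) (ι₀ : QB →ₐ[ℚ] PadicAlgCl p) : Subgroup (Au p) where
  carrier := {τ | τ (ι₀ i₀) = ι₀ i₀}
  mul_mem' := by
    intro a b ha hb
    show (a * b) (ι₀ i₀) = ι₀ i₀
    rw [AlgEquiv.mul_apply]
    have h1 : b (ι₀ i₀) = ι₀ i₀ := hb
    have h2 : a (ι₀ i₀) = ι₀ i₀ := ha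
    rw [h1, h2]
  one_mem' := rfl
  inv_mem' := by
    intro a ha
    have h2 : a (ι₀ i₀) = ι₀ i₀ := ha
    show a⁻¹ (ι₀ i₀) = ι₀ i₀
    conv_lhs => rw [← h2]
    exact a.symm_apply_apply _

include hi in
lemma Ip_inj {c d : ZMod 3} (h : (ι₀ i₀) ^ c.val = (ι₀ i₀) ^ d.val) : c = d := by
  rw [← map_pow, ← map_pow] at h
  exact Pool.Agent.Y155.CT.ip_inj (hi := hi) (ι₀.injective h)

include hi in
lemma Ip_add (c d : ZMod 3) : (ι₀ i₀) ^ c.val * (ι₀ i₀) ^ d.val = (ι₀ i₀) ^ (c + d).val := by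
  rw [← map_pow, ← map_pow, ← map_pow, ← map_mul, Pool.Agent.Y155.CT.ip_add (hi := hi)]

variable (hT : Tw hi D u a0) (hD : D ≠ 0)

include hT in
lemma ex_c {x : PadicAlgCl p} (h : x ^ 3 = (ι₀ u) ^ 3) :
    ∃ c : ZMod 3, x = (ι₀ i₀) ^ (-c).val * ι₀ u := by
  have h3 : (ι₀ i₀) ^ 3 = 1 := by rw [← map_pow, i₀_cube hi, map_one]
  obtain ⟨n, hn⟩ := cube_eq (iota_sq' hi ι₀) h
  refine ⟨-(n : ZMod 3), ?_⟩
  rw [neg_neg, ZMod.val_natCast, hn]
  congr 1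
  exact pow_eq_pow_mod _ h3

include hT in
lemma j_cube (j : JJ i₀ ι₀) : (j.1 u) ^ 3 = (ι₀ u) ^ 3 := by
  rw [← map_pow, ← map_pow, hT.cube]
  have h1 : j.1 (ev i₀ hi D) = ev (ι₀ i₀) (iota_sq' hi ι₀) D := by
    have := map_ev j.1.toRingHom hi (iota_sq' hi ι₀) j.2 D
    exact this
  have h2 : ι₀ (ev i₀ hi D) = ev (ι₀ i₀) (iota_sq' hi ι₀) D :=
    map_ev ι₀.toRingHom hi (iota_sq' hi ι₀) rfl D
  rw [h1, h2]

include hT in
lemma l_cube (τ : LL i₀ ι₀) : (τ.1 (ι₀ u)) ^ 3 = (ι₀ u) ^ 3 := by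
  rw [← map_pow, ← map_pow, hT.cube]
  have h2 : ι₀ (ev i₀ hi D) = ev (ι₀ i₀) (iota_sq' hi ι₀) D :=
    map_ev ι₀.toRingHom hi (iota_sq' hi ι₀) rfl D
  rw [h2]
  exact ev_fix (iota_sq' hi ι₀) τ.2 D

/-- the Kummer cochain of an embedding -/
noncomputable def gm (j : JJ i₀ ι₀) : ZMod 3 := (ex_c hi ι₀ hT (j_cube hi ι₀ hT j)).choose

lemma gm_spec (j : JJ i₀ ι₀) : j.1 u = (ι₀ i₀) ^ (-gm hi ι₀ hT j).val * ι₀ u :=
  (ex_c hi ι₀ hT (j_cube hi ι₀ hT j)).choose_spec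

/-- the Kummer character of a local automorphism -/
noncomputable def dl (τ : LL i₀ ι₀) : ZMod 3 := (ex_c hi ι₀ hT (l_cube hi ι₀ hT τ)).choose

lemma dl_spec (τ : LL i₀ ι₀) : τ.1 (ι₀ u) = (ι₀ i₀) ^ (-dl hi ι₀ hT τ).val * ι₀ u :=
  (ex_c hi ι₀ hT (l_cube hi ι₀ hT τ)).choose_spec

include hT hD in
lemma v_ne : ι₀ u ≠ 0 := by
  intro h
  exact Pool.Agent.Y155.CT.u_ne hD hT ((map_eq_zero_iff ι₀ ι₀.injective).1 h)

include hi hT hD in
lemma c_uniq {c d : ZMod 3} (h : (ι₀ i₀) ^ (-c).val * ι₀ u = (ι₀ i₀) ^ (-d).val * ι₀ u) : c = d :=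
  neg_injective (Ip_inj hi ι₀ (mul_right_cancel₀ (v_ne hi ι₀ hT hD) h))

/-- composition -/
noncomputable def lcJ (τ : LL i₀ ι₀) (j : JJ i₀ ι₀) : JJ i₀ ι₀ :=
  ⟨(lh τ.1).comp j.1, by
    show τ.1 (j.1 i₀) = ι₀ i₀
    rw [j.2]
    exact τ.2⟩

/-- composition -/
noncomputable def rcJ (j : JJ i₀ ι₀) (g : GK i₀) : JJ i₀ ι₀ :=
  ⟨j.1.comp (gh g), by
    show j.1 (g i₀) = ι₀ i₀
    rw [gk_fix]
    exact j.2⟩

include hD in
lemma gm_lc (τ : LL i₀ ι₀) (j : JJ i₀ ι₀) :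
    gm hi ι₀ hT (lcJ ι₀ τ j) = gm hi ι₀ hT j + dl hi ι₀ hT τ := by
  apply c_uniq hi ι₀ hT hD
  rw [← gm_spec]
  show τ.1 (j.1 u) = _
  have h2 : τ.1 (ι₀ i₀) = ι₀ i₀ := τ.2
  rw [gm_spec hi ι₀ hT j, map_mul, map_pow, h2, dl_spec hi ι₀ hT τ, ← mul_assoc, Ip_add hi ι₀,
    neg_add]

include hD in
lemma gm_rc (j : JJ i₀ ι₀) (g : GK i₀) :
    gm hi ι₀ hT (rcJ ι₀ j g) = gm hi ι₀ hT j + a0 g := by
  apply c_uniq hi ι₀ hT hD
  rw [← gm_spec]
  show j.1 (g u) = _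
  have h2 : j.1 i₀ = ι₀ i₀ := j.2
  rw [hT.act, map_mul, map_pow, h2, gm_spec hi ι₀ hT j, ← mul_assoc, Ip_add hi ι₀]
  congr 3
  ring

include hD in
lemma gm_base : gm hi ι₀ hT ⟨ι₀, rfl⟩ = 0 := by
  apply c_uniq hi ι₀ hT hD
  rw [← gm_spec]
  simp

include hD in
lemma dl_mul (τ τ' : LL i₀ ι₀) :
    dl hi ι₀ hT (τ * τ') = dl hi ι₀ hT τ + dl hi ι₀ hT τ' := by
  apply c_uniq hi ι₀ hT hD
  rw [← dl_spec]
  show τ.1 (τ'.1 (ι₀ u)) = _
  have h2 : τ.1 (ι₀ i₀) = ι₀ i₀ := τ.2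
  rw [dl_spec hi ι₀ hT τ', map_mul, map_pow, h2, dl_spec hi ι₀ hT τ, ← mul_assoc, Ip_add hi ι₀]
  congr 3
  ring

include hD in
/-- compatible automorphisms have the same value -/
lemma dl_cmp {τ : LL i₀ ι₀} {j : JJ i₀ ι₀} {g : GK i₀} (h : lcJ ι₀ τ j = rcJ ι₀ j g) :
    dl hi ι₀ hT τ = a0 g := by
  have h1 := gm_lc hi ι₀ hT hD τ j
  rw [h, gm_rc hi ι₀ hT hD] at h1
  exact (add_left_cancel h1).symm

/-- the local data -/
noncomputable def LD (ha0 : ∀ σ τ, a0 (σ * τ) = a0 σ + a0 τ) :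
    Loc (GK i₀) (Pt QB) (JJ i₀ ι₀) (LL i₀ ι₀) (Pt (PadicAlgCl p)) where
  a :=
    { toFun := fun σ => ah hi a0 σ
      map_one' := by
        have h := ha0 1 1
        rw [mul_one] at h
        ext P
        show act hi a0 1 P = P
        rw [act_def, left_eq_add.1 h, jj_z, gh_one]
      map_mul' := fun σ τ => by
        ext P
        exact ah_mul hi (a := a0) ha0 σ τ P }
  b :=
    { toFun := fun τ => (jh (iota_sq' hi ι₀) (dl hi ι₀ hT τ)).comp (pm (lh τ.1))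
      map_one' := by
        have h := dl_mul hi ι₀ hT hD 1 1
        rw [mul_one] at h
        ext P
        show jj (iota_sq' hi ι₀) (dl hi ι₀ hT 1) (pm (lh (1 : Au p)) P) = P
        rw [left_eq_add.1 h, jj_z]
        exact pm_id P
      map_mul' := fun σ τ => by
        ext P
        show jj (iota_sq' hi ι₀) (dl hi ι₀ hT (σ * τ)) (pm (lh (σ.1 * τ.1)) P) =
          jj (iota_sq' hi ι₀) (dl hi ι₀ hT σ) (pm (lh σ.1)
            (jj (iota_sq' hi ι₀) (dl hi ι₀ hT τ) (pm (lh τ.1) P)))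
        rw [pm_jj (iota_sq' hi ι₀) (lh σ.1) (iota_sq' hi ι₀) σ.2, jj_jj, pm_pm,
          dl_mul hi ι₀ hT hD, lh_mul] }
  lc := lcJ ι₀
  rc := rcJ ι₀
  st j := (jh (iota_sq' hi ι₀) (gm hi ι₀ hT j)).comp (pm j.1)
  lc_mul _ _ _ := rfl
  lc_one _ := rfl
  rc_mul _ _ _ := rfl
  rc_one _ := rfl
  comm _ _ _ := rfl
  st_l τ j x := by
    show jj (iota_sq' hi ι₀) (gm hi ι₀ hT (lcJ ι₀ τ j)) (pm ((lh τ.1).comp j.1) x) =
      jj (iota_sq' hi ι₀) (dl hi ι₀ hT τ) (pm (lh τ.1)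
        (jj (iota_sq' hi ι₀) (gm hi ι₀ hT j) (pm j.1 x)))
    rw [pm_jj (iota_sq' hi ι₀) (lh τ.1) (iota_sq' hi ι₀) τ.2, jj_jj, pm_pm,
      gm_lc hi ι₀ hT hD, add_comm]
  st_r j g x := by
    show jj (iota_sq' hi ι₀) (gm hi ι₀ hT (rcJ ι₀ j g)) (pm (j.1.comp (gh g)) x) =
      jj (iota_sq' hi ι₀) (gm hi ι₀ hT j) (pm j.1 (jj hi (a0 g) (pm (gh g) x)))
    rw [pm_jj hi j.1 (iota_sq' hi ι₀) j.2, jj_jj, pm_pm, gm_rc hi ι₀ hT hD]

end loc

end core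

end Pool.Agent.H91.Sh
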