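import Pool.Agent.H91.Sh1

/-!
# Corestriction with several cubic characters: local triviality and the sum

Adapted from the library (`Pool/Graph/R_seed8/Y858/CTE/Core.lean`).
-/

set_option autoImplicit false
set_option linter.unusedSectionVars false

open scoped Classical

namespace Pool.Agent.H91.Sh

open WeierstrassCurve
open Pool.Agent.Y692.QS (Ei w nr toC)
open Pool.Agent.Y703.CT
open Pool.Agent.Y715.T.Gi Pool.Agent.Y715.T.Nr Pool.Agent.Y715.T.Df Pool.Agent.Y715.T.Ell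
open Pool.Agent.Y155.CT (jj_jj pm_jj ah ah_apply ah_mul act_def jj_add jj_zero act_add jh jh_apply)
open Pool.Agent.TH841.NF (cor cor_coc cor_cob cor_zero_of mem_H chi_s Loc exists_family)
open Pool.Agent.Y858.CTE (sec sec_spec sec_one jj_z jj_sum jj_sub sum_jj gh_one)

variable {k : ℕ} {i₀ : QB} (hi : i₀ ^ 2 + i₀ + 1 = 0) {a0 : GK i₀ → ZMod 3}
  (ha0 : ∀ σ τ, a0 (σ * τ) = a0 σ + a0 τ) {A : GK i₀ → V k}
  (hA : ∀ σ τ, A (σ * τ) = A σ + A τ)
  {f : GK i₀ → Pt QB} (hf : ∀ σ τ, A σ = 0 → A τ = 0 → f (σ * τ) = f σ + act hi a0 σ (f τ))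
  {D : Ei} {u : QB} (hT : Tw hi D u a0) (hD : D ≠ 0)

lemma jj_congr {F : Type} [Field F] [Algebra ℚ F] [CharZero F] {I I' : F}
    (hI : I ^ 2 + I + 1 = 0) (hI' : I' ^ 2 + I' + 1 = 0) (h : I = I') (c : ZMod 3) (P : Pt F) :
    jj hI c P = jj hI' c P := by
  subst h
  rfl

include hT hD hf in
lemma Co_loc (p : ℕ) [Fact p.Prime]
    (hloc : ∀ ι : QB →ₐ[ℚ] PadicAlgCl p, ∃ R : Pt (PadicAlgCl p), ∀ (τ : Au p) (σ : GK i₀),
      A σ = 0 → Cmp ι τ σ → pm ι (f σ) = jj (iota_sq' hi ι) (a0 σ) (pm (lh τ) R) - R)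
    (ι : QB →ₐ[ℚ] PadicAlgCl p) (c : V k) :
    ∃ R : Pt (PadicAlgCl p), ∀ (τ : Au p) (σ : GK i₀), Cmp ι τ σ →
      pm ι (Co hi ha0 hA f c σ) = jj (iota_sq' hi ι) (bc a0 A c σ) (pm (lh τ) R) - R := by
  have hI := iota_sq' hi ι
  obtain ⟨P, hP⟩ := exists_family (LD hi ι hT hD ha0) (H := HK hA) (f := f)
    (fun x hx y hy => hf x y ((mem_HK hA x).1 hx) ((mem_HK hA y).1 hy)) (fun j => by
      obtain ⟨R, hR⟩ := hloc j.1
      refine ⟨jj hI (gm hi ι hT j) R, fun τ h hh e => ?_⟩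
      have e' : lcJ ι τ j = rcJ ι j h := e
      have hcm : Cmp j.1 τ.1 h := fun x => DFunLike.congr_fun (congrArg Subtype.val e') x
      have h1 := hR τ.1 h ((mem_HK hA h).1 hh) hcm
      have h2 := dl_cmp hi ι hT hD e'
      show jj hI (gm hi ι hT j) (pm j.1 (f h)) =
        jj hI (dl hi ι hT τ) (pm (lh τ.1) (jj hI (gm hi ι hT j) R)) - jj hI (gm hi ι hT j) R
      rw [h1, jj_sub, jj_congr (iota_sq' hi j.1) hI j.2, jj_jj,
        pm_jj hI (lh τ.1) hI τ.2, jj_jj, h2, add_comm])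
  let j0 : JJ i₀ ι := ⟨ι, rfl⟩
  refine ⟨∑ q : GK i₀ ⧸ HK hA, jj hI (dot c (A (sec (HK hA) q)))
    (P (rcJ ι j0 (sec (HK hA) q))), fun τ g hc => ?_⟩
  let τ' : LL i₀ ι := ⟨τ, hc.fix⟩
  have hcg : lcJ ι τ' j0 = rcJ ι j0 g := Subtype.ext (AlgHom.ext hc)
  have hdl : dl hi ι hT τ' = a0 g := dl_cmp hi ι hT hD hcg
  have ha1 : ∀ q : GK i₀ ⧸ HK hA, A (sec (HK hA) (g • q)) = A g + A (sec (HK hA) q) := by
    intro q
    have h1 := (mem_HK hA _).1 (mem_H (sec_spec (HK hA)) g q)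
    have h2 : g * sec (HK hA) q = sec (HK hA) (g • q) *
      ((sec (HK hA) (g • q))⁻¹ * g * sec (HK hA) q) := by group
    rw [← hA, h2, hA, h1, add_zero]
  have e1 : ∑ q : GK i₀ ⧸ HK hA, jj hI (dot c (A (sec (HK hA) q)))
      (P (rcJ ι j0 (sec (HK hA) q))) =
      ∑ q : GK i₀ ⧸ HK hA, jj hI (dot c (A (sec (HK hA) (g • q))))
        (P (rcJ ι j0 (sec (HK hA) (g • q)))) :=
    (Equiv.sum_comp (MulAction.toPerm g : Equiv.Perm (GK i₀ ⧸ HK hA)) (fun q =>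
      jj hI (dot c (A (sec (HK hA) q))) (P (rcJ ι j0 (sec (HK hA) q))))).symm
  conv_rhs => rw [sub_eq_add_neg]; arg 2; rw [e1]
  rw [← sub_eq_add_neg, map_sum, jj_sum, ← Finset.sum_sub_distrib]
  unfold Co cor
  rw [map_sum]
  refine Finset.sum_congr rfl fun q _ => ?_
  obtain ⟨s', hs'⟩ : ∃ s', s' = sec (HK hA) (g • q) := ⟨_, rfl⟩
  obtain ⟨s, hs⟩ : ∃ s, s = sec (HK hA) q := ⟨_, rfl⟩
  have h1 : (1 : GK i₀ →* ℤ) s' = 1 := rfl
  have hH := mem_H (sec_spec (HK hA)) g q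
  rw [← hs, ← hs'] at hH ⊢
  have hm : g = s' * ((s'⁻¹ * g * s) * s⁻¹) := by group
  have h2 := hP τ' (rcJ ι j0 s) (rcJ ι j0 s') _ hH (by
      show lcJ ι τ' (rcJ ι j0 s) = rcJ ι (rcJ ι j0 s') (s'⁻¹ * g * s)
      apply Subtype.ext
      apply AlgHom.ext
      intro x
      show τ (ι (s x)) = ι (s' ((s'⁻¹ * g * s) x))
      rw [hc, ← AlgEquiv.mul_apply, ← AlgEquiv.mul_apply]
      congr 2
      group)
  have h3 : jj hI (gm hi ι hT (rcJ ι j0 s')) (pm (ι.comp (gh s')) (f (s'⁻¹ * g * s))) =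
      jj hI (dl hi ι hT τ') (pm (lh τ) (P (rcJ ι j0 s))) - P (rcJ ι j0 s') := h2
  have hg0 : gm hi ι hT (rcJ ι j0 s') = a0 s' := by
    rw [gm_rc hi ι hT hD, gm_base hi ι hT hD, zero_add]
  rw [hg0, hdl] at h3
  rw [h1, one_smul, Ac_apply', act_def, pm_jj hi ι hI rfl, pm_jj hi ι hI rfl, pm_pm, h3, jj_sub,
    pm_jj hI (lh τ) hI hc.fix, jj_jj, jj_jj]
  congr 2
  rw [hs', hs, ha1, dot_add]
  unfold bc
  ring

include ha0 hA hf hT hD in
theorem core (hnb : {σ : GK i₀ | A σ = 0 ∧ f σ = 0} ∈ nhds (1 : GK i₀))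
    (hloc : ∀ (p : ℕ) [Fact p.Prime] (ι : QB →ₐ[ℚ] PadicAlgCl p), ∃ R : Pt (PadicAlgCl p),
      ∀ (τ : Au p) (σ : GK i₀), A σ = 0 → Cmp ι τ σ →
        pm ι (f σ) = jj (iota_sq' hi ι) (a0 σ) (pm (lh τ) R) - R)
    (hS : ∀ c : V k, ShK hi (bc a0 A c)) (n : ℕ)
    (hP : ∃ P, ∀ σ, A σ = 0 → 3 ^ n • f σ = act hi a0 σ P - P) :
    ∃ P, ∀ σ, A σ = 0 → 3 ^ k • f σ = act hi a0 σ P - P := by
  obtain ⟨P, hP⟩ := hP
  have h1 : ∀ c : V k, ∃ Q, ∀ σ, Co hi ha0 hA f c σ = act hi (bc a0 A c) σ Q - Q :=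
    fun c => hS c n (Co hi ha0 hA f c) (Co_lc hi ha0 hA hf hnb c) (Co_coc hi ha0 hA hf c)
      (fun p _ ι => Co_loc hi ha0 hA hf hT hD p (hloc p) ι c) (Co_cob hi ha0 hA (3 ^ n) hP c)
  choose Q hQ using h1
  refine ⟨∑ c, Q c, fun h hh => ?_⟩
  have hh' : h ∈ HK hA := (mem_HK hA h).2 hh
  have hq : ∀ q : GK i₀ ⧸ HK hA, h • q = q := by
    intro q
    induction q using QuotientGroup.induction_on with
    | H g =>
      change ((h * g : GK i₀) : GK i₀ ⧸ HK hA) = g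
      rw [eq_comm, QuotientGroup.eq, ← mul_assoc]
      have := (inferInstance : (HK hA).Normal).conj_mem h hh' g⁻¹
      rwa [inv_inv] at this
  have h2 : ∑ c : V k, Co hi ha0 hA f c h = 3 ^ k • f h := by
    unfold Co cor
    rw [Finset.sum_comm, Finset.sum_eq_single ((1 : GK i₀) : GK i₀ ⧸ HK hA)]
    · have h3 : ∀ c : V k, (1 : GK i₀ →* ℤ) (sec (HK hA) (h • ((1 : GK i₀) : GK i₀ ⧸ HK hA))) •
          Ac hi ha0 hA c (sec (HK hA) (h • ((1 : GK i₀) : GK i₀ ⧸ HK hA)))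
            (f ((sec (HK hA) (h • ((1 : GK i₀) : GK i₀ ⧸ HK hA)))⁻¹ * h *
              sec (HK hA) ((1 : GK i₀) : GK i₀ ⧸ HK hA))) = f h := by
        intro c
        rw [hq, sec_one, map_one, map_one, one_smul, inv_one, one_mul, mul_one]
        rfl
      rw [Finset.sum_congr rfl fun c _ => h3 c, Finset.sum_const, Finset.card_univ,
        Fintype.card_fun, ZMod.card, Fintype.card_fin]
    · intro q _ hq1
      have hne : A (sec (HK hA) q) ≠ 0 := by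
        intro h0
        apply hq1
        rw [← sec_spec (HK hA) q, eq_comm, QuotientGroup.eq]
        simpa using (mem_HK hA _).2 h0
      have h3 : ∀ c : V k, (1 : GK i₀ →* ℤ) (sec (HK hA) (h • q)) •
          Ac hi ha0 hA c (sec (HK hA) (h • q)) (f ((sec (HK hA) (h • q))⁻¹ * h * sec (HK hA) q)) =
          jj hi (dot c (A (sec (HK hA) q))) (act hi a0 (sec (HK hA) q)
            (f ((sec (HK hA) q)⁻¹ * h * sec (HK hA) q))) := by
        intro c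
        have h4 : (1 : GK i₀ →* ℤ) (sec (HK hA) (h • q)) = 1 := rfl
        rw [h4, one_smul, hq, Ac_apply']
      rw [Finset.sum_congr rfl fun c _ => h3 c]
      exact sum_dot hi hne _
    · intro h0
      exact absurd (Finset.mem_univ _) h0
  rw [← h2, act_def, map_sum, jj_sum, ← Finset.sum_sub_distrib]
  refine Finset.sum_congr rfl fun c _ => ?_
  rw [hQ, act_def]
  congr 2
  unfold bc
  rw [hh, dot_zero, add_zero]

end Pool.Agent.H91.Sh
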