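import Pool.Agent.H91.Sh2
import Pool.Graph.R_seed8.Y858.CTE.Shf

/-!
# The Tate-Shafarevich group over the fields generated by cube roots

Adapted from the library (`Pool/Graph/R_seed8/Y858/CTE/Shf.lean`).
-/

set_option autoImplicit false
set_option linter.unusedSectionVars false
set_option linter.unusedVariables false

open scoped Classical

namespace Pool.Agent.H91.Sh

open NumberField IsDedekindDomain WeierstrassCurve
open Pool.Agent.Y692.QS (Ei w nr toC)
open Pool.Agent.Y703.CT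
open Pool.Agent.Y715.T.Gi Pool.Agent.Y715.T.Nr Pool.Agent.Y715.T.Df Pool.Agent.Y715.T.Ell
open Pool.Agent.TH841.NF (Sc tF tF_zero tF_some tF_add ns_iff aut_of_two place_p)
open Pool.Agent.TH841.NF.D (Sha)
open Pool.Agent.TH841.SH.D (Gal Coch IsCoc IsCob LocTriv cob)
open Pool.Agent.Y696.CTK (ED TrfData)
open Pool.Agent.Y737.CTK (ph ph_ev ph_apply gg gg_cont gg_symm_cont gg_apply sc Psi Psi_some
  Psi_zero eK eK_mem it_some pt_ext w_rel exists_e cg cg_apply)
open Pool.Agent.Y858.CTE (trf_data tw_pow cj cj_apply exists_lift jj_z)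

/-! ### products of the characters -/

section tw

variable {i₀ : QB} {hi : i₀ ^ 2 + i₀ + 1 = 0}

lemma tw_one : Tw hi 1 1 (fun _ => 0) where
  cube := by rw [one_pow, map_one]
  act := fun σ => by
    rw [map_one, neg_zero, ZMod.val_zero, pow_zero, one_mul]

lemma tw_mul {D D' : Ei} {u u' : QB} {a a' : GK i₀ → ZMod 3} (hT : Tw hi D u a)
    (hT' : Tw hi D' u' a') : Tw hi (D * D') (u * u') (fun σ => a σ + a' σ) where
  cube := by rw [mul_pow, hT.cube, hT'.cube, map_mul]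
  act := fun σ => by
    rw [map_mul, hT.act, hT'.act, neg_add, ← Pool.Agent.Y155.CT.ip_add (hi := hi)]
    ring

lemma tw_prod {k : ℕ} {μ : Fin k → Ei} {t : Fin k → QB} {A : GK i₀ → V k}
    (hT : ∀ i, Tw hi (μ i) (t i) (fun σ => A σ i)) (c : V k) (s : Finset (Fin k)) :
    Tw hi (∏ i ∈ s, μ i ^ (c i).val) (∏ i ∈ s, t i ^ (c i).val)
      (fun σ => ∑ i ∈ s, c i * A σ i) := by
  induction s using Finset.induction_on with
  | empty =>
    simp only [Finset.prod_empty, Finset.sum_empty]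
    exact tw_one
  | insert i s his ih =>
    have h1 := tw_mul (tw_pow (hT i) (c i).val) ih
    rw [← Finset.prod_insert his (f := fun i => μ i ^ (c i).val),
      ← Finset.prod_insert his (f := fun i => t i ^ (c i).val)] at h1
    have h2 : (fun σ => (((c i).val : ℕ) : ZMod 3) * A σ i + ∑ i ∈ s, c i * A σ i) =
        fun σ => ∑ i ∈ insert i s, c i * A σ i := by
      funext σ
      rw [Finset.sum_insert his, ZMod.natCast_zmod_val]
    rw [h2] at h1
    exact h1

end tw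

section field

variable {K F : Type} [Field K] [NumberField K] [Field F] [NumberField F] [Algebra K F]

/-- compatible identifications of the algebraic closures -/
theorem exists_eF (e : AlgebraicClosure K ≃+* QB) :
    ∃ eF : AlgebraicClosure F ≃+* QB,
      ∀ x : K, eF (algebraMap F _ (algebraMap K F x)) = e (algebraMap K _ x) := by
  have h0 : Module.Finite K F := Module.Finite.of_restrictScalars_finite ℚ K F
  have h1 : Algebra.IsAlgebraic K (AlgebraicClosure F) := Algebra.IsAlgebraic.trans K F _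
  have h2 : IsAlgClosure K (AlgebraicClosure F) := ⟨inferInstance, h1⟩
  let κ := IsAlgClosure.equiv K (AlgebraicClosure F) (AlgebraicClosure K)
  refine ⟨κ.toRingEquiv.trans e, fun x => ?_⟩
  show e (κ (algebraMap F _ (algebraMap K F x))) = _
  rw [← IsScalarTower.algebraMap_apply K F (AlgebraicClosure F), κ.commutes]

variable {j : Ei ≃+* 𝓞 K} {e : AlgebraicClosure K ≃+* QB} {eF : AlgebraicClosure F ≃+* QB}
  (hc : ∀ x : K, eF (algebraMap F _ (algebraMap K F x)) = e (algebraMap K _ x))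
  {i₀ : QB} (hi : i₀ ^ 2 + i₀ + 1 = 0) (h : ph j e w = i₀)

include hc hi h in
theorem fix_F {k : ℕ} {θ : Fin k → F} (hgen : IntermediateField.adjoin K (Set.range θ) = ⊤)
    (σ : GK i₀) (hσ : ∀ i, σ (eF (algebraMap F _ (θ i))) = eF (algebraMap F _ (θ i)))
    (x : F) : σ (eF (algebraMap F _ x)) = eF (algebraMap F _ x) := by
  let L : IntermediateField K F :=
    { carrier := {x | σ (eF (algebraMap F _ x)) = eF (algebraMap F _ x)}
      mul_mem' := fun {x y} hx hy => by
        rw [Set.mem_ofPred_eq] at hx hy ⊢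
        rw [map_mul, map_mul, map_mul, hx, hy]
      add_mem' := fun {x y} hx hy => by
        rw [Set.mem_ofPred_eq] at hx hy ⊢
        rw [map_add, map_add, map_add, hx, hy]
      algebraMap_mem' := fun r => by
        rw [Set.mem_ofPred_eq, hc]
        exact σ.commutes (⟨eK e r, eK_mem j e hi h r⟩ : KK i₀)
      inv_mem' := fun x hx => by
        rw [Set.mem_ofPred_eq] at hx ⊢
        rw [map_inv₀, map_inv₀, map_inv₀, hx] }
  have h1 : IntermediateField.adjoin K (Set.range θ) ≤ L := by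
    rw [IntermediateField.adjoin_le_iff]
    rintro _ ⟨i, rfl⟩
    exact hσ i
  rw [hgen] at h1
  exact h1 IntermediateField.mem_top

end field

section F

variable {F : Type} [Field F] [NumberField F] {eF : AlgebraicClosure F ≃+* QB} {i₀ : QB}
  (hi : i₀ ^ 2 + i₀ + 1 = 0) {D : Ei} (hD : D ≠ 0) {u : QB} {a0 : GK i₀ → ZMod 3}
  (hT : Tw hi D u a0) {d : F} (hd : eF (algebraMap F _ d) = ev i₀ hi D)

include hD hT hd in
theorem scF : Sc (eF : AlgebraicClosure F →+* QB) u⁻¹
    ((ED d).baseChange (AlgebraicClosure F)) (W0.baseChange QB) where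
  hu := inv_ne_zero (Pool.Agent.Y737.CTK.u_ne hi hD hT.cube)
  h1 := by
    show algebraMap ℚ QB 0 = eF (algebraMap F _ 0) * u⁻¹
    simp
  h2 := by
    show algebraMap ℚ QB 0 = eF (algebraMap F _ 0) * u⁻¹ ^ 2
    simp
  h3 := by
    show algebraMap ℚ QB 1 = eF (algebraMap F _ d) * u⁻¹ ^ 3
    rw [map_one, inv_pow, hT.cube, hd, mul_inv_cancel₀ (ev_ne hi hD)]
  h4 := by
    show algebraMap ℚ QB 0 = eF (algebraMap F _ 0) * u⁻¹ ^ 4
    simp
  h6 := by
    show algebraMap ℚ QB 0 = eF (algebraMap F _ 0) * u⁻¹ ^ 6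
    simp

include hi in
lemma pow_sq (c : ZMod 3) : (i₀ ^ (-c).val) ^ 2 = i₀ ^ c.val := by
  have hI3 := i₀_cube hi
  rcases z3 c with rfl | rfl | rfl
  · simp
  · have a1 : (-1 : ZMod 3).val = 2 := by decide
    have a2 : (1 : ZMod 3).val = 1 := by decide
    rw [a1, a2]
    linear_combination i₀ * hI3
  · have a1 : (-1 : ZMod 3).val = 2 := by decide
    have a2 : (1 : ZMod 3).val = 1 := by decide
    rw [neg_neg, a1, a2]
    ring

include hT in
lemma u_cube_fix (σ : GK i₀) : (σ u) ^ 3 = u ^ 3 := by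
  rw [← map_pow, hT.cube, gk_ev]

theorem Psi_act (S : Sc (eF : AlgebraicClosure F →+* QB) u⁻¹
    ((ED d).baseChange (AlgebraicClosure F)) (W0.baseChange QB)) (hT : Tw hi D u a0)
    {σ : GK i₀} {σ' : Gal F} (hs : ∀ x, σ (eF x) = eF (σ' x))
    (P : Pool.Agent.TH841.SH.D.Pt (ED d) (AlgebraicClosure F)) :
    Psi S (Pool.Agent.TH841.SH.D.act (ED d) σ'.toAlgHom P) = act hi a0 σ (Psi S P) := by
  rcases P with _ | ⟨x, y, hn⟩
  · show Psi S (Pool.Agent.TH841.SH.D.act (ED d) σ'.toAlgHom 0) = act hi a0 σ (Psi S 0)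
    rw [map_zero, map_zero, Pool.Agent.Y155.CT.act_zero]
  · have hσn : ((ED d).baseChange (AlgebraicClosure F)).toAffine.Nonsingular
        (σ'.toAlgHom x) (σ'.toAlgHom y) :=
      (Affine.baseChange_nonsingular (ED d) σ'.toAlgHom.injective ..).mpr hn
    have e1 : Pool.Agent.TH841.SH.D.act (ED d) σ'.toAlgHom (Affine.Point.some x y hn) =
      (Affine.Point.some (σ'.toAlgHom x) (σ'.toAlgHom y) hσn) := rfl
    have hn2 := (ns_iff S x y).2 hn
    have hn3 : (W0.baseChange QB).toAffine.Nonsingular (gh σ (eF x * u⁻¹ ^ 2))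
        (gh σ (eF y * u⁻¹ ^ 3)) :=
      (Affine.baseChange_nonsingular W0.toAffine (gh σ).injective ..).mpr hn2
    have e2 : act hi a0 σ (Psi S (Affine.Point.some x y hn)) =
        jj hi (a0 σ) (.some _ _ hn3) := rfl
    obtain ⟨h4, e3⟩ := it_some hi (a0 σ).val hn3
    refine (congrArg (Psi S) e1).trans (Eq.trans ?_ (e3.symm.trans e2.symm))
    refine (Psi_some S _ _ hσn).trans (pt_ext _ _ ?_ ?_)
    · show eF (σ' x) * u⁻¹ ^ 2 = i₀ ^ (a0 σ).val * σ (eF x * u⁻¹ ^ 2)
      have hI3 := i₀_cube hi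
      rw [map_mul, hs, map_pow, map_inv₀, hT.act]
      have hi0 : i₀ ≠ 0 := by
        rintro rfl
        norm_num at hI3
      rw [mul_inv, mul_pow, inv_pow (i₀ ^ _), pow_sq hi]
      have h5 : i₀ ^ (a0 σ).val ≠ 0 := pow_ne_zero _ hi0
      field_simp
    · show eF (σ' y) * u⁻¹ ^ 3 = σ (eF y * u⁻¹ ^ 3)
      rw [map_mul, hs, map_pow, map_inv₀, inv_pow, inv_pow, u_cube_fix hi hT]

include hD hd in
theorem local_F (S : Sc (eF : AlgebraicClosure F →+* QB) u⁻¹
    ((ED d).baseChange (AlgebraicClosure F)) (W0.baseChange QB)) (hT : Tw hi D u a0)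
    {f : Coch (ED d)} (hf : Pool.Agent.TH841.NF.D.IsShaCoc (ED d) f)
    (p : ℕ) [Fact p.Prime] (ι : QB →ₐ[ℚ] PadicAlgCl p) :
    ∃ R : Pt (PadicAlgCl p), ∀ (τ : Au p) (σ : GK i₀) (σ' : Gal F), Cmp ι τ σ →
      (∀ x, σ (eF x) = eF (σ' x)) →
      pm ι (Psi S (f σ')) = jj (iota_sq' hi ι) (a0 σ) (pm (lh τ) R) - R := by
  obtain ⟨v, β, hβ, hfix⟩ := place_p (p := p) ((ι : QB →+* PadicAlgCl p).comp
    ((eF : AlgebraicClosure F →+* QB).comp (algebraMap F (AlgebraicClosure F))))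
  let i1 : Algebra (v.adicCompletion F) (PadicAlgCl p) := β.toAlgebra
  let β' : AlgebraicClosure (v.adicCompletion F) →ₐ[v.adicCompletion F] PadicAlgCl p :=
    IsAlgClosed.lift
  have hβ' : ∀ y : v.adicCompletion F, β' (algebraMap _ _ y) = β y := fun y => β'.commutes y
  let ι₀ : AlgebraicClosure F →ₐ[F] AlgebraicClosure (v.adicCompletion F) := IsAlgClosed.lift
  have hbF : ∀ x : F, β' (algebraMap F (AlgebraicClosure (v.adicCompletion F)) x) =
      ι (eF (algebraMap F _ x)) := by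
    intro x
    refine Eq.trans ?_ (hβ x)
    exact hβ' (algebraMap F (v.adicCompletion F) x)
  obtain ⟨σ₀, hσ₀⟩ := aut_of_two
    ((β' : AlgebraicClosure (v.adicCompletion F) →+* PadicAlgCl p).comp
      (ι₀ : AlgebraicClosure F →+* AlgebraicClosure (v.adicCompletion F)))
    ((ι : QB →+* PadicAlgCl p).comp (eF : AlgebraicClosure F →+* QB)) (by
      intro x
      change β' (ι₀ (algebraMap F _ x)) = ι (eF (algebraMap F _ x))
      rw [ι₀.commutes]
      exact hbF x)
  have hσ1 : ∀ x, ι (eF x) = β' (ι₀ (σ₀ x)) := hσ₀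
  let ι' : AlgebraicClosure F →ₐ[F] AlgebraicClosure (v.adicCompletion F) :=
    ι₀.comp σ₀.toAlgHom
  have hι : ∀ x, ι (eF x) = β' (ι' x) := hσ1
  obtain ⟨P', hP'⟩ := hf.2.1 v ι'
  have hu0 : u ≠ 0 := Pool.Agent.Y737.CTK.u_ne hi hD hT.cube
  have hv0 : ι u ≠ 0 := fun h0 => hu0 ((map_eq_zero_iff ι ι.injective).1 h0)
  have S' : Sc (β' : AlgebraicClosure (v.adicCompletion F) →+* PadicAlgCl p) (ι u)⁻¹
      ((ED d).baseChange (AlgebraicClosure (v.adicCompletion F)))
      (W0.baseChange (PadicAlgCl p)) := by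
    refine ⟨inv_ne_zero hv0, ?_, ?_, ?_, ?_, ?_⟩
    · show algebraMap ℚ _ 0 = β' (algebraMap F _ 0) * _
      rw [map_zero, map_zero, map_zero, zero_mul]
    · show algebraMap ℚ _ 0 = β' (algebraMap F _ 0) * _
      rw [map_zero, map_zero, map_zero, zero_mul]
    · show algebraMap ℚ _ 1 = β' (algebraMap F _ d) * _
      rw [map_one, hbF, hd, inv_pow, ← map_pow, hT.cube, mul_inv_cancel₀]
      rw [← hT.cube, map_pow]
      exact pow_ne_zero 3 hv0
    · show algebraMap ℚ _ 0 = β' (algebraMap F _ 0) * _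
      rw [map_zero, map_zero, map_zero, zero_mul]
    · show algebraMap ℚ _ 0 = β' (algebraMap F _ 0) * _
      rw [map_zero, map_zero, map_zero, zero_mul]
  let M : Pool.Agent.TH841.SH.D.Pt (ED d) (AlgebraicClosure (v.adicCompletion F)) →+
      Pt (PadicAlgCl p) :=
    { toFun := tF S'
      map_zero' := rfl
      map_add' := tF_add S' }
  have M_some : ∀ x y h, M (Affine.Point.some x y h :
      ((ED d).baseChange (AlgebraicClosure (v.adicCompletion F))).toAffine.Point) =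
      Affine.Point.some (β' x * (ι u)⁻¹ ^ 2) (β' y * (ι u)⁻¹ ^ 3)
        ((Pool.Agent.TH841.NF.ns_iff S' x y).2 h) := fun _ _ _ => rfl
  have M_zero : M (0 : Pool.Agent.TH841.SH.D.Pt (ED d)
      (AlgebraicClosure (v.adicCompletion F))) = 0 := map_zero M
  have hM1 : ∀ Q : Pool.Agent.TH841.SH.D.Pt (ED d) (AlgebraicClosure F),
      pm ι (Psi S Q) = M (Pool.Agent.TH841.SH.D.act (ED d) ι' Q) := by
    intro Q
    rcases Q with _ | ⟨x, y, h⟩
    · have e1 : Psi S (0 : Pool.Agent.TH841.SH.D.Pt (ED d) (AlgebraicClosure F)) = 0 :=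
        map_zero (Psi S)
      have e2 : Pool.Agent.TH841.SH.D.act (ED d) ι'
        (0 : Pool.Agent.TH841.SH.D.Pt (ED d) (AlgebraicClosure F)) = 0 := map_zero _
      refine (congrArg (pm ι) e1).trans ?_
      rw [map_zero]
      exact ((congrArg M e2).trans M_zero).symm
    · refine pt_ext _ _ ?_ ?_
      · show ι (eF x * u⁻¹ ^ 2) = β' (ι' x) * (ι u)⁻¹ ^ 2
        rw [map_mul, map_pow, map_inv₀, hι]
      · show ι (eF y * u⁻¹ ^ 3) = β' (ι' y) * (ι u)⁻¹ ^ 3
        rw [map_mul, map_pow, map_inv₀, hι]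
  refine ⟨M P', fun τ σ σ' hcm hs => ?_⟩
  have hcc : ∀ x, τ (ι (eF x)) = ι (eF (σ' x)) := fun x => by rw [hcm, hs]
  have hfx : ∀ y, τ (β y) = β y := by
    apply hfix
    intro x
    change τ (ι (eF (algebraMap F _ x))) = ι (eF (algebraMap F _ x))
    rw [hcc, σ'.commutes]
  obtain ⟨τ', hτ'⟩ := aut_of_two
    (β' : AlgebraicClosure (v.adicCompletion F) →+* PadicAlgCl p)
    (((τ : PadicAlgCl p ≃+* PadicAlgCl p) : PadicAlgCl p →+* PadicAlgCl p).comp
      (β' : AlgebraicClosure (v.adicCompletion F) →+* PadicAlgCl p)) (by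
      intro y
      change β' (algebraMap _ _ y) = τ (β' (algebraMap _ _ y))
      rw [hβ', hfx])
  have hτ2 : ∀ x, τ (β' x) = β' (τ' x) := hτ'
  have hcomp : ∀ x, τ' (ι' x) = ι' (σ' x) := by
    intro x
    apply (β' : AlgebraicClosure (v.adicCompletion F) →+* PadicAlgCl p).injective
    change β' (τ' (ι' x)) = β' (ι' (σ' x))
    rw [← hτ2, ← hι, ← hι, hcc]
  have h1 := hP' τ' σ' hcomp
  have hτu : τ (ι u) = (ι i₀) ^ (-a0 σ).val * ι u := by
    rw [hcm, hT.act, map_mul, map_pow]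
  rw [hM1, h1, map_sub]
  congr 1
  rcases P' with _ | ⟨x, y, h⟩
  · have e2 : Pool.Agent.TH841.SH.D.act (ED d) (τ'.toAlgHom.restrictScalars F)
      (0 : Pool.Agent.TH841.SH.D.Pt (ED d) (AlgebraicClosure (v.adicCompletion F))) = 0 :=
      map_zero _
    refine ((congrArg M e2).trans M_zero).trans ?_
    have e3 : jj (iota_sq' hi ι) (a0 σ) (pm (lh τ) (M (0 : Pool.Agent.TH841.SH.D.Pt (ED d)
      (AlgebraicClosure (v.adicCompletion F))))) = 0 := by
      rw [M_zero, map_zero, Pool.Agent.Y155.CT.jj_zero]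
    exact e3.symm
  · have hn2 := (ns_iff S' x y).2 h
    have hn3 : (W0.baseChange (PadicAlgCl p)).toAffine.Nonsingular
        (lh τ (β' x * (ι u)⁻¹ ^ 2)) (lh τ (β' y * (ι u)⁻¹ ^ 3)) :=
      (Affine.baseChange_nonsingular W0.toAffine (lh τ).injective ..).mpr hn2
    obtain ⟨h4, e3⟩ := it_some (iota_sq' hi ι) (a0 σ).val hn3
    have e4 : jj (iota_sq' hi ι) (a0 σ) (pm (lh τ) (M (Affine.Point.some x y h :
        ((ED d).baseChange (AlgebraicClosure (v.adicCompletion F))).toAffine.Point))) =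
        Affine.Point.some ((ι i₀) ^ (a0 σ).val * lh τ (β' x * (ι u)⁻¹ ^ 2))
          (lh τ (β' y * (ι u)⁻¹ ^ 3)) h4 := e3
    refine Eq.trans ?_ e4.symm
    refine pt_ext _ _ ?_ ?_
    · show β' (τ' x) * (ι u)⁻¹ ^ 2 = (ι i₀) ^ (a0 σ).val * τ (β' x * (ι u)⁻¹ ^ 2)
      have hI3 : (ι i₀) ^ 3 = 1 := by rw [← map_pow, i₀_cube hi, map_one]
      have hi0 : ι i₀ ≠ 0 := by
        intro h0
        rw [h0] at hI3
        norm_num at hI3
      have h5 : ((ι i₀) ^ (-a0 σ).val) ^ 2 = (ι i₀) ^ (a0 σ).val := by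
        rw [← map_pow, ← map_pow, pow_sq hi, map_pow]
      have h6 : (ι i₀) ^ (a0 σ).val ≠ 0 := pow_ne_zero _ hi0
      rw [map_mul, hτ2, map_pow, map_inv₀, hτu, mul_inv, mul_pow, inv_pow ((ι i₀) ^ _), h5]
      field_simp
    · show β' (τ' y) * (ι u)⁻¹ ^ 3 = τ (β' y * (ι u)⁻¹ ^ 3)
      have h7 : (τ (ι u)) ^ 3 = (ι u) ^ 3 := by
        rw [hcm, ← map_pow, u_cube_fix hi hT, map_pow]
      rw [map_mul, hτ2, map_pow, map_inv₀, inv_pow, inv_pow, h7]

end F

end Pool.Agent.H91.Sh
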