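import Pool.Agent.H91.Sh3

/-!
# The Tate-Shafarevich group over the fields generated by cube roots: the theorem

Adapted from the library (`Pool/Graph/R_seed8/Y858/CTE/Shf.lean`).
-/

set_option autoImplicit false
set_option linter.unusedSectionVars false
set_option linter.unusedVariables false

open scoped Classical

namespace Pool.Agent.H91.Sh

open NumberField IsDedekindDomain WeierstrassCurve
open Pool.Agent.Y692.QS (Ei w nr toC)
open Pool.Agent.Y703.CT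
open Pool.Agent.Y715.T.Gi Pool.Agent.Y715.T.Nr Pool.Agent.Y715.T.Df Pool.Agent.Y715.T.Ell
open Pool.Agent.TH841.NF (Sc tF tF_zero tF_some tF_add ns_iff aut_of_two place_p)
open Pool.Agent.TH841.NF.D (Sha)
open Pool.Agent.TH841.SH.D (Gal Coch IsCoc IsCob LocTriv cob)
open Pool.Agent.Y696.CTK (ED TrfData)
open Pool.Agent.Y737.CTK (ph ph_ev ph_apply gg gg_cont gg_symm_cont gg_apply sc Psi Psi_some
  Psi_zero eK eK_mem it_some pt_ext w_rel exists_e cg cg_apply exists_tw)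
open Pool.Agent.Y858.CTE (trf_data tw_pow cj cj_apply exists_lift jj_z)

/-- if the 3-primary parts of the Tate-Shafarevich groups of all the twists vanish, the one over
the field generated by `k` cube roots is killed by `3 ^ k` -/
theorem sha_tower {K F : Type} [Field K] [NumberField K] [Field F] [NumberField F] [Algebra K F]
    (j : Ei ≃+* 𝓞 K) {D : Ei} (hD : D ≠ 0) {k : ℕ} (μ : Fin k → Ei) (hμ : ∀ i, μ i ≠ 0)
    (θ : Fin k → F) (hθ : ∀ i, θ i ^ 3 = algebraMap K F (j (μ i) : K))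
    (hgen : IntermediateField.adjoin K (Set.range θ) = ⊤)
    (hS : ∀ (c : V k) (n : ℕ) (x : Sha (ED (j (D * ∏ i, μ i ^ (c i).val) : K))),
      3 ^ n • x = 0 → x = 0)
    (n : ℕ) (x : Sha (ED (algebraMap K F (j D : K)))) (hx : 3 ^ n • x = 0) : 3 ^ k • x = 0 := by
  obtain ⟨e⟩ := exists_e K
  obtain ⟨i₀, h⟩ : ∃ i₀, ph j e w = i₀ := ⟨_, rfl⟩
  have hi : i₀ ^ 2 + i₀ + 1 = 0 := by rw [← h]; exact w_rel j e
  obtain ⟨eF, hc⟩ := exists_eF (F := F) e
  obtain ⟨u, a0, hT⟩ := exists_tw hi (D := D)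
  have ha0 := Pool.Agent.Y155.CT.a_mul hD hT
  obtain ⟨t, htd⟩ : ∃ t : Fin k → QB, t = fun i => eF (algebraMap F _ (θ i)) := ⟨_, rfl⟩
  have htd' : ∀ i, t i = eF (algebraMap F _ (θ i)) := fun i => by rw [htd]
  have ht : ∀ i, t i ^ 3 = ev i₀ hi (μ i) := by
    intro i
    rw [htd', ← map_pow, ← map_pow, hθ, hc, ← ph_apply, ph_ev j e hi h]
  have ht0 : ∀ i, t i ≠ 0 := by
    intro i h0
    exact ev_ne hi (hμ i) (by rw [← ht, h0]; ring)
  have h3 : i₀ ^ 3 = 1 := i₀_cube hi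
  have hca : ∀ σ : GK i₀, ∀ i, ∃ c : ZMod 3, σ (t i) = i₀ ^ (-c).val * t i := by
    intro σ i
    have h1 : (σ (t i)) ^ 3 = t i ^ 3 := by rw [← map_pow, ht, gk_ev]
    obtain ⟨n, hn⟩ := cube_eq hi h1
    refine ⟨-(n : ZMod 3), ?_⟩
    rw [neg_neg, ZMod.val_natCast, hn]
    congr 1
    exact pow_eq_pow_mod _ h3
  choose A hAc using hca
  have hTt : ∀ i, Tw hi (μ i) (t i) (fun σ => A σ i) := fun i => ⟨ht i, fun σ => hAc σ i⟩
  have hA : ∀ σ τ, A (σ * τ) = A σ + A τ := by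
    intro σ τ
    funext i
    exact Pool.Agent.Y155.CT.a_mul (hμ i) (hTt i) σ τ
  have hA0 : ∀ σ, (∀ i, σ (t i) = t i) → A σ = 0 := by
    intro σ hσ
    funext i
    have h1 := hAc σ i
    rw [hσ] at h1
    have h2 : i₀ ^ (0 : ZMod 3).val = i₀ ^ (-A σ i).val := by
      rw [ZMod.val_zero, pow_zero]
      exact mul_right_cancel₀ (ht0 i) (by rw [one_mul]; exact h1)
    have h4 := Pool.Agent.Y155.CT.ip_inj (hi := hi) h2
    exact neg_eq_zero.1 h4.symm
  have hA1 : ∀ σ, A σ = 0 → ∀ i, σ (t i) = t i := by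
    intro σ hσ i
    rw [hAc, hσ, Pi.zero_apply, neg_zero, ZMod.val_zero, pow_zero, one_mul]
  have hfx : ∀ σ : GK i₀, A σ = 0 → ∀ x : F, σ (eF (algebraMap F _ x)) = eF (algebraMap F _ x) :=
    fun σ hσ => fix_F hc hi h hgen σ (fun i => by rw [← htd']; exact hA1 σ hσ i)
  have hSh : ∀ c : V k, ShK hi (bc a0 A c) := by
    intro c
    have hne : D * ∏ i, μ i ^ (c i).val ≠ 0 :=
      mul_ne_zero hD (Finset.prod_ne_zero_iff.2 fun i _ => pow_ne_zero _ (hμ i))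
    exact Pool.Agent.Y954.CTK.shc Pool.Agent.Y811.CTK.t_PLC K j (D * ∏ i, μ i ^ (c i).val) hne e i₀ hi
      _ _ _ _ (trf_data j e hi h hne (tw_mul hT (tw_prod hTt c Finset.univ))) (hS c)
  have hdF : eF (algebraMap F _ (algebraMap K F (j D : K))) = ev i₀ hi D := by
    rw [hc, ← ph_apply, ph_ev j e hi h]
  have S := scF hi hD hT hdF
  obtain ⟨f, rfl⟩ := QuotientAddGroup.mk_surjective x
  have hx1 : (QuotientAddGroup.mk ((3 ^ n : ℕ) • f) :
      Pool.Agent.TH841.NF.D.shaCoc (ED (algebraMap K F (j D : K))) ⧸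
        (Pool.Agent.TH841.SH.D.cob (ED (algebraMap K F (j D : K)))).addSubgroupOf
          (Pool.Agent.TH841.NF.D.shaCoc (ED (algebraMap K F (j D : K))))) = 0 := hx
  rw [QuotientAddGroup.eq_zero_iff, AddSubgroup.mem_addSubgroupOf] at hx1
  obtain ⟨P, hP⟩ := hx1
  have hsha := f.2
  have hcm := f.2.1
  have hP' : ∀ σ, 3 ^ n • f.1 σ =
      Pool.Agent.TH841.SH.D.act (ED (algebraMap K F (j D : K))) σ.toAlgHom P - P := hP
  let f' : GK i₀ → Pt QB := fun σ => if hσ : A σ = 0 then Psi S (f.1 (cj eF σ (hfx σ hσ))) else 0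
  have hf' : ∀ (σ : GK i₀) (σ' : Gal F), A σ = 0 → (∀ x, σ (eF x) = eF (σ' x)) →
      f' σ = Psi S (f.1 σ') := by
    intro σ σ' hσ hs
    show (if hσ : A σ = 0 then Psi S (f.1 (cj eF σ (hfx σ hσ))) else 0) = _
    have he : cj eF σ (hfx σ hσ) = σ' := AlgEquiv.ext fun x => eF.injective (by
      rw [cj_apply, hs])
    rw [dif_pos hσ, he]
  have hcs : ∀ (σ : GK i₀) (hσ : A σ = 0) (x), σ (eF x) = eF (cj eF σ (hfx σ hσ) x) := by
    intro σ hσ x
    rw [cj_apply]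
  have c1 : ∀ σ τ, A σ = 0 → A τ = 0 → f' (σ * τ) = f' σ + act hi a0 σ (f' τ) := by
    intro σ τ hσ hτ
    rw [hf' (σ * τ) (cj eF σ (hfx σ hσ) * cj eF τ (hfx τ hτ)) (by rw [hA, hσ, hτ, add_zero])
      (fun x => by
        rw [AlgEquiv.mul_apply, AlgEquiv.mul_apply, hcs τ hτ, hcs σ hσ]),
      hf' σ _ hσ (hcs σ hσ), hf' τ _ hτ (hcs τ hτ), ← Psi_act hi S hT (hcs σ hσ), ← map_add]
    congr 1
    exact hcm.2 _ _
  have c2 : {σ : GK i₀ | A σ = 0 ∧ f' σ = 0} ∈ nhds (1 : GK i₀) := by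
    obtain ⟨T, hTf⟩ := Pool.Agent.TH841.NF.coc_fin hcm
    have hst : ∀ y : QB, {σ : GK i₀ | σ y = y} ∈ nhds (1 : GK i₀) := by
      intro y
      exact (stabilizer_isOpen_of_isIntegral (K := KK i₀) y).mem_nhds
        (MulAction.stabilizer (GK i₀) y).one_mem
    have h1 : (⋂ x ∈ T, {σ : GK i₀ | σ (eF x) = eF x}) ∈ nhds (1 : GK i₀) := by
      rw [Filter.biInter_finset_mem]
      exact fun x _ => hst _
    have h2 : (⋂ i, {σ : GK i₀ | σ (t i) = t i}) ∈ nhds (1 : GK i₀) := by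
      rw [Filter.iInter_mem]
      exact fun i => hst _
    refine Filter.mem_of_superset (Filter.inter_mem h2 h1) ?_
    rintro σ ⟨h2, h4⟩
    have h5 := hA0 σ (fun i => Set.mem_iInter.1 h2 i)
    refine ⟨h5, ?_⟩
    rw [hf' σ _ h5 (hcs σ h5)]
    have h6 : f.1 (cj eF σ (hfx σ h5)) = 0 := by
      apply hTf
      intro x hx
      apply eF.injective
      rw [cj_apply]
      have h7 := Set.mem_iInter.1 (Set.mem_iInter.1 h4 x) hx
      exact h7
    rw [h6, map_zero]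
  have c3 : ∀ (p : ℕ) [Fact p.Prime] (ι : QB →ₐ[ℚ] PadicAlgCl p), ∃ R : Pt (PadicAlgCl p),
      ∀ (τ : Au p) (σ : GK i₀), A σ = 0 → Cmp ι τ σ →
        pm ι (f' σ) = jj (iota_sq' hi ι) (a0 σ) (pm (lh τ) R) - R := by
    intro p _ ι
    obtain ⟨R, hR⟩ := local_F hi hD hdF S hT hsha p ι
    refine ⟨R, fun τ σ hσ hcm => ?_⟩
    rw [hf' σ _ hσ (hcs σ hσ)]
    exact hR τ σ _ hcm (hcs σ hσ)
  have c4 : ∃ P, ∀ σ, A σ = 0 → 3 ^ n • f' σ = act hi a0 σ P - P := by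
    refine ⟨Psi S P, fun σ hσ => ?_⟩
    rw [hf' σ _ hσ (hcs σ hσ), ← map_nsmul, hP', map_sub, Psi_act hi S hT (hcs σ hσ)]
  obtain ⟨Q, hQ⟩ := core hi ha0 hA c1 hT hD c2 c3 hSh n c4
  have hi0F : eF (algebraMap F (AlgebraicClosure F) (algebraMap K F (j w : K))) = i₀ := by
    rw [hc, ← ph_apply, h]
  have hgoal : (QuotientAddGroup.mk ((3 ^ k : ℕ) • f) :
      Pool.Agent.TH841.NF.D.shaCoc (ED (algebraMap K F (j D : K))) ⧸
        (Pool.Agent.TH841.SH.D.cob (ED (algebraMap K F (j D : K)))).addSubgroupOf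
          (Pool.Agent.TH841.NF.D.shaCoc (ED (algebraMap K F (j D : K))))) = 0 := by
    rw [QuotientAddGroup.eq_zero_iff, AddSubgroup.mem_addSubgroupOf]
    refine ⟨(Psi S).symm Q, fun σ' => ?_⟩
    obtain ⟨σ, hs⟩ := exists_lift (eF := eF) (i₀ := i₀) σ' (by
      rw [← hi0F, eF.symm_apply_apply, σ'.commutes])
    have hσ : A σ = 0 := by
      apply hA0
      intro i
      rw [htd', hs, σ'.commutes]
    apply (Psi S).injective
    have h5 := hQ σ hσ
    rw [hf' σ σ' hσ hs] at h5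
    refine Eq.trans ?_ (h5.trans ?_)
    · exact map_nsmul (Psi S) (3 ^ k) (f.1 σ')
    · rw [map_sub, Psi_act hi S hT hs, AddEquiv.apply_symm_apply]
  exact hgoal

end Pool.Agent.H91.Sh
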