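import Pool.Agent.H91.Sh4

/-!
# The Tate-Shafarevich group over one cubic extension
-/

set_option autoImplicit false
set_option linter.unusedSectionVars false
set_option linter.unusedVariables false

open scoped Classical

namespace Pool.Agent.H91.Sh

open NumberField
open Pool.Agent.Y692.QS (Ei w nr)
open Pool.Agent.TH841.NF.D (Sha)
open Pool.Agent.Y696.CTK (ED)

theorem sha_one {K F : Type} [Field K] [NumberField K] [Field F] [NumberField F] [Algebra K F]
    (j : Ei ≃+* 𝓞 K) {D μ : Ei} (hD : D ≠ 0) (hμ : μ ≠ 0) (θ : F)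
    (hθ : θ ^ 3 = algebraMap K F (j μ : K)) (hgen : IntermediateField.adjoin K {θ} = ⊤)
    (hS : ∀ (b : ZMod 3) (n : ℕ) (x : Sha (ED (j (D * μ ^ b.val) : K))), 3 ^ n • x = 0 → x = 0)
    (n : ℕ) (x : Sha (ED (algebraMap K F (j D : K)))) (hx : 3 ^ n • x = 0) : 3 • x = 0 := by
  have h1 := sha_tower (K := K) (F := F) j hD (k := 1) (fun _ => μ) (fun _ => hμ) (fun _ => θ)
    (fun _ => hθ) (by rw [Set.range_const]; exact hgen) (fun c n x hx => by
      have e : D * ∏ i : Fin 1, μ ^ (c i).val = D * μ ^ (c 0).val := by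
        rw [Fin.prod_univ_one]
      revert n x
      rw [e]
      exact fun n x hx => hS (c 0) n x hx) n x hx
  rwa [pow_one] at h1

end Pool.Agent.H91.Sh
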