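import Pool.Graph.R_pool_sql_team_seeded_3997aac3.Q283.EN.All

/-!
# `Ш(E_D/F)[3^n]` is finite
-/

set_option autoImplicit false
set_option linter.unusedVariables false

namespace Pool.Agent.H91.Sh

open NumberField IsDedekindDomain WeierstrassCurve
open Pool.Agent.Q283.LQ (Sm)
open Pool.Agent.Q7.LK Pool.Agent.Q7.CE Pool.Agent.Q283.EN
open Pool.Agent.Q14.LK (mon_ne mon_zero mon_add)
open Pool.Agent.TH841.SH.D (Pt Coch)
open Pool.Agent.TH841.NF.D (Sha)
open Pool.Agent.Q296.EN (all_small)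

theorem few_ex (F : Type) [Field F] [NumberField F] (ω D : F) (hω : IsPrimitiveRoot ω 3)
    (hD : D ≠ 0) : ∃ N : ℕ, Few D N := by
  classical
  have : Fact (Nat.Prime 3) := ⟨Nat.prime_three⟩
  obtain ⟨y1, h1⟩ := t_BASE 3 (by norm_num) F ω hω
  obtain ⟨y2, h2⟩ := all_small (F := F) 3 hD
  obtain ⟨y, hy⟩ : ∃ y, y = max (max y1 y2) 3 := ⟨_, rfl⟩
  obtain ⟨f, u, r, π, g, B, -⟩ := h1 y (by rw [hy]; exact le_trans (le_max_left _ _) (le_max_left _ _))
  have hsm := h2 y (by rw [hy]; exact le_trans (le_max_right _ _) (le_max_left _ _))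
  have h3y : 3 ≤ y := by rw [hy]; exact le_max_right _ _
  have hdp : ∀ v : HeightOneSpectrum (𝓞 F), ¬ Sm y v → ¬ Dp 3 v := fun v hv h =>
    hv ⟨3, Nat.prime_three, h3y, h⟩
  have hex : Nonempty (HeightOneSpectrum (𝓞 F)) :=
    ⟨(HeightOneSpectrum.equivMaximalSpectrum (RingOfIntegers.not_isField F)).symm Classical.ofNonempty⟩
  have hmn : ∀ c : Fin f → ZMod 3, mon u c ≠ 0 := fun c => mon_ne B.ue c
  have hfull : ∀ b : F, (∀ v : HeightOneSpectrum (𝓞 F), AE v D b) → ∃ c : Fin f → ZMod 3, ∃ x : F,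
      b * mon u c = x ^ 3 := by
    intro b hb
    have hb0 : b ≠ 0 := (hb hex.some).1
    obtain ⟨c, x, hx⟩ := B.full b hb0 fun v hv =>
      ((t_ECX F ω hω v D b (hdp v hv) hD hb0).1 (hb v)).1 (hsm v hv)
    exact ⟨c, x, hx⟩
  refine ⟨3 ^ f, fun fs hfs => ?_⟩
  obtain ⟨a, ha1, -, ha3⟩ := t_EKUM2 F ω D hω hD (3 ^ f + 1) fs hfs
  choose g hg using fun i => hfull (a i) (ha1 i)
  have hcard : Fintype.card (Fin f → ZMod 3) < Fintype.card (Fin (3 ^ f + 1)) := by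
    rw [Fintype.card_fun, Fintype.card_fin, Fintype.card_fin, ZMod.card]
    omega
  obtain ⟨i, i', hii, hgg⟩ := Fintype.exists_ne_map_eq_of_card_lt g hcard
  refine ⟨i, i', hii, ha3 i i' 0 ?_⟩
  obtain ⟨x, hx⟩ := hg i
  obtain ⟨x', hx'⟩ := hg i'
  rw [hgg] at hx
  have ha' : a i' ≠ 0 := (ha1 i' hex.some).1
  have hx0 : x' ≠ 0 := by
    rintro rfl
    rw [zero_pow (by norm_num)] at hx'
    exact mul_ne_zero ha' (hmn _) hx'
  refine ⟨x / x', ?_⟩
  rw [pow_zero, mul_one, div_pow, ← hx, ← hx']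
  have := hmn (g i')
  field_simp

theorem sha3_fin (F : Type) [Field F] [NumberField F] (ω D : F) (hω : IsPrimitiveRoot ω 3)
    (hD : D ≠ 0) : Finite {x : Sha (ED D) // (3 : ℕ) • x = 0} := by
  obtain ⟨N, hN⟩ := few_ex F ω D hω hD
  exact (t_ERS F ω D hω hD N hN).1

theorem fin_pow {A : Type} [AddCommGroup A] (h : Finite {x : A // (3 : ℕ) • x = 0}) (k : ℕ) :
    {x : A | (3 ^ k : ℕ) • x = 0}.Finite := by
  have h' : {x : A | (3 : ℕ) • x = 0}.Finite := h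
  induction k with
  | zero =>
    refine (Set.finite_singleton (0 : A)).subset ?_
    intro x hx
    rw [Set.mem_ofPred_eq, pow_zero, one_smul] at hx
    exact hx
  | succ k ih =>
    refine Set.Finite.of_finite_fibers (fun x : A => (3 : ℕ) • x) (ih.subset ?_) ?_
    · rintro _ ⟨x, hx, rfl⟩
      rw [Set.mem_ofPred_eq] at hx ⊢
      rw [← mul_smul, ← pow_succ]
      exact hx
    · rintro _ ⟨x₀, -, rfl⟩
      refine (h'.image (fun x => x + x₀)).subset ?_
      rintro x ⟨-, hx⟩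
      refine ⟨x - x₀, ?_, by simp⟩
      have h6 : (3 : ℕ) • x = (3 : ℕ) • x₀ := hx
      rw [Set.mem_ofPred_eq, smul_sub, h6, sub_self]

end Pool.Agent.H91.Sh
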