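import Pool.Agent.H91.Tw13

/-!
# Towers, part 14: the degree, the `L`-function, the points
-/

set_option autoImplicit false
set_option linter.unusedSectionVars false
set_option linter.unusedVariables false
set_option linter.deprecated false

open scoped Classical IntermediateField

namespace Pool.Agent.H91.Tw

open NumberField IsDedekindDomain Polynomial
open WeierstrassCurve hiding IsIntegral
open Pool.Agent.H921R2.TatePole (nm two_le_nm)
open Pool.Agent.W192.HK
open Pool.Agent.Y696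
open Pool.Agent.Y696.CTK
open Pool.Agent.Y710.CTE (Ed)
open Pool.Agent.Y692.QS (Ei w nr)
open Pool.Agent.Y703.CT
open Pool.Agent.H91.Fin2 (Cl2 cm_of law3)

/-- the degree of the field generated by the cube roots -/
theorem deg_tower (k : ℕ) : ∀ (K F : Type) [Field K] [NumberField K] [Field F] [NumberField F]
    [Algebra K F] (ι : eis →+* 𝓞 K) (D : 𝓞 K) (μ : Fin k → 𝓞 K) (θ : Fin k → 𝓞 F)
    (hθ : ∀ i, θ i ^ 3 = algebraMap (𝓞 K) (𝓞 F) (μ i)) (h : TC D k μ)
    (hgen : IntermediateField.adjoin K (Set.range fun i => (θ i : F)) = ⊤),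
    Module.finrank K F = 3 ^ k := by
  induction k with
  | zero =>
    intro K F _ _ _ _ _ ι D μ θ hθ h hgen
    rw [Set.range_eq_empty, IntermediateField.adjoin_empty] at hgen
    rw [pow_zero]
    exact IntermediateField.bot_eq_top_iff_finrank_eq_one.1 hgen
  | succ k ih =>
    intro K F _ _ _ _ _ ι D μ θ hθ h hgen
    set x : F := (θ 0 : F) with hx
    set L : IntermediateField K F := K⟮x⟯ with hL
    have hNF : NumberField ↥L := NumberField.of_intermediateField L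
    have hx3 : x ^ 3 = algebraMap K F (μ 0 : K) := by
      have := congrArg (algebraMap (𝓞 F) F) (hθ 0)
      rw [map_pow] at this
      exact this
    have hirr : Irreducible (X ^ 3 - C ((μ 0 : 𝓞 K) : K)) :=
      X_pow_sub_C_irreducible_of_prime Nat.prime_three (ncubeK (ncube_of (h.cμ 0) (h.nu 0)))
    have hmin : X ^ 3 - C ((μ 0 : 𝓞 K) : K) = minpoly K x := by
      refine minpoly.eq_of_irreducible_of_monic hirr ?_ (monic_X_pow_sub_C _ (by norm_num))
      simp [hx3]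
    have hint : IsIntegral K x := Algebra.IsIntegral.isIntegral x
    have hd1 : Module.finrank K ↥L = 3 := by
      rw [hL, IntermediateField.adjoin.finrank hint, ← hmin]
      exact natDegree_X_pow_sub_C
    have hxL : x ∈ L := IntermediateField.mem_adjoin_simple_self K x
    have hxint : IsIntegral ℤ (⟨x, hxL⟩ : ↥L) := by
      have h1 : IsIntegral ℤ x := (θ 0).isIntegral_coe
      exact (isIntegral_algebraMap_iff (algebraMap ↥L F).injective).1 h1
    set θ0 : 𝓞 ↥L := ⟨⟨x, hxL⟩, hxint⟩ with hθ0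
    have hθ03 : θ0 ^ 3 = algebraMap (𝓞 K) (𝓞 ↥L) (μ 0) := by
      apply RingOfIntegers.ext
      apply (algebraMap ↥L F).injective
      have e1 : ((θ0 ^ 3 : 𝓞 ↥L) : ↥L) = (⟨x, hxL⟩ : ↥L) ^ 3 := by
        exact map_pow (algebraMap (𝓞 ↥L) ↥L) θ0 3
      rw [e1, map_pow]
      exact hx3
    have hscal : ∀ y : 𝓞 K, algebraMap (𝓞 ↥L) (𝓞 F) (algebraMap (𝓞 K) (𝓞 ↥L) y) =
        algebraMap (𝓞 K) (𝓞 F) y := by
      intro y
      apply RingOfIntegers.ext
      rfl
    have hCb : Cb (ι omr) (μ 0) θ0 :=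
      ⟨hd1, hθ03, root_of ι, (h.cμ 0).1, ncube_of (h.cμ 0) (h.nu 0)⟩
    have hnum3 : algebraMap (𝓞 K) (𝓞 ↥L) 3 = 3 := map_ofNat _ 3
    have hTC : TC (algebraMap (𝓞 K) (𝓞 ↥L) D) k
        (fun i => algebraMap (𝓞 K) (𝓞 ↥L) (μ i.succ)) := by
      refine ⟨C3_up hCb h.c3, Cnd_up hCb h.cD fun u hu => ⟨h.D3 u hu, h.Dμ 0 u hu⟩, ?_, ?_, ?_, ?_,
        ?_, ?_⟩
      · have := Cop_up (F := ↥L) h.D3
        rwa [hnum3] at this
      · intro i
        exact Cnd_up hCb (h.cμ _) fun u hu => ⟨h.μ3 _ u hu, h.μμ _ 0 (Fin.succ_ne_zero i) u hu⟩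
      · intro i
        have := Cop_up (F := ↥L) (h.μ3 i.succ)
        rwa [hnum3] at this
      · intro i
        exact nu_up (h.nu _) (h.cμ _).1
      · intro i
        exact Cop_up (h.Dμ _)
      · intro i j hij
        exact Cop_up (h.μμ _ _ fun e => hij (Fin.succ_injective _ e))
    have hgenL : IntermediateField.adjoin ↥L (Set.range fun i : Fin k => (θ i.succ : F)) = ⊤ := by
      have h1 : ∀ y : F, y ∈ IntermediateField.adjoin K (Set.range fun i => (θ i : F)) →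
          y ∈ (IntermediateField.adjoin ↥L (Set.range fun i : Fin k => (θ i.succ : F))).restrictScalars
            K := by
        intro y hy
        refine (IntermediateField.adjoin_le_iff.2 ?_ :
          IntermediateField.adjoin K (Set.range fun i => (θ i : F)) ≤
          (IntermediateField.adjoin ↥L (Set.range fun i : Fin k => (θ i.succ : F))).restrictScalars
            K) hy
        rintro _ ⟨i, rfl⟩
        refine Fin.cases ?_ (fun i => ?_) i
        · exact IntermediateField.algebraMap_mem _ (⟨x, hxL⟩ : ↥L)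
        · exact IntermediateField.subset_adjoin ↥L _ ⟨i, rfl⟩
      rw [eq_top_iff]
      intro y _
      exact h1 y (by rw [hgen]; trivial)
    have hd2 := ih ↥L F (up ι ↥L) (algebraMap (𝓞 K) (𝓞 ↥L) D)
      (fun i => algebraMap (𝓞 K) (𝓞 ↥L) (μ i.succ)) (fun i => θ i.succ)
      (fun i => by rw [hθ, hscal]) hTC hgenL
    have h1 := Module.finrank_mul_finrank K ↥L F
    rw [hd1, hd2] at h1
    rw [← h1]
    ring

/-- the degree, the points and the `L`-function -/
theorem rank_zero {K : Type} [Field K] [NumberField K] (j : Ei ≃+* 𝓞 K)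
    (hj : ∀ z : Ei, Algebra.norm ℤ (j z) = nr z) (hdisc : discr K = -3) {D : 𝓞 K} (hD : Cl2 D)
    (hT : Tri D) {k : ℕ} {μ : Fin (k + 1) → 𝓞 K} (ha : Adm D μ) {F : Type} [Field F] [NumberField F]
    [Algebra K F] (θ : Fin (k + 1) → F) (hθ : ∀ i, θ i ^ 3 = algebraMap K F (μ i))
    (hgen : IntermediateField.adjoin K (Set.range θ) = ⊤) :
    Module.finrank K F = 3 ^ (k + 1) ∧
    Finite (ED (algebraMap K F D)).toAffine.Point ∧
    ∃ Lf : ℂ → ℂ, Differentiable ℂ Lf ∧
      (∀ s : ℂ, 3 / 2 < s.re →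
        LSeriesSummable ((fun n : ℤ => (n : ℂ)) ∘ (ED (algebraMap K F D)).LFunction) s ∧
          Lf s = (ED (algebraMap K F D)).LSeries s) ∧
      Lf 1 ≠ 0 := by
  set ι : eis →+* 𝓞 K := (j : Ei →+* 𝓞 K).comp
    (Pool.Agent.Y715.T.Rs.eq0.symm : eis →+* Ei) with hι
  have hTC := tc_of j hD ha
  have hint : ∀ i, IsIntegral ℤ (θ i) := by
    intro i
    have h1 : IsIntegral ℤ (θ i ^ 3) := by
      rw [hθ]
      exact (μ i).isIntegral_coe.algebraMap
    exact IsIntegral.of_pow (by norm_num) h1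
  let θ' : Fin (k + 1) → 𝓞 F := fun i => ⟨θ i, hint i⟩
  have hθ' : ∀ i, θ' i ^ 3 = algebraMap (𝓞 K) (𝓞 F) (μ i) := by
    intro i
    apply RingOfIntegers.ext
    have e1 : ((θ' i ^ 3 : 𝓞 F) : F) = θ i ^ 3 := map_pow (algebraMap (𝓞 F) F) (θ' i) 3
    rw [e1, hθ]
    rfl
  have hdeg := deg_tower (k + 1) K F ι D μ θ' hθ' hTC hgen
  obtain ⟨hA, hB⟩ := tower k K F ι D μ θ' hdeg hθ' hTC
  have hb := fun b => tri_b j hj hdisc hD hT ha b
  refine ⟨hdeg, ?_, ?_⟩
  · exact hB fun b => (hb b).1.1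
  · choose Lf c h1 h2 h3 h4 using fun b => (hb b).2.2.2
    refine ⟨fun s => ∏ b, Lf b s, ?_, ?_, ?_⟩
    · exact Differentiable.fun_finsetProd fun b _ => h1 b
    · intro s hs
      refine ⟨(hA s hs).1, ?_⟩
      have h5 := (hA s hs).2
      rw [coe_up] at h5
      rw [h5]
      exact Finset.prod_congr rfl fun b _ => (h2 b s hs).2
    · exact Finset.prod_ne_zero_iff.2 fun b _ => h3 b (hb b).1

/-- one more prime -/
theorem ext_one {K : Type} [Field K] [NumberField K] (j : Ei ≃+* 𝓞 K)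
    (hj : ∀ z : Ei, Algebra.norm ℤ (j z) = nr z) {D : 𝓞 K} (hD : Cl2 D) {k : ℕ}
    {μ : Fin k → 𝓞 K} (ha : Adm D μ) :
    ∃ ν : 𝓞 K, Adm D (Fin.snoc (α := fun _ => 𝓞 K) μ ν) := by
  obtain ⟨c, hc, X₀, h⟩ := dens_ext j hj hD ha
  have h1 := h (max X₀ 2) (le_max_left _ _)
  have h2 : 0 < (Nat.primeCounting (max X₀ 2) : ℝ) := by
    have h3 : Nat.primeCounting 2 ≤ Nat.primeCounting (max X₀ 2) :=
      Nat.monotone_primeCounting (le_max_right _ _)
    have h4 : 0 < Nat.primeCounting 2 := by decide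
    exact_mod_cast lt_of_lt_of_le h4 h3
  have h5 : 0 < ({ν : 𝓞 K | |Algebra.norm ℤ ν| ≤ (max X₀ 2 : ℕ) ∧
      Adm D (Fin.snoc (α := fun _ => 𝓞 K) μ ν)}.ncard : ℝ) :=
    lt_of_lt_of_le (mul_pos hc h2) h1
  have h6 : ({ν : 𝓞 K | |Algebra.norm ℤ ν| ≤ (max X₀ 2 : ℕ) ∧
      Adm D (Fin.snoc (α := fun _ => 𝓞 K) μ ν)}).Nonempty := by
    rw [Set.nonempty_iff_ne_empty]
    intro h0
    rw [h0, Set.ncard_empty] at h5
    simp at h5
  obtain ⟨ν, -, hν⟩ := h6
  exact ⟨ν, hν⟩

lemma adm_nil {K : Type} [Field K] [NumberField K] (D : 𝓞 K) (μ : Fin 0 → 𝓞 K) : Adm D μ :=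
  ⟨fun i => i.elim0, fun i => i.elim0, fun i => i.elim0, fun i => i.elim0, fun i => i.elim0⟩

/-- an infinite sequence -/
theorem seq_ex {K : Type} [Field K] [NumberField K] (j : Ei ≃+* 𝓞 K)
    (hj : ∀ z : Ei, Algebra.norm ℤ (j z) = nr z) {D : 𝓞 K} (hD : Cl2 D) :
    ∃ μ : ℕ → 𝓞 K, ∀ n : ℕ, Adm D fun i : Fin n => μ i := by
  choose f hf using fun (k : ℕ) (μ : {μ : Fin k → 𝓞 K // Adm D μ}) => ext_one j hj hD μ.2
  let s : ∀ n : ℕ, {μ : Fin n → 𝓞 K // Adm D μ} := fun n =>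
    Nat.rec (motive := fun n => {μ : Fin n → 𝓞 K // Adm D μ}) ⟨fun i => i.elim0, adm_nil D _⟩
      (fun n t => ⟨Fin.snoc (α := fun _ => 𝓞 K) t.1 (f n t), hf n t⟩) n
  have hs : ∀ n, (s (n + 1)).1 = Fin.snoc (α := fun _ => 𝓞 K) (s n).1 (f n (s n)) := fun n => rfl
  refine ⟨fun n => f n (s n), fun n => ?_⟩
  have key : ∀ (n : ℕ) (i : Fin n), (s n).1 i = f i (s i) := by
    intro n
    induction n with
    | zero => exact fun i => i.elim0
    | succ n ih =>
      intro i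
      rw [hs]
      refine Fin.lastCases ?_ (fun i => ?_) i
      · rw [Fin.snoc_last]
        rfl
      · rw [Fin.snoc_castSucc, ih]
        rfl
  have h1 : (fun i : Fin n => f (i : ℕ) (s (i : ℕ))) = (s n).1 := by
    funext i
    exact (key n i).symm
  rw [h1]
  exact (s n).2

end Pool.Agent.H91.Tw
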