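import Pool.Agent.H91.X22
import Pool.Graph.R_seed8.Y696.CTE.L0
import Pool.Graph.R_seed8.Y574.CTE.Sh1

/-!
# The curve `y² + y = x³`
-/

set_option autoImplicit false
set_option linter.unusedVariables false
set_option linter.unusedSectionVars false

open scoped Classical IntermediateField

namespace Pool.Agent.H91.XP

open NumberField IsDedekindDomain Polynomial
open WeierstrassCurve hiding IsIntegral
open Pool.Agent.Y692.QS (Ei w nr)
open Pool.Agent.TH841.NF.D (Sha)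
open Pool.Agent.Y715.T.RecG (Pq)
open Pool.Agent.Y703.XK (c9)
open Pool.Agent.H91.LKz (Pm)
open Pool.Agent.Y350.CTK.Tam (te te_prime te_sq)
open Pool.Agent.Y696
open Pool.Agent.Y696.CTK
open Pool.Agent.Y699.E (nrm PD PS mem_PD)
open Pool.Agent.H91.XR
open Pool.Agent.H91.XRW
open Pool.Agent.W192.HK
open Pool.Agent.Y710.CTE (Ed)
open Pool.Agent.H91.Fin2 (Cl2 cm_of law3)
open Pool.Agent.H91.Tw (C3 Cnd Cop one_layer c3_of cnd_of coe_up ncube_of ncubeK)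

section

variable {K : Type} [Field K] [NumberField K] (j : Ei ≃+* 𝓞 K)

/-- `μ` and `μ²` -/
theorem sq_pair (hdisc : discr K = -3) {μ : Ei} (hte : ¬ te ∣ μ) (hsq : Squarefree μ)
    (hrc : Rc μ) (hu : ¬ IsUnit μ) :
    Law3 (j μ) ∧ Law3 (j (μ ^ 2)) ∧ (Tri (j μ) ↔ Tri (j (μ ^ 2))) := by
  obtain ⟨u, hu', n, hn, rfl⟩ := Pool.Agent.H91.Dz7.rep6 hte hsq
  obtain ⟨s, b, rfl⟩ := uu_U6 u hu'
  obtain ⟨S, hSd⟩ : ∃ S, S = PD n := ⟨_, rfl⟩
  have hSq : ∀ p ∈ S, Pq p := fun p hp => ((mem_PD hn.ne).1 (hSd ▸ hp)).1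
  have hprod : ∏ p ∈ S, p = n := by rw [hSd]; exact hn.prod
  have hne : S.Nonempty := by
    rw [Finset.nonempty_iff_ne_empty]
    rintro rfl
    rw [Finset.prod_empty] at hprod
    apply hu
    rw [← hprod, mul_one]
    exact uu_unit s b
  have v1 : (1 : ZMod 3).val = 1 := rfl
  have v2 : (2 : ZMod 3).val = 2 := rfl
  have hpm1 : Pm (w ^ b.val * ∏ p ∈ S, p ^ ((fun _ : Ei => (1 : ZMod 3)) p).val)
      (uu s b * n) := by
    have e : ∏ p ∈ S, p ^ ((fun _ : Ei => (1 : ZMod 3)) p).val = n := by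
      rw [← hprod]
      refine Finset.prod_congr rfl fun p _ => ?_
      rw [v1, pow_one]
    rw [e]
    unfold uu
    cases s
    · right
      simp
    · left
      simp
  have hpm2 : Pm (w ^ (2 * b).val * ∏ p ∈ S, p ^ ((fun _ : Ei => (2 : ZMod 3)) p).val)
      ((uu s b * n) ^ 2) := by
    have e : ∏ p ∈ S, p ^ ((fun _ : Ei => (2 : ZMod 3)) p).val = n ^ 2 := by
      rw [← hprod, ← Finset.prod_pow]
      exact Finset.prod_congr rfl fun p _ => rfl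
    have e2 : ∀ (s : Bool) (b : ZMod 3), (uu s b) ^ 2 = w ^ (2 * b).val := by decide
    rw [e, mul_pow, e2 s b]
    exact Or.inl rfl
  have hw10 : (1 : ZMod 3) ≠ 0 := by decide
  have hw20 : (2 : ZMod 3) ≠ 0 := by decide
  have hw1 : ∀ p : Ei, (fun _ : Ei => (1 : ZMod 3)) p ≠ 0 := fun _ => hw10
  have hw2 : ∀ p : Ei, (fun _ : Ei => (2 : ZMod 3)) p ≠ 0 := fun _ => hw20
  have hc1 := (rc_lab hSq hw1 hpm1).1 hrc
  have hnu : nu (fun _ : Ei => (2 : ZMod 3)) S = 2 * nu (fun _ : Ei => (1 : ZMod 3)) S := by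
    unfold nu
    rw [Finset.mul_sum]
    refine Finset.sum_congr rfl fun p _ => ?_
    ring
  have hc2 : 2 * b = 0 → nu (fun _ : Ei => (2 : ZMod 3)) S ≠ 0 := by
    intro h
    rw [hnu]
    have h2 : (2 : ZMod 3) ≠ 0 := by decide
    have hb : b = 0 := by
      rcases mul_eq_zero.1 h with h | h
      · exact absurd h h2
      · exact h
    exact mul_ne_zero h2 (hc1 hb)
  refine ⟨law_S j hdisc hSq hne hw1 hc1 hpm1, law_S j hdisc hSq hne hw2 hc2 hpm2, ?_⟩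
  rw [tri_S j hSq hne hw1 hc1 hpm1, tri_S j hSq hne hw2 hc2 hpm2]
  have h2 : (2 : ZMod 3) ≠ 0 := by decide
  have h3 := Tv_scale (wt := fun _ : Ei => (1 : ZMod 3)) (S := S) h2 (c := b)
  simp only [mul_one] at h3
  exact h3.symm

end

/-- **the curve `y² + y = x³`** over the cubic extensions -/
theorem gx_one {K : Type} [Field K] [NumberField K] [IsCyclotomicExtension {3} ℚ K]
    (j : Ei ≃+* 𝓞 K) (hj : ∀ z : Ei, Algebra.norm ℤ (j z) = nr z)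
    (hdisc : discr K = -3) {μ : 𝓞 K} (hsq : Squarefree μ) (hcop : IsCoprime μ 3)
    (hC : Cl2 μ) (hT : Tri μ) : Gx (1 : 𝓞 K) μ := by
  intro F _ _ _ θ hθ hgen
  set ι : eis →+* 𝓞 K := (j : Ei →+* 𝓞 K).comp
    (Pool.Agent.Y715.T.Rs.eq0.symm : eis →+* Ei) with hι
  have hpid : IsPrincipalIdealRing (𝓞 K) :=
    IsPrincipalIdealRing.of_surjective (j : Ei →+* 𝓞 K) j.surjective
  have hcD : Cnd (1 : 𝓞 K) := cnd_of one_ne_zero (fun p hp => by
    exact isUnit_of_dvd_one ((dvd_pow_self p (by norm_num)).trans hp))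
  have hcμ : Cnd μ := cnd_of hsq.ne_zero (sqf_cf hsq)
  have hint : IsIntegral ℤ θ := by
    have h1 : IsIntegral ℤ (θ ^ 3) := by
      rw [hθ]
      exact μ.isIntegral_coe.algebraMap
    exact IsIntegral.of_pow (by norm_num) h1
  let θ' : 𝓞 F := ⟨θ, hint⟩
  have hθ' : θ' ^ 3 = algebraMap (𝓞 K) (𝓞 F) μ := by
    apply RingOfIntegers.ext
    have e1 : ((θ' ^ 3 : 𝓞 F) : F) = θ ^ 3 := map_pow (algebraMap (𝓞 F) F) θ' 3
    rw [e1, hθ]
    rfl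
  have hnu : ¬ IsUnit μ := hC.2.2.2
  have hirr : Irreducible (X ^ 3 - C ((μ : 𝓞 K) : K)) :=
    X_pow_sub_C_irreducible_of_prime Nat.prime_three (ncubeK (ncube_of hcμ hnu))
  have hmin : X ^ 3 - C ((μ : 𝓞 K) : K) = minpoly K θ := by
    refine minpoly.eq_of_irreducible_of_monic hirr ?_ (monic_X_pow_sub_C _ (by norm_num))
    simp [hθ]
  have hdeg : Module.finrank K F = 3 := by
    have h1 := IntermediateField.adjoin.finrank (K := K) (x := θ) (Algebra.IsIntegral.isIntegral θ)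
    rw [hgen, ← hmin, natDegree_X_pow_sub_C, IntermediateField.finrank_top'] at h1
    exact h1
  obtain ⟨hA, hB⟩ := one_layer ι hdeg hθ' (c3_of j) hcD hcμ hnu (cop_of isCoprime_one_left)
    (cop_of hcop) (cop_of isCoprime_one_left)
  rw [coe_up] at hA hB
  obtain ⟨μ₀, rfl⟩ := j.surjective μ
  have hcop3E : IsCoprime μ₀ 3 := by
    have h3 := hcop.map (j.symm : 𝓞 K →+* Ei)
    rw [map_ofNat] at h3
    simpa using h3
  have hte : ¬ te ∣ μ₀ := ndvd_of_cop te_prime hcop3E ⟨-te, by linear_combination te_sq⟩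
  have hCm := cm_of j hC
  obtain ⟨hL1, hL2, hTT⟩ := sq_pair j hdisc hte ((Pool.Agent.H91.Dz7.sqf_iff j).1 hsq)
    ⟨hCm.2.1, hCm.2.2.1⟩ hCm.2.2.2.2
  obtain ⟨L0, hL0d, hL0s, hL01⟩ := Pool.Agent.Y696.CTE.L0_ex (K := K) j
  have v0 : (0 : ZMod 3).val = 0 := rfl
  have v1 : (1 : ZMod 3).val = 1 := rfl
  have v2 : (2 : ZMod 3).val = 2 := rfl
  have h30 : ∀ b : ZMod 3, b = 0 ∨ b = 1 ∨ b = 2 := by decide
  have hLaw : ∀ b : ZMod 3, Tri ((1 : 𝓞 K) * j μ₀ ^ b.val) ∧ ∃ Lf : ℂ → ℂ, Differentiable ℂ Lf ∧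
      (∀ s : ℂ, 3 / 2 < s.re → Lf s = (ED (((1 : 𝓞 K) * j μ₀ ^ b.val : 𝓞 K) : K)).LSeries s) ∧
      Lf 1 ≠ 0 := by
    intro b
    rcases h30 b with rfl | rfl | rfl
    · rw [v0, pow_zero, mul_one]
      have e : ((1 : 𝓞 K) : K) = 1 := rfl
      refine ⟨⟨?_, ?_⟩, L0, hL0d, fun s hs => ?_, hL01⟩
      · rw [e]
        exact Pool.Agent.Y696.CTE.fin_one
      · rw [e]
        exact Pool.Agent.Y574.CTE.sh1 K j
      · rw [(hL0s s hs).2]
        rfl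
    · rw [v1, pow_one, one_mul]
      obtain ⟨-, -, Lf, c, h1, h2, h3, -⟩ := hL1
      exact ⟨hT, Lf, h1, fun s hs => (h2 s hs).2, h3 hT⟩
    · rw [v2, one_mul, ← map_pow]
      obtain ⟨-, -, Lf, c, h1, h2, h3, -⟩ := hL2
      exact ⟨hTT.1 hT, Lf, h1, fun s hs => (h2 s hs).2, h3 (hTT.1 hT)⟩
  refine ⟨hdeg, ⟨hB fun b => (hLaw b).1.1, ?_⟩, fun n x hx => ?_⟩
  · choose Lf h1 h2 h3 using fun b => (hLaw b).2
    refine ⟨fun s => ∏ b, Lf b s, ?_, ?_, ?_⟩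
    · exact Differentiable.fun_finsetProd fun b _ => h1 b
    · intro s hs
      refine ⟨(hA s hs).1, ?_⟩
      rw [(hA s hs).2]
      exact Finset.prod_congr rfl fun b _ => h2 b s hs
    · exact Finset.prod_ne_zero_iff.2 fun b _ => h3 b
  · have e1 : ((1 : 𝓞 K) : K) = ((j 1 : 𝓞 K) : K) := by rw [map_one]
    revert n x
    rw [e1]
    intro n x hx
    refine Pool.Agent.H91.Sh.sha_one j one_ne_zero (fun h => hsq.ne_zero (by rw [h, map_zero])) θ hθ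
      hgen (fun b => ?_) n x hx
    have h5 := (hLaw b).1.2
    rw [map_mul, map_pow, map_one]
    exact h5

section

variable {K : Type} [Field K] [NumberField K] (j : Ei ≃+* 𝓞 K)

/-- **the majority** -/
theorem prop_one [IsCyclotomicExtension {3} ℚ K] (hj : ∀ z : Ei, Algebra.norm ℤ (j z) = nr z)
    (hdisc : discr K = -3) : ∀ ε : ℝ, 0 < ε → ∃ X₀ : ℕ, ∀ X : ℕ, X₀ ≤ X →
      (8 / 9 * c9 - ε) * ({μ : 𝓞 K | Fam 1 X μ}.ncard : ℝ) ≤
        ({μ : 𝓞 K | Fam 1 X μ ∧ Gx 1 μ}.ncard : ℝ) := by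
  intro ε hε
  have h1 := Pool.Agent.H91.XH.lim_K2 j hj
  rw [Metric.tendsto_atTop] at h1
  obtain ⟨X₀, h⟩ := h1 ε hε
  refine ⟨X₀, fun X hX => ?_⟩
  have h2 := h X hX
  rw [Real.dist_eq] at h2
  have h3 := (abs_lt.1 h2).1
  have hFam : ∀ μ : 𝓞 K, Fam 1 X μ ↔ |Algebra.norm ℤ μ| ≤ X ∧ Squarefree μ ∧ IsCoprime μ 3 := by
    intro μ
    unfold Fam
    rw [mul_one]
  have hfin : {μ : 𝓞 K | Fam 1 X μ}.Finite := by
    have h4 : {μ : 𝓞 K | Fam 1 X μ} ⊆ j '' {z : Ei | nr z ≤ X} := by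
      intro μ hμ
      obtain ⟨z, rfl⟩ := j.surjective μ
      refine ⟨z, ?_, rfl⟩
      have := hμ.1
      rw [hj] at this
      exact (le_abs_self _).trans this
    exact ((Pool.Agent.H91.Dz.fin_nr X).image _).subset h4
  have hsub : {D : 𝓞 K | (|Algebra.norm ℤ D| ≤ X ∧ Squarefree D ∧ IsCoprime D 3) ∧
      Cl2 D ∧ Tri D} ⊆ {μ : 𝓞 K | Fam 1 X μ ∧ Gx 1 μ} := by
    rintro μ ⟨g1, g2, g3⟩
    exact ⟨(hFam μ).2 g1, gx_one j hj hdisc g1.2.1 g1.2.2 g2 g3⟩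
  have h5 := Set.ncard_le_ncard hsub (hfin.subset fun μ hμ => hμ.1)
  have h6 : ({D : 𝓞 K | |Algebra.norm ℤ D| ≤ X ∧ Squarefree D ∧ IsCoprime D 3}.ncard : ℝ) =
      ({μ : 𝓞 K | Fam 1 X μ}.ncard : ℝ) := by
    simp only [hFam]
  rw [h6] at h3
  have h7 : (({D : 𝓞 K | (|Algebra.norm ℤ D| ≤ X ∧ Squarefree D ∧ IsCoprime D 3) ∧
      Cl2 D ∧ Tri D}.ncard : ℕ) : ℝ) ≤ ({μ : 𝓞 K | Fam 1 X μ ∧ Gx 1 μ}.ncard : ℝ) := by
    exact_mod_cast h5
  refine le_trans ?_ h7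
  rcases (Nat.cast_nonneg ({μ : 𝓞 K | Fam 1 X μ}.ncard) : (0 : ℝ) ≤ _).eq_or_lt with h8 | h8
  · rw [← h8, mul_zero]
    exact Nat.cast_nonneg _
  · rw [← le_div_iff₀ h8]
    linarith

end

end Pool.Agent.H91.XP
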