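import Pool.Agent.H91.Sh5
import Pool.Agent.H91.Sh6
import Pool.Agent.H91.X23
import Pool.Agent.H91.Tw14

/-!
# `Ш(E_D/F)[3^∞]` over the towers and over the cubic extensions
-/

set_option autoImplicit false
set_option linter.unusedVariables false
set_option linter.unusedSectionVars false

open scoped Classical

namespace Pool.Agent.H91.Sh

open NumberField IsDedekindDomain
open Pool.Agent.Y692.QS (Ei w nr)
open Pool.Agent.TH841.NF.D (Sha)
open Pool.Agent.Y696.CTK (ED Tri)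
open Pool.Agent.W192.HK
open Pool.Agent.Y696
open Pool.Agent.H921R2.TatePole (nm two_le_nm)
open Pool.Agent.H91.Fin2 (Cl2)
open Pool.Agent.H91.Tw (Adm tc_of tri_b deg_tower)

lemma prim_root {F : Type} [Field F] [CharZero F] {x : F} (h : x ^ 2 + x + 1 = 0) :
    IsPrimitiveRoot x 3 := by
  have : Fact (Nat.Prime 3) := ⟨Nat.prime_three⟩
  rw [IsPrimitiveRoot.iff_orderOf]
  refine orderOf_eq_prime ?_ ?_
  · linear_combination (x - 1) * h
  · rintro rfl
    norm_num at h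

/-- the finiteness from the exponent -/
theorem sha_fin {F : Type} [Field F] [NumberField F] {ω d : F} (hω : ω ^ 2 + ω + 1 = 0)
    (hd : d ≠ 0) {k : ℕ} (h : ∀ (n : ℕ) (x : Sha (ED d)), 3 ^ n • x = 0 → 3 ^ k • x = 0) :
    {x : Sha (ED d) | ∃ n : ℕ, 3 ^ n • x = 0}.Finite := by
  have h1 : Finite {x : Sha (ED d) // (3 : ℕ) • x = 0} := sha3_fin F ω d (prim_root hω) hd
  refine (fin_pow h1 k).subset ?_
  rintro x ⟨n, hn⟩
  exact h n x hn

/-- the root of unity in `F` -/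
lemma om_F {K F : Type} [Field K] [NumberField K] [Field F] [NumberField F] [Algebra K F]
    (j : Ei ≃+* 𝓞 K) : (algebraMap K F (j w : K)) ^ 2 + algebraMap K F (j w : K) + 1 = 0 := by
  have h1 : (w : Ei) ^ 2 + w + 1 = 0 := by decide
  have h2 := congrArg (fun z => algebraMap K F (j z : K)) h1
  simp only [map_add, map_pow, map_one, map_zero] at h2
  exact_mod_cast h2

/-- the general theorem -/
theorem sha_gen {K : Type} [Field K] [NumberField K] (j : Ei ≃+* 𝓞 K) {D : 𝓞 K} (hD : D ≠ 0)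
    {k : ℕ} {μ : Fin k → 𝓞 K} (hμ : ∀ i, μ i ≠ 0)
    (hS : ∀ (c : Fin k → ZMod 3) (n : ℕ) (x : Sha (ED ((D * ∏ i, μ i ^ (c i).val : 𝓞 K) : K))),
      3 ^ n • x = 0 → x = 0) {F : Type} [Field F] [NumberField F]
    [Algebra K F] (θ : Fin k → F) (hθ : ∀ i, θ i ^ 3 = algebraMap K F (μ i))
    (hgen : IntermediateField.adjoin K (Set.range θ) = ⊤) :
    {x : Sha (ED (algebraMap K F D)) | ∃ n : ℕ, 3 ^ n • x = 0}.Finite ∧
    ∀ (n : ℕ) (x : Sha (ED (algebraMap K F D))), 3 ^ n • x = 0 → 3 ^ k • x = 0 := by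
  have hex : ∀ (n : ℕ) (x : Sha (ED (algebraMap K F D))), 3 ^ n • x = 0 → 3 ^ k • x = 0 := by
    obtain ⟨D₀, rfl⟩ := j.surjective D
    have hμ' : ∀ i, ∃ m, j m = μ i := fun i => j.surjective (μ i)
    choose m hm using hμ'
    refine sha_tower (K := K) (F := F) j (D := D₀) (fun h => hD (by rw [h, map_zero])) m
      (fun i h => hμ i (by rw [← hm, h, map_zero])) θ
      (fun i => by rw [hm]; exact hθ i) hgen (fun c => ?_)
    have h1 := hS c
    have e : j (D₀ * ∏ i, m i ^ (c i).val) = j D₀ * ∏ i, μ i ^ (c i).val := by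
      rw [map_mul, map_prod]
      congr 1
      exact Finset.prod_congr rfl fun i _ => by rw [map_pow, hm]
    rw [e]
    exact h1
  refine ⟨sha_fin (om_F j) ?_ hex, hex⟩
  intro h
  rw [map_eq_zero] at h
  exact hD (RingOfIntegers.ext h)

theorem sha_adm {K : Type} [Field K] [NumberField K] (j : Ei ≃+* 𝓞 K)
    (hj : ∀ z : Ei, Algebra.norm ℤ (j z) = nr z) (hdisc : discr K = -3) {D : 𝓞 K} (hD : Cl2 D)
    (hT : Tri D) {k : ℕ} {μ : Fin k → 𝓞 K} (ha : Adm D μ) {F : Type} [Field F] [NumberField F]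
    [Algebra K F] (θ : Fin k → F) (hθ : ∀ i, θ i ^ 3 = algebraMap K F (μ i))
    (hgen : IntermediateField.adjoin K (Set.range θ) = ⊤) :
    Module.finrank K F = 3 ^ k ∧
    {x : Sha (ED (algebraMap K F D)) | ∃ n : ℕ, 3 ^ n • x = 0}.Finite ∧
    ∀ (n : ℕ) (x : Sha (ED (algebraMap K F D))), 3 ^ n • x = 0 → 3 ^ k • x = 0 := by
  set ι : eis →+* 𝓞 K := (j : Ei →+* 𝓞 K).comp
    (Pool.Agent.Y715.T.Rs.eq0.symm : eis →+* Ei) with hι
  have hTC := tc_of j hD ha
  have hint : ∀ i, IsIntegral ℤ (θ i) := by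
    intro i
    have h1 : IsIntegral ℤ (θ i ^ 3) := by
      rw [hθ]
      exact (μ i).isIntegral_coe.algebraMap
    exact IsIntegral.of_pow (by norm_num) h1
  let θ' : Fin k → 𝓞 F := fun i => ⟨θ i, hint i⟩
  have hθ' : ∀ i, θ' i ^ 3 = algebraMap (𝓞 K) (𝓞 F) (μ i) := by
    intro i
    apply RingOfIntegers.ext
    have e1 : ((θ' i ^ 3 : 𝓞 F) : F) = θ i ^ 3 := map_pow (algebraMap (𝓞 F) F) (θ' i) 3
    rw [e1, hθ]
    rfl
  have hdeg := deg_tower k K F ι D μ θ' hθ' hTC hgen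
  have hD0 : D ≠ 0 := by
    rintro rfl
    exact hD.2.2.2 (hD.2.2.1 0 (dvd_zero _))
  exact ⟨hdeg, sha_gen j hD0 (fun i => (ha.prime i).ne_zero)
    (fun c => (tri_b j hj hdisc hD hT ha c).1.2) θ hθ hgen⟩

end Pool.Agent.H91.Sh
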