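import Pool.Agent.H91.Tz
import Pool.Agent.H91.Sel3
import Pool.Agent.H91.LKz
import Pool.Graph.R_seed8.Y350.CTK.Tam
import Pool.Graph.R_seed8.Y455.CTK.MIN
import Pool.Graph.R_seed8.Y891.CTK.E0

/-!
# The Tamagawa numbers of `y² + D y = x³` over `ℚ(ω)`, `D = ω^c ∏ π^e` with `c ≠ 0`
-/

set_option autoImplicit false
set_option linter.unusedSectionVars false
set_option linter.unusedVariables false

namespace Pool.Agent.H91.Tamz

open scoped Classical

open NumberField IsDedekindDomain WeierstrassCurve WithZero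
open Pool.Agent.Y692.QS (Ei w nr toC)
open Pool.Agent.Y715.T.RecG (Pq)
open Pool.Agent.Y703.CT
open Pool.Agent.Y696 (NonsingRed)
open Pool.Agent.Y696.CTK
open Pool.Agent.Y350.CTK.Tam hiding idx_three
open Pool.Agent.Y350.CTK (tg)
open Pool.Agent.Y455.CTK (isMinimal_ED val_theta pid_of ED_map)
open Pool.Agent.Y715.T.Gi (lam lam_sq prime_lam)
open Pool.Agent.H91.Sel (dD te_D dD_ne nd_w)
open Pool.Agent.H91.LKz (Pm)

variable {J : Type} [Fintype J] {π : J → Ei} {e : J → ZMod 3} {c : ZMod 3}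

lemma three_te : (3 : Ei) = te * -te := by linear_combination te_sq

/-- modulo three -/
lemma m_D (hc : c ≠ 0) (h : Dt π e) : ∃ m : Ei, dD c π e = 1 + te * m ∧ ¬ te ∣ m := by
  obtain ⟨m, hm⟩ := te_D (c := c) h
  refine ⟨m, by linear_combination hm, ?_⟩
  rintro ⟨r, rfl⟩
  have h3 : (3 : Ei) ∣ pD π e - 1 := by
    unfold pD
    have : ∀ s : Finset J, (3 : Ei) ∣ ∏ i ∈ s, π i ^ (e i).val - 1 := by
      intro s
      induction s using Finset.induction_on with
      | empty => simp
      | insert a s ha ih =>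
        rw [Finset.prod_insert ha]
        have h4 : (3 : Ei) ∣ π a ^ (e a).val - 1 := by
          have := sub_dvd_pow_sub_pow (π a) 1 (e a).val
          rw [one_pow] at this
          exact (h.pq a).three.trans this
        have e : π a ^ (e a).val * ∏ i ∈ s, π i ^ (e i).val - 1 =
          π a ^ (e a).val * (∏ i ∈ s, π i ^ (e i).val - 1) + (π a ^ (e a).val - 1) := by ring
        rw [e]
        exact dvd_add (Dvd.dvd.mul_left ih _) h4
    exact this Finset.univ
  have h5 : (3 : Ei) ∣ w ^ c.val - 1 := by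
    have e1 : w ^ c.val - 1 = (dD c π e - 1) - w ^ c.val * (pD π e - 1) := by
      unfold dD
      ring
    rw [e1]
    refine dvd_sub ?_ (Dvd.dvd.mul_left h3 _)
    rw [hm]
    exact ⟨-r, by rw [three_te]; ring⟩
  obtain ⟨t, ht⟩ := h5
  have h6 := congrArg nr ht
  rw [Pool.Agent.Y692.QS.nr_mul] at h6
  have h7 : nr (3 : Ei) = 9 := by decide
  have h8 : ∀ c : ZMod 3, c ≠ 0 → nr (w ^ c.val - 1) = 3 := by decide
  rw [h7, h8 c hc] at h6
  omega

section
variable {K : Type} [Field K] [NumberField K] (j : Ei ≃+* 𝓞 K)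

lemma w_mem (v : HeightOneSpectrum (𝓞 K)) (n : ℕ) : v.intValuation (j (w ^ n)) = 1 := by
  rw [HeightOneSpectrum.intValuation_eq_one_iff]
  intro h
  apply v.isPrime.ne_top
  refine Ideal.eq_top_of_isUnit_mem _ h ?_
  rw [MulEquiv.isUnit_map]
  refine IsUnit.pow n ?_
  rw [Pool.Agent.Y692.QS.isUnit_iff]
  decide

lemma val_D_one2 (c : ZMod 3) (e : J → ZMod 3) {v : HeightOneSpectrum (𝓞 K)}
    (h : ∀ i, j (π i) ∉ v.asIdeal) : v.intValuation (j (dD c π e)) = 1 := by
  unfold dD pD
  rw [map_mul, map_mul, w_mem, one_mul, map_prod, map_prod]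
  refine Finset.prod_eq_one fun i _ => ?_
  rw [map_pow, map_pow, HeightOneSpectrum.intValuation_eq_one_iff.2 (h i), one_pow]

lemma val_D_exp2 (c : ZMod 3) (hD : Dt π e) (i : J) :
    (pl j (hD.pq i).prime).intValuation (j (dD c π e)) = exp (-1 : ℤ) ∨
    (pl j (hD.pq i).prime).intValuation (j (dD c π e)) = exp (-2 : ℤ) := by
  have h1 : (pl j (hD.pq i).prime).intValuation (j (dD c π e)) = exp (-1 : ℤ) ^ (e i).val := by
    unfold dD pD
    rw [map_mul, map_mul, w_mem, one_mul, map_prod, map_prod, Finset.prod_eq_single i, map_pow,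
      map_pow, pl_val]
    · intro k _ hk
      rw [map_pow, map_pow, HeightOneSpectrum.intValuation_eq_one_iff.2, one_pow]
      rw [mem_pl]
      exact hD.nd k i hk
    · intro h
      exact absurd (Finset.mem_univ i) h
  have h2 : ∀ z : ZMod 3, z ≠ 0 → z.val = 1 ∨ z.val = 2 := by decide
  rcases h2 _ (hD.e0 i) with h3 | h3 <;> rw [h1, h3]
  · left
    rw [pow_one]
  · right
    rfl

lemma pl_inj2 (hD : Dt π e) :
    Function.Injective fun i => pl j (hD.pq i).prime := by
  intro a b h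
  by_contra hab
  have h1 : j (π a) ∈ (pl j (hD.pq b).prime).asIdeal := by
    have h2 : pl j (hD.pq a).prime = pl j (hD.pq b).prime := h
    rw [← h2, mem_pl]
  rw [mem_pl] at h1
  exact hD.nd a b hab h1

lemma pl_three2 (hD : Dt π e) (i : J) : j 3 ∉ (pl j (hD.pq i).prime).asIdeal := by
  rw [mem_pl]
  exact (hD.pq i).norm

/-- minimality -/
theorem mink2 (D : Ei) (h3D : ¬ te ∣ D)
    (hcf : ∀ v : HeightOneSpectrum (𝓞 K), exp (-2 : ℤ) ≤ v.intValuation (j D))
    (v : HeightOneSpectrum (𝓞 K)) :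
    IsMinimal (v.adicCompletionIntegers K) ((ED (j D : K)).baseChange (v.adicCompletion K)) := by
  have hbc : (ED (j D : K)).baseChange (v.adicCompletion K) =
      ED (algebraMap (v.adicCompletionIntegers K) (v.adicCompletion K)
        (algebraMap (𝓞 K) (v.adicCompletionIntegers K) (j D))) := by
    unfold WeierstrassCurve.baseChange
    rw [Pool.Agent.Y455.CTK.ED_map]
    rfl
  rw [hbc]
  apply isMinimal_ED
  rintro u hu ⟨r, hr⟩
  have h1 : Valued.v (u : v.adicCompletion K) < 1 := (Pool.Agent.W189.NF.mem_max_iff v u).1 hu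
  have h2 : Valued.v (u : v.adicCompletion K) ≤ exp (-1 : ℤ) := Pool.Agent.Y696.exp_lt h1
  have h3 : Valued.v (r : v.adicCompletion K) ≤ 1 := r.2
  obtain ⟨δ, hδ⟩ : ∃ δ : v.adicCompletion K, δ = algebraMap K (v.adicCompletion K) (j D : K) :=
    ⟨_, rfl⟩
  have h4 : (27 : v.adicCompletion K) * δ ^ 4 =
      (u : v.adicCompletion K) ^ 12 * (r : v.adicCompletion K) := by
    have := congrArg (algebraMap (v.adicCompletionIntegers K) (v.adicCompletion K)) hr
    rw [map_mul, map_mul, map_pow, map_pow, map_ofNat] at this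
    rw [hδ]
    exact this
  have h5 : Valued.v ((27 : v.adicCompletion K) * δ ^ 4) ≤ exp (-12 : ℤ) := by
    rw [h4, map_mul, map_pow]
    calc _ ≤ (exp (-1 : ℤ)) ^ 12 * 1 := by gcongr
      _ = exp (-12 : ℤ) := by rw [mul_one, ← exp_nsmul]; rfl
  have hval : ∀ x : 𝓞 K, Valued.v (algebraMap K (v.adicCompletion K) (x : K)) =
      v.intValuation x := by
    intro x
    rw [Pool.Agent.H723R3.valued_algebraMap]
    exact HeightOneSpectrum.valuation_of_algebraMap (K := K) v x
  have hφ : ∀ x : 𝓞 K, algebraMap K (v.adicCompletion K) (x : K) =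
      ((algebraMap K (v.adicCompletion K)).comp (algebraMap (𝓞 K) K)) x := fun _ => rfl
  have h6 : (exp (-8 : ℤ) : ℤᵐ⁰) ≤ Valued.v ((27 : v.adicCompletion K) * δ ^ 4) := by
    by_cases hv : (3 : 𝓞 K) ∈ v.asIdeal
    · have e2 := val_theta j v hv
      have e1 : (27 : 𝓞 K) = -(j lam) ^ 6 := by
        have hsq : (j lam) ^ 2 = -3 := by
          rw [← map_pow, lam_sq, map_neg, map_ofNat]
        linear_combination ((j lam) ^ 4 - 3 * (j lam) ^ 2 + 9) * hsq
      have e3 : v.intValuation (j D) = 1 := by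
        rw [HeightOneSpectrum.intValuation_eq_one_iff]
        intro hmem
        have h7 : v = pl j te_prime := three_mem j (by rwa [map_ofNat])
        rw [h7, mem_pl] at hmem
        exact h3D hmem
      have e5 : (27 : v.adicCompletion K) * δ ^ 4 =
          algebraMap K (v.adicCompletion K) (((27 * (j D) ^ 4 : 𝓞 K)) : K) := by
        rw [hδ, hφ, hφ, map_mul, map_pow, map_ofNat]
      rw [e5, hval, map_mul, map_pow, e3, one_pow, mul_one, e1, Valuation.map_neg, map_pow, e2,
        ← exp_nsmul]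
      rw [nsmul_eq_mul, exp_le_exp]
      norm_num
    · have e2 : v.intValuation (3 : 𝓞 K) = 1 := HeightOneSpectrum.intValuation_eq_one_iff.2 hv
      have e3 := hcf v
      have e5 : (27 : v.adicCompletion K) * δ ^ 4 =
          algebraMap K (v.adicCompletion K) (((3 ^ 3 * (j D) ^ 4 : 𝓞 K)) : K) := by
        rw [hδ, hφ, hφ, map_mul, map_pow, map_pow, map_ofNat]
        norm_num
      rw [e5, hval, map_mul, map_pow, map_pow, e2, one_pow, one_mul]
      calc (exp (-8 : ℤ) : ℤᵐ⁰) = (exp (-2 : ℤ)) ^ 4 := by rw [← exp_nsmul]; rfl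
        _ ≤ _ := by gcongr
  have h7 := h6.trans h5
  rw [exp_le_exp] at h7
  norm_num at h7

lemma cf_D (c : ZMod 3) (hD : Dt π e) (v : HeightOneSpectrum (𝓞 K)) :
    exp (-2 : ℤ) ≤ v.intValuation (j (dD c π e)) := by
  by_cases h : ∃ i, j (π i) ∈ v.asIdeal
  · obtain ⟨i, hi⟩ := h
    rw [eq_pl j (hD.pq i).prime hi]
    rcases val_D_exp2 j c hD i with h1 | h1 <;> rw [h1] <;> rw [exp_le_exp]
    norm_num
  · push Not at h
    rw [val_D_one2 j c e h, ← exp_zero, exp_le_exp]
    norm_num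

lemma te_nd (h : Dt π e) : ¬ te ∣ dD c π e := by
  intro h1
  have h2 := dvd_sub h1 (te_D (c := c) h)
  rw [sub_sub_cancel] at h2
  exact te_prime.not_unit (isUnit_of_dvd_one h2)

lemma idx3 {L : Type} [Field L] (v : Valuation L ℤᵐ⁰) {W : WeierstrassCurve L} {D : L}
    (hW : W = ED D) (h3 : v 3 = 1) (hv : v D = exp (-1 : ℤ) ∨ v D = exp (-2 : ℤ))
    (H : AddSubgroup W.toAffine.Point)
    (hH : ∀ P, P ∈ H ↔ NonsingRed v W P) : H.index = 3 := by
  subst hW
  exact Tz.td2 L v D h3 hv H hH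

lemma idxt {L : Type} [Field L] (v : Valuation L ℤᵐ⁰) {W : WeierstrassCurve L} {D : L}
    (hW : W = ED D) {θ m : L} (h1 : θ ^ 2 = -3) (h2 : v θ = exp (-1 : ℤ)) (h3 : D = 1 + θ * m ∨ D = -1 + θ * m)
    (h4 : v m = 1) (h5 : ∀ x : L, v x ≤ 1 → v x < 1 ∨ v (x - 1) < 1 ∨ v (x + 1) < 1)
    (H : AddSubgroup W.toAffine.Point)
    (hH : ∀ P, P ∈ H ↔ NonsingRed v W P) : H.index = 1 := by
  subst hW
  rw [AddSubgroup.index_eq_one, eq_top_iff]
  intro P _
  exact (hH P).2 (Tz.tz L v D θ m h1 h2 h3 h4 h5 P)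

lemma val_pm {D D' : Ei} (h : Pm D D') (v : HeightOneSpectrum (𝓞 K)) :
    v.intValuation (j D') = v.intValuation (j D) := by
  rcases h with h | h <;> rw [h]
  rw [map_neg, Valuation.map_neg]

lemma m_pm (hc : c ≠ 0) (hD : Dt π e) {D : Ei} (h : Pm (dD c π e) D) :
    ∃ m : Ei, (D = 1 + te * m ∨ D = -1 + te * m) ∧ ¬ te ∣ m := by
  obtain ⟨m, hm, hm2⟩ := m_D hc hD
  rcases h with h | h
  · exact ⟨m, Or.inl (by rw [h, hm]), hm2⟩
  · refine ⟨-m, Or.inr (by rw [h, hm]; ring), ?_⟩
    rwa [dvd_neg]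

/-- the Tamagawa numbers -/
theorem tam2 (hc : c ≠ 0) (hD : Dt π e) {D : Ei} (hpm : Pm (dD c π e) D) :
    ∃ t : HeightOneSpectrum (𝓞 K) → ℕ, IsTam (ED (j D : K)) t ∧
      ∏ᶠ v, t v = 3 ^ Fintype.card J := by
  have hD0 : D ≠ 0 := by
    rcases hpm with h | h <;> rw [h]
    · exact dD_ne hD
    · exact neg_ne_zero.2 (dD_ne hD)
  have hjD0 : ((j D : 𝓞 K) : K) ≠ 0 := by
    intro h
    have h1 : j D = 0 := by
      apply RingOfIntegers.ext
      exact h
    exact hD0 ((map_eq_zero_iff j j.injective).1 h1)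
  have hsub : ∀ v : HeightOneSpectrum (𝓞 K), ∃ H : AddSubgroup
      ((ED (j D : K)).baseChange (v.adicCompletion K)).toAffine.Point,
      ∀ P, P ∈ H ↔ NonsingRed Valued.v
        ((ED (j D : K)).baseChange (v.adicCompletion K)) P := by
    intro v
    apply sub_ex Pool.Agent.Y891.CTK.e0k Valued.v (bc_ED _)
    · have h1 : (27 : v.adicCompletion K) * (algebraMap K (v.adicCompletion K)
          ((j D : 𝓞 K) : K)) ^ 4 = algebraMap K (v.adicCompletion K)
          (27 * ((j D : 𝓞 K) : K) ^ 4) := by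
        rw [map_mul, map_pow, map_ofNat]
      rw [h1, map_ne_zero]
      exact mul_ne_zero (by norm_num) (pow_ne_zero _ hjD0)
    · rw [val_eq]
      exact v.intValuation_le_one _
  choose H hH using hsub
  -- the indices
  have hA : (H (pl j te_prime)).index = 1 := by
    obtain ⟨m, hm, hm2⟩ := m_pm hc hD hpm
    refine idxt Valued.v (bc_ED _)
      (θ := algebraMap K ((pl j te_prime).adicCompletion K) ((j te : 𝓞 K) : K))
      (m := algebraMap K ((pl j te_prime).adicCompletion K) ((j m : 𝓞 K) : K)) ?_ ?_ ?_ ?_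
      (res j) _ (hH _)
    · have h1 : ((j te : 𝓞 K) : K) ^ 2 = -3 := by
        have h2 : (j te) ^ 2 = -3 := by rw [← map_pow, te_sq, map_neg, map_ofNat]
        have h3 := congrArg (algebraMap (𝓞 K) K) h2
        rw [map_pow, map_neg, map_ofNat] at h3
        exact h3
      rw [← map_pow, h1, map_neg, map_ofNat]
    · rw [val_eq, pl_val]
    · rcases hm with hm | hm
      · left
        have h1 : ((j D : 𝓞 K) : K) = 1 + ((j te : 𝓞 K) : K) * ((j m : 𝓞 K) : K) := by
          have h2 : j D = 1 + j te * j m := by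
            rw [hm, map_add, map_mul, map_one]
          have h3 := congrArg (algebraMap (𝓞 K) K) h2
          rw [map_add, map_mul, map_one] at h3
          exact h3
        rw [h1, map_add, map_mul, map_one]
      · right
        have h1 : ((j D : 𝓞 K) : K) = -1 + ((j te : 𝓞 K) : K) * ((j m : 𝓞 K) : K) := by
          have h2 : j D = -1 + j te * j m := by
            rw [hm, map_add, map_mul, map_neg, map_one]
          have h3 := congrArg (algebraMap (𝓞 K) K) h2
          rw [map_add, map_mul, map_neg, map_one] at h3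
          exact h3
        rw [h1, map_add, map_mul, map_neg, map_one]
    · apply val_one
      rw [mem_pl]
      exact hm2
  have hB : ∀ i, (H (pl j (hD.pq i).prime)).index = 3 := by
    intro i
    refine idx3 Valued.v (bc_ED _) ?_ ?_ _ (hH _)
    · rw [three_eq j]
      exact val_one _ (pl_three2 j hD i)
    · rw [val_eq, val_pm j hpm]
      exact val_D_exp2 j c hD i
  have hC : ∀ v : HeightOneSpectrum (𝓞 K), j 3 ∉ v.asIdeal → (∀ i, j (π i) ∉ v.asIdeal) →
      (H v).index = 1 := by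
    intro v h3 hi
    refine idx_one tg Valued.v (bc_ED _) ?_ ?_ _ (hH _)
    · rw [three_eq j]
      exact val_one _ h3
    · rw [val_eq, val_pm j hpm]
      exact val_D_one2 j c e hi
  -- the support
  have hsupp : Function.mulSupport (fun v => (H v).index) ⊆
      ((Finset.univ.image fun i => pl j (hD.pq i).prime :
        Finset (HeightOneSpectrum (𝓞 K))) : Set (HeightOneSpectrum (𝓞 K))) := by
    intro v hv
    rw [Function.mem_mulSupport] at hv
    by_contra hcon
    apply hv
    rw [Finset.mem_coe, Finset.mem_image] at hcon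
    by_cases h3 : j 3 ∈ v.asIdeal
    · rw [three_mem j h3]
      exact hA
    · refine hC v h3 fun i hi => hcon ⟨i, Finset.mem_univ _, ?_⟩
      exact (eq_pl j (hD.pq i).prime hi).symm
  refine ⟨fun v => (H v).index, ⟨fun v => ⟨mink2 j _ (fun h => te_nd hD ((hpm.dvd te).1 h))
    (fun v => by rw [val_pm j hpm]; exact cf_D j c hD v) v, H v, hH v, rfl⟩,
    ?_⟩, ?_⟩
  · exact (Finset.finite_toSet _).subset hsupp
  · rw [finprod_eq_prod_of_mulSupport_subset _ hsupp, Finset.prod_image]
    · rw [Finset.prod_congr rfl fun i _ => hB i, Finset.prod_const, Finset.card_univ]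
    · intro a _ b _ h
      exact pl_inj2 j hD h

end

end Pool.Agent.H91.Tamz
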