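import Mathlib
import Pool.Graph.R_seed8.Y696.CTE.LF2
import Pool.Graph.R_seed8.Y655.CTE.Ram

/-!
# Towers, part 1: a cubic layer `L' = L(θ)`, `θ³ = μ`, over a number field with cube roots of unity:
# the Galois group, and the splitting of the primes that are prime to `3 μ`

The proofs for the base field `ℚ(ω)` are in `Pool.Agent.Y983.CTE` (library), and are adapted here.
-/

set_option autoImplicit false
set_option linter.unusedSectionVars false

open scoped Classical IntermediateField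

namespace Pool.Agent.H91.Tw

open NumberField IsDedekindDomain Polynomial
open Pool.Agent.Y696 (und mem_und und_lies nK card_nm fibN_fintype exists_above)

/-- a cubic layer -/
structure Cb {L L' : Type} [Field L] [NumberField L] [Field L'] [NumberField L'] [Algebra L L']
    (I μ : 𝓞 L) (θ : 𝓞 L') : Prop where
  deg : Module.finrank L L' = 3
  cube : θ ^ 3 = algebraMap (𝓞 L) (𝓞 L') μ
  root : I ^ 2 + I + 1 = 0
  ne0 : μ ≠ 0
  ncube : ∀ x : 𝓞 L, x ^ 3 ≠ μ

section basic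

variable {K F : Type} [Field K] [NumberField K] [Field F] [NumberField F] [Algebra K F]
  {I μ : 𝓞 K} {θ : 𝓞 F}

lemma I3 (h : I ^ 2 + I + 1 = 0) : I ^ 3 = 1 := by linear_combination (I - 1) * h

lemma om_cube (h : Cb I μ θ) : (I : K) ^ 3 = 1 := by
  have := congrArg (algebraMap (𝓞 K) K) (I3 h.root)
  rw [map_pow, map_one] at this
  exact this

lemma I_ne_one (h : I ^ 2 + I + 1 = 0) : I ≠ 1 := by
  rintro rfl
  have h3 : (3 : 𝓞 K) = 0 := by linear_combination h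
  have h4 := congrArg (algebraMap (𝓞 K) K) h3
  rw [map_ofNat, map_zero] at h4
  exact three_ne_zero h4

lemma om_ne (h : Cb I μ θ) : (I : K) ≠ 1 := by
  intro h0
  apply I_ne_one h.root
  apply RingOfIntegers.ext
  rw [h0]
  rfl

lemma om_prim (h : Cb I μ θ) : IsPrimitiveRoot (I : K) 3 := by
  rw [IsPrimitiveRoot.iff_orderOf]
  exact orderOf_eq_prime (om_cube h) (om_ne h)

lemma dD_ne (h : Cb I μ θ) (b : K) : b ^ 3 ≠ (μ : K) := by
  intro hb
  have h1 : IsIntegral (𝓞 K) (b ^ 3) := by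
    rw [hb]
    exact isIntegral_algebraMap
  have h2 : IsIntegral (𝓞 K) b := IsIntegral.of_pow (by norm_num) h1
  obtain ⟨y, hy⟩ := (IsIntegrallyClosed.isIntegral_iff (R := 𝓞 K) (K := K)).1 h2
  apply h.ncube y
  apply RingOfIntegers.ext
  rw [← hb, ← hy]
  simp

lemma irr (h : Cb I μ θ) : Irreducible (X ^ 3 - C (μ : K)) :=
  X_pow_sub_C_irreducible_of_prime Nat.prime_three (dD_ne h)

lemma cubeF (h : Cb I μ θ) : ((θ : F)) ^ 3 = algebraMap K F (μ : K) := by
  have := congrArg (algebraMap (𝓞 F) F) h.cube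
  rw [map_pow] at this
  exact this

lemma top (h : Cb I μ θ) : K⟮(θ : F)⟯ = ⊤ := by
  rw [Field.primitive_element_iff_minpoly_natDegree_eq, h.deg]
  rw [← minpoly.eq_of_irreducible_of_monic (irr h)]
  · exact natDegree_X_pow_sub_C
  · simp [cubeF h]
  · exact monic_X_pow_sub_C _ (by norm_num)

lemma primN (h : Cb I μ θ) : (primitiveRoots 3 K).Nonempty :=
  ⟨(I : K), (mem_primitiveRoots (by norm_num)).2 (om_prim h)⟩

lemma spl (h : Cb I μ θ) : IsSplittingField K F (X ^ 3 - C (μ : K)) := by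
  have h1 := isSplittingField_X_pow_sub_C_of_root_adjoin_eq_top (K := K) (L := F)
    (a := (μ : K)) (α := (θ : F)) (by rw [h.deg]; exact primN h)
    (by rw [h.deg]; exact cubeF h) (top h)
  rwa [h.deg] at h1

lemma gal' (h : Cb I μ θ) : IsGalois K F :=
  letI := spl h
  isGalois_of_isSplittingField_X_pow_sub_C (primN h) (irr h) F

/-- the isomorphism of the Galois group -/
noncomputable def eq3 (h : Cb I μ θ) : (F ≃ₐ[K] F) ≃* Multiplicative (ZMod 3) :=
  letI := spl h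
  autEquivZmod (irr h) F (om_prim h)

/-- the generator -/
noncomputable def sg (h : Cb I μ θ) : F ≃ₐ[K] F := (eq3 h).symm (Multiplicative.ofAdd 1)

lemma sg_pow (h : Cb I μ θ) (c : ℕ) :
    (sg h) ^ c = (eq3 h).symm (Multiplicative.ofAdd (c : ZMod 3)) := by
  unfold sg
  rw [← map_pow, ← ofAdd_nsmul]
  simp

lemma sg_three (h : Cb I μ θ) : (sg h) ^ 3 = 1 := by
  rw [sg_pow]
  have : ((3 : ℕ) : ZMod 3) = 0 := by decide
  rw [this, ofAdd_zero, map_one]

lemma sg_apply (h : Cb I μ θ) (c : ℕ) :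
    ((sg h) ^ c) (θ : F) = algebraMap K F (I : K) ^ c * (θ : F) := by
  rw [sg_pow]
  let _ := spl h
  unfold eq3
  rw [autEquivZmod_symm_apply_natCast (irr h) F (cubeF h) (om_prim h) c, Algebra.smul_def,
    map_pow]

lemma sg_all (h : Cb I μ θ) (g : F ≃ₐ[K] F) : ∃ c : ZMod 3, g = (sg h) ^ c.val := by
  refine ⟨Multiplicative.toAdd (eq3 h g), ?_⟩
  rw [sg_pow]
  rw [ZMod.natCast_val, ZMod.cast_id, ofAdd_toAdd, MulEquiv.symm_apply_apply]

lemma card_gal (h : Cb I μ θ) : Nat.card (F ≃ₐ[K] F) = 3 := by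
  rw [Nat.card_congr (eq3 h).toEquiv]
  simp

/-- `ω` in `𝓞 F` -/
def wF (F : Type) [Field F] [NumberField F] [Algebra K F] (I : 𝓞 K) : 𝓞 F :=
  algebraMap (𝓞 K) (𝓞 F) I

lemma sg_smul (h : Cb I μ θ) (c : ℕ) :
    ((sg h) ^ c • θ : 𝓞 F) = (wF F I) ^ c * θ := by
  apply RingOfIntegers.ext
  have h1 : (((sg h) ^ c • θ : 𝓞 F) : F) = ((sg h) ^ c) (θ : F) := rfl
  rw [h1, sg_apply]
  have h2 : algebraMap (𝓞 F) F (wF F I) = algebraMap K F (I : K) := rfl
  show _ = algebraMap (𝓞 F) F (wF F I ^ c * θ)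
  rw [map_mul, map_pow, h2]

lemma th_ne (h : Cb I μ θ) : (θ : F) ≠ 0 := by
  intro h0
  have h1 := cubeF h
  rw [h0, zero_pow (by norm_num)] at h1
  have h2 : (μ : K) = 0 := ((map_eq_zero_iff _ (algebraMap K F).injective).1 h1.symm)
  exact h.ne0 (RingOfIntegers.ext h2)

lemma sg_ne (h : Cb I μ θ) : sg h ≠ 1 := by
  intro h1
  have h2 := sg_apply h 1
  rw [pow_one, pow_one, h1] at h2
  have h3 : (θ : F) = algebraMap K F (I : K) * (θ : F) := h2
  have h4 : algebraMap K F (I : K) = 1 := by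
    have := th_ne h
    field_simp at h3
    exact h3.symm
  apply om_ne h
  exact (algebraMap K F).injective (by rw [h4, map_one])

/-- differences of powers of `ω` divide `3` -/
lemma diff_dvd (h : I ^ 2 + I + 1 = 0) : ∀ a b : ZMod 3, a ≠ b → (I ^ a.val - I ^ b.val) ∣ 3 := by
  have h3 := I3 h
  have k1 : (1 - I) ∣ 3 := ⟨1 - I ^ 2, by linear_combination (2 - I) * h⟩
  have k2 : (1 - I ^ 2) ∣ 3 := ⟨1 - I, by linear_combination (2 - I) * h⟩
  have k3 : (I - I ^ 2) ∣ 3 :=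
    ⟨I ^ 2 * (1 - I ^ 2), by linear_combination (2 - I) * h - (1 - I) * (1 - I ^ 2) * h3⟩
  have k1' : (I - 1) ∣ 3 := by rw [← neg_sub, neg_dvd]; exact k1
  have k2' : (I ^ 2 - 1) ∣ 3 := by rw [← neg_sub, neg_dvd]; exact k2
  have k3' : (I ^ 2 - I) ∣ 3 := by rw [← neg_sub, neg_dvd]; exact k3
  have z3 : ∀ c : ZMod 3, c = 0 ∨ c = 1 ∨ c = 2 := by decide
  have v0 : (0 : ZMod 3).val = 0 := rfl
  have v1 : (1 : ZMod 3).val = 1 := rfl
  have v2 : (2 : ZMod 3).val = 2 := rfl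
  intro a b hab
  rcases z3 a with rfl | rfl | rfl <;> rcases z3 b with rfl | rfl | rfl <;>
    first
    | exact absurd rfl hab
    | simpa only [v0, v1, v2, pow_zero, pow_one] using k1
    | simpa only [v0, v1, v2, pow_zero, pow_one] using k2
    | simpa only [v0, v1, v2, pow_zero, pow_one] using k3
    | simpa only [v0, v1, v2, pow_zero, pow_one] using k1'
    | simpa only [v0, v1, v2, pow_zero, pow_one] using k2'
    | simpa only [v0, v1, v2, pow_zero, pow_one] using k3'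

/-- the inertia groups at the places that do not contain `3 θ` are trivial -/
lemma unr (h : Cb I μ θ) (v : HeightOneSpectrum (𝓞 F)) (h3 : (3 : 𝓞 F) ∉ v.asIdeal)
    (hv : algebraMap (𝓞 K) (𝓞 F) μ ∉ v.asIdeal) (g : F ≃ₐ[K] F)
    (hg : ∀ x : 𝓞 F, g • x - x ∈ v.asIdeal) : g = 1 := by
  obtain ⟨c, rfl⟩ := sg_all h g
  have hp := v.isPrime
  by_cases hc : c = 0
  · subst hc
    simp
  · exfalso
    have h1 := hg θ
    rw [sg_smul, ← sub_one_mul] at h1
    rcases hp.mem_or_mem h1 with h2 | h2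
    · apply h3
      obtain ⟨e, he⟩ := diff_dvd h.root c 0 hc
      have h4 : (3 : 𝓞 F) = algebraMap (𝓞 K) (𝓞 F) 3 := (map_ofNat _ 3).symm
      rw [h4, he, map_mul]
      apply Ideal.mul_mem_right
      convert h2 using 1
      simp [wF, map_sub, map_pow]
    · apply hv
      rw [← h.cube]
      exact Ideal.pow_mem_of_mem _ h2 3 (by norm_num)

instance comm_smul : SMulCommClass (F ≃ₐ[K] F) (𝓞 K) (𝓞 F) := by
  refine ⟨fun g a x => ?_⟩
  apply RingOfIntegers.ext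
  rw [Algebra.smul_def, Algebra.smul_def]
  show g (algebraMap (𝓞 F) F (algebraMap (𝓞 K) (𝓞 F) a * x)) =
    algebraMap (𝓞 F) F (algebraMap (𝓞 K) (𝓞 F) a * (g • x))
  rw [map_mul, map_mul, map_mul]
  have h1 : algebraMap (𝓞 F) F (algebraMap (𝓞 K) (𝓞 F) a) = algebraMap K F (a : K) := rfl
  rw [h1, AlgEquiv.commutes]
  rfl

/-- three divides `q - 1` -/
lemma three_dvd_card (hI : I ^ 2 + I + 1 = 0) {u : HeightOneSpectrum (𝓞 K)}
    (h3 : (3 : 𝓞 K) ∉ u.asIdeal) : 3 ∣ nK u - 1 ∧ 1 < nK u := by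
  have hu := u.isPrime.isMaximal u.ne_bot
  let _ : Field (𝓞 K ⧸ u.asIdeal) := Ideal.Quotient.field _
  have hfin : Finite (𝓞 K ⧸ u.asIdeal) := Ideal.finiteQuotientOfFreeOfNeBot _ u.ne_bot
  let _ : Fintype (𝓞 K ⧸ u.asIdeal) := Fintype.ofFinite _
  set i : 𝓞 K ⧸ u.asIdeal := Ideal.Quotient.mk _ I with hi
  have e1 : i ^ 2 + i + 1 = 0 := by
    rw [hi, ← map_pow, ← map_add, ← map_one (Ideal.Quotient.mk u.asIdeal), ← map_add, hI, map_zero]
  have e3 : i ^ 3 = 1 := by linear_combination (i - 1) * e1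
  have hi1 : i ≠ 1 := by
    intro h
    apply h3
    rw [← Ideal.Quotient.eq_zero_iff_mem, map_ofNat]
    rw [h] at e1
    linear_combination e1
  have hi0 : i ≠ 0 := by
    intro h
    rw [h] at e1
    norm_num at e1
  have h4 : orderOf (Units.mk0 i hi0) = 3 := by
    apply orderOf_eq_prime
    · apply Units.ext
      simpa using e3
    · intro h
      apply hi1
      have := congrArg Units.val h
      simpa using this
  have h5 : 3 ∣ Fintype.card (𝓞 K ⧸ u.asIdeal)ˣ := by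
    rw [← h4]
    exact orderOf_dvd_card
  have h6 : Fintype.card (𝓞 K ⧸ u.asIdeal)ˣ = Fintype.card (𝓞 K ⧸ u.asIdeal) - 1 :=
    Fintype.card_units (𝓞 K ⧸ u.asIdeal)
  have h7 : nK u = Fintype.card (𝓞 K ⧸ u.asIdeal) := by
    rw [← card_nm, Nat.card_eq_fintype_card]
  rw [h7, ← h6]
  exact ⟨h5, Fintype.one_lt_card⟩

/-- the cubic residue symbol: `x ^ ((q - 1) / 3) = I ^ c` modulo `u` -/
def Sy (I : 𝓞 K) (u : HeightOneSpectrum (𝓞 K)) (x : 𝓞 K) (c : ZMod 3) : Prop :=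
  x ^ ((nK u - 1) / 3) - I ^ c.val ∈ u.asIdeal

lemma Sy.unique (hI : I ^ 2 + I + 1 = 0) {u : HeightOneSpectrum (𝓞 K)}
    (h3 : (3 : 𝓞 K) ∉ u.asIdeal) {x : 𝓞 K} {c c' : ZMod 3} (h : Sy I u x c) (h' : Sy I u x c') :
    c = c' := by
  by_contra hne
  apply h3
  obtain ⟨e, he⟩ := diff_dvd hI c c' hne
  rw [he]
  apply Ideal.mul_mem_right
  have : I ^ c.val - I ^ c'.val = (x ^ ((nK u - 1) / 3) - I ^ c'.val) -
      (x ^ ((nK u - 1) / 3) - I ^ c.val) := by ring
  rw [this]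
  exact sub_mem h' h

lemma Sy.exists (hI : I ^ 2 + I + 1 = 0) {u : HeightOneSpectrum (𝓞 K)}
    (h3 : (3 : 𝓞 K) ∉ u.asIdeal) {x : 𝓞 K} (hx : x ∉ u.asIdeal) : ∃ c : ZMod 3, Sy I u x c := by
  obtain ⟨⟨m, hm⟩, h1⟩ := three_dvd_card hI h3
  have hu := u.isPrime.isMaximal u.ne_bot
  let _ : Field (𝓞 K ⧸ u.asIdeal) := Ideal.Quotient.field _
  have hfin : Finite (𝓞 K ⧸ u.asIdeal) := Ideal.finiteQuotientOfFreeOfNeBot _ u.ne_bot
  let _ : Fintype (𝓞 K ⧸ u.asIdeal) := Fintype.ofFinite _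
  have h7 : nK u = Fintype.card (𝓞 K ⧸ u.asIdeal) := by
    rw [← card_nm, Nat.card_eq_fintype_card]
  have hm' : (nK u - 1) / 3 = m := by omega
  have hx0 : Ideal.Quotient.mk u.asIdeal x ≠ 0 := by
    rw [Ne, Ideal.Quotient.eq_zero_iff_mem]
    exact hx
  have h2 : (Ideal.Quotient.mk u.asIdeal x) ^ (nK u - 1) = 1 := by
    rw [h7]
    exact FiniteField.pow_card_sub_one_eq_one _ hx0
  set y := x ^ m with hy
  have h4 : (y - 1) * (y - I) * (y - I ^ 2) ∈ u.asIdeal := by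
    rw [← Ideal.Quotient.eq_zero_iff_mem]
    have e : (y - 1) * (y - I) * (y - I ^ 2) = y ^ 3 - 1 := by
      have h3' := I3 hI
      linear_combination (y * I - y ^ 2) * hI - h3' + (-y + I * y) * 0 + y * (h3' - h3')
        + y * (I - I) * hI
    rw [e, map_sub, map_pow, map_one, hy, map_pow, ← pow_mul, mul_comm m 3, ← hm, h2, sub_self]
  have v0 : (0 : ZMod 3).val = 0 := rfl
  have v1 : (1 : ZMod 3).val = 1 := rfl
  have v2 : (2 : ZMod 3).val = 2 := rfl
  rcases u.isPrime.mem_or_mem h4 with h5 | h5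
  · rcases u.isPrime.mem_or_mem h5 with h6 | h6
    · refine ⟨0, ?_⟩
      unfold Sy
      rw [hm', v0, pow_zero]
      exact h6
    · refine ⟨1, ?_⟩
      unfold Sy
      rw [hm', v1, pow_one]
      exact h6
  · refine ⟨2, ?_⟩
    unfold Sy
    rw [hm', v2]
    exact h5

lemma Sy.mul (hI : I ^ 2 + I + 1 = 0) {u : HeightOneSpectrum (𝓞 K)} {x y : 𝓞 K} {c d : ZMod 3}
    (h : Sy I u x c) (h' : Sy I u y d) : Sy I u (x * y) (c + d) := by
  unfold Sy at *
  have h3 := I3 hI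
  have e : I ^ (c + d).val = I ^ c.val * I ^ d.val := by
    rw [← pow_add, ZMod.val_add]
    conv_rhs => rw [← Nat.div_add_mod (c.val + d.val) 3, pow_add, pow_mul, h3, one_pow, one_mul]
  rw [mul_pow, e]
  have : x ^ ((nK u - 1) / 3) * y ^ ((nK u - 1) / 3) - I ^ c.val * I ^ d.val =
      (x ^ ((nK u - 1) / 3) - I ^ c.val) * y ^ ((nK u - 1) / 3) +
        I ^ c.val * (y ^ ((nK u - 1) / 3) - I ^ d.val) := by ring
  rw [this]
  exact add_mem (Ideal.mul_mem_right _ _ h) (Ideal.mul_mem_left _ _ h')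

/-- the Frobenius automorphism -/
lemma frob (h : Cb I μ θ) {u : HeightOneSpectrum (𝓞 K)} (h3 : (3 : 𝓞 K) ∉ u.asIdeal)
    (hμ : μ ∉ u.asIdeal) {c : ZMod 3} (hc : Sy I u μ c) (v : HeightOneSpectrum (𝓞 F))
    (hv : und v = u) (x : 𝓞 F) : ((sg h) ^ c.val) • x - x ^ Nat.card (𝓞 K ⧸ u.asIdeal) ∈
      v.asIdeal := by
  have hg := gal' h
  have hp := v.isPrime
  have hfin : Finite (𝓞 F ⧸ v.asIdeal) := Ideal.finiteQuotientOfFreeOfNeBot _ v.ne_bot
  obtain ⟨φ, hφ⟩ := IsArithFrobAt.exists_of_isInvariant (𝓞 K) (F ≃ₐ[K] F) v.asIdeal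
  have hund : v.asIdeal.under (𝓞 K) = u.asIdeal := congrArg HeightOneSpectrum.asIdeal hv
  have hφ' : ∀ y : 𝓞 F, φ • y - y ^ Nat.card (𝓞 K ⧸ u.asIdeal) ∈ v.asIdeal := by
    intro y
    have := hφ y
    rw [hund] at this
    exact this
  obtain ⟨d, hd⟩ := sg_all h φ
  obtain ⟨⟨m, hm⟩, h1⟩ := three_dvd_card h.root h3
  have hq : Nat.card (𝓞 K ⧸ u.asIdeal) = 3 * m + 1 := by
    rw [card_nm]
    omega
  have hm' : (nK u - 1) / 3 = m := by omega
  have hmem : ∀ y : 𝓞 K, algebraMap (𝓞 K) (𝓞 F) y ∈ v.asIdeal ↔ y ∈ u.asIdeal := by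
    intro y
    rw [← hv, mem_und]
  have hcc : d = c := by
    have h1 := hφ' θ
    rw [hd, sg_smul, hq, pow_succ, pow_mul, h.cube, ← sub_mul] at h1
    rcases hp.mem_or_mem h1 with h2 | h2
    · refine Sy.unique h.root h3 (x := μ) ?_ hc
      unfold Sy
      rw [hm', ← hmem, map_sub, map_pow, map_pow, ← neg_mem_iff, neg_sub]
      exact h2
    · exfalso
      apply hμ
      rw [← hmem, ← h.cube]
      exact Ideal.pow_mem_of_mem _ h2 3 (by norm_num)
  rw [← hcc, ← hd]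
  exact hφ' x

/-- the splitting of the primes that are not ramified -/
theorem split (h : Cb I μ θ) {u : HeightOneSpectrum (𝓞 K)} (h3 : (3 : 𝓞 K) ∉ u.asIdeal)
    (hμ : μ ∉ u.asIdeal) {c : ZMod 3} (hc : Sy I u μ c) :
    (∀ v : HeightOneSpectrum (𝓞 F), und v = u → nK v = nK u ^ orderOf ((sg h) ^ c.val)) ∧
    Fintype.card {v : HeightOneSpectrum (𝓞 F) // und v = u} * orderOf ((sg h) ^ c.val) = 3 := by
  have hg := gal' h
  have hinv : Algebra.IsInvariant (𝓞 K) (𝓞 F) (F ≃ₐ[K] F) := inferInstance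
  have hpmax : u.asIdeal.IsMaximal := u.isPrime.isMaximal u.ne_bot
  have hfp : Finite (𝓞 K ⧸ u.asIdeal) := Ideal.finiteQuotientOfFreeOfNeBot u.asIdeal u.ne_bot
  have key : ∀ v : HeightOneSpectrum (𝓞 F), und v = u →
      nK v = nK u ^ orderOf ((sg h) ^ c.val) ∧
      (u.asIdeal.primesOver (𝓞 F)).ncard * orderOf ((sg h) ^ c.val) = 3 := by
    intro v hv
    have hvmax : v.asIdeal.IsMaximal := v.isPrime.isMaximal v.ne_bot
    have hfv : Finite (𝓞 F ⧸ v.asIdeal) := Ideal.finiteQuotientOfFreeOfNeBot v.asIdeal v.ne_bot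
    have hover : v.asIdeal.LiesOver u.asIdeal := ⟨by rw [← hv]; rfl⟩
    have h5 := Pool.Agent.W164.RC.split_abs (F ≃ₐ[K] F) u.asIdeal v.asIdeal
      (unr h v (by
        rw [← map_ofNat (algebraMap (𝓞 K) (𝓞 F)) 3, ← mem_und, hv]
        exact h3) (by
        rw [← mem_und, hv]
        exact hμ)) ((sg h) ^ c.val) (frob h h3 hμ hc v hv)
    rw [card_gal h] at h5
    refine ⟨?_, h5.2⟩
    rw [← card_nm, ← card_nm]
    exact h5.1
  refine ⟨fun v hv => (key v hv).1, ?_⟩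
  obtain ⟨v0, hlo0⟩ := exists_above (F := K) (K := F) u
  have hv0 : und v0 = u := HeightOneSpectrum.ext hlo0.over.symm
  have h6 := (key v0 hv0).2
  have h7 : Fintype.card {v : HeightOneSpectrum (𝓞 F) // und v = u} =
      (u.asIdeal.primesOver (𝓞 F)).ncard := by
    rw [← Nat.card_eq_fintype_card, ← Nat.card_coe_set_eq]
    refine Nat.card_congr
      { toFun := fun v => ⟨v.1.asIdeal, v.1.isPrime,
          ⟨(congrArg HeightOneSpectrum.asIdeal v.2).symm⟩⟩
        invFun := fun Q => ⟨⟨Q.1, Q.2.1, ?_⟩, ?_⟩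
        left_inv := fun v => rfl
        right_inv := fun Q => rfl }
    · have := Q.2.2
      exact Ideal.ne_bot_of_liesOver_of_ne_bot u.ne_bot Q.1
    · apply HeightOneSpectrum.ext
      exact Q.2.2.over.symm
  rw [h7]
  exact h6

/-- the symbol is trivial: three places of degree one -/
theorem split0 (h : Cb I μ θ) {u : HeightOneSpectrum (𝓞 K)} (h3 : (3 : 𝓞 K) ∉ u.asIdeal)
    (hμ : μ ∉ u.asIdeal) (hc : Sy I u μ 0) :
    (∀ v : HeightOneSpectrum (𝓞 F), und v = u → nK v = nK u ^ 1) ∧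
    Fintype.card {v : HeightOneSpectrum (𝓞 F) // und v = u} = 3 := by
  have h1 := split h h3 hμ hc
  have h2 : orderOf ((sg h) ^ (0 : ZMod 3).val) = 1 := by
    have : (0 : ZMod 3).val = 0 := rfl
    rw [this, pow_zero, orderOf_one]
  rw [h2, mul_one] at h1
  exact h1

/-- the symbol is not trivial: one place of degree three -/
theorem split1 (h : Cb I μ θ) {u : HeightOneSpectrum (𝓞 K)} (h3 : (3 : 𝓞 K) ∉ u.asIdeal)
    (hμ : μ ∉ u.asIdeal) {c : ZMod 3} (hc0 : c ≠ 0) (hc : Sy I u μ c) :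
    (∀ v : HeightOneSpectrum (𝓞 F), und v = u → nK v = nK u ^ 3) ∧
    Fintype.card {v : HeightOneSpectrum (𝓞 F) // und v = u} = 1 := by
  have h1 := split h h3 hμ hc
  have h2 : orderOf ((sg h) ^ c.val) = 3 := by
    apply orderOf_eq_prime
    · rw [← pow_mul, mul_comm, pow_mul, sg_three, one_pow]
    · intro h4
      have h5 := orderOf_dvd_of_pow_eq_one h4
      rw [orderOf_eq_prime (sg_three h) (sg_ne h)] at h5
      have h6 : c.val < 3 := ZMod.val_lt c
      have h7 : c.val ≠ 0 := by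
        intro h8
        exact hc0 ((ZMod.val_eq_zero c).1 h8)
      have := Nat.le_of_dvd (by omega) h5
      omega
  rw [h2] at h1
  refine ⟨h1.1, ?_⟩
  have := h1.2
  omega

end basic

end Pool.Agent.H91.Tw
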