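import Pool.Agent.H91.Tw6

/-!
# Towers, part 10: extensions generated by cube roots of elements prime to `v` are not ramified at `v`
-/

set_option autoImplicit false
set_option linter.unusedSectionVars false
set_option linter.unusedVariables false
set_option linter.deprecated false

open scoped Classical IntermediateField

namespace Pool.Agent.H91.Tw

open NumberField IsDedekindDomain Polynomial
open Pool.Agent.Y696 (und mem_und und_lies nK card_nm fibN_fintype exists_above)

section

variable {K F : Type} [Field K] [NumberField K] [Field F] [NumberField F] [Algebra K F]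

lemma eR_le (v : HeightOneSpectrum (𝓞 F)) : eR (K := K) v ≤ Module.finrank K F := by
  have hlo : v.asIdeal.LiesOver (und (F := K) v).asIdeal := ⟨rfl⟩
  have hP := (und (F := K) v).isMaximal
  have hv := v.isPrime
  have hz : NoZeroSMulDivisors (𝓞 K) (𝓞 F) := by
    refine ⟨fun {c x} h => ?_⟩
    rw [Algebra.smul_def, mul_eq_zero] at h
    rcases h with h | h
    · left
      exact FaithfulSMul.algebraMap_injective (𝓞 K) (𝓞 F) (by rw [h, map_zero])
    · exact Or.inr h
  exact Ideal.ramificationIdx_le_finrank (𝓞 F) K F v.asIdeal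

lemma eR_deg_one (h : Module.finrank K F = 1) (v : HeightOneSpectrum (𝓞 F)) :
    eR (K := K) v = 1 := by
  have h1 := eR_le (K := K) v
  have h2 := eR_pos (K := K) v
  omega

end

/-- `K(∛a_0, …, ∛a_{n-1})` is not ramified at the primes that do not contain `3` and the `a_i` -/
theorem unram (n : ℕ) : ∀ (K F : Type) [Field K] [NumberField K] [Field F] [NumberField F]
    [Algebra K F] (I : 𝓞 K) (hI : I ^ 2 + I + 1 = 0) (a : Fin n → 𝓞 K) (r : Fin n → 𝓞 F)
    (hr : ∀ i, r i ^ 3 = algebraMap (𝓞 K) (𝓞 F) (a i))
    (htop : IntermediateField.adjoin K (Set.range fun i => (r i : F)) = ⊤)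
    (w : HeightOneSpectrum (𝓞 F)) (h3 : (3 : 𝓞 K) ∉ (und (F := K) w).asIdeal)
    (ha : ∀ i, a i ∉ (und (F := K) w).asIdeal) (x : 𝓞 K),
    w.intValuation (algebraMap (𝓞 K) (𝓞 F) x) = (und (F := K) w).intValuation x := by
  induction n with
  | zero =>
    intro K F _ _ _ _ _ I hI a r hr htop w h3 ha x
    have h1 : Set.range (fun i : Fin 0 => (r i : F)) = ∅ := Set.range_eq_empty _
    rw [h1, IntermediateField.adjoin_empty] at htop
    have h2 : Module.finrank K F = 1 := by
      rw [← IntermediateField.finrank_top', ← htop, IntermediateField.finrank_bot]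
    rw [val_up (K := K), eR_deg_one h2, pow_one]
  | succ n ih =>
    intro K F _ _ _ _ _ I hI a r hr htop w h3 ha x
    set y : F := (r 0 : F) with hy
    set L : IntermediateField K F := K⟮y⟯ with hL
    have hNF : NumberField ↥L := NumberField.of_intermediateField L
    have hy3 : y ^ 3 = algebraMap K F (a 0 : K) := by
      have := congrArg (algebraMap (𝓞 F) F) (hr 0)
      rw [map_pow] at this
      exact this
    have hyL : y ∈ L := IntermediateField.mem_adjoin_simple_self K y
    have hyint : IsIntegral ℤ (⟨y, hyL⟩ : ↥L) := by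
      have h1 : IsIntegral ℤ y := (r 0).isIntegral_coe
      exact (isIntegral_algebraMap_iff (algebraMap ↥L F).injective).1 h1
    set θ0 : 𝓞 ↥L := ⟨⟨y, hyL⟩, hyint⟩ with hθ0
    have hθ03 : θ0 ^ 3 = algebraMap (𝓞 K) (𝓞 ↥L) (a 0) := by
      apply RingOfIntegers.ext
      apply (algebraMap ↥L F).injective
      have e1 : ((θ0 ^ 3 : 𝓞 ↥L) : ↥L) = (⟨y, hyL⟩ : ↥L) ^ 3 := by
        exact map_pow (algebraMap (𝓞 ↥L) ↥L) θ0 3
      rw [e1, map_pow]
      exact hy3
    have hscal : ∀ z : 𝓞 K, algebraMap (𝓞 ↥L) (𝓞 F) (algebraMap (𝓞 K) (𝓞 ↥L) z) =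
        algebraMap (𝓞 K) (𝓞 F) z := by
      intro z
      apply RingOfIntegers.ext
      rfl
    set w' : HeightOneSpectrum (𝓞 ↥L) := und (F := ↥L) w with hw'
    have hund : und (F := K) w' = und (F := K) w := by
      apply HeightOneSpectrum.ext
      ext z
      show z ∈ (und (F := K) w').asIdeal ↔ z ∈ (und (F := K) w).asIdeal
      rw [mem_und, hw', mem_und, mem_und, hscal]
    have ha0 : a 0 ≠ 0 := by
      intro h0
      apply ha 0
      rw [h0]
      exact zero_mem _
    -- the first layer
    have he : eR (K := K) w' = 1 := by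
      by_cases hc : ∃ z : 𝓞 K, z ^ 3 = a 0
      · obtain ⟨z, hz⟩ := hc
        apply eR_deg_one
        have hz0 : (algebraMap K F (z : K)) ≠ 0 := by
          intro h0
          apply ha0
          rw [← hz]
          have h1 : (z : K) = 0 := (map_eq_zero_iff _ (algebraMap K F).injective).1 h0
          have h2 : z = 0 := RingOfIntegers.ext h1
          rw [h2]
          ring
        set J : F := algebraMap K F (I : K) with hJ
        have hJ2 : J ^ 2 + J + 1 = 0 := by
          have h1 : (I : K) ^ 2 + (I : K) + 1 = 0 := by
            have := congrArg (algebraMap (𝓞 K) K) hI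
            rw [map_add, map_add, map_pow, map_one, map_zero] at this
            exact this
          have h2 := congrArg (algebraMap K F) h1
          rw [map_add, map_add, map_pow, map_one, map_zero] at h2
          exact h2
        have hzy : y ^ 3 = (algebraMap K F (z : K)) ^ 3 := by
          rw [hy3, ← hz, ← map_pow]
          congr 1
        have hprod : (y - algebraMap K F (z : K)) * (y - J * algebraMap K F (z : K)) *
            (y - J ^ 2 * algebraMap K F (z : K)) = 0 := by
          have hJ3 : J ^ 3 = 1 := by linear_combination (J - 1) * hJ2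
          linear_combination hzy + (-(y ^ 2 * algebraMap K F (z : K)) +
            y * (algebraMap K F (z : K)) ^ 2 * J) * hJ2 - (algebraMap K F (z : K)) ^ 3 * hJ3
        have hmem : y ∈ (⊥ : IntermediateField K F) := by
          rcases mul_eq_zero.1 hprod with h5 | h5
          · rcases mul_eq_zero.1 h5 with h6 | h6
            · rw [sub_eq_zero.1 h6]
              exact IntermediateField.algebraMap_mem _ _
            · rw [sub_eq_zero.1 h6, hJ]
              exact mul_mem (IntermediateField.algebraMap_mem _ _)
                (IntermediateField.algebraMap_mem _ _)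
          · rw [sub_eq_zero.1 h5, hJ]
            exact mul_mem (pow_mem (IntermediateField.algebraMap_mem _ _) _)
              (IntermediateField.algebraMap_mem _ _)
        rw [hL, IntermediateField.adjoin_simple_eq_bot_iff.2 hmem, IntermediateField.finrank_bot]
      · have hnc : ∀ z : 𝓞 K, z ^ 3 ≠ a 0 := fun z hz => hc ⟨z, hz⟩
        have hirr : Irreducible (X ^ 3 - C ((a 0 : 𝓞 K) : K)) :=
          X_pow_sub_C_irreducible_of_prime Nat.prime_three (ncubeK hnc)
        have hmin : X ^ 3 - C ((a 0 : 𝓞 K) : K) = minpoly K y := by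
          refine minpoly.eq_of_irreducible_of_monic hirr ?_ (monic_X_pow_sub_C _ (by norm_num))
          simp [hy3]
        have hint : _root_.IsIntegral K y := Algebra.IsIntegral.isIntegral y
        have hd1 : Module.finrank K ↥L = 3 := by
          rw [hL, IntermediateField.adjoin.finrank hint, ← hmin]
          exact natDegree_X_pow_sub_C
        have hCb : Cb I (a 0) θ0 := ⟨hd1, hθ03, hI, ha0, hnc⟩
        refine eR_one hCb w' ?_ ?_
        · rw [hund]; exact h3
        · rw [hund]; exact ha 0
    have h1 : w'.intValuation (algebraMap (𝓞 K) (𝓞 ↥L) x) = (und (F := K) w).intValuation x := by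
      rw [val_up (K := K), he, pow_one, hund]
    rw [← h1, ← hscal]
    -- the other layers
    refine ih ↥L F (algebraMap (𝓞 K) (𝓞 ↥L) I) ?_ (fun i => algebraMap (𝓞 K) (𝓞 ↥L) (a i.succ))
      (fun i => r i.succ) (fun i => by rw [hr, hscal]) ?_ w ?_ ?_ _
    · rw [← map_pow, ← map_one (algebraMap (𝓞 K) (𝓞 ↥L)), ← map_add, ← map_add, hI, map_zero]
    · apply IntermediateField.restrictScalars_injective K
      rw [IntermediateField.restrictScalars_top, eq_top_iff, ← htop,
        IntermediateField.adjoin_le_iff]
      rintro _ ⟨i, rfl⟩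
      show (r i : F) ∈ IntermediateField.restrictScalars K
        (IntermediateField.adjoin ↥L (Set.range fun i : Fin n => (r i.succ : F)))
      rw [IntermediateField.mem_restrictScalars]
      refine Fin.cases ?_ (fun i => ?_) i
      · exact IntermediateField.algebraMap_mem
          (IntermediateField.adjoin ↥L (Set.range fun i : Fin n => (r i.succ : F)))
          (⟨y, hyL⟩ : ↥L)
      · exact IntermediateField.subset_adjoin _ _ ⟨i, rfl⟩
    · have h2 : algebraMap (𝓞 K) (𝓞 ↥L) 3 = 3 := map_ofNat _ 3
      rw [← h2, ← hw', ← mem_und, hund]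
      exact h3
    · intro i
      rw [← hw', ← mem_und, hund]
      exact ha _

end Pool.Agent.H91.Tw
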