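import Pool.Agent.H91.Tw10
import Pool.Graph.R_seed8.W401.Cheb.Main
import Pool.Graph.R_seed8.W352.ChAbs.Main

/-!
# Towers, part 11: Chebotarev's theorem for cube roots
-/

set_option autoImplicit false
set_option linter.unusedSectionVars false
set_option linter.unusedVariables false
set_option linter.deprecated false

open scoped Classical IntermediateField

namespace Pool.Agent.H91.Tw

open NumberField IsDedekindDomain Polynomial Filter Topology
open Pool.Agent.Y696 (und mem_und und_lies nK card_nm fibN_fintype exists_above)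
open Pool.Agent.W401.Cheb (GK IsFrob dens ChebK)

/-- Chebotarev's theorem -/
theorem chebK : ChebK :=
  Pool.Agent.W352.ChAbs.main Pool.Agent.W401.Cheb.chebotarev W54.ChTor.main

section

variable {K : Type} [Field K] [NumberField K]

/-- an element of the Galois group that moves exactly the last root -/
theorem gal_ex (I : 𝓞 K) (hI : I ^ 2 + I + 1 = 0) {n : ℕ} (a : Fin n → 𝓞 K)
    (v : HeightOneSpectrum (𝓞 K)) (h3 : (3 : 𝓞 K) ∉ v.asIdeal) (ha : ∀ i, a i ∉ v.asIdeal)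
    (π : 𝓞 K) (hπ0 : π ≠ 0) (hπ : ∀ k : ℤ, v.intValuation π ≠ WithZero.exp (3 * k))
    (r : Fin n → 𝓞 (AlgebraicClosure K))
    (hr : ∀ i, r i ^ 3 = algebraMap (𝓞 K) (𝓞 (AlgebraicClosure K)) (a i))
    (ρ : 𝓞 (AlgebraicClosure K)) (hρ : ρ ^ 3 = algebraMap (𝓞 K) (𝓞 (AlgebraicClosure K)) π) :
    ∃ σ : GK K, (∀ i, σ • r i = r i) ∧ σ • ρ ≠ ρ := by
  set N : IntermediateField K (AlgebraicClosure K) :=
    IntermediateField.adjoin K (Set.range fun i => (r i : AlgebraicClosure K)) with hN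
  have hfd : FiniteDimensional K ↥N :=
    IntermediateField.finiteDimensional_adjoin fun x _ => Algebra.IsIntegral.isIntegral x
  have hNF : NumberField ↥N := NumberField.of_module_finite K ↥N
  have hmem : ∀ i, (r i : AlgebraicClosure K) ∈ N := fun i =>
    IntermediateField.subset_adjoin _ _ ⟨i, rfl⟩
  have hlift : ∀ x : 𝓞 (AlgebraicClosure K), (x : AlgebraicClosure K) ∈ N →
      ∃ y : 𝓞 ↥N, algebraMap ↥N (AlgebraicClosure K) (y : ↥N) = x := by
    intro x hx
    have h1 : IsIntegral ℤ (⟨(x : AlgebraicClosure K), hx⟩ : ↥N) := by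
      have h1 : IsIntegral ℤ (x : AlgebraicClosure K) := x.isIntegral_coe
      exact (isIntegral_algebraMap_iff (algebraMap ↥N (AlgebraicClosure K)).injective).1 h1
    exact ⟨⟨⟨(x : AlgebraicClosure K), hx⟩, h1⟩, rfl⟩
  have hcube : ∀ (x : 𝓞 (AlgebraicClosure K)) (b : 𝓞 K) (y : 𝓞 ↥N),
      x ^ 3 = algebraMap (𝓞 K) (𝓞 (AlgebraicClosure K)) b →
      algebraMap ↥N (AlgebraicClosure K) (y : ↥N) = x → y ^ 3 = algebraMap (𝓞 K) (𝓞 ↥N) b := by
    intro x b y hx hy
    apply RingOfIntegers.ext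
    apply (algebraMap ↥N (AlgebraicClosure K)).injective
    have e1 : ((y ^ 3 : 𝓞 ↥N) : ↥N) = (y : ↥N) ^ 3 := map_pow (algebraMap (𝓞 ↥N) ↥N) y 3
    rw [e1, map_pow, hy]
    have h2 := congrArg (algebraMap (𝓞 (AlgebraicClosure K)) (AlgebraicClosure K)) hx
    rw [map_pow] at h2
    exact h2
  choose r' hr' using fun i => hlift (r i) (hmem i)
  have htop : IntermediateField.adjoin K (Set.range fun i => ((r' i : 𝓞 ↥N) : ↥N)) = ⊤ := by
    apply IntermediateField.map_injective N.val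
    rw [IntermediateField.adjoin_map, ← AlgHom.fieldRange_eq_map, IntermediateField.fieldRange_val]
    have hset : (N.val '' Set.range fun i => ((r' i : 𝓞 ↥N) : ↥N)) =
        Set.range fun i => (r i : AlgebraicClosure K) := by
      ext x
      constructor
      · rintro ⟨_, ⟨i, rfl⟩, rfl⟩
        exact ⟨i, (hr' i).symm⟩
      · rintro ⟨i, rfl⟩
        exact ⟨_, ⟨i, rfl⟩, hr' i⟩
    rw [hset]
  obtain ⟨w, hw⟩ := exists_above (F := K) (K := ↥N) v
  have hw' : und w = v := HeightOneSpectrum.ext hw.over.symm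
  have hρN : (ρ : AlgebraicClosure K) ∉ N := by
    intro hm
    obtain ⟨ρ', hρ'⟩ := hlift ρ hm
    have h1 : ρ' ^ 3 = algebraMap (𝓞 K) (𝓞 ↥N) π := hcube ρ π ρ' hρ hρ'
    have h2 := unram n K ↥N I hI a r' (fun i => hcube _ _ _ (hr i) (hr' i)) htop w
      (by rw [hw']; exact h3) (by rw [hw']; exact ha) π
    rw [hw', ← h1, map_pow] at h2
    have h4 : w.intValuation ρ' ≠ 0 := by
      intro h0
      rw [h0, zero_pow (by norm_num)] at h2
      exact v.intValuation_ne_zero π hπ0 h2.symm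
    apply hπ (WithZero.log (w.intValuation ρ'))
    rw [← h2]
    conv_lhs => rw [← WithZero.exp_log h4]
    rw [← WithZero.exp_nsmul]
    simp
  have hfix := InfiniteGalois.fixedField_fixingSubgroup N
  rw [← hfix, IntermediateField.mem_fixedField_iff] at hρN
  push Not at hρN
  obtain ⟨σ, hσ, hσρ⟩ := hρN
  refine ⟨σ, fun i => ?_, fun h => hσρ ?_⟩
  · apply RingOfIntegers.ext
    exact (IntermediateField.mem_fixingSubgroup_iff _ _).1 hσ _ (hmem i)
  · exact congrArg (algebraMap (𝓞 (AlgebraicClosure K)) (AlgebraicClosure K)) h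

/-- the action on a cube root -/
lemma act_root (I : 𝓞 K) (hI : I ^ 2 + I + 1 = 0) {x : 𝓞 (AlgebraicClosure K)} {b : 𝓞 K}
    (hx : x ^ 3 = algebraMap (𝓞 K) (𝓞 (AlgebraicClosure K)) b) (τ : GK K) :
    ∃ t : ℕ, τ • x = (algebraMap (𝓞 K) (𝓞 (AlgebraicClosure K)) I) ^ t * x := by
  set J := algebraMap (𝓞 K) (𝓞 (AlgebraicClosure K)) I with hJ
  have hJ2 : J ^ 2 + J + 1 = 0 := by
    rw [hJ, ← map_pow, ← map_one (algebraMap (𝓞 K) (𝓞 (AlgebraicClosure K))), ← map_add,
      ← map_add, hI, map_zero]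
  have hJ3 : J ^ 3 = 1 := by linear_combination (J - 1) * hJ2
  have h1 : (τ • x) ^ 3 = x ^ 3 := by
    rw [← smul_pow', hx]
    apply RingOfIntegers.ext
    show τ (algebraMap K (AlgebraicClosure K) (b : K)) = _
    rw [AlgEquiv.commutes]
    rfl
  have hprod : (τ • x - x) * (τ • x - J * x) * (τ • x - J ^ 2 * x) = 0 := by
    linear_combination h1 + (-((τ • x) ^ 2 * x) + (τ • x) * x ^ 2 * J) * hJ2 - x ^ 3 * hJ3
  rcases mul_eq_zero.1 hprod with h5 | h5
  · rcases mul_eq_zero.1 h5 with h6 | h6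
    · exact ⟨0, by rw [pow_zero, one_mul]; exact sub_eq_zero.1 h6⟩
    · exact ⟨1, by rw [pow_one]; exact sub_eq_zero.1 h6⟩
  · exact ⟨2, sub_eq_zero.1 h5⟩

lemma smul_alg (τ : GK K) (b : 𝓞 K) : τ • (algebraMap (𝓞 K) (𝓞 (AlgebraicClosure K)) b) =
    algebraMap (𝓞 K) (𝓞 (AlgebraicClosure K)) b := by
  apply RingOfIntegers.ext
  show τ (algebraMap K (AlgebraicClosure K) (b : K)) = _
  rw [AlgEquiv.commutes]
  rfl

/-- **Chebotarev's theorem for cube roots** -/
theorem cheb_ex (I : 𝓞 K) (hI : I ^ 2 + I + 1 = 0) {n : ℕ} (a : Fin n → 𝓞 K)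
    (π : 𝓞 K) (r : Fin n → 𝓞 (AlgebraicClosure K))
    (hr : ∀ i, r i ^ 3 = algebraMap (𝓞 K) (𝓞 (AlgebraicClosure K)) (a i))
    (ρ : 𝓞 (AlgebraicClosure K)) (hρ : ρ ^ 3 = algebraMap (𝓞 K) (𝓞 (AlgebraicClosure K)) π)
    (σ : GK K) (hσr : ∀ i, σ • r i = r i) :
    ∃ c₀ : ℝ, 0 < c₀ ∧ Tendsto (dens fun v : HeightOneSpectrum (𝓞 K) =>
      ∃ τ : GK K, ((∀ i, τ • r i = r i) ∧ τ • ρ = σ • ρ) ∧ IsFrob v τ) atTop (𝓝 c₀) := by
  let C : Set (GK K) := {τ | (∀ i, τ • r i = r i) ∧ τ • ρ = σ • ρ}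
  let U : Subgroup (GK K) :=
    { carrier := {τ | (∀ i, τ • r i = r i) ∧ τ • ρ = ρ}
      one_mem' := ⟨fun i => one_smul _ _, one_smul _ _⟩
      mul_mem' := fun {x y} hx hy => ⟨fun i => by rw [mul_smul, hy.1 i, hx.1 i],
        by rw [mul_smul, hy.2, hx.2]⟩
      inv_mem' := fun {x} hx => ⟨fun i => by rw [inv_smul_eq_iff, hx.1 i],
        by rw [inv_smul_eq_iff, hx.2]⟩ }
  have hconj : ∀ (x : 𝓞 (AlgebraicClosure K)) (b : 𝓞 K),
      x ^ 3 = algebraMap (𝓞 K) (𝓞 (AlgebraicClosure K)) b → ∀ u τ : GK K,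
      (τ * u * τ⁻¹) • x = u • x := by
    intro x b hx u τ
    obtain ⟨t, ht⟩ := act_root I hI hx τ⁻¹
    obtain ⟨s, hs⟩ := act_root I hI hx u
    have h1 : τ • (τ⁻¹ • x) = x := smul_inv_smul τ x
    rw [mul_smul, mul_smul, ht, smul_mul', smul_pow', smul_alg, hs, smul_mul', smul_mul', smul_pow',
      smul_pow', smul_alg]
    rw [ht, smul_mul', smul_pow', smul_alg] at h1
    calc _ = (algebraMap (𝓞 K) (𝓞 (AlgebraicClosure K)) I) ^ s *
        ((algebraMap (𝓞 K) (𝓞 (AlgebraicClosure K)) I) ^ t * τ • x) := by ring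
      _ = _ := by rw [h1]
  have hUn : U.Normal := by
    refine ⟨fun u hu τ => ⟨fun i => ?_, ?_⟩⟩
    · rw [hconj _ _ (hr i)]
      exact hu.1 i
    · rw [hconj _ _ hρ]
      exact hu.2
  have hUo : IsOpen (U : Set (GK K)) := by
    set N : IntermediateField K (AlgebraicClosure K) := IntermediateField.adjoin K
      (insert (ρ : AlgebraicClosure K) (Set.range fun i => (r i : AlgebraicClosure K))) with hN
    have hfin : (insert (ρ : AlgebraicClosure K)
      (Set.range fun i => (r i : AlgebraicClosure K))).Finite := (Set.finite_range _).insert _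
    have := hfin.to_subtype
    have hfd : FiniteDimensional K ↥N :=
      IntermediateField.finiteDimensional_adjoin fun x _ => Algebra.IsIntegral.isIntegral x
    refine Subgroup.isOpen_mono (H₁ := N.fixingSubgroup) ?_
      (IntermediateField.fixingSubgroup_isOpen N)
    intro τ hτ
    have h1 := (IntermediateField.mem_fixingSubgroup_iff _ _).1 hτ
    refine ⟨fun i => RingOfIntegers.ext (h1 _ (IntermediateField.subset_adjoin _ _
      (Set.mem_insert_of_mem _ ⟨i, rfl⟩))), RingOfIntegers.ext (h1 _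
      (IntermediateField.subset_adjoin _ _ (Set.mem_insert _ _)))⟩
  have h1 := chebK K U hUo C (by
    intro u hu τ
    refine ⟨fun i => ?_, ?_⟩
    · rw [hconj _ _ (hr i)]
      exact hu.1 i
    · rw [hconj _ _ hρ]
      exact hu.2) (by
    intro u hu τ hτ
    refine ⟨fun i => ?_, ?_⟩
    · rw [mul_smul, hτ.1 i, hu.1 i]
    · rw [mul_smul, hτ.2, hu.2])
  have hfinq : Finite (GK K ⧸ U) := Subgroup.quotient_finite_of_isOpen U hUo
  refine ⟨_, ?_, h1⟩
  have hne : ((QuotientGroup.mk : GK K → GK K ⧸ U) '' C).Nonempty :=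
    ⟨_, σ, ⟨hσr, rfl⟩, rfl⟩
  have h2 : 0 < ((QuotientGroup.mk : GK K → GK K ⧸ U) '' C).ncard :=
    (Set.ncard_pos (Set.toFinite _)).2 hne
  have h3 : 0 < Nat.card (GK K ⧸ U) := Nat.card_pos
  positivity

/-- the residue symbols at a prime with given Frobenius element -/
theorem frob_sym (I : 𝓞 K) (hI : I ^ 2 + I + 1 = 0) {v : HeightOneSpectrum (𝓞 K)}
    (h3 : (3 : 𝓞 K) ∉ v.asIdeal) {b : 𝓞 K} (hb : b ∉ v.asIdeal) {x : 𝓞 (AlgebraicClosure K)}
    (hx : x ^ 3 = algebraMap (𝓞 K) (𝓞 (AlgebraicClosure K)) b) {τ : GK K} (hτ : IsFrob v τ) :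
    τ • x = x ↔ b ^ ((nK v - 1) / 3) - 1 ∈ v.asIdeal := by
  obtain ⟨Q, hQ, hQv, hF⟩ := hτ
  have hp := hQ.isPrime
  obtain ⟨⟨m, hm⟩, h1⟩ := three_dvd_card hI h3
  have hq : Ideal.absNorm v.asIdeal = 3 * m + 1 := by
    change nK v = _
    omega
  have hm' : (nK v - 1) / 3 = m := by omega
  set A := algebraMap (𝓞 K) (𝓞 (AlgebraicClosure K)) with hA
  have hmem : ∀ y : 𝓞 K, A y ∈ Q ↔ y ∈ v.asIdeal := by
    intro y
    rw [← hQv]
    rfl
  have hxQ : x ∉ Q := by
    intro h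
    apply hb
    rw [← hmem, ← hx]
    exact Ideal.pow_mem_of_mem _ h 3 (by norm_num)
  have h2 := hF x
  rw [hq, pow_succ, pow_mul, hx] at h2
  obtain ⟨t, ht⟩ := act_root I hI hx τ
  have hJ3 : (A I) ^ 3 = 1 := by
    rw [← map_pow, I3 hI, map_one]
  rw [hm']
  constructor
  · intro h
    rw [h] at h2
    have h4 : (1 - A b ^ m) * x ∈ Q := by
      have : (1 - A b ^ m) * x = x - A b ^ m * x := by ring
      rw [this]
      exact h2
    rcases hp.mem_or_mem h4 with h5 | h5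
    · rw [← hmem, map_sub, map_pow, map_one, ← neg_mem_iff, neg_sub]
      exact h5
    · exact absurd h5 hxQ
  · intro h
    rw [← hmem, map_sub, map_pow, map_one] at h
    have h4 : (A I ^ t - 1) * x ∈ Q := by
      have : (A I ^ t - 1) * x = (τ • x - A b ^ m * x) + (A b ^ m - 1) * x := by rw [ht]; ring
      rw [this]
      exact add_mem h2 (Ideal.mul_mem_right _ _ h)
    have h5 : A I ^ t - 1 ∈ Q := (hp.mem_or_mem h4).resolve_right hxQ
    -- the exponent is zero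
    have h6 : (t : ZMod 3) = 0 := by
      by_contra hne
      apply h3
      obtain ⟨e, he⟩ := diff_dvd hI (t : ZMod 3) 0 hne
      rw [he]
      apply Ideal.mul_mem_right
      rw [← hmem, map_sub, map_pow, ZMod.val_zero, pow_zero, map_one, ZMod.val_natCast]
      have e : (A I) ^ t = (A I) ^ (t % 3) := by
        conv_lhs => rw [← Nat.div_add_mod t 3, pow_add, pow_mul, hJ3, one_pow, one_mul]
      rw [← e]
      exact h5
    rw [ZMod.natCast_eq_zero_iff] at h6
    obtain ⟨s, hs⟩ := h6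
    rw [ht, hs, pow_mul, hJ3, one_pow, one_mul]

end

end Pool.Agent.H91.Tw
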