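import Pool.Agent.H91.Tw9
import Pool.Agent.H91.Tw11

/-!
# Towers, part 12: a positive proportion of the primes extends an admissible system
-/

set_option autoImplicit false
set_option linter.unusedVariables false
set_option linter.unusedSectionVars false

open scoped Classical

namespace Pool.Agent.H91.Tw

open NumberField IsDedekindDomain Filter Topology
open Pool.Agent.Y692.QS (Ei w nr ns)
open Pool.Agent.Y715.T.RecG (Pq cs_zero_iff cs_spec cs_of)
open Pool.Agent.Y703.CT
open Pool.Agent.Y715.T.Rs Pool.Agent.Y715.T.Rec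
open Pool.Agent.Y274.CT (pq_ns assoc_ns nr_three)
open Pool.Agent.H91.Sel (dD)
open Pool.Agent.H91.LKz (Pm)
open Pool.Agent.Y350.CTK.Tam (te te_prime te_sq)
open Pool.Agent.Y696 (nK)
open Pool.Agent.Y696.CTK (nm_nr Tri Law3)
open Pool.Agent.H91.Fin2 (Cl2 cm_of)
open Pool.Agent.H91.Fc2 (exi3 three_te_of)
open Pool.Agent.W401.Cheb (GK IsFrob dens)

variable {K : Type} [Field K] [NumberField K] (j : Ei ≃+* 𝓞 K)

lemma ww : (w : Ei) ^ 2 + w + 1 = 0 := by decide

lemma Iw : (j w) ^ 2 + j w + 1 = 0 := by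
  rw [← map_pow, ← map_one j, ← map_add, ← map_add, ww, map_zero]

/-- the primary generator -/
lemma prim_gen (v : HeightOneSpectrum (𝓞 K)) (h3 : (3 : 𝓞 K) ∉ v.asIdeal) :
    ∃ ν : Ei, Pq ν ∧ v.asIdeal = Ideal.span {j ν} := by
  have hpid : IsPrincipalIdealRing (𝓞 K) :=
    IsPrincipalIdealRing.of_surjective (j : Ei →+* 𝓞 K) j.surjective
  obtain ⟨g, hg⟩ := (IsPrincipalIdealRing.principal v.asIdeal).principal
  rw [Ideal.submodule_span_eq] at hg
  have hg0 : g ≠ 0 := by
    rintro rfl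
    apply v.ne_bot
    rw [hg]
    simp
  have hgp : Prime g := (Ideal.span_singleton_prime hg0).1 (hg ▸ v.isPrime)
  have hgp' : Prime (j.symm g) := (MulEquiv.prime_iff (j.symm : 𝓞 K ≃* Ei)).2 hgp
  have hg3 : ¬ j.symm g ∣ 3 := by
    intro h
    apply h3
    rw [hg, Ideal.mem_span_singleton]
    have := map_dvd j h
    rwa [RingEquiv.apply_symm_apply, map_ofNat] at this
  refine ⟨ns (j.symm g), pq_ns hgp' hg3, ?_⟩
  rw [hg, Ideal.span_singleton_eq_span_singleton]
  have h1 := (assoc_ns (nr_three hgp' hg3)).map (j : Ei →* 𝓞 K)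
  have h2 : Associated g (j (ns (j.symm g))) := by simpa using h1
  exact h2

/-- the symbol from the Frobenius element -/
lemma sym_frob {v : HeightOneSpectrum (𝓞 K)} {ν : Ei} (hν : Pq ν) (hv : v.asIdeal = Ideal.span {j ν})
    {b : Ei} (hb : ¬ ν ∣ b) {x : 𝓞 (AlgebraicClosure K)}
    (hx : x ^ 3 = algebraMap (𝓞 K) (𝓞 (AlgebraicClosure K)) (j b)) {τ : GK K} (hτ : IsFrob v τ) :
    τ • x = x ↔ cs ν b = 0 := by
  have hmem : ∀ y : Ei, j y ∈ v.asIdeal ↔ ν ∣ y := by
    intro y
    rw [hv, Ideal.mem_span_singleton, map_dvd_iff j]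
  have h3 : (3 : 𝓞 K) ∉ v.asIdeal := by
    have := (hmem 3).not.2 hν.norm
    rwa [map_ofNat] at this
  rw [frob_sym (j w) (Iw j) h3 ((hmem b).not.2 hb) hx hτ]
  have hnn : (nK v - 1) / 3 = nn ν := by
    unfold nn
    rw [← nm_nr j hv, Int.natAbs_natCast]
  rw [hnn]
  have e : (j b) ^ nn ν - 1 = j (b ^ nn ν - 1) := by rw [map_sub, map_pow, map_one]
  rw [e, hmem]
  constructor
  · intro h
    apply cs_of hν.prime hν.norm
    rw [ZMod.val_zero, pow_zero]
    exact h
  · intro h
    have := cs_spec hν.prime hν.norm hb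
    rw [h, ZMod.val_zero, pow_zero] at this
    exact this

/-- cube roots of the elements of the ring of integers -/
lemma root_ex (b : 𝓞 K) : ∃ x : 𝓞 (AlgebraicClosure K),
    x ^ 3 = algebraMap (𝓞 K) (𝓞 (AlgebraicClosure K)) b := by
  obtain ⟨x, hx⟩ := IsAlgClosed.exists_pow_nat_eq
    (algebraMap K (AlgebraicClosure K) (b : K)) (n := 3) (by norm_num)
  have hi : IsIntegral ℤ x := by
    apply IsIntegral.of_pow (n := 3) (by norm_num)
    rw [hx]
    exact (b.isIntegral_coe).map (algebraMap K (AlgebraicClosure K) : K →+* AlgebraicClosure K).toIntAlgHom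
  refine ⟨⟨x, hi⟩, ?_⟩
  apply RingOfIntegers.ext
  have e : ((⟨x, hi⟩ : 𝓞 (AlgebraicClosure K)) ^ 3 : 𝓞 (AlgebraicClosure K)).1 = x ^ 3 := rfl
  show _ = algebraMap K (AlgebraicClosure K) (b : K)
  rw [← hx]
  rfl

/-- a prime with the right symbols extends the system -/
lemma adm_snoc {D : 𝓞 K} {k : ℕ} {μ : Fin k → 𝓞 K} (ha : Adm D μ) {J : Type} [Fintype J]
    {π : J → Ei} {e : J → ZMod 3} {c : ZMod 3} (h : Dt π e) (hpm : Pm (dD c π e) (j.symm D))
    {ν : Ei} (hν : Pq ν) (hνw : cs ν w = 0) (hνD : ¬ ν ∣ j.symm D)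
    (hνμ : ∀ i, ¬ ν ∣ j.symm (μ i)) (h1 : ∀ i, cs ν (j.symm (μ i)) = 0) {i0 : J}
    (h2 : cs ν (π i0) ≠ 0) (h3 : ∀ i, i ≠ i0 → cs ν (π i) = 0) :
    Adm D (Fin.snoc (α := fun _ => 𝓞 K) μ (j ν)) := by
  have hpq : ∀ i, Pq (j.symm (μ i)) := fun i =>
    Pool.Agent.Y696.CTK.pq_symm j (ha.prime i) (mu_three j ha i)
  have hπD : ∀ i, π i ∣ j.symm D := by
    intro i
    rw [hpm.dvd]
    unfold dD pD
    refine Dvd.dvd.mul_left ?_ _
    refine dvd_trans ?_ (Finset.dvd_prod_of_mem (fun i => π i ^ (e i).val) (Finset.mem_univ i))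
    refine dvd_pow_self _ ?_
    intro h0
    exact h.e0 i ((ZMod.val_eq_zero _).1 h0)
  have hνπ : ∀ i, ¬ ν ∣ π i := fun i hd => hνD (hd.trans (hπD i))
  have hπν : ∀ i, ¬ π i ∣ ν := fun i hd =>
    hνπ i (by rw [Pool.Agent.Y274.CT.eq_of_dvd hν (h.pq i) hd])
  have hμν : ∀ i, ¬ j.symm (μ i) ∣ ν := fun i hd =>
    hνμ i (by rw [Pool.Agent.Y274.CT.eq_of_dvd hν (hpq i) hd])
  -- the norm
  have h9 : (9 : ℤ) ∣ nr ν - 1 := by
    have h4 := Pool.Agent.H91.Sel.cs_w hν.prime hν.norm
    rw [hνw, Pool.Agent.H91.Cr2.ex_rq hν.three] at h4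
    rw [nine_iff hν.three]
    exact neg_eq_zero.1 h4.symm
  have hte : 3 * te ∣ ν - 1 := three_te_of hν.three h9
  have hpν : Prime (j ν) := (MulEquiv.prime_iff (j : Ei ≃* 𝓞 K)).2 hν.prime
  refine ⟨?_, ?_, ?_, ?_, ?_⟩
  · intro i
    refine Fin.lastCases ?_ (fun i => ?_) i
    · rw [Fin.snoc_last]
      exact hpν
    · rw [Fin.snoc_castSucc]
      exact ha.prime i
  · intro i t ht
    refine Fin.lastCases ?_ (fun i => ?_) i
    · rw [Fin.snoc_last]
      have h4 : (t - j te) * (t + j te) = 0 := by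
        have h5 := te_j j
        linear_combination ht - h5
      have h5 : 3 * j te ∣ j ν - 1 := by
        have := map_dvd j hte
        rwa [map_mul, map_sub, map_one, map_ofNat] at this
      rcases mul_eq_zero.1 h4 with h6 | h6
      · rw [sub_eq_zero.1 h6]
        exact h5
      · have h7 : t = -j te := by linear_combination h6
        rw [h7, mul_neg, neg_dvd]
        exact h5
    · rw [Fin.snoc_castSucc]
      exact ha.one i t ht
  · intro i
    refine Fin.lastCases ?_ (fun i => ?_) i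
    · rw [Fin.snoc_last]
      intro hd
      apply hνD
      rw [← RingEquiv.symm_apply_apply j ν, dvd_symm]
      exact hd
    · rw [Fin.snoc_castSucc]
      exact ha.ndvd i
  · have key : ∀ i : Fin k, (¬ j ν ∣ μ i ∧ ∃ x, j ν ∣ x ^ 3 - μ i) ∧
        (¬ μ i ∣ j ν ∧ ∃ x, μ i ∣ x ^ 3 - j ν) := by
      intro i
      refine ⟨⟨?_, ?_⟩, ?_, ?_⟩
      · intro hd
        apply hνμ i
        rw [← RingEquiv.symm_apply_apply j ν, dvd_symm]
        exact hd
      · obtain ⟨y, hy⟩ := (cs_zero_iff hν.prime hν.norm (hνμ i)).1 (h1 i)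
        refine ⟨j y, ?_⟩
        have h4 := map_dvd j hy
        rw [map_sub, map_pow, RingEquiv.apply_symm_apply] at h4
        rw [← dvd_neg]
        convert h4 using 1
        ring
      · intro hd
        apply hμν i
        rw [← RingEquiv.symm_apply_apply j ν, dvd_symm]
        exact hd
      · have h4 : cs (j.symm (μ i)) ν = 0 := by
          rw [← h1 i]
          exact Pool.Agent.Y350.CT.rec ν (j.symm (μ i)) hν (hpq i) (hμν i)
        obtain ⟨y, hy⟩ := (cs_zero_iff (hpq i).prime (hpq i).norm (hμν i)).1 h4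
        refine ⟨j y, ?_⟩
        have h5 := map_dvd j hy
        rw [map_sub, map_pow, RingEquiv.apply_symm_apply] at h5
        rw [← dvd_neg]
        convert h5 using 1
        ring
    intro i l
    refine Fin.lastCases ?_ (fun i => ?_) i
    · refine Fin.lastCases ?_ (fun l => ?_) l
      · intro hne
        exact absurd rfl hne
      · intro _
        rw [Fin.snoc_last, Fin.snoc_castSucc]
        exact (key l).1
    · refine Fin.lastCases ?_ (fun l => ?_) l
      · intro _
        rw [Fin.snoc_last, Fin.snoc_castSucc]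
        exact (key i).2
      · intro hne
        rw [Fin.snoc_castSucc, Fin.snoc_castSucc]
        exact ha.cube i l fun he => hne (by rw [he])
  · intro i
    refine Fin.lastCases ?_ (fun i => ?_) i
    · rw [Fin.snoc_last]
      refine ⟨j (π i0), (MulEquiv.prime_iff (j : Ei ≃* 𝓞 K)).2 (h.pq i0).prime, ?_, ?_, ?_⟩
      · rw [← dvd_symm j, RingEquiv.symm_apply_apply]
        exact hπD i0
      · rintro ⟨x, hx⟩
        apply h2
        have h4 : cs (π i0) ν = cs ν (π i0) :=
          Pool.Agent.Y350.CT.rec ν (π i0) hν (h.pq i0) (hπν i0)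
        rw [← h4, cs_zero_iff (h.pq i0).prime (h.pq i0).norm (hπν i0)]
        refine ⟨j.symm x, ?_⟩
        have h5 := map_dvd j.symm hx
        rw [map_sub, map_pow, RingEquiv.symm_apply_apply, RingEquiv.symm_apply_apply] at h5
        rw [← dvd_neg]
        convert h5 using 1
        ring
      · intro q hq hqD hqn
        -- `q` is associated to some `π i`
        have hqp : Prime (j.symm q) := (MulEquiv.prime_iff (j.symm : 𝓞 K ≃* Ei)).2 hq
        have h4 : j.symm q ∣ j.symm D := map_dvd j.symm hqD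
        rw [hpm.dvd] at h4
        have hw : IsUnit (w : Ei) := by
          refine IsUnit.of_mul_eq_one (w ^ 2) ?_
          decide
        obtain ⟨i, hi⟩ : ∃ i, j.symm q ∣ π i := by
          unfold dD pD at h4
          rcases hqp.dvd_or_dvd h4 with h5 | h5
          · exact absurd (isUnit_of_dvd_unit h5 (hw.pow _)) hqp.not_isUnit
          · obtain ⟨i, -, h6⟩ := (hqp.dvd_finsetProd_iff _).1 h5
            exact ⟨i, hqp.dvd_of_dvd_pow h6⟩
        have hass : Associated (j.symm q) (π i) := (hqp.dvd_prime_iff_associated (h.pq i).prime).1 hi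
        have hii : i ≠ i0 := by
          rintro rfl
          apply hqn
          have h5 := hass.map (j : Ei →* 𝓞 K)
          simpa using h5
        have h5 : cs (π i) ν = 0 := by
          rw [← h3 i hii]
          exact Pool.Agent.Y350.CT.rec ν (π i) hν (h.pq i) (hπν i)
        obtain ⟨y, hy⟩ := (cs_zero_iff (h.pq i).prime (h.pq i).norm (hπν i)).1 h5
        refine ⟨j y, ?_⟩
        rw [← dvd_symm j, map_sub, map_pow, RingEquiv.symm_apply_apply, RingEquiv.symm_apply_apply,
          ← dvd_neg]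
        refine hass.dvd.trans ?_
        convert hy using 1
        ring
    · rw [Fin.snoc_castSucc]
      exact ha.single i

end Pool.Agent.H91.Tw
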