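import Pool.Agent.H91.Tw12
import Pool.Graph.R_seed8.Y699.E.Pd

/-!
# Towers, part 13: a positive proportion of the primes extends an admissible system
-/

set_option autoImplicit false
set_option linter.unusedVariables false
set_option linter.unusedSectionVars false

open scoped Classical

namespace Pool.Agent.H91.Tw

open NumberField IsDedekindDomain Filter Topology
open Pool.Agent.Y692.QS (Ei w nr ns nr_nonneg)
open Pool.Agent.Y715.T.Rs Pool.Agent.Y715.T.Rec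
open Pool.Agent.Y715.T.RecG (Pq cs_zero_iff cs_spec cs_of)
open Pool.Agent.Y703.CT
open Pool.Agent.H91.Sel (dD)
open Pool.Agent.H91.LKz (Pm)
open Pool.Agent.Y696 (nK)
open Pool.Agent.Y696.CTK (nm_nr Tri Law3)
open Pool.Agent.H91.Fin2 (Cl2 cm_of)
open Pool.Agent.H91.Fc2 (exi3)
open Pool.Agent.Y350.CTK.Tam (te)
open Pool.Agent.W401.Cheb (GK IsFrob dens)

variable {K : Type} [Field K] [NumberField K] (j : Ei ≃+* 𝓞 K)

lemma fin_le (hj : ∀ z : Ei, Algebra.norm ℤ (j z) = nr z) (X : ℕ) :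
    {ν : 𝓞 K | |Algebra.norm ℤ ν| ≤ X}.Finite := by
  have h1 := (Pool.Agent.Y699.E.fin_norm_le X).image j
  refine h1.subset ?_
  intro ν hν
  obtain ⟨z, rfl⟩ := j.surjective ν
  refine ⟨z, ?_, rfl⟩
  have h2 : |Algebra.norm ℤ (j z)| ≤ X := hν
  rw [hj, abs_of_nonneg (nr_nonneg z)] at h2
  show Pool.Agent.Y699.E.nrm z ≤ X
  have h3 := Pool.Agent.Y699.E.nrm_cast z
  omega

/-- **a positive proportion of the primes extends an admissible system** -/
theorem dens_ext (hj : ∀ z : Ei, Algebra.norm ℤ (j z) = nr z) {D : 𝓞 K} (hD : Cl2 D) {k : ℕ}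
    {μ : Fin k → 𝓞 K} (ha : Adm D μ) :
    ∃ c : ℝ, 0 < c ∧ ∃ X₀ : ℕ, ∀ X : ℕ, X₀ ≤ X → c * (Nat.primeCounting X : ℝ) ≤
      ({ν : 𝓞 K | |Algebra.norm ℤ ν| ≤ X ∧ Adm D (Fin.snoc (α := fun _ => 𝓞 K) μ ν)}.ncard : ℝ) := by
  obtain ⟨z, rfl⟩ := j.surjective D
  obtain ⟨J, h1, h2, π, e, c, hdt, hpm, h9⟩ := exi3 (cm_of j hD)
  have hz : j.symm (j z) = z := RingEquiv.symm_apply_apply j z
  rw [← hz] at hpm
  have hA := ad_of j ha hdt hpm
  obtain ⟨i0⟩ := h2
  let T : Type := Option ({i : J // i ≠ i0} ⊕ Fin k)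
  let a' : T → Ei := fun t => match t with
    | none => w
    | some (Sum.inl i) => π i.1
    | some (Sum.inr i) => j.symm (μ i)
  let E : Fin (Fintype.card T) ≃ T := (Fintype.equivFin T).symm
  have hmap : ∀ x : Ei, Prime x → Prime (j x) := fun x hx =>
    (MulEquiv.prime_iff (j : Ei ≃* 𝓞 K)).2 hx
  have hp0 := (hdt.pq i0)
  have hp0' := hmap _ hp0.prime
  let v0 : HeightOneSpectrum (𝓞 K) := ⟨Ideal.span {j (π i0)},
    (Ideal.span_singleton_prime hp0'.ne_zero).2 hp0', by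
      rw [Ne, Ideal.span_singleton_eq_bot]; exact hp0'.ne_zero⟩
  have hmem0 : ∀ y : Ei, j y ∈ v0.asIdeal ↔ π i0 ∣ y := by
    intro y
    show j y ∈ Ideal.span {j (π i0)} ↔ _
    rw [Ideal.mem_span_singleton, map_dvd_iff j]
  have hw : IsUnit (w : Ei) := by
    refine IsUnit.of_mul_eq_one (w ^ 2) ?_
    decide
  have ha0 : ∀ t, ¬ π i0 ∣ a' t := by
    rintro (_ | i | i)
    · intro hd
      exact hp0.prime.not_isUnit (isUnit_of_dvd_unit hd hw)
    · intro hd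
      exact hdt.nd i.1 i0 i.2 hd
    · exact (hA.nd i i0).2
  choose r hr using fun t => root_ex (K := K) (j (a' (E t)))
  obtain ⟨ρ, hρ⟩ := root_ex (K := K) (j (π i0))
  have h30 : (3 : 𝓞 K) ∉ v0.asIdeal := by
    have := (hmem0 3).not.2 hp0.norm
    rwa [map_ofNat] at this
  obtain ⟨σ, hσ1, hσ2⟩ := gal_ex (j w) (Iw j) (fun t => j (a' (E t))) v0 h30
    (fun t => (hmem0 _).not.2 (ha0 _)) (j (π i0)) hp0'.ne_zero (by
      intro n hn
      rw [v0.intValuation_singleton hp0'.ne_zero rfl, WithZero.exp_inj] at hn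
      omega) r hr ρ hρ
  obtain ⟨c₀, hc₀, hlim⟩ := cheb_ex (j w) (Iw j) (fun t => j (a' (E t))) (j (π i0)) r hr ρ hρ σ hσ1
  set P : HeightOneSpectrum (𝓞 K) → Prop := fun v =>
    ∃ τ : GK K, ((∀ i, τ • r i = r i) ∧ τ • ρ = σ • ρ) ∧ IsFrob v τ with hP
  -- the finitely many exceptions
  have hD0 : j z ≠ 0 := by
    intro h0
    have h4 := hD.2.2.1 (j te) (by rw [h0]; exact dvd_zero _)
    exact Pool.Agent.Y350.CTK.Tam.te_prime.not_isUnit ((MulEquiv.isUnit_map j).1 h4)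
  set x : 𝓞 K := 3 * j z * ∏ i, μ i with hx
  have hx0 : x ≠ 0 := by
    rw [hx]
    refine mul_ne_zero (mul_ne_zero (fun h => h30 (by rw [h]; exact zero_mem _)) hD0) ?_
    exact Finset.prod_ne_zero_iff.2 fun i _ => (ha.prime i).ne_zero
  have hB : {v : HeightOneSpectrum (𝓞 K) | x ∈ v.asIdeal}.Finite := by
    have h5 : (Ideal.span {x} : Ideal (𝓞 K)) ≠ ⊥ := by rwa [Ne, Ideal.span_singleton_eq_bot]
    refine (Ideal.finite_factors h5).subset fun v hv => ?_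
    show v.asIdeal ∣ Ideal.span {x}
    rw [Ideal.dvd_span_singleton]
    exact hv
  -- the generators
  have hgen : ∀ v : HeightOneSpectrum (𝓞 K), ∃ ν : 𝓞 K, (P v → x ∉ v.asIdeal →
      v.asIdeal = Ideal.span {ν} ∧ (|Algebra.norm ℤ ν| = Ideal.absNorm v.asIdeal) ∧
      Adm (j z) (Fin.snoc (α := fun _ => 𝓞 K) μ ν)) := by
    intro v
    by_cases hv : P v ∧ x ∉ v.asIdeal
    swap
    · exact ⟨0, fun h1 h2 => absurd ⟨h1, h2⟩ hv⟩
    obtain ⟨⟨τ, ⟨hτ1, hτ2⟩, hτ⟩, hxv⟩ := hv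
    have h3v : (3 : 𝓞 K) ∉ v.asIdeal := fun h => hxv (by
      rw [hx, mul_assoc]
      exact Ideal.mul_mem_right _ _ h)
    have hDv : j z ∉ v.asIdeal := fun h => hxv (by
      rw [hx]
      exact Ideal.mul_mem_right _ _ (Ideal.mul_mem_left _ _ h))
    have hμv : ∀ i, μ i ∉ v.asIdeal := fun i h => hxv (by
      rw [hx]
      refine Ideal.mul_mem_left _ _ ?_
      rw [← Finset.mul_prod_erase _ _ (Finset.mem_univ i)]
      exact Ideal.mul_mem_right _ _ h)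
    obtain ⟨ν, hν, hvν⟩ := prim_gen j v h3v
    have hmem : ∀ y : Ei, j y ∈ v.asIdeal ↔ ν ∣ y := by
      intro y
      rw [hvν, Ideal.mem_span_singleton, map_dvd_iff j]
    have hνz : ¬ ν ∣ z := (hmem z).not.1 hDv
    have hνμ : ∀ i, ¬ ν ∣ j.symm (μ i) := by
      intro i
      rw [← hmem, RingEquiv.apply_symm_apply]
      exact hμv i
    have hπD : ∀ i, π i ∣ z := by
      intro i
      have h6 : π i ∣ j.symm (j z) := by
        rw [hpm.dvd]
        unfold dD pD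
        refine Dvd.dvd.mul_left ?_ _
        refine dvd_trans ?_ (Finset.dvd_prod_of_mem (fun i => π i ^ (e i).val) (Finset.mem_univ i))
        refine dvd_pow_self _ ?_
        intro h0
        exact hdt.e0 i ((ZMod.val_eq_zero _).1 h0)
      rwa [hz] at h6
    have hνπ : ∀ i, ¬ ν ∣ π i := fun i hd => hνz (hd.trans (hπD i))
    have hνa : ∀ t, ¬ ν ∣ a' t := by
      rintro (_ | i | i)
      · intro hd
        exact hν.prime.not_isUnit (isUnit_of_dvd_unit hd hw)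
      · exact hνπ i.1
      · exact hνμ i
    have hcs : ∀ t, cs ν (a' t) = 0 := by
      intro t
      have h6 := (sym_frob j hν hvν (hνa (E (E.symm t))) (hr (E.symm t)) hτ).1 (hτ1 _)
      rwa [Equiv.apply_symm_apply] at h6
    have hcs0 : cs ν (π i0) ≠ 0 := by
      intro h6
      have h7 := (sym_frob j hν hvν (hνπ i0) hρ hτ).2 h6
      rw [hτ2] at h7
      exact hσ2 h7
    refine ⟨j ν, fun _ _ => ⟨hvν, ?_, ?_⟩⟩
    · rw [hj, abs_of_nonneg (nr_nonneg ν), ← nm_nr j hvν]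
      rfl
    · exact adm_snoc j ha hdt hpm hν (hcs none) (by rw [hz]; exact hνz) hνμ
        (fun i => hcs (some (Sum.inr i))) hcs0 (fun i hi => hcs (some (Sum.inl ⟨i, hi⟩)))
  choose f hf using hgen
  set B : Set (HeightOneSpectrum (𝓞 K)) := {v | x ∈ v.asIdeal} with hBdef
  have hcount : ∀ X : ℕ, (Nat.card {v : HeightOneSpectrum (𝓞 K) //
      Ideal.absNorm v.asIdeal ≤ X ∧ P v} : ℝ) ≤
      ({ν : 𝓞 K | |Algebra.norm ℤ ν| ≤ X ∧
        Adm (j z) (Fin.snoc (α := fun _ => 𝓞 K) μ ν)}.ncard : ℝ) + (B.ncard : ℝ) := by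
    intro X
    set S : Set (HeightOneSpectrum (𝓞 K)) := {v | Ideal.absNorm v.asIdeal ≤ X ∧ P v} with hS
    set TT : Set (𝓞 K) := {ν : 𝓞 K | |Algebra.norm ℤ ν| ≤ X ∧
        Adm (j z) (Fin.snoc (α := fun _ => 𝓞 K) μ ν)} with hTT
    have hTf : TT.Finite := (fin_le j hj X).subset fun ν hν => hν.1
    have h6 : S ⊆ (S \ B) ∪ B := by
      intro v hv
      by_cases hb : v ∈ B
      · exact Or.inr hb
      · exact Or.inl ⟨hv, hb⟩
    have hmaps : ∀ v ∈ S \ B, f v ∈ TT := by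
      rintro v ⟨⟨hv1, hv2⟩, hv3⟩
      obtain ⟨g1, g2, g3⟩ := hf v hv2 hv3
      refine ⟨?_, g3⟩
      rw [g2]
      exact_mod_cast hv1
    have hinj : Set.InjOn f (S \ B) := by
      rintro v ⟨⟨hv1, hv2⟩, hv3⟩ v' ⟨⟨hv1', hv2'⟩, hv3'⟩ he
      obtain ⟨g1, -, -⟩ := hf v hv2 hv3
      obtain ⟨g1', -, -⟩ := hf v' hv2' hv3'
      apply HeightOneSpectrum.ext
      rw [g1, g1', he]
    have h7 : (S \ B).Finite := Set.Finite.of_injOn hmaps hinj hTf
    have h8 : S.ncard ≤ (S \ B).ncard + B.ncard :=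
      (Set.ncard_le_ncard h6 (h7.union hB)).trans (Set.ncard_union_le _ _)
    have h9 : (S \ B).ncard ≤ TT.ncard := Set.ncard_le_ncard_of_injOn f hmaps hinj hTf
    have h10 : Nat.card {v : HeightOneSpectrum (𝓞 K) // Ideal.absNorm v.asIdeal ≤ X ∧ P v} =
      S.ncard := rfl
    rw [h10]
    exact_mod_cast h8.trans (Nat.add_le_add_right h9 _)
  -- the limit
  have hpi : Tendsto (fun X : ℕ => (Nat.primeCounting X : ℝ)) atTop atTop :=
    tendsto_natCast_atTop_atTop.comp Nat.tendsto_primeCounting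
  have hev1 : ∀ᶠ X : ℕ in atTop, c₀ / 2 < dens P X := hlim.eventually (lt_mem_nhds (by linarith))
  have hev2 : ∀ᶠ X : ℕ in atTop, max 1 (4 * (B.ncard : ℝ) / c₀) ≤ (Nat.primeCounting X : ℝ) :=
    hpi.eventually_ge_atTop _
  obtain ⟨X₀, hX₀⟩ := eventually_atTop.1 (hev1.and hev2)
  refine ⟨c₀ / 4, by positivity, X₀, fun X hX => ?_⟩
  obtain ⟨g1, g2⟩ := hX₀ X hX
  have g3 : (1 : ℝ) ≤ (Nat.primeCounting X : ℝ) := le_trans (le_max_left _ _) g2
  have g4 : 4 * (B.ncard : ℝ) / c₀ ≤ (Nat.primeCounting X : ℝ) := le_trans (le_max_right _ _) g2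
  have g5 : (0 : ℝ) < (Nat.primeCounting X : ℝ) := by linarith
  unfold dens at g1
  rw [lt_div_iff₀ g5] at g1
  rw [div_le_iff₀ hc₀] at g4
  have g6 := hcount X
  linarith

end Pool.Agent.H91.Tw
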