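import Pool.Agent.H91.Tw1

/-!
# Towers, part 2: ramification in a cubic layer, the valuations
-/

set_option autoImplicit false
set_option linter.unusedSectionVars false
set_option linter.deprecated false

open scoped Classical IntermediateField

namespace Pool.Agent.H91.Tw

open NumberField IsDedekindDomain Polynomial WithZero
open Pool.Agent.Y696 (und mem_und und_lies nK card_nm fibN_fintype exists_above)

section ram

variable {K F : Type} [Field K] [NumberField K] [Field F] [NumberField F] [Algebra K F]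
  {I μ : 𝓞 K} {θ : 𝓞 F}

/-- number of places above -/
lemma card_fib (u : HeightOneSpectrum (𝓞 K)) :
    Fintype.card {v : HeightOneSpectrum (𝓞 F) // und v = u} =
      (u.asIdeal.primesOver (𝓞 F)).ncard := by
  rw [← Nat.card_eq_fintype_card, ← Nat.card_coe_set_eq]
  refine Nat.card_congr
    { toFun := fun v => ⟨v.1.asIdeal, v.1.isPrime,
        ⟨(congrArg HeightOneSpectrum.asIdeal v.2).symm⟩⟩
      invFun := fun Q => ⟨⟨Q.1, Q.2.1, ?_⟩, ?_⟩
      left_inv := fun v => rfl
      right_inv := fun Q => rfl }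
  · have := Q.2.2
    exact Ideal.ne_bot_of_liesOver_of_ne_bot u.ne_bot Q.1
  · apply HeightOneSpectrum.ext
    exact Q.2.2.over.symm

/-- ramification index -/
noncomputable def eR (v : HeightOneSpectrum (𝓞 F)) : ℕ :=
  (und (F := K) v).asIdeal.ramificationIdx' v.asIdeal

/-- residue degree -/
noncomputable def fR (v : HeightOneSpectrum (𝓞 F)) : ℕ :=
  (und (F := K) v).asIdeal.inertiaDeg' v.asIdeal

lemma val_up (v : HeightOneSpectrum (𝓞 F)) (x : 𝓞 K) :
    v.intValuation (algebraMap (𝓞 K) (𝓞 F) x) = (und v).intValuation x ^ eR (K := K) v := by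
  have : v.asIdeal.LiesOver (und (F := K) v).asIdeal := ⟨rfl⟩
  exact (HeightOneSpectrum.intValuation_liesOver (und v) v x).symm

lemma eR_pos (v : HeightOneSpectrum (𝓞 F)) : eR (K := K) v ≠ 0 := by
  have : v.asIdeal.LiesOver (und (F := K) v).asIdeal := ⟨rfl⟩
  exact Ideal.IsDedekindDomain.ramificationIdx'_ne_zero_of_liesOver v.asIdeal (und v).ne_bot

lemma nK_up (v : HeightOneSpectrum (𝓞 F)) : nK v = nK (und (F := K) v) ^ fR (K := K) v := by
  have hlo : v.asIdeal.LiesOver (und (F := K) v).asIdeal := ⟨rfl⟩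
  have hfp : Finite (𝓞 F ⧸ v.asIdeal) := Ideal.finiteQuotientOfFreeOfNeBot v.asIdeal v.ne_bot
  have hmax : (und (F := K) v).asIdeal.IsMaximal := (und v).isPrime.isMaximal (und v).ne_bot
  rw [← card_nm, ← card_nm]
  unfold fR
  rw [Ideal.inertiaDeg'_algebraMap]
  let _ : Field (𝓞 K ⧸ (und (F := K) v).asIdeal) := Ideal.Quotient.field _
  exact Module.natCard_eq_pow_finrank (K := 𝓞 K ⧸ (und (F := K) v).asIdeal) (V := 𝓞 F ⧸ v.asIdeal)

lemma efg (h : Cb I μ θ) (v : HeightOneSpectrum (𝓞 F)) :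
    Fintype.card {w : HeightOneSpectrum (𝓞 F) // und w = und (F := K) v} *
      (eR (K := K) v * fR (K := K) v) = 3 := by
  have hg := gal' h
  have hlo : v.asIdeal.LiesOver (und (F := K) v).asIdeal := ⟨rfl⟩
  have hmax : (und (F := K) v).asIdeal.IsMaximal := (und v).isPrime.isMaximal (und v).ne_bot
  have hmax2 : v.asIdeal.IsMaximal := v.isPrime.isMaximal v.ne_bot
  have hG : IsGaloisGroup (F ≃ₐ[K] F) (𝓞 K) (𝓞 F) := inferInstance
  have h1 := Ideal.ncard_primesOver_mul_ramificationIdxIn_mul_inertiaDegIn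
    (und (F := K) v).asIdeal (𝓞 F) (F ≃ₐ[K] F)
  rw [card_gal h] at h1
  rw [Ideal.ramificationIdxIn_eq_ramificationIdx _ v.asIdeal (F ≃ₐ[K] F),
    Ideal.inertiaDegIn_eq_inertiaDeg _ v.asIdeal (F ≃ₐ[K] F)] at h1
  rw [card_fib]
  unfold eR fR
  rw [Ideal.ramificationIdx'_eq_ramificationIdx _ _ (und v).ne_bot,
    Ideal.inertiaDeg'_eq_inertiaDeg]
  exact h1

lemma eR_dvd (h : Cb I μ θ) (v : HeightOneSpectrum (𝓞 F)) :
    eR (K := K) v = 1 ∨ eR (K := K) v = 3 := by
  have h1 := efg h v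
  have h2 : eR (K := K) v ∣ 3 := by
    refine ⟨Fintype.card {w : HeightOneSpectrum (𝓞 F) // und w = und (F := K) v} *
      fR (K := K) v, ?_⟩
    rw [mul_left_comm]
    exact h1.symm
  exact (Nat.dvd_prime Nat.prime_three).1 h2

/-- not ramified outside `3 μ` -/
lemma eR_one (h : Cb I μ θ) (v : HeightOneSpectrum (𝓞 F))
    (h3 : (3 : 𝓞 K) ∉ (und (F := K) v).asIdeal) (hμ : μ ∉ (und (F := K) v).asIdeal) :
    eR (K := K) v = 1 := by
  obtain ⟨c, hc⟩ := Sy.exists h.root h3 hμ
  have h1 := efg h v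
  have hlt : 1 < nK (und (F := K) v) := (three_dvd_card h.root h3).2
  by_cases hc0 : c = 0
  · subst hc0
    obtain ⟨h2, h3'⟩ := split0 h h3 hμ hc
    rw [h3'] at h1
    have : eR (K := K) v * fR (K := K) v = 1 := by omega
    exact Nat.eq_one_of_mul_eq_one_right this
  · obtain ⟨h2, h3'⟩ := split1 h h3 hμ hc0 hc
    have h4 := h2 v rfl
    rw [nK_up (K := K) v] at h4
    have h5 : fR (K := K) v = 3 := Nat.pow_right_injective hlt h4
    rw [h3', h5] at h1
    omega

/-- `x` is not zero, and its valuations are not divisible by three at the primes that divide it -/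
def Cnd (x : 𝓞 K) : Prop :=
  x ≠ 0 ∧ ∀ u : HeightOneSpectrum (𝓞 K), x ∈ u.asIdeal → ∀ k : ℤ, u.intValuation x ≠ exp (3 * k)

/-- the valuation of `3` is twice an odd number -/
def C3 (K : Type) [Field K] [NumberField K] : Prop :=
  ∀ u : HeightOneSpectrum (𝓞 K), (3 : 𝓞 K) ∈ u.asIdeal →
    ∃ k : ℕ, u.intValuation (3 : 𝓞 K) = exp (-(4 * k + 2 : ℤ))

lemma C3_up (h : Cb I μ θ) (h3 : C3 K) : C3 F := by
  intro v hv
  have h0 : (3 : 𝓞 K) ∈ (und (F := K) v).asIdeal := by
    rw [mem_und, map_ofNat]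
    exact hv
  obtain ⟨k, hk⟩ := h3 _ h0
  have h1 := val_up (K := K) v (3 : 𝓞 K)
  rw [map_ofNat, hk] at h1
  rcases eR_dvd h v with he | he
  · exact ⟨k, by rw [h1, he, pow_one]⟩
  · refine ⟨3 * k + 1, ?_⟩
    rw [h1, he, ← exp_nsmul]
    congr 1
    push_cast
    ring

lemma Cnd_up (h : Cb I μ θ) {x : 𝓞 K} (hx : Cnd x)
    (hc : ∀ u : HeightOneSpectrum (𝓞 K), x ∈ u.asIdeal → (3 : 𝓞 K) ∉ u.asIdeal ∧ μ ∉ u.asIdeal) :
    Cnd (algebraMap (𝓞 K) (𝓞 F) x) := by
  refine ⟨?_, ?_⟩
  · rw [Ne, FaithfulSMul.algebraMap_eq_zero_iff]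
    exact hx.1
  · intro v hv k hk
    have h0 : x ∈ (und (F := K) v).asIdeal := by
      rw [mem_und]
      exact hv
    obtain ⟨h1, h2⟩ := hc _ h0
    rw [val_up (K := K), eR_one h v h1 h2, pow_one] at hk
    exact hx.2 _ h0 k hk

/-- the primes that divide `μ`: totally ramified -/
lemma ram_all (h : Cb I μ θ) (hμ : Cnd μ) (v : HeightOneSpectrum (𝓞 F))
    (hv : μ ∈ (und (F := K) v).asIdeal) :
    nK v = nK (und (F := K) v) ∧
      Fintype.card {w : HeightOneSpectrum (𝓞 F) // und w = und (F := K) v} = 1 := by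
  have h1 := efg h v
  have h2 := val_up (K := K) v μ
  rw [← h.cube, map_pow] at h2
  have he : eR (K := K) v = 3 := by
    rcases eR_dvd h v with he | he
    · exfalso
      rw [he, pow_one] at h2
      have h3 : v.intValuation θ ≠ 0 := by
        apply v.intValuation_ne_zero
        rintro rfl
        exact th_ne h rfl
      have h4 := hμ.2 _ hv (log (v.intValuation θ))
      apply h4
      rw [← h2, ← exp_log h3, ← exp_nsmul]
      simp
    · exact he
  rw [he] at h1
  have h5 : Fintype.card {w : HeightOneSpectrum (𝓞 F) // und w = und (F := K) v} *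
      fR (K := K) v = 1 := by
    have : 3 * (Fintype.card {w : HeightOneSpectrum (𝓞 F) // und w = und (F := K) v} *
      fR (K := K) v) = 3 * 1 := by
      rw [mul_left_comm, mul_one]
      exact h1
    exact Nat.eq_of_mul_eq_mul_left (by norm_num) this
  have h6 := Nat.eq_one_of_mul_eq_one_right h5
  have h7 := Nat.eq_one_of_mul_eq_one_left h5
  refine ⟨?_, h6⟩
  rw [nK_up (K := K) v, h7, pow_one]

end ram

end Pool.Agent.H91.Tw
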