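import Pool.Agent.H91.Tw2
import Pool.Graph.R_seed8.Y696.CTK.LF
import Pool.Graph.R_seed8.Y696.CTE.LN

/-!
# Towers, part 3: the local factors of `y² + D y = x³` over a number field with cube roots of unity
-/

set_option autoImplicit false
set_option linter.unusedSectionVars false
set_option linter.unusedVariables false
set_option linter.deprecated false

open scoped Classical

namespace Pool.Agent.H91.Tw

open NumberField IsDedekindDomain WeierstrassCurve IsLocalRing
open Pool.Agent.W189.NF (aV eV redMap Ov mem_max_iff finite_res card_res redMap_eq_zero aLoc eLoc)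
open Pool.Agent.H921R2.TatePole (nm two_le_nm)
open Pool.Agent.Y698 (AP min_count v_unit)
open Pool.Agent.W192.HK
open Pool.Agent.Y696
open Pool.Agent.Y696.CTK

section chi
variable {k : Type} [Field k] [Fintype k] (ρ : eis →+* k)

/-- the value of the character -/
theorem chi_val' {χ : MulChar k eis} (h : χ ^ 3 = 1) (h3 : (3 : k) ≠ 0) {m : ℕ}
    (hρ : ∀ x : k, x ≠ 0 → ρ (χ x) = x ^ m) {d : k} (hd : d ≠ 0)
    {c : ℕ} (hc3 : c < 3) (hc : d ^ m = ρ omr ^ c) : χ d = omr ^ c := by
  obtain ⟨r1, r2⟩ := rho_om ρ h3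
  have hf : Fact (Nat.Prime 3) := ⟨Nat.prime_three⟩
  have hprim : IsPrimitiveRoot (ρ omr) 3 :=
    IsPrimitiveRoot.iff_orderOf.2 (orderOf_eq_prime (by linear_combination (ρ omr - 1) * r1) r2)
  obtain ⟨i, hi, hi'⟩ := prim_root_om.eq_pow_of_pow_eq_one (chi_one h hd)
  rw [← hi']
  have h1 := hρ d hd
  rw [← hi', map_pow, hc] at h1
  rw [hprim.pow_inj hi hc3 h1]

end chi

section loc

variable {K : Type} [Field K] [NumberField K] (ι : eis →+* 𝓞 K)

/-- the complex number `α` describes the local factors at `v` -/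
def Lc (v : HeightOneSpectrum (𝓞 K)) (α : ℂ) : Prop :=
  α * (starRingEnd ℂ) α = (nm v : ℂ) ∧
  ∀ D : 𝓞 K, D ∉ v.asIdeal → ∀ c : ZMod 3, Sy (ι omr) v D c →
    ((aV (ED (D : K)) v : ℤ) : ℂ) = om ^ (2 * c.val) * α + (starRingEnd ℂ) (om ^ (2 * c.val) * α) ∧
    ((eV (ED (D : K)) v : ℤ) : ℂ) = (nm v : ℂ)

lemma conj_om2 (c : ℕ) : (starRingEnd ℂ) (om ^ (2 * c)) = om ^ c := by
  have h1 : (starRingEnd ℂ) om = om ^ 2 := by
    have h2 : ((cj omr : eis) : ℂ) = ((omr ^ 2 : eis) : ℂ) := by
      have : (cj omr : eis) = omr ^ 2 := by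
        apply coe_inj'
        rw [cj_coe]
        have h3 := om_im
        have e : (starRingEnd ℂ) om * om = om ^ 2 * om := by
          have h4 : om ^ 2 * om = 1 := by
            have := congrArg (fun t : eis => (t : ℂ)) omr_cube
            push_cast at this
            rw [omr_coe] at this
            linear_combination this
          rw [h4, mul_comm, Complex.mul_conj]
          have h5 : ‖om‖ = 1 := by
            have h6 : om ^ 3 = 1 := by linear_combination h4
            exact Complex.norm_eq_one_of_pow_eq_one h6 (by norm_num)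
          rw [Complex.normSq_eq_norm_sq, h5]
          norm_num
        have h0 : om ≠ 0 := by
          intro h
          rw [h] at h3
          simp at h3
        have := mul_right_cancel₀ h0 e
        push_cast
        rw [omr_coe]
        exact this
      rw [this]
    rw [cj_coe, omr_coe] at h2
    push_cast at h2
    rw [omr_coe] at h2
    exact h2
  rw [map_pow, h1, ← pow_mul]
  have h3 : om ^ 3 = 1 := by
    have := congrArg (fun t : eis => (t : ℂ)) omr_cube
    push_cast at this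
    rw [omr_coe] at this
    exact this
  have e : 2 * (2 * c) = 3 * c + c := by ring
  rw [e, pow_add, pow_mul, h3, one_pow, one_mul]

lemma exists_pi (v : HeightOneSpectrum (𝓞 K)) (h3 : (3 : 𝓞 K) ∉ v.asIdeal) :
    ∃ π : eis, (bel ι v).asIdeal = Ideal.span {π} ∧ π - 1 ∈ (sp 3 : Ideal eis) ∧
      psi (bel ι v).asIdeal = π ∧ Prime π := by
  set P := bel ι v with hP
  have h3P : (3 : eis) ∉ P.asIdeal := by
    rw [hP, mem_bel, map_ofNat]
    exact h3
  have hcop : IsCoprime P.asIdeal (sp 3) := by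
    have hpmax : P.asIdeal.IsMaximal := P.isPrime.isMaximal P.ne_bot
    rw [Ideal.isCoprime_iff_sup_eq]
    by_contra hne
    obtain ⟨M, hM, hle⟩ := Ideal.exists_le_maximal _ hne
    have h4 : P.asIdeal = M := hpmax.eq_of_le hM.ne_top (le_sup_left.trans hle)
    apply h3P
    rw [h4]
    exact hle (Ideal.mem_sup_right (Ideal.mem_span_singleton_self 3))
  obtain ⟨π, hπ1, hπ2⟩ := exists_prim hcop
  refine ⟨π, hπ1, hπ2, ?_, ?_⟩
  · rw [hπ1]; exact psi_prim hπ2
  · rw [← Ideal.span_singleton_prime (prim_ne hπ2)]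
    have := P.isPrime
    rwa [hπ1] at this

/-- **the local factors at the primes that do not divide three** -/
theorem Lc_base (v : HeightOneSpectrum (𝓞 K)) (h3 : (3 : 𝓞 K) ∉ v.asIdeal) {f : ℕ}
    (hf : nK v = Nat.card (eis ⧸ (bel ι v).asIdeal) ^ f) :
    Lc ι v (psi (bel ι v).asIdeal ^ f) := by
  obtain ⟨π, hπ1, hπ2, hpsi, hprime⟩ := exists_pi ι v h3
  have hfin := finite_res v
  set P := bel ι v with hP
  have hcardP : (Nat.card (eis ⧸ P.asIdeal) : ℂ) = (π : ℂ) * (starRingEnd ℂ) (π : ℂ) := by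
    rw [Complex.mul_conj]
    have h4 : ((Nat.card (eis ⧸ P.asIdeal) : ℕ) : ℝ) = Complex.normSq (π : ℂ) := by
      rw [hπ1]
      exact (lbasic eis om qr).2.2.2.2.1 π
    rw [← h4]
    push_cast
    rfl
  refine ⟨?_, ?_⟩
  · rw [hpsi, map_pow, ← mul_pow, ← hcardP]
    change _ = ((nK v : ℕ) : ℂ)
    rw [hf]
    push_cast
    rfl
  intro D hD c hc
  set ρ : eis →+* ResidueField (Ov v) := (redMap v).comp ι with hρ
  have hker : ∀ x, ρ x = 0 ↔ π ∣ x := by
    intro x
    rw [hρ, RingHom.comp_apply, redMap_eq_zero, ← mem_bel, ← hP, hπ1,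
      Ideal.mem_span_singleton]
  have hk3 : (3 : ResidueField (Ov v)) ≠ 0 := by
    intro h
    apply h3
    rw [← redMap_eq_zero, map_ofNat]
    exact h
  let _ : Fintype (ResidueField (Ov v)) := Fintype.ofFinite _
  have hcardk : Fintype.card (ResidueField (Ov v)) = nK v := by
    rw [← Nat.card_eq_fintype_card]
    exact card_res v
  have hq : ((Fintype.card (ResidueField (Ov v)) : ℕ) : eis) = (π * cj π) ^ f := by
    apply coe_inj'
    rw [hcardk, hf]
    push_cast
    rw [hcardP, cj_coe]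
  have hΔ : IsUnit (EDr (algebraMap (𝓞 K) (Ov v) D)).Δ := by
    rw [EDr_Δ]
    have h1 : IsUnit (3 : Ov v) := by
      have := isUnit_of_notMem h3
      rwa [map_ofNat] at this
    have h2 : (-27 : Ov v) = -(3 ^ 3) := by norm_num
    rw [h2]
    exact ((h1.pow 3).neg).mul ((isUnit_of_notMem hD).pow 4)
  obtain ⟨c1, c2⟩ := min_count (v.adicCompletionIntegers K) hΔ
    (W := (ED (D : K)).baseChange (v.adicCompletion K)) (by
      rw [bcK, EDr_map, coe_comp])
  have hAP : Nat.card (AP ((EDr (algebraMap (𝓞 K) (Ov v) D)).map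
      (IsLocalRing.residue (Ov v)))) =
      Nat.card {p : IsLocalRing.ResidueField (Ov v) × IsLocalRing.ResidueField (Ov v) //
        p.2 ^ 2 + redMap v D * p.2 = p.1 ^ 3} := by
    refine Nat.card_congr (Equiv.subtypeEquivRight fun P => ?_)
    rw [WeierstrassCurve.Affine.equation_iff]
    simp [EDr, redMap]
  have hx : redMap v D ≠ 0 := by
    rw [Ne, redMap_eq_zero]
    exact hD
  obtain ⟨χ, h, h1, hχ⟩ := exists_chi ρ hk3
  have h4 := card_points_d ρ h hk3 hχ hx
  obtain ⟨h5, h6⟩ := jac_eq ρ hk3 h h1 hχ hprime hπ2 hker hq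
  have hval : χ (redMap v D) = omr ^ c.val := by
    refine chi_val' ρ h hk3 hχ hx (ZMod.val_lt _) ?_
    have h7 : redMap v (D ^ ((nK v - 1) / 3) - (ι omr) ^ c.val) = 0 := by
      rw [redMap_eq_zero]
      exact hc
    rw [map_sub, map_pow, map_pow, sub_eq_zero] at h7
    rw [hcardk, hρ, RingHom.comp_apply]
    exact h7
  rw [h5, h6, hval] at h4
  have h10 : Nat.card (IsLocalRing.ResidueField (Ov v)) = nm v := card_res v
  constructor
  · unfold aV
    rw [c1, hAP, Nat.card_eq_fintype_card (α := IsLocalRing.ResidueField (Ov v))]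
    have h8 := congrArg (fun t : eis => (t : ℂ)) h4
    push_cast at h8
    push_cast
    rw [h8, hpsi, map_mul, conj_om2, omr_coe, cj_coe, map_pow, ← pow_mul, mul_comm c.val 2]
    ring
  · unfold eV
    rw [c2, h10]
    push_cast
    rfl

/-- additive reduction -/
theorem bad_gen {v : HeightOneSpectrum (𝓞 K)} {D : 𝓞 K} {m : ℕ} (hm : ¬ 12 ∣ m)
    (h : v.intValuation (3 : 𝓞 K) ^ 3 * v.intValuation D ^ 4 = WithZero.exp (-(m : ℤ))) :
    aV (ED (D : K)) v = 0 ∧ eV (ED (D : K)) v = 0 := by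
  unfold aV eV
  rw [bcK]
  refine min_add0 (v.adicCompletionIntegers K) hm ?_ (ED_c₄ _)
  have hx : ∀ x : 𝓞 K, (IsDiscreteValuationRing.maximalIdeal (Ov v)).valuation (v.adicCompletion K)
      (algebraMap K (v.adicCompletion K) (x : K)) = v.intValuation x := by
    intro x
    rw [val_eq, Pool.Agent.H723R3.valued_algebraMap]
    exact HeightOneSpectrum.valuation_of_algebraMap (K := K) v x
  have e : (ED (algebraMap K (v.adicCompletion K) (D : K))).Δ =
      -((algebraMap K (v.adicCompletion K) ((3 : 𝓞 K) : K)) ^ 3 *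
        (algebraMap K (v.adicCompletion K) (D : K)) ^ 4) := by
    rw [ED_Δ]
    simp only [map_ofNat]
    ring
  rw [e, Valuation.map_neg, map_mul, map_pow, map_pow, hx, hx]
  exact h

lemma exp_of_ne {v : HeightOneSpectrum (𝓞 K)} {x : 𝓞 K} (hx : x ≠ 0) :
    ∃ n : ℕ, v.intValuation x = WithZero.exp (-(n : ℤ)) := by
  have h1 := v.intValuation_ne_zero x hx
  have h2 := v.intValuation_le_one x
  obtain ⟨k, hk⟩ := exp_rep h1
  rw [hk, ← WithZero.exp_zero, WithZero.exp_le_exp] at h2
  refine ⟨k.natAbs, ?_⟩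
  rw [hk]
  congr 1
  omega

/-- the places that divide `D` -/
theorem bad_D {v : HeightOneSpectrum (𝓞 K)} {D : 𝓞 K} (hD : D ≠ 0)
    (h : ∀ k : ℤ, v.intValuation D ≠ WithZero.exp (3 * k)) (h3 : (3 : 𝓞 K) ∉ v.asIdeal) :
    aV (ED (D : K)) v = 0 ∧ eV (ED (D : K)) v = 0 := by
  obtain ⟨n, hn⟩ := exp_of_ne (v := v) hD
  have h1 : v.intValuation (3 : 𝓞 K) = 1 := HeightOneSpectrum.intValuation_eq_one_iff.2 h3
  refine bad_gen (m := 4 * n) ?_ ?_
  · intro hd
    have h3n : 3 ∣ n := by omega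
    obtain ⟨k, hk⟩ := h3n
    apply h (-(k : ℤ))
    rw [hn, hk]
    congr 1
    push_cast
    ring
  · rw [h1, one_pow, one_mul, hn, ← WithZero.exp_nsmul]
    congr 1
    simp

/-- the places that divide three -/
theorem bad_3 {v : HeightOneSpectrum (𝓞 K)} {D : 𝓞 K} (hD : D ∉ v.asIdeal)
    (h3 : (3 : 𝓞 K) ∈ v.asIdeal) (hC : C3 K) :
    aV (ED (D : K)) v = 0 ∧ eV (ED (D : K)) v = 0 := by
  obtain ⟨k, hk⟩ := hC v h3
  have h1 : v.intValuation D = 1 := HeightOneSpectrum.intValuation_eq_one_iff.2 hD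
  refine bad_gen (m := 12 * k + 6) ?_ ?_
  · omega
  · rw [h1, one_pow, mul_one, hk, ← WithZero.exp_nsmul]
    congr 1
    simp only [nsmul_eq_mul]
    push_cast
    ring

end loc

end Pool.Agent.H91.Tw
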