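import Pool.Agent.H91.Tw3

/-!
# Towers, part 4: the Euler factors in a cubic layer, and the `L`-function
-/

set_option autoImplicit false
set_option linter.unusedSectionVars false
set_option linter.unusedVariables false
set_option linter.deprecated false

open scoped Classical

namespace Pool.Agent.H91.Tw

open NumberField IsDedekindDomain WeierstrassCurve IsLocalRing
open Pool.Agent.W189.NF (aV eV)
open Pool.Agent.H921R2.TatePole (nm two_le_nm)
open Pool.Agent.W192.HK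
open Pool.Agent.Y696
open Pool.Agent.Y696.CTK

/-- the Euler factor of `y² + D y = x³` -/
noncomputable def XD {K : Type} [Field K] [NumberField K] (D : 𝓞 K) (v : HeightOneSpectrum (𝓞 K))
    (s : ℂ) : ℂ :=
  (1 - (aV (ED (D : K)) v : ℂ) * (nm v : ℂ) ^ (-s) +
    (eV (ED (D : K)) v : ℂ) * ((nm v : ℂ) ^ (-s)) ^ 2)⁻¹

/-- no common prime -/
def Cop {K : Type} [Field K] [NumberField K] (x y : 𝓞 K) : Prop :=
  ∀ u : HeightOneSpectrum (𝓞 K), x ∈ u.asIdeal → y ∉ u.asIdeal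

lemma Cop.symm {K : Type} [Field K] [NumberField K] {x y : 𝓞 K} (h : Cop x y) : Cop y x :=
  fun u hy hx => h u hx hy

section

variable {K : Type} [Field K] [NumberField K]

lemma Cnd_mul_pow {D μ : 𝓞 K} (hD : Cnd D) (hμ : Cnd μ) (hc : Cop D μ) (j : ZMod 3) :
    Cnd (D * μ ^ j.val) := by
  refine ⟨mul_ne_zero hD.1 (pow_ne_zero _ hμ.1), ?_⟩
  intro u hu k hk
  by_cases h1 : D ∈ u.asIdeal
  · have h2 := hc u h1
    have h3 : u.intValuation μ = 1 := HeightOneSpectrum.intValuation_eq_one_iff.2 h2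
    rw [map_mul, map_pow, h3, one_pow, mul_one] at hk
    exact hD.2 u h1 k hk
  · have h2 : u.intValuation D = 1 := HeightOneSpectrum.intValuation_eq_one_iff.2 h1
    rcases u.isPrime.mem_or_mem hu with h3 | h3
    · exact h1 h3
    · have h4 := u.isPrime.mem_of_pow_mem _ h3
      have hj : j.val ≠ 0 := by
        intro h0
        rw [h0, pow_zero] at h3
        exact u.isPrime.ne_top ((Ideal.eq_top_iff_one _).2 h3)
      have hj3 : j.val < 3 := ZMod.val_lt j
      obtain ⟨n, hn⟩ := exp_of_ne (v := u) hμ.1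
      rw [map_mul, map_pow, h2, one_mul, hn, ← WithZero.exp_nsmul, WithZero.exp_inj] at hk
      simp only [nsmul_eq_mul] at hk
      have h5 : ¬ (3 : ℤ) ∣ n := by
        rintro ⟨t, ht⟩
        apply hμ.2 u h4 (-t)
        rw [hn, ht]
        congr 1
        ring
      have h6 : j.val = 1 ∨ j.val = 2 := by omega
      rcases h6 with h6 | h6
      · rw [h6] at hk
        push_cast at hk
        apply h5
        exact ⟨-k, by linarith⟩
      · rw [h6] at hk
        push_cast at hk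
        omega

lemma Cop_mul_pow {D μ x : 𝓞 K} (hD : Cop D x) (hμ : Cop μ x) (j : ℕ) :
    Cop (D * μ ^ j) x := by
  intro u hu
  rcases u.isPrime.mem_or_mem hu with h3 | h3
  · exact hD u h3
  · exact hμ u (u.isPrime.mem_of_pow_mem _ h3)

variable (ι : eis →+* 𝓞 K)

lemma root_of : (ι omr) ^ 2 + ι omr + 1 = 0 := by
  have := congrArg ι omr_sq
  simpa using this

include ι in
lemma hasse_all {D : 𝓞 K} (hC : C3 K) (hD : Cnd D) (h3 : Cop D 3) (v : HeightOneSpectrum (𝓞 K)) :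
    HBd (aV (ED (D : K)) v) (eV (ED (D : K)) v) (nm v) := by
  by_cases h : (3 : 𝓞 K) ∈ v.asIdeal
  · exact Or.inl (bad_3 (h3.symm v h) h hC)
  · by_cases hd : D ∈ v.asIdeal
    · exact Or.inl (bad_D hD.1 (hD.2 v hd) h)
    · obtain ⟨f, -, hf⟩ := deg_base ι v
      obtain ⟨h1, h2⟩ := Lc_base ι v h hf
      obtain ⟨c, hc⟩ := Sy.exists (root_of ι) h hd
      obtain ⟨h4, h5⟩ := h2 D hd c hc
      refine Or.inr ⟨om ^ (2 * c.val) * psi (bel ι v).asIdeal ^ f, h4, ?_, ?_⟩
      · have e : om ^ (2 * c.val) * psi (bel ι v).asIdeal ^ f *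
            (starRingEnd ℂ) (om ^ (2 * c.val) * psi (bel ι v).asIdeal ^ f) =
            (om ^ (2 * c.val) * om ^ c.val) * (psi (bel ι v).asIdeal ^ f *
              (starRingEnd ℂ) (psi (bel ι v).asIdeal ^ f)) := by
          rw [map_mul, conj_om2]
          ring
        have h6 : om ^ 3 = 1 := by
          have := congrArg (fun t : eis => (t : ℂ)) omr_cube
          push_cast at this
          rw [omr_coe] at this
          exact this
        have h7 : om ^ (2 * c.val) * om ^ c.val = 1 := by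
          rw [← pow_add]
          have : 2 * c.val + c.val = 3 * c.val := by ring
          rw [this, pow_mul, h6, one_pow]
        rw [e, h7, one_mul, h1, h5]
      · have e : om ^ (2 * c.val) * psi (bel ι v).asIdeal ^ f *
            (starRingEnd ℂ) (om ^ (2 * c.val) * psi (bel ι v).asIdeal ^ f) =
            (om ^ (2 * c.val) * om ^ c.val) * (psi (bel ι v).asIdeal ^ f *
              (starRingEnd ℂ) (psi (bel ι v).asIdeal ^ f)) := by
          rw [map_mul, conj_om2]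
          ring
        have h6 : om ^ 3 = 1 := by
          have := congrArg (fun t : eis => (t : ℂ)) omr_cube
          push_cast at this
          rw [omr_coe] at this
          exact this
        have h7 : om ^ (2 * c.val) * om ^ c.val = 1 := by
          rw [← pow_add]
          have : 2 * c.val + c.val = 3 * c.val := by ring
          rw [this, pow_mul, h6, one_pow]
        rw [e, h7, one_mul, h1]

lemma XD_bad {D : 𝓞 K} {v : HeightOneSpectrum (𝓞 K)}
    (h : aV (ED (D : K)) v = 0 ∧ eV (ED (D : K)) v = 0) (s : ℂ) : XD D v s = 1 := by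
  unfold XD
  rw [h.1, h.2]
  simp

/-- the Euler factor from the data -/
noncomputable def Ph (α : ℂ) (c q : ℕ) (s : ℂ) : ℂ :=
  (1 - (om ^ (2 * c) * α + (starRingEnd ℂ) (om ^ (2 * c) * α)) * (q : ℂ) ^ (-s) +
    (q : ℂ) * ((q : ℂ) ^ (-s)) ^ 2)⁻¹

lemma XD_val {v : HeightOneSpectrum (𝓞 K)} {α : ℂ} (hL : Lc ι v α) {D : 𝓞 K}
    (hD : D ∉ v.asIdeal) {c : ZMod 3} (hc : Sy (ι omr) v D c) (s : ℂ) :
    XD D v s = Ph α c.val (nm v) s := by
  obtain ⟨h1, h2⟩ := hL.2 D hD c hc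
  unfold XD Ph
  rw [h1, h2]

lemma Sy.pow {I : 𝓞 K} (hI : I ^ 2 + I + 1 = 0) {u : HeightOneSpectrum (𝓞 K)} {x : 𝓞 K}
    {c : ZMod 3} (h : Sy I u x c) (n : ℕ) : Sy I u (x ^ n) (n * c) := by
  induction n with
  | zero =>
    unfold Sy
    simp
  | succ n ih =>
    rw [pow_succ]
    have := Sy.mul hI ih h
    convert this using 1
    push_cast
    ring

lemma om3 : om ^ 3 = 1 := by
  have := congrArg (fun t : eis => (t : ℂ)) omr_cube
  push_cast at this
  rw [omr_coe] at this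
  exact this

lemma om_rel : om ^ 2 + om + 1 = 0 := by
  have := congrArg (fun t : eis => (t : ℂ)) omr_sq
  push_cast at this
  rw [omr_coe] at this
  exact this

/-- the product of the three twists -/
lemma Ph_prod {α : ℂ} {q : ℕ} (h : α * (starRingEnd ℂ) α = (q : ℂ)) (s : ℂ) (hq : 0 < q) :
    ∏ j : ZMod 3, Ph α j.val q s = Ph (α ^ 3) 0 (q ^ 3) s := by
  set T := (q : ℂ) ^ (-s) with hT
  have hT3 : ((q ^ 3 : ℕ) : ℂ) ^ (-s) = T ^ 3 := by
    have e : ((q ^ 3 : ℕ) : ℂ) = ((q * q * q : ℕ) : ℂ) := by congr 1; ring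
    rw [e, Nat.cast_mul, Nat.cast_mul, ← Nat.cast_mul, Complex.natCast_mul_natCast_cpow,
      Nat.cast_mul, Complex.natCast_mul_natCast_cpow]
    rw [hT]
    ring
  have key : ∀ x : ℂ, (1 - x) * (1 - om ^ 2 * x) * (1 - om * x) = 1 - x ^ 3 := by
    intro x
    linear_combination (x ^ 2 - x) * om_rel + (-x ^ 3 + x ^ 2) * om3
  have f : ∀ c : ℕ, Ph α c q s = ((1 - om ^ (2 * c) * α * T) * (1 - om ^ c * (starRingEnd ℂ) α * T))⁻¹ := by
    intro c
    unfold Ph
    rw [← hT, map_mul, conj_om2, ← h]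
    congr 1
    have h7 : om ^ (2 * c) * om ^ c = 1 := by
      rw [← pow_add]
      have : 2 * c + c = 3 * c := by ring
      rw [this, pow_mul, om3, one_pow]
    linear_combination (-α * (starRingEnd ℂ) α * T ^ 2) * h7
  have v0 : (0 : ZMod 3).val = 0 := rfl
  have v1 : (1 : ZMod 3).val = 1 := rfl
  have v2 : (2 : ZMod 3).val = 2 := rfl
  have hprod : ∏ j : ZMod 3, Ph α j.val q s = Ph α 0 q s * Ph α 1 q s * Ph α 2 q s := by
    have := Fin.prod_univ_three (f := fun j : Fin 3 => Ph α j.val q s)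
    exact this
  rw [hprod, f, f, f, ← mul_inv, ← mul_inv]
  unfold Ph
  rw [hT3]
  congr 1
  have hq3 : ((q ^ 3 : ℕ) : ℂ) = (α * (starRingEnd ℂ) α) ^ 3 := by
    push_cast
    rw [h]
  rw [hq3]
  have k1 := key (α * T)
  have k2 := key ((starRingEnd ℂ) α * T)
  simp only [mul_zero, pow_zero, one_mul, mul_one, map_pow]
  have o4 : om ^ (2 * 2) = om := by
    have := om3
    linear_combination om * this
  rw [o4, pow_one]
  calc (1 - α * T) * (1 - (starRingEnd ℂ) α * T) *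
        ((1 - om ^ 2 * α * T) * (1 - om * (starRingEnd ℂ) α * T)) *
        ((1 - om * α * T) * (1 - om ^ 2 * (starRingEnd ℂ) α * T))
      = ((1 - α * T) * (1 - om ^ 2 * (α * T)) * (1 - om * (α * T))) *
        ((1 - (starRingEnd ℂ) α * T) * (1 - om ^ 2 * ((starRingEnd ℂ) α * T)) *
          (1 - om * ((starRingEnd ℂ) α * T))) := by ring
    _ = (1 - (α * T) ^ 3) * (1 - ((starRingEnd ℂ) α * T) ^ 3) := by rw [k1, k2]
    _ = _ := by ring

end

section layer

variable {K F : Type} [Field K] [NumberField K] [Field F] [NumberField F] [Algebra K F]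
  (ι : eis →+* 𝓞 K) {μ : 𝓞 K} {θ : 𝓞 F}

/-- the Eisenstein integers in the extension -/
noncomputable def up (F : Type) [Field F] [NumberField F] [Algebra K F] : eis →+* 𝓞 F :=
  (algebraMap (𝓞 K) (𝓞 F)).comp ι

lemma bel_up (w : HeightOneSpectrum (𝓞 F)) : bel (up ι F) w = bel ι (und (F := K) w) :=
  HeightOneSpectrum.ext rfl

lemma Lc_pair {u : HeightOneSpectrum (𝓞 K)} (h3 : (3 : 𝓞 K) ∉ u.asIdeal) :
    ∃ α : ℂ, Lc ι u α ∧ ∀ w : HeightOneSpectrum (𝓞 F), und w = u → ∀ g : ℕ, nK w = nK u ^ g →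
      Lc (up ι F) w (α ^ g) := by
  obtain ⟨f, -, hf⟩ := deg_base ι u
  refine ⟨psi (bel ι u).asIdeal ^ f, Lc_base ι u h3 hf, ?_⟩
  intro w hw g hg
  have h3w : (3 : 𝓞 F) ∉ w.asIdeal := by
    rw [← map_ofNat (algebraMap (𝓞 K) (𝓞 F)) 3, ← mem_und, hw]
    exact h3
  have h1 := Lc_base (up ι F) w h3w (f := f * g) (by
    rw [bel_up, hw, hg, hf, pow_mul])
  rw [bel_up, hw, pow_mul] at h1
  exact h1

lemma Sy_up1 {u : HeightOneSpectrum (𝓞 K)} {w : HeightOneSpectrum (𝓞 F)} (hw : und w = u)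
    (hq : nK w = nK u) {x : 𝓞 K} {c : ZMod 3} (h : Sy (ι omr) u x c) :
    Sy (up ι F omr) w (algebraMap (𝓞 K) (𝓞 F) x) c := by
  unfold Sy at *
  have e : (algebraMap (𝓞 K) (𝓞 F) x) ^ ((nK w - 1) / 3) - (up ι F omr) ^ c.val =
      algebraMap (𝓞 K) (𝓞 F) (x ^ ((nK u - 1) / 3) - (ι omr) ^ c.val) := by
    rw [hq, map_sub, map_pow, map_pow]
    rfl
  rw [e, ← mem_und, hw]
  exact h

lemma Sy_up3 {u : HeightOneSpectrum (𝓞 K)} (h3 : (3 : 𝓞 K) ∉ u.asIdeal)
    {w : HeightOneSpectrum (𝓞 F)} (hw : und w = u)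
    (hq : nK w = nK u ^ 3) {x : 𝓞 K} {c : ZMod 3} (h : Sy (ι omr) u x c) :
    Sy (up ι F omr) w (algebraMap (𝓞 K) (𝓞 F) x) 0 := by
  unfold Sy at *
  obtain ⟨⟨m, hm⟩, h1⟩ := three_dvd_card (root_of ι) h3
  have hq1 : nK u = 3 * m + 1 := by omega
  have hm' : (nK u - 1) / 3 = m := by omega
  have hexp : (nK w - 1) / 3 = m * (3 * (3 * m ^ 2 + 3 * m + 1)) := by
    rw [hq, hq1]
    have : (3 * m + 1) ^ 3 - 1 = 3 * (m * (3 * (3 * m ^ 2 + 3 * m + 1))) := by
      have e : (3 * m + 1) ^ 3 = 3 * (m * (3 * (3 * m ^ 2 + 3 * m + 1))) + 1 := by ring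
      omega
    rw [this]
    exact Nat.mul_div_cancel_left _ (by norm_num)
  have v0 : (0 : ZMod 3).val = 0 := rfl
  rw [v0, pow_zero, hexp]
  have e : (algebraMap (𝓞 K) (𝓞 F) x) ^ (m * (3 * (3 * m ^ 2 + 3 * m + 1))) - 1 =
      algebraMap (𝓞 K) (𝓞 F) (x ^ (m * (3 * (3 * m ^ 2 + 3 * m + 1))) - 1) := by
    rw [map_sub, map_pow, map_one]
  rw [e, ← mem_und, hw]
  have h4 : (ι omr ^ c.val) ^ (3 * (3 * m ^ 2 + 3 * m + 1)) = 1 := by
    rw [← pow_mul, mul_comm c.val, mul_assoc, pow_mul, I3 (root_of ι), one_pow]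
  rw [pow_mul, ← h4]
  rw [hm'] at h
  exact Ideal.mem_of_dvd _ (sub_dvd_pow_sub_pow _ _ _) h

/-- the Euler factors in a cubic layer -/
theorem fibre (h : Cb (ι omr) μ θ) (hC : C3 K) {D : 𝓞 K} (hD : Cnd D) (hμ : Cnd μ)
    (hD3 : Cop D 3) (hμ3 : Cop μ 3) (hDμ : Cop D μ) (u : HeightOneSpectrum (𝓞 K)) (s : ℂ) :
    ∏ w : {w : HeightOneSpectrum (𝓞 F) // und w = u}, XD (algebraMap (𝓞 K) (𝓞 F) D) w.1 s =
      ∏ j : ZMod 3, XD (D * μ ^ j.val) u s := by
  have hCF : C3 F := C3_up h hC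
  have hup : ∀ (w : HeightOneSpectrum (𝓞 F)), und w = u → ∀ x : 𝓞 K,
      algebraMap (𝓞 K) (𝓞 F) x ∈ w.asIdeal ↔ x ∈ u.asIdeal := by
    intro w hw x
    rw [← mem_und, hw]
  by_cases h3 : (3 : 𝓞 K) ∈ u.asIdeal
  · rw [Finset.prod_eq_one, Finset.prod_eq_one]
    · intro j _
      exact XD_bad (bad_3 ((Cop_mul_pow hD3 hμ3 _).symm u h3) h3 hC) s
    · intro w _
      refine XD_bad (bad_3 ?_ ?_ hCF) s
      · rw [hup w.1 w.2]
        exact hD3.symm u h3
      · have := (hup w.1 w.2 3).2 h3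
        rwa [map_ofNat] at this
  by_cases hDu : D ∈ u.asIdeal
  · have hμu := hDμ u hDu
    rw [Finset.prod_eq_one, Finset.prod_eq_one]
    · intro j _
      have hc := Cnd_mul_pow hD hμ hDμ j
      exact XD_bad (bad_D hc.1 (hc.2 u (Ideal.mul_mem_right _ _ hDu)) h3) s
    · intro w _
      have hc : Cnd (algebraMap (𝓞 K) (𝓞 F) D) :=
        Cnd_up h hD fun u hu => ⟨hD3 u hu, hDμ u hu⟩
      refine XD_bad (bad_D hc.1 (hc.2 w.1 ((hup w.1 w.2 D).2 hDu)) ?_) s
      have := (hup w.1 w.2 3).not.2 h3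
      rwa [map_ofNat] at this
  obtain ⟨c, hc⟩ := Sy.exists (root_of ι) h3 hDu
  obtain ⟨α, hα, hup2⟩ := Lc_pair (F := F) ι h3
  by_cases hμu : μ ∈ u.asIdeal
  · -- ramified
    have hcard : ∀ w : HeightOneSpectrum (𝓞 F), und w = u → nK w = nK u ∧
        Fintype.card {w : HeightOneSpectrum (𝓞 F) // und w = u} = 1 := by
      intro w hw
      subst hw
      exact ram_all h hμ w hμu
    obtain ⟨w0, hw0⟩ := exists_above (F := K) (K := F) u
    have hw0' : und w0 = u := HeightOneSpectrum.ext hw0.over.symm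
    have hone := (hcard w0 hw0').2
    have hL : ∏ w : {w : HeightOneSpectrum (𝓞 F) // und w = u},
        XD (algebraMap (𝓞 K) (𝓞 F) D) w.1 s = XD D u s := by
      have : ∀ w : {w : HeightOneSpectrum (𝓞 F) // und w = u},
          XD (algebraMap (𝓞 K) (𝓞 F) D) w.1 s = XD D u s := by
        intro w
        have h1 := (hcard w.1 w.2).1
        have h2 := hup2 w.1 w.2 1 (by rw [pow_one]; exact h1)
        rw [pow_one] at h2
        rw [XD_val ι hα hDu hc, XD_val (up ι F) h2 ((hup w.1 w.2 D).not.2 hDu)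
          (Sy_up1 ι w.2 h1 hc)]
        congr 1
      rw [Finset.prod_congr rfl fun w _ => this w, Finset.prod_const, Finset.card_univ, hone,
        pow_one]
    rw [hL]
    have h0 : ∀ j : ZMod 3, j ≠ 0 → XD (D * μ ^ j.val) u s = 1 := by
      intro j hj
      have hcn := Cnd_mul_pow hD hμ hDμ j
      have hj0 : j.val ≠ 0 := by
        intro h8
        exact hj ((ZMod.val_eq_zero j).1 h8)
      refine XD_bad (bad_D hcn.1 (hcn.2 u ?_) h3) s
      exact Ideal.mul_mem_left _ _ (Ideal.pow_mem_of_mem _ hμu _ (Nat.pos_of_ne_zero hj0))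
    rw [Finset.prod_eq_single (0 : ZMod 3) (fun j _ hj => h0 j hj) (by simp)]
    have v0 : (0 : ZMod 3).val = 0 := rfl
    rw [v0, pow_zero, mul_one]
  obtain ⟨d, hd⟩ := Sy.exists (root_of ι) h3 hμu
  have htw : ∀ j : ZMod 3, XD (D * μ ^ j.val) u s = Ph α (c + j * d).val (nm u) s := by
    intro j
    refine XD_val ι hα ?_ ?_ s
    · intro hm
      rcases u.isPrime.mem_or_mem hm with h4 | h4
      · exact hDu h4
      · exact hμu (u.isPrime.mem_of_pow_mem _ h4)
    · have h5 := Sy.mul (root_of ι) hc (Sy.pow (root_of ι) hd j.val)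
      rwa [ZMod.natCast_zmod_val] at h5
  by_cases hd0 : d = 0
  · -- three places
    subst hd0
    obtain ⟨k1, k2⟩ := split0 h h3 hμu hd
    have : ∀ w : {w : HeightOneSpectrum (𝓞 F) // und w = u},
        XD (algebraMap (𝓞 K) (𝓞 F) D) w.1 s = Ph α c.val (nm u) s := by
      intro w
      have h1 := k1 w.1 w.2
      have h2 := hup2 w.1 w.2 1 h1
      rw [pow_one] at h1 h2
      rw [XD_val (up ι F) h2 ((hup w.1 w.2 D).not.2 hDu) (Sy_up1 ι w.2 h1 hc)]
      congr 1
    rw [Finset.prod_congr rfl fun w _ => this w, Finset.prod_const, Finset.card_univ, k2,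
      Finset.prod_congr rfl fun j _ => htw j]
    simp only [mul_zero, add_zero, Finset.prod_const, Finset.card_univ, ZMod.card]
  · -- one place
    obtain ⟨k1, k2⟩ := split1 h h3 hμu hd0 hd
    have hqpos : 0 < nm u := by
      have := two_le_nm u
      omega
    have : ∀ w : {w : HeightOneSpectrum (𝓞 F) // und w = u},
        XD (algebraMap (𝓞 K) (𝓞 F) D) w.1 s = Ph (α ^ 3) 0 ((nm u) ^ 3) s := by
      intro w
      have h1 := k1 w.1 w.2
      have h2 := hup2 w.1 w.2 3 h1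
      rw [XD_val (up ι F) h2 ((hup w.1 w.2 D).not.2 hDu) (Sy_up3 ι h3 w.2 h1 hc)]
      have v0 : (0 : ZMod 3).val = 0 := rfl
      rw [v0]
      congr 1
    rw [Finset.prod_congr rfl fun w _ => this w, Finset.prod_const, Finset.card_univ, k2, pow_one,
      Finset.prod_congr rfl fun j _ => htw j, ← Ph_prod hα.1 s hqpos]
    have hbij : Function.Bijective fun j : ZMod 3 => c + j * d := by
      rw [← Finite.injective_iff_bijective]
      intro a b hab
      have h5 : c + a * d = c + b * d := hab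
      exact mul_right_cancel₀ hd0 (add_left_cancel h5)
    exact (hbij.prod_comp (fun i : ZMod 3 => Ph α i.val (nm u) s)).symm

/-- **the L-function in a cubic layer** -/
theorem L_layer (h : Cb (ι omr) μ θ) (hC : C3 K) {D : 𝓞 K} (hD : Cnd D) (hμ : Cnd μ)
    (hD3 : Cop D 3) (hμ3 : Cop μ 3) (hDμ : Cop D μ) {s : ℂ} (hs : 3 / 2 < s.re) :
    LSeriesSummable ((fun n : ℤ => (n : ℂ)) ∘
      (ED ((algebraMap (𝓞 K) (𝓞 F) D : 𝓞 F) : F)).LFunction) s ∧
    (ED ((algebraMap (𝓞 K) (𝓞 F) D : 𝓞 F) : F)).LSeries s =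
      ∏ j : ZMod 3, (ED ((D * μ ^ j.val : 𝓞 K) : K)).LSeries s := by
  have hCF : C3 F := C3_up h hC
  have hDF : Cnd (algebraMap (𝓞 K) (𝓞 F) D) := Cnd_up h hD fun u hu => ⟨hD3 u hu, hDμ u hu⟩
  have hDF3 : Cop (algebraMap (𝓞 K) (𝓞 F) D) 3 := by
    intro w hw h3w
    rw [← map_ofNat (algebraMap (𝓞 K) (𝓞 F)) 3] at h3w
    rw [← mem_und] at hw h3w
    exact hD3 _ hw h3w
  have h1 := LSeries_hasProd' (ED ((algebraMap (𝓞 K) (𝓞 F) D : 𝓞 F) : F))
    (hasse_all (up ι F) hCF hDF hDF3) hs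
  refine ⟨h1.1, ?_⟩
  have h2 : HasProd (fun v : HeightOneSpectrum (𝓞 F) => XD (algebraMap (𝓞 K) (𝓞 F) D) v s)
      ((ED ((algebraMap (𝓞 K) (𝓞 F) D : 𝓞 F) : F)).LSeries s) := h1.2
  have h3 := (Equiv.sigmaFiberEquiv (und (F := K) (K := F))).hasProd_iff.2 h2
  have h4 : HasProd (fun P : HeightOneSpectrum (𝓞 K) =>
      ∏ v : {v : HeightOneSpectrum (𝓞 F) // und v = P}, XD (algebraMap (𝓞 K) (𝓞 F) D) v.1 s)
      ((ED ((algebraMap (𝓞 K) (𝓞 F) D : 𝓞 F) : F)).LSeries s) := by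
    refine h3.sigma fun P => ?_
    exact hasProd_fintype _ (.unconditional _)
  have h5 : ∀ j : ZMod 3, HasProd (fun v : HeightOneSpectrum (𝓞 K) => XD (D * μ ^ j.val) v s)
      ((ED ((D * μ ^ j.val : 𝓞 K) : K)).LSeries s) := by
    intro j
    exact (LSeries_hasProd' _ (hasse_all ι hC (Cnd_mul_pow hD hμ hDμ j)
      (Cop_mul_pow hD3 hμ3 _)) hs).2
  have h6 := hasProd_prod (s := (Finset.univ : Finset (ZMod 3))) (fun j _ => h5 j)
  refine h4.unique (h6.congr_fun fun P => ?_)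
  exact fibre ι h hC hD hμ hD3 hμ3 hDμ P s

end layer

end Pool.Agent.H91.Tw
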