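import Mathlib
import Pool.Graph.R_seed8.Y710.CTE.MwfA

/-!
# Towers, part 5: the curve `y² + d y = x³` over a field with a primitive cube root of unity: the
# automorphism of order three, and the points over a cubic extension (adapted from the library, where
# `d = 1`)
-/

set_option autoImplicit false
set_option linter.unusedSectionVars false
set_option linter.unusedVariables false

namespace Pool.Agent.H91.Tw.El

open WeierstrassCurve

open scoped Classical

variable {F : Type*} [Field F]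

/-- the curve `y² + d y = x³` -/
structure IsE (d : F) (V : WeierstrassCurve F) : Prop where
  h1 : V.a₁ = 0
  h2 : V.a₂ = 0
  h3 : V.a₃ = d
  h4 : V.a₄ = 0
  h6 : V.a₆ = 0
  hd : d ≠ 0

variable {d : F} {V : WeierstrassCurve F} (hV : IsE d V)

include hV

lemma IsE.eqn (x y : F) : V.toAffine.Equation x y ↔ y ^ 2 + d * y = x ^ 3 := by
  rw [Affine.equation_iff]
  show y ^ 2 + V.a₁ * x * y + V.a₃ * y = x ^ 3 + V.a₂ * x ^ 2 + V.a₄ * x + V.a₆ ↔ _
  rw [hV.h1, hV.h2, hV.h3, hV.h4, hV.h6]
  constructor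
  · intro h; linear_combination h
  · intro h; linear_combination h

lemma IsE.negY (x y : F) : V.toAffine.negY x y = -y - d := by
  show -y - V.a₁ * x - V.a₃ = -y - d
  rw [hV.h1, hV.h3]
  ring

variable [CharZero F]

lemma IsE.nons {x y : F} (he : y ^ 2 + d * y = x ^ 3) : V.toAffine.Nonsingular x y := by
  rw [Affine.nonsingular_iff]
  refine ⟨(hV.eqn x y).2 he, ?_⟩
  by_cases hy : 2 * y + d = 0
  · left
    show V.a₁ * y ≠ 3 * x ^ 2 + 2 * V.a₂ * x + V.a₄
    rw [hV.h1, hV.h2, hV.h4]
    intro h3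
    have h4 : x ^ 2 = 0 := by
      have h5 : (3 : F) * x ^ 2 = 0 := by linear_combination -h3
      exact (mul_eq_zero.1 h5).resolve_left three_ne_zero
    have hx : x = 0 := pow_eq_zero_iff two_ne_zero |>.1 h4
    subst hx
    have h5 : d ^ 2 = 0 := by linear_combination -4 * he + (2 * y + d) * hy
    exact hV.hd (pow_eq_zero_iff two_ne_zero |>.1 h5)
  · right
    show y ≠ -y - V.a₁ * x - V.a₃
    rw [hV.h1, hV.h3]
    intro h5
    apply hy
    linear_combination h5

/-- the addition law -/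
lemma IsE.add_ex {x1 y1 x2 y2 : F} (h1 : V.toAffine.Nonsingular x1 y1)
    (h2 : V.toAffine.Nonsingular x2 y2) (hxy : ¬ (x1 = x2 ∧ y1 = -y2 - d)) :
    ∃ (ℓ X Y : F) (h : V.toAffine.Nonsingular X Y),
      (Affine.Point.some x1 y1 h1 : V.toAffine.Point) + .some x2 y2 h2 = .some X Y h ∧
      X = ℓ ^ 2 - x1 - x2 ∧ Y = -(ℓ * (X - x1) + y1) - d ∧
      ((x1 ≠ x2 ∧ ℓ * (x1 - x2) = y1 - y2) ∨
        (x1 = x2 ∧ y1 = y2 ∧ 2 * y1 + d ≠ 0 ∧ ℓ * (2 * y1 + d) = 3 * x1 ^ 2)) := by
  have hxy' : ¬ (x1 = x2 ∧ y1 = V.toAffine.negY x2 y2) := by rwa [hV.negY]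
  refine ⟨V.toAffine.slope x1 x2 y1 y2, _, _, _, Affine.Point.add_some hxy', ?_, ?_, ?_⟩
  · show _ ^ 2 + V.a₁ * _ - V.a₂ - x1 - x2 = _
    rw [hV.h1, hV.h2]
    ring
  · show -(_ * (_ ^ 2 + V.a₁ * _ - V.a₂ - x1 - x2 - x1) + y1) - V.a₁ * _ - V.a₃ =
      -(_ * ((_ ^ 2 + V.a₁ * _ - V.a₂ - x1 - x2) - x1) + y1) - d
    rw [hV.h1, hV.h3]
    ring
  · by_cases hx : x1 = x2
    · right
      subst hx
      have hy : y1 ≠ -y2 - d := fun h => hxy ⟨rfl, h⟩
      have e1 := (hV.eqn _ _).1 h1.1
      have e2 := (hV.eqn _ _).1 h2.1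
      have e3 : (y1 - y2) * (y1 + y2 + d) = 0 := by linear_combination e1 - e2
      have e4 : y1 + y2 + d ≠ 0 := fun h => hy (by linear_combination h)
      have e5 : y1 = y2 := by
        have := (mul_eq_zero.1 e3).resolve_right e4
        linear_combination this
      subst e5
      have e6 : 2 * y1 + d ≠ 0 := by
        intro h
        apply e4
        linear_combination h
      refine ⟨rfl, rfl, e6, ?_⟩
      have hY : y1 ≠ V.toAffine.negY x1 y1 := by rwa [hV.negY]
      rw [Affine.slope_of_Y_ne rfl hY, hV.negY]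
      show (3 * x1 ^ 2 + 2 * V.a₂ * x1 + V.a₄ - V.a₁ * y1) / (y1 - (-y1 - d)) * (2 * y1 + d) = _
      rw [hV.h1, hV.h2, hV.h4]
      have e7 : y1 - (-y1 - d) ≠ 0 := by
        intro h
        apply e4
        linear_combination h
      rw [div_mul_eq_mul_div, div_eq_iff e7]
      ring
    · left
      refine ⟨hx, ?_⟩
      rw [Affine.slope_of_X_ne hx, div_mul_cancel₀ _ (sub_ne_zero.2 hx)]

/-- opposite points -/
lemma IsE.add_opp {x1 y1 x2 y2 : F} (h1 : V.toAffine.Nonsingular x1 y1)
    (h2 : V.toAffine.Nonsingular x2 y2) (hxy : x1 = x2 ∧ y1 = -y2 - d) :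
    (Affine.Point.some x1 y1 h1 : V.toAffine.Point) + .some x2 y2 h2 = 0 :=
  Affine.Point.add_of_Y_eq hxy.1 (by rw [hV.negY]; exact hxy.2)

lemma IsE.neg_nons {x y : F} (h : V.toAffine.Nonsingular x y) :
    V.toAffine.Nonsingular x (-y - d) := by
  apply hV.nons
  have := (hV.eqn _ _).1 h.1
  linear_combination this

lemma IsE.neg_eq {x y : F} (h : V.toAffine.Nonsingular x y)
    (h' : V.toAffine.Nonsingular x (-y - d)) :
    -(Affine.Point.some x y h : V.toAffine.Point) = .some x (-y - d) h' := by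
  rw [Affine.Point.neg_some]
  congr 1
  exact hV.negY x y

variable {I : F} (hI : I ^ 2 + I + 1 = 0)

include hI

lemma I_cube : I ^ 3 = 1 := by linear_combination (I - 1) * hI

lemma I_ne : I ≠ 0 := by
  rintro rfl
  have : (1 : F) = 0 := by linear_combination hI
  exact one_ne_zero this

lemma one_sub_ne : 1 - I ≠ 0 := by
  intro h
  have h3 : (3 : F) = 0 := by linear_combination hI + (I + 2) * h
  exact three_ne_zero h3

lemma IsE.im_nons {x y : F} (h : V.toAffine.Nonsingular x y) :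
    V.toAffine.Nonsingular (I * x) y := by
  apply hV.nons
  have := (hV.eqn _ _).1 h.1
  have h3 := I_cube hV hI
  rw [mul_pow, h3, one_mul]
  exact this

/-- multiplication by the root of unity, as a map -/
def imf : V.toAffine.Point → V.toAffine.Point
  | 0 => 0
  | .some x y h => .some (I * x) y (hV.im_nons hI h)

lemma imf_some {x y : F} (h : V.toAffine.Nonsingular x y) :
    imf hV hI (.some x y h) = .some (I * x) y (hV.im_nons hI h) := rfl

lemma imf_add (P Q : V.toAffine.Point) :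
    imf hV hI (P + Q) = imf hV hI P + imf hV hI Q := by
  have hI0 := I_ne hV hI
  have hI3 := I_cube hV hI
  rcases P with _ | ⟨x1, y1, h1⟩
  · show imf hV hI (0 + Q) = 0 + _
    rw [zero_add, zero_add]
  rcases Q with _ | ⟨x2, y2, h2⟩
  · show imf hV hI (_ + 0) = _ + 0
    rw [add_zero, add_zero]
  by_cases hxy : x1 = x2 ∧ y1 = -y2 - d
  · rw [hV.add_opp h1 h2 hxy, imf_some, imf_some, hV.add_opp]
    · rfl
    · rw [hxy.1, hxy.2]
      exact ⟨rfl, rfl⟩
  · obtain ⟨ℓ, X, Y, h, e, eX, eY, hs⟩ := hV.add_ex h1 h2 hxy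
    have hxy' : ¬ (I * x1 = I * x2 ∧ y1 = -y2 - d) := by
      rintro ⟨h3, h4⟩
      exact hxy ⟨mul_left_cancel₀ hI0 h3, h4⟩
    obtain ⟨m, X', Y', h', e', eX', eY', hs'⟩ :=
      hV.add_ex (hV.im_nons hI h1) (hV.im_nons hI h2) hxy'
    have hm : m = I ^ 2 * ℓ := by
      rcases hs with ⟨g1, g2⟩ | ⟨g1, g2, g3, g4⟩
      · rcases hs' with ⟨g1', g2'⟩ | ⟨g1', -⟩
        · have h3 : (x1 - x2) * I ≠ 0 := mul_ne_zero (sub_ne_zero.2 g1) hI0
          apply mul_right_cancel₀ h3
          linear_combination g2' - g2 - ℓ * (x1 - x2) * hI3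
        · exact absurd (mul_left_cancel₀ hI0 g1') g1
      · rcases hs' with ⟨g1', -⟩ | ⟨g1', g2', g3', g4'⟩
        · exact absurd (by rw [g1]) g1'
        · apply mul_right_cancel₀ g3
          linear_combination g4' - I ^ 2 * g4
    rw [e, imf_some, imf_some, imf_some, e']
    have hX : I * X = X' := by
      rw [eX, eX', hm]
      linear_combination (-ℓ ^ 2 * I) * hI3
    have hY : Y = Y' := by
      rw [eY, eY', ← hX, hm]
      linear_combination (ℓ * (X - x1)) * hI3
    rw [Affine.Point.some.injEq]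
    exact ⟨hX, hY⟩

/-- multiplication by the root of unity -/
def im : V.toAffine.Point →+ V.toAffine.Point where
  toFun := imf hV hI
  map_zero' := rfl
  map_add' := imf_add hV hI

lemma im_some {x y : F} (h : V.toAffine.Nonsingular x y) :
    im hV hI (.some x y h) = .some (I * x) y (hV.im_nons hI h) := rfl

omit hI in
lemma T0_nons : V.toAffine.Nonsingular 0 0 := hV.nons (by ring)

omit hI in
/-- the point `(0, 0)` -/
def T0 : V.toAffine.Point := .some 0 0 (T0_nons hV)

omit hI in
lemma T0_neg : ∃ h : V.toAffine.Nonsingular 0 (-d), -T0 hV = .some 0 (-d) h := by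
  have h : V.toAffine.Nonsingular 0 (-0 - d) := hV.neg_nons (T0_nons hV)
  have e := hV.neg_eq (T0_nons hV) h
  have h' : V.toAffine.Nonsingular 0 (-d) := hV.nons (by ring)
  refine ⟨h', ?_⟩
  unfold T0
  rw [e, Affine.Point.some.injEq]
  exact ⟨rfl, by ring⟩

/-- the kernel of `1 - ω` -/
lemma ker_im {P : V.toAffine.Point} (h : P - im hV hI P = 0) :
    P = 0 ∨ P = T0 hV ∨ P = -T0 hV := by
  rcases P with _ | ⟨x, y, hn⟩
  · left
    rfl
  · right
    have h1 := sub_eq_zero.1 h
    rw [im_some, Affine.Point.some.injEq] at h1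
    have h2 : (1 - I) * x = 0 := by linear_combination h1.1
    have hx : x = 0 := (mul_eq_zero.1 h2).resolve_left (one_sub_ne hV hI)
    subst hx
    have h3 := (hV.eqn _ _).1 hn.1
    have hy : y * (y + d) = 0 := by linear_combination h3
    rcases mul_eq_zero.1 hy with hy | hy
    · left
      subst hy
      rfl
    · right
      obtain ⟨h', e⟩ := T0_neg hV
      rw [e, Affine.Point.some.injEq]
      exact ⟨rfl, by linear_combination hy⟩

/-- the sum of the conjugates -/
lemma im_im (P : V.toAffine.Point) : im hV hI (im hV hI P) = -P - im hV hI P := by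
  have hI0 := I_ne hV hI
  have hI3 := I_cube hV hI
  have h1I := one_sub_ne hV hI
  rcases P with _ | ⟨x, y, h⟩
  · show im hV hI (im hV hI 0) = -0 - im hV hI 0
    rw [map_zero, map_zero, neg_zero, sub_zero]
  have he := (hV.eqn _ _).1 h.1
  have key : (Affine.Point.some x y h : V.toAffine.Point) + im hV hI (.some x y h) =
      -(im hV hI (im hV hI (.some x y h))) := by
    rw [im_some, im_some, hV.neg_eq _ (hV.neg_nons (hV.im_nons hI (hV.im_nons hI h)))]
    by_cases hx : x = 0
    · subst hx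
      have hy : y * (y + d) = 0 := by linear_combination he
      have hxy : ¬ ((0 : F) = I * 0 ∧ y = -y - d) := by
        rintro ⟨-, h3⟩
        have h4 : d ^ 2 = 0 := by linear_combination -4 * hy + (2 * y + d) * h3
        exact hV.hd (pow_eq_zero_iff two_ne_zero |>.1 h4)
      obtain ⟨ℓ, X, Y, h', e, eX, eY, hs⟩ := hV.add_ex h (hV.im_nons hI h) hxy
      rw [e, Affine.Point.some.injEq]
      have hℓ : ℓ = 0 := by
        rcases hs with ⟨k1, -⟩ | ⟨-, -, k2, k3⟩
        · exact absurd (by ring) k1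
        · have h5 : ℓ * (2 * y + d) = 0 := by rw [k3]; ring
          exact (mul_eq_zero.1 h5).resolve_right k2
      rw [eY, eX, hℓ]
      exact ⟨by ring, by ring⟩
    · have hxI : x ≠ I * x := by
        intro h3
        have h4 : (1 - I) * x = 0 := by linear_combination h3
        exact mul_ne_zero h1I hx h4
      have hxy : ¬ (x = I * x ∧ y = -y - d) := fun h => hxI h.1
      obtain ⟨ℓ, X, Y, h', e, eX, eY, hs⟩ := hV.add_ex h (hV.im_nons hI h) hxy
      rw [e, Affine.Point.some.injEq]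
      have hℓ : ℓ = 0 := by
        rcases hs with ⟨-, k1⟩ | ⟨k1, -⟩
        · have h5 : ℓ * (x - I * x) = 0 := by rw [k1]; ring
          exact (mul_eq_zero.1 h5).resolve_right (sub_ne_zero.2 hxI)
        · exact absurd k1 hxI
      rw [eY, eX, hℓ]
      exact ⟨by linear_combination (-x) * hI, by ring⟩
  have h2 := congrArg (fun Q => -Q) key
  simp only [neg_neg] at h2
  rw [← h2]
  abel

end Pool.Agent.H91.Tw.El

namespace Pool.Agent.H91.Tw

open WeierstrassCurve Module Pool.Agent.H91.Tw.El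
open Pool.Agent.Y710.CTE (Ed Ed_nons fin_of fin_group kummer)
open scoped Classical Pointwise

variable {K F : Type} [Field K] [Field F] [CharZero K] [CharZero F] [Algebra K F]

/-- the points over a cubic extension -/
theorem fin_points (h3 : finrank K F = 3) (I : K)
    (hI : I ^ 2 + I + 1 = 0) (a : K) (ha : a ≠ 0) (t : F) (ht : t ^ 3 = algebraMap K F a)
    (hnc : ∀ b : K, b ^ 3 ≠ a) (d : K) (hd : d ≠ 0) (f0 : Finite (Ed d).toAffine.Point)
    (f1 : Finite (Ed (d * a)).toAffine.Point) (f2 : Finite (Ed (d * a ^ 2)).toAffine.Point) :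
    Finite (Ed (algebraMap K F d)).toAffine.Point := by
  obtain ⟨hbas, hind, σ, hσ⟩ := kummer h3 I hI a t ht hnc
  obtain ⟨J, hJ⟩ : ∃ J : F, J = algebraMap K F I := ⟨_, rfl⟩
  have hJ2 : J ^ 2 + J + 1 = 0 := by
    rw [hJ, ← map_pow, ← map_one (algebraMap K F), ← map_add, ← map_add, hI, map_zero]
  rw [← hJ] at hσ
  have hσJ : σ J = J := by rw [hJ]; exact σ.commutes I
  have hJ3 : J ^ 3 = 1 := by linear_combination (J - 1) * hJ2
  have hI3 : I ^ 3 = 1 := by linear_combination (I - 1) * hI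
  have haF : algebraMap K F a ≠ 0 := (map_ne_zero _).2 ha
  have hdF : algebraMap K F d ≠ 0 := (map_ne_zero _).2 hd
  have ht0 : t ≠ 0 := by
    intro h
    rw [h, zero_pow (by norm_num)] at ht
    exact haF ht.symm
  have hI1 : I - 1 ≠ 0 := by
    intro h
    have h3 : (3 : K) = 0 := by linear_combination hI - (I + 2) * h
    exact three_ne_zero h3
  have hI0 : I ≠ 0 := by
    intro h
    rw [h] at hI
    norm_num at hI
  -- the curve as a base change
  set V : WeierstrassCurve F := Affine.baseChange (Ed d).toAffine F with hV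
  have hVE : V = Ed (algebraMap K F d) := by
    rw [hV]
    ext <;> simp [Ed, Affine.baseChange, Affine.map, WeierstrassCurve.map]
  have hisE : IsE (algebraMap K F d) V := by
    rw [hVE]
    exact ⟨rfl, rfl, rfl, rfl, rfl, hdF⟩
  rw [← hVE]
  let s : V.toAffine.Point →+ V.toAffine.Point := Affine.Point.map (W' := (Ed d).toAffine) σ
  let A : V.toAffine.Point →+ V.toAffine.Point := im hisE hJ2
  have hs_some : ∀ x y (h : V.toAffine.Nonsingular x y), ∃ h' : V.toAffine.Nonsingular (σ x) (σ y),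
      s (.some x y h) = .some (σ x) (σ y) h' := fun x y h => ⟨_, rfl⟩
  have hA_some : ∀ x y (h : V.toAffine.Nonsingular x y), ∃ h' : V.toAffine.Nonsingular (J * x) y,
      A (.some x y h) = .some (J * x) y h' := fun x y h => ⟨_, rfl⟩
  have hσ3 : ∀ x, σ (σ (σ x)) = x := by
    have e1 : σ (σ (σ t)) = t := by
      rw [hσ, map_mul, hσJ, hσ, map_mul, map_mul, hσJ, hσ]
      linear_combination t * hJ3
    intro x
    obtain ⟨b0, b1, b2, rfl⟩ := hbas x
    simp only [map_add, map_mul, map_pow, AlgHom.commutes, e1]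
  -- the eigenspaces
  have eig0 : ∀ x, σ x = x → ∃ b : K, x = algebraMap K F b := by
    intro x hx
    obtain ⟨b0, b1, b2, rfl⟩ := hbas x
    simp only [map_add, map_mul, map_pow, AlgHom.commutes, hσ] at hx
    have h := hind 0 (b1 * (I - 1)) (b2 * (I ^ 2 - 1)) (by
      simp only [map_zero, map_mul, map_sub, map_pow, map_one, ← hJ]
      linear_combination hx)
    have e1 : b1 = 0 := (mul_eq_zero.1 h.2.1).resolve_right hI1
    have e2 : b2 = 0 := by
      refine (mul_eq_zero.1 h.2.2).resolve_right ?_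
      intro h5
      apply hI1
      linear_combination hI3 - I * h5
    refine ⟨b0, ?_⟩
    rw [e1, e2]
    simp
  have eig1 : ∀ x, σ x = J * x → ∃ b : K, x = algebraMap K F b * t := by
    intro x hx
    have h1 : σ (x * t ^ 2) = x * t ^ 2 := by
      rw [map_mul, map_pow, hx, hσ]
      linear_combination x * t ^ 2 * hJ3
    obtain ⟨b, hb⟩ := eig0 _ h1
    refine ⟨b / a, ?_⟩
    rw [map_div₀, ← hb, ← ht]
    field_simp
  have eig2 : ∀ x, σ x = J * (J * x) → ∃ b : K, x = algebraMap K F b * t ^ 2 := by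
    intro x hx
    have h1 : σ (x * t) = x * t := by
      rw [map_mul, hx, hσ]
      linear_combination x * t * hJ3
    obtain ⟨b, hb⟩ := eig0 _ h1
    refine ⟨b / a, ?_⟩
    rw [map_div₀, ← hb, ← ht]
    field_simp
  have heq : ∀ x y, V.toAffine.Nonsingular x y → y ^ 2 + algebraMap K F d * y = x ^ 3 :=
    fun x y h => (hisE.eqn x y).1 h.1
  have hinjK : Function.Injective (algebraMap K F) := (algebraMap K F).injective
  refine fin_group A s (im_im hisE hJ2) ?_ ?_ ?_ ?_ ?_ ?_
  · rintro (_ | ⟨x, y, h⟩)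
    · rfl
    · obtain ⟨h1, e1⟩ := hs_some x y h
      obtain ⟨h2, e2⟩ := hs_some _ _ h1
      obtain ⟨h3, e3⟩ := hs_some _ _ h2
      rw [e1, e2, e3, Affine.Point.some.injEq]
      exact ⟨hσ3 x, hσ3 y⟩
  · rintro (_ | ⟨x, y, h⟩)
    · rfl
    · obtain ⟨h1, e1⟩ := hs_some x y h
      obtain ⟨h2, e2⟩ := hA_some x y h
      obtain ⟨h3, e3⟩ := hs_some _ _ h2
      obtain ⟨h4, e4⟩ := hA_some _ _ h1
      rw [e2, e3, e1, e4, Affine.Point.some.injEq]
      refine ⟨?_, rfl⟩
      rw [map_mul, hσJ]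
  · refine Set.Finite.subset (s := {0, T0 hisE, -T0 hisE}) (by simp) ?_
    intro P hP
    have := ker_im hisE hJ2 (P := P) hP
    simpa using this
  · refine fin_of hd f0 1 1 _ ?_
    intro x y hn hP
    obtain ⟨h1, e1⟩ := hs_some x y hn
    have hP' : s (.some x y hn) = .some x y hn := hP
    rw [e1, Affine.Point.some.injEq] at hP'
    obtain ⟨X, hX⟩ := eig0 x hP'.1
    obtain ⟨Y, hY⟩ := eig0 y hP'.2
    refine ⟨X, Y, ?_, by rw [mul_one, hX], by rw [mul_one, hY]⟩
    apply hinjK
    rw [map_add, map_pow, map_pow, map_mul, ← hX, ← hY]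
    exact heq x y hn
  · refine fin_of (mul_ne_zero hd ha) f1 (t / algebraMap K F a) (1 / algebraMap K F a) _ ?_
    intro x y hn hP
    obtain ⟨h1, e1⟩ := hs_some x y hn
    obtain ⟨h2, e2⟩ := hA_some x y hn
    have hP' : s (.some x y hn) = A (.some x y hn) := hP
    rw [e1, e2, Affine.Point.some.injEq] at hP'
    obtain ⟨X, hX⟩ := eig1 x hP'.1
    obtain ⟨Y, hY⟩ := eig0 y hP'.2
    refine ⟨X * a, Y * a, ?_, ?_, ?_⟩
    · have h5 := heq x y hn
      apply hinjK
      simp only [map_add, map_pow, map_mul]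
      rw [hX, hY] at h5
      linear_combination (algebraMap K F a) ^ 2 * h5 +
        (algebraMap K F X) ^ 3 * (algebraMap K F a) ^ 2 * ht
    · rw [hX, map_mul]
      field_simp
    · rw [hY, map_mul]
      field_simp
  · refine fin_of (mul_ne_zero hd (pow_ne_zero 2 ha)) f2 (t ^ 2 / algebraMap K F a ^ 2)
      (1 / algebraMap K F a ^ 2) _ ?_
    intro x y hn hP
    obtain ⟨h1, e1⟩ := hs_some x y hn
    obtain ⟨h2, e2⟩ := hA_some x y hn
    obtain ⟨h3, e3⟩ := hA_some _ _ h2
    have hP' : s (.some x y hn) = A (A (.some x y hn)) := hP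
    rw [e1, e2, e3, Affine.Point.some.injEq] at hP'
    obtain ⟨X, hX⟩ := eig2 x hP'.1
    obtain ⟨Y, hY⟩ := eig0 y hP'.2
    refine ⟨X * a ^ 2, Y * a ^ 2, ?_, ?_, ?_⟩
    · have h5 := heq x y hn
      apply hinjK
      simp only [map_add, map_pow, map_mul]
      rw [hX, hY] at h5
      linear_combination (algebraMap K F a) ^ 4 * h5 +
        (algebraMap K F X) ^ 3 * (algebraMap K F a) ^ 4 * (t ^ 3 + algebraMap K F a) * ht
    · rw [hX, map_mul, map_pow]
      field_simp
    · rw [hY, map_mul, map_pow]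
      field_simp

end Pool.Agent.H91.Tw
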