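import Pool.Agent.H91.Tw4
import Pool.Agent.H91.Tw5

/-!
# Towers, part 6: the fields `K(∛μ_0, …, ∛μ_k)`
-/

set_option autoImplicit false
set_option linter.unusedSectionVars false
set_option linter.unusedVariables false
set_option linter.deprecated false

open scoped Classical IntermediateField

namespace Pool.Agent.H91.Tw

open NumberField IsDedekindDomain Polynomial
open WeierstrassCurve hiding IsIntegral
open Pool.Agent.H921R2.TatePole (nm two_le_nm)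
open Pool.Agent.W192.HK
open Pool.Agent.Y696
open Pool.Agent.Y696.CTK
open Pool.Agent.Y710.CTE (Ed)

/-- the conditions -/
structure TC {K : Type} [Field K] [NumberField K] (D : 𝓞 K) (k : ℕ) (μ : Fin k → 𝓞 K) : Prop where
  c3 : C3 K
  cD : Cnd D
  D3 : Cop D 3
  cμ : ∀ i, Cnd (μ i)
  μ3 : ∀ i, Cop (μ i) 3
  nu : ∀ i, ¬ IsUnit (μ i)
  Dμ : ∀ i, Cop D (μ i)
  μμ : ∀ i j, i ≠ j → Cop (μ i) (μ j)

section

variable {K : Type} [Field K] [NumberField K]

lemma exists_prime_of {x : 𝓞 K} (hx : ¬ IsUnit x) (h0 : x ≠ 0) :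
    ∃ u : HeightOneSpectrum (𝓞 K), x ∈ u.asIdeal := by
  obtain ⟨M, hM, hxM⟩ := exists_max_ideal_of_mem_nonunits (mem_nonunits_iff.2 hx)
  refine ⟨⟨M, hM.isPrime, ?_⟩, hxM⟩
  rintro rfl
  exact h0 ((Submodule.mem_bot _).1 hxM)

lemma ncube_of {x : 𝓞 K} (hc : Cnd x) (hx : ¬ IsUnit x) (y : 𝓞 K) : y ^ 3 ≠ x := by
  rintro rfl
  obtain ⟨u, hu⟩ := exists_prime_of hx hc.1
  have hy0 : y ≠ 0 := by
    rintro rfl
    exact hc.1 (by norm_num)
  obtain ⟨n, hn⟩ := exp_of_ne (v := u) hy0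
  apply hc.2 u hu (-n)
  rw [map_pow, hn, ← WithZero.exp_nsmul]
  simp

lemma ncubeK {μ : 𝓞 K} (h : ∀ y : 𝓞 K, y ^ 3 ≠ μ) (b : K) : b ^ 3 ≠ (μ : K) := by
  intro hb
  have h1 : IsIntegral (𝓞 K) (b ^ 3) := by
    rw [hb]
    exact isIntegral_algebraMap
  have h2 : IsIntegral (𝓞 K) b := IsIntegral.of_pow (by norm_num) h1
  obtain ⟨y, hy⟩ := (IsIntegrallyClosed.isIntegral_iff (R := 𝓞 K) (K := K)).1 h2
  apply h y
  apply RingOfIntegers.ext
  rw [← hb, ← hy]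
  simp

lemma Cnd_prod {k : ℕ} {D : 𝓞 K} {μ : Fin k → 𝓞 K} (h : TC D k μ) (b : Fin k → ZMod 3) :
    Cnd (D * ∏ i, μ i ^ (b i).val) ∧ Cop (D * ∏ i, μ i ^ (b i).val) 3 ∧
      ∀ x : 𝓞 K, Cop D x → (∀ i, Cop (μ i) x) → Cop (D * ∏ i, μ i ^ (b i).val) x := by
  have key : ∀ s : Finset (Fin k), Cnd (D * ∏ i ∈ s, μ i ^ (b i).val) ∧
      ∀ x : 𝓞 K, Cop D x → (∀ i ∈ s, Cop (μ i) x) → Cop (D * ∏ i ∈ s, μ i ^ (b i).val) x := by
    intro s
    induction s using Finset.induction_on with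
    | empty =>
      simp only [Finset.prod_empty, mul_one]
      exact ⟨h.cD, fun x hx _ => hx⟩
    | insert a s ha ih =>
      have e : D * ∏ i ∈ insert a s, μ i ^ (b i).val =
          (D * ∏ i ∈ s, μ i ^ (b i).val) * μ a ^ (b a).val := by
        rw [Finset.prod_insert ha]
        ring
      rw [e]
      refine ⟨Cnd_mul_pow ih.1 (h.cμ a) (ih.2 _ (h.Dμ a) ?_) _, ?_⟩
      · intro i hi
        refine h.μμ i a ?_
        rintro rfl
        exact ha hi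
      · intro x hx hi
        exact Cop_mul_pow (ih.2 x hx fun i h' => hi i (Finset.mem_insert_of_mem h'))
          (hi a (Finset.mem_insert_self _ _)) _
  have h1 := key Finset.univ
  exact ⟨h1.1, h1.2 3 h.D3 fun i _ => h.μ3 i, fun x hx hi => h1.2 x hx fun i _ => hi i⟩

end

section layer

variable {K F : Type} [Field K] [NumberField K] [Field F] [NumberField F] [Algebra K F]

lemma Cop_up {x y : 𝓞 K} (h : Cop x y) :
    Cop (algebraMap (𝓞 K) (𝓞 F) x) (algebraMap (𝓞 K) (𝓞 F) y) := by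
  intro w hw hw'
  rw [← mem_und] at hw hw'
  exact h _ hw hw'

lemma nu_up {x : 𝓞 K} (h : ¬ IsUnit x) (h0 : x ≠ 0) :
    ¬ IsUnit (algebraMap (𝓞 K) (𝓞 F) x) := by
  intro hu
  obtain ⟨u, hu'⟩ := exists_prime_of h h0
  obtain ⟨w, hw⟩ := exists_above (F := K) (K := F) u
  have hw' : und w = u := HeightOneSpectrum.ext hw.over.symm
  have h1 : algebraMap (𝓞 K) (𝓞 F) x ∈ w.asIdeal := by
    rw [← mem_und, hw']
    exact hu'
  exact w.isPrime.ne_top (Ideal.eq_top_of_isUnit_mem _ h1 hu)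

end layer

lemma coe_up {K F : Type} [Field K] [NumberField K] [Field F] [NumberField F] [Algebra K F]
    (x : 𝓞 K) : ((algebraMap (𝓞 K) (𝓞 F) x : 𝓞 F) : F) = algebraMap K F (x : K) := rfl

/-- one layer: both statements -/
theorem one_layer {K F : Type} [Field K] [NumberField K] [Field F] [NumberField F] [Algebra K F]
    (ι : eis →+* 𝓞 K) {μ D : 𝓞 K} {θ : 𝓞 F} (hdeg : Module.finrank K F = 3)
    (hθ : θ ^ 3 = algebraMap (𝓞 K) (𝓞 F) μ) (hC : C3 K) (hD : Cnd D) (hμ : Cnd μ)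
    (hu : ¬ IsUnit μ) (hD3 : Cop D 3) (hμ3 : Cop μ 3) (hDμ : Cop D μ) :
    (∀ s : ℂ, 3 / 2 < s.re → LSeriesSummable ((fun n : ℤ => (n : ℂ)) ∘
        (ED ((algebraMap (𝓞 K) (𝓞 F) D : 𝓞 F) : F)).LFunction) s ∧
      (ED ((algebraMap (𝓞 K) (𝓞 F) D : 𝓞 F) : F)).LSeries s =
        ∏ j : ZMod 3, (ED ((D * μ ^ j.val : 𝓞 K) : K)).LSeries s) ∧
    ((∀ j : ZMod 3, Finite (Ed ((D * μ ^ j.val : 𝓞 K) : K)).toAffine.Point) →
      Finite (Ed ((algebraMap (𝓞 K) (𝓞 F) D : 𝓞 F) : F)).toAffine.Point) := by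
  have hCb : Cb (ι omr) μ θ := ⟨hdeg, hθ, root_of ι, hμ.1, ncube_of hμ hu⟩
  refine ⟨fun s hs => L_layer ι hCb hC hD hμ hD3 hμ3 hDμ hs, ?_⟩
  intro hfin
  have hI : ((ι omr : 𝓞 K) : K) ^ 2 + ((ι omr : 𝓞 K) : K) + 1 = 0 := by
    have := congrArg (algebraMap (𝓞 K) K) (root_of ι)
    rw [map_add, map_add, map_pow, map_one, map_zero] at this
    exact this
  have hμ0 : (μ : K) ≠ 0 := fun h => hμ.1 (RingOfIntegers.ext h)
  have hD0 : (D : K) ≠ 0 := fun h => hD.1 (RingOfIntegers.ext h)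
  have ht : (θ : F) ^ 3 = algebraMap K F (μ : K) := by
    have := congrArg (algebraMap (𝓞 F) F) hθ
    rw [map_pow] at this
    exact this
  rw [coe_up]
  have v0 : (0 : ZMod 3).val = 0 := rfl
  have v1 : (1 : ZMod 3).val = 1 := rfl
  have v2 : (2 : ZMod 3).val = 2 := rfl
  refine fin_points hdeg ((ι omr : 𝓞 K) : K) hI (μ : K) hμ0 (θ : F) ht
    (ncubeK (ncube_of hμ hu)) (D : K) hD0 ?_ ?_ ?_
  · have := hfin 0
    rw [v0, pow_zero, mul_one] at this
    exact this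
  · have := hfin 1
    rw [v1, pow_one] at this
    have e : ((D * μ : 𝓞 K) : K) = (D : K) * (μ : K) := map_mul (algebraMap (𝓞 K) K) D μ
    rw [e] at this
    exact this
  · have := hfin 2
    rw [v2] at this
    have e : ((D * μ ^ 2 : 𝓞 K) : K) = (D : K) * (μ : K) ^ 2 := by
      have := map_mul (algebraMap (𝓞 K) K) D (μ ^ 2)
      rw [map_pow] at this
      exact this
    rw [e] at this
    exact this

/-- **the tower** -/
theorem tower (k : ℕ) : ∀ (K F : Type) [Field K] [NumberField K] [Field F] [NumberField F]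
    [Algebra K F] (ι : eis →+* 𝓞 K) (D : 𝓞 K) (μ : Fin (k + 1) → 𝓞 K) (θ : Fin (k + 1) → 𝓞 F)
    (hdeg : Module.finrank K F = 3 ^ (k + 1))
    (hθ : ∀ i, θ i ^ 3 = algebraMap (𝓞 K) (𝓞 F) (μ i)) (h : TC D (k + 1) μ),
    (∀ s : ℂ, 3 / 2 < s.re → LSeriesSummable ((fun n : ℤ => (n : ℂ)) ∘
        (ED ((algebraMap (𝓞 K) (𝓞 F) D : 𝓞 F) : F)).LFunction) s ∧
      (ED ((algebraMap (𝓞 K) (𝓞 F) D : 𝓞 F) : F)).LSeries s =
        ∏ b : Fin (k + 1) → ZMod 3, (ED ((D * ∏ i, μ i ^ (b i).val : 𝓞 K) : K)).LSeries s) ∧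
    ((∀ b : Fin (k + 1) → ZMod 3,
        Finite (Ed ((D * ∏ i, μ i ^ (b i).val : 𝓞 K) : K)).toAffine.Point) →
      Finite (Ed ((algebraMap (𝓞 K) (𝓞 F) D : 𝓞 F) : F)).toAffine.Point) := by
  induction k with
  | zero =>
    intro K F _ _ _ _ _ ι D μ θ hdeg hθ h
    have h1 := one_layer ι (by rw [hdeg]; norm_num) (hθ 0) h.c3 h.cD (h.cμ 0) (h.nu 0) h.D3
      (h.μ3 0) (h.Dμ 0)
    have hb : ∀ b : Fin (0 + 1) → ZMod 3, D * ∏ i, μ i ^ (b i).val = D * μ 0 ^ (b 0).val := by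
      intro b
      congr 1
      exact Fin.prod_univ_one _
    refine ⟨fun s hs => ⟨(h1.1 s hs).1, ?_⟩, fun hfin => h1.2 fun j => ?_⟩
    · rw [(h1.1 s hs).2]
      refine Fintype.prod_equiv (Equiv.funUnique (Fin 1) (ZMod 3)).symm _ _ fun j => ?_
      rw [hb]
      rfl
    · have := hfin (fun _ => j)
      rw [hb] at this
      exact this
  | succ k ih =>
    intro K F _ _ _ _ _ ι D μ θ hdeg hθ h
    set x : F := (θ 0 : F) with hx
    set L : IntermediateField K F := K⟮x⟯ with hL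
    have hNF : NumberField ↥L := NumberField.of_intermediateField L
    have hx3 : x ^ 3 = algebraMap K F (μ 0 : K) := by
      have := congrArg (algebraMap (𝓞 F) F) (hθ 0)
      rw [map_pow] at this
      exact this
    have hirr : Irreducible (X ^ 3 - C ((μ 0 : 𝓞 K) : K)) :=
      X_pow_sub_C_irreducible_of_prime Nat.prime_three (ncubeK (ncube_of (h.cμ 0) (h.nu 0)))
    have hmin : X ^ 3 - C ((μ 0 : 𝓞 K) : K) = minpoly K x := by
      refine minpoly.eq_of_irreducible_of_monic hirr ?_ (monic_X_pow_sub_C _ (by norm_num))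
      simp [hx3]
    have hint : IsIntegral K x := Algebra.IsIntegral.isIntegral x
    have hd1 : Module.finrank K ↥L = 3 := by
      rw [hL, IntermediateField.adjoin.finrank hint, ← hmin]
      exact natDegree_X_pow_sub_C
    have hd2 : Module.finrank ↥L F = 3 ^ (k + 1) := by
      have h1 := Module.finrank_mul_finrank K ↥L F
      rw [hd1, hdeg] at h1
      have h2 : 3 * Module.finrank ↥L F = 3 * 3 ^ (k + 1) := by
        rw [h1]
        ring
      exact Nat.eq_of_mul_eq_mul_left (by norm_num) h2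
    have hxL : x ∈ L := IntermediateField.mem_adjoin_simple_self K x
    have hxint : IsIntegral ℤ (⟨x, hxL⟩ : ↥L) := by
      have h1 : IsIntegral ℤ x := (θ 0).isIntegral_coe
      exact (isIntegral_algebraMap_iff (algebraMap ↥L F).injective).1 h1
    set θ0 : 𝓞 ↥L := ⟨⟨x, hxL⟩, hxint⟩ with hθ0
    have hθ03 : θ0 ^ 3 = algebraMap (𝓞 K) (𝓞 ↥L) (μ 0) := by
      apply RingOfIntegers.ext
      apply (algebraMap ↥L F).injective
      have e1 : ((θ0 ^ 3 : 𝓞 ↥L) : ↥L) = (⟨x, hxL⟩ : ↥L) ^ 3 := by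
        exact map_pow (algebraMap (𝓞 ↥L) ↥L) θ0 3
      rw [e1, map_pow]
      exact hx3
    have hscal : ∀ y : 𝓞 K, algebraMap (𝓞 ↥L) (𝓞 F) (algebraMap (𝓞 K) (𝓞 ↥L) y) =
        algebraMap (𝓞 K) (𝓞 F) y := by
      intro y
      apply RingOfIntegers.ext
      rfl
    have hCb : Cb (ι omr) (μ 0) θ0 :=
      ⟨hd1, hθ03, root_of ι, (h.cμ 0).1, ncube_of (h.cμ 0) (h.nu 0)⟩
    -- the conditions over `L`
    have hnum3 : algebraMap (𝓞 K) (𝓞 ↥L) 3 = 3 := map_ofNat _ 3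
    have hTC : TC (algebraMap (𝓞 K) (𝓞 ↥L) D) (k + 1)
        (fun i => algebraMap (𝓞 K) (𝓞 ↥L) (μ i.succ)) := by
      refine ⟨C3_up hCb h.c3, Cnd_up hCb h.cD fun u hu => ⟨h.D3 u hu, h.Dμ 0 u hu⟩, ?_, ?_, ?_, ?_,
        ?_, ?_⟩
      · have := Cop_up (F := ↥L) h.D3
        rwa [hnum3] at this
      · intro i
        exact Cnd_up hCb (h.cμ _) fun u hu => ⟨h.μ3 _ u hu, h.μμ _ 0 (Fin.succ_ne_zero i) u hu⟩
      · intro i
        have := Cop_up (F := ↥L) (h.μ3 i.succ)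
        rwa [hnum3] at this
      · intro i
        exact nu_up (h.nu _) (h.cμ _).1
      · intro i
        exact Cop_up (h.Dμ _)
      · intro i j hij
        exact Cop_up (h.μμ _ _ fun e => hij (Fin.succ_injective _ e))
    obtain ⟨hA, hB⟩ := ih ↥L F (up ι ↥L) (algebraMap (𝓞 K) (𝓞 ↥L) D)
      (fun i => algebraMap (𝓞 K) (𝓞 ↥L) (μ i.succ)) (fun i => θ i.succ) hd2
      (fun i => by rw [hθ, hscal]) hTC
    rw [hscal] at hA hB
    have hpush : ∀ b : Fin (k + 1) → ZMod 3, algebraMap (𝓞 K) (𝓞 ↥L) D *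
        ∏ i, (algebraMap (𝓞 K) (𝓞 ↥L) (μ i.succ)) ^ (b i).val =
        algebraMap (𝓞 K) (𝓞 ↥L) (D * ∏ i, μ i.succ ^ (b i).val) := by
      intro b
      rw [map_mul, map_prod]
      congr 1
      exact Finset.prod_congr rfl fun i _ => (map_pow _ _ _).symm
    have hTC' : TC D (k + 1) (fun i => μ i.succ) :=
      ⟨h.c3, h.cD, h.D3, fun i => h.cμ _, fun i => h.μ3 _, fun i => h.nu _, fun i => h.Dμ _,
        fun i j hij => h.μμ _ _ fun e => hij (Fin.succ_injective _ e)⟩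
    have hlay := fun b : Fin (k + 1) → ZMod 3 =>
      one_layer (F := ↥L) ι (D := D * ∏ i, μ i.succ ^ (b i).val) hd1 hθ03 h.c3
        (Cnd_prod hTC' b).1 (h.cμ 0) (h.nu 0) (Cnd_prod hTC' b).2.1 (h.μ3 0)
        ((Cnd_prod hTC' b).2.2 _ (h.Dμ 0) fun i => h.μμ _ _ (Fin.succ_ne_zero i))
    have hcons : ∀ (j : ZMod 3) (b : Fin (k + 1) → ZMod 3),
        D * ∏ i, μ i ^ ((Fin.cons j b : Fin (k + 2) → ZMod 3) i).val =
          D * (∏ i, μ i.succ ^ (b i).val) * μ 0 ^ j.val := by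
      intro j b
      rw [Fin.prod_univ_succ]
      simp only [Fin.cons_zero, Fin.cons_succ]
      ring
    refine ⟨fun s hs => ⟨(hA s hs).1, ?_⟩, fun hfin => hB fun b => ?_⟩
    · rw [(hA s hs).2]
      have h1 : ∀ b : Fin (k + 1) → ZMod 3, (ED ((algebraMap (𝓞 K) (𝓞 ↥L) D *
          ∏ i, (algebraMap (𝓞 K) (𝓞 ↥L) (μ i.succ)) ^ (b i).val : 𝓞 ↥L) : ↥L)).LSeries s =
          ∏ j : ZMod 3, (ED ((D * ∏ i, μ i ^
            ((Fin.cons j b : Fin (k + 2) → ZMod 3) i).val : 𝓞 K) : K)).LSeries s := by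
        intro b
        rw [hpush, ((hlay b).1 s hs).2]
        refine Finset.prod_congr rfl fun j _ => ?_
        rw [hcons]
      rw [Finset.prod_congr rfl fun b _ => h1 b, Finset.prod_comm, ← Fintype.prod_prod_type']
      refine Fintype.prod_equiv (Fin.consEquiv fun _ : Fin (k + 2) => ZMod 3) _ _ fun p => ?_
      rfl
    · rw [hpush]
      refine (hlay b).2 fun j => ?_
      have := hfin (Fin.cons j b)
      rw [hcons] at this
      exact this

end Pool.Agent.H91.Tw
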