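import Pool.Agent.H91.Fin2

/-!
# Towers, part 8: the system of the residue symbols for `D ∏ μ_i ^ b_i`
-/

set_option autoImplicit false
set_option linter.unusedVariables false
set_option linter.unusedSectionVars false

open scoped Classical

namespace Pool.Agent.H91.Tw

open NumberField
open Pool.Agent.Y692.QS (Ei w nr)
open Pool.Agent.Y715.T.Rec (cs nn)
open Pool.Agent.Y715.T.RecG (Pq)
open Pool.Agent.Y703.CT
open Pool.Agent.H91.Sel (dD KerC)
open Pool.Agent.H91.Kc (ex)
open Pool.Agent.H91.Cr2 (KerS tri_iff3)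
open Pool.Agent.H91.LKz (Pm)
open Pool.Agent.Y350.CTK.Tam (te te_prime te_sq)
open Pool.Agent.Y696.CTK

/-- the norm modulo nine -/
lemma nr_nine {α : Ei} (h : 3 * te ∣ α - 1) : (9 : ℤ) ∣ nr α - 1 := by
  obtain ⟨t, ht⟩ := h
  have hre : α.re = 1 + 3 * (t.re - 2 * t.im) := by
    have := congrArg (fun z : Ei => z.re) ht
    simp only [QuadraticAlgebra.re_sub, QuadraticAlgebra.re_one,
      Pool.Agent.Y692.QS.mul_re, Pool.Agent.Y692.QS.mul_im] at this
    have e1 : (3 : Ei).re = 3 := by decide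
    have e2 : (3 : Ei).im = 0 := by decide
    have e3 : te.re = 1 := rfl
    have e4 : te.im = 2 := rfl
    rw [e1, e2, e3, e4] at this
    linarith
  have him : α.im = 3 * (2 * t.re - t.im) := by
    have := congrArg (fun z : Ei => z.im) ht
    simp only [QuadraticAlgebra.im_sub, QuadraticAlgebra.im_one,
      Pool.Agent.Y692.QS.mul_re, Pool.Agent.Y692.QS.mul_im] at this
    have e1 : (3 : Ei).re = 3 := by decide
    have e2 : (3 : Ei).im = 0 := by decide
    have e3 : te.re = 1 := rfl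
    have e4 : te.im = 2 := rfl
    rw [e1, e2, e3, e4] at this
    linarith
  unfold nr
  rw [hre, him]
  refine ⟨-t.im + (t.re - 2 * t.im) ^ 2 - (t.re - 2 * t.im) * (2 * t.re - t.im) +
    (2 * t.re - t.im) ^ 2, ?_⟩
  ring

lemma ex_zero {α : Ei} (h : 3 * te ∣ α - 1) : ex (nr α) = 0 := by
  rw [Pool.Agent.H91.Kc.ex_congr (m := nr α) (n := 1) (nr_nine h)]
  decide

/-- the data of an admissible system -/
structure Ad {J : Type} (π : J → Ei) {k : ℕ} (m : Fin k → Ei) : Prop where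
  pq : ∀ i, Pq (m i)
  te : ∀ i, 3 * te ∣ m i - 1
  ne : ∀ i l, i ≠ l → ¬ m i ∣ m l
  nd : ∀ i j, ¬ m i ∣ π j ∧ ¬ π j ∣ m i
  mm : ∀ i l, i ≠ l → cs (m i) (m l) = 0
  one : ∀ i, ∃ i0 : J, cs (π i0) (m i) ≠ 0 ∧ ∀ j, j ≠ i0 → cs (π j) (m i) = 0

variable {J : Type} [Fintype J] {π : J → Ei} {e : J → ZMod 3} {c : ZMod 3} {k : ℕ}
  {m : Fin k → Ei}

/-- the primes of the twist -/
def pb (π : J → Ei) (m : Fin k → Ei) (b : Fin k → ZMod 3) : J ⊕ {i : Fin k // b i ≠ 0} → Ei :=
  Sum.elim π fun i => m i.1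

/-- the exponents of the twist -/
def eb (e : J → ZMod 3) (b : Fin k → ZMod 3) : J ⊕ {i : Fin k // b i ≠ 0} → ZMod 3 :=
  Sum.elim e fun i => b i.1

omit [Fintype J] in
lemma dt_b (h : Dt π e) (ha : Ad π m) (b : Fin k → ZMod 3) : Dt (pb π m b) (eb e b) := by
  refine ⟨?_, ?_, ?_⟩
  · rintro (j | i)
    · exact h.pq j
    · exact ha.pq i.1
  · rintro (j | i) (j' | i') hne
    · exact h.nd j j' fun he => hne (by rw [he])
    · exact (ha.nd i'.1 j).1
    · exact (ha.nd i.1 j').2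
    · refine ha.ne i'.1 i.1 fun he => hne ?_
      rw [Subtype.ext he]
  · rintro (j | i)
    · exact h.e0 j
    · exact i.2

lemma pD_b (b : Fin k → ZMod 3) : pD (pb π m b) (eb e b) = pD π e * ∏ i, m i ^ (b i).val := by
  unfold pD
  rw [Fintype.prod_sum_type]
  have h1 : ∏ i : {i : Fin k // b i ≠ 0}, m i.1 ^ (b i.1).val = ∏ i, m i ^ (b i).val := by
    rw [← Finset.prod_subtype (Finset.univ.filter fun i : Fin k => b i ≠ 0)
      (p := fun i : Fin k => b i ≠ 0) (fun i => by simp) (fun i => m i ^ (b i).val)]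
    refine Finset.prod_filter_of_ne fun i _ hi h0 => hi ?_
    rw [h0, ZMod.val_zero, pow_zero]
  exact congrArg _ h1

lemma dD_b (b : Fin k → ZMod 3) : dD c (pb π m b) (eb e b) = dD c π e * ∏ i, m i ^ (b i).val := by
  unfold dD
  rw [pD_b]
  ring

lemma nr_one_nine (ha : Ad π m) (b : Fin k → ZMod 3) (s : Finset (Fin k)) :
    (9 : ℤ) ∣ nr (∏ i ∈ s, m i ^ (b i).val) - 1 := by
  apply nr_nine
  induction s using Finset.induction_on with
  | empty => simp
  | insert a s hs ih =>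
    rw [Finset.prod_insert hs]
    have h4 : 3 * te ∣ m a ^ (b a).val - 1 := by
      have := sub_dvd_pow_sub_pow (m a) 1 (b a).val
      rw [one_pow] at this
      exact (ha.te a).trans this
    have e : m a ^ (b a).val * ∏ i ∈ s, m i ^ (b i).val - 1 =
      m a ^ (b a).val * (∏ i ∈ s, m i ^ (b i).val - 1) + (m a ^ (b a).val - 1) := by ring
    rw [e]
    exact dvd_add (Dvd.dvd.mul_left ih _) h4

lemma nine_b (ha : Ad π m) (b : Fin k → ZMod 3) (h9 : c = 0 → ¬ (9 : ℤ) ∣ nr (pD π e) - 1) :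
    c = 0 → ¬ (9 : ℤ) ∣ nr (pD (pb π m b) (eb e b)) - 1 := by
  intro hc h
  apply h9 hc
  rw [pD_b, Pool.Agent.Y692.QS.nr_mul] at h
  have h1 := nr_one_nine (π := π) ha b Finset.univ
  obtain ⟨t, ht⟩ := h1
  obtain ⟨s, hs⟩ := h
  refine ⟨s - nr (pD π e) * t, ?_⟩
  have e1 : nr (∏ i, m i ^ (b i).val) = 1 + 9 * t := by linarith
  rw [e1] at hs
  linarith

/-- **the system of the twist** -/
theorem kerS_b (h : Dt π e) (ha : Ad π m) (b : Fin k → ZMod 3) (hk : KerS c π e) :
    KerS c (pb π m b) (eb e b) := by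
  intro x hx hs
  set y : {i : Fin k // b i ≠ 0} → ZMod 3 := fun i => x (Sum.inr i) with hy
  set z : J → ZMod 3 := fun j => x (Sum.inl j) with hz
  have hsym : ∀ (i : {i : Fin k // b i ≠ 0}) (j : J), cs (m i.1) (π j) = cs (π j) (m i.1) := by
    intro i j
    exact Pool.Agent.Y350.CT.rec (π j) (m i.1) (h.pq j) (ha.pq i.1) (ha.nd i.1 j).1
  -- the rows of the new primes
  have hrow : ∀ (i : {i : Fin k // b i ≠ 0}) (i0 : J), cs (π i0) (m i.1) ≠ 0 →
      (∀ j, j ≠ i0 → cs (π j) (m i.1) = 0) → y i = z i0 := by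
    intro i i0 h1 h2
    have h3 := hx (Sum.inr i)
    rw [Fintype.sum_sum_type] at h3
    have e1 : ∑ j : J, eb e b (Sum.inl j) * cs (pb π m b (Sum.inr i)) (pb π m b (Sum.inl j)) *
        (x (Sum.inl j) - x (Sum.inr i)) = e i0 * cs (π i0) (m i.1) * (z i0 - y i) := by
      rw [Finset.sum_eq_single i0]
      · show e i0 * cs (m i.1) (π i0) * (z i0 - y i) = _
        rw [hsym]
      · intro j _ hj
        show e j * cs (m i.1) (π j) * (z j - y i) = 0
        rw [hsym, h2 j hj, mul_zero, zero_mul]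
      · intro hn
        exact absurd (Finset.mem_univ _) hn
    have e2 : ∑ l : {i : Fin k // b i ≠ 0}, eb e b (Sum.inr l) *
        cs (pb π m b (Sum.inr i)) (pb π m b (Sum.inr l)) *
        (x (Sum.inr l) - x (Sum.inr i)) = 0 := by
      refine Finset.sum_eq_zero fun l _ => ?_
      show b l.1 * cs (m i.1) (m l.1) * (y l - y i) = 0
      by_cases hil : i = l
      · rw [hil, sub_self, mul_zero]
      · rw [ha.mm i.1 l.1 fun h4 => hil (Subtype.ext h4), mul_zero, zero_mul]
    have e3 : ex (nr (pb π m b (Sum.inr i))) = 0 := ex_zero (ha.te i.1)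
    rw [e1, e2, e3, add_zero, mul_zero, zero_mul, sub_zero] at h3
    rcases mul_eq_zero.1 h3 with h4 | h4
    · rcases mul_eq_zero.1 h4 with h5 | h5
      · exact absurd h5 (h.e0 i0)
      · exact absurd h5 h1
    · exact (sub_eq_zero.1 h4).symm
  have hz0 : z = 0 := by
    refine hk z ?_ ?_
    · intro j
      have h3 := hx (Sum.inl j)
      rw [Fintype.sum_sum_type] at h3
      have e2 : ∑ l : {i : Fin k // b i ≠ 0}, eb e b (Sum.inr l) *
          cs (pb π m b (Sum.inl j)) (pb π m b (Sum.inr l)) *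
          (x (Sum.inr l) - x (Sum.inl j)) = 0 := by
        refine Finset.sum_eq_zero fun l _ => ?_
        show b l.1 * cs (π j) (m l.1) * (y l - z j) = 0
        obtain ⟨i0, h1, h2⟩ := ha.one l.1
        by_cases hj : j = i0
        · rw [hrow l i0 h1 h2, hj, sub_self, mul_zero]
        · rw [h2 j hj, mul_zero, zero_mul]
      rw [e2, add_zero] at h3
      exact h3
    · rw [Fintype.sum_sum_type] at hs
      have e2 : ∑ l : {i : Fin k // b i ≠ 0}, eb e b (Sum.inr l) *
          ex (nr (pb π m b (Sum.inr l))) * x (Sum.inr l) = 0 := by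
        refine Finset.sum_eq_zero fun l _ => ?_
        have e3 : ex (nr (pb π m b (Sum.inr l))) = 0 := ex_zero (ha.te l.1)
        rw [e3, mul_zero, zero_mul]
      rw [e2, add_zero] at hs
      exact hs
  funext t
  rcases t with j | i
  · exact congrFun hz0 j
  · obtain ⟨i0, h1, h2⟩ := ha.one i.1
    show y i = 0
    rw [hrow i i0 h1 h2]
    exact congrFun hz0 i0

end Pool.Agent.H91.Tw
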