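import Pool.Agent.H91.Tw8
import Pool.Agent.H91.Tw6

/-!
# Towers, part 9: admissible systems of primes in the ring of integers of `ℚ(ω)`
-/

set_option autoImplicit false
set_option linter.unusedVariables false
set_option linter.unusedSectionVars false

open scoped Classical

namespace Pool.Agent.H91.Tw

open NumberField IsDedekindDomain
open Pool.Agent.Y692.QS (Ei w nr)
open Pool.Agent.Y715.T.Rec (cs nn)
open Pool.Agent.Y715.T.RecG (Pq cs_zero_iff)
open Pool.Agent.Y703.CT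
open Pool.Agent.H91.Sel (dD KerC)
open Pool.Agent.H91.Kc (ex)
open Pool.Agent.H91.Cr2 (KerS tri_iff3)
open Pool.Agent.H91.LKz (Pm)
open Pool.Agent.Y350.CTK.Tam (te te_prime te_sq)
open Pool.Agent.Y696.CTK
open Pool.Agent.H91.Fin2 (Cl2 cm_of law3)
open Pool.Agent.H91.Fc2 (exi3)

variable {K : Type} [Field K] [NumberField K]

/-- an admissible system of primes -/
structure Adm (D : 𝓞 K) {k : ℕ} (μ : Fin k → 𝓞 K) : Prop where
  prime : ∀ i, Prime (μ i)
  one : ∀ (i : Fin k) (t : 𝓞 K), t ^ 2 = -3 → 3 * t ∣ μ i - 1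
  ndvd : ∀ i, ¬ μ i ∣ D
  cube : ∀ i l, i ≠ l → ¬ μ i ∣ μ l ∧ ∃ x, μ i ∣ x ^ 3 - μ l
  single : ∀ i, ∃ p, Prime p ∧ p ∣ D ∧ (¬ ∃ x, p ∣ x ^ 3 - μ i) ∧
    ∀ q, Prime q → q ∣ D → ¬ Associated q p → ∃ x, q ∣ x ^ 3 - μ i

section ei

variable (j : Ei ≃+* 𝓞 K)

lemma te_j : (j te) ^ 2 = -3 := by rw [← map_pow, te_sq, map_neg, map_ofNat]

lemma mu_te {D : 𝓞 K} {k : ℕ} {μ : Fin k → 𝓞 K} (ha : Adm D μ) (i : Fin k) :
    3 * te ∣ j.symm (μ i) - 1 := by
  have h1 := map_dvd j.symm (ha.one i (j te) (te_j j))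
  rwa [map_mul, map_sub, map_one, map_ofNat, RingEquiv.symm_apply_apply] at h1

include j in
lemma mu_three {D : 𝓞 K} {k : ℕ} {μ : Fin k → 𝓞 K} (ha : Adm D μ) (i : Fin k) :
    (3 : 𝓞 K) ∣ μ i - 1 :=
  dvd_trans (dvd_mul_right 3 (j te)) (ha.one i (j te) (te_j j))

lemma dvd_symm {x y : 𝓞 K} : j.symm x ∣ j.symm y ↔ x ∣ y := map_dvd_iff j.symm

/-- the data for the Eisenstein integers -/
lemma ad_of {D : 𝓞 K} {k : ℕ} {μ : Fin k → 𝓞 K} (ha : Adm D μ) {J : Type} [Fintype J]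
    {π : J → Ei} {e : J → ZMod 3} {c : ZMod 3} (h : Dt π e) (hpm : Pm (dD c π e) (j.symm D)) :
    Ad π (fun i => j.symm (μ i)) := by
  have hpq : ∀ i, Pq (j.symm (μ i)) := fun i => pq_symm j (ha.prime i) (mu_three j ha i)
  have hπD : ∀ i, π i ∣ j.symm D := by
    intro i
    rw [hpm.dvd]
    unfold dD pD
    refine Dvd.dvd.mul_left ?_ _
    refine dvd_trans ?_ (Finset.dvd_prod_of_mem (fun i => π i ^ (e i).val) (Finset.mem_univ i))
    refine dvd_pow_self _ ?_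
    intro h0
    exact h.e0 i ((ZMod.val_eq_zero _).1 h0)
  have hnd : ∀ i i', j.symm (μ i) ≠ π i' := by
    intro i i' he
    apply ha.ndvd i
    rw [← dvd_symm j, he]
    exact hπD i'
  refine ⟨hpq, mu_te j ha, ?_, ?_, ?_, ?_⟩
  · intro i l hil hd
    exact (ha.cube i l hil).1 ((dvd_symm j).1 hd)
  · intro i i'
    refine ⟨fun hd => hnd i i' ?_, fun hd => hnd i i' ?_⟩
    · exact Pool.Agent.Y274.CT.eq_of_dvd (h.pq i') (hpq i) hd
    · exact (Pool.Agent.Y274.CT.eq_of_dvd (hpq i) (h.pq i') hd).symm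
  · intro i l hil
    have hnd' : ¬ j.symm (μ i) ∣ j.symm (μ l) := fun hd => (ha.cube i l hil).1 ((dvd_symm j).1 hd)
    rw [cs_zero_iff (hpq i).prime (hpq i).norm hnd']
    obtain ⟨x, hx⟩ := (ha.cube i l hil).2
    refine ⟨j.symm x, ?_⟩
    have h1 := map_dvd j.symm hx
    rw [map_sub, map_pow] at h1
    rw [← dvd_neg]
    convert h1 using 1
    ring
  · intro i
    obtain ⟨p, hp, hpD, hpn, hq⟩ := ha.single i
    have hpp : Prime (j.symm p) := (MulEquiv.prime_iff (j.symm : 𝓞 K ≃* Ei)).2 hp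
    have h1 : j.symm p ∣ j.symm D := map_dvd j.symm hpD
    rw [hpm.dvd] at h1
    have hw : IsUnit (w : Ei) := by
      refine IsUnit.of_mul_eq_one (w ^ 2) ?_
      decide
    obtain ⟨i0, hi0⟩ : ∃ i0, j.symm p ∣ π i0 := by
      unfold dD pD at h1
      rcases hpp.dvd_or_dvd h1 with h2 | h2
      · exact absurd (isUnit_of_dvd_unit h2 (hw.pow _)) hpp.not_isUnit
      · obtain ⟨i0, -, h3⟩ := (hpp.dvd_finsetProd_iff _).1 h2
        exact ⟨i0, hpp.dvd_of_dvd_pow h3⟩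
    have hass : Associated (j.symm p) (π i0) := (hpp.dvd_prime_iff_associated (h.pq i0).prime).1 hi0
    have hns : ∀ i', ¬ π i' ∣ j.symm (μ i) := by
      intro i' hd
      exact hnd i i' (Pool.Agent.Y274.CT.eq_of_dvd (hpq i) (h.pq i') hd).symm
    refine ⟨i0, ?_, ?_⟩
    · rw [Ne, cs_zero_iff (h.pq i0).prime (h.pq i0).norm (hns i0)]
      rintro ⟨y, hy⟩
      apply hpn
      refine ⟨j y, ?_⟩
      rw [← dvd_symm j, map_sub, map_pow, RingEquiv.symm_apply_apply, ← dvd_neg]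
      refine (hass.dvd).trans ?_
      convert hy using 1
      ring
    · intro i' hne
      rw [cs_zero_iff (h.pq i').prime (h.pq i').norm (hns i')]
      obtain ⟨x, hx⟩ := hq (j (π i')) ((MulEquiv.prime_iff (j : Ei ≃* 𝓞 K)).2 (h.pq i').prime) (by
        rw [← dvd_symm j, RingEquiv.symm_apply_apply]
        exact hπD i') (by
        intro h4
        have h5 : Associated (π i') (π i0) := by
          have h6 := h4.map (j.symm : 𝓞 K →* Ei)
          have h7 : Associated (π i') (j.symm p) := by simpa using h6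
          exact h7.trans hass
        exact h.nd i0 i' (Ne.symm hne) h5.dvd)
      refine ⟨j.symm x, ?_⟩
      have h1 := map_dvd j.symm hx
      rw [map_sub, map_pow, RingEquiv.symm_apply_apply] at h1
      rw [← dvd_neg]
      convert h1 using 1
      ring

/-- **the twists by an admissible system** -/
theorem tri_b (hj : ∀ z : Ei, Algebra.norm ℤ (j z) = Pool.Agent.Y692.QS.nr z) (hdisc : discr K = -3)
    {D : 𝓞 K} (hD : Cl2 D) (hT : Tri D) {k : ℕ} {μ : Fin k → 𝓞 K} (ha : Adm D μ)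
    (b : Fin k → ZMod 3) :
    Tri (D * ∏ i, μ i ^ (b i).val) ∧ Law3 (D * ∏ i, μ i ^ (b i).val) := by
  obtain ⟨z, rfl⟩ := j.surjective D
  obtain ⟨J, h1, h2, π, e, c, hdt, hpm, h9⟩ := exi3 (cm_of j hD)
  have hk : KerS c π e := (tri_iff3 j hdt h9 hpm).1 hT
  have hz : j.symm (j z) = z := RingEquiv.symm_apply_apply j z
  have hA := ad_of j ha hdt (c := c) (by rw [hz]; exact hpm)
  have hdt' := dt_b hdt hA b
  have hk' := kerS_b hdt hA b hk
  have h9' := nine_b (c := c) (e := e) hA b h9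
  have hpm' : Pm (dD c (pb π (fun i => j.symm (μ i)) b) (eb e b))
      (z * ∏ i, j.symm (μ i) ^ (b i).val) := by
    rw [dD_b]
    rcases hpm with h | h
    · left
      rw [h]
    · right
      rw [h, neg_mul]
  have he : j (z * ∏ i, j.symm (μ i) ^ (b i).val) = j z * ∏ i, μ i ^ (b i).val := by
    rw [map_mul, map_prod]
    congr 1
    exact Finset.prod_congr rfl fun i _ => by rw [map_pow, RingEquiv.apply_symm_apply]
  have hne : Nonempty (J ⊕ {i : Fin k // b i ≠ 0}) := ⟨Sum.inl (Classical.choice h2)⟩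
  rw [← he]
  exact ⟨(tri_iff3 j hdt' h9' hpm').2 hk', law3 j hdisc hdt' h9' hpm'⟩

end ei

section conditions

lemma cnd_of [IsPrincipalIdealRing (𝓞 K)] {D : 𝓞 K} (h0 : D ≠ 0)
    (hcf : ∀ p : 𝓞 K, p ^ 3 ∣ D → IsUnit p) : Cnd D := by
  refine ⟨h0, fun u hu k hk => ?_⟩
  obtain ⟨p, hp⟩ := (IsPrincipalIdealRing.principal u.asIdeal).principal
  rw [Ideal.submodule_span_eq] at hp
  have h1 : u.intValuation D < 1 := (u.intValuation_lt_one_iff_mem D).2 hu
  rw [hk, ← WithZero.exp_zero, WithZero.exp_lt_exp] at h1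
  have h2 : u.intValuation D ≤ WithZero.exp (-((3 : ℕ) : ℤ)) := by
    rw [hk, WithZero.exp_le_exp]
    push_cast
    omega
  rw [u.intValuation_le_pow_iff_mem, hp, Ideal.span_singleton_pow,
    Ideal.mem_span_singleton] at h2
  have h3 := hcf p h2
  apply u.isPrime.ne_top
  rw [hp, Ideal.span_singleton_eq_top]
  exact h3

lemma prime_cf {p : 𝓞 K} (hp : Prime p) (q : 𝓞 K) (h : q ^ 3 ∣ p) : IsUnit q := by
  obtain ⟨t, ht⟩ := h
  have h1 : p = q * (q ^ 2 * t) := by rw [ht]; ring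
  rcases hp.irreducible.isUnit_or_isUnit h1 with h2 | h2
  · exact h2
  · exact isUnit_of_dvd_unit ⟨q * t, by ring⟩ h2

lemma mem_prime {p x : 𝓞 K} (hp : Prime p) {u : HeightOneSpectrum (𝓞 K)} (h : p ∈ u.asIdeal)
    (hx : x ∈ u.asIdeal) : p ∣ x := by
  have h1 : (Ideal.span {p} : Ideal (𝓞 K)).IsPrime := (Ideal.span_singleton_prime hp.ne_zero).2 hp
  have h2 : (Ideal.span {p} : Ideal (𝓞 K)) ≠ ⊥ := by
    rw [Ne, Ideal.span_singleton_eq_bot]
    exact hp.ne_zero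
  have h3 := h1.isMaximal h2
  have h4 : (Ideal.span {p} : Ideal (𝓞 K)) = u.asIdeal :=
    h3.eq_of_le u.isPrime.ne_top ((Ideal.span_singleton_le_iff_mem _).2 h)
  rw [← h4] at hx
  exact Ideal.mem_span_singleton.1 hx

lemma c3_of (j : Ei ≃+* 𝓞 K) : C3 K := by
  intro u hu
  have ht : (j te) ^ 2 = -3 := te_j j
  have hp : Prime (j te) := (MulEquiv.prime_iff (j : Ei ≃* 𝓞 K)).2 te_prime
  have h1 : j te ∈ u.asIdeal := by
    apply u.isPrime.mem_of_pow_mem 2
    rw [ht]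
    exact neg_mem hu
  have h2 : u.asIdeal = Ideal.span {j te} := by
    refine le_antisymm ?_ ((Ideal.span_singleton_le_iff_mem _).2 h1)
    intro x hx
    exact Ideal.mem_span_singleton.2 (mem_prime hp h1 hx)
  have h3 := u.intValuation_singleton hp.ne_zero h2
  refine ⟨0, ?_⟩
  have h4 : u.intValuation (3 : 𝓞 K) = u.intValuation (j te) ^ 2 := by
    rw [← map_pow, ht, Valuation.map_neg]
  rw [h4, h3, ← WithZero.exp_nsmul]
  congr 1

theorem tc_of (j : Ei ≃+* 𝓞 K) {D : 𝓞 K} (hD : Cl2 D) {k : ℕ} {μ : Fin k → 𝓞 K} (ha : Adm D μ) :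
    TC D k μ := by
  have hpid : IsPrincipalIdealRing (𝓞 K) :=
    IsPrincipalIdealRing.of_surjective (j : Ei →+* 𝓞 K) j.surjective
  have hD0 : D ≠ 0 := by
    rintro rfl
    apply te_prime.not_isUnit
    have := hD.2.2.1 (j te) (dvd_zero _)
    exact (MulEquiv.isUnit_map j).1 this
  refine ⟨c3_of j, cnd_of hD0 hD.2.2.1, ?_, ?_, ?_, ?_, ?_, ?_⟩
  · intro u h1 h2
    obtain ⟨a, b, hab⟩ := hD.1
    apply u.isPrime.ne_top
    rw [Ideal.eq_top_iff_one, ← hab]
    exact add_mem (Ideal.mul_mem_left _ _ h1) (Ideal.mul_mem_left _ _ h2)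
  · intro i
    exact cnd_of (ha.prime i).ne_zero (prime_cf (ha.prime i))
  · intro i u h1 h2
    obtain ⟨t, ht⟩ := mu_three j ha i
    apply u.isPrime.ne_top
    rw [Ideal.eq_top_iff_one]
    have e : (1 : 𝓞 K) = μ i - 3 * t := by rw [← ht]; ring
    rw [e]
    exact sub_mem h1 (Ideal.mul_mem_right _ _ h2)
  · intro i
    exact (ha.prime i).not_isUnit
  · intro i u h1 h2
    exact ha.ndvd i (mem_prime (ha.prime i) h2 h1)
  · intro i l hil u h1 h2
    exact (ha.cube i l hil).1 (mem_prime (ha.prime i) h1 h2)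

end conditions

end Pool.Agent.H91.Tw
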