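import Pool.Graph.R_seed8.Y350.CTK.Loc

/-!
# Local indices of `y² + D y = x³`: `D` of valuation one or two, and the prime above three for `D`
different from `± 1` modulo three
-/

set_option autoImplicit false

open scoped Classical

namespace Pool.Agent.H91.Tz

open WithZero
open Pool.Agent.Y696 (NonsingRed)
open Pool.Agent.Y696.CTK (ED)
open Pool.Agent.Y350.CTK
open WeierstrassCurve.Affine (Point)

section td

variable {L : Type} [Field L] {v : Valuation L ℤᵐ⁰} {D : L}

/-- the heart of the matter at the primes dividing `D` -/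
theorem trans_val2 {x y : L} (hd : v D = exp (-1 : ℤ) ∨ v D = exp (-2 : ℤ)) (hx : x ≠ 0) (hxl : v x < 1)
    (he : y ^ 2 + D * y = x ^ 3) : 1 ≤ v (D * (y + D) / x ^ 2) ∨ 1 ≤ v (D * y / x ^ 2) := by
  have hD0 : D ≠ 0 := by
    rintro rfl
    rw [map_zero] at hd
    rcases hd with hd | hd <;> exact exp_ne_zero hd.symm
  have he' : y * (y + D) = x ^ 3 := by rw [← he]; ring
  have hx3 : x ^ 3 ≠ 0 := pow_ne_zero 3 hx
  have hy : y ≠ 0 := by
    rintro rfl
    apply hx3
    rw [← he', zero_mul]
  have hyd : y + D ≠ 0 := by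
    intro h
    apply hx3
    rw [← he', h, mul_zero]
  have hx2 : x ^ 2 ≠ 0 := pow_ne_zero 2 hx
  have nz : ∀ {z : L}, z ≠ 0 → v z ≠ 0 := fun h => (Valuation.ne_zero_iff v).2 h
  have g1 : ∀ {z : L}, z ≠ 0 → (1 ≤ v z ↔ 0 ≤ log (v z)) := by
    intro z hz
    rw [← log_one, log_le_log one_ne_zero (nz hz)]
  have vx : log (v x) < 0 := by
    rw [← log_one, log_lt_log (nz hx) one_ne_zero]
    exact hxl
  have vD : log (v D) = -1 ∨ log (v D) = -2 := by
    rcases hd with hd | hd <;> rw [hd, log_exp] <;> simp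
  have v1 : log (v y) + log (v (y + D)) = 3 * log (v x) := by
    rw [← log_mul (nz hy) (nz hyd), ← map_mul, he', map_pow, log_pow, nsmul_eq_mul]
    norm_num
  have v2 : log (v (D * (y + D) / x ^ 2)) = log (v D) + log (v (y + D)) - 2 * log (v x) := by
    rw [div_eq_mul_inv, map_mul, map_mul, map_inv₀, map_pow,
      log_mul (mul_ne_zero (nz hD0) (nz hyd)) (inv_ne_zero (pow_ne_zero 2 (nz hx))),
      log_mul (nz hD0) (nz hyd), log_inv, log_pow, nsmul_eq_mul]
    push_cast
    ring
  have v3 : log (v (D * y / x ^ 2)) = log (v D) + log (v y) - 2 * log (v x) := by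
    rw [div_eq_mul_inv, map_mul, map_mul, map_inv₀, map_pow,
      log_mul (mul_ne_zero (nz hD0) (nz hy)) (inv_ne_zero (pow_ne_zero 2 (nz hx))),
      log_mul (nz hD0) (nz hy), log_inv, log_pow, nsmul_eq_mul]
    push_cast
    ring
  have la : ∀ {a b : L}, a ≠ 0 → b ≠ 0 → a + b ≠ 0 →
      log (v (a + b)) ≤ log (v a) ∨ log (v (a + b)) ≤ log (v b) := by
    intro a b ha hb hab
    have h := v.map_add a b
    rcases le_max_iff.1 h with h1 | h1
    · exact Or.inl ((log_le_log (nz hab) (nz ha)).2 h1)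
    · exact Or.inr ((log_le_log (nz hab) (nz hb)).2 h1)
  have u1 := la hy hD0 hyd
  have u2 : log (v y) ≤ log (v (y + D)) ∨ log (v y) ≤ log (v D) := by
    have e : (y + D) + -D = y := by ring
    have h := la hyd (neg_ne_zero.2 hD0) (by rw [e]; exact hy)
    rwa [e, Valuation.map_neg] at h
  have u3 : log (v D) ≤ log (v (y + D)) ∨ log (v D) ≤ log (v y) := by
    have e : (y + D) + -y = D := by ring
    have h := la hyd (neg_ne_zero.2 hy) (by rw [e]; exact hD0)
    rwa [e, Valuation.map_neg] at h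
  rw [g1 (div_ne_zero (mul_ne_zero hD0 hyd) hx2), g1 (div_ne_zero (mul_ne_zero hD0 hy) hx2),
    v2, v3]
  omega


end td

theorem td2 (L : Type) [Field L] (v : Valuation L ℤᵐ⁰) (D : L) (h3 : v 3 = 1)
    (hvD : v D = exp (-1 : ℤ) ∨ v D = exp (-2 : ℤ)) (H : AddSubgroup (ED D).toAffine.Point)
    (hH : ∀ P, P ∈ H ↔ NonsingRed v (ED D) P) : H.index = 3 := by
  have hD0 : D ≠ 0 := by
    rintro rfl
    rw [map_zero] at hvD
    rcases hvD with hd | hd <;> exact exp_ne_zero hd.symm
  have hD1 : v D < 1 := by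
    rcases hvD with hd | hd <;> rw [hd] <;> rw [← exp_zero, exp_lt_exp] <;> norm_num
  have h2 : v (2 : L) ≤ 1 := by
    have : (2 : L) = 3 - 1 := by norm_num
    rw [this]
    exact vsub h3.le (by rw [map_one])
  have hmem : ∀ {P : (ED D).toAffine.Point} {x y : L}, At P x y → (P ∉ H ↔ v x < 1) := by
    intro P x y h
    rw [not_mem_iff hH h]
    have he := h.eqn
    constructor
    · rintro ⟨-, h4⟩
      rw [map_mul, h3, one_mul, map_pow] at h4
      by_contra hc
      exact absurd h4 (not_lt.2 (one_le_pow₀ (not_lt.1 hc)))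
    · intro hx
      have hy : v y < 1 := by
        by_contra hc
        rw [not_lt] at hc
        have h4 : v (D * y) < v (y ^ 2) := by
          rw [map_mul, map_pow, sq]
          have h5 : v y ≠ 0 := fun h0 => by rw [h0] at hc; exact absurd hc (by simp)
          exact mul_lt_mul_of_pos_right (hD1.trans_le hc) (zero_lt_iff.2 h5)
        have h5 := Valuation.map_add_eq_of_lt_right v h4
        rw [add_comm, he, map_pow, map_pow] at h5
        have h6 : v x ^ 3 < 1 := pow_lt_one₀ zero_le' hx (by norm_num)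
        rw [h5] at h6
        exact absurd h6 (not_lt.2 (one_le_pow₀ hc))
      refine ⟨vaddl ?_ hD1, ?_⟩
      · rw [map_mul]
        exact m1l h2 hy
      · rw [map_mul, h3, one_mul, map_pow]
        exact pow_lt_one₀ zero_le' hx (by norm_num)
  obtain ⟨T, hT⟩ := exists_T (D := D) hD0
  have hTn := hT.neg
  have hTT := T_add_T hD0 hT
  refine index_of_gen _ T 3 Nat.prime_three ?_ ?_ ?_
  · rw [hmem hT, map_zero]
    exact zero_lt_one
  · have : 3 • T = T + T + T := by abel
    rw [this, hTT, neg_add_cancel]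
    exact zero_mem _
  · intro P
    by_cases hP : P ∈ H
    · exact ⟨0, by simpa using hP⟩
    obtain ⟨x, y, hA⟩ := not_mem_at hP
    have hx := (hmem hA).1 hP
    by_cases hx0 : x = 0
    · subst hx0
      have e1 : y * (y + D) = 0 := by
        have := hA.eqn
        linear_combination this
      rcases mul_eq_zero.1 e1 with h | h
      · rw [h] at hA
        refine ⟨1, ?_⟩
        rw [one_zsmul, hA.ext hT, sub_self]
        exact zero_mem _
      · have h4 : y = -0 - D := by linear_combination h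
        rw [h4] at hA
        refine ⟨-1, ?_⟩
        rw [neg_one_zsmul, hA.ext hTn, sub_self]
        exact zero_mem _
    · have hx2 : x ^ 2 ≠ 0 := pow_ne_zero 2 hx0
      have he := hA.eqn
      rcases trans_val2 hvD hx0 hx he with h | h
      · refine ⟨1, ?_⟩
        rw [one_zsmul, sub_eq_add_neg]
        obtain ⟨y3, h3'⟩ := hA.add hTn hx0
        by_contra hc
        rw [hmem h3', ← not_le] at hc
        apply hc
        have e : ((y - (-0 - D)) / (x - 0)) ^ 2 - x - 0 = D * (y + D) / x ^ 2 := by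
          rw [sub_zero, sub_zero, div_pow, eq_div_iff hx2, sub_mul, div_mul_cancel₀ _ hx2]
          linear_combination he
        rw [e]
        exact h
      · refine ⟨-1, ?_⟩
        rw [neg_one_zsmul, sub_neg_eq_add]
        obtain ⟨y3, h3'⟩ := hA.add hT hx0
        by_contra hc
        rw [hmem h3', ← not_le] at hc
        apply hc
        have e : ((y - 0) / (x - 0)) ^ 2 - x - 0 = -(D * y / x ^ 2) := by
          rw [sub_zero, sub_zero, sub_zero, div_pow, ← neg_div, eq_div_iff hx2, sub_mul,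
            div_mul_cancel₀ _ hx2]
          linear_combination he
        rw [e, Valuation.map_neg]
        exact h


/-- the prime above three: no point of singular reduction -/
theorem tz (L : Type) [Field L] (v : Valuation L ℤᵐ⁰) (D θ m : L) (hθ : θ ^ 2 = -3)
    (hvθ : v θ = exp (-1 : ℤ)) (hD : D = 1 + θ * m ∨ D = -1 + θ * m) (hm : v m = 1)
    (hres : ∀ x : L, v x ≤ 1 → v x < 1 ∨ v (x - 1) < 1 ∨ v (x + 1) < 1)
    (P : (ED D).toAffine.Point) : NonsingRed v (ED D) P := by
  have v3 : v (3 : L) = exp (-2 : ℤ) := by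
    have e : (3 : L) = -(θ ^ 2) := by rw [hθ]; ring
    rw [e, Valuation.map_neg, map_pow, hvθ]
    rfl
  have v3l : v (3 : L) < 1 := by
    rw [v3, lt_one_iff]
    exact exp_le_exp.2 (by norm_num)
  have v2 : v (2 : L) = 1 := by
    have e : (2 : L) = -1 + 3 := by norm_num
    rw [e, Valuation.map_add_eq_of_lt_left v (by rw [Valuation.map_neg, map_one]; exact v3l),
      Valuation.map_neg, map_one]
  have v4 : v (4 : L) = 1 := by
    have e : (4 : L) = 2 * 2 := by norm_num
    rw [e, map_mul, v2, one_mul]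
  have hθ0 : θ ≠ 0 := by
    rintro rfl
    rw [map_zero] at hvθ
    exact exp_ne_zero hvθ.symm
  have vθl : v θ < 1 := by rw [hvθ, lt_one_iff]
  have hDsq : v (D ^ 2 - 1) = exp (-1 : ℤ) := by
    have h1 : v (θ ^ 2 * m ^ 2) ≤ exp (-2 : ℤ) := by
      rw [map_mul, map_pow, map_pow, hm, hvθ, one_pow, mul_one]
      exact le_of_eq rfl
    have h2 : v (2 * (θ * m)) = exp (-1 : ℤ) := by
      rw [map_mul, map_mul, v2, hm, hvθ, mul_one, one_mul]
    have h3 : v (θ ^ 2 * m ^ 2) < v (2 * (θ * m)) := by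
      rw [h2]
      exact lt_of_le_of_lt h1 (exp_lt_exp.2 (by norm_num))
    rcases hD with hD | hD
    · have e : D ^ 2 - 1 = 2 * (θ * m) + θ ^ 2 * m ^ 2 := by rw [hD]; ring
      rw [e, Valuation.map_add_eq_of_lt_left v h3, h2]
    · have e : D ^ 2 - 1 = -(2 * (θ * m)) + θ ^ 2 * m ^ 2 := by rw [hD]; ring
      rw [e, Valuation.map_add_eq_of_lt_left v (by rwa [Valuation.map_neg]), Valuation.map_neg, h2]
  rcases P with _ | ⟨x, y, hn⟩
  · exact trivial
  have hA : At (Point.some x y hn) x y := ⟨hn, rfl⟩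
  rw [nsr_iff hA]
  by_contra hc
  rw [not_or, not_le, not_le] at hc
  obtain ⟨h1, h2⟩ := hc
  have he := hA.eqn
  have hx : v x ≤ 1 := by
    by_contra hc
    rw [not_le] at hc
    have hx0 : v x ≠ 0 := (lt_trans zero_lt_one hc).ne'
    rw [map_mul, v3, map_pow] at h2
    have h3 : log (exp (-2 : ℤ) * v x ^ 2) < 0 := by
      rw [← log_one, log_lt_log (mul_ne_zero exp_ne_zero (pow_ne_zero 2 hx0)) one_ne_zero]
      exact h2
    have h4 : 0 < log (v x) := by
      rw [← log_one, log_lt_log one_ne_zero hx0]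
      exact hc
    rw [log_mul exp_ne_zero (pow_ne_zero 2 hx0), log_exp, log_pow, nsmul_eq_mul] at h3
    push_cast at h3
    omega
  have hD1 : v (D ^ 2 - 1) < 1 := by rw [hDsq, lt_one_iff]
  have hsq1 : v ((2 * y + D) ^ 2) < 1 := by
    rw [map_pow]
    exact pow_lt_one₀ zero_le' h1 (by norm_num)
  have hc : v (x ^ 3 + 1) < 1 := by
    have e : 4 * (x ^ 3 + 1) = (2 * y + D) ^ 2 - (D ^ 2 - 1) + 3 := by
      rw [← he]; ring
    have h3 : v (4 * (x ^ 3 + 1)) < 1 := by
      rw [e]
      exact vaddl (vsubl hsq1 hD1) v3l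
    rwa [map_mul, v4, one_mul] at h3
  have hx1 : v (x + 1) < 1 := by
    rcases hres x hx with h | h | h
    · exfalso
      have h3 : v (x ^ 3 + 1) = 1 := by
        rw [add_comm, Valuation.map_add_eq_of_lt_left v (by
          rw [map_one, map_pow]; exact pow_lt_one₀ zero_le' h (by norm_num)), map_one]
      rw [h3] at hc
      exact lt_irrefl _ hc
    · exfalso
      have e : x ^ 3 + 1 = 2 + (x - 1) * (x ^ 2 + x + 1) := by ring
      have h4 : v ((x - 1) * (x ^ 2 + x + 1)) < v (2 : L) := by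
        rw [v2, map_mul]
        refine m2l h (vadd (vadd ?_ hx) (by rw [map_one]))
        rw [map_pow]
        exact pow_le_one₀ zero_le' hx
      rw [e, Valuation.map_add_eq_of_lt_left v h4, v2] at hc
      exact lt_irrefl _ hc
    · exact h
  have hx2 : v (x + 1) ≤ exp (-1 : ℤ) := lt_one_iff.1 hx1
  have hx3 : v (x ^ 3 + 1) ≤ exp (-2 : ℤ) := by
    have e : x ^ 3 + 1 = (x + 1) ^ 3 - 3 * (x * (x + 1)) := by ring
    rw [e]
    refine vsub (vle (vpow hx2 3) (by norm_num)) ?_
    rw [map_mul, v3, map_mul]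
    calc exp (-2 : ℤ) * (v x * v (x + 1)) ≤ exp (-2 : ℤ) * (1 * 1) :=
          mul_le_mul' le_rfl (mul_le_mul' hx hx1.le)
      _ = _ := by rw [mul_one, mul_one]
  have hfin : v ((2 * y + D) ^ 2) = exp (-1 : ℤ) := by
    have e : (2 * y + D) ^ 2 = (D ^ 2 - 1) + (4 * (x ^ 3 + 1) - 3) := by
      rw [← he]; ring
    have h5 : v (4 * (x ^ 3 + 1) - 3) ≤ exp (-2 : ℤ) := by
      refine vsub ?_ v3.le
      rw [map_mul, v4, one_mul]
      exact hx3
    rw [e, Valuation.map_add_eq_of_lt_left v (by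
      rw [hDsq]
      exact lt_of_le_of_lt h5 (exp_lt_exp.2 (by norm_num))), hDsq]
  have hne : v (2 * y + D) ≠ 0 := by
    intro h0
    rw [map_pow, h0] at hfin
    exact exp_ne_zero (hfin.symm.trans (by rw [zero_pow two_ne_zero]))
  have h6 := congrArg log hfin
  rw [map_pow, log_pow, log_exp, nsmul_eq_mul] at h6
  push_cast at h6
  omega

end Pool.Agent.H91.Tz
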