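import Pool.Graph.R_seed8.Y703.XK.Stm
import Pool.Graph.R_seed8.Y703.XL.Stm
import Pool.Agent.H91.Kc

/-!
# The exact law for the matrices with a root: definitions

Compare the projects XK and XL of the library (`Pool/Graph/R_seed8/Y703/XK/Stm.lean`); here the
sets of primes have no condition on the norm, and the Laplacian has a root.
-/

set_option autoImplicit false
set_option linter.unusedVariables false

open scoped Classical

namespace Pool.Agent.H91.XR

open Finset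
open Pool.Agent.Y692.QS (Ei w nr toC)
open Pool.Agent.Y715.T.Rec (cs)
open Pool.Agent.Y715.T.RecG (Pq)
open Pool.Agent.Y699.E (ez nrm nrm_cast QB)
open Pool.Agent.Y703.CX (jj XX eL zz kk)
open Pool.Agent.Y703.XK (prs HB ext c9 sm la bl)
open Pool.Agent.H91.Kc (ex ex_congr)

/-- the sets of primary primes -/
def Cl (S : Finset Ei) : Prop := ∀ π ∈ S, Pq π

/-- the sets with norm at most `X` -/
noncomputable def SS (X : ℕ) : Finset (Finset Ei) :=
  (QB X).powerset.filter fun S => Cl S ∧ ∏ π ∈ S, nrm π ≤ X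

/-- the label of the root -/
def rl (π : Ei) : ZMod 3 := ex (nr π)

lemma rl_of_mod {π ρ : Ei} (h : nrm π % 9 = nrm ρ % 9) : rl π = rl ρ := by
  unfold rl
  apply ex_congr
  rw [← nrm_cast, ← nrm_cast]
  omega

/-- the labels of the large primes with respect to the small ones and the root are not
degenerate -/
def Nd (S₀ S₁ : Finset Ei) : Prop :=
  ∀ (v : Ei → ZMod 3) (t : ZMod 3), ((∃ u ∈ S₀, v u ≠ 0) ∨ t ≠ 0) →
    ∃ π ∈ S₁, ∑ u ∈ S₀, v u * cs u π + t * rl π ≠ 0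

/-- the regular sets -/
noncomputable def RR (X z H k V : ℕ) : Finset (Finset Ei) :=
  (SS X).filter fun S => Set.InjOn (bl H) (la z S : Set Ei) ∧ S.card ≤ k ∧
    (∏ π ∈ sm z S, nrm π) * ∏ π ∈ la z S, XX H (bl H π) ≤ X ∧
    (sm z S).card + V < (la z S).card

/-- the number of the solutions of the system with the root -/
noncomputable def nS (c : ZMod 3) (S : Finset Ei) : ℕ :=
  Nat.card {v : S → ZMod 3 // ∀ π : S, ∑ ρ : S, cs π ρ * (v ρ - v π) - c * rl π * v π = 0}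

/-- the sets whose solution space has dimension `r` -/
def Gr (c : ZMod 3) (r : ℕ) (S : Finset Ei) : Prop := nS c S = 3 ^ r

/-- sets with many primes, sets near the boundary, sets with two primes in a block -/
structure CntP (C : ℝ) : Prop where
  one : 1 ≤ C
  all : ∀ X : ℕ, 1 ≤ X → ((SS X).card : ℝ) ≤ C * X
  many : ∀ X k : ℕ, 1 ≤ X → (((SS X).filter fun S => k < S.card).card : ℝ) * 2 ^ k ≤
    C * (X * (1 + Real.log X))
  cut : ∀ X z H k : ℕ, 1 ≤ X → 1 ≤ H → 1 ≤ k → (((SS X).filter fun S => S.card ≤ k ∧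
    X < (∏ π ∈ sm z S, nrm π) * ∏ π ∈ la z S, XX H (bl H π)).card : ℝ) ≤
      C * (X * (1 + Real.log X)) * (k / H) + C * X * Real.exp (-(Real.log X) / k)
  coll : ∀ X z H : ℕ, 1 ≤ X → 1 ≤ z → 1 ≤ H → (((SS X).filter fun S =>
    ¬ Set.InjOn (bl H) (la z S : Set Ei)).card : ℝ) ≤ C * (X * (1 + Real.log X)) / H + C * X / z

/-- the count -/
def S_CNT : Prop := ∃ C : ℝ, CntP C

/-- few sets have degenerate labels -/
def S_BAD : Prop := ∀ ε : ℝ, 0 < ε → ∃ X₀ : ℕ, ∀ X : ℕ, X₀ ≤ X →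
  (((SS X).filter fun S => S.card ≤ kk X ∧ ¬ Nd (sm (zz X) S) (la (zz X) S)).card : ℝ) ≤ ε * X

/-- few sets have few large primes -/
def S_FEW : Prop := ∀ (V : ℕ) (ε : ℝ), 0 < ε → ∃ X₀ : ℕ, ∀ X : ℕ, X₀ ≤ X →
  (((SS X).filter fun S => S.card ≤ kk X ∧ (la (zz X) S).card ≤ (sm (zz X) S).card + V).card : ℝ) ≤
    ε * X

/-- the statement for the boxes, for the property `G`, the limit `cc` and the constant `B` -/
def BXG (G : Finset Ei → Prop) (cc B : ℝ) : Prop := ∀ (ι : Type) [Fintype ι] [LinearOrder ι]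
  (C : ι → Finset Ei) (X : ι → ℕ) (κ : ℝ) (S₀ : Finset Ei) (τ : ι → ZMod 3), 0 ≤ κ →
  (∀ i, (C i).card ≤ X i) →
  HB C X κ → (∀ u ∈ S₀, Pq u) → (∀ i, ∀ π ∈ C i, Pq π ∧ π ∉ S₀ ∧ rl π = τ i) →
  (∀ i l, i ≠ l → Disjoint (C i) (C l)) → S₀.card + 1 < Fintype.card ι →
  |(((Fintype.piFinset C).filter fun p => Nd S₀ (univ.image p) ∧ G (S₀ ∪ univ.image p)).card : ℝ) -
      cc * (((Fintype.piFinset C).filter fun p => Nd S₀ (univ.image p)).card : ℝ)| ≤
    B * (3 ^ S₀.card / 3 ^ Fintype.card ι) *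
      (((Fintype.piFinset C).filter fun p => Nd S₀ (univ.image p)).card : ℝ) +
    3 ^ (S₀.card * Fintype.card ι + (prs ι).card) * (κ * ∏ j, (X j : ℝ))

/-- the sum over the boxes, for the property `G`, the limit `cc` and the constant `B` -/
def KEG (G : Finset Ei → Prop) (cc B : ℝ) : Prop := ∃ C : ℝ, 1 ≤ C ∧
  ∀ (X z H k V N : ℕ) (κ : ℝ), 1 ≤ X → 1 ≤ H → 1 ≤ z → 1 ≤ V → 0 ≤ κ → C ≤ κ ^ 24 * z →
  (H : ℝ) * Real.log X < N →
  |(((RR X z H k V).filter fun S => Nd (sm z S) (la z S) ∧ G S).card : ℝ) -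
      cc * (((RR X z H k V).filter fun S => Nd (sm z S) (la z S)).card : ℝ)| ≤
    B * (1 / 3 : ℝ) ^ V * ((RR X z H k V).card : ℝ) +
    (9 * N + 9 : ℝ) ^ k * (3 ^ (9 * k ^ 2 + 9) * κ) * (X * (1 + Real.log X))

end Pool.Agent.H91.XR
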