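import Pool.Agent.H91.X9
import Pool.Agent.H91.Dz7

/-!
# The exact proportion of the trivial `3^∞`-Selmer groups
-/

set_option autoImplicit false
set_option linter.unusedVariables false
set_option linter.unusedSectionVars false

open scoped Classical
open Finset

namespace Pool.Agent.H91.XF

open NumberField
open Pool.Agent.Y692.QS (Ei w nr)
open Pool.Agent.Y715.T.Rec (cs)
open Pool.Agent.Y715.T.RecG (Pq)
open Pool.Agent.Y703.CT (Dt pD)
open Pool.Agent.Y699.E hiding Gl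
open Pool.Agent.Y696.CTK (Tri)
open Pool.Agent.Y350.CTK.Tam (te te_prime te_sq)
open Pool.Agent.H91.Sel (dD KerC unit_cases)
open Pool.Agent.H91.LKz (Pm)
open Pool.Agent.H91.Dz (Cs Gz Gl Lr U4 card_U4 cc cc_ne cc_eq U4_unit rep cs_of inj4 nrm_unit_mul
  fin_nr SB_ge dt_ps pD_ps kerC_iff nonempty_pt tri_of)
open Pool.Agent.H91.Dz7 (U6 card_U6 rep6)
open Pool.Agent.H91.XR (SS Gr nS rl card_SS)
open Pool.Agent.Y703.XK (c9)
open Pool.Agent.Y703.XL (cr)

lemma gz_iff {c : ZMod 3} (n : Ei) : Gz c n ↔ Gr c 0 (PD n) := by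
  unfold Gz Gr nS
  rw [pow_zero, Nat.card_eq_one_iff_unique]
  constructor
  · intro h
    refine ⟨⟨fun x y => ?_⟩, ⟨⟨0, fun π => by simp⟩⟩⟩
    have h1 : ∀ x : {v : PD n → ZMod 3 // ∀ π : PD n,
        ∑ ρ : PD n, cs π ρ * (v ρ - v π) - c * rl π * v π = 0}, x.1 = 0 := fun x => h x.1 x.2
    exact Subtype.ext ((h1 x).trans (h1 y).symm)
  · rintro ⟨h1, h2⟩ x hx
    have h3 := h1.elim (⟨x, hx⟩ : {v : PD n → ZMod 3 // ∀ π : PD n,
        ∑ ρ : PD n, cs π ρ * (v ρ - v π) - c * rl π * v π = 0}) ⟨0, fun π => by simp⟩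
    exact congrArg Subtype.val h3

lemma card_Gl (c : ZMod 3) (X : ℕ) : (Gl c X).card = ((SS X).filter (Gr c 0)).card := by
  rw [Pool.Agent.H91.XR.card_filter]
  unfold Gl
  congr 1
  refine filter_congr fun n _ => gz_iff n

/-- the good elements -/
lemma tri_iff {K : Type} [Field K] [NumberField K] (j : Ei ≃+* 𝓞 K) {c : ZMod 3} (hc : c ≠ 0)
    {n : Ei} (hn : PS n) (h1 : n ≠ 1) {D : Ei}
    (hD : D = w ^ c.val * n ∨ D = -(w ^ c.val * n)) : Tri (j D) ↔ Gz c n := by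
  have hne := nonempty_pt hn h1
  have hpm : Pm (dD c (fun π : PT n => (π : Ei)) (fun _ => (1 : ZMod 3))) D := by
    unfold dD
    rw [pD_ps hn]
    exact hD
  exact (Pool.Agent.H91.Lw.tri_iff2 j hc (dt_ps hn) hpm).trans kerC_iff

section count

variable {K : Type} [Field K] [NumberField K] (j : Ei ≃+* 𝓞 K)

lemma tri_U4 {u n : Ei} (hu : u ∈ U4) (hn : PS n) (h1 : n ≠ 1) : Tri (j (u * n)) ↔ Gz (cc u) n := by
  refine tri_iff j (cc_ne u) hn h1 ?_
  rcases cc_eq u hu with h | h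
  · left; rw [← h]
  · right; rw [← neg_mul, ← h]

lemma one_mem {X : ℕ} (hX : 1 ≤ X) : (1 : Ei) ∈ SB X := by
  rw [mem_SB, nrm_one]
  refine ⟨hX, ?_, ?_⟩
  · show (3 : Ei) ∣ 1 - 1
    rw [sub_self]
    exact dvd_zero _
  · exact squarefree_one

lemma one_mem_Gl {X : ℕ} (hX : 1 ≤ X) (c : ZMod 3) : (1 : Ei) ∈ Gl c X := by
  unfold Gl
  rw [mem_filter]
  refine ⟨one_mem hX, ?_⟩
  intro x _
  funext π
  exfalso
  obtain ⟨ρ, h⟩ := π
  rw [PD_one] at h
  exact notMem_empty _ h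

/-- the sums over the class -/
lemma card_gen {X : ℕ} (Q : Ei → Ei → Prop) (P : Ei → Prop)
    (h : ∀ u ∈ U4, ∀ n : Ei, PS n → n ≠ 1 → (P (u * n) ↔ Q u n)) :
    {D : Ei | nr D ≤ X ∧ Cs D ∧ P D}.ncard =
      ∑ u ∈ U4, (((SB X).filter fun n => Q u n).erase 1).card := by
  have h1 : {D : Ei | nr D ≤ X ∧ Cs D ∧ P D} =
      (((U4.sigma fun u => ((SB X).filter fun n => Q u n).erase 1).image
        fun p => p.1 * p.2 : Finset Ei) : Set Ei) := by
    ext D
    rw [mem_coe, mem_image]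
    constructor
    · rintro ⟨h1, h2, h3⟩
      obtain ⟨u, hu, n, hn, rfl⟩ := rep h2
      have hn1 : n ≠ 1 := by
        rintro rfl
        rw [mul_one] at h2
        exact h2.2.2.2.2 (U4_unit u hu)
      refine ⟨⟨u, n⟩, ?_, rfl⟩
      rw [mem_sigma]
      refine ⟨hu, ?_⟩
      rw [mem_erase, mem_filter, mem_SB]
      rw [nr_le, nrm_unit_mul hu] at h1
      exact ⟨hn1, ⟨h1, hn⟩, (h u hu n hn hn1).1 h3⟩
    · rintro ⟨⟨u, n⟩, hp, rfl⟩
      rw [mem_sigma] at hp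
      obtain ⟨hu, hn⟩ := hp
      simp only at hu hn
      rw [mem_erase, mem_filter, mem_SB] at hn
      obtain ⟨hn1, ⟨hn2, hn3⟩, hn4⟩ := hn
      refine ⟨?_, cs_of hu hn3 hn1, (h u hu n hn3 hn1).2 hn4⟩
      rw [nr_le, nrm_unit_mul hu]
      exact hn2
  rw [h1, Set.ncard_coe_finset, card_image_of_injOn, card_sigma]
  rintro ⟨u, n⟩ hp ⟨u', n'⟩ hp' heq
  rw [mem_coe, mem_sigma] at hp hp'
  simp only [mem_erase, mem_filter, mem_SB] at hp hp' heq
  obtain ⟨h3, h4⟩ := inj4 hp.1 hp'.1 hp.2.2.1.2 hp'.2.2.1.2 heq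
  subst h3 h4
  rfl

lemma sum_U4 (f : ZMod 3 → ℕ) : ∑ u ∈ U4, f (cc u) = 2 * f 1 + 2 * f 2 := by
  have d1 : U4 = {w, -w, w ^ 2, -w ^ 2} := rfl
  rw [d1, sum_insert (by decide), sum_insert (by decide), sum_insert (by decide), sum_singleton]
  have c1 : cc w = 1 := by decide
  have c2 : cc (-w) = 1 := by decide
  have c3 : cc (w ^ 2) = 2 := by decide
  have c4 : cc (-w ^ 2) = 2 := by decide
  rw [c1, c2, c3, c4]
  ring

lemma card_cls {X : ℕ} (hX : 1 ≤ X) :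
    ({D : Ei | nr D ≤ X ∧ Cs D}.ncard : ℝ) = 4 * ((SS X).card : ℝ) - 4 := by
  have h := card_gen (X := X) (fun _ _ => True) (fun _ => True) (fun _ _ _ _ _ => Iff.rfl)
  simp only [and_true, filter_true] at h
  rw [h, sum_const, card_U4, card_erase_of_mem (one_mem hX), ← card_SS]
  have h2 : 1 ≤ (SS X).card := by
    rw [card_SS]
    exact card_pos.2 ⟨1, one_mem hX⟩
  rw [smul_eq_mul, Nat.cast_mul, Nat.cast_sub h2]
  push_cast
  ring

lemma card_good {X : ℕ} (hX : 1 ≤ X) :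
    ({D : Ei | nr D ≤ X ∧ Cs D ∧ Tri (j D)}.ncard : ℝ) =
      2 * (((SS X).filter (Gr 1 0)).card : ℝ) + 2 * (((SS X).filter (Gr 2 0)).card : ℝ) - 4 := by
  have h := card_gen (X := X) (fun u n => Gz (cc u) n) (fun D => Tri (j D))
    (fun u hu n hn hn1 => tri_U4 j hu hn hn1)
  have e1 : ∑ u ∈ U4, (((SB X).filter fun n => Gz (cc u) n).erase 1).card =
      ∑ u ∈ U4, ((fun c => ((Gl c X).erase 1).card) (cc u)) := rfl
  rw [h, e1, sum_U4 (fun c => ((Gl c X).erase 1).card)]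
  rw [card_erase_of_mem (one_mem_Gl hX 1), card_erase_of_mem (one_mem_Gl hX 2), card_Gl, card_Gl]
  have p1 : 1 ≤ ((SS X).filter (Gr 1 0)).card := by
    rw [← card_Gl]
    exact card_pos.2 ⟨1, one_mem_Gl hX 1⟩
  have p2 : 1 ≤ ((SS X).filter (Gr 2 0)).card := by
    rw [← card_Gl]
    exact card_pos.2 ⟨1, one_mem_Gl hX 2⟩
  rw [Nat.cast_add, Nat.cast_mul, Nat.cast_mul, Nat.cast_sub p1, Nat.cast_sub p2]
  push_cast
  ring

/-- all the squarefree elements prime to `√-3` -/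
lemma card_all {X : ℕ} : ({D : Ei | nr D ≤ X ∧ Squarefree D ∧ ¬ te ∣ D}.ncard : ℝ) =
    6 * ((SS X).card : ℝ) := by
  have hun : ∀ u ∈ U6, nrm u = 1 := by decide
  have hun2 : ∀ u ∈ U6, IsUnit u := by
    intro u hu
    rw [Pool.Agent.Y692.QS.isUnit_iff]
    revert u
    decide
  have h1 : {D : Ei | nr D ≤ X ∧ Squarefree D ∧ ¬ te ∣ D} =
      (((U6 ×ˢ SB X).image fun p => p.1 * p.2 : Finset Ei) : Set Ei) := by
    ext D
    rw [mem_coe, mem_image]
    constructor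
    · rintro ⟨h1, h2, h3⟩
      obtain ⟨u, hu, n, hn, rfl⟩ := rep6 h3 h2
      refine ⟨(u, n), mem_product.2 ⟨hu, ?_⟩, rfl⟩
      rw [mem_SB]
      rw [nr_le, nrm_mul, hun u hu, one_mul] at h1
      exact ⟨h1, hn⟩
    · rintro ⟨⟨u, n⟩, hp, rfl⟩
      rw [mem_product, mem_SB] at hp
      obtain ⟨hu, hn1, hn2⟩ := hp
      simp only at hu hn1 hn2
      refine ⟨?_, ?_, ?_⟩
      · rw [nr_le, nrm_mul, hun u hu, one_mul]
        exact hn1
      · intro x hx
        exact hn2.sqf x (((hun2 u hu).dvd_mul_left).1 hx)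
      · intro h
        have h4 := ((hun2 u hu).dvd_mul_left).1 h
        have h5 := dvd_sub h4 (Pool.Agent.H91.Dz.te_three.trans hn2.prm)
        rw [sub_sub_cancel] at h5
        exact te_prime.not_isUnit (isUnit_of_dvd_one h5)
  rw [h1, Set.ncard_coe_finset, card_image_of_injOn, card_product, card_U6, ← card_SS]
  · push_cast
    ring
  · rintro ⟨u, n⟩ hp ⟨u', n'⟩ hp' heq
    rw [mem_coe, mem_product, mem_SB] at hp hp'
    simp only at heq hp hp'
    have h1 := congrArg Pool.Agent.Y692.QS.ns heq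
    rw [Pool.Agent.Y692.QS.ns_mul, Pool.Agent.Y692.QS.ns_mul,
      Pool.Agent.Y696.CT.ns_unit (hun2 u hp.1), Pool.Agent.Y696.CT.ns_unit (hun2 u' hp'.1), one_mul,
      one_mul, Pool.Agent.Y696.CT.ns_of_prim hp.2.2.prm,
      Pool.Agent.Y696.CT.ns_of_prim hp'.2.2.prm] at h1
    subst h1
    exact Prod.ext (mul_right_cancel₀ hp.2.2.ne heq) rfl

/-- **The exact proportion.** -/
theorem lim_good : Filter.Tendsto (fun X : ℕ =>
    ({D : Ei | nr D ≤ X ∧ Cs D ∧ Tri (j D)}.ncard : ℝ) /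
      ({D : Ei | nr D ≤ X ∧ Squarefree D ∧ ¬ te ∣ D}.ncard : ℝ)) Filter.atTop
    (nhds (2 / 3 * c9)) := by
  have hc : cr 0 = c9 := by
    unfold cr
    rw [range_zero, prod_empty, div_one]
  have l1 := Pool.Agent.H91.XR.law (c := 1) one_ne_zero 0
  have l2 := Pool.Agent.H91.XR.law (c := 2) (by decide) 0
  rw [hc] at l1 l2
  obtain ⟨c', hc', X₀, hlo⟩ := SB_ge
  have hN : Filter.Tendsto (fun X : ℕ => ((SS X).card : ℝ)) Filter.atTop Filter.atTop := by
    have h1 : Filter.Tendsto (fun X : ℕ => c' * (X : ℝ)) Filter.atTop Filter.atTop :=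
      tendsto_natCast_atTop_atTop.const_mul_atTop hc'
    refine Filter.tendsto_atTop_mono' _ ?_ h1
    filter_upwards [Filter.eventually_ge_atTop X₀] with X hX
    rw [card_SS]
    exact hlo X hX
  have l3 : Filter.Tendsto (fun X : ℕ => (2 / 3 : ℝ) / ((SS X).card : ℝ)) Filter.atTop (nhds 0) :=
    tendsto_const_nhds.div_atTop hN
  have l4 := ((l1.const_mul (1 / 3 : ℝ)).add (l2.const_mul (1 / 3 : ℝ))).sub l3
  have e : (1 / 3 : ℝ) * c9 + 1 / 3 * c9 - 0 = 2 / 3 * c9 := by ring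
  rw [e] at l4
  refine l4.congr' ?_
  filter_upwards [Filter.eventually_ge_atTop 1, hN.eventually_gt_atTop 0] with X hX hp
  rw [card_good j hX, card_all]
  field_simp
  ring

end count

end Pool.Agent.H91.XF
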