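import Pool.Agent.H91.X10

/-!
# The exact proportion, in the ring of integers
-/

set_option autoImplicit false
set_option linter.unusedVariables false
set_option linter.unusedSectionVars false

open scoped Classical

namespace Pool.Agent.H91.XF

open NumberField
open Pool.Agent.Y692.QS (Ei w nr)
open Pool.Agent.Y696.CTK (Tri)
open Pool.Agent.Y703.XK (c9)
open Pool.Agent.H91.Dz7 (img img6)
open Pool.Agent.H91.Fin1 (Cl)

variable {K : Type} [Field K] [NumberField K] (j : Ei ≃+* 𝓞 K)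

/-- **The exact proportion among the squarefree elements prime to `3`.** -/
theorem lim_K (hj : ∀ z : Ei, Algebra.norm ℤ (j z) = nr z) : Filter.Tendsto (fun X : ℕ =>
    ({D : 𝓞 K | (|Algebra.norm ℤ D| ≤ X ∧ Squarefree D ∧ IsCoprime D 3) ∧ Cl D ∧ Tri D}.ncard : ℝ) /
      ({D : 𝓞 K | |Algebra.norm ℤ D| ≤ X ∧ Squarefree D ∧ IsCoprime D 3}.ncard : ℝ)) Filter.atTop
    (nhds (2 / 3 * c9)) := by
  refine (lim_good j).congr fun X => ?_
  have e1 : {D : 𝓞 K | (|Algebra.norm ℤ D| ≤ X ∧ Squarefree D ∧ IsCoprime D 3) ∧ Cl D ∧ Tri D} =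
      {D : 𝓞 K | |Algebra.norm ℤ D| ≤ X ∧ Squarefree D ∧ Cl D ∧ Tri D} := by
    ext D
    constructor
    · rintro ⟨⟨g1, g2, g3⟩, g4, g5⟩
      exact ⟨g1, g2, g4, g5⟩
    · rintro ⟨g1, g2, g4, g5⟩
      exact ⟨⟨g1, g2, g4.1⟩, g4, g5⟩
  rw [e1, img j hj X Tri, img6 j hj X]

theorem c9_val : (0.426 : ℝ) < 2 / 3 * c9 ∧ 2 / 3 * c9 < 0.4261 := by
  have h := Pool.Agent.Y703.XL.t_C9
  have h1 := h.2.2.2.1
  have h2 := h.2.2.2.2
  constructor <;> linarith

end Pool.Agent.H91.XF
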