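import Pool.Agent.H91.X11
import Pool.Agent.H91.Eq3
import Pool.Agent.H91.Fin2

/-!
# The exact proportion for all residues but `± 1` modulo `3 √-3`
-/

set_option autoImplicit false
set_option linter.unusedVariables false
set_option linter.unusedSectionVars false

open scoped Classical
open Finset

namespace Pool.Agent.H91.XH

open NumberField Filter
open Pool.Agent.Y692.QS (Ei w nr)
open Pool.Agent.Y715.T.Rec (cs)
open Pool.Agent.Y715.T.RecG (Pq)
open Pool.Agent.Y703.CT (Dt pD ClsE ppr Ker)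
open Pool.Agent.Y699.E (SB PB mem_SB mem_PB PS PD PT prm nrm tht lg ez sum_ez tht_iff nr_le
  cls_iff cls_card ppr_eq one_le_lg)
open Pool.Agent.Y696.CTK (Tri)
open Pool.Agent.Y350.CTK.Tam (te te_prime te_sq te_m)
open Pool.Agent.H91.Sel (dD)
open Pool.Agent.H91.LKz (Pm)
open Pool.Agent.H91.Dz (Cs SB_ge fin_nr dt_ps pD_ps nonempty_pt)
open Pool.Agent.H91.XR (SS Gr card_SS)
open Pool.Agent.H91.Eq3
open Pool.Agent.H91.Fc2 (Cm three_te_of)
open Pool.Agent.Y703.XK (c9)
open Pool.Agent.Y703.XL (cr)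

lemma lg_le {X : ℕ} (hX : 1 ≤ X) : lg X ≤ 1 + 2 * Real.log X := by
  unfold lg
  have hX0 : (0 : ℝ) < X := by exact_mod_cast hX
  have h1 : (Nat.log 2 X : ℝ) * Real.log 2 ≤ Real.log X := by
    have h2 : (2 : ℝ) ^ (Nat.log 2 X) ≤ X := by exact_mod_cast Nat.pow_log_le_self 2 (by omega)
    have h3 := Real.log_le_log (by positivity) h2
    rwa [Real.log_pow] at h3
  have h2 : (0.5 : ℝ) ≤ Real.log 2 := by
    have := Real.log_two_gt_d9
    linarith
  have h3 : (0 : ℝ) ≤ Nat.log 2 X := Nat.cast_nonneg _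
  nlinarith

/-- the error is small -/
lemma err_lim : Tendsto (fun X : ℕ => 243 * (96 * lg X + 16) * Real.sqrt X / (X : ℝ)) atTop
    (nhds 0) := by
  have h1 : Tendsto (fun x : ℝ => Real.log x / x ^ (1 / 2 : ℝ)) atTop (nhds 0) :=
    (isLittleO_log_rpow_atTop (by norm_num)).tendsto_div_nhds_zero
  have h2 : Tendsto (fun X : ℕ => Real.log X / (X : ℝ) ^ (1 / 2 : ℝ)) atTop (nhds 0) :=
    h1.comp tendsto_natCast_atTop_atTop
  have h3 : Tendsto (fun X : ℕ => ((X : ℝ) ^ (1 / 2 : ℝ))⁻¹) atTop (nhds 0) :=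
    ((tendsto_rpow_atTop (by norm_num)).comp tendsto_natCast_atTop_atTop).inv_tendsto_atTop
  have h4 : Tendsto (fun X : ℕ => 46656 * (Real.log X / (X : ℝ) ^ (1 / 2 : ℝ)) +
      27216 * ((X : ℝ) ^ (1 / 2 : ℝ))⁻¹) atTop (nhds 0) := by
    have := (h2.const_mul 46656).add (h3.const_mul 27216)
    rwa [mul_zero, mul_zero, add_zero] at this
  refine squeeze_zero' ?_ ?_ h4
  · filter_upwards with X
    have := one_le_lg X
    have : 0 ≤ lg X := by linarith
    positivity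
  · filter_upwards [eventually_ge_atTop 1] with X hX
    have hX0 : (0 : ℝ) < X := by exact_mod_cast hX
    have h5 := lg_le hX
    have h6 : Real.sqrt X / X = ((X : ℝ) ^ (1 / 2 : ℝ))⁻¹ := by
      rw [← Real.sqrt_eq_rpow]
      rw [div_eq_iff hX0.ne', inv_mul_eq_div, eq_div_iff (Real.sqrt_pos.2 hX0).ne',
        Real.mul_self_sqrt hX0.le]
    have h7 : 0 ≤ ((X : ℝ) ^ (1 / 2 : ℝ))⁻¹ := by positivity
    calc 243 * (96 * lg X + 16) * Real.sqrt X / (X : ℝ)
        = 243 * (96 * lg X + 16) * (Real.sqrt X / X) := by ring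
      _ = 243 * (96 * lg X + 16) * ((X : ℝ) ^ (1 / 2 : ℝ))⁻¹ := by rw [h6]
      _ ≤ 243 * (96 * (1 + 2 * Real.log X) + 16) * ((X : ℝ) ^ (1 / 2 : ℝ))⁻¹ := by gcongr
      _ = _ := by rw [div_eq_mul_inv]; ring

/-- the proportion of the norms different from `1` modulo nine -/
theorem lim_cl : Tendsto (fun X : ℕ => ({D : Ei | nr D ≤ X ∧ ClsE D}.ncard : ℝ) /
    ((SS X).card : ℝ)) atTop (nhds (2 / 3)) := by
  obtain ⟨c', hc', X₀, hlo⟩ := SB_ge
  have key : ∀ X : ℕ, 1 ≤ X →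
      |({D : Ei | nr D ≤ X ∧ ClsE D}.ncard : ℝ) - 2 / 3 * ((SB X).card : ℝ)| ≤
        243 * (96 * lg X + 16) * Real.sqrt X := by
    intro X hX
    have h1 : ({D : Ei | nr D ≤ X ∧ ClsE D}.ncard : ℝ) =
        (((SB X).filter fun n => tht n ≠ 0).card : ℝ) := by
      rw [cls_card]
      rfl
    have h2 : ∑ c : ZMod 3, ∑ n ∈ SB X, Fz c n =
        3 * (((SB X).filter fun n => tht n = 0).card : ℂ) := by
      rw [sum_comm]
      have : ∀ n ∈ SB X, ∑ c : ZMod 3, Fz c n = if tht n = 0 then 3 else 0 := by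
        intro n _
        exact sum_ez (tht n)
      rw [sum_congr rfl this, ← sum_filter, sum_const, nsmul_eq_mul]
      ring
    have h3 : ∑ c : ZMod 3, ∑ n ∈ SB X, Fz c n =
        ((SB X).card : ℂ) + (∑ n ∈ SB X, Fz 1 n + ∑ n ∈ SB X, Fz 2 n) := by
      have e : ∀ f : ZMod 3 → ℂ, ∑ c, f c = f 0 + (f 1 + f 2) := by
        intro f
        have : ∑ c, f c = f 0 + f 1 + f 2 := Fin.sum_univ_three f
        rw [this]; ring
      rw [e]
      congr 1
      have : ∀ n ∈ SB X, Fz 0 n = 1 := by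
        intro n _
        unfold Fz
        rw [zero_mul, Pool.Agent.Y699.E.ez_zero]
      rw [sum_congr rfl this, sum_const, nsmul_eq_mul, mul_one]
    have h4 : (((SB X).filter fun n => tht n = 0).card : ℝ) +
        (((SB X).filter fun n => tht n ≠ 0).card : ℝ) = ((SB X).card : ℝ) := by
      exact_mod_cast card_filter_add_card_filter_not (s := SB X) (fun n => tht n = 0)
    rw [h3] at h2
    have h5 : ((({D : Ei | nr D ≤ X ∧ ClsE D}.ncard : ℝ) - 2 / 3 * ((SB X).card : ℝ) : ℝ) : ℂ) =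
        -(1 / 3) * (∑ n ∈ SB X, Fz 1 n + ∑ n ∈ SB X, Fz 2 n) := by
      have h6 : (((SB X).filter fun n => tht n ≠ 0).card : ℝ) =
          ((SB X).card : ℝ) - (((SB X).filter fun n => tht n = 0).card : ℝ) := by linarith
      rw [h1, h6]
      push_cast
      linear_combination (1 / 3 : ℂ) * h2
    have h7 := sum_bound (c := 1) one_ne_zero hX
    have h8 := sum_bound (c := 2) (by decide) hX
    rw [← Real.norm_eq_abs, ← Complex.norm_real, h5, norm_mul]
    have h9 := norm_add_le (∑ n ∈ SB X, Fz 1 n) (∑ n ∈ SB X, Fz 2 n)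
    have h10 : ‖(-(1 / 3) : ℂ)‖ = 1 / 3 := by
      rw [norm_neg]
      norm_num
    rw [h10]
    have h11 : 0 ≤ 243 * (96 * lg X + 16) * Real.sqrt X := (norm_nonneg _).trans h7
    linarith
  have h1 : Tendsto (fun X : ℕ => ({D : Ei | nr D ≤ X ∧ ClsE D}.ncard : ℝ) / ((SS X).card : ℝ) -
      2 / 3) atTop (nhds 0) := by
    have h2 := err_lim.const_mul (1 / c')
    rw [mul_zero] at h2
    refine squeeze_zero_norm' ?_ h2
    filter_upwards [eventually_ge_atTop 1, eventually_ge_atTop X₀] with X hX hX0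
    have h3 := hlo X hX0
    have hXp : (0 : ℝ) < X := by exact_mod_cast hX
    have hS : (0 : ℝ) < ((SB X).card : ℝ) := lt_of_lt_of_le (by positivity) h3
    rw [card_SS]
    have e : ({D : Ei | nr D ≤ X ∧ ClsE D}.ncard : ℝ) / ((SB X).card : ℝ) - 2 / 3 =
        (({D : Ei | nr D ≤ X ∧ ClsE D}.ncard : ℝ) - 2 / 3 * ((SB X).card : ℝ)) /
          ((SB X).card : ℝ) := by
      field_simp
    rw [e, norm_div, Real.norm_eq_abs, Real.norm_eq_abs, abs_of_pos hS]
    have h4 := key X hX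
    have h5 : 0 ≤ 243 * (96 * lg X + 16) * Real.sqrt X := (abs_nonneg _).trans h4
    calc _ ≤ (243 * (96 * lg X + 16) * Real.sqrt X) / (c' * X) := by gcongr
      _ = _ := by field_simp
  have h2 := h1.add_const (2 / 3)
  rw [zero_add] at h2
  refine h2.congr fun X => ?_
  ring

/-- the kernel and the number of the solutions -/
lemma ker_nS {n : Ei} (hn : PS n) (h1 : n ≠ 1) :
    Ker (fun π : PT n => (π : Ei)) (fun _ => (1 : ZMod 3)) ↔
      Pool.Agent.Y703.XL.nS (PD n) = 3 ^ (0 + 1) := by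
  obtain ⟨i₀⟩ := nonempty_pt hn h1
  let V := {v : PD n → ZMod 3 // ∀ π : PD n, ∑ ρ : PD n, cs π ρ * (v ρ - v π) = 0}
  let f : ZMod 3 → V := fun a => ⟨fun _ => a, fun π => by simp⟩
  have hf : Function.Injective f := by
    intro a b hab
    exact congrFun (congrArg Subtype.val hab) i₀
  have hker : Ker (fun π : PT n => (π : Ei)) (fun _ => (1 : ZMod 3)) ↔ Function.Surjective f := by
    constructor
    · intro hk v
      refine ⟨v.1 i₀, Subtype.ext ?_⟩
      funext π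
      exact (hk v.1 (fun j => by
        have := v.2 j
        simp only [one_mul]
        exact this) π i₀).symm
    · intro hs v hv i j
      obtain ⟨a, ha⟩ := hs ⟨v, fun π => by
        have := hv π
        simp only [one_mul] at this
        exact this⟩
      have h2 := congrArg Subtype.val ha
      have h3 : (fun _ => a) = v := h2
      rw [← h3]
  rw [hker]
  have hc : Nat.card (ZMod 3) = 3 := by
    rw [Nat.card_eq_fintype_card, ZMod.card]
  constructor
  · intro hs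
    have := Nat.card_eq_of_bijective f ⟨hf, hs⟩
    rw [hc] at this
    unfold Pool.Agent.Y703.XL.nS
    exact this.symm
  · intro hcard
    have h3 : Nat.card V = Nat.card (ZMod 3) := by
      rw [hc]
      exact hcard
    have h4 : Finite V := inferInstance
    have h5 : Fintype V := Fintype.ofFinite V
    refine ((Fintype.bijective_iff_injective_and_card f).2 ⟨hf, ?_⟩).2
    rw [← Nat.card_eq_fintype_card, ← Nat.card_eq_fintype_card, h3]

lemma cls_ne {n : Ei} (h : ClsE n) : n ≠ 1 := by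
  rintro rfl
  apply h.2.2
  have : nr (1 : Ei) - 1 = 0 := by decide
  rw [this]
  exact dvd_zero _

section
variable {K : Type} [Field K] [NumberField K] (j : Ei ≃+* 𝓞 K)

lemma tri_cls {n D : Ei} (h : ClsE n) (hD : Pm n D) :
    Tri (j D) ↔ Pool.Agent.Y703.XL.nS (ppr n) = 3 ^ (0 + 1) := by
  have hn : PS n := ⟨h.1, h.2.1⟩
  have h1 := cls_ne h
  have hne := nonempty_pt hn h1
  rw [ppr_eq hn.ne, ← ker_nS hn h1]
  refine Pool.Agent.H91.Lw1.tri_iff1 j (dt_ps hn) ?_ ?_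
  · rw [pD_ps hn]
    exact h.2.2
  · rw [Pool.Agent.H91.Tam1.dD_zero, pD_ps hn]
    exact hD

/-- the split of the class -/
lemma split {D : Ei} : (Squarefree D ∧ Cm D) ↔ (Cs D ∨ ClsE D ∨ ClsE (-D)) := by
  have h3te : ∀ z : Ei, 3 * te ∣ z → (3 : Ei) ∣ z := fun z h => (dvd_mul_right 3 te).trans h
  have hnine : ∀ z : Ei, (3 : Ei) ∣ z - 1 → (¬ 3 * te ∣ z - 1 ↔ ¬ (9 : ℤ) ∣ nr z - 1) := by
    intro z hz
    rw [not_iff_not]
    constructor
    · rintro ⟨t, ht⟩
      by_contra h9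
      have hz2 : z = 1 + 3 * (te * t) := by linear_combination ht
      rw [hz2] at h9
      exact te_m h9 (dvd_mul_right _ _)
    · exact three_te_of hz
  have hun : ∀ z : Ei, ClsE z → ¬ IsUnit z := by
    intro z hz hu
    have := Pool.Agent.Y699.E.eq_one_of_prm hz.1 hu
    exact cls_ne hz this
  have hte : ∀ z : Ei, (3 : Ei) ∣ z - 1 → ¬ te ∣ z := by
    intro z hz h
    have h5 := dvd_sub h (Pool.Agent.H91.Dz.te_three.trans hz)
    rw [sub_sub_cancel] at h5
    exact te_prime.not_isUnit (isUnit_of_dvd_one h5)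
  have hcf : ∀ z : Ei, Squarefree z → ∀ p : Ei, p ^ 3 ∣ z → IsUnit p := by
    intro z hz p hp
    exact hz p ((Dvd.intro p (by ring)).trans hp)
  have hneg : ∀ z : Ei, (3 : Ei) ∣ -z - 1 ↔ (3 : Ei) ∣ z + 1 := by
    intro z
    have e : -z - 1 = -(z + 1) := by ring
    rw [e, dvd_neg]
  have hneg2 : ∀ z : Ei, 3 * te ∣ -z - 1 ↔ 3 * te ∣ z + 1 := by
    intro z
    have e : -z - 1 = -(z + 1) := by ring
    rw [e, dvd_neg]
  have hnot : ∀ z : Ei, (3 : Ei) ∣ z - 1 → ¬ (3 : Ei) ∣ z + 1 := by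
    intro z h1 h2
    have h3 := dvd_sub h2 h1
    have e : z + 1 - (z - 1) = ((2 : ℤ) : Ei) := by push_cast; ring
    rw [e] at h3
    have h4 : (((3 : ℤ) : Ei)) ∣ ((2 : ℤ) : Ei) := by exact_mod_cast h3
    rw [Pool.Agent.Y692.QS.int_dvd_int] at h4
    omega
  have hsn : ∀ z : Ei, Squarefree z → Squarefree (-z) := fun z h x hx => h x ((dvd_neg).1 hx)
  constructor
  · rintro ⟨hs, h1, h2, h3, h4, h5⟩
    by_cases ha : (3 : Ei) ∣ D - 1
    · right; left
      exact ⟨ha, hs, (hnine D ha).1 h2⟩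
    · by_cases hb : (3 : Ei) ∣ D + 1
      · right; right
        have ha' := (hneg D).2 hb
        refine ⟨ha', hsn D hs, (hnine (-D) ha').1 ?_⟩
        rw [hneg2]
        exact h3
      · left
        exact ⟨h1, ha, hb, hs, h5⟩
  · rintro (⟨h1, h2, h3, h4, h5⟩ | h | h)
    · exact ⟨h4, h1, fun h => h2 (h3te _ h), fun h => h3 (h3te _ h), hcf D h4, h5⟩
    · exact ⟨h.2.1, hte D h.1, (hnine D h.1).2 h.2.2, fun h' => hnot D h.1 (h3te _ h'),
        hcf D h.2.1, hun D h⟩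
    · have hs : Squarefree D := by
        have := hsn _ h.2.1
        rwa [neg_neg] at this
      have hb := (hneg D).1 h.1
      refine ⟨hs, ?_, ?_, ?_, hcf D hs, ?_⟩
      · intro h'
        exact hte _ h.1 ((dvd_neg).2 h')
      · intro h'
        exact hnot D (h3te _ h') hb
      · have := (hnine (-D) h.1).2 h.2.2
        rwa [hneg2] at this
      · intro hu
        exact hun _ h hu.neg

/-- the number of the good elements -/
lemma card_good2 (X : ℕ) :
    {D : Ei | nr D ≤ X ∧ (Squarefree D ∧ Cm D) ∧ Tri (j D)}.ncard =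
      {D : Ei | nr D ≤ X ∧ Cs D ∧ Tri (j D)}.ncard +
      2 * {D : Ei | nr D ≤ X ∧ ClsE D ∧ Pool.Agent.Y703.XL.nS (ppr D) = 3 ^ (0 + 1)}.ncard := by
  set A := {D : Ei | nr D ≤ X ∧ Cs D ∧ Tri (j D)} with hA
  set B := {D : Ei | nr D ≤ X ∧ ClsE D ∧ Pool.Agent.Y703.XL.nS (ppr D) = 3 ^ (0 + 1)} with hB
  set B' : Set Ei := (fun z => -z) '' B with hB'
  have hnr : ∀ z : Ei, nr (-z) = nr z := by
    intro z
    unfold Pool.Agent.Y692.QS.nr
    simp
  have hAf : A.Finite := (fin_nr X).subset fun D hD => hD.1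
  have hBf : B.Finite := (fin_nr X).subset fun D hD => hD.1
  have hBf' : B'.Finite := hBf.image _
  have hnot : ∀ z : Ei, (3 : Ei) ∣ z - 1 → ¬ (3 : Ei) ∣ z + 1 := by
    intro z h1 h2
    have h3 := dvd_sub h2 h1
    have e : z + 1 - (z - 1) = ((2 : ℤ) : Ei) := by push_cast; ring
    rw [e] at h3
    have h4 : (((3 : ℤ) : Ei)) ∣ ((2 : ℤ) : Ei) := by exact_mod_cast h3
    rw [Pool.Agent.Y692.QS.int_dvd_int] at h4
    omega
  have hneg : ∀ z : Ei, (3 : Ei) ∣ -z - 1 ↔ (3 : Ei) ∣ z + 1 := by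
    intro z
    have e : -z - 1 = -(z + 1) := by ring
    rw [e, dvd_neg]
  have h1 : {D : Ei | nr D ≤ X ∧ (Squarefree D ∧ Cm D) ∧ Tri (j D)} = A ∪ (B ∪ B') := by
    ext D
    rw [Set.mem_union, Set.mem_union]
    constructor
    · rintro ⟨g1, g2, g3⟩
      rcases split.1 g2 with h | h | h
      · exact Or.inl ⟨g1, h, g3⟩
      · exact Or.inr (Or.inl ⟨g1, h, (tri_cls j h (Or.inl rfl)).1 g3⟩)
      · refine Or.inr (Or.inr ⟨-D, ⟨by rw [hnr]; exact g1, h, ?_⟩, neg_neg D⟩)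
        exact (tri_cls j h (D := D) (Or.inr (neg_neg D).symm)).1 g3
    · rintro (⟨g1, g2, g3⟩ | ⟨g1, g2, g3⟩ | ⟨z, ⟨g1, g2, g3⟩, rfl⟩)
      · exact ⟨g1, split.2 (Or.inl g2), g3⟩
      · exact ⟨g1, split.2 (Or.inr (Or.inl g2)), (tri_cls j g2 (Or.inl rfl)).2 g3⟩
      · refine ⟨by rw [hnr]; exact g1, split.2 (Or.inr (Or.inr ?_)), ?_⟩
        · rw [neg_neg]
          exact g2
        · exact (tri_cls j g2 (Or.inr rfl)).2 g3
  have hd1 : Disjoint B B' := by
    rw [Set.disjoint_left]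
    rintro D ⟨-, g2, -⟩ ⟨z, ⟨-, g4, -⟩, hz⟩
    have hz' : z = -D := by rw [← hz]; ring
    subst hz'
    exact hnot D g2.1 ((hneg D).1 g4.1)
  have hd2 : Disjoint A (B ∪ B') := by
    rw [Set.disjoint_left]
    rintro D ⟨-, g2, -⟩ (⟨-, g4, -⟩ | ⟨z, ⟨-, g4, -⟩, hz⟩)
    · exact g2.2.1 g4.1
    · have hz' : z = -D := by rw [← hz]; ring
      subst hz'
      exact g2.2.2.1 ((hneg D).1 g4.1)
  rw [h1, Set.ncard_union_eq hd2 hAf (hBf.union hBf'), Set.ncard_union_eq hd1 hBf hBf',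
    hB', Set.ncard_image_of_injective _ neg_injective]
  ring

/-- **The exact proportion.** -/
theorem lim_good2 : Tendsto (fun X : ℕ =>
    ({D : Ei | nr D ≤ X ∧ (Squarefree D ∧ Cm D) ∧ Tri (j D)}.ncard : ℝ) /
      ({D : Ei | nr D ≤ X ∧ Squarefree D ∧ ¬ te ∣ D}.ncard : ℝ)) atTop
    (nhds (8 / 9 * c9)) := by
  have hc : cr 0 = c9 := by
    unfold cr
    rw [range_zero, prod_empty, div_one]
  have l1 := Pool.Agent.H91.XF.lim_good j
  have l2 := Pool.Agent.Y703.XL.t_LAW 0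
  rw [hc] at l2
  have l3 := lim_cl
  have l4 := l1.add ((l2.mul l3).const_mul (1 / 3))
  have e : 2 / 3 * c9 + 1 / 3 * (c9 * (2 / 3)) = 8 / 9 * c9 := by ring
  rw [e] at l4
  refine l4.congr' ?_
  obtain ⟨c', hc', X₀, hlo⟩ := SB_ge
  have hpos := l3.eventually (lt_mem_nhds (show (0 : ℝ) < 2 / 3 by norm_num))
  filter_upwards [eventually_ge_atTop 1, eventually_ge_atTop X₀, hpos] with X hX hX0 hp
  have h3 := hlo X hX0
  have hXp : (0 : ℝ) < X := by exact_mod_cast hX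
  have hS : (0 : ℝ) < ((SS X).card : ℝ) := by
    rw [card_SS]
    exact lt_of_lt_of_le (by positivity) h3
  have hM : (0 : ℝ) < ({D : Ei | nr D ≤ X ∧ ClsE D}.ncard : ℝ) := by
    by_contra h
    push Not at h
    have : ({D : Ei | nr D ≤ X ∧ ClsE D}.ncard : ℝ) / ((SS X).card : ℝ) ≤ 0 :=
      div_nonpos_of_nonpos_of_nonneg h hS.le
    linarith
  rw [card_good2 j X, Pool.Agent.H91.XF.card_all]
  push_cast
  field_simp
  ring

/-- the class in the ring of integers -/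
lemma cm_iff {z : Ei} : Cm z ↔ Pool.Agent.H91.Fin2.Cl2 (j z) := by
  constructor
  · rintro ⟨h1, h2, h3, h4, h5⟩
    refine ⟨(Pool.Agent.H91.Dz7.cop_iff j).2 h1, ?_, ?_, ?_⟩
    · intro t ht
      have hte : (j te) ^ 2 = -3 := by rw [← map_pow, te_sq, map_neg, map_ofNat]
      have hfac : (t - j te) * (t + j te) = 0 := by linear_combination ht - hte
      have h6 : ∀ x : Ei, 3 * t ∣ j x → 3 * te ∣ x := by
        intro x hx
        have h7 : j (3 * te) ∣ j x := by
          rw [map_mul, map_ofNat]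
          rcases mul_eq_zero.1 hfac with h | h
          · rw [sub_eq_zero.1 h] at hx
            exact hx
          · rw [eq_neg_of_add_eq_zero_left h] at hx
            rwa [mul_neg, neg_dvd] at hx
        exact (map_dvd_iff j).1 h7
      constructor
      · intro h
        apply h2
        apply h6
        rwa [map_sub, map_one]
      · intro h
        apply h3
        apply h6
        rwa [map_add, map_one]
    · intro p hp
      obtain ⟨q, rfl⟩ := j.surjective p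
      rw [← map_pow, map_dvd_iff j] at hp
      exact (h4 q hp).map j
    · intro h
      exact h5 ((MulEquiv.isUnit_map j).1 h)
  · exact Pool.Agent.H91.Fin2.cm_of j

/-- **The exact proportion among the squarefree elements prime to `3`.** -/
theorem lim_K2 (hj : ∀ z : Ei, Algebra.norm ℤ (j z) = nr z) : Tendsto (fun X : ℕ =>
    ({D : 𝓞 K | (|Algebra.norm ℤ D| ≤ X ∧ Squarefree D ∧ IsCoprime D 3) ∧
      Pool.Agent.H91.Fin2.Cl2 D ∧ Tri D}.ncard : ℝ) /
      ({D : 𝓞 K | |Algebra.norm ℤ D| ≤ X ∧ Squarefree D ∧ IsCoprime D 3}.ncard : ℝ)) atTop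
    (nhds (8 / 9 * c9)) := by
  refine (lim_good2 j).congr fun X => ?_
  rw [Pool.Agent.H91.Dz7.img6 j hj X]
  congr 2
  have h1 : {D : 𝓞 K | (|Algebra.norm ℤ D| ≤ X ∧ Squarefree D ∧ IsCoprime D 3) ∧
      Pool.Agent.H91.Fin2.Cl2 D ∧ Tri D} =
      j '' {z : Ei | nr z ≤ X ∧ (Squarefree z ∧ Cm z) ∧ Tri (j z)} := by
    ext D
    constructor
    · rintro ⟨⟨g1, g2, g3⟩, g4, g5⟩
      obtain ⟨z, rfl⟩ := j.surjective D
      refine ⟨z, ⟨?_, ⟨(Pool.Agent.H91.Dz7.sqf_iff j).1 g2, (cm_iff j).2 g4⟩, g5⟩, rfl⟩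
      rw [hj] at g1
      exact (le_abs_self _).trans g1
    · rintro ⟨z, ⟨g1, ⟨g2, g3⟩, g4⟩, rfl⟩
      have h5 := (cm_iff j).1 g3
      refine ⟨⟨?_, (Pool.Agent.H91.Dz7.sqf_iff j).2 g2, h5.1⟩, h5, g4⟩
      rw [hj, abs_of_nonneg (Pool.Agent.Y692.QS.nr_nonneg z)]
      exact g1
  rw [h1, Set.ncard_image_of_injective _ j.injective]

theorem c9_val2 : (0.568 : ℝ) < 8 / 9 * c9 ∧ 8 / 9 * c9 < 0.5681 := by
  have h := Pool.Agent.Y703.XL.t_C9
  have h1 := h.2.2.2.1
  have h2 := h.2.2.2.2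
  constructor <;> linarith

end

end Pool.Agent.H91.XH
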