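import Pool.Agent.H91.X3

/-!
# The sum over the boxes, with a general condition of the boxes

The same as `X3`, for a general condition in place of `Nd`.
-/

set_option autoImplicit false
set_option linter.unusedVariables false

namespace Pool.Agent.H91.XR

open Finset
open Pool.Agent.Y692.QS (Ei w nr toC)
open Pool.Agent.Y715.T.Rec (cs)
open Pool.Agent.Y715.T.RecG (Pq)
open Pool.Agent.Y699.E (ez nrm QB mem_QB pq_nrm_two nrm_prod PS_prod PD SB mem_SB card_SB_le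
  hsum_SB lg)
open Pool.Agent.Y703.CX (jj XX)
open Pool.Agent.Y703.XK (prs HB ext c9 sm la bl S_BIL)
open scoped Classical

/-- the statement for the boxes, for the property `G`, the limit `cc` and the constant `B` -/
def BXN (Nn : Finset Ei → Finset Ei → Prop) (G : Finset Ei → Prop) (cc B : ℝ) : Prop := ∀ (ι : Type) [Fintype ι] [LinearOrder ι]
  (C : ι → Finset Ei) (X : ι → ℕ) (κ : ℝ) (S₀ : Finset Ei) (τ : ι → ZMod 3), 0 ≤ κ →
  (∀ i, (C i).card ≤ X i) →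
  HB C X κ → (∀ u ∈ S₀, Pq u) → (∀ i, ∀ π ∈ C i, Pq π ∧ π ∉ S₀ ∧ rl π = τ i) →
  (∀ i l, i ≠ l → Disjoint (C i) (C l)) → S₀.card + 1 < Fintype.card ι →
  |(((Fintype.piFinset C).filter fun p => Nn S₀ (univ.image p) ∧ G (S₀ ∪ univ.image p)).card : ℝ) -
      cc * (((Fintype.piFinset C).filter fun p => Nn S₀ (univ.image p)).card : ℝ)| ≤
    B * (3 ^ S₀.card / 3 ^ Fintype.card ι) *
      (((Fintype.piFinset C).filter fun p => Nn S₀ (univ.image p)).card : ℝ) +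
    3 ^ (S₀.card * Fintype.card ι + (prs ι).card) * (κ * ∏ j, (X j : ℝ))

/-- the sum over the boxes, for the property `G`, the limit `cc` and the constant `B` -/
def KEN (Nn : Finset Ei → Finset Ei → Prop) (G : Finset Ei → Prop) (cc B : ℝ) : Prop := ∃ C : ℝ, 1 ≤ C ∧
  ∀ (X z H k V N : ℕ) (κ : ℝ), 1 ≤ X → 1 ≤ H → 1 ≤ z → 1 ≤ V → 0 ≤ κ → C ≤ κ ^ 24 * z →
  (H : ℝ) * Real.log X < N →
  |(((RR X z H k V).filter fun S => Nn (sm z S) (la z S) ∧ G S).card : ℝ) -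
      cc * (((RR X z H k V).filter fun S => Nn (sm z S) (la z S)).card : ℝ)| ≤
    B * (1 / 3 : ℝ) ^ V * ((RR X z H k V).card : ℝ) +
    (9 * N + 9 : ℝ) ^ k * (3 ^ (9 * k ^ 2 + 9) * κ) * (X * (1 + Real.log X))

/-- the statement for the boxes with the decidability of equality as a variable -/
theorem box_decN {Nn : Finset Ei → Finset Ei → Prop} {G : Finset Ei → Prop} {cc B : ℝ} (hB : BXN Nn G cc B) (ι : Type) [Fintype ι]
    [inst : DecidableEq ι]
    (lo : LinearOrder ι) (C : ι → Finset Ei) (X : ι → ℕ) (κ : ℝ) (S₀ : Finset Ei) (τ : ι → ZMod 3)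
    (h1 : 0 ≤ κ)
    (h2 : ∀ i, (C i).card ≤ X i) (h3 : HB C X κ) (h4 : ∀ u ∈ S₀, Pq u)
    (h5 : ∀ i, ∀ π ∈ C i, Pq π ∧ π ∉ S₀ ∧ rl π = τ i) (h6 : ∀ i l, i ≠ l → Disjoint (C i) (C l))
    (h7 : S₀.card + 1 < Fintype.card ι) :
    |(((Fintype.piFinset C).filter fun p => Nn S₀ (univ.image p) ∧
        G (S₀ ∪ univ.image p)).card : ℝ) -
      cc * (((Fintype.piFinset C).filter fun p => Nn S₀ (univ.image p)).card : ℝ)| ≤
    B * (3 ^ S₀.card / 3 ^ Fintype.card ι) *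
      (((Fintype.piFinset C).filter fun p => Nn S₀ (univ.image p)).card : ℝ) +
    3 ^ (S₀.card * Fintype.card ι + (prs ι).card) * (κ * ∏ j, (X j : ℝ)) := by
  have h := hB ι C X κ S₀ τ h1 h2 h3 h4 h5 h6 h7
  have e : inst = fun a b => lo.toDecidableEq a b := Subsingleton.elim _ _
  subst e
  exact h

theorem per_keyN {Nn : Finset Ei → Finset Ei → Prop} {G : Finset Ei → Prop} {cc B : ℝ} (hB : BXN Nn G cc B) (hB0 : 0 ≤ B) {C₁ : ℝ}
    (hb1 : ∀ (P Q : Finset Ei) (A B z : ℕ) (c d : Ei → ℂ) (a : ZMod 3),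
      (∀ π ∈ P, Pq π ∧ nrm π ≤ A) → (∀ ρ ∈ Q, Pq ρ ∧ nrm ρ ≤ B) → Disjoint P Q → a ≠ 0 →
      1 ≤ z → z ≤ A → z ≤ B → (∀ π, ‖c π‖ ≤ 1) → (∀ ρ, ‖d ρ‖ ≤ 1) →
      ‖∑ π ∈ P, ∑ ρ ∈ Q, c π * d ρ * ez (a * cs π ρ)‖ ^ 24 * z ≤ C₁ * ((A : ℝ) * B) ^ 24)
    {X z H k V : ℕ} {κ : ℝ} (hH : 1 ≤ H) (hz : 1 ≤ z) (hV : 1 ≤ V) (hκ : 0 ≤ κ)
    (h1 : C₁ ≤ κ ^ 24 * z) {S₀ : Finset Ei} {J : Finset ℕ}
    (hkey : (S₀, J) ∈ (RR X z H k V).image (ky z H)) :
    |(((RR X z H k V).filter fun S => ky z H S = (S₀, J) ∧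
        (Nn (sm z S) (la z S) ∧ G S)).card : ℝ) -
      cc * (((RR X z H k V).filter fun S => ky z H S = (S₀, J) ∧
        Nn (sm z S) (la z S)).card : ℝ)| ≤
    B * (1 / 3 : ℝ) ^ V * (((RR X z H k V).filter fun S => ky z H S = (S₀, J) ∧ True).card : ℝ) +
      (3 ^ (9 * k ^ 2) * κ) * (X * (1 / ((∏ p ∈ S₀, nrm p : ℕ) : ℝ))) := by
  obtain ⟨h₀O, h₀, hJi, hCd, hJf⟩ := key_facts hH hkey
  obtain ⟨c4, c5, c6⟩ := hCd
  have hcJ : Fintype.card J = J.card := Fintype.card_coe J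
  have hCmem : ∀ i : J, ∀ p ∈ CC z H i, Pq p ∧ z < nrm p ∧ nrm p ≤ XX H (i.1 / 9) := by
    intro i p hp
    obtain ⟨k1, k2, k3⟩ := (mem_CC hH).1 hp
    refine ⟨k1, k2, ?_⟩
    unfold CC at hp
    rw [Finset.mem_filter, mem_QB] at hp
    exact hp.1.1
  have hdis : ∀ i l : J, i ≠ l → Disjoint (CC z H (i : ℕ)) (CC z H (l : ℕ)) := by
    intro i l hil
    rw [Finset.disjoint_left]
    intro p hp hp'
    have h5 := ((mem_CC hH).1 hp).2.2
    have h6 := ((mem_CC hH).1 hp').2.2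
    exact hil (Subtype.ext (h5.symm.trans h6))
  have hzX : ∀ i : J, z ≤ XX H (i.1 / 9) := fun i => (hJf i i.2).1
  have hHB : HB (fun i : J => CC z H i) (fun i : J => 16 * XX H (i.1 / 9)) κ :=
    hb_box hb1 _ _ hz hκ h1 (fun i => by have := hzX i; omega)
      (fun i p hp => by
        obtain ⟨k1, k2, k3⟩ := hCmem i p hp
        exact ⟨k1, by omega⟩) hdis
  have hcard : ∀ i : J, (CC z H (i : ℕ)).card ≤ 16 * XX H (i.1 / 9) := by
    intro i
    refine (Finset.card_filter_le _ _).trans (card_QB_le ?_)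
    have := hzX i
    omega
  have hrl : ∀ i : J, ∃ τ : ZMod 3, ∀ p ∈ CC z H (i : ℕ), rl p = τ := by
    intro i
    by_cases hne : (CC z H (i : ℕ)).Nonempty
    · obtain ⟨q, hq⟩ := hne
      refine ⟨rl q, fun p hp => rl_of_mod ?_⟩
      have e1 := ((mem_CC hH).1 hp).2.2
      have e2 := ((mem_CC hH).1 hq).2.2
      rw [← ph_mod H p, ← ph_mod H q, e1, e2]
    · rw [Finset.not_nonempty_iff_eq_empty] at hne
      refine ⟨0, fun p hp => ?_⟩
      rw [hne] at hp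
      exact absurd hp (Finset.notMem_empty _)
  choose τ hτ using hrl
  have hbox := box_decN hB J inferInstance (fun i : J => CC z H i)
    (fun i : J => 16 * XX H (i.1 / 9)) κ S₀ τ hκ hcard hHB h₀O (fun i p hp => by
      obtain ⟨k1, k2, k3⟩ := hCmem i p hp
      refine ⟨k1, fun h => ?_, hτ i p hp⟩
      have := h₀ p h
      omega) hdis (by rw [hcJ]; omega)
  have e1 : (((Fintype.piFinset fun i : J => CC z H i).filter
      fun p => Nn S₀ (univ.image p) ∧ G (S₀ ∪ univ.image p)).card) =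
      ((RR X z H k V).filter fun S => ky z H S = (S₀, J) ∧
        (Nn (sm z S) (la z S) ∧ G S)).card := by
    refine Eq.trans (fcc ?_) ((key_bij hH hkey (fun S => Nn (sm z S) (la z S) ∧ G S)).trans
      (fcc fun _ _ => Iff.rfl))
    intro p hp
    rw [Fintype.mem_piFinset] at hp
    rw [sm_fill hH h₀ hp, la_fill hH h₀ hp]
  have e2 : (((Fintype.piFinset fun i : J => CC z H i).filter
      fun p => Nn S₀ (univ.image p)).card) =
      ((RR X z H k V).filter fun S => ky z H S = (S₀, J) ∧ Nn (sm z S) (la z S)).card := by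
    refine Eq.trans (fcc ?_) ((key_bij hH hkey (fun S => Nn (sm z S) (la z S))).trans
      (fcc fun _ _ => Iff.rfl))
    intro p hp
    rw [Fintype.mem_piFinset] at hp
    rw [sm_fill hH h₀ hp, la_fill hH h₀ hp]
  rw [← e1, ← e2]
  have e3 : (((Fintype.piFinset fun i : J => CC z H i).filter
      fun p => Nn S₀ (univ.image p)).card : ℝ) ≤
      (((RR X z H k V).filter fun S => ky z H S = (S₀, J) ∧ True).card : ℝ) := by
    rw [e2]
    have : (RR X z H k V).filter (fun S => ky z H S = (S₀, J) ∧ Nn (sm z S) (la z S)) ⊆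
        (RR X z H k V).filter fun S => ky z H S = (S₀, J) ∧ True := by
      intro S hS
      rw [Finset.mem_filter] at hS ⊢
      exact ⟨hS.1, hS.2.1, trivial⟩
    exact_mod_cast Finset.card_le_card this
  refine hbox.trans ?_
  have hr : (3 : ℝ) ^ S₀.card / 3 ^ Fintype.card J ≤ (1 / 3 : ℝ) ^ V := by
    rw [hcJ, div_le_iff₀ (by positivity), one_div, inv_pow, inv_mul_eq_div,
      le_div_iff₀ (by positivity), ← pow_add]
    exact pow_le_pow_right₀ (by norm_num) (by omega)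
  have hJK : J.card ≤ k := by omega
  have hSK : S₀.card ≤ k := by omega
  obtain ⟨m, hm⟩ : ∃ m : ℕ, m = (prs J).card := ⟨_, rfl⟩
  have hpr : m ≤ k * k := by
    rw [hm]
    refine (prs_card J).trans ?_
    rw [hcJ]
    exact Nat.mul_le_mul hJK hJK
  rw [← hm]
  have hN0 : (0 : ℝ) < ((∏ p ∈ S₀, nrm p : ℕ) : ℝ) := by
    exact_mod_cast Finset.prod_pos fun p hp => nrm_one_le (h₀O p hp)
  have hprod : ∏ j : J, ((16 * XX H (j.1 / 9) : ℕ) : ℝ) ≤
      3 ^ (3 * k) * (X * (1 / ((∏ p ∈ S₀, nrm p : ℕ) : ℝ))) := by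
    have h5 : ∏ j : J, ((16 * XX H (j.1 / 9) : ℕ) : ℝ) =
        16 ^ J.card * ((∏ i ∈ J, XX H (i / 9) : ℕ) : ℝ) := by
      rw [← Finset.prod_coe_sort J (fun i => XX H (i / 9))]
      push_cast
      rw [Finset.prod_mul_distrib, Finset.prod_const, Finset.card_univ, hcJ]
    have h6 : ((∏ i ∈ J, XX H (i / 9) : ℕ) : ℝ) ≤ X * (1 / ((∏ p ∈ S₀, nrm p : ℕ) : ℝ)) := by
      rw [mul_one_div, le_div_iff₀ hN0, mul_comm]
      exact_mod_cast c5
    have h7 : (16 : ℝ) ^ J.card ≤ 3 ^ (3 * k) := by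
      calc (16 : ℝ) ^ J.card ≤ 27 ^ J.card := pow_le_pow_left₀ (by norm_num) (by norm_num) _
        _ = 3 ^ (3 * J.card) := by rw [pow_mul]; norm_num
        _ ≤ 3 ^ (3 * k) := pow_le_pow_right₀ (by norm_num) (by omega)
    rw [h5]
    gcongr
  have hpw : (3 : ℝ) ^ (S₀.card * Fintype.card J + m) * 3 ^ (3 * k) ≤ 3 ^ (9 * k ^ 2) := by
    rw [← pow_add]
    apply pow_le_pow_right₀ (by norm_num)
    rw [hcJ]
    have h5 : S₀.card * J.card ≤ k * k := Nat.mul_le_mul hSK hJK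
    have h6 : k ≤ k * k := by
      rcases Nat.eq_zero_or_pos k with h | h
      · rw [h]
      · exact Nat.le_mul_of_pos_left k h
    nlinarith
  refine add_le_add ?_ ?_
  · gcongr
  · have hX1 : (0 : ℝ) ≤ X * (1 / ((∏ p ∈ S₀, nrm p : ℕ) : ℝ)) := by positivity
    calc (3 : ℝ) ^ (S₀.card * Fintype.card J + m) *
        (κ * ∏ j : J, ((16 * XX H (j.1 / 9) : ℕ) : ℝ)) ≤
        3 ^ (S₀.card * Fintype.card J + m) *
          (κ * (3 ^ (3 * k) * (X * (1 / ((∏ p ∈ S₀, nrm p : ℕ) : ℝ))))) := by gcongr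
      _ = (3 ^ (S₀.card * Fintype.card J + m) * 3 ^ (3 * k)) *
          (κ * (X * (1 / ((∏ p ∈ S₀, nrm p : ℕ) : ℝ)))) := by ring
      _ ≤ 3 ^ (9 * k ^ 2) * (κ * (X * (1 / ((∏ p ∈ S₀, nrm p : ℕ) : ℝ)))) := by gcongr
      _ = _ := by ring

/-- **XK-KEY.** -/
theorem t_KEN (hB1 : S_BIL) {Nn : Finset Ei → Finset Ei → Prop} {G : Finset Ei → Prop} {cc B : ℝ} (hB : BXN Nn G cc B) (hB0 : 0 ≤ B) :
    KEN Nn G cc B := by
  obtain ⟨C₁, hC₁, hb1⟩ := hB1
  refine ⟨C₁, hC₁, ?_⟩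
  intro X z H k V N κ hX hH hz hV hκ h1 hN
  set T := (RR X z H k V).image (ky z H) with hT
  have hfib : ∀ P : Finset Ei → Prop, (((RR X z H k V).filter fun S => P S).card : ℝ) =
      ∑ k' ∈ T, (((RR X z H k V).filter fun S => ky z H S = k' ∧ P S).card : ℝ) := by
    intro P
    rw [Finset.card_eq_sum_card_fiberwise (f := ky z H) (t := T) (by
      intro S hS
      rw [Finset.mem_coe, Finset.mem_filter] at hS
      exact Finset.mem_coe.2 (Finset.mem_image_of_mem _ hS.1))]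
    push_cast
    refine Finset.sum_congr rfl fun k' _ => ?_
    congr 2
    ext S
    simp only [Finset.mem_filter]
    tauto
  have hall : ((RR X z H k V).card : ℝ) =
      ∑ k' ∈ T, (((RR X z H k V).filter fun S => ky z H S = k' ∧ True).card : ℝ) := by
    rw [Finset.card_eq_sum_card_fiberwise (f := ky z H) (t := T) (by
      intro S hS
      exact Finset.mem_coe.2 (Finset.mem_image_of_mem _ hS))]
    push_cast
    exact Finset.sum_congr rfl fun k' _ => congrArg _ (fcc fun _ _ => by tauto)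
  have q1 : (((RR X z H k V).filter fun S => Nn (sm z S) (la z S) ∧ G S).card : ℝ) =
      ∑ k' ∈ T, (((RR X z H k V).filter fun S => ky z H S = k' ∧
        (Nn (sm z S) (la z S) ∧ G S)).card : ℝ) :=
    (congrArg _ (fcc fun _ _ => Iff.rfl)).trans ((hfib fun S => Nn (sm z S) (la z S) ∧ G S).trans
      (Finset.sum_congr rfl fun k' _ => congrArg _ (fcc fun _ _ => Iff.rfl)))
  rw [q1, hfib, Finset.mul_sum, ← Finset.sum_sub_distrib, hall, Finset.mul_sum]
  refine (Finset.abs_sum_le_sum_abs _ _).trans ?_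
  have h3 : ∑ k' ∈ T, |(((RR X z H k V).filter fun S => ky z H S = k' ∧
      (Nn (sm z S) (la z S) ∧ G S)).card : ℝ) - cc * (((RR X z H k V).filter fun S =>
      ky z H S = k' ∧ Nn (sm z S) (la z S)).card : ℝ)| ≤
      ∑ k' ∈ T, (B * (1 / 3 : ℝ) ^ V * (((RR X z H k V).filter fun S =>
      ky z H S = k' ∧ True).card : ℝ) +
      (3 ^ (9 * k ^ 2) * κ) * (X * (1 / ((∏ p ∈ k'.1, nrm p : ℕ) : ℝ)))) := by
    refine Finset.sum_le_sum fun k' hk => ?_
    obtain ⟨S₀, J⟩ := k'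
    exact per_keyN hB hB0 hb1 hH hz hV hκ h1 hk
  refine h3.trans ?_
  rw [Finset.sum_add_distrib]
  refine add_le_add (le_refl _) ?_
  exact keg_err hX hH hz hκ hN fun k' hk => hk

end Pool.Agent.H91.XR
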