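import Pool.Agent.H91.X8
import Pool.Agent.H91.X13

/-!
# The count in a box, for the matrices with weights and a fixed set of primes
-/

set_option autoImplicit false
set_option linter.unusedSectionVars false
set_option linter.unusedVariables false

open scoped Classical

namespace Pool.Agent.H91.XRW

open Finset
open Pool.Agent.Y692.QS (Ei)
open Pool.Agent.Y715.T.Rec (cs)
open Pool.Agent.Y715.T.RecG (Pq)
open Pool.Agent.Y703.XK (HB prs S_EQ)
open Pool.Agent.Y703.XL (nA S_LA cr)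
open Pool.Agent.Y688.XK (lb LN cs_symm ext_sum HB_sub)
open Pool.Agent.Y170.XL (em em_bij fe fe_one fe_two sum_em)
open Pool.Agent.H91.XR
open Pool.Agent.H91.XRB

/-- the count in a box, abstract form -/
theorem box_abs (hEQ : S_EQ) {G : Finset Ei → Prop} {lim cc : ℝ} (ι : Type) [Fintype ι]
    [LinearOrder ι] (C : ι → Finset Ei) (X : ι → ℕ) (κ : ℝ) (S₀ : Finset Ei) (τ : ι → ZMod 3)
    (hκ : 0 ≤ κ) (hCX : ∀ i, (C i).card ≤ X i) (hHB : HB C X κ) (hcc0 : 0 ≤ cc)
    (hτC : ∀ i, ∀ π ∈ C i, rl π = τ i)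
    (hQ : ∀ β : ι → S₀ → ZMod 3, LNr S₀ β τ → ∃ Q : (prs ι → ZMod 3) → Prop,
      |((univ.filter Q).card : ℝ) / 3 ^ (prs ι).card - lim| ≤ cc ∧
      ∀ p ∈ Fintype.piFinset C, (fun i => lb S₀ (p i)) = β →
        (G (S₀ ∪ univ.image p) ↔ Q fun e => cs (p e.1.1) (p e.1.2))) :
    |(((Fintype.piFinset C).filter fun p => Nd S₀ (univ.image p) ∧
        G (S₀ ∪ univ.image p)).card : ℝ) -
      lim * (((Fintype.piFinset C).filter fun p => Nd S₀ (univ.image p)).card : ℝ)| ≤
    cc * (((Fintype.piFinset C).filter fun p => Nd S₀ (univ.image p)).card : ℝ) +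
      3 ^ (S₀.card * Fintype.card ι + (prs ι).card) * (κ * ∏ j, (X j : ℝ)) := by
  obtain ⟨R, hR⟩ : ∃ R : ℝ, R = 3 ^ (prs ι).card * (κ * ∏ j, (X j : ℝ)) := ⟨_, rfl⟩
  have hR0 : 0 ≤ R := by
    rw [hR]
    exact mul_nonneg (by positivity)
      (mul_nonneg hκ (Finset.prod_nonneg fun j _ => by positivity))
  have hτp : ∀ p ∈ Fintype.piFinset C, ∀ i, rl (p i) = τ i := by
    intro p hp i
    rw [Fintype.mem_piFinset] at hp
    exact hτC i _ (hp i)
  -- the part with given labels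
  have h1 : ∀ β : ι → S₀ → ZMod 3, LNr S₀ β τ →
      |(((Fintype.piFinset C).filter fun p => (fun i => lb S₀ (p i)) = β ∧
          G (S₀ ∪ univ.image p)).card : ℝ) -
        lim * (((Fintype.piFinset C).filter fun p => (fun i => lb S₀ (p i)) = β).card : ℝ)| ≤
      cc * (((Fintype.piFinset C).filter fun p => (fun i => lb S₀ (p i)) = β).card : ℝ) + R := by
    intro β hβ
    obtain ⟨C', hC'⟩ : ∃ C' : ι → Finset Ei, C' = fun i => (C i).filter fun q => lb S₀ q = β i :=
      ⟨_, rfl⟩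
    have hpi : (Fintype.piFinset C).filter (fun p => (fun i => lb S₀ (p i)) = β) =
        Fintype.piFinset C' := by
      ext p
      simp only [Finset.mem_filter, Fintype.mem_piFinset, hC']
      constructor
      · rintro ⟨h2, h3⟩ i
        exact ⟨h2 i, congrFun h3 i⟩
      · intro h2
        exact ⟨fun i => (h2 i).1, funext fun i => (h2 i).2⟩
    obtain ⟨Q, h2, hQ2⟩ := hQ β hβ
    have h3 := hEQ ι C' X κ hκ
      (fun i => (Finset.card_le_card (by rw [hC']; exact Finset.filter_subset _ _)).trans (hCX i))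
      (by rw [hC']; exact HB_sub hHB fun i q => lb S₀ q = β i) Q
    have h4 : ((Fintype.piFinset C).filter fun p => (fun i => lb S₀ (p i)) = β ∧
        G (S₀ ∪ univ.image p)) = ((Fintype.piFinset C').filter fun p =>
          Q fun e => cs (p e.1.1) (p e.1.2)) := by
      rw [← hpi, Finset.filter_filter]
      refine Finset.filter_congr fun p hp => ?_
      exact and_congr_right fun hl => hQ2 p hp hl
    have h5 : (((Fintype.piFinset C').card : ℕ) : ℝ) = ∏ j, ((C' j).card : ℝ) := by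
      rw [Fintype.card_piFinset]
      push_cast
      rfl
    rw [h4, hpi, h5]
    rw [← hR] at h3
    obtain ⟨n, hn⟩ : ∃ n : ℝ, n = (((Fintype.piFinset C').filter fun p =>
          Q fun e => cs (p e.1.1) (p e.1.2)).card : ℝ) := ⟨_, rfl⟩
    obtain ⟨q, hq⟩ : ∃ q : ℝ, q = ((univ.filter Q).card : ℝ) / 3 ^ (prs ι).card := ⟨_, rfl⟩
    obtain ⟨P, hP⟩ : ∃ P : ℝ, P = ∏ j, ((C' j).card : ℝ) := ⟨_, rfl⟩
    have hP0 : 0 ≤ P := by
      rw [hP]
      exact Finset.prod_nonneg fun j _ => by positivity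
    rw [← hq] at h2
    rw [← hn, ← hq, ← hP] at h3
    rw [← hn, ← hP]
    have h6 : |n - lim * P| ≤ |n - q * P| + |q - lim| * P := by
      have h7 : n - lim * P = (n - q * P) + (q - lim) * P := by ring
      have h8 : |(q - lim) * P| = |q - lim| * P := by rw [abs_mul, abs_of_nonneg hP0]
      rw [h7, ← h8]
      exact abs_add_le _ _
    have h7 : |q - lim| * P ≤ cc * P := mul_le_mul_of_nonneg_right h2 hP0
    linarith
  -- sum over the labels
  obtain ⟨LL, hLL⟩ : ∃ LL : Finset (ι → S₀ → ZMod 3), LL = univ.filter (fun β => LNr S₀ β τ) :=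
    ⟨_, rfl⟩
  have hfib : ∀ T : (ι → Ei) → Prop,
      (((Fintype.piFinset C).filter fun p => Nd S₀ (univ.image p) ∧ T p).card : ℝ) =
      ∑ β ∈ LL, (((Fintype.piFinset C).filter fun p =>
        (fun i => lb S₀ (p i)) = β ∧ T p).card : ℝ) := by
    intro T
    rw [Finset.card_eq_sum_card_fiberwise (f := fun (p : ι → Ei) (i : ι) => lb S₀ (p i))
      (t := LL) (by
        intro p hp
        rw [Finset.mem_coe, Finset.mem_filter] at hp
        rw [Finset.mem_coe, hLL, Finset.mem_filter]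
        exact ⟨Finset.mem_univ _, (nd_iff (hτp p hp.1)).1 hp.2.1⟩)]
    push_cast
    refine Finset.sum_congr rfl fun β hβ => ?_
    rw [hLL, Finset.mem_filter] at hβ
    congr 2
    ext p
    simp only [Finset.mem_filter]
    constructor
    · rintro ⟨⟨h3, h4, h4'⟩, h5⟩
      exact ⟨h3, h5, h4'⟩
    · rintro ⟨h3, h4, h5⟩
      refine ⟨⟨h3, ?_, h5⟩, h4⟩
      rw [nd_iff (hτp p h3), h4]
      exact hβ.2
  have hf1 := hfib fun p => G (S₀ ∪ univ.image p)
  have hf2 := hfib fun _ => True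
  simp only [and_true] at hf2
  rw [hf1, hf2, Finset.mul_sum, ← Finset.sum_sub_distrib]
  refine (Finset.abs_sum_le_sum_abs _ _).trans ?_
  refine (Finset.sum_le_sum fun β hβ => h1 β (by
    rw [hLL] at hβ
    exact (Finset.mem_filter.1 hβ).2)).trans ?_
  rw [Finset.sum_add_distrib, ← Finset.mul_sum, Finset.sum_const, nsmul_eq_mul]
  have h5 : ((LL.card : ℕ) : ℝ) ≤ 3 ^ (S₀.card * Fintype.card ι) := by
    have h6 : LL.card ≤ Fintype.card (ι → S₀ → ZMod 3) :=
      Finset.card_le_univ _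
    rw [Fintype.card_fun, Fintype.card_fun, ZMod.card, Fintype.card_coe, ← pow_mul] at h6
    exact_mod_cast h6
  have h6 := mul_le_mul_of_nonneg_right h5 hR0
  rw [pow_add, mul_assoc, ← hR]
  linarith

/-- the system with the weights has only the zero solution -/
def Tv (wt : Ei → ZMod 3) (c : ZMod 3) (S : Finset Ei) : Prop :=
  ∀ v : S → ZMod 3, (∀ π : S, ∑ ρ : S, wt ρ * cs π ρ * (v ρ - v π) - c * rl π * v π = 0) →
    ∑ π : S, wt π * rl π * v π = 0 → v = 0

/-- the label of the product -/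
def nu (wt : Ei → ZMod 3) (S : Finset Ei) : ZMod 3 := ∑ π ∈ S, wt π * rl π

/-- the condition -/
def NP (P₀ : Finset Ei) (wt : Ei → ZMod 3) (ν : ZMod 3) (S₀ S₁ : Finset Ei) : Prop :=
  P₀ ⊆ S₀ ∧ Nd S₀ S₁ ∧ nu wt (S₀ ∪ S₁) = ν

section one
variable {ι : Type} [Fintype ι] [LinearOrder ι] {S₀ : Finset Ei} {p : ι → Ei} {wt : Ei → ZMod 3}

/-- the system in the coordinates -/
lemma Tv_iff (hwt : ∀ π, wt π ≠ 0) (c : ZMod 3) (hp : Function.Injective p)
    (hpr : ∀ i, Pq (p i)) (hS₀ : ∀ u ∈ S₀, Pq u) (hd : ∀ i, p i ∉ S₀) (hw1 : ∀ i, wt (p i) = 1) :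
    Tv wt c (S₀ ∪ univ.image p) ↔ ∀ (x : S₀ → ZMod 3) (y : ι → ZMod 3),
      (∀ u : S₀, ∑ v : S₀, wt u * wt v * cs u v * (x v - x u) +
        ∑ l, wt u * cs u (p l) * (y l - x u) - c * (wt u * rl u) * x u = 0) →
      (∀ k, ∑ u : S₀, wt u * cs u (p k) * (x u - y k) +
        ∑ l, Pool.Agent.Y703.XK.ext (fun e : prs ι => cs (p e.1.1) (p e.1.2)) k l * (y l - y k) -
        c * rl (p k) * y k = 0) →
      ∑ u : S₀, wt u * rl u * x u + ∑ l, rl (p l) * y l = 0 → x = 0 ∧ y = 0 := by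
  have hsym : ∀ (v : ↥(S₀ ∪ univ.image p) → ZMod 3) (k : ι),
      ∑ u : S₀, wt u * cs (p k) u * (v (em S₀ p (Sum.inl u)) - v (em S₀ p (Sum.inr k))) =
      ∑ u : S₀, wt u * cs u (p k) * (v (em S₀ p (Sum.inl u)) - v (em S₀ p (Sum.inr k))) := by
    intro v k
    refine Finset.sum_congr rfl fun u _ => ?_
    rw [cs_symm (hpr k) (hS₀ u u.2)]
  have hext := fun (v : ↥(S₀ ∪ univ.image p) → ZMod 3) k =>
    ext_sum hpr k (fun l => v (em S₀ p (Sum.inr l)))
  have hrow1 : ∀ (v : ↥(S₀ ∪ univ.image p) → ZMod 3) (u : S₀),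
      wt u * (∑ ρ : ↥(S₀ ∪ univ.image p), wt ρ * cs u ρ * (v ρ - v (em S₀ p (Sum.inl u))) -
        c * rl u * v (em S₀ p (Sum.inl u))) =
      ∑ w : S₀, wt u * wt w * cs u w * (v (em S₀ p (Sum.inl w)) - v (em S₀ p (Sum.inl u))) +
        ∑ l, wt u * cs u (p l) * (v (em S₀ p (Sum.inr l)) - v (em S₀ p (Sum.inl u))) -
        c * (wt u * rl u) * v (em S₀ p (Sum.inl u)) := by
    intro v u
    rw [sum_em hp hd, mul_sub, mul_add, Finset.mul_sum, Finset.mul_sum]
    congr 1
    · congr 1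
      · refine Finset.sum_congr rfl fun w _ => ?_
        show wt u * (wt w * cs u w * _) = _
        ring
      · refine Finset.sum_congr rfl fun l _ => ?_
        show wt u * (wt (p l) * cs u (p l) * _) = _
        rw [hw1]
        ring
    · ring
  have hrow2 : ∀ (v : ↥(S₀ ∪ univ.image p) → ZMod 3) (k : ι),
      ∑ ρ : ↥(S₀ ∪ univ.image p), wt ρ * cs (p k) ρ * (v ρ - v (em S₀ p (Sum.inr k))) -
        c * rl (p k) * v (em S₀ p (Sum.inr k)) =
      ∑ u : S₀, wt u * cs u (p k) * (v (em S₀ p (Sum.inl u)) - v (em S₀ p (Sum.inr k))) +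
        ∑ l, Pool.Agent.Y703.XK.ext (fun e : prs ι => cs (p e.1.1) (p e.1.2)) k l *
          (v (em S₀ p (Sum.inr l)) - v (em S₀ p (Sum.inr k))) -
        c * rl (p k) * v (em S₀ p (Sum.inr k)) := by
    intro v k
    rw [sum_em hp hd, hext v k, ← hsym v k]
    congr 1
    congr 1
    refine Finset.sum_congr rfl fun l _ => ?_
    show wt (p l) * cs (p k) (p l) * _ = _
    rw [hw1, one_mul]
  have hlast : ∀ (v : ↥(S₀ ∪ univ.image p) → ZMod 3),
      ∑ π : ↥(S₀ ∪ univ.image p), wt π * rl π * v π =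
      ∑ u : S₀, wt u * rl u * v (em S₀ p (Sum.inl u)) + ∑ l, rl (p l) * v (em S₀ p (Sum.inr l)) := by
    intro v
    rw [sum_em hp hd]
    congr 1
    refine Finset.sum_congr rfl fun l _ => ?_
    show wt (p l) * rl (p l) * _ = _
    rw [hw1, one_mul]
  constructor
  · intro h x y h1 h2 h3
    obtain ⟨v, hv⟩ := (fe hp hd).surjective (x, y)
    have hx : ∀ u, v (em S₀ p (Sum.inl u)) = x u := fun u => by
      rw [← fe_one hp hd v u, hv]
    have hy : ∀ l, v (em S₀ p (Sum.inr l)) = y l := fun l => by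
      rw [← fe_two hp hd v l, hv]
    have h4 := h v (fun π => by
      obtain ⟨z, rfl⟩ := (em_bij hp hd).2 π
      rcases z with u | k
      · have h5 := hrow1 v u
        simp only [hx, hy] at h5
        rw [h1 u] at h5
        have h6 := (mul_eq_zero.1 h5).resolve_left (hwt u)
        simp only [hx]
        exact h6
      · have h5 := hrow2 v k
        simp only [hx, hy] at h5
        rw [h2 k] at h5
        simp only [hy]
        exact h5) (by
      rw [hlast]
      simp only [hx, hy]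
      exact h3)
    constructor
    · funext u
      rw [← hx, h4]
      rfl
    · funext l
      rw [← hy, h4]
      rfl
  · intro h v h1 h2
    have h3 := h (fun u => v (em S₀ p (Sum.inl u))) (fun l => v (em S₀ p (Sum.inr l)))
      (fun u => by
        have h5 := hrow1 v u
        have h6 : ∑ ρ : ↥(S₀ ∪ univ.image p), wt ρ * cs u ρ * (v ρ - v (em S₀ p (Sum.inl u))) -
          c * rl u * v (em S₀ p (Sum.inl u)) = 0 := h1 (em S₀ p (Sum.inl u))
        rw [h6, mul_zero] at h5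
        exact h5.symm)
      (fun k => by
        have h5 := hrow2 v k
        have h6 : ∑ ρ : ↥(S₀ ∪ univ.image p), wt ρ * cs (p k) ρ *
          (v ρ - v (em S₀ p (Sum.inr k))) - c * rl (p k) * v (em S₀ p (Sum.inr k)) = 0 :=
          h1 (em S₀ p (Sum.inr k))
        rw [h6] at h5
        exact h5.symm)
      (by
        rw [← hlast]
        exact h2)
    funext π
    obtain ⟨z, rfl⟩ := (em_bij hp hd).2 π
    rcases z with u | k
    · exact congrFun h3.1 u
    · exact congrFun h3.2 k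

end one

section abs
variable {U J : Type} [Fintype U] [Fintype J] [LinearOrder J]

/-- the case of the root -/
lemma root_case {c : ZMod 3} (hc : c ≠ 0) (A : U → U → ZMod 3) (B : U → J → ZMod 3)
    (hA : ∀ u v, A u v = A v u) (α : prs J → ZMod 3) (a : U → ZMod 3) (b : J → ZMod 3) :
    (∀ (x : U → ZMod 3) (y : J → ZMod 3),
      (∀ u, ∑ v, A u v * (x v - x u) + ∑ l, B u l * (y l - x u) - c * a u * x u = 0) →
      (∀ k, ∑ u, B u k * (x u - y k) + ∑ l, Pool.Agent.Y703.XK.ext α k l * (y l - y k) -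
        c * b k * y k = 0) →
      ∑ u, a u * x u + ∑ l, b l * y l = 0 → x = 0 ∧ y = 0) ↔
    nA (oA A (fun u => c * a u)) (oB B (fun l => c * b l)) (Pool.Agent.Y703.XK.ext α) = 3 ^ (0 + 1) := by
  rw [nA_root A B hA, zero_add, pow_one]
  have h1 : (3 * nB A B (Pool.Agent.Y703.XK.ext α) (fun u => c * a u) (fun l => c * b l) = 3) ↔
      nB A B (Pool.Agent.Y703.XK.ext α) (fun u => c * a u) (fun l => c * b l) = 1 := by omega
  rw [h1]
  unfold nB
  rw [Nat.card_eq_one_iff_exists]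
  constructor
  · intro h
    refine ⟨⟨(0, 0), ?_, ?_⟩, ?_⟩
    · intro u
      simp
    · intro k
      simp
    · rintro ⟨⟨x, y⟩, h2, h3⟩
      have h4 := root_row A B hA α (fun u => c * a u) (fun l => c * b l) x y h2 h3
      have h5 : c * (∑ u, a u * x u + ∑ l, b l * y l) = 0 := by
        rw [mul_add, Finset.mul_sum, Finset.mul_sum, ← h4]
        congr 1
        · exact Finset.sum_congr rfl fun u _ => by ring
        · exact Finset.sum_congr rfl fun u _ => by ring
      obtain ⟨hx, hy⟩ := h x y h2 h3 ((mul_eq_zero.1 h5).resolve_left hc)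
      subst hx hy
      rfl
  · rintro ⟨z, hz⟩ x y h2 h3 h4
    have e1 := hz ⟨(x, y), h2, h3⟩
    have e2 := hz ⟨(0, 0), fun u => by simp, fun k => by simp⟩
    rw [← e2] at e1
    have e3 := congrArg Subtype.val e1
    exact ⟨congrArg Prod.fst e3, congrArg Prod.snd e3⟩

/-- the case without the root -/
lemma free_case (A : U → U → ZMod 3) (B : U → J → ZMod 3) (R : J → J → ZMod 3)
    (a : U → ZMod 3) (b : J → ZMod 3) (hν : ∑ u, a u + ∑ l, b l ≠ 0) :
    (∀ (x : U → ZMod 3) (y : J → ZMod 3),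
      (∀ u, ∑ v, A u v * (x v - x u) + ∑ l, B u l * (y l - x u) = 0) →
      (∀ k, ∑ u, B u k * (x u - y k) + ∑ l, R k l * (y l - y k) = 0) →
      ∑ u, a u * x u + ∑ l, b l * y l = 0 → x = 0 ∧ y = 0) ↔
    nA A B R = 3 ^ (0 + 1) := by
  set ν := ∑ u, a u + ∑ l, b l with hνd
  have h3 : Nat.card (ZMod 3) = 3 := by
    rw [Nat.card_eq_fintype_card, ZMod.card]
  let T := {p : (U → ZMod 3) × (J → ZMod 3) //
    ((∀ u, ∑ v, A u v * (p.1 v - p.1 u) + ∑ l, B u l * (p.2 l - p.1 u) = 0) ∧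
    (∀ k, ∑ u, B u k * (p.1 u - p.2 k) + ∑ l, R k l * (p.2 l - p.2 k) = 0)) ∧
    ∑ u, a u * p.1 u + ∑ l, b l * p.2 l = 0}
  have hsh : ∀ (x : U → ZMod 3) (y : J → ZMod 3) (t : ZMod 3),
      ∑ u, a u * (x u + t) + ∑ l, b l * (y l + t) =
        ∑ u, a u * x u + ∑ l, b l * y l + ν * t := by
    intro x y t
    rw [hνd]
    simp only [mul_add, Finset.sum_add_distrib, add_mul, Finset.sum_mul]
    ring
  have h4' : Nat.card (ZMod 3 × T) = 3 * Nat.card T := by
    rw [Nat.card_prod, h3]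
  have h4 : nA A B R = 3 * Nat.card T := by
    unfold nA
    refine Eq.trans (Nat.card_congr ?_) h4'
    exact {
      toFun := fun p => ((∑ u, a u * p.1.1 u + ∑ l, b l * p.1.2 l) * ν⁻¹,
        ⟨(fun u => p.1.1 u + -((∑ u, a u * p.1.1 u + ∑ l, b l * p.1.2 l) * ν⁻¹),
          fun l => p.1.2 l + -((∑ u, a u * p.1.1 u + ∑ l, b l * p.1.2 l) * ν⁻¹)), by
          refine ⟨⟨fun u => ?_, fun k => ?_⟩, ?_⟩
          · simp only [add_sub_add_right_eq_sub]
            exact p.2.1 u
          · simp only [add_sub_add_right_eq_sub]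
            exact p.2.2 k
          · rw [hsh]
            field_simp
            ring⟩)
      invFun := fun q => ⟨(fun u => q.2.1.1 u + q.1, fun l => q.2.1.2 l + q.1), by
          refine ⟨fun u => ?_, fun k => ?_⟩
          · simp only [add_sub_add_right_eq_sub]
            exact q.2.2.1.1 u
          · simp only [add_sub_add_right_eq_sub]
            exact q.2.2.1.2 k⟩
      left_inv := fun p => by
        refine Subtype.ext (Prod.ext (funext fun u => ?_) (funext fun l => ?_))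
        · show p.1.1 u + -_ + _ = p.1.1 u
          ring
        · show p.1.2 l + -_ + _ = p.1.2 l
          ring
      right_inv := fun q => by
        have e1 : (∑ u, a u * (q.2.1.1 u + q.1) + ∑ l, b l * (q.2.1.2 l + q.1)) * ν⁻¹ = q.1 := by
          rw [hsh, q.2.2.2, zero_add, mul_comm, inv_mul_cancel_left₀ hν]
        refine Prod.ext e1 (Subtype.ext (Prod.ext (funext fun u => ?_) (funext fun l => ?_)))
        · show q.2.1.1 u + q.1 + -((∑ u, a u * (q.2.1.1 u + q.1) +
            ∑ l, b l * (q.2.1.2 l + q.1)) * ν⁻¹) = q.2.1.1 u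
          rw [e1]
          ring
        · show q.2.1.2 l + q.1 + -((∑ u, a u * (q.2.1.1 u + q.1) +
            ∑ l, b l * (q.2.1.2 l + q.1)) * ν⁻¹) = q.2.1.2 l
          rw [e1]
          ring }
  rw [h4, zero_add, pow_one]
  have h5 : (3 * Nat.card T = 3) ↔ Nat.card T = 1 := by omega
  rw [h5, Nat.card_eq_one_iff_exists]
  constructor
  · intro h
    refine ⟨⟨(0, 0), ⟨fun u => by simp, fun k => by simp⟩, by simp⟩, ?_⟩
    rintro ⟨⟨x, y⟩, ⟨h2, h3⟩, h6⟩
    obtain ⟨hx, hy⟩ := h x y h2 h3 h6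
    subst hx hy
    rfl
  · rintro ⟨z, hz⟩ x y h2 h3 h6
    have e1 := hz ⟨(x, y), ⟨h2, h3⟩, h6⟩
    have e2 := hz ⟨(0, 0), ⟨fun u => by simp, fun k => by simp⟩, by simp⟩
    rw [← e2] at e1
    have e3 := congrArg Subtype.val e1
    exact ⟨congrArg Prod.fst e3, congrArg Prod.snd e3⟩

end abs

end Pool.Agent.H91.XRW
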