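import Pool.Agent.H91.X14

/-!
# The count in a box, for the matrices with weights and a fixed set of primes: second part
-/

set_option autoImplicit false
set_option linter.unusedSectionVars false
set_option linter.unusedVariables false

open scoped Classical

namespace Pool.Agent.H91.XRW

open Finset
open Pool.Agent.Y692.QS (Ei)
open Pool.Agent.Y715.T.Rec (cs)
open Pool.Agent.Y715.T.RecG (Pq)
open Pool.Agent.Y703.XK (HB prs S_EQ)
open Pool.Agent.Y703.XL (nA S_LA cr)
open Pool.Agent.Y688.XK (lb LN cs_symm ext_sum HB_sub)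
open Pool.Agent.Y170.XL (em em_bij fe fe_one fe_two sum_em)
open Pool.Agent.H91.XR
open Pool.Agent.H91.XRB

/-- the label of the union -/
lemma nu_union {ι : Type} [Fintype ι] {wt : Ei → ZMod 3} {S₀ : Finset Ei} {p : ι → Ei}
    (hp : Function.Injective p) (hd : ∀ i, p i ∉ S₀) (hw1 : ∀ i, wt (p i) = 1) {τ : ι → ZMod 3}
    (hτ : ∀ i, rl (p i) = τ i) : nu wt (S₀ ∪ univ.image p) = nu wt S₀ + ∑ i, τ i := by
  unfold nu
  rw [Finset.sum_union]
  · congr 1
    rw [Finset.sum_image fun x _ y _ h => hp h]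
    exact Finset.sum_congr rfl fun i _ => by rw [hw1, one_mul, hτ]
  · rw [Finset.disjoint_right]
    intro x hx
    obtain ⟨i, -, rfl⟩ := Finset.mem_image.1 hx
    exact hd i

lemma dec_bound {α : Type} [Fintype α] (Q : α → Prop) (i1 : DecidablePred Q) {m l c : ℝ}
    (h : |((@Finset.filter α Q i1 univ).card : ℝ) / m - l| ≤ c) (i2 : DecidablePred Q) :
    |((@Finset.filter α Q i2 univ).card : ℝ) / m - l| ≤ c := by
  have : i1 = i2 := Subsingleton.elim _ _
  subst this
  exact h

/-- **The count in a box.** -/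
theorem t_BOXN {P₀ : Finset Ei} {wt : Ei → ZMod 3} (hwt : ∀ π, wt π ≠ 0)
    (hw1 : ∀ π, π ∉ P₀ → wt π = 1) {c ν : ZMod 3} (hcν : c ≠ 0 ∨ ν ≠ 0) (hEQ : S_EQ)
    (hLA : S_LA) : BXN (NP P₀ wt ν) (Tv wt c) (cr 0) 9 := by
  intro ι _ _ C X κ S₀ τ hκ hCX hHB hS₀ hC' hdis hcard
  have hC : ∀ i, ∀ π ∈ C i, Pq π ∧ π ∉ S₀ := fun i π hπ => ⟨(hC' i π hπ).1, (hC' i π hπ).2.1⟩
  have hτC : ∀ i, ∀ π ∈ C i, rl π = τ i := fun i π hπ => (hC' i π hπ).2.2
  clear hC'
  -- facts on tuples
  have hinj : ∀ p ∈ Fintype.piFinset C, Function.Injective p := by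
    intro p hp i j hij
    rw [Fintype.mem_piFinset] at hp
    by_contra hne
    have h1 := Finset.disjoint_left.1 (hdis i j hne) (hp i)
    rw [hij] at h1
    exact h1 (hp j)
  have hd : ∀ p ∈ Fintype.piFinset C, ∀ i, p i ∉ S₀ := by
    intro p hp i
    rw [Fintype.mem_piFinset] at hp
    exact (hC i _ (hp i)).2
  have hpr : ∀ p ∈ Fintype.piFinset C, ∀ i, Pq (p i) := by
    intro p hp i
    rw [Fintype.mem_piFinset] at hp
    exact (hC i _ (hp i)).1
  have hτp : ∀ p ∈ Fintype.piFinset C, ∀ i, rl (p i) = τ i := by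
    intro p hp i
    rw [Fintype.mem_piFinset] at hp
    exact hτC i _ (hp i)
  have hR0 : (0 : ℝ) ≤ 3 ^ (S₀.card * Fintype.card ι + (prs ι).card) * (κ * ∏ j, (X j : ℝ)) :=
    mul_nonneg (by positivity) (mul_nonneg hκ (Finset.prod_nonneg fun j _ => by positivity))
  by_cases hP : P₀ ⊆ S₀ ∧ nu wt S₀ + ∑ i, τ i = ν
  swap
  · have he : ∀ T : (ι → Ei) → Prop, ((Fintype.piFinset C).filter fun p =>
        NP P₀ wt ν S₀ (univ.image p) ∧ T p) = ∅ := by
      intro T
      rw [Finset.filter_eq_empty_iff]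
      rintro p hp ⟨⟨h1, -, h2⟩, -⟩
      apply hP
      refine ⟨h1, ?_⟩
      rw [← h2]
      exact (nu_union (hinj p hp) (hd p hp) (fun i => hw1 _ fun h => hd p hp i (h1 h))
        (hτp p hp)).symm
    have h1 := he fun p => Tv wt c (S₀ ∪ univ.image p)
    have h2 := he fun _ => True
    simp only [and_true] at h2
    rw [h1, h2]
    simp only [Finset.card_empty, Nat.cast_zero, mul_zero, sub_zero, abs_zero, zero_add]
    exact hR0
  obtain ⟨hPS, hν⟩ := hP
  have hw1p : ∀ p ∈ Fintype.piFinset C, ∀ i, wt (p i) = 1 := fun p hp i =>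
    hw1 _ fun h => hd p hp i (hPS h)
  have hNP : ∀ p ∈ Fintype.piFinset C, (NP P₀ wt ν S₀ (univ.image p) ↔ Nd S₀ (univ.image p)) := by
    intro p hp
    constructor
    · exact fun h => h.2.1
    · intro h
      refine ⟨hPS, h, ?_⟩
      rw [nu_union (hinj p hp) (hd p hp) (hw1p p hp) (hτp p hp), hν]
  have f1 : ((Fintype.piFinset C).filter fun p => NP P₀ wt ν S₀ (univ.image p) ∧
      Tv wt c (S₀ ∪ univ.image p)) = ((Fintype.piFinset C).filter fun p =>
      Nd S₀ (univ.image p) ∧ Tv wt c (S₀ ∪ univ.image p)) :=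
    Finset.filter_congr fun p hp => and_congr_left fun _ => hNP p hp
  have f2 : ((Fintype.piFinset C).filter fun p => NP P₀ wt ν S₀ (univ.image p)) =
      ((Fintype.piFinset C).filter fun p => Nd S₀ (univ.image p)) :=
    Finset.filter_congr fun p hp => hNP p hp
  rw [f1, f2]
  set cc : ℝ := 9 * (3 ^ S₀.card / 3 ^ Fintype.card ι) with hcc
  have hcc0 : 0 ≤ cc := by rw [hcc]; positivity
  have hA : ∀ u v : S₀, wt u * wt v * cs u v = wt v * wt u * cs v u := by
    intro u v
    rw [cs_symm (hS₀ u u.2) (hS₀ v v.2)]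
    ring
  refine box_abs hEQ ι C X κ S₀ τ hκ hCX hHB hcc0 hτC ?_
  intro β hβ
  by_cases hc : c = 0
  · -- no root
    subst hc
    have hν0 : ν ≠ 0 := hcν.resolve_left (fun h => h rfl)
    refine ⟨fun α => nA (fun u v : S₀ => wt u * wt v * cs u v) (fun (u : S₀) l => wt u * β l u)
      (Pool.Agent.Y703.XK.ext α) = 3 ^ (0 + 1), ?_, ?_⟩
    · have h2 := hLA 0 S₀ ι (fun u v : S₀ => wt u * wt v * cs u v) (fun (u : S₀) l => wt u * β l u)
        (by rw [Fintype.card_coe]; omega) hA (fun w hw => by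
          obtain ⟨u, hu⟩ := hw
          obtain ⟨i, hi⟩ := hβ (fun u => w u * wt u) 0 (Or.inl ⟨u, mul_ne_zero hu (hwt _)⟩)
          refine ⟨i, fun h0 => hi ?_⟩
          rw [zero_mul, add_zero, ← h0]
          exact Finset.sum_congr rfl fun u _ => by ring)
      rw [Fintype.card_coe] at h2
      have h3 : (3 : ℝ) ^ (0 + 1) * (3 ^ S₀.card / 3 ^ Fintype.card ι) ≤ cc := by
        rw [hcc]
        have : (0 : ℝ) ≤ 3 ^ S₀.card / 3 ^ Fintype.card ι := by positivity
        nlinarith
      have h4 := h2.trans h3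
      exact dec_bound _ _ h4 _
    · intro p hp hl
      rw [Tv_iff hwt 0 (hinj p hp) (hpr p hp) hS₀ (hd p hp) (hw1p p hp)]
      have hfc := free_case (fun u v : S₀ => wt u * wt v * cs u v)
        (fun (u : S₀) l => wt u * β l u)
        (Pool.Agent.Y703.XK.ext fun e : prs ι => cs (p e.1.1) (p e.1.2))
        (fun u : S₀ => wt u * rl u) (fun l => rl (p l)) (by
          simp only [hτp p hp]
          rw [Finset.sum_coe_sort S₀ (fun u => wt u * rl u)]
          intro h0
          apply hν0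
          rw [← hν, ← h0]
          rfl)
      subst hl
      beta_reduce
      refine Iff.trans ?_ hfc
      simp only [zero_mul, sub_zero]
      exact Iff.rfl
  · -- with the root
    refine ⟨fun α => nA (oA (fun u v : S₀ => wt u * wt v * cs u v) (fun u : S₀ => c * (wt u * rl u)))
      (oB (fun (u : S₀) l => wt u * β l u) (fun l => c * τ l))
      (Pool.Agent.Y703.XK.ext α) = 3 ^ (0 + 1), ?_, ?_⟩
    · have h2 := hLA 0 (Option S₀) ι
        (oA (fun u v : S₀ => wt u * wt v * cs u v) (fun u : S₀ => c * (wt u * rl u)))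
        (oB (fun (u : S₀) l => wt u * β l u) (fun l => c * τ l))
        (by rw [Fintype.card_option, Fintype.card_coe]; exact hcard)
        (oA_symm (A := fun u v : S₀ => wt u * wt v * cs u v) hA _)
        (fun w hw => by
          obtain ⟨o, ho⟩ := hw
          obtain ⟨i, hi⟩ := hβ (fun u => w (some u) * wt u) (w none * c) (by
            rcases o with _ | u
            · exact Or.inr (mul_ne_zero ho hc)
            · exact Or.inl ⟨u, mul_ne_zero ho (hwt _)⟩)
          refine ⟨i, ?_⟩
          rw [Fintype.sum_option]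
          intro h0
          apply hi
          have h0' : w none * (c * τ i) + ∑ u : S₀, w (some u) * (wt u * β i u) = 0 := h0
          have h1' : ∑ u : S₀, w (some u) * wt u * β i u = ∑ u : S₀, w (some u) * (wt u * β i u) :=
            Finset.sum_congr rfl fun u _ => by ring
          rw [h1']
          linear_combination h0')
      rw [Fintype.card_option, Fintype.card_coe] at h2
      have h3 : (3 : ℝ) ^ (0 + 1) * (3 ^ (S₀.card + 1) / 3 ^ Fintype.card ι) = cc := by
        rw [hcc, pow_succ 3 S₀.card]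
        ring
      rw [h3] at h2
      exact dec_bound _ _ h2 _
    · intro p hp hl
      rw [Tv_iff hwt c (hinj p hp) (hpr p hp) hS₀ (hd p hp) (hw1p p hp)]
      have hrc := root_case hc (fun u v : S₀ => wt u * wt v * cs u v)
        (fun (u : S₀) l => wt u * β l u) hA (fun e : prs ι => cs (p e.1.1) (p e.1.2))
        (fun u : S₀ => wt u * rl u) τ
      beta_reduce
      refine Iff.trans ?_ hrc
      subst hl
      simp only [hτp p hp]
      exact Iff.rfl

end Pool.Agent.H91.XRW
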