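import Pool.Agent.H91.X9
import Pool.Agent.H91.X15

/-!
# The law for the matrices with weights and a fixed set of primes
-/

set_option autoImplicit false
set_option linter.unusedSectionVars false
set_option linter.unusedVariables false

open scoped Classical
open Finset Filter

namespace Pool.Agent.H91.XRW

open Pool.Agent.Y692.QS (Ei w nr toC)
open Pool.Agent.Y715.T.RecG (Pq)
open Pool.Agent.Y699.E (nrm QB PD)
open Pool.Agent.Y703.CX (jj XX eL zz kk eL_tendsto logX_eq rpow_eL HH NN ev_eL one_le_exp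
  HH_ge HH_le HH_pos kk_ge kk_le X_pos one_add_log lin_le zz_ge zz_pos)
open Pool.Agent.Y703.CQ (Sml sml_of sml_add)
open Pool.Agent.Y703.XK (HB prs ext c9 sm la bl S_BIL S_EQ S_C9
  sml_eps sml_main kap kap_nonneg kap_pow cmp)
open Pool.Agent.Y703.XL (cr cr_pos cr_le)
open Pool.Agent.H91.XR

/-- the sets that contain `P₀`, with given label -/
noncomputable def FP (P₀ : Finset Ei) (wt : Ei → ZMod 3) (ν : ZMod 3) (X : ℕ) :
    Finset (Finset Ei) :=
  (SS X).filter fun S => P₀ ⊆ S ∧ nu wt S = ν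

/-- the law -/
theorem lawN {P₀ : Finset Ei} {wt : Ei → ZMod 3} (hwt : ∀ π, wt π ≠ 0)
    (hw1 : ∀ π, π ∉ P₀ → wt π = 1) {c ν : ZMod 3} (hcν : c ≠ 0 ∨ ν ≠ 0) :
    ∀ ε : ℝ, 0 < ε → ∃ X₁ : ℕ, ∀ X : ℕ, X₁ ≤ X →
      |(((FP P₀ wt ν X).filter (Tv wt c)).card : ℝ) - cr 0 * ((FP P₀ wt ν X).card : ℝ)| ≤
        ε * X := by
  intro ε hε
  obtain ⟨C, hC1, hkey⟩ := t_KEN Pool.Agent.Y363.XK.t_BIL
    (t_BOXN hwt hw1 hcν Pool.Agent.Y710.XK.t_EQ Pool.Agent.Y703.XL.t_LA) (by norm_num)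
  obtain ⟨D, hD⟩ := XRC.t_CNT
  have hD1 : 1 ≤ D := hD.one
  have hc9 := Pool.Agent.Y703.XL.t_C9
  obtain ⟨V0, hV0⟩ := exists_pow_lt_of_lt_one (show (0 : ℝ) < ε / (2 * (9 * D)) by positivity)
    (show (1 / 3 : ℝ) < 1 by norm_num)
  obtain ⟨V, hVd⟩ : ∃ V : ℕ, V = V0 + 1 := ⟨_, rfl⟩
  have hV : (1 / 3 : ℝ) ^ V < ε / (2 * (9 * D)) := by
    rw [hVd, pow_succ]
    have : (0 : ℝ) < (1 / 3) ^ V0 := by positivity
    linarith
  have hV1 : 1 ≤ V := by omega
  have s1 := sml_many hD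
  have s2 := sml_cut hD
  have s3 := sml_coll hD
  have s4 := sml_eps (XRF.t_FEW V)
  have s5 := sml_eps XRF.t_BAD
  have s6 := sml_main hC1
  have s := sml_add (sml_add (sml_add (sml_add (sml_add s1 s2) s3) s4) s5) s6
  obtain ⟨M, hM⟩ : ∃ M : ℕ, ∀ π ∈ P₀, nrm π ≤ M :=
    ⟨∑ π ∈ P₀, nrm π, fun π hπ => Finset.single_le_sum (f := nrm) (fun _ _ => Nat.zero_le _) hπ⟩
  refine eventually_atTop.1 ?_
  filter_upwards [s (ε / 2) (by positivity), ev_eL 1, ev_eL (2 * M)] with X hX hl hlM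
  rw [neg_zero, zero_mul, Real.exp_zero, mul_one] at hX
  have hl0 : 0 < eL X := by linarith
  have hXp := X_pos hl0
  have hXp' : (0 : ℝ) < X := by exact_mod_cast hXp
  have hzM : M ≤ zz X := by
    have h1 := zz_ge hl
    have h2 := Real.add_one_le_exp ((eL X) ^ 3)
    have h3 : eL X ≤ (eL X) ^ 3 := by
      have : (eL X) ^ 3 = eL X * (eL X) ^ 2 := by ring
      rw [this]
      exact le_mul_of_one_le_right hl0.le (one_le_pow₀ hl)
    have h4 : (M : ℝ) ≤ zz X := by linarith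
    exact_mod_cast h4
  have hN : (HH X : ℝ) * Real.log X < NN X := by
    unfold NN
    push_cast
    exact Nat.lt_floor_add_one _
  have hmain := hkey X (zz X) (HH X) (kk X) V (NN X) (kap C X) hXp (HH_pos hl0) (zz_pos hl) hV1
    (kap_nonneg hC1 X) (kap_pow hC1 hl) hN
  set T := (RR X (zz X) (HH X) (kk X) V).filter fun S =>
    NP P₀ wt ν (sm (zz X) S) (la (zz X) S) with hT
  have hTG : (RR X (zz X) (HH X) (kk X) V).filter
      (fun S => NP P₀ wt ν (sm (zz X) S) (la (zz X) S) ∧ Tv wt c S) = T.filter (Tv wt c) := by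
    rw [hT, filter_filter]
  rw [hTG] at hmain
  have hTS : T ⊆ FP P₀ wt ν X := by
    intro S hS
    rw [hT, mem_filter] at hS
    obtain ⟨h1, h2, h3, h4⟩ := hS
    unfold FP
    rw [mem_filter]
    refine ⟨filter_subset _ _ h1, ?_, ?_⟩
    · refine h2.trans ?_
      conv_rhs => rw [← sm_union (zz X) S]
      exact subset_union_left
    · rw [sm_union] at h4
      exact h4
  have hRS : ((RR X (zz X) (HH X) (kk X) V).card : ℝ) ≤ D * X :=
    le_trans (by exact_mod_cast card_le_card (filter_subset _ _)) (hD.all X hXp)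
  have hcmp := cmp (Tv wt c) T (FP P₀ wt ν X) hTS (cr 0) (cr_pos hc9 0).le (cr_le hc9 0)
  have hsub : FP P₀ wt ν X \ T ⊆ SS X \ ((RR X (zz X) (HH X) (kk X) V).filter fun S =>
      Nd (sm (zz X) S) (la (zz X) S)) := by
    intro S hS
    rw [Finset.mem_sdiff] at hS ⊢
    obtain ⟨h1, h2⟩ := hS
    unfold FP at h1
    rw [mem_filter] at h1
    refine ⟨h1.1, fun h3 => h2 ?_⟩
    rw [mem_filter] at h3
    rw [hT, mem_filter]
    refine ⟨h3.1, ?_, h3.2, ?_⟩
    · intro π hπ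
      unfold sm
      rw [mem_filter]
      exact ⟨h1.2.1 hπ, (hM π hπ).trans hzM⟩
    · rw [sm_union]
      exact h1.2.2
  have hout : ((FP P₀ wt ν X \ T).card : ℝ) ≤
      ((((SS X).filter fun S => kk X < S.card).card : ℝ) +
      (((SS X).filter fun S => S.card ≤ kk X ∧
        X < (∏ π ∈ sm (zz X) S, nrm π) * ∏ π ∈ la (zz X) S, XX (HH X) (bl (HH X) π)).card : ℝ) +
      (((SS X).filter fun S => ¬ Set.InjOn (bl (HH X)) (la (zz X) S : Set Ei)).card : ℝ) +
      (((SS X).filter fun S => S.card ≤ kk X ∧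
        (la (zz X) S).card ≤ (sm (zz X) S).card + V).card : ℝ)) +
      (((SS X).filter fun S => S.card ≤ kk X ∧ ¬ Nd (sm (zz X) S) (la (zz X) S)).card : ℝ) := by
    have g := (card_le_card hsub).trans (card_le_card (out_sub X (zz X) (HH X) (kk X) V))
    have g2 := (g.trans (card_union_le _ _)).trans (Nat.add_le_add_right ((card_union_le _ _).trans
      (Nat.add_le_add_right ((card_union_le _ _).trans
      (Nat.add_le_add_right (card_union_le _ _) _)) _)) _)
    exact_mod_cast g2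
  have g1 : 9 * (1 / 3 : ℝ) ^ V * ((RR X (zz X) (HH X) (kk X) V).card : ℝ) ≤ ε / 2 * X := by
    calc 9 * (1 / 3 : ℝ) ^ V * ((RR X (zz X) (HH X) (kk X) V).card : ℝ)
        ≤ 9 * (ε / (2 * (9 * D))) * (D * X) := by gcongr
      _ = ε / 2 * X := by
        field_simp
  linarith

end Pool.Agent.H91.XRW
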