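import Pool.Agent.H91.X16
import Pool.Agent.H91.Tw8
import Pool.Agent.H91.Dz7

/-!
# The sets of primes of `D μ` and `D μ²`
-/

set_option autoImplicit false
set_option linter.unusedVariables false
set_option linter.unusedSectionVars false

open scoped Classical

namespace Pool.Agent.H91.XP

open NumberField
open Pool.Agent.Y692.QS (Ei w nr)
open Pool.Agent.Y715.T.Rec (cs nn)
open Pool.Agent.Y715.T.RecG (Pq)
open Pool.Agent.Y703.CT
open Pool.Agent.H91.Sel (dD KerC)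
open Pool.Agent.H91.Kc (ex)
open Pool.Agent.H91.Cr2 (KerS tri_iff3 ex_rq)
open Pool.Agent.H91.LKz (Pm)
open Pool.Agent.Y350.CTK.Tam (te te_prime te_sq)
open Pool.Agent.Y696.CTK (Tri Law3)
open Pool.Agent.Y699.E (nrm PD PS mem_PD PS_prod)
open Pool.Agent.H91.XR
open Pool.Agent.H91.XRW
open Pool.Agent.H91.Fc2 (Cm Cn exi2 exi3)
open Pool.Agent.Y274.CT (eq_of_dvd)

/-- `D` in terms of the set of its primes -/
structure SD (P₀ : Finset Ei) (wt : Ei → ZMod 3) (c : ZMod 3) (D : Ei) : Prop where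
  pq : ∀ p ∈ P₀, Pq p
  ne : P₀.Nonempty
  w0 : ∀ p, wt p ≠ 0
  w1 : ∀ p, p ∉ P₀ → wt p = 1
  eq : Pm (w ^ c.val * ∏ p ∈ P₀, p ^ (wt p).val) D

theorem sd_ex {D : Ei} (hD : Cm D) :
    ∃ (P₀ : Finset Ei) (wt : Ei → ZMod 3) (c : ZMod 3), SD P₀ wt c D := by
  obtain ⟨J, h1, h2, π, e, c, hdt, hpm, h9⟩ := exi3 hD
  have hinj : Function.Injective π := by
    intro i k hik
    by_contra hne
    exact hdt.nd i k hne (by rw [hik])
  let wt : Ei → ZMod 3 := fun p => if h : ∃ i, π i = p then e h.choose else 1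
  have hwt : ∀ i, wt (π i) = e i := by
    intro i
    have h : ∃ i', π i' = π i := ⟨i, rfl⟩
    show (if h : ∃ i', π i' = π i then e h.choose else 1) = e i
    rw [dif_pos h]
    congr 1
    exact hinj h.choose_spec
  obtain ⟨i0⟩ := h2
  refine ⟨Finset.univ.image π, wt, c, ?_, ?_, ?_, ?_, ?_⟩
  · intro p hp
    obtain ⟨i, -, rfl⟩ := Finset.mem_image.1 hp
    exact hdt.pq i
  · exact ⟨π i0, Finset.mem_image_of_mem _ (Finset.mem_univ _)⟩
  · intro p
    show (if h : ∃ i, π i = p then e h.choose else 1) ≠ 0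
    split_ifs with h
    · exact hdt.e0 _
    · decide
  · intro p hp
    show (if h : ∃ i, π i = p then e h.choose else 1) = 1
    rw [dif_neg]
    rintro ⟨i, rfl⟩
    exact hp (Finset.mem_image_of_mem _ (Finset.mem_univ _))
  · have h3 : ∏ p ∈ Finset.univ.image π, p ^ (wt p).val = pD π e := by
      rw [Finset.prod_image fun x _ y _ h => hinj h]
      unfold pD
      exact Finset.prod_congr rfl fun i _ => by rw [hwt]
    rw [h3]
    exact hpm

section set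

variable {S : Finset Ei} {wt : Ei → ZMod 3}

lemma dt_S (hS : ∀ p ∈ S, Pq p) (hw : ∀ p, wt p ≠ 0) :
    Dt (fun p : S => (p : Ei)) (fun p : S => wt p) :=
  ⟨fun p => hS p p.2,
    fun i k hik hd => hik (Subtype.ext (eq_of_dvd (hS i i.2) (hS k k.2) hd).symm), fun p => hw p⟩

lemma pD_S (S : Finset Ei) (wt : Ei → ZMod 3) :
    pD (fun p : S => (p : Ei)) (fun p : S => wt p) = ∏ p ∈ S, p ^ (wt p).val :=
  Finset.prod_coe_sort S (fun p => p ^ (wt p).val)

lemma nine_S (hS : ∀ p ∈ S, Pq p) (hw : ∀ p, wt p ≠ 0) :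
    ¬ (9 : ℤ) ∣ nr (∏ p ∈ S, p ^ (wt p).val) - 1 ↔ nu wt S ≠ 0 := by
  rw [← pD_S, sum_ne_iff (dt_S hS hw)]
  have h1 : nu wt S = -∑ j : S, wt j * rq (j : Ei) := by
    unfold nu
    rw [← Finset.sum_coe_sort S (fun p => wt p * rl p), ← Finset.sum_neg_distrib]
    refine Finset.sum_congr rfl fun p _ => ?_
    unfold rl
    rw [ex_rq (hS p p.2).three]
    ring
  rw [h1, neg_ne_zero]

variable {K : Type} [Field K] [NumberField K] (j : Ei ≃+* 𝓞 K)

/-- the criterion -/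
theorem tri_S (hS : ∀ p ∈ S, Pq p) (hne : S.Nonempty) (hw : ∀ p, wt p ≠ 0) {c : ZMod 3}
    (hc : c = 0 → nu wt S ≠ 0) {D : Ei} (hpm : Pm (w ^ c.val * ∏ p ∈ S, p ^ (wt p).val) D) :
    Tri (j D) ↔ Tv wt c S := by
  have hn : Nonempty S := hne.to_subtype
  have hpm' : Pm (dD c (fun p : S => (p : Ei)) (fun p : S => wt p)) D := by
    unfold dD
    rw [pD_S]
    exact hpm
  rw [tri_iff3 j (dt_S hS hw) (fun h => by rw [pD_S]; exact (nine_S hS hw).2 (hc h)) hpm']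
  exact Iff.rfl

/-- the law -/
theorem law_S (hdisc : discr K = -3) (hS : ∀ p ∈ S, Pq p) (hne : S.Nonempty)
    (hw : ∀ p, wt p ≠ 0) {c : ZMod 3}
    (hc : c = 0 → nu wt S ≠ 0) {D : Ei} (hpm : Pm (w ^ c.val * ∏ p ∈ S, p ^ (wt p).val) D) :
    Law3 (j D) := by
  have hn : Nonempty S := hne.to_subtype
  have hpm' : Pm (dD c (fun p : S => (p : Ei)) (fun p : S => wt p)) D := by
    unfold dD
    rw [pD_S]
    exact hpm
  exact Pool.Agent.H91.Fin2.law3 j hdisc (dt_S hS hw)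
    (fun h => by rw [pD_S]; exact (nine_S hS hw).2 (hc h)) hpm'

lemma three_S (hS : ∀ p ∈ S, Pq p) (hw : ∀ p, wt p ≠ 0) :
    (3 : Ei) ∣ ∏ p ∈ S, p ^ (wt p).val - 1 := by
  rw [← pD_S]
  exact Pool.Agent.H91.Tam1.three_pD (dt_S hS hw)

/-- the residue class -/
def Rc (D : Ei) : Prop := ¬ 3 * te ∣ D - 1 ∧ ¬ 3 * te ∣ D + 1

lemma w_not (c : ZMod 3) (hc : c ≠ 0) : ¬ (3 : Ei) ∣ w ^ c.val - 1 ∧ ¬ (3 : Ei) ∣ w ^ c.val + 1 := by
  have h : ∀ c : ZMod 3, c ≠ 0 → ¬ ((3 : ℤ) ∣ (w ^ c.val - 1 : Ei).re ∧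
      (3 : ℤ) ∣ (w ^ c.val - 1 : Ei).im) ∧ ¬ ((3 : ℤ) ∣ (w ^ c.val + 1 : Ei).re ∧
      (3 : ℤ) ∣ (w ^ c.val + 1 : Ei).im) := by decide
  have h3 : ∀ z : Ei, (3 : Ei) ∣ z → (3 : ℤ) ∣ z.re ∧ (3 : ℤ) ∣ z.im := by
    rintro z ⟨t, rfl⟩
    have e1 : (3 : Ei).re = 3 := by decide
    have e2 : (3 : Ei).im = 0 := by decide
    rw [Pool.Agent.Y692.QS.mul_re, Pool.Agent.Y692.QS.mul_im, e1, e2]
    constructor
    · exact ⟨t.re, by ring⟩
    · exact ⟨t.im, by ring⟩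
  exact ⟨fun h4 => (h c hc).1 (h3 _ h4), fun h4 => (h c hc).2 (h3 _ h4)⟩

lemma rc_lab (hS : ∀ p ∈ S, Pq p) (hw : ∀ p, wt p ≠ 0) {c : ZMod 3} {D : Ei}
    (hpm : Pm (w ^ c.val * ∏ p ∈ S, p ^ (wt p).val) D) : Rc D ↔ (c = 0 → nu wt S ≠ 0) := by
  set n := ∏ p ∈ S, p ^ (wt p).val with hn
  have h3 : (3 : Ei) ∣ n - 1 := three_S hS hw
  have hte3 : ∀ z : Ei, 3 * te ∣ z → (3 : Ei) ∣ z := fun z h => (dvd_mul_right 3 te).trans h
  have key : Rc D ↔ Rc (w ^ c.val * n) := by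
    rcases hpm with h | h
    · rw [h]
    · rw [h]
      unfold Rc
      have e1 : -(w ^ c.val * n) - 1 = -(w ^ c.val * n + 1) := by ring
      have e2 : -(w ^ c.val * n) + 1 = -(w ^ c.val * n - 1) := by ring
      rw [e1, e2, dvd_neg, dvd_neg]
      exact and_comm
  rw [key]
  by_cases hc : c = 0
  · subst hc
    rw [ZMod.val_zero, pow_zero, one_mul]
    constructor
    · rintro ⟨h1, -⟩ - h0
      apply h1
      apply Pool.Agent.H91.Fc2.three_te_of h3
      by_contra h9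
      exact (nine_S hS hw).1 h9 h0
    · intro h
      refine ⟨fun h1 => ?_, fun h1 => ?_⟩
      · exact (nine_S hS hw).2 (h rfl) (Pool.Agent.H91.Tw.nr_nine h1)
      · have h2 := hte3 _ h1
        have h4 : (3 : Ei) ∣ 2 := by
          have := dvd_sub h2 h3
          have e : n + 1 - (n - 1) = 2 := by ring
          rwa [e] at this
        have h5 : te ∣ (1 : Ei) := by
          have h6 : te ∣ (3 : Ei) := ⟨-te, by linear_combination te_sq⟩
          have h7 := dvd_sub h6 (h6.trans h4)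
          have e : (3 : Ei) - 2 = 1 := by norm_num
          rwa [e] at h7
        exact te_prime.not_isUnit (isUnit_of_dvd_one h5)
  · have hw' := w_not c hc
    refine ⟨fun _ h => absurd h hc, fun _ => ⟨fun h1 => hw'.1 ?_, fun h1 => hw'.2 ?_⟩⟩
    · have h2 := hte3 _ h1
      have e : w ^ c.val - 1 = (w ^ c.val * n - 1) - w ^ c.val * (n - 1) := by ring
      rw [e]
      exact dvd_sub h2 (h3.mul_left _)
    · have h2 := hte3 _ h1
      have e : w ^ c.val + 1 = (w ^ c.val * n + 1) - w ^ c.val * (n - 1) := by ring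
      rw [e]
      exact dvd_sub h2 (h3.mul_left _)

lemma Tv_scale {a : ZMod 3} (ha : a ≠ 0) {c : ZMod 3} :
    Tv (fun p => a * wt p) (a * c) S ↔ Tv wt c S := by
  have key : ∀ (v : S → ZMod 3) (π : S),
      ∑ ρ : S, (a * wt ρ) * cs π ρ * (v ρ - v π) - a * c * rl π * v π =
      a * (∑ ρ : S, wt ρ * cs π ρ * (v ρ - v π) - c * rl π * v π) := by
    intro v π
    rw [mul_sub, Finset.mul_sum]
    congr 1
    · exact Finset.sum_congr rfl fun ρ _ => by ring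
    · ring
  have key2 : ∀ v : S → ZMod 3, ∑ π : S, (a * wt π) * rl π * v π =
      a * ∑ π : S, wt π * rl π * v π := by
    intro v
    rw [Finset.mul_sum]
    exact Finset.sum_congr rfl fun ρ _ => by ring
  unfold Tv
  simp only [key, key2, mul_eq_zero, ha, false_or]

end set

end Pool.Agent.H91.XP
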