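import Pool.Agent.H91.X17

/-!
# The proportion of the `μ` for which `D μ` and `D μ²` are both trivial
-/

set_option autoImplicit false
set_option linter.unusedVariables false
set_option linter.unusedSectionVars false

open scoped Classical

namespace Pool.Agent.H91.XP

open NumberField
open Pool.Agent.Y692.QS (Ei w nr)
open Pool.Agent.Y715.T.Rec (cs nn)
open Pool.Agent.Y715.T.RecG (Pq)
open Pool.Agent.Y703.CT
open Pool.Agent.Y703.XK (c9)
open Pool.Agent.Y703.XL (cr)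
open Pool.Agent.H91.Kc (ex)
open Pool.Agent.H91.LKz (Pm)
open Pool.Agent.Y350.CTK.Tam (te te_prime te_sq)
open Pool.Agent.Y696.CTK (Tri Law3)
open Pool.Agent.Y699.E (nrm PD PS mem_PD PS_prod nr_le nrm_mul nrm_prod)
open Pool.Agent.H91.XR
open Pool.Agent.H91.XRW
open Pool.Agent.Y274.CT (eq_of_dvd)

/-- the units -/
def uu (s : Bool) (b : ZMod 3) : Ei := if s then w ^ b.val else -w ^ b.val

lemma uu_U6 : ∀ u ∈ Pool.Agent.H91.Dz7.U6, ∃ (s : Bool) (b : ZMod 3), u = uu s b := by decide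

lemma uu_unit (s : Bool) (b : ZMod 3) : IsUnit (uu s b) := by
  rw [Pool.Agent.Y692.QS.isUnit_iff]
  revert s b
  decide

lemma uu_nrm : ∀ (s : Bool) (b : ZMod 3), nrm (uu s b) = 1 := by decide

lemma uu_inj : ∀ (s s' : Bool) (b b' : ZMod 3), uu s b = uu s' b' → s = s' ∧ b = b' := by decide

lemma uu_pm (s : Bool) (b : ZMod 3) : Pm (w ^ b.val) (uu s b) := by
  cases s
  · exact Or.inr rfl
  · exact Or.inl rfl

lemma wpow (a b : ZMod 3) : (w : Ei) ^ (a + b).val = w ^ a.val * w ^ b.val := by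
  revert a b
  decide

section count

variable {P₀ : Finset Ei} {wt : Ei → ZMod 3} {c₀ : ZMod 3} {D₀ : Ei}

/-- the norm of the fixed part -/
def N0 (P₀ : Finset Ei) : ℕ := ∏ p ∈ P₀, nrm p

/-- the sets -/
noncomputable def FS (P₀ : Finset Ei) (X : ℕ) : Finset (Finset Ei) :=
  (SS (X * N0 P₀)).filter fun S => P₀ ⊆ S

/-- the element -/
noncomputable def mu (P₀ : Finset Ei) (s : Bool) (b : ZMod 3) (S : Finset Ei) : Ei :=
  uu s b * ∏ p ∈ S \ P₀, p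

lemma mem_SS' {X : ℕ} {S : Finset Ei} : S ∈ SS X ↔ (∀ p ∈ S, Pq p) ∧ ∏ π ∈ S, nrm π ≤ X :=
  mem_SS

lemma mem_FS {X : ℕ} {S : Finset Ei} :
    S ∈ FS P₀ X ↔ ((∀ p ∈ S, Pq p) ∧ ∏ π ∈ S, nrm π ≤ X * N0 P₀) ∧ P₀ ⊆ S := by
  unfold FS
  rw [Finset.mem_filter, mem_SS']

lemma N0_pos (hP : ∀ p ∈ P₀, Pq p) : 0 < N0 P₀ :=
  Finset.prod_pos fun p hp => nrm_one_le (hP p hp)

/-- the basic set -/
def Bs (P₀ : Finset Ei) (X : ℕ) (μ : Ei) : Prop :=
  nr μ ≤ X ∧ Squarefree μ ∧ ¬ te ∣ μ ∧ ∀ p ∈ P₀, ¬ p ∣ μ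

lemma te_ndvd {n : Ei} (h : (3 : Ei) ∣ n - 1) : ¬ te ∣ n := by
  intro h1
  have h6 : te ∣ (3 : Ei) := ⟨-te, by linear_combination te_sq⟩
  have h2 := dvd_sub h1 (h6.trans h)
  rw [sub_sub_cancel] at h2
  exact te_prime.not_isUnit (isUnit_of_dvd_one h2)

lemma count_gen (hP : ∀ p ∈ P₀, Pq p) (Q : Ei → Prop) (X : ℕ) :
    {μ : Ei | Bs P₀ X μ ∧ Q μ}.ncard =
      ∑ z : Bool × ZMod 3, ((FS P₀ X).filter fun S => Q (mu P₀ z.1 z.2 S)).card := by
  have h1 : {μ : Ei | Bs P₀ X μ ∧ Q μ} =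
      (((Finset.univ.sigma fun z : Bool × ZMod 3 => (FS P₀ X).filter fun S => Q (mu P₀ z.1 z.2 S)).image
        fun p => mu P₀ p.1.1 p.1.2 p.2 : Finset Ei) : Set Ei) := by
    ext μ
    rw [Finset.mem_coe, Finset.mem_image]
    constructor
    · rintro ⟨⟨h1, h2, h3, h4⟩, h5⟩
      obtain ⟨u, hu, n, hn, rfl⟩ := Pool.Agent.H91.Dz7.rep6 h3 h2
      obtain ⟨s, b, rfl⟩ := uu_U6 u hu
      have hdis : Disjoint P₀ (PD n) := by
        rw [Finset.disjoint_left]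
        intro p hp hp'
        exact h4 p hp (((mem_PD hn.ne).1 hp').2.mul_left _)
      have hsd : (P₀ ∪ PD n) \ P₀ = PD n := by
        rw [Finset.union_sdiff_left]
        exact Finset.sdiff_eq_self_of_disjoint hdis.symm
      have hmu : mu P₀ s b (P₀ ∪ PD n) = uu s b * n := by
        unfold mu
        rw [hsd, hn.prod]
      refine ⟨⟨(s, b), P₀ ∪ PD n⟩, ?_, hmu⟩
      rw [Finset.mem_sigma]
      refine ⟨Finset.mem_univ _, ?_⟩
      rw [Finset.mem_filter, mem_FS]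
      refine ⟨⟨⟨?_, ?_⟩, Finset.subset_union_left⟩, ?_⟩
      · intro p hp
        rcases Finset.mem_union.1 hp with h | h
        · exact hP p h
        · exact ((mem_PD hn.ne).1 h).1
      · rw [Finset.prod_union hdis]
        have h6 : ∏ π ∈ PD n, nrm π = nrm n := by
          rw [← Pool.Agent.Y550.XK.NS.nrm_prod, hn.prod]
        rw [h6]
        rw [nr_le, nrm_mul, uu_nrm, one_mul] at h1
        rw [mul_comm]
        exact Nat.mul_le_mul_right _ h1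
      · show Q (mu P₀ s b (P₀ ∪ PD n))
        rw [hmu]
        exact h5
    · rintro ⟨⟨⟨s, b⟩, S⟩, hp, rfl⟩
      rw [Finset.mem_sigma] at hp
      obtain ⟨-, hp⟩ := hp
      simp only at hp
      rw [Finset.mem_filter, mem_FS] at hp
      obtain ⟨⟨⟨h1, h2⟩, h3⟩, h4⟩ := hp
      have hT : ∀ p ∈ S \ P₀, Pq p := fun p hp => h1 p (Finset.sdiff_subset hp)
      obtain ⟨hps, hpd⟩ := PS_prod hT
      refine ⟨⟨?_, ?_, ?_, ?_⟩, h4⟩
      · show nr (uu s b * ∏ p ∈ S \ P₀, p) ≤ X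
        rw [nr_le, nrm_mul, uu_nrm, one_mul]
        have h5 : ∏ π ∈ S, nrm π = N0 P₀ * nrm (∏ p ∈ S \ P₀, p) := by
          rw [Pool.Agent.Y550.XK.NS.nrm_prod, ← Finset.prod_sdiff h3, mul_comm]
          rfl
        rw [h5, mul_comm X] at h2
        exact Nat.le_of_mul_le_mul_left h2 (N0_pos hP)
      · have h5 : Associated (∏ p ∈ S \ P₀, p) (uu s b * ∏ p ∈ S \ P₀, p) := by
          rw [mul_comm]
          exact (associated_mul_isUnit_left_iff (uu_unit s b)).2 (Associated.refl _) |>.symm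
        exact (h5.squarefree_iff).1 hps.sqf
      · intro h5
        exact te_ndvd hps.prm ((uu_unit s b).dvd_mul_left.1 h5)
      · intro p hp h5
        have h6 := (uu_unit s b).dvd_mul_left.1 h5
        obtain ⟨q, hq, hpq⟩ := ((hP p hp).prime.dvd_finsetProd_iff _).1 h6
        have h7 := eq_of_dvd (hT q hq) (hP p hp) hpq
        rw [← h7] at hq
        exact (Finset.mem_sdiff.1 hq).2 hp
  rw [h1, Set.ncard_coe_finset, Finset.card_image_of_injOn, Finset.card_sigma]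
  rintro ⟨⟨s, b⟩, S⟩ hp ⟨⟨s', b'⟩, S'⟩ hp' heq
  rw [Finset.mem_coe, Finset.mem_sigma] at hp hp'
  simp only [Finset.mem_filter, mem_FS] at hp hp' heq
  have hT : ∀ p ∈ S \ P₀, Pq p := fun p h => hp.2.1.1.1 p (Finset.sdiff_subset h)
  have hT' : ∀ p ∈ S' \ P₀, Pq p := fun p h => hp'.2.1.1.1 p (Finset.sdiff_subset h)
  obtain ⟨hps, hpd⟩ := PS_prod hT
  obtain ⟨hps', hpd'⟩ := PS_prod hT'
  have heq' : uu s b * (∏ p ∈ S \ P₀, p) = uu s' b' * ∏ p ∈ S' \ P₀, p := heq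
  have h2 := congrArg Pool.Agent.Y692.QS.ns heq'
  rw [Pool.Agent.Y692.QS.ns_mul, Pool.Agent.Y692.QS.ns_mul,
    Pool.Agent.Y696.CT.ns_unit (uu_unit s b), Pool.Agent.Y696.CT.ns_unit (uu_unit s' b'), one_mul,
    one_mul, Pool.Agent.Y696.CT.ns_of_prim hps.prm, Pool.Agent.Y696.CT.ns_of_prim hps'.prm] at h2
  have h3 : S \ P₀ = S' \ P₀ := by rw [← hpd, ← hpd', h2]
  have h4 : S = S' := by
    rw [← Finset.sdiff_union_of_subset hp.2.1.2, ← Finset.sdiff_union_of_subset hp'.2.1.2, h3]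
  rw [h2] at heq'
  have h5 := mul_right_cancel₀ hps'.ne heq'
  obtain ⟨h6, h7⟩ := uu_inj _ _ _ _ h5
  subst h4 h6 h7
  rfl

/-- the weights of `D μ²` -/
noncomputable def wt2 (P₀ : Finset Ei) (wt : Ei → ZMod 3) (p : Ei) : ZMod 3 :=
  if p ∈ P₀ then wt p else 2

/-- the double of the weights of `D μ²` -/
noncomputable def wt3 (P₀ : Finset Ei) (wt : Ei → ZMod 3) (p : Ei) : ZMod 3 :=
  2 * wt2 P₀ wt p

lemma wt2_ne (h0 : ∀ p, wt p ≠ 0) (p : Ei) : wt2 P₀ wt p ≠ 0 := by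
  unfold wt2
  split_ifs
  · exact h0 p
  · decide

lemma wt3_ne (h0 : ∀ p, wt p ≠ 0) (p : Ei) : wt3 P₀ wt p ≠ 0 :=
  mul_ne_zero (by decide) (wt2_ne h0 p)

lemma wt3_one (p : Ei) (hp : p ∉ P₀) : wt3 P₀ wt p = 1 := by
  unfold wt3 wt2
  rw [if_neg hp]
  decide

lemma prod_split' {S : Finset Ei} (h : P₀ ⊆ S) (f : Ei → Ei) :
    ∏ p ∈ S, f p = (∏ p ∈ P₀, f p) * ∏ p ∈ S \ P₀, f p := by
  rw [← Finset.prod_sdiff h, mul_comm]

lemma pm_mu (hD : SD P₀ wt c₀ D₀) (s : Bool) (b : ZMod 3) {S : Finset Ei} (hS : P₀ ⊆ S) :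
    Pm (w ^ (c₀ + b).val * ∏ p ∈ S, p ^ (wt p).val) (D₀ * mu P₀ s b S) := by
  have h1 : ∏ p ∈ S, p ^ (wt p).val = (∏ p ∈ P₀, p ^ (wt p).val) * ∏ p ∈ S \ P₀, p := by
    rw [prod_split' hS]
    congr 1
    refine Finset.prod_congr rfl fun p hp => ?_
    rw [hD.w1 p (Finset.mem_sdiff.1 hp).2]
    exact pow_one p
  rw [h1, wpow]
  unfold mu
  rcases hD.eq with h | h <;> rcases uu_pm s b with h' | h' <;> rw [h, h']
  · left
    ring
  · right
    ring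
  · right
    ring
  · left
    ring

lemma pm_mu2 (hD : SD P₀ wt c₀ D₀) (s : Bool) (b : ZMod 3) {S : Finset Ei} (hS : P₀ ⊆ S) :
    Pm (w ^ (c₀ + 2 * b).val * ∏ p ∈ S, p ^ (wt2 P₀ wt p).val) (D₀ * (mu P₀ s b S) ^ 2) := by
  have h1 : ∏ p ∈ S, p ^ (wt2 P₀ wt p).val =
      (∏ p ∈ P₀, p ^ (wt p).val) * (∏ p ∈ S \ P₀, p) ^ 2 := by
    rw [prod_split' hS, ← Finset.prod_pow]
    congr 1
    · refine Finset.prod_congr rfl fun p hp => ?_
      unfold wt2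
      rw [if_pos hp]
    · refine Finset.prod_congr rfl fun p hp => ?_
      unfold wt2
      rw [if_neg (Finset.mem_sdiff.1 hp).2]
      rfl
  have h2 : (w : Ei) ^ (c₀ + 2 * b).val = w ^ c₀.val * (w ^ b.val) ^ 2 := by
    rw [wpow, two_mul, wpow]
    ring
  rw [h1, h2]
  unfold mu
  rcases hD.eq with h | h <;> rcases uu_pm s b with h' | h' <;> rw [h, h']
  · left
    ring
  · left
    ring
  · right
    ring
  · right
    ring

/-- the labels -/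
lemma nu_wt2 {S : Finset Ei} (hS : P₀ ⊆ S) (h1 : ∀ p, p ∉ P₀ → wt p = 1) :
    nu (wt2 P₀ wt) S = 2 * nu wt S - nu wt P₀ := by
  unfold nu
  rw [← Finset.sum_sdiff hS, ← Finset.sum_sdiff (f := fun π => wt π * rl π) hS]
  have e1 : ∑ x ∈ S \ P₀, wt2 P₀ wt x * rl x = 2 * ∑ x ∈ S \ P₀, wt x * rl x := by
    rw [Finset.mul_sum]
    refine Finset.sum_congr rfl fun p hp => ?_
    unfold wt2
    rw [if_neg (Finset.mem_sdiff.1 hp).2, h1 p (Finset.mem_sdiff.1 hp).2, one_mul]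
  have e2 : ∑ x ∈ P₀, wt2 P₀ wt x * rl x = ∑ x ∈ P₀, wt x * rl x := by
    refine Finset.sum_congr rfl fun p hp => ?_
    unfold wt2
    rw [if_pos hp]
  rw [e1, e2]
  ring

lemma nu_wt3 (S : Finset Ei) : nu (wt3 P₀ wt) S = 2 * nu (wt2 P₀ wt) S := by
  unfold nu wt3
  rw [Finset.mul_sum]
  exact Finset.sum_congr rfl fun p _ => by ring

/-- the families -/
lemma FS_filter (P₀ : Finset Ei) (wt : Ei → ZMod 3) (ν : ZMod 3) (X : ℕ) :
    (FS P₀ X).filter (fun S => nu wt S = ν) = FP P₀ wt ν (X * N0 P₀) := by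
  unfold FS FP
  rw [Finset.filter_filter]

lemma FP_wt3 (h1 : ∀ p, p ∉ P₀ → wt p = 1) (ν : ZMod 3) (Y : ℕ) :
    FP P₀ (wt3 P₀ wt) (2 * (2 * ν - nu wt P₀)) Y = FP P₀ wt ν Y := by
  unfold FP
  refine Finset.filter_congr fun S _ => and_congr_right fun hS => ?_
  rw [nu_wt3, nu_wt2 hS h1]
  generalize nu wt S = a
  generalize nu wt P₀ = b
  revert a b ν
  decide

end count

end Pool.Agent.H91.XP
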