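import Pool.Agent.H91.X18

/-!
# The proportion of the `μ` for which `D μ` and `D μ²` are both trivial: the inequality
-/

set_option autoImplicit false
set_option linter.unusedVariables false
set_option linter.unusedSectionVars false

open scoped Classical

namespace Pool.Agent.H91.XP

open NumberField
open Pool.Agent.Y692.QS (Ei w nr)
open Pool.Agent.Y715.T.RecG (Pq)
open Pool.Agent.Y703.XK (c9)
open Pool.Agent.Y703.XL (cr)
open Pool.Agent.H91.LKz (Pm)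
open Pool.Agent.Y350.CTK.Tam (te te_prime te_sq)
open Pool.Agent.Y696.CTK (Tri Law3)
open Pool.Agent.Y699.E (nrm PD PS)
open Pool.Agent.H91.XR
open Pool.Agent.H91.XRW

lemma cr0 : cr 0 = c9 := by
  unfold cr
  simp

lemma inc_exc {α : Type} (A : Finset α) (p q : α → Prop) :
    ((A.filter p).card : ℝ) + ((A.filter q).card : ℝ) - (A.card : ℝ) ≤
      ((A.filter fun x => p x ∧ q x).card : ℝ) := by
  have h1 := Finset.card_union_add_card_inter (A.filter p) (A.filter q)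
  rw [← Finset.filter_and] at h1
  have h2 : (A.filter p ∪ A.filter q).card ≤ A.card :=
    Finset.card_le_card (Finset.union_subset (Finset.filter_subset _ _) (Finset.filter_subset _ _))
  have h3 : (((A.filter p ∪ A.filter q).card + (A.filter fun x => p x ∧ q x).card : ℕ) : ℝ) =
      (((A.filter p).card + (A.filter q).card : ℕ) : ℝ) := by exact_mod_cast h1
  push_cast at h3
  have h4 : ((A.filter p ∪ A.filter q).card : ℝ) ≤ (A.card : ℝ) := by exact_mod_cast h2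
  linarith

variable {P₀ : Finset Ei} {wt : Ei → ZMod 3} {c₀ : ZMod 3} {D₀ : Ei}

/-- both residue classes are right -/
def Q1 (D₀ μ : Ei) : Prop := Rc (D₀ * μ) ∧ Rc (D₀ * μ ^ 2)

/-- the labels are allowed -/
def Al (P₀ : Finset Ei) (wt : Ei → ZMod 3) (c₀ b ν : ZMod 3) : Prop :=
  (c₀ + b = 0 → ν ≠ 0) ∧ (c₀ + 2 * b = 0 → 2 * ν - nu wt P₀ ≠ 0)

lemma q1_iff (hD : SD P₀ wt c₀ D₀) (s : Bool) (b : ZMod 3) {S : Finset Ei} (hSq : ∀ p ∈ S, Pq p)
    (hS : P₀ ⊆ S) : Q1 D₀ (mu P₀ s b S) ↔ Al P₀ wt c₀ b (nu wt S) := by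
  unfold Q1 Al
  rw [rc_lab hSq hD.w0 (pm_mu hD s b hS), rc_lab hSq (wt2_ne hD.w0) (pm_mu2 hD s b hS),
    nu_wt2 hS hD.w1]

section

variable {K : Type} [Field K] [NumberField K] (j : Ei ≃+* 𝓞 K)

/-- both twists are trivial -/
def Gd (D₀ μ : Ei) : Prop := Tri (j (D₀ * μ)) ∧ Tri (j (D₀ * μ ^ 2))

/-- both conditions -/
def QG (D₀ μ : Ei) : Prop := Q1 D₀ μ ∧ Gd j D₀ μ

lemma gd_iff (hD : SD P₀ wt c₀ D₀) (s : Bool) (b : ZMod 3) {S : Finset Ei}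
    (hSq : ∀ p ∈ S, Pq p) (hS : P₀ ⊆ S) (ha : Al P₀ wt c₀ b (nu wt S)) :
    Gd j D₀ (mu P₀ s b S) ↔ Tv wt (c₀ + b) S ∧ Tv (wt3 P₀ wt) (2 * (c₀ + 2 * b)) S := by
  have hne : S.Nonempty := hD.ne.mono hS
  unfold Gd
  rw [tri_S j hSq hne hD.w0 ha.1 (pm_mu hD s b hS),
    tri_S j hSq hne (wt2_ne hD.w0) (by rw [nu_wt2 hS hD.w1]; exact ha.2) (pm_mu2 hD s b hS)]
  have h2 : (2 : ZMod 3) ≠ 0 := by decide
  exact and_congr_right fun _ => (Tv_scale (wt := wt2 P₀ wt) (S := S) h2).symm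

/-- one label -/
lemma per_nu (hD : SD P₀ wt c₀ D₀) (s : Bool) (b ν : ZMod 3) {X : ℕ} {δ : ℝ} (hδ : 0 ≤ δ)
    (h : Al P₀ wt c₀ b ν →
      |(((FP P₀ wt ν (X * N0 P₀)).filter (Tv wt (c₀ + b))).card : ℝ) -
        cr 0 * ((FP P₀ wt ν (X * N0 P₀)).card : ℝ)| ≤ δ ∧
      |(((FP P₀ (wt3 P₀ wt) (2 * (2 * ν - nu wt P₀)) (X * N0 P₀)).filter
          (Tv (wt3 P₀ wt) (2 * (c₀ + 2 * b)))).card : ℝ) -
        cr 0 * ((FP P₀ (wt3 P₀ wt) (2 * (2 * ν - nu wt P₀)) (X * N0 P₀)).card : ℝ)| ≤ δ) :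
    (2 * c9 - 1) * ((((FS P₀ X).filter fun S => Q1 D₀ (mu P₀ s b S)).filter
        fun S => nu wt S = ν).card : ℝ) - 2 * δ ≤
      ((((FS P₀ X).filter fun S => QG j D₀ (mu P₀ s b S)).filter
        fun S => nu wt S = ν).card : ℝ) := by
  by_cases ha : Al P₀ wt c₀ b ν
  · obtain ⟨h1, h2⟩ := h ha
    rw [FP_wt3 hD.w1] at h2
    rw [cr0] at h1 h2
    have e1 : ((FS P₀ X).filter fun S => Q1 D₀ (mu P₀ s b S)).filter (fun S => nu wt S = ν) =
        FP P₀ wt ν (X * N0 P₀) := by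
      rw [← FS_filter, Finset.filter_filter]
      refine Finset.filter_congr fun S hS => ⟨fun h => h.2, fun h => ⟨?_, h⟩⟩
      rw [mem_FS] at hS
      rw [q1_iff hD s b hS.1.1 hS.2, h]
      exact ha
    have e2 : ((FS P₀ X).filter fun S => QG j D₀ (mu P₀ s b S)).filter
        (fun S => nu wt S = ν) = (FP P₀ wt ν (X * N0 P₀)).filter
          (fun S => Tv wt (c₀ + b) S ∧ Tv (wt3 P₀ wt) (2 * (c₀ + 2 * b)) S) := by
      rw [← FS_filter, Finset.filter_filter, Finset.filter_filter]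
      refine Finset.filter_congr fun S hS => ?_
      rw [mem_FS] at hS
      constructor
      · rintro ⟨⟨h3, h4⟩, h5⟩
        refine ⟨h5, (gd_iff j hD s b hS.1.1 hS.2 ?_).1 h4⟩
        rw [h5]
        exact ha
      · rintro ⟨h5, h4⟩
        have ha' : Al P₀ wt c₀ b (nu wt S) := by rw [h5]; exact ha
        exact ⟨⟨(q1_iff hD s b hS.1.1 hS.2).2 ha', (gd_iff j hD s b hS.1.1 hS.2 ha').2 h4⟩, h5⟩
    rw [e1, e2]
    have h3 := inc_exc (FP P₀ wt ν (X * N0 P₀)) (Tv wt (c₀ + b))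
      (Tv (wt3 P₀ wt) (2 * (c₀ + 2 * b)))
    have h4 := abs_le.1 h1
    have h5 := abs_le.1 h2
    linarith [h4.1, h5.1]
  · have e1 : ((FS P₀ X).filter fun S => Q1 D₀ (mu P₀ s b S)).filter (fun S => nu wt S = ν) = ∅ := by
      rw [Finset.filter_eq_empty_iff]
      intro S hS h
      rw [Finset.mem_filter, mem_FS] at hS
      apply ha
      rw [← h]
      exact (q1_iff hD s b hS.1.1.1 hS.1.2).1 hS.2
    rw [e1, Finset.card_empty, Nat.cast_zero, mul_zero, zero_sub]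
    have : (0 : ℝ) ≤ ((((FS P₀ X).filter fun S => QG j D₀ (mu P₀ s b S)).filter
      fun S => nu wt S = ν).card : ℝ) := Nat.cast_nonneg _
    linarith

/-- **the main inequality** -/
theorem main_Ei (hD : SD P₀ wt c₀ D₀) : ∀ ε : ℝ, 0 < ε → ∃ X₁ : ℕ, ∀ X : ℕ, X₁ ≤ X →
    (2 * c9 - 1) * ({μ : Ei | Bs P₀ X μ ∧ Q1 D₀ μ}.ncard : ℝ) - ε * X ≤
      ({μ : Ei | Bs P₀ X μ ∧ QG j D₀ μ}.ncard : ℝ) := by
  intro ε hε
  have hN := N0_pos hD.pq
  have hN' : (0 : ℝ) < N0 P₀ := by exact_mod_cast hN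
  have hδ : 0 < ε / (36 * N0 P₀) := by positivity
  have hth : ∀ q : ZMod 3 × ZMod 3, ∃ X₁ : ℕ, ∀ Y : ℕ, X₁ ≤ Y → Al P₀ wt c₀ q.1 q.2 →
      |(((FP P₀ wt q.2 Y).filter (Tv wt (c₀ + q.1))).card : ℝ) -
        cr 0 * ((FP P₀ wt q.2 Y).card : ℝ)| ≤ ε / (36 * N0 P₀) * Y ∧
      |(((FP P₀ (wt3 P₀ wt) (2 * (2 * q.2 - nu wt P₀)) Y).filter
          (Tv (wt3 P₀ wt) (2 * (c₀ + 2 * q.1)))).card : ℝ) -
        cr 0 * ((FP P₀ (wt3 P₀ wt) (2 * (2 * q.2 - nu wt P₀)) Y).card : ℝ)| ≤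
          ε / (36 * N0 P₀) * Y := by
    rintro ⟨b, ν⟩
    by_cases ha : Al P₀ wt c₀ b ν
    · have hc1 : c₀ + b ≠ 0 ∨ ν ≠ 0 := by
        by_cases h : c₀ + b = 0
        · exact Or.inr (ha.1 h)
        · exact Or.inl h
      have hc2 : 2 * (c₀ + 2 * b) ≠ 0 ∨ 2 * (2 * ν - nu wt P₀) ≠ 0 := by
        by_cases h : c₀ + 2 * b = 0
        · exact Or.inr (mul_ne_zero (by decide) (ha.2 h))
        · exact Or.inl (mul_ne_zero (by decide) h)
      obtain ⟨X₁, h1⟩ := lawN hD.w0 hD.w1 hc1 _ hδ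
      obtain ⟨X₂, h2⟩ := lawN (P₀ := P₀) (wt := wt3 P₀ wt) (wt3_ne hD.w0)
        (fun p hp => wt3_one p hp) hc2 _ hδ
      exact ⟨max X₁ X₂, fun Y hY _ => ⟨h1 Y ((le_max_left _ _).trans hY),
        h2 Y ((le_max_right _ _).trans hY)⟩⟩
    · exact ⟨0, fun Y _ h => absurd h ha⟩
  choose Th hTh using hth
  refine ⟨Finset.univ.sup Th, fun X hX => ?_⟩
  have hXN : X ≤ X * N0 P₀ := Nat.le_mul_of_pos_right _ hN
  set δ : ℝ := ε / (36 * N0 P₀) * ((X * N0 P₀ : ℕ) : ℝ) with hδd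
  have hδ0 : 0 ≤ δ := by positivity
  have hδX : 36 * δ = ε * X := by
    rw [hδd]
    push_cast
    field_simp
  rw [count_gen hD.pq, count_gen hD.pq]
  have key : ∀ z : Bool × ZMod 3,
      (2 * c9 - 1) * (((FS P₀ X).filter fun S => Q1 D₀ (mu P₀ z.1 z.2 S)).card : ℝ) - 6 * δ ≤
      (((FS P₀ X).filter fun S => QG j D₀ (mu P₀ z.1 z.2 S)).card : ℝ) := by
    rintro ⟨s, b⟩
    have f1 : ∀ R : Finset Ei → Prop, (((FS P₀ X).filter R).card : ℝ) =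
        ∑ ν : ZMod 3, ((((FS P₀ X).filter R).filter fun S => nu wt S = ν).card : ℝ) := by
      intro R
      rw [Finset.card_eq_sum_card_fiberwise (f := fun S => nu wt S) (t := Finset.univ)
        (fun _ _ => Finset.mem_coe.2 (Finset.mem_univ _))]
      push_cast
      rfl
    have g1 := f1 fun S => Q1 D₀ (mu P₀ s b S)
    have g2 := f1 fun S => QG j D₀ (mu P₀ s b S)
    show (2 * c9 - 1) * (((FS P₀ X).filter fun S => Q1 D₀ (mu P₀ s b S)).card : ℝ) - 6 * δ ≤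
      (((FS P₀ X).filter fun S => QG j D₀ (mu P₀ s b S)).card : ℝ)
    rw [g1, g2, Finset.mul_sum]
    have h3 : ∑ ν : ZMod 3, ((2 * c9 - 1) * ((((FS P₀ X).filter fun S => Q1 D₀ (mu P₀ s b S)).filter
        fun S => nu wt S = ν).card : ℝ) - 2 * δ) ≤
      ∑ ν : ZMod 3, ((((FS P₀ X).filter fun S => QG j D₀ (mu P₀ s b S)).filter
        fun S => nu wt S = ν).card : ℝ) := by
      refine Finset.sum_le_sum fun ν _ => per_nu j hD s b ν hδ0 fun ha => ?_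
      have h4 : Th (b, ν) ≤ X * N0 P₀ :=
        ((Finset.le_sup (f := Th) (Finset.mem_univ (b, ν))).trans hX).trans hXN
      exact hTh (b, ν) (X * N0 P₀) h4 ha
    rw [Finset.sum_sub_distrib, Finset.sum_const, Finset.card_univ, ZMod.card, nsmul_eq_mul] at h3
    push_cast at h3
    linarith
  have h5 : ∑ z : Bool × ZMod 3, ((2 * c9 - 1) *
      (((FS P₀ X).filter fun S => Q1 D₀ (mu P₀ z.1 z.2 S)).card : ℝ) - 6 * δ) ≤
      ∑ z : Bool × ZMod 3, (((FS P₀ X).filter fun S => QG j D₀ (mu P₀ z.1 z.2 S)).card : ℝ) :=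
    Finset.sum_le_sum fun z _ => key z
  rw [Finset.sum_sub_distrib, Finset.sum_const, Finset.card_univ, Fintype.card_prod,
    Fintype.card_bool, ZMod.card, nsmul_eq_mul, ← Finset.mul_sum] at h5
  push_cast at h5 ⊢
  linarith

end

end Pool.Agent.H91.XP
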