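import Pool.Agent.H91.X1
import Pool.Graph.R_seed8.Y699.E.Lg

/-!
# The sum over the boxes, for the matrices with a root

Adapted from the library (`Pool/Graph/R_seed8/Y696/XL/Key.lean`, from helper697).
-/

set_option autoImplicit false
set_option linter.unusedVariables false

namespace Pool.Agent.H91.XR

open Finset
open Pool.Agent.Y692.QS (Ei w nr toC)
open Pool.Agent.Y715.T.Rec (cs)
open Pool.Agent.Y715.T.RecG (Pq)
open Pool.Agent.Y699.E (ez nrm QB mem_QB pq_nrm_two nrm_prod PS_prod PD SB mem_SB card_SB_le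
  hsum_SB lg)
open Pool.Agent.Y703.CX (jj XX)
open Pool.Agent.Y703.XK (prs HB ext c9 sm la bl S_BIL)
open scoped Classical

theorem le_XX {H p : ℕ} (hH : 1 ≤ H) (hp : 1 ≤ p) : p ≤ XX H (jj H p) := by
  unfold XX
  apply Nat.le_floor
  have hp0 : (0 : ℝ) < p := by exact_mod_cast hp
  have hH0 : (0 : ℝ) < H := by exact_mod_cast hH
  refine (Real.exp_log hp0).symm.le.trans (Real.exp_le_exp.2 ?_)
  rw [le_div_iff₀ hH0]
  have h1 := Nat.lt_floor_add_one ((H : ℝ) * Real.log p)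
  unfold jj
  linarith


theorem fcc {α : Type} {s : Finset α} {p q : α → Prop} {i1 : DecidablePred p}
    {i2 : DecidablePred q} (h : ∀ x ∈ s, (p x ↔ q x)) :
    (@Finset.filter α p i1 s).card = (@Finset.filter α q i2 s).card := by
  congr 1
  ext x
  rw [Finset.mem_filter, Finset.mem_filter]
  exact and_congr_right fun hx => h x hx


theorem card_sub {α : Type} (U : Finset α) (K : ℕ) :
    (U.powerset.filter fun J => J.card ≤ K).card ≤ (U.card + 1) ^ K := by
  induction K with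
  | zero =>
    have : U.powerset.filter (fun J => J.card ≤ 0) ⊆ {∅} := by
      intro J hJ
      rw [Finset.mem_filter, Nat.le_zero, Finset.card_eq_zero] at hJ
      rw [hJ.2]
      exact Finset.mem_singleton_self _
    exact Finset.card_le_card this
  | succ K ih =>
    set P := U.powerset.filter fun J => J.card ≤ K with hP
    have h1 : U.powerset.filter (fun J => J.card ≤ K + 1) ⊆
        P ∪ (U ×ˢ P).image fun t => insert t.1 t.2 := by
      intro J hJ
      rw [Finset.mem_filter, Finset.mem_powerset] at hJ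
      rw [Finset.mem_union]
      rcases J.eq_empty_or_nonempty with h | ⟨x, hx⟩
      · left
        rw [hP, Finset.mem_filter, Finset.mem_powerset, h]
        exact ⟨Finset.empty_subset _, by simp⟩
      · right
        rw [Finset.mem_image]
        refine ⟨(x, J.erase x), ?_, Finset.insert_erase hx⟩
        rw [Finset.mem_product, hP, Finset.mem_filter, Finset.mem_powerset]
        refine ⟨hJ.1 hx, (Finset.erase_subset _ _).trans hJ.1, ?_⟩
        rw [Finset.card_erase_of_mem hx]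
        omega
    refine (Finset.card_le_card h1).trans ((Finset.card_union_le _ _).trans ?_)
    have h2 : ((U ×ˢ P).image fun t => insert t.1 t.2).card ≤ U.card * P.card := by
      refine Finset.card_image_le.trans ?_
      rw [Finset.card_product]
    rw [pow_succ]
    nlinarith



theorem nrm_one_le {π : Ei} (h : Pq π) : 1 ≤ nrm π := by
  have := pq_nrm_two h
  omega

theorem mem_SS {X : ℕ} {S : Finset Ei} : S ∈ SS X ↔ Cl S ∧ ∏ π ∈ S, nrm π ≤ X := by
  unfold SS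
  rw [Finset.mem_filter, Finset.mem_powerset]
  constructor
  · exact fun h => h.2
  · intro h
    refine ⟨fun p hp => ?_, h⟩
    rw [mem_QB]
    have h1 : nrm p ≤ ∏ q ∈ S, nrm q :=
      Finset.single_le_prod' (f := fun q => nrm q) (fun q hq => nrm_one_le (h.1 q hq)) hp
    exact ⟨h1.trans h.2, h.1 p hp⟩

/-- the label of a large prime -/
noncomputable def ph (H : ℕ) (π : Ei) : ℕ := 9 * bl H π + nrm π % 9

theorem ph_div (H : ℕ) (π : Ei) : ph H π / 9 = bl H π := by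
  unfold ph; omega

theorem ph_mod (H : ℕ) (π : Ei) : ph H π % 9 = nrm π % 9 := by
  unfold ph; omega

/-- the key of a set -/
noncomputable def ky (z H : ℕ) (S : Finset Ei) : Finset Ei × Finset ℕ :=
  (sm z S, (la z S).image (ph H))

/-- the primes of a block -/
noncomputable def CC (z H k : ℕ) : Finset Ei :=
  (QB (XX H (k / 9))).filter fun π => z < nrm π ∧ ph H π = k

theorem mem_CC {z H : ℕ} (hH : 1 ≤ H) {k : ℕ} {π : Ei} :
    π ∈ CC z H k ↔ Pq π ∧ z < nrm π ∧ ph H π = k := by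
  unfold CC
  rw [Finset.mem_filter, mem_QB]
  constructor
  · exact fun h => ⟨h.1.2, h.2⟩
  · intro h
    refine ⟨⟨?_, h.1⟩, h.2⟩
    have := le_XX hH (nrm_one_le h.1)
    have h1 : jj H (nrm π) = k / 9 := by rw [← h.2.2, ph_div]; rfl
    rwa [h1] at this

/-- the conditions on a key -/
def Cd (X K V H : ℕ) (S₀ : Finset Ei) (J : Finset ℕ) : Prop :=
  S₀.card + J.card ≤ K ∧ (∏ π ∈ S₀, nrm π) * ∏ i ∈ J, XX H (i / 9) ≤ X ∧
  S₀.card + V < J.card

theorem sm_union (z : ℕ) (S : Finset Ei) : sm z S ∪ la z S = S := by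
  unfold sm la
  exact Finset.filter_union_filter_not_eq _ _

theorem sm_disj (z : ℕ) (S : Finset Ei) : Disjoint (sm z S) (la z S) := by
  unfold sm la
  exact Finset.disjoint_filter_filter_not _ _ _

theorem prod_split (z : ℕ) (S : Finset Ei) (f : Ei → ℕ) :
    ∏ p ∈ S, f p = (∏ p ∈ sm z S, f p) * ∏ p ∈ la z S, f p := by
  conv_lhs => rw [← sm_union z S]
  exact Finset.prod_union (sm_disj z S)

theorem ph_inj {H : ℕ} {L : Finset Ei} (h : Set.InjOn (bl H) (L : Set Ei)) :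
    Set.InjOn (ph H) (L : Set Ei) := fun a ha b hb hab => h ha hb (by
  rw [← ph_div, ← ph_div, hab])

theorem prod_ph {H : ℕ} {L : Finset Ei}
    (h : Set.InjOn (bl H) (L : Set Ei)) (f : ℕ → ℕ) :
    ∏ i ∈ L.image (ph H), f i = ∏ p ∈ L, f (ph H p) :=
  Finset.prod_image fun a ha b hb hab => ph_inj h ha hb hab

theorem prod_mod (L : Finset Ei) (H : ℕ) :
    (∏ p ∈ L, nrm p) % 9 = (∏ p ∈ L, ph H p) % 9 := by
  have h1 : (∏ p ∈ L, nrm p) ≡ (∏ p ∈ L, ph H p) [MOD 9] := by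
    induction L using Finset.induction_on with
    | empty => rfl
    | insert a s ha ih =>
      rw [Finset.prod_insert ha, Finset.prod_insert ha]
      exact Nat.ModEq.mul (ph_mod H a).symm ih
  exact h1

theorem mem_RR {X z H K V : ℕ} (hH : 1 ≤ H) {S : Finset Ei} :
    S ∈ RR X z H K V ↔ (∀ p ∈ S, Pq p) ∧ Set.InjOn (bl H) (la z S : Set Ei) ∧
      Cd X K V H (ky z H S).1 (ky z H S).2 := by
  unfold RR
  rw [Finset.mem_filter, mem_SS]
  have hk1 : (ky z H S).1 = sm z S := rfl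
  have hk2 : (ky z H S).2 = (la z S).image (ph H) := rfl
  rw [hk1, hk2]
  have key : Set.InjOn (bl H) (la z S : Set Ei) →
      (S.card = (sm z S).card + ((la z S).image (ph H)).card) ∧
      (∏ i ∈ (la z S).image (ph H), XX H (i / 9) = ∏ p ∈ la z S, XX H (bl H p)) ∧
      (((la z S).image (ph H)).card = (la z S).card) := by
    intro h
    refine ⟨?_, ?_, ?_⟩
    · rw [Finset.card_image_of_injOn (ph_inj h), ← Finset.card_union_of_disjoint (sm_disj z S),
        sm_union]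
    · rw [prod_ph h (fun i => XX H (i / 9))]
      exact Finset.prod_congr rfl fun p _ => by rw [ph_div]
    · rw [Finset.card_image_of_injOn (ph_inj h)]
  unfold Cl Cd
  constructor
  · rintro ⟨⟨h1, h5⟩, h6, h7, h8, h9⟩
    obtain ⟨k3, k4, k5⟩ := key h6
    refine ⟨h1, h6, ?_, ?_, ?_⟩
    · rw [← k3]; exact h7
    · rw [k4]; exact h8
    · rw [k5]; exact h9
  · rintro ⟨h1, h6, h7, h8, h9⟩
    obtain ⟨k3, k4, k5⟩ := key h6
    rw [← k3] at h7
    rw [k4] at h8
    rw [k5] at h9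
    refine ⟨⟨h1, ?_⟩, h6, h7, h8, h9⟩
    refine le_trans ?_ h8
    rw [prod_split z S]
    apply Nat.mul_le_mul_left
    exact Finset.prod_le_prod' fun p hp =>
      le_XX hH (nrm_one_le (h1 p (Finset.mem_filter.1 hp).1))

section fill
variable {z H : ℕ} {S₀ : Finset Ei} {J : Finset ℕ} {p : J → Ei}

theorem sm_fill (hH : 1 ≤ H) (h₀ : ∀ q ∈ S₀, nrm q ≤ z) (hp : ∀ i : J, p i ∈ CC z H i) :
    sm z (S₀ ∪ univ.image p) = S₀ := by
  ext q
  unfold sm
  rw [Finset.mem_filter, Finset.mem_union, Finset.mem_image]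
  constructor
  · rintro ⟨h | ⟨i, -, rfl⟩, h2⟩
    · exact h
    · have := ((mem_CC hH).1 (hp i)).2.1
      omega
  · exact fun h => ⟨Or.inl h, h₀ q h⟩

theorem la_fill (hH : 1 ≤ H) (h₀ : ∀ q ∈ S₀, nrm q ≤ z) (hp : ∀ i : J, p i ∈ CC z H i) :
    la z (S₀ ∪ univ.image p) = univ.image p := by
  ext q
  unfold la
  rw [Finset.mem_filter, Finset.mem_union, Finset.mem_image]
  constructor
  · rintro ⟨h | h, h2⟩
    · exact absurd (h₀ q h) h2
    · exact h
  · rintro ⟨i, -, rfl⟩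
    have := ((mem_CC hH).1 (hp i)).2.1
    exact ⟨Or.inr ⟨i, Finset.mem_univ _, rfl⟩, by omega⟩

theorem ph_fill (hH : 1 ≤ H) (hp : ∀ i : J, p i ∈ CC z H i) :
    (univ.image p).image (ph H) = J := by
  ext k
  rw [Finset.mem_image]
  constructor
  · rintro ⟨q, hq, rfl⟩
    rw [Finset.mem_image] at hq
    obtain ⟨i, -, rfl⟩ := hq
    rw [((mem_CC hH).1 (hp i)).2.2]
    exact i.2
  · intro hk
    exact ⟨p ⟨k, hk⟩, Finset.mem_image_of_mem _ (Finset.mem_univ _),
      ((mem_CC hH).1 (hp ⟨k, hk⟩)).2.2⟩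

theorem ky_fill (hH : 1 ≤ H) (h₀ : ∀ q ∈ S₀, nrm q ≤ z) (hp : ∀ i : J, p i ∈ CC z H i) :
    ky z H (S₀ ∪ univ.image p) = (S₀, J) := by
  unfold ky
  rw [sm_fill hH h₀ hp, la_fill hH h₀ hp, ph_fill hH hp]

end fill

/-- the facts on the key of a regular set -/
theorem key_facts {X z H K V : ℕ} (hH : 1 ≤ H) {S₀ : Finset Ei} {J : Finset ℕ}
    (hkey : (S₀, J) ∈ (RR X z H K V).image (ky z H)) :
    (∀ q ∈ S₀, Pq q) ∧ (∀ q ∈ S₀, nrm q ≤ z) ∧ Set.InjOn (fun i : ℕ => i / 9) (J : Set ℕ) ∧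
      Cd X K V H S₀ J ∧ (∀ i ∈ J, z ≤ XX H (i / 9) ∧
        ∃ q : Ei, Pq q ∧ z < nrm q ∧ nrm q ≤ X ∧ ph H q = i) := by
  rw [Finset.mem_image] at hkey
  obtain ⟨W, hW, hWk⟩ := hkey
  have hWX : ∏ p ∈ W, nrm p ≤ X := by
    unfold RR at hW
    rw [Finset.mem_filter, mem_SS] at hW
    exact hW.1.2
  rw [mem_RR hH, hWk] at hW
  obtain ⟨h1, h2, h3⟩ := hW
  have hS₀ : sm z W = S₀ := congrArg Prod.fst hWk
  have hJ : (la z W).image (ph H) = J := congrArg Prod.snd hWk
  refine ⟨?_, ?_, ?_, h3, ?_⟩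
  · intro q hq
    rw [← hS₀] at hq
    exact h1 q (Finset.mem_filter.1 hq).1
  · intro q hq
    rw [← hS₀] at hq
    exact (Finset.mem_filter.1 hq).2
  · intro a ha b hb hab
    rw [Finset.mem_coe, ← hJ, Finset.mem_image] at ha hb
    obtain ⟨x, hx, rfl⟩ := ha
    obtain ⟨y, hy, rfl⟩ := hb
    simp only [ph_div] at hab
    have h4 : x = y := h2 (Finset.mem_coe.2 hx) (Finset.mem_coe.2 hy) hab
    rw [h4]
  · intro i hi
    rw [← hJ, Finset.mem_image] at hi
    obtain ⟨q, hq, rfl⟩ := hi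
    have hqW := (Finset.mem_filter.1 hq).1
    have hqz := (Finset.mem_filter.1 hq).2
    have hqp := h1 q hqW
    have hqX : nrm q ≤ X := (Finset.single_le_prod' (f := fun q => nrm q)
      (fun q hq => nrm_one_le (h1 q hq)) hqW).trans hWX
    refine ⟨?_, q, hqp, by omega, hqX, rfl⟩
    rw [ph_div]
    have h5 : nrm q ≤ XX H (bl H q) := le_XX hH (nrm_one_le hqp)
    omega

theorem key_bij {X z H K V : ℕ} (hH : 1 ≤ H) {S₀ : Finset Ei} {J : Finset ℕ}
    (hkey : (S₀, J) ∈ (RR X z H K V).image (ky z H)) (P : Finset Ei → Prop) :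
    ((Fintype.piFinset fun i : J => CC z H i).filter fun p => P (S₀ ∪ univ.image p)).card =
      ((RR X z H K V).filter fun S => ky z H S = (S₀, J) ∧ P S).card := by
  obtain ⟨h₀O, h₀, hJi, hCd, hJf⟩ := key_facts hH hkey
  apply Finset.card_bij (fun (p : J → Ei) _ => S₀ ∪ univ.image p)
  · intro p hp
    rw [Finset.mem_filter, Fintype.mem_piFinset] at hp
    obtain ⟨hp, hP⟩ := hp
    have hk := ky_fill hH h₀ hp
    rw [Finset.mem_filter]
    refine ⟨?_, hk, hP⟩
    rw [mem_RR hH, hk]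
    refine ⟨?_, ?_, hCd⟩
    · intro q hq
      rw [Finset.mem_union, Finset.mem_image] at hq
      rcases hq with hq | ⟨i, -, rfl⟩
      · exact h₀O q hq
      · exact ((mem_CC hH).1 (hp i)).1
    · rw [la_fill hH h₀ hp]
      intro a ha b hb hab
      rw [Finset.mem_coe, Finset.mem_image] at ha hb
      obtain ⟨i, -, rfl⟩ := ha
      obtain ⟨j, -, rfl⟩ := hb
      have h1 := ((mem_CC hH).1 (hp i)).2.2
      have h2 := ((mem_CC hH).1 (hp j)).2.2
      have h3 : i.1 / 9 = j.1 / 9 := by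
        rw [← h1, ← h2, ph_div, ph_div]
        exact hab
      have h4 : i = j := Subtype.ext (hJi (Finset.mem_coe.2 i.2) (Finset.mem_coe.2 j.2) h3)
      rw [h4]
  · intro p hp p' hp' h
    rw [Finset.mem_filter, Fintype.mem_piFinset] at hp hp'
    have h1 := la_fill hH h₀ hp.1
    rw [h, la_fill hH h₀ hp'.1] at h1
    funext i
    have h2 : p i ∈ univ.image p' := by
      rw [h1]
      exact Finset.mem_image_of_mem _ (Finset.mem_univ _)
    rw [Finset.mem_image] at h2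
    obtain ⟨j, -, hj⟩ := h2
    have h3 := ((mem_CC hH).1 (hp.1 i)).2.2
    have h4 := ((mem_CC hH).1 (hp'.1 j)).2.2
    rw [hj, h3] at h4
    rw [← hj, Subtype.ext h4]
  · intro S hS
    rw [Finset.mem_filter] at hS
    obtain ⟨hSR, hSk, hSP⟩ := hS
    rw [mem_RR hH] at hSR
    obtain ⟨hSO, hSI, -⟩ := hSR
    have hk1 : sm z S = S₀ := congrArg Prod.fst hSk
    have hk2 : (la z S).image (ph H) = J := congrArg Prod.snd hSk
    have hex : ∀ i : J, ∃ q ∈ la z S, ph H q = i := by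
      rintro ⟨i, hi⟩
      rw [← hk2, Finset.mem_image] at hi
      exact hi
    choose p hp1 hp2 using hex
    have him : univ.image p = la z S := by
      ext q
      rw [Finset.mem_image]
      constructor
      · rintro ⟨i, -, rfl⟩
        exact hp1 i
      · intro hq
        have hjq : ph H q ∈ J := by
          rw [← hk2]
          exact Finset.mem_image_of_mem _ hq
        exact ⟨⟨ph H q, hjq⟩, Finset.mem_univ _, ph_inj hSI (Finset.mem_coe.2 (hp1 _))
          (Finset.mem_coe.2 hq) (hp2 ⟨ph H q, hjq⟩)⟩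
    have hSe : S₀ ∪ univ.image p = S := by rw [him, ← hk1, sm_union]
    refine ⟨p, ?_, hSe⟩
    rw [Finset.mem_filter, Fintype.mem_piFinset, hSe]
    refine ⟨fun i => (mem_CC hH).2 ⟨hSO _ (Finset.mem_filter.1 (hp1 i)).1,
      not_le.1 (Finset.mem_filter.1 (hp1 i)).2, hp2 i⟩, hSP⟩

theorem root_le24 {x y C κ : ℝ} {z : ℕ} (hx : 0 ≤ x) (hy : 0 ≤ y) (hκ : 0 ≤ κ) (hz : 1 ≤ z)
    (h : x ^ 24 * z ≤ C * y ^ 24) (hκz : C ≤ κ ^ 24 * z) : x ≤ κ * y := by
  have hz0 : (0 : ℝ) < z := by exact_mod_cast hz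
  have h1 : x ^ 24 * z ≤ (κ * y) ^ 24 * z := by
    calc x ^ 24 * z ≤ C * y ^ 24 := h
      _ ≤ (κ ^ 24 * z) * y ^ 24 := by gcongr
      _ = (κ * y) ^ 24 * z := by ring
  have h2 : x ^ 24 ≤ (κ * y) ^ 24 := le_of_mul_le_mul_right h1 hz0
  exact le_of_pow_le_pow_left₀ (by norm_num) (by positivity) h2

theorem hb_box {C₁ : ℝ} (hb1 : ∀ (P Q : Finset Ei) (A B z : ℕ) (c d : Ei → ℂ) (a : ZMod 3),
      (∀ π ∈ P, Pq π ∧ nrm π ≤ A) → (∀ ρ ∈ Q, Pq ρ ∧ nrm ρ ≤ B) → Disjoint P Q → a ≠ 0 →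
      1 ≤ z → z ≤ A → z ≤ B → (∀ π, ‖c π‖ ≤ 1) → (∀ ρ, ‖d ρ‖ ≤ 1) →
      ‖∑ π ∈ P, ∑ ρ ∈ Q, c π * d ρ * ez (a * cs π ρ)‖ ^ 24 * z ≤ C₁ * ((A : ℝ) * B) ^ 24)
    {ι : Type} (D : ι → Finset Ei) (X : ι → ℕ) {z : ℕ} {κ : ℝ}
    (hz : 1 ≤ z) (hκ : 0 ≤ κ) (h1 : C₁ ≤ κ ^ 24 * z)
    (hX : ∀ i, z ≤ X i) (hD : ∀ i, ∀ π ∈ D i, Pq π ∧ nrm π ≤ X i)
    (hdis : ∀ i l, i ≠ l → Disjoint (D i) (D l)) :
    HB D X κ := by
  intro i l hil a c d ha hc hd
  exact root_le24 (norm_nonneg _) (by positivity) hκ hz (hb1 (D i) (D l) (X i) (X l) z c d a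
    (hD i) (hD l) (hdis i l hil) ha hz (hX i) (hX l) hc hd) h1

theorem card_QB_le {V : ℕ} (hV : 1 ≤ V) : (QB V).card ≤ 16 * V := by
  have h1 : QB V ⊆ SB V := by
    intro π hπ
    rw [mem_QB] at hπ
    rw [mem_SB]
    refine ⟨hπ.1, ?_⟩
    have h2 := (PS_prod (S := {π}) (fun ρ hρ => by
      rw [Finset.mem_singleton] at hρ
      rw [hρ]
      exact hπ.2)).1
    rwa [Finset.prod_singleton] at h2
  have h2 := (Finset.card_le_card h1)
  have h3 := card_SB_le hV
  have h4 : ((QB V).card : ℝ) ≤ 16 * V := le_trans (by exact_mod_cast h2) h3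
  exact_mod_cast h4

/-- the statement for the boxes with the decidability of equality as a variable -/
theorem box_dec {G : Finset Ei → Prop} {cc B : ℝ} (hB : BXG G cc B) (ι : Type) [Fintype ι]
    [inst : DecidableEq ι]
    (lo : LinearOrder ι) (C : ι → Finset Ei) (X : ι → ℕ) (κ : ℝ) (S₀ : Finset Ei) (τ : ι → ZMod 3)
    (h1 : 0 ≤ κ)
    (h2 : ∀ i, (C i).card ≤ X i) (h3 : HB C X κ) (h4 : ∀ u ∈ S₀, Pq u)
    (h5 : ∀ i, ∀ π ∈ C i, Pq π ∧ π ∉ S₀ ∧ rl π = τ i) (h6 : ∀ i l, i ≠ l → Disjoint (C i) (C l))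
    (h7 : S₀.card + 1 < Fintype.card ι) :
    |(((Fintype.piFinset C).filter fun p => Nd S₀ (univ.image p) ∧
        G (S₀ ∪ univ.image p)).card : ℝ) -
      cc * (((Fintype.piFinset C).filter fun p => Nd S₀ (univ.image p)).card : ℝ)| ≤
    B * (3 ^ S₀.card / 3 ^ Fintype.card ι) *
      (((Fintype.piFinset C).filter fun p => Nd S₀ (univ.image p)).card : ℝ) +
    3 ^ (S₀.card * Fintype.card ι + (prs ι).card) * (κ * ∏ j, (X j : ℝ)) := by
  have h := hB ι C X κ S₀ τ h1 h2 h3 h4 h5 h6 h7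
  have e : inst = fun a b => lo.toDecidableEq a b := Subsingleton.elim _ _
  subst e
  exact h

end Pool.Agent.H91.XR
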