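import Pool.Agent.H91.X19
import Pool.Agent.H91.X12
import Pool.Agent.H91.Tw14

/-!
# The cubic extensions `K(∛μ)`
-/

set_option autoImplicit false
set_option linter.unusedVariables false
set_option linter.unusedSectionVars false

open scoped Classical IntermediateField

namespace Pool.Agent.H91.XP

open NumberField IsDedekindDomain Polynomial
open WeierstrassCurve hiding IsIntegral
open Pool.Agent.Y692.QS (Ei w nr)
open Pool.Agent.Y715.T.RecG (Pq)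
open Pool.Agent.Y703.XK (c9)
open Pool.Agent.Y703.XL (cr)
open Pool.Agent.H91.LKz (Pm)
open Pool.Agent.Y350.CTK.Tam (te te_prime te_sq)
open Pool.Agent.Y696
open Pool.Agent.Y696.CTK
open Pool.Agent.Y699.E (nrm PD PS mem_PD)
open Pool.Agent.H91.XR
open Pool.Agent.H91.XRW
open Pool.Agent.W192.HK
open Pool.Agent.Y710.CTE (Ed)
open Pool.Agent.H91.Fin2 (Cl2 cm_of law3)
open Pool.Agent.H91.Tw (C3 Cnd Cop one_layer c3_of cnd_of coe_up ncube_of ncubeK)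

variable {P₀ : Finset Ei} {wt : Ei → ZMod 3} {c₀ : ZMod 3} {D₀ : Ei}

/-- the law for both twists -/
theorem law_pair {K : Type} [Field K] [NumberField K] (j : Ei ≃+* 𝓞 K) (hdisc : discr K = -3)
    (hD : SD P₀ wt c₀ D₀) {μ : Ei} (hte : ¬ te ∣ μ) (hsq : Squarefree μ) (hc : ∀ p ∈ P₀, ¬ p ∣ μ)
    (hq : Q1 D₀ μ) : Law3 (j (D₀ * μ)) ∧ Law3 (j (D₀ * μ ^ 2)) := by
  obtain ⟨u, hu, n, hn, rfl⟩ := Pool.Agent.H91.Dz7.rep6 hte hsq
  obtain ⟨s, b, rfl⟩ := uu_U6 u hu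
  have hdis : Disjoint P₀ (PD n) := by
    rw [Finset.disjoint_left]
    intro p hp hp'
    exact hc p hp (((mem_PD hn.ne).1 hp').2.mul_left _)
  have hsd : (P₀ ∪ PD n) \ P₀ = PD n := by
    rw [Finset.union_sdiff_left]
    exact Finset.sdiff_eq_self_of_disjoint hdis.symm
  have hmu : mu P₀ s b (P₀ ∪ PD n) = uu s b * n := by
    unfold mu
    rw [hsd, hn.prod]
  have hsub : P₀ ⊆ P₀ ∪ PD n := Finset.subset_union_left
  have hSq : ∀ p ∈ P₀ ∪ PD n, Pq p := by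
    intro p hp
    rcases Finset.mem_union.1 hp with h | h
    · exact hD.pq p h
    · exact ((mem_PD hn.ne).1 h).1
  have hne : (P₀ ∪ PD n).Nonempty := hD.ne.mono hsub
  rw [← hmu] at hq ⊢
  have hal := (q1_iff hD s b hSq hsub).1 hq
  refine ⟨law_S j hdisc hSq hne hD.w0 hal.1 (pm_mu hD s b hsub),
    law_S j hdisc hSq hne (wt2_ne hD.w0) ?_ (pm_mu2 hD s b hsub)⟩
  rw [nu_wt2 hsub hD.w1]
  exact hal.2

section

variable {K : Type} [Field K] [NumberField K]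

/-- the numbers `μ` -/
structure Fm (D μ : 𝓞 K) : Prop where
  sqf : Squarefree μ
  cop : IsCoprime μ (3 * D)
  nu : ¬ IsUnit μ
  res : ∀ t : 𝓞 K, t ^ 2 = -3 → (¬ 3 * t ∣ D * μ - 1 ∧ ¬ 3 * t ∣ D * μ + 1) ∧
    ¬ 3 * t ∣ D * μ ^ 2 - 1 ∧ ¬ 3 * t ∣ D * μ ^ 2 + 1

lemma cop_of {x y : 𝓞 K} (h : IsCoprime x y) : Cop x y := by
  intro u h1 h2
  obtain ⟨a, b, hab⟩ := h
  apply u.isPrime.ne_top
  rw [Ideal.eq_top_iff_one, ← hab]
  exact add_mem (Ideal.mul_mem_left _ _ h1) (Ideal.mul_mem_left _ _ h2)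

lemma sqf_cf {μ : 𝓞 K} (h : Squarefree μ) (q : 𝓞 K) (hq : q ^ 3 ∣ μ) : IsUnit q := by
  apply h q
  refine dvd_trans ⟨q, ?_⟩ hq
  ring

/-- `c` is prime to `p` if `p` does not divide -/
lemma ndvd_of_cop {p x y : Ei} (hp : Prime p) (h : IsCoprime x y) (hy : p ∣ y) : ¬ p ∣ x := by
  intro hx
  obtain ⟨a, b, hab⟩ := h
  apply hp.not_isUnit
  apply isUnit_of_dvd_one
  rw [← hab]
  exact dvd_add (hx.mul_left _) (hy.mul_left _)

/-- a prime of `P₀` divides `D₀` -/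
lemma dvd_D (hD : SD P₀ wt c₀ D₀) {p : Ei} (hp : p ∈ P₀) : p ∣ D₀ := by
  rw [hD.eq.dvd]
  refine Dvd.dvd.mul_left ?_ _
  refine dvd_trans ?_ (Finset.dvd_prod_of_mem (fun p => p ^ (wt p).val) hp)
  refine dvd_pow_self _ ?_
  intro h0
  exact hD.w0 p ((ZMod.val_eq_zero _).1 h0)

lemma q1_of (j : Ei ≃+* 𝓞 K) {D₀ μ : Ei} (h : ∀ t : 𝓞 K, t ^ 2 = -3 →
    (¬ 3 * t ∣ j D₀ * j μ - 1 ∧ ¬ 3 * t ∣ j D₀ * j μ + 1) ∧
    ¬ 3 * t ∣ j D₀ * j μ ^ 2 - 1 ∧ ¬ 3 * t ∣ j D₀ * j μ ^ 2 + 1) : Q1 D₀ μ := by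
  have ht : (j te) ^ 2 = -3 := Pool.Agent.H91.Tw.te_j j
  obtain ⟨⟨h1, h2⟩, h3, h4⟩ := h (j te) ht
  have key : ∀ z : Ei, 3 * te ∣ z → 3 * j te ∣ j z := by
    intro z hz
    have := map_dvd j hz
    rwa [map_mul, map_ofNat] at this
  refine ⟨⟨fun h5 => h1 ?_, fun h5 => h2 ?_⟩, ⟨fun h5 => h3 ?_, fun h5 => h4 ?_⟩⟩
  · have := key _ h5
    rwa [map_sub, map_mul, map_one] at this
  · have := key _ h5
    rwa [map_add, map_mul, map_one] at this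
  · have := key _ h5
    rwa [map_sub, map_mul, map_pow, map_one] at this
  · have := key _ h5
    rwa [map_add, map_mul, map_pow, map_one] at this

/-- the twists and the extension -/
theorem cubic_of (j : Ei ≃+* 𝓞 K) (hj : ∀ z : Ei, Algebra.norm ℤ (j z) = nr z)
    (hdisc : discr K = -3) {D μ : 𝓞 K} (hD : Cl2 D) (hT : Tri D) (hμ : Fm D μ)
    (hT1 : Tri (D * μ)) (hT2 : Tri (D * μ ^ 2)) {F : Type} [Field F] [NumberField F]
    [Algebra K F] (θ : F) (hθ : θ ^ 3 = algebraMap K F μ)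
    (hgen : IntermediateField.adjoin K {θ} = ⊤) :
    Module.finrank K F = 3 ∧
    Finite (ED (algebraMap K F D)).toAffine.Point ∧
    ∃ Lf : ℂ → ℂ, Differentiable ℂ Lf ∧
      (∀ s : ℂ, 3 / 2 < s.re →
        LSeriesSummable ((fun n : ℤ => (n : ℂ)) ∘ (ED (algebraMap K F D)).LFunction) s ∧
          Lf s = (ED (algebraMap K F D)).LSeries s) ∧
      Lf 1 ≠ 0 := by
  set ι : eis →+* 𝓞 K := (j : Ei →+* 𝓞 K).comp
    (Pool.Agent.Y715.T.Rs.eq0.symm : eis →+* Ei) with hι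
  have hpid : IsPrincipalIdealRing (𝓞 K) :=
    IsPrincipalIdealRing.of_surjective (j : Ei →+* 𝓞 K) j.surjective
  have hD0 : D ≠ 0 := by
    rintro rfl
    exact hD.2.2.2 (hD.2.2.1 0 (dvd_zero _))
  have hcop3 : IsCoprime μ 3 := hμ.cop.of_mul_right_left
  have hcopD : IsCoprime μ D := hμ.cop.of_mul_right_right
  have hcD : Cnd D := cnd_of hD0 hD.2.2.1
  have hcμ : Cnd μ := cnd_of hμ.sqf.ne_zero (sqf_cf hμ.sqf)
  have hint : IsIntegral ℤ θ := by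
    have h1 : IsIntegral ℤ (θ ^ 3) := by
      rw [hθ]
      exact μ.isIntegral_coe.algebraMap
    exact IsIntegral.of_pow (by norm_num) h1
  let θ' : 𝓞 F := ⟨θ, hint⟩
  have hθ' : θ' ^ 3 = algebraMap (𝓞 K) (𝓞 F) μ := by
    apply RingOfIntegers.ext
    have e1 : ((θ' ^ 3 : 𝓞 F) : F) = θ ^ 3 := map_pow (algebraMap (𝓞 F) F) θ' 3
    rw [e1, hθ]
    rfl
  have hirr : Irreducible (X ^ 3 - C ((μ : 𝓞 K) : K)) :=
    X_pow_sub_C_irreducible_of_prime Nat.prime_three (ncubeK (ncube_of hcμ hμ.nu))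
  have hmin : X ^ 3 - C ((μ : 𝓞 K) : K) = minpoly K θ := by
    refine minpoly.eq_of_irreducible_of_monic hirr ?_ (monic_X_pow_sub_C _ (by norm_num))
    simp [hθ]
  have hdeg : Module.finrank K F = 3 := by
    have h1 := IntermediateField.adjoin.finrank (K := K) (x := θ) (Algebra.IsIntegral.isIntegral θ)
    rw [hgen, ← hmin, natDegree_X_pow_sub_C, IntermediateField.finrank_top'] at h1
    exact h1
  obtain ⟨hA, hB⟩ := one_layer ι hdeg hθ' (c3_of j) hcD hcμ hμ.nu (cop_of hD.1) (cop_of hcop3)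
    (cop_of hcopD.symm)
  rw [coe_up] at hA hB
  -- the laws
  obtain ⟨D₀, rfl⟩ := j.surjective D
  obtain ⟨μ₀, rfl⟩ := j.surjective μ
  obtain ⟨P₀, wt, c₀, hSD⟩ := sd_ex (cm_of j hD)
  have hcopE : IsCoprime μ₀ D₀ := by
    have := hcopD.map (j.symm : 𝓞 K →+* Ei)
    simpa using this
  have hcop3E : IsCoprime μ₀ 3 := by
    have h3 := hcop3.map (j.symm : 𝓞 K →+* Ei)
    rw [map_ofNat] at h3
    simpa using h3
  have hte : ¬ te ∣ μ₀ := ndvd_of_cop te_prime hcop3E ⟨-te, by linear_combination te_sq⟩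
  obtain ⟨hL1, hL2⟩ := law_pair j hdisc hSD hte ((Pool.Agent.H91.Dz7.sqf_iff j).1 hμ.sqf)
    (fun p hp => ndvd_of_cop (hSD.pq p hp).prime hcopE (dvd_D hSD hp)) (q1_of j hμ.res)
  have hL0 := Pool.Agent.H91.Fin2.law2 j hj hdisc hD
  have hLaw : ∀ b : ZMod 3, Law3 (j D₀ * j μ₀ ^ b.val) ∧ Tri (j D₀ * j μ₀ ^ b.val) := by
    intro b
    have v0 : (0 : ZMod 3).val = 0 := rfl
    have v1 : (1 : ZMod 3).val = 1 := rfl
    have v2 : (2 : ZMod 3).val = 2 := rfl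
    have h3 : b = 0 ∨ b = 1 ∨ b = 2 := by revert b; decide
    rcases h3 with rfl | rfl | rfl
    · rw [v0, pow_zero, mul_one]
      exact ⟨hL0, hT⟩
    · rw [v1, pow_one]
      rw [map_mul] at hL1
      exact ⟨hL1, hT1⟩
    · rw [v2]
      rw [map_mul, map_pow] at hL2
      exact ⟨hL2, hT2⟩
  refine ⟨hdeg, hB fun b => (hLaw b).2.1, ?_⟩
  choose Lf c h1 h2 h3 h4 using fun b => (hLaw b).1.2.2
  refine ⟨fun s => ∏ b, Lf b s, ?_, ?_, ?_⟩
  · exact Differentiable.fun_finsetProd fun b _ => h1 b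
  · intro s hs
    refine ⟨(hA s hs).1, ?_⟩
    rw [(hA s hs).2]
    exact Finset.prod_congr rfl fun b _ => (h2 b s hs).2
  · exact Finset.prod_ne_zero_iff.2 fun b _ => h3 b (hLaw b).2

end

end Pool.Agent.H91.XP
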