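import Pool.Agent.H91.X19
import Pool.Agent.H91.X12

/-!
# The residue classes of the `μ` prime to `D`: seven ninths
-/

set_option autoImplicit false
set_option linter.unusedVariables false
set_option linter.unusedSectionVars false

open scoped Classical
open Finset

namespace Pool.Agent.H91.XP

open NumberField
open Pool.Agent.Y692.QS (Ei w nr)
open Pool.Agent.Y715.T.RecG (Pq)
open Pool.Agent.Y699.E (SB mem_SB PS PD nrm nrm_mul nrm_prod mem_PD PS_prod ez ez_add ez_zero sum_ez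
  norm_le_of_dvd prm_cancel prm_mul tht tht_mul)
open Pool.Agent.H91.XR
open Pool.Agent.H91.XRW
open Pool.Agent.H91.Eq3 (Fz Fz_mul ez_nrm sum_bound)

/-- the squarefree elements prime to `P` -/
noncomputable def SBc (P : Finset Ei) (X : ℕ) : Finset Ei := (SB X).filter fun n => ∀ p ∈ P, ¬ p ∣ n

lemma mem_SBc {P : Finset Ei} {X : ℕ} {n : Ei} :
    n ∈ SBc P X ↔ (nrm n ≤ X ∧ PS n) ∧ ∀ p ∈ P, ¬ p ∣ n := by
  unfold SBc
  rw [mem_filter, mem_SB]

lemma two_le_nrm {π : Ei} (h : Pq π) : 2 ≤ nrm π := by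
  have h1 := nrm_one_le h
  by_contra h2
  have h3 : nrm π = 1 := by omega
  exact h.prime.not_isUnit (Pool.Agent.Y699.E.nrm_one_iff.1 h3)

lemma split_pi {P : Finset Ei} {π : Ei} (hπ : Pq π) (hP : ∀ p ∈ P, Pq p) (hn : π ∉ P) (X : ℕ)
    {M : Type} [AddCommMonoid M] (f : Ei → M) :
    ∑ n ∈ SBc P X, f n = ∑ n ∈ SBc (insert π P) X, f n +
      ∑ m ∈ SBc (insert π P) (X / nrm π), f (π * m) := by
  have hN : 0 < nrm π := by have := two_le_nrm hπ; omega
  rw [← sum_filter_add_sum_filter_not (SBc P X) (fun n => ¬ π ∣ n)]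
  congr 1
  · refine sum_congr ?_ fun _ _ => rfl
    ext n
    rw [mem_filter, mem_SBc, mem_SBc]
    constructor
    · rintro ⟨⟨h1, h2⟩, h3⟩
      refine ⟨h1, fun p hp => ?_⟩
      rcases mem_insert.1 hp with rfl | hp
      · exact h3
      · exact h2 p hp
    · rintro ⟨h1, h2⟩
      exact ⟨⟨h1, fun p hp => h2 p (mem_insert_of_mem hp)⟩, h2 π (mem_insert_self _ _)⟩
  · symm
    refine sum_bij (fun m _ => π * m) ?_ ?_ ?_ ?_
    · intro m hm
      rw [mem_SBc] at hm
      obtain ⟨⟨h1, h2⟩, h3⟩ := hm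
      rw [mem_filter, mem_SBc]
      refine ⟨⟨⟨?_, ?_⟩, ?_⟩, ?_⟩
      · rw [nrm_mul, mul_comm]
        exact (Nat.le_div_iff_mul_le hN).1 h1
      · refine ⟨prm_mul hπ.three h2.prm, ?_⟩
        rw [squarefree_mul_iff]
        refine ⟨?_, hπ.prime.irreducible.squarefree, h2.sqf⟩
        intro a ha hb
        rcases hπ.prime.irreducible.dvd_iff.1 ha with h | h
        · exact h
        · exact absurd (h.dvd.trans hb) (h3 π (mem_insert_self _ _))
      · intro p hp h4
        rcases (hP p hp).prime.dvd_or_dvd h4 with h | h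
        · have := Pool.Agent.Y274.CT.eq_of_dvd hπ (hP p hp) h
          rw [this] at hp
          exact hn hp
        · exact h3 p (mem_insert_of_mem hp) h
      · push Not
        exact dvd_mul_right _ _
    · intro a _ b _ hab
      exact mul_left_cancel₀ hπ.prime.ne_zero hab
    · intro n hn'
      rw [mem_filter, mem_SBc] at hn'
      obtain ⟨⟨⟨h1, h2⟩, h3⟩, h4⟩ := hn'
      push Not at h4
      obtain ⟨m, rfl⟩ := h4
      refine ⟨m, ?_, rfl⟩
      rw [mem_SBc]
      refine ⟨⟨?_, ?_, ?_⟩, ?_⟩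
      · rw [Nat.le_div_iff_mul_le hN, mul_comm, ← nrm_mul]
        exact h1
      · exact prm_cancel hπ.three h2.prm
      · exact h2.sqf.squarefree_of_dvd (dvd_mul_left _ _)
      · intro p hp h5
        rcases mem_insert.1 hp with rfl | hp
        · exact hπ.prime.not_isUnit (h2.sqf p (mul_dvd_mul_left p h5))
        · exact h3 p hp (h5.mul_left _)
    · intro m _
      rfl

/-- the lower bound -/
theorem SBc_ge {P : Finset Ei} (hP : ∀ p ∈ P, Pq p) :
    ∃ (c : ℝ) (_ : 0 < c) (X₀ : ℕ), ∀ X : ℕ, X₀ ≤ X → c * X ≤ ((SBc P X).card : ℝ) := by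
  obtain ⟨c, hc, X₀, h⟩ := Pool.Agent.H91.Dz.SB_ge
  have key : ∀ (P : Finset Ei), (∀ p ∈ P, Pq p) → ∀ X : ℕ,
      (SB X).card ≤ 2 ^ P.card * (SBc P X).card := by
    intro P
    induction P using Finset.induction_on with
    | empty =>
      intro _ X
      have : SBc ∅ X = SB X := by
        unfold SBc
        exact filter_true_of_mem fun n _ p hp => absurd hp (notMem_empty p)
      rw [this, card_empty, pow_zero, one_mul]
    | insert π P hn ih =>
      intro hP X
      have h1 := ih (fun p hp => hP p (mem_insert_of_mem hp)) X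
      have h2 := split_pi (hP π (mem_insert_self _ _)) (fun p hp => hP p (mem_insert_of_mem hp)) hn X
        (fun _ => (1 : ℕ))
      simp only [sum_const, smul_eq_mul, mul_one] at h2
      have h3 : (SBc (insert π P) (X / nrm π)).card ≤ (SBc (insert π P) X).card := by
        refine card_le_card fun n hn => ?_
        rw [mem_SBc] at hn ⊢
        exact ⟨⟨hn.1.1.trans (Nat.div_le_self _ _), hn.1.2⟩, hn.2⟩
      rw [card_insert_of_notMem hn, pow_succ]
      calc (SB X).card ≤ 2 ^ P.card * (SBc P X).card := h1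
        _ ≤ 2 ^ P.card * ((SBc (insert π P) X).card + (SBc (insert π P) X).card) := by
          rw [h2]
          exact Nat.mul_le_mul_left _ (Nat.add_le_add_left h3 _)
        _ = _ := by ring
  refine ⟨c / 2 ^ P.card, by positivity, X₀, fun X hX => ?_⟩
  have h1 := h X hX
  have h2 : ((SB X).card : ℝ) ≤ 2 ^ P.card * ((SBc P X).card : ℝ) := by exact_mod_cast key P hP X
  have h3 : c * X ≤ 2 ^ P.card * ((SBc P X).card : ℝ) := h1.trans h2
  rw [div_mul_eq_mul_div, div_le_iff₀ (by positivity)]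
  linarith

/-- the sums of the characters of the norm -/
theorem sum_small {c : ZMod 3} (hc : c ≠ 0) (P : Finset Ei) : (∀ p ∈ P, Pq p) →
    ∀ ε : ℝ, 0 < ε → ∃ C : ℝ, 0 ≤ C ∧ ∀ X : ℕ, ‖∑ n ∈ SBc P X, Fz c n‖ ≤ ε * X + C := by
  induction P using Finset.induction_on with
  | empty =>
    intro _ ε hε
    have e : ∀ X, SBc ∅ X = SB X := fun X => by
      unfold SBc
      exact filter_true_of_mem fun n _ p hp => absurd hp (notMem_empty p)
    have h1 := Pool.Agent.H91.XH.err_lim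
    rw [Metric.tendsto_atTop] at h1
    obtain ⟨N, hN⟩ := h1 ε hε
    refine ⟨((SB (N + 1)).card : ℝ), Nat.cast_nonneg _, fun X => ?_⟩
    rw [e]
    by_cases hX : N + 1 ≤ X
    · have h2 := hN X (by omega)
      have hXp : (0 : ℝ) < X := by exact_mod_cast (by omega : 0 < X)
      rw [Real.dist_eq, sub_zero] at h2
      have h3 := (le_abs_self _).trans h2.le
      rw [div_le_iff₀ hXp] at h3
      have h4 := sum_bound hc (by omega : 1 ≤ X)
      have h5 : (0 : ℝ) ≤ ((SB (N + 1)).card : ℝ) := Nat.cast_nonneg _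
      linarith
    · have h2 : ‖∑ n ∈ SB X, Fz c n‖ ≤ ∑ n ∈ SB X, (1 : ℝ) := by
        refine (norm_sum_le _ _).trans (sum_le_sum fun n _ => ?_)
        unfold Fz
        rw [ez_nrm]
      rw [sum_const, nsmul_eq_mul, mul_one] at h2
      have h3 : (SB X).card ≤ (SB (N + 1)).card := by
        refine card_le_card fun n hn => ?_
        rw [mem_SB] at hn ⊢
        exact ⟨hn.1.trans (by omega), hn.2⟩
      have h4 : ((SB X).card : ℝ) ≤ ((SB (N + 1)).card : ℝ) := by exact_mod_cast h3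
      have h5 : 0 ≤ ε * X := by positivity
      linarith
  | insert π P hn ih =>
    intro hP ε hε
    have hπ := hP π (mem_insert_self _ _)
    have hP' : ∀ p ∈ P, Pq p := fun p hp => hP p (mem_insert_of_mem hp)
    obtain ⟨C, hC, h⟩ := ih hP' (ε / 4) (by positivity)
    obtain ⟨Y, hY⟩ := exists_nat_ge (C / (ε / 4))
    rw [div_le_iff₀ (by positivity)] at hY
    refine ⟨((SB Y).card : ℝ), Nat.cast_nonneg _, fun X => ?_⟩
    induction X using Nat.strong_induction_on with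
    | _ X ihX =>
      have hX0 : (0 : ℝ) ≤ X := Nat.cast_nonneg _
      by_cases hX : Y < X
      · have h1 := split_pi hπ hP' hn X (Fz c)
        have h2 : ∑ m ∈ SBc (insert π P) (X / nrm π), Fz c (π * m) =
            Fz c π * ∑ m ∈ SBc (insert π P) (X / nrm π), Fz c m := by
          rw [mul_sum]
          refine sum_congr rfl fun m hm => ?_
          rw [mem_SBc] at hm
          exact Fz_mul hπ.three hm.1.2.prm
        have h3 : ∑ n ∈ SBc (insert π P) X, Fz c n = ∑ n ∈ SBc P X, Fz c n -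
            Fz c π * ∑ m ∈ SBc (insert π P) (X / nrm π), Fz c m := by
          rw [h1, h2]; ring
        have h4 : ‖Fz c π‖ = 1 := ez_nrm _
        have h5 := two_le_nrm hπ
        have h6 := ihX (X / nrm π) (Nat.div_lt_self (by omega) (by omega))
        have h7 : ((X / nrm π : ℕ) : ℝ) ≤ X / 2 := by
          have h8 : X / nrm π ≤ X / 2 := Nat.div_le_div_left h5 (by norm_num)
          have h9 : ((X / 2 : ℕ) : ℝ) ≤ (X : ℝ) / 2 := Nat.cast_div_le
          have h10 : ((X / nrm π : ℕ) : ℝ) ≤ ((X / 2 : ℕ) : ℝ) := by exact_mod_cast h8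
          linarith
        have h8 : (Y : ℝ) ≤ X := by exact_mod_cast hX.le
        rw [h3]
        refine (norm_sub_le _ _).trans ?_
        rw [norm_mul, h4, one_mul]
        have h9 := h X
        have h10 : ε * ((X / nrm π : ℕ) : ℝ) ≤ ε * (X / 2) := by gcongr
        have h11 : C ≤ X * (ε / 4) := hY.trans (by gcongr)
        linarith
      · have h2 : ‖∑ n ∈ SBc (insert π P) X, Fz c n‖ ≤ ∑ n ∈ SBc (insert π P) X, (1 : ℝ) := by
          refine (norm_sum_le _ _).trans (sum_le_sum fun n _ => ?_)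
          unfold Fz
          rw [ez_nrm]
        rw [sum_const, nsmul_eq_mul, mul_one] at h2
        have h3 : (SBc (insert π P) X).card ≤ (SB Y).card := by
          refine card_le_card fun n hn => ?_
          rw [mem_SBc] at hn
          rw [mem_SB]
          exact ⟨hn.1.1.trans (by omega), hn.1.2⟩
        have h4 : ((SBc (insert π P) X).card : ℝ) ≤ ((SB Y).card : ℝ) := by exact_mod_cast h3
        have h5 : 0 ≤ ε * X := by positivity
        linarith

/-- the classes of the norm are equidistributed -/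
theorem tht_eq {P : Finset Ei} (hP : ∀ p ∈ P, Pq p) : ∀ ε : ℝ, 0 < ε →
    ∃ C : ℝ, 0 ≤ C ∧ ∀ (X : ℕ) (t : ZMod 3),
      (1 / 3) * ((SBc P X).card : ℝ) - (ε * X + C) ≤
        (((SBc P X).filter fun n => tht n = t).card : ℝ) := by
  intro ε hε
  obtain ⟨C1, hC1, h1⟩ := sum_small (c := 1) one_ne_zero P hP ε hε
  obtain ⟨C2, hC2, h2⟩ := sum_small (c := 2) (by decide) P hP ε hε
  refine ⟨C1 + C2, by linarith, fun X t => ?_⟩
  have g1 : ∑ c : ZMod 3, ∑ n ∈ SBc P X, ez (c * (tht n - t)) =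
      3 * (((SBc P X).filter fun n => tht n = t).card : ℂ) := by
    rw [sum_comm]
    have : ∀ n ∈ SBc P X, ∑ c : ZMod 3, ez (c * (tht n - t)) = if tht n = t then 3 else 0 := by
      intro n _
      rw [sum_ez (tht n - t)]
      simp only [sub_eq_zero]
    rw [sum_congr rfl this, ← sum_filter, sum_const, nsmul_eq_mul]
    ring
  have g2 : ∀ c : ZMod 3, ∑ n ∈ SBc P X, ez (c * (tht n - t)) =
      ez (-(c * t)) * ∑ n ∈ SBc P X, Fz c n := by
    intro c
    rw [mul_sum]
    refine sum_congr rfl fun n _ => ?_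
    unfold Fz
    rw [← ez_add]
    congr 1
    ring
  have e : ∀ f : ZMod 3 → ℂ, ∑ c, f c = f 0 + (f 1 + f 2) := by
    intro f
    have : ∑ c, f c = f 0 + f 1 + f 2 := Fin.sum_univ_three f
    rw [this]; ring
  rw [e, g2 1, g2 2] at g1
  have g3 : ∑ n ∈ SBc P X, ez (0 * (tht n - t)) = ((SBc P X).card : ℂ) := by
    simp only [zero_mul, ez_zero, sum_const, nsmul_eq_mul, mul_one]
  rw [g3] at g1
  have g4 : (((1 / 3) * ((SBc P X).card : ℝ) -
      (((SBc P X).filter fun n => tht n = t).card : ℝ) : ℝ) : ℂ) =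
      -(1 / 3) * (ez (-(1 * t)) * ∑ n ∈ SBc P X, Fz 1 n + ez (-(2 * t)) * ∑ n ∈ SBc P X, Fz 2 n) := by
    push_cast
    linear_combination (1 / 3 : ℂ) * g1
  have g5 := congrArg norm g4
  rw [Complex.norm_real, norm_mul] at g5
  have g6 : ‖(-(1 / 3) : ℂ)‖ = 1 / 3 := by
    rw [norm_neg]
    norm_num
  rw [g6] at g5
  have g7 : ‖ez (-(1 * t)) * ∑ n ∈ SBc P X, Fz 1 n + ez (-(2 * t)) * ∑ n ∈ SBc P X, Fz 2 n‖ ≤
      ‖∑ n ∈ SBc P X, Fz 1 n‖ + ‖∑ n ∈ SBc P X, Fz 2 n‖ := by
    refine (norm_add_le _ _).trans ?_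
    rw [norm_mul, norm_mul, ez_nrm, ez_nrm]
    linarith
  have g8 := h1 X
  have g9 := h2 X
  have g10 := le_abs_self ((1 / 3) * ((SBc P X).card : ℝ) -
      (((SBc P X).filter fun n => tht n = t).card : ℝ))
  rw [Real.norm_eq_abs] at g5
  have hX0 : (0 : ℝ) ≤ ε * X := by positivity
  linarith

section

variable {P₀ : Finset Ei} {wt : Ei → ZMod 3} {c₀ : ZMod 3} {D₀ : Ei}

/-- the sets and the elements -/
lemma card_FS (hP : ∀ p ∈ P₀, Pq p) (X : ℕ) (Q : Finset Ei → Prop) :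
    ((FS P₀ X).filter fun S => Q (S \ P₀)).card = ((SBc P₀ X).filter fun n => Q (PD n)).card := by
  have hN := N0_pos hP
  symm
  refine card_bij (fun n _ => P₀ ∪ PD n) ?_ ?_ ?_
  · intro n hn
    rw [mem_filter, mem_SBc] at hn
    obtain ⟨⟨⟨h1, h2⟩, h3⟩, h4⟩ := hn
    have hdis : Disjoint P₀ (PD n) := by
      rw [disjoint_left]
      intro p hp hp'
      exact h3 p hp ((mem_PD h2.ne).1 hp').2
    have hsd : (P₀ ∪ PD n) \ P₀ = PD n := by
      rw [union_sdiff_left]
      exact sdiff_eq_self_of_disjoint hdis.symm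
    rw [mem_filter, mem_FS, hsd]
    refine ⟨⟨⟨?_, ?_⟩, subset_union_left⟩, h4⟩
    · intro p hp
      rcases mem_union.1 hp with h | h
      · exact hP p h
      · exact ((mem_PD h2.ne).1 h).1
    · rw [prod_union hdis]
      have h6 : ∏ π ∈ PD n, nrm π = nrm n := by
        rw [← Pool.Agent.Y550.XK.NS.nrm_prod, h2.prod]
      rw [h6, mul_comm]
      exact Nat.mul_le_mul_right _ h1
  · intro n hn m hm h
    rw [mem_filter, mem_SBc] at hn hm
    have hd : ∀ n : Ei, ((nrm n ≤ X ∧ PS n) ∧ ∀ p ∈ P₀, ¬ p ∣ n) → (P₀ ∪ PD n) \ P₀ = PD n := by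
      rintro n ⟨⟨h1, h2⟩, h3⟩
      rw [union_sdiff_left]
      refine sdiff_eq_self_of_disjoint ?_
      rw [disjoint_right]
      intro p hp hp'
      exact h3 p hp ((mem_PD h2.ne).1 hp').2
    have h1 : P₀ ∪ PD n = P₀ ∪ PD m := h
    have h2 : PD n = PD m := by rw [← hd n hn.1, ← hd m hm.1, h1]
    rw [← hn.1.1.2.prod, ← hm.1.1.2.prod, h2]
  · intro S hS
    rw [mem_filter, mem_FS] at hS
    obtain ⟨⟨⟨h1, h2⟩, h3⟩, h4⟩ := hS
    obtain ⟨hps, hpd⟩ := PS_prod (S := S \ P₀) fun p hp => h1 p (sdiff_subset hp)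
    refine ⟨∏ p ∈ S \ P₀, p, ?_, ?_⟩
    · rw [mem_filter, mem_SBc, hpd]
      refine ⟨⟨⟨?_, hps⟩, ?_⟩, h4⟩
      · have h5 : ∏ π ∈ S, nrm π = N0 P₀ * nrm (∏ p ∈ S \ P₀, p) := by
          rw [Pool.Agent.Y550.XK.NS.nrm_prod, ← prod_sdiff h3, mul_comm]
          rfl
        rw [h5, mul_comm X] at h2
        exact Nat.le_of_mul_le_mul_left h2 hN
      · intro p hp h5
        obtain ⟨q, hq, hpq⟩ := ((hP p hp).prime.dvd_finsetProd_iff _).1 h5
        have h7 := Pool.Agent.Y274.CT.eq_of_dvd (h1 q (sdiff_subset hq)) (hP p hp) hpq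
        rw [← h7] at hq
        exact (mem_sdiff.1 hq).2 hp
    · show P₀ ∪ PD _ = S
      rw [hpd, union_comm]
      exact sdiff_union_of_subset h3

lemma tht_sum {n : Ei} (hn : PS n) : ∑ π ∈ PD n, rl π = tht n := by
  have key : ∀ S : Finset Ei, (∀ p ∈ S, Pq p) →
      (Pool.Agent.Y699.E.prm (∏ p ∈ S, p) ∧ ∑ π ∈ S, rl π = tht (∏ p ∈ S, p)) := by
    intro S
    induction S using Finset.induction_on with
    | empty =>
      intro _
      rw [sum_empty, prod_empty]
      refine ⟨?_, ?_⟩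
      · show (3 : Ei) ∣ 1 - 1
        rw [sub_self]
        exact dvd_zero _
      · decide
    | insert a S ha ih =>
      intro h
      obtain ⟨h1, h2⟩ := ih fun p hp => h p (mem_insert_of_mem hp)
      have h3 := h a (mem_insert_self _ _)
      rw [sum_insert ha, prod_insert ha, h2]
      refine ⟨prm_mul h3.three h1, ?_⟩
      rw [tht_mul h3.three h1]
      rfl
  have h1 := (key (PD n) fun p hp => ((mem_PD hn.ne).1 hp).1).2
  rwa [hn.prod] at h1

/-- the labels of the sets -/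
lemma nu_sd (hw1 : ∀ p, p ∉ P₀ → wt p = 1) {S : Finset Ei} (hS : P₀ ⊆ S) :
    nu wt S = (∑ π ∈ S \ P₀, rl π) + nu wt P₀ := by
  unfold nu
  rw [← sum_sdiff hS]
  congr 1
  refine sum_congr rfl fun p hp => ?_
  rw [hw1 p (mem_sdiff.1 hp).2, one_mul]

/-- the number of the sets with a label -/
lemma card_nu (hP : ∀ p ∈ P₀, Pq p) (hw1 : ∀ p, p ∉ P₀ → wt p = 1) (X : ℕ) (ν : ZMod 3) :
    ((FS P₀ X).filter fun S => nu wt S = ν).card =
      ((SBc P₀ X).filter fun n => tht n = ν - nu wt P₀).card := by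
  have h1 := card_FS hP X fun T => ∑ π ∈ T, rl π = ν - nu wt P₀
  have e1 : ((FS P₀ X).filter fun S => nu wt S = ν) =
      ((FS P₀ X).filter fun S => ∑ π ∈ S \ P₀, rl π = ν - nu wt P₀) := by
    refine filter_congr fun S hS => ?_
    rw [mem_FS] at hS
    rw [nu_sd hw1 hS.2, eq_sub_iff_add_eq]
  have e2 : ((SBc P₀ X).filter fun n => tht n = ν - nu wt P₀) =
      ((SBc P₀ X).filter fun n => ∑ π ∈ PD n, rl π = ν - nu wt P₀) := by
    refine filter_congr fun n hn => ?_
    rw [mem_SBc] at hn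
    rw [tht_sum hn.1.2]
  rw [e1, e2]
  convert h1

lemma card_FS' (hP : ∀ p ∈ P₀, Pq p) (X : ℕ) : (FS P₀ X).card = (SBc P₀ X).card := by
  have h1 := card_FS hP X fun _ => True
  rwa [filter_true, filter_true] at h1

/-- seven pairs -/
lemma seven {N : ZMod 3} (h : c₀ ≠ 0 ∨ N ≠ 0) :
    ((univ : Finset (ZMod 3 × ZMod 3)).filter fun q => (c₀ + q.1 = 0 → q.2 ≠ 0) ∧
      (c₀ + 2 * q.1 = 0 → 2 * q.2 - N ≠ 0)).card = 7 := by
  revert c₀ N
  decide

/-- **seven ninths** of the classes are allowed -/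
theorem seven_ninths (hD : SD P₀ wt c₀ D₀) (hc : c₀ ≠ 0 ∨ nu wt P₀ ≠ 0) :
    ∀ ε : ℝ, 0 < ε → ∃ C : ℝ, 0 ≤ C ∧ ∀ X : ℕ,
    (7 / 9) * ({μ : Ei | Bs P₀ X μ}.ncard : ℝ) - (ε * X + C) ≤
      ({μ : Ei | Bs P₀ X μ ∧ Q1 D₀ μ}.ncard : ℝ) := by
  intro ε hε
  obtain ⟨C, hC, h⟩ := tht_eq hD.pq (ε / 14) (by positivity)
  refine ⟨14 * C, by linarith, fun X => ?_⟩
  have h1 : ({μ : Ei | Bs P₀ X μ}.ncard : ℝ) = 6 * ((SBc P₀ X).card : ℝ) := by
    have h2 := count_gen hD.pq (fun _ => True) X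
    simp only [and_true, filter_true] at h2
    rw [h2, sum_const, card_univ, Fintype.card_prod, Fintype.card_bool, ZMod.card, smul_eq_mul,
      card_FS' hD.pq]
    push_cast
    ring
  have h2 : ∀ z : Bool × ZMod 3, (((FS P₀ X).filter fun S => Q1 D₀ (mu P₀ z.1 z.2 S)).card : ℝ) =
      ∑ ν : ZMod 3, if Al P₀ wt c₀ z.2 ν then
        (((FS P₀ X).filter fun S => nu wt S = ν).card : ℝ) else 0 := by
    rintro ⟨s, b⟩
    rw [card_eq_sum_card_fiberwise (f := fun S => nu wt S) (t := univ)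
      (fun _ _ => mem_coe.2 (mem_univ _))]
    push_cast
    refine sum_congr rfl fun ν _ => ?_
    split_ifs with ha
    · congr 2
      rw [filter_filter]
      refine filter_congr fun S hS => ⟨fun h => h.2, fun h => ⟨?_, h⟩⟩
      rw [mem_FS] at hS
      show Q1 D₀ (mu P₀ s b S)
      rw [q1_iff hD s b hS.1.1 hS.2, h]
      exact ha
    · have : ((FS P₀ X).filter fun S => Q1 D₀ (mu P₀ s b S)).filter (fun S => nu wt S = ν) = ∅ := by
        rw [filter_eq_empty_iff]
        intro S hS h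
        rw [mem_filter, mem_FS] at hS
        apply ha
        rw [← h]
        exact (q1_iff hD s b hS.1.1.1 hS.1.2).1 hS.2
      show ((((FS P₀ X).filter fun S => Q1 D₀ (mu P₀ s b S)).filter
        (fun S => nu wt S = ν)).card : ℝ) = 0
      rw [this, card_empty, Nat.cast_zero]
  rw [h1, count_gen hD.pq]
  push_cast
  have h6 : ∀ f : ZMod 3 → ℝ, ∑ z : Bool × ZMod 3, f z.2 = 2 * ∑ b, f b := by
    intro f
    rw [Fintype.sum_prod_type]
    simp only [Fintype.sum_bool]
    ring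
  rw [sum_congr rfl fun z _ => h2 z, h6 fun b => ∑ ν : ZMod 3, if Al P₀ wt c₀ b ν then
        (((FS P₀ X).filter fun S => nu wt S = ν).card : ℝ) else 0]
  have h3 : ∑ b : ZMod 3, ∑ ν : ZMod 3, (if Al P₀ wt c₀ b ν then
        (((FS P₀ X).filter fun S => nu wt S = ν).card : ℝ) else 0) =
      ∑ q ∈ (univ : Finset (ZMod 3 × ZMod 3)).filter fun q => Al P₀ wt c₀ q.1 q.2,
        (((FS P₀ X).filter fun S => nu wt S = q.2).card : ℝ) := by
    rw [sum_filter, Fintype.sum_prod_type]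
  have h4 : ((univ : Finset (ZMod 3 × ZMod 3)).filter fun q => Al P₀ wt c₀ q.1 q.2).card = 7 := by
    have h7 := seven (N := nu wt P₀) hc
    unfold Al
    convert h7
  rw [h3]
  have h5 : ∑ q ∈ (univ : Finset (ZMod 3 × ZMod 3)).filter fun q => Al P₀ wt c₀ q.1 q.2,
      ((1 / 3) * ((SBc P₀ X).card : ℝ) - (ε / 14 * X + C)) ≤
      ∑ q ∈ (univ : Finset (ZMod 3 × ZMod 3)).filter fun q => Al P₀ wt c₀ q.1 q.2,
        (((FS P₀ X).filter fun S => nu wt S = q.2).card : ℝ) := by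
    refine sum_le_sum fun q _ => ?_
    rw [card_nu hD.pq hD.w1]
    exact h X _
  rw [sum_const, h4, nsmul_eq_mul] at h5
  push_cast at h5 ⊢
  linarith

end

end Pool.Agent.H91.XP
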