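import Pool.Agent.H91.X20
import Pool.Agent.H91.X21
import Pool.Agent.H91.Sh5

/-!
# The proportion of the cubic extensions, in the ring of integers
-/

set_option autoImplicit false
set_option linter.unusedVariables false
set_option linter.unusedSectionVars false

open scoped Classical IntermediateField

namespace Pool.Agent.H91.XP

open NumberField IsDedekindDomain
open WeierstrassCurve hiding IsIntegral
open Pool.Agent.Y692.QS (Ei w nr)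
open Pool.Agent.TH841.NF.D (Sha)
open Pool.Agent.Y715.T.RecG (Pq)
open Pool.Agent.Y703.XK (c9)
open Pool.Agent.H91.LKz (Pm)
open Pool.Agent.Y350.CTK.Tam (te te_prime te_sq)
open Pool.Agent.Y696
open Pool.Agent.Y696.CTK
open Pool.Agent.Y699.E (nrm PD PS mem_PD)
open Pool.Agent.H91.XR
open Pool.Agent.H91.XRW
open Pool.Agent.H91.Fin2 (Cl2 cm_of law3)

variable {P₀ : Finset Ei} {wt : Ei → ZMod 3} {c₀ : ZMod 3} {D₀ : Ei}

lemma lab_of (hD : SD P₀ wt c₀ D₀) (h : Pool.Agent.H91.Fc2.Cm D₀) : c₀ ≠ 0 ∨ nu wt P₀ ≠ 0 := by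
  obtain ⟨-, h2, h3, -, -⟩ := h
  have h4 : Rc D₀ := ⟨h2, h3⟩
  have h5 := (rc_lab hD.pq hD.w0 hD.eq).1 h4
  by_cases h6 : c₀ = 0
  · exact Or.inr (h5 h6)
  · exact Or.inl h6

/-- prime to `D` -/
lemma copD_iff (hD : SD P₀ wt c₀ D₀) {μ : Ei} : IsCoprime μ D₀ ↔ ∀ p ∈ P₀, ¬ p ∣ μ := by
  constructor
  · intro h p hp
    exact ndvd_of_cop (hD.pq p hp).prime h (dvd_D hD hp)
  · intro h
    have h1 : IsCoprime μ (w ^ c₀.val * ∏ p ∈ P₀, p ^ (wt p).val) := by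
      refine IsCoprime.mul_right ?_ ?_
      · have hw : IsUnit (w : Ei) := by
          rw [Pool.Agent.Y692.QS.isUnit_iff]
          decide
        obtain ⟨u, hu⟩ := hw.pow c₀.val
        exact ⟨0, ((u⁻¹ : Eiˣ) : Ei), by rw [← hu]; simp⟩
      · refine IsCoprime.prod_right fun p hp => IsCoprime.pow_right ?_
        rw [isCoprime_comm]
        exact ((hD.pq p hp).prime.irreducible.coprime_iff_not_dvd).2 (h p hp)
    rcases hD.eq with h2 | h2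
    · rw [h2]
      exact h1
    · rw [h2]
      exact h1.neg_right

section

variable {K : Type} [Field K] [NumberField K] (j : Ei ≃+* 𝓞 K)

lemma cop_img {x y : Ei} : IsCoprime (j x) (j y) ↔ IsCoprime x y := by
  constructor
  · intro h
    have := h.map (j.symm : 𝓞 K →+* Ei)
    simpa using this
  · intro h
    exact h.map (j : Ei →+* 𝓞 K)

/-- the family -/
def Fam (D : 𝓞 K) (X : ℕ) (μ : 𝓞 K) : Prop :=
  |Algebra.norm ℤ μ| ≤ X ∧ Squarefree μ ∧ IsCoprime μ (3 * D)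

lemma fam_iff (hj : ∀ z : Ei, Algebra.norm ℤ (j z) = nr z) (hD : SD P₀ wt c₀ D₀) {X : ℕ} {μ : Ei} :
    Fam (j D₀) X (j μ) ↔ Bs P₀ X μ := by
  unfold Fam Bs
  rw [hj, abs_of_nonneg (Pool.Agent.Y692.QS.nr_nonneg μ), Pool.Agent.H91.Dz7.sqf_iff,
    ← copD_iff hD, ← cop_img j (x := μ) (y := D₀), ← Pool.Agent.H91.Dz7.cop_iff j]
  constructor
  · rintro ⟨h1, h2, h3⟩
    exact ⟨h1, h2, h3.of_mul_right_left, h3.of_mul_right_right⟩
  · rintro ⟨h1, h2, h3, h4⟩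
    exact ⟨h1, h2, h3.mul_right h4⟩

lemma fam_img (hj : ∀ z : Ei, Algebra.norm ℤ (j z) = nr z) (hD : SD P₀ wt c₀ D₀) (X : ℕ)
    (P : 𝓞 K → Prop) : {μ : 𝓞 K | Fam (j D₀) X μ ∧ P μ}.ncard =
      {μ : Ei | Bs P₀ X μ ∧ P (j μ)}.ncard := by
  have h1 : {μ : 𝓞 K | Fam (j D₀) X μ ∧ P μ} = j '' {μ : Ei | Bs P₀ X μ ∧ P (j μ)} := by
    ext μ
    constructor
    · rintro ⟨h1, h2⟩
      obtain ⟨z, rfl⟩ := j.surjective μ
      exact ⟨z, ⟨(fam_iff j hj hD).1 h1, h2⟩, rfl⟩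
    · rintro ⟨z, ⟨h1, h2⟩, rfl⟩
      exact ⟨(fam_iff j hj hD).2 h1, h2⟩
  rw [h1, Set.ncard_image_of_injective _ j.injective]

lemma res_of {μ : Ei} (h : Q1 D₀ μ) (t : 𝓞 K) (ht : t ^ 2 = -3) :
    (¬ 3 * t ∣ j D₀ * j μ - 1 ∧ ¬ 3 * t ∣ j D₀ * j μ + 1) ∧
    ¬ 3 * t ∣ j D₀ * j μ ^ 2 - 1 ∧ ¬ 3 * t ∣ j D₀ * j μ ^ 2 + 1 := by
  obtain ⟨⟨h1, h2⟩, h3, h4⟩ := h
  have hte : (j te) ^ 2 = -3 := by rw [← map_pow, te_sq, map_neg, map_ofNat]
  have hfac : (t - j te) * (t + j te) = 0 := by linear_combination ht - hte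
  have h6 : ∀ x : Ei, 3 * t ∣ j x → 3 * te ∣ x := by
    intro x hx
    have h7 : j (3 * te) ∣ j x := by
      rw [map_mul, map_ofNat]
      rcases mul_eq_zero.1 hfac with h | h
      · rw [sub_eq_zero.1 h] at hx
        exact hx
      · rw [eq_neg_of_add_eq_zero_left h] at hx
        rwa [mul_neg, neg_dvd] at hx
    exact (map_dvd_iff j).1 h7
  refine ⟨⟨fun h => h1 ?_, fun h => h2 ?_⟩, ⟨fun h => h3 ?_, fun h => h4 ?_⟩⟩
  · apply h6
    rwa [map_sub, map_mul, map_one]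
  · apply h6
    rwa [map_add, map_mul, map_one]
  · apply h6
    rwa [map_sub, map_mul, map_pow, map_one]
  · apply h6
    rwa [map_add, map_mul, map_pow, map_one]

/-- the curve has rank zero over the cubic extensions generated by a cube root of `μ` -/
def Gx (D μ : 𝓞 K) : Prop :=
  ∀ (F : Type) [Field F] [NumberField F] [Algebra K F] (θ : F), θ ^ 3 = algebraMap K F μ →
    IntermediateField.adjoin K {θ} = ⊤ → Module.finrank K F = 3 ∧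
    (Finite (ED (algebraMap K F D)).toAffine.Point ∧
    ∃ Lf : ℂ → ℂ, Differentiable ℂ Lf ∧
      (∀ s : ℂ, 3 / 2 < s.re →
        LSeriesSummable ((fun n : ℤ => (n : ℂ)) ∘ (ED (algebraMap K F D)).LFunction) s ∧
          Lf s = (ED (algebraMap K F D)).LSeries s) ∧
      Lf 1 ≠ 0) ∧
    ∀ (n : ℕ) (x : Sha (ED (algebraMap K F D))), 3 ^ n • x = 0 → 3 • x = 0

lemma gx_of (hj : ∀ z : Ei, Algebra.norm ℤ (j z) = nr z) (hdisc : discr K = -3)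
    (hD : SD P₀ wt c₀ D₀) (hC : Cl2 (j D₀)) (hT : Tri (j D₀)) {X : ℕ} {μ : Ei} (hB : Bs P₀ X μ)
    (hu : ¬ IsUnit μ) (hQ : QG j D₀ μ) : Gx (j D₀) (j μ) := by
  intro F _ _ _ θ hθ hgen
  have hf := (fam_iff j hj hD).2 hB
  have hFm : Fm (j D₀) (j μ) := by
    refine ⟨hf.2.1, hf.2.2, fun h => hu ((MulEquiv.isUnit_map j).1 h), ?_⟩
    exact fun t ht => res_of j hQ.1 t ht
  have h1 : Tri (j D₀ * j μ) := by
    rw [← map_mul]
    exact hQ.2.1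
  have h2 : Tri (j D₀ * j μ ^ 2) := by
    rw [← map_pow, ← map_mul]
    exact hQ.2.2
  obtain ⟨g1, g2, g3⟩ := cubic_of j hj hdisc hC hT hFm h1 h2 θ hθ hgen
  refine ⟨g1, ⟨g2, g3⟩, fun n x hx => ?_⟩
  have hD0 : D₀ ≠ 0 := by
    rintro rfl
    exact hC.2.2.2 (by rw [map_zero]; exact hC.2.2.1 0 (by rw [map_zero]; exact dvd_zero _))
  have hμ0 : μ ≠ 0 := hB.2.1.ne_zero
  refine Pool.Agent.H91.Sh.sha_one j hD0 hμ0 θ hθ hgen (fun b => ?_) n x hx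
  have v0 : (0 : ZMod 3).val = 0 := rfl
  have v1 : (1 : ZMod 3).val = 1 := rfl
  have v2 : (2 : ZMod 3).val = 2 := rfl
  have h3 : b = 0 ∨ b = 1 ∨ b = 2 := by revert b; decide
  rcases h3 with rfl | rfl | rfl
  · rw [v0, pow_zero, mul_one]
    exact hT.2
  · rw [v1, pow_one]
    exact hQ.2.1.2
  · rw [v2]
    exact hQ.2.2.2

lemma units_le : {μ : Ei | IsUnit μ}.ncard ≤ 6 ∧ {μ : Ei | IsUnit μ}.Finite := by
  have h1 : {μ : Ei | IsUnit μ} ⊆ (Pool.Agent.H91.Dz7.U6 : Set Ei) := by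
    intro μ hμ
    obtain ⟨b, γ, hγ, hb⟩ := Pool.Agent.H91.Sel.unit_cases hμ
    have hmem : ∀ b : ZMod 3, w ^ b.val ∈ Pool.Agent.H91.Dz7.U6 ∧
        -w ^ b.val ∈ Pool.Agent.H91.Dz7.U6 := by decide
    rcases Pool.Agent.H91.Fc.unit_pm hγ with h | h
    · have : μ = w ^ b.val := by rw [hb, h]; ring
      rw [this]
      exact (hmem b).1
    · have : μ = -w ^ b.val := by rw [hb, h]; ring
      rw [this]
      exact (hmem b).2
  have h2 := Set.ncard_le_ncard h1 (Finset.finite_toSet _)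
  rw [Set.ncard_coe_finset, Pool.Agent.H91.Dz7.card_U6] at h2
  exact ⟨h2, (Finset.finite_toSet _).subset h1⟩

/-- **the proportion** -/
theorem prop_K (hj : ∀ z : Ei, Algebra.norm ℤ (j z) = nr z) (hdisc : discr K = -3) {D : 𝓞 K}
    (hC : Cl2 D) (hT : Tri D) :
    (∀ ε : ℝ, 0 < ε → ∃ X₀ : ℕ, ∀ X : ℕ, X₀ ≤ X →
      (7 / 9 * (2 * c9 - 1) - ε) * ({μ : 𝓞 K | Fam D X μ}.ncard : ℝ) ≤
        ({μ : 𝓞 K | Fam D X μ ∧ Gx D μ}.ncard : ℝ)) ∧
    ∃ c : ℝ, 0 < c ∧ ∃ X₀ : ℕ, ∀ X : ℕ, X₀ ≤ X → c * X ≤ ({μ : 𝓞 K | Fam D X μ}.ncard : ℝ) := by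
  obtain ⟨D₀, rfl⟩ := j.surjective D
  have hCm := cm_of j hC
  obtain ⟨P₀, wt, c₀, hSD⟩ := sd_ex hCm
  have hlab := lab_of hSD hCm
  have hc9 : (1 / 2 : ℝ) < c9 ∧ c9 < 1 := by
    have h := Pool.Agent.H91.XH.c9_val2
    constructor <;> linarith [h.1, h.2]
  have hall : ∀ X : ℕ, ({μ : 𝓞 K | Fam (j D₀) X μ}.ncard : ℝ) =
      ({μ : Ei | Bs P₀ X μ}.ncard : ℝ) := by
    intro X
    have := fam_img j hj hSD X (fun _ => True)
    simp only [and_true] at this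
    rw [this]
  have hcard : ∀ X : ℕ, ({μ : Ei | Bs P₀ X μ}.ncard : ℝ) = 6 * ((SBc P₀ X).card : ℝ) := by
    intro X
    have h2 := count_gen hSD.pq (fun _ => True) X
    simp only [and_true, Finset.filter_true] at h2
    rw [h2, Finset.sum_const, Finset.card_univ, Fintype.card_prod, Fintype.card_bool, ZMod.card,
      smul_eq_mul, card_FS' hSD.pq]
    push_cast
    ring
  obtain ⟨c, hc, X₀, hlow⟩ := SBc_ge hSD.pq
  have hlow' : ∀ X : ℕ, X₀ ≤ X → 6 * c * X ≤ ({μ : Ei | Bs P₀ X μ}.ncard : ℝ) := by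
    intro X hX
    rw [hcard]
    have := hlow X hX
    linarith
  refine ⟨?_, 6 * c, by positivity, X₀, fun X hX => by rw [hall]; exact hlow' X hX⟩
  intro ε hε
  have hδ : 0 < ε * c := by positivity
  obtain ⟨X₁, h1⟩ := main_Ei j hSD (ε * c) hδ
  obtain ⟨C, hC0, h2⟩ := seven_ninths hSD hlab (ε * c) hδ
  obtain ⟨X₂, h3⟩ := exists_nat_ge ((C + 6) / (ε * c))
  refine ⟨X₀ + X₁ + X₂, fun X hX => ?_⟩
  rw [hall]
  have hX2 : (X₂ : ℝ) ≤ X := by exact_mod_cast (by omega : X₂ ≤ X)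
  rw [div_le_iff₀ hδ] at h3
  have e1 : C + 6 ≤ ε * c * X := by nlinarith
  have e2 := h1 X (by omega)
  have e3 := h2 X
  have e4 := hlow' X (by omega)
  -- remove the units
  have e5 : ({μ : Ei | Bs P₀ X μ ∧ QG j D₀ μ}.ncard : ℝ) ≤
      ({μ : 𝓞 K | Fam (j D₀) X μ ∧ Gx (j D₀) μ}.ncard : ℝ) + 6 := by
    rw [fam_img j hj hSD X (fun μ => Gx (j D₀) μ)]
    have hfin : {μ : Ei | Bs P₀ X μ ∧ Gx (j D₀) (j μ)}.Finite :=
      (Pool.Agent.H91.Dz.fin_nr X).subset fun μ hμ => hμ.1.1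
    have hsub : {μ : Ei | Bs P₀ X μ ∧ QG j D₀ μ} ⊆
        {μ : Ei | Bs P₀ X μ ∧ Gx (j D₀) (j μ)} ∪ {μ : Ei | IsUnit μ} := by
      rintro μ ⟨g1, g2⟩
      by_cases hu : IsUnit μ
      · exact Or.inr hu
      · exact Or.inl ⟨g1, gx_of j hj hdisc hSD hC hT g1 hu g2⟩
    have h4 := Set.ncard_le_ncard hsub (hfin.union units_le.2)
    have h5 := Set.ncard_union_le {μ : Ei | Bs P₀ X μ ∧ Gx (j D₀) (j μ)} {μ : Ei | IsUnit μ}
    have h6 := units_le.1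
    exact_mod_cast (h4.trans h5).trans (Nat.add_le_add_left h6 _)
  set A : ℝ := ({μ : Ei | Bs P₀ X μ}.ncard : ℝ) with hA
  set B : ℝ := ({μ : Ei | Bs P₀ X μ ∧ Q1 D₀ μ}.ncard : ℝ) with hB
  have f1 : (2 * c9 - 1) * (7 / 9 * A - (ε * c * X + C)) ≤ (2 * c9 - 1) * B :=
    mul_le_mul_of_nonneg_left e3 (by linarith [hc9.1])
  have f2 : (2 * c9 - 1) * (ε * c * X + C) ≤ 1 * (ε * c * X + C) := by
    refine mul_le_mul_of_nonneg_right (by linarith [hc9.2]) ?_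
    positivity
  have f3 : ε * (6 * c * X) ≤ ε * A := mul_le_mul_of_nonneg_left e4 hε.le
  nlinarith

end

end Pool.Agent.H91.XP
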