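import Pool.Agent.H91.X1
import Pool.Agent.H91.Dz1
import Pool.Graph.R_seed8.Y433.XK.Gen

/-!
# Few sets have few large primes or degenerate labels

Adapted from the library (`Pool/Graph/R_seed8/Y433/XK`, helper433); the labels contain the one of
the root.
-/

set_option autoImplicit false

open scoped Classical

namespace Pool.Agent.H91.XRF

open Finset Filter
open Pool.Agent.Y692.QS (Ei)
open Pool.Agent.Y715.T.Rec (cs)
open Pool.Agent.Y715.T.RecG (Pq)
open Pool.Agent.Y699.E hiding sm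
open Pool.Agent.Y703.CX (eL zz kk)
open Pool.Agent.Y703.XK (sm la)
open Pool.Agent.H91.XR (SS Cl Nd rl S_BAD S_FEW)
open Pool.Agent.Y495.CX.Few (PN mert eL_tendsto log_small zz_ge loglog_zz rpow_eq)
open Pool.Agent.Y433.XK (pN pN_pos eulerE M_le small_sum)

/-- the general estimate -/
theorem gen (a b : ℝ) (ha : 0 ≤ a) (hb : 0 ≤ b) (Q : ℕ → Finset Ei → Prop)
    (hcount : ∀ (X : ℕ) (S₀ : Finset Ei), (∀ u ∈ S₀, Pq u ∧ nrm u ≤ zz X) → S₀.card ≤ kk X →
      ∀ F : Finset (Finset Ei),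
      (∀ S ∈ F, S ∈ SS X ∧ (S.card ≤ kk X ∧ Q X S) ∧ sm (zz X) S = S₀) → (F.card : ℝ) ≤
        b * a ^ S₀.card * lg (pN S₀) * (((X / pN S₀ : ℕ) : ℝ) *
          (lg (X / pN S₀)) ^ (-(1 / 3) : ℝ))) :
    ∀ ε : ℝ, 0 < ε → ∃ X₀ : ℕ, ∀ X : ℕ, X₀ ≤ X → ∀ F : Finset (Finset Ei),
      (∀ S ∈ F, S ∈ SS X ∧ S.card ≤ kk X ∧ Q X S) → (F.card : ℝ) ≤ ε * X := by
  intro ε hε
  obtain ⟨C, hC0, hC⟩ := M_le
  -- the final comparison
  have hlim : Tendsto (fun l : ℝ => (297 * b * Real.exp (a * C)) * Real.exp (-(1 / 12) * l)) atTop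
      (nhds 0) := by
    have h1 : Tendsto (fun l : ℝ => Real.exp (-(1 / 12) * l)) atTop (nhds 0) := by
      refine Real.tendsto_exp_atBot.comp ?_
      exact tendsto_id.const_mul_atTop_of_neg (by norm_num)
    have := h1.const_mul (297 * b * Real.exp (a * C))
    rwa [mul_zero] at this
  have hpow : ∀ᶠ l : ℝ in atTop, 33 * l ^ 4 + 3 ≤ Real.exp l := by
    have h1 := (Real.isLittleO_pow_exp_atTop (n := 4)).bound (show (0:ℝ) < 1 / 66 by norm_num)
    filter_upwards [h1, eventually_ge_atTop (2:ℝ)] with l hl hl2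
    rw [Real.norm_of_nonneg (by positivity), Real.norm_of_nonneg (Real.exp_pos _).le] at hl
    have h2 : (16:ℝ) ≤ l ^ 4 := by
      have := pow_le_pow_left₀ (by norm_num : (0:ℝ) ≤ 2) hl2 4
      linarith
    linarith
  have hev := (((eL_tendsto.eventually (log_small (4 + 6 * a) (1 / 4) (by norm_num))).and
    (eL_tendsto.eventually (eventually_ge_atTop 2))).and
    (eL_tendsto.eventually (hlim.eventually (gt_mem_nhds hε)))).and (eL_tendsto.eventually hpow)
  obtain ⟨X₀, hX₀⟩ := eventually_atTop.1 hev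
  refine ⟨max X₀ 3, fun X hX F hF => ?_⟩
  obtain ⟨⟨⟨k1, k2⟩, k3⟩, k4⟩ := hX₀ X ((le_max_left _ _).trans hX)
  have hX3 : 3 ≤ X := (le_max_right _ _).trans hX
  set ℓ : ℝ := eL X with hℓ
  set z : ℕ := zz X with hz
  set k : ℕ := kk X with hk
  have hl0 : 0 < ℓ := by linarith
  have hlX : Real.log X = Real.exp ℓ := by
    have := rpow_eq (X := X) k2 1
    rwa [Real.rpow_one, one_mul] at this
  have hX0 : (0 : ℝ) < X := by exact_mod_cast (by omega : 0 < X)
  have hk11 : (k : ℝ) ≤ 11 * ℓ := by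
    have h := Nat.ceil_lt_add_one (show (0 : ℝ) ≤ 10 * eL X by rw [← hℓ]; positivity)
    have h' : (k : ℝ) < 10 * ℓ + 1 := h
    linarith
  have hz3 : 3 ≤ z := zz_ge k2
  have hz0 : (0 : ℝ) < z := by exact_mod_cast (by omega : 0 < z)
  have hzlog : Real.log z ≤ ℓ ^ 3 := by
    rw [Real.log_le_iff_le_exp hz0]
    exact Nat.floor_le (Real.exp_pos _).le
  have hzlog0 : 0 < Real.log z := Real.log_pos (by exact_mod_cast (by omega : 1 < z))
  have hl4 : (1 : ℝ) ≤ ℓ ^ 4 := one_le_pow₀ (by linarith)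
  set W : Finset (Finset Ei) := (QB z).powerset.filter fun S => S.card ≤ k with hW
  have hmaps : ∀ S ∈ F, sm z S ∈ W := by
    intro S hS
    replace hS := hF S hS
    rw [hW, mem_filter, mem_powerset]
    refine ⟨?_, (card_le_card (filter_subset _ _)).trans hS.2.1⟩
    intro π hπ
    unfold sm at hπ
    rw [mem_filter] at hπ
    unfold SS at hS
    rw [mem_filter] at hS
    rw [mem_QB]
    exact ⟨hπ.2, hS.1.2.1 π hπ.1⟩
  have hcard : (F.card : ℝ) = ∑ S₀ ∈ W, ((F.filter fun S => sm z S = S₀).card : ℝ) := by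
    have := card_eq_sum_card_fiberwise hmaps
    exact_mod_cast this
  have hone : ∀ S₀ ∈ W, ((F.filter fun S => sm z S = S₀).card : ℝ) ≤
      (a ^ S₀.card * (1 / (pN S₀ : ℝ))) * (297 * b * ℓ ^ 4 * X * Real.exp (-(1 / 3) * ℓ)) := by
    intro S₀ hS₀
    rw [hW, mem_filter, mem_powerset] at hS₀
    have hpq : ∀ u ∈ S₀, Pq u ∧ nrm u ≤ z := fun u hu => by
      have := hS₀.1 hu
      rw [mem_QB] at this
      exact ⟨this.2, this.1⟩
    have h1 := hcount X S₀ hpq hS₀.2 (F.filter fun S => sm z S = S₀) (fun S hS => by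
      rw [mem_filter] at hS
      have h := hF S hS.1
      exact ⟨h.1, h.2, hS.2⟩)
    refine h1.trans ?_
    set N := pN S₀ with hN
    have hN0 : 0 < N := pN_pos fun u hu => (hpq u hu).1
    have hN0' : (0 : ℝ) < N := by exact_mod_cast hN0
    have hlN : Real.log N ≤ 11 * ℓ ^ 4 := by
      have e1 : Real.log N = ∑ p ∈ S₀, Real.log (nrm p) := by
        rw [hN]
        unfold pN
        push_cast
        rw [Real.log_prod]
        intro p hp
        have := nrm_ne (pq_ne (hpq p hp).1)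
        exact_mod_cast this
      rw [e1]
      calc ∑ p ∈ S₀, Real.log (nrm p) ≤ ∑ _p ∈ S₀, Real.log z := by
            refine sum_le_sum fun p hp => ?_
            exact Real.log_le_log (by exact_mod_cast nrm_pos' (pq_ne (hpq p hp).1))
              (by exact_mod_cast (hpq p hp).2)
        _ = S₀.card * Real.log z := by rw [sum_const, nsmul_eq_mul]
        _ ≤ (11 * ℓ) * ℓ ^ 3 := by
            refine mul_le_mul (le_trans (by exact_mod_cast hS₀.2) hk11) hzlog hzlog0.le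
              (by positivity)
        _ = 11 * ℓ ^ 4 := by ring
    have hlgN : lg N ≤ 33 * ℓ ^ 4 := by
      rcases Nat.lt_or_ge N 2 with h | h
      · have : N = 1 := by omega
        rw [this]
        have : lg 1 = 1 := by unfold lg; simp
        rw [this]
        linarith
      · have := lg_le_log h
        linarith
    have hYle : ((X / N : ℕ) : ℝ) ≤ (X : ℝ) / N := Nat.cast_div_le
    have hYge : Real.exp (Real.log X / 3) ≤ ((X / N : ℕ) : ℝ) := by
      have e1 : (X : ℝ) / N < ((X / N : ℕ) : ℝ) + 1 := by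
        rw [div_lt_iff₀ hN0']
        have := Nat.lt_mul_div_succ X hN0
        have h' : ((X : ℕ) : ℝ) < ((N * (X / N + 1) : ℕ) : ℝ) := by exact_mod_cast this
        rw [Nat.cast_mul, Nat.cast_add, Nat.cast_one] at h'
        linarith
      have e2 : Real.exp (Real.log X - Real.log N) = (X : ℝ) / N := by
        rw [Real.exp_sub, Real.exp_log hX0, Real.exp_log hN0']
      have e3 : Real.exp (Real.log X / 3 + 1) ≤ (X : ℝ) / N := by
        rw [← e2]
        apply Real.exp_le_exp.2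
        rw [← hlX] at k4
        linarith
      rw [Real.exp_add] at e3
      have e4 : (2 : ℝ) ≤ Real.exp 1 := by have := Real.exp_one_gt_d9; linarith
      have e5 : (1 : ℝ) ≤ Real.exp (Real.log X / 3) := by
        apply Real.one_le_exp
        rw [hlX]
        positivity
      nlinarith
    have hY1 : 1 ≤ X / N := by
      have : (0:ℝ) < ((X / N : ℕ) : ℝ) := lt_of_lt_of_le (Real.exp_pos _) hYge
      exact_mod_cast this
    have hlgY : Real.exp ℓ / 3 ≤ lg (X / N) := by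
      refine le_trans ?_ (log_le_lg hY1)
      rw [← hlX, Real.le_log_iff_exp_le (by exact_mod_cast hY1)]
      exact hYge
    have hrp : (lg (X / N)) ^ (-(1 / 3) : ℝ) ≤ 3 * Real.exp (-(1 / 3) * ℓ) := by
      have e1 : (lg (X / N)) ^ (-(1 / 3) : ℝ) ≤ (Real.exp ℓ / 3) ^ (-(1 / 3) : ℝ) :=
        Real.rpow_le_rpow_of_nonpos (by positivity) hlgY (by norm_num)
      refine e1.trans ?_
      rw [Real.div_rpow (Real.exp_pos _).le (by norm_num), ← Real.exp_mul, div_eq_mul_inv,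
        ← Real.rpow_neg (by norm_num), neg_neg, mul_comm ℓ, mul_comm]
      refine mul_le_mul_of_nonneg_right ?_ (Real.exp_pos _).le
      calc (3:ℝ) ^ (1 / 3 : ℝ) ≤ 3 ^ (1:ℝ) :=
            Real.rpow_le_rpow_of_exponent_le (by norm_num) (by norm_num)
        _ = 3 := Real.rpow_one _
    have hlg0 : 0 ≤ lg N := (zero_le_one.trans (one_le_lg N))
    have hrp0 : 0 ≤ (lg (X / N)) ^ (-(1 / 3) : ℝ) :=
      Real.rpow_nonneg (zero_le_one.trans (one_le_lg _)) _
    calc b * a ^ S₀.card * lg N * (((X / N : ℕ) : ℝ) * (lg (X / N)) ^ (-(1 / 3) : ℝ))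
        ≤ b * a ^ S₀.card * (33 * ℓ ^ 4) * (((X : ℝ) / N) * (3 * Real.exp (-(1 / 3) * ℓ))) := by
          gcongr
      _ ≤ _ := by
          have : b * a ^ S₀.card * (33 * ℓ ^ 4) * (((X : ℝ) / N) * (3 * Real.exp (-(1 / 3) * ℓ))) =
            (a ^ S₀.card * (1 / (N : ℝ))) * (99 * b * ℓ ^ 4 * X * Real.exp (-(1 / 3) * ℓ)) := by
            ring
          rw [this]
          gcongr
          norm_num
  have hsum : (F.card : ℝ) ≤ Real.exp (a * ∑ π ∈ QB z, (1 : ℝ) / nrm π) *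
      (297 * b * ℓ ^ 4 * X * Real.exp (-(1 / 3) * ℓ)) := by
    rw [hcard]
    refine (sum_le_sum hone).trans ?_
    rw [← sum_mul]
    refine mul_le_mul_of_nonneg_right ?_ (by positivity)
    refine le_trans ?_ (small_sum a ha z)
    refine sum_le_sum_of_subset_of_nonneg (filter_subset _ _) fun S _ _ => by positivity
  have hM : a * ∑ π ∈ QB z, (1 : ℝ) / nrm π ≤ a * C + 6 * a * Real.log ℓ := by
    have h1 := hC z hz3
    have h2 := loglog_zz k2
    have h3 : ∑ π ∈ QB z, (1 : ℝ) / nrm π ≤ 6 * Real.log ℓ + C := by linarith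
    have := mul_le_mul_of_nonneg_left h3 ha
    linarith
  have hl4' : ℓ ^ 4 = Real.exp (4 * Real.log ℓ) := by
    rw [show (4:ℝ) * Real.log ℓ = Real.log (ℓ ^ 4) by rw [Real.log_pow]; push_cast; ring]
    exact (Real.exp_log (by positivity)).symm
  calc (F.card : ℝ) ≤ Real.exp (a * C + 6 * a * Real.log ℓ) *
        (297 * b * ℓ ^ 4 * X * Real.exp (-(1 / 3) * ℓ)) := by
        refine hsum.trans ?_
        gcongr
    _ = 297 * b * Real.exp (a * C) * Real.exp ((4 + 6 * a) * Real.log ℓ - 1 / 3 * ℓ) * X := by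
        rw [hl4', Real.exp_add, show (4 + 6 * a) * Real.log ℓ - 1 / 3 * ℓ =
          6 * a * Real.log ℓ + 4 * Real.log ℓ + -(1 / 3) * ℓ by ring, Real.exp_add, Real.exp_add]
        ring
    _ ≤ 297 * b * Real.exp (a * C) * Real.exp (-(1 / 12) * ℓ) * X := by
        gcongr
        linarith
    _ ≤ ε * X := by
        refine mul_le_mul_of_nonneg_right ?_ hX0.le
        exact le_of_lt k3

/-- the large parts are counted by squarefree elements -/
theorem fiber_le (X z : ℕ) (S₀ : Finset Ei) (hS₀ : ∀ u ∈ S₀, Pq u)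
    (F : Finset (Finset Ei)) (hF : ∀ S ∈ F, S ∈ SS X ∧ sm z S = S₀) (g : Ei → ℝ)
    (hg : ∀ π, 0 ≤ g π) (c : ℝ) (hc : ∀ S ∈ F, c ≤ ∏ π ∈ la z S, g π) :
    (F.card : ℝ) * c ≤ ∑ n ∈ SB (X / pN S₀), mf g n := by
  have hpr : ∀ S ∈ F, (∀ π ∈ S, Pq π) ∧ ∏ π ∈ S, nrm π ≤ X := by
    intro S hS
    have h := (hF S hS).1
    unfold SS at h
    rw [mem_filter] at h
    exact ⟨h.2.1, h.2.2⟩
  rw [← nsmul_eq_mul, ← sum_const]
  refine sum_le_inj (fun S => ∏ π ∈ la z S, π) ?_ ?_ ?_ ?_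
  · intro S hS
    obtain ⟨h1, h2⟩ := hpr S hS
    rw [mem_SB]
    refine ⟨?_, (PS_prod fun π hπ => h1 π (filter_subset _ _ hπ)).1⟩
    rw [Nat.le_div_iff_mul_le (pN_pos hS₀), nrm_prod, mul_comm]
    have : (∏ π ∈ sm z S, nrm π) * ∏ π ∈ la z S, nrm π = ∏ π ∈ S, nrm π :=
      prod_filter_mul_prod_filter_not _ _ _
    unfold pN
    rw [← (hF S hS).2, this]
    exact h2
  · intro S hS T hT h
    have e1 := (PS_prod (S := la z S) fun π hπ => (hpr S hS).1 π (filter_subset _ _ hπ)).2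
    have e2 := (PS_prod (S := la z T) fun π hπ => (hpr T hT).1 π (filter_subset _ _ hπ)).2
    have e3 : la z S = la z T := by
      rw [← e1, ← e2]
      exact congrArg PD h
    have key : ∀ S : Finset Ei, sm z S ∪ la z S = S := fun S => filter_union_filter_not_eq _ _
    rw [← key S, ← key T, (hF S hS).2, (hF T hT).2, e3]
  · intro S hS
    refine (hc S hS).trans (le_of_eq ?_)
    unfold mf
    rw [(PS_prod (S := la z S) fun π hπ => (hpr S hS).1 π (filter_subset _ _ hπ)).2]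
  · intro n _
    exact mf_nonneg hg n

theorem few_count (V : ℕ) (X : ℕ) (S₀ : Finset Ei) (hS₀ : ∀ u ∈ S₀, Pq u ∧ nrm u ≤ zz X)
    (F : Finset (Finset Ei))
    (hF : ∀ S ∈ F, S ∈ SS X ∧ (S.card ≤ kk X ∧ (la (zz X) S).card ≤ (sm (zz X) S).card + V) ∧
      sm (zz X) S = S₀) : (F.card : ℝ) ≤
        441 * (3 / 2) ^ V * (3 / 2) ^ S₀.card * lg (pN S₀) * (((X / pN S₀ : ℕ) : ℝ) *
          (lg (X / pN S₀)) ^ (-(1 / 3) : ℝ)) := by
  have h := fiber_le X (zz X) S₀ (fun u hu => (hS₀ u hu).1)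
    F (fun S hS => ⟨(hF S hS).1, (hF S hS).2.2⟩) (fun _ => 2 / 3) (fun _ => by norm_num)
    ((2 / 3) ^ (S₀.card + V)) (fun S hS => by
        replace hS := hF S hS
        rw [prod_const]
        refine pow_le_pow_of_le_one (by norm_num) (by norm_num) ?_
        have := hS.2.1.2
        rw [hS.2.2] at this
        exact this)
  have h2 := h.trans (hall0 (X / pN S₀))
  have hlg := one_le_lg (pN S₀)
  have h3 : (3 / 2 : ℝ) ^ (S₀.card + V) * (2 / 3) ^ (S₀.card + V) = 1 := by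
    rw [← mul_pow]
    norm_num
  set c := (F.card : ℝ) with hcdef
  have hTl : 0 ≤ ((X / pN S₀ : ℕ) : ℝ) * (lg (X / pN S₀)) ^ (-(1 / 3) : ℝ) :=
    mul_nonneg (Nat.cast_nonneg _) (Real.rpow_nonneg (zero_le_one.trans (one_le_lg _)) _)
  calc c = (3 / 2 : ℝ) ^ (S₀.card + V) * (c * (2 / 3) ^ (S₀.card + V)) := by
        linear_combination (-c) * h3
    _ ≤ (3 / 2 : ℝ) ^ (S₀.card + V) * (441 * (((X / pN S₀ : ℕ) : ℝ) *
          (lg (X / pN S₀)) ^ (-(1 / 3) : ℝ))) := mul_le_mul_of_nonneg_left h2 (by positivity)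
    _ = (441 * (3 / 2) ^ V * (3 / 2) ^ S₀.card) * 1 * (((X / pN S₀ : ℕ) : ℝ) *
          (lg (X / pN S₀)) ^ (-(1 / 3) : ℝ)) := by rw [pow_add]; ring
    _ ≤ (441 * (3 / 2) ^ V * (3 / 2) ^ S₀.card) * lg (pN S₀) * (((X / pN S₀ : ℕ) : ℝ) *
          (lg (X / pN S₀)) ^ (-(1 / 3) : ℝ)) := by gcongr

theorem t_FEW : S_FEW := by
  intro V ε hε
  obtain ⟨X₀, hX₀⟩ := gen (3 / 2) (441 * (3 / 2) ^ V) (by norm_num) (by positivity)
    (fun X S => (la (zz X) S).card ≤ (sm (zz X) S).card + V)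
    (fun X S₀ hS₀ _ F hF => few_count V X S₀ hS₀ F hF) ε hε
  refine ⟨X₀, fun X hX => hX₀ X hX _ fun S hS => ?_⟩
  rw [mem_filter] at hS
  exact hS

/-- the labels are degenerate with respect to two disjoint sets and the root -/
def Dg (A B : Finset Ei) (t : ZMod 3) (T : Finset Ei) : Prop :=
  ∀ π ∈ T, ∑ u ∈ A, cs u π - ∑ u ∈ B, cs u π + t * rl π = 0

theorem notNd {S₀ T : Finset Ei} (h : ¬ Nd S₀ T) : ∃ (A B : Finset Ei) (t : ZMod 3), A ⊆ S₀ ∧ B ⊆ S₀ ∧
    Disjoint A B ∧ (A ≠ B ∨ t ≠ 0) ∧ Dg A B t T := by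
  unfold Nd at h
  push Not at h
  obtain ⟨v, t, hvt, h2⟩ := h
  refine ⟨S₀.filter fun u => v u = 1, S₀.filter fun u => v u = 2, t, filter_subset _ _,
    filter_subset _ _, ?_, ?_, ?_⟩
  · rw [disjoint_left]
    intro x hx hx2
    rw [mem_filter] at hx hx2
    rw [hx.2] at hx2
    exact absurd hx2.2 (by decide)
  · rcases hvt with ⟨u, hu, hu0⟩ | ht
    · left
      intro heq
      have key : ∀ c : ZMod 3, c ≠ 0 → c = 1 ∨ c = 2 := by decide
      rcases key (v u) hu0 with h1 | h1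
      · have : u ∈ S₀.filter fun u => v u = 2 := by
          rw [← heq, mem_filter]
          exact ⟨hu, h1⟩
        rw [mem_filter, h1] at this
        exact absurd this.2 (by decide)
      · have : u ∈ S₀.filter fun u => v u = 1 := by
          rw [heq, mem_filter]
          exact ⟨hu, h1⟩
        rw [mem_filter, h1] at this
        exact absurd this.2 (by decide)
    · exact Or.inr ht
  · intro π hπ
    have h3 := h2 π hπ
    rw [← h3, sum_filter, sum_filter, ← sum_sub_distrib]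
    congr 1
    refine sum_congr rfl fun u _ => ?_
    have key : ∀ a b : ZMod 3, (if a = 1 then b else 0) - (if a = 2 then b else 0) = a * b := by
      decide
    exact key (v u) (cs u π)

theorem ez_sum (A : Finset Ei) (f : Ei → ZMod 3) : ez (∑ u ∈ A, f u) = ∏ u ∈ A, ez (f u) := by
  induction A using Finset.induction_on with
  | empty => rw [sum_empty, prod_empty, ez_zero]
  | insert a s ha ih => rw [sum_insert ha, prod_insert ha, ez_add, ih]

theorem pair_count (X z : ℕ) (S₀ : Finset Ei) (hS₀ : ∀ u ∈ S₀, Pq u ∧ nrm u ≤ z)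
    (A B : Finset Ei) (t : ZMod 3) (hA : A ⊆ S₀) (hB : B ⊆ S₀) (hd : Disjoint A B)
    (hAB : A ≠ B ∨ t ≠ 0)
    (F : Finset (Finset Ei)) (hF : ∀ S ∈ F, (S ∈ SS X ∧ sm z S = S₀) ∧ Dg A B t (la z S)) :
    (F.card : ℝ) ≤ 5670 * lg (pN S₀) * (((X / pN S₀ : ℕ) : ℝ) *
          (lg (X / pN S₀)) ^ (-(1 / 3) : ℝ)) := by
  obtain ⟨a1, a2⟩ := PS_prod (S := A) fun π hπ => (hS₀ π (hA hπ)).1
  obtain ⟨b1, b2⟩ := PS_prod (S := B) fun π hπ => (hS₀ π (hB hπ)).1
  set a := ∏ π ∈ A, π with ha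
  set b := ∏ π ∈ B, π with hb
  have hab : a ≠ b ∨ t ≠ 0 := by
    rcases hAB with h | h
    · left
      intro h'
      apply h
      rw [← a2, ← b2, h']
    · exact Or.inr h
  have hval : ∀ S ∈ F, ∀ π ∈ la z S, Pool.Agent.H91.Dz.xz t a b π = 1 := by
    intro S hS π hπ
    obtain ⟨⟨h1, h2⟩, h3⟩ := hF S hS
    have hπq : Pq π ∧ ¬ nrm π ≤ z := by
      unfold la at hπ
      rw [mem_filter] at hπ
      unfold SS at h1
      rw [mem_filter] at h1
      exact ⟨h1.2.1 π hπ.1, hπ.2⟩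
    have hchi : ∀ u ∈ S₀, chi u π = ez (cs u π) := by
      intro u hu
      refine chi_of fun hdv => ?_
      have := eq_of_dvd (hS₀ u hu).1 hπq.1 hdv
      subst this
      exact hπq.2 (hS₀ u hu).2
    have hprm : prm π := hπq.1.three
    unfold Pool.Agent.H91.Dz.xz
    rw [Pool.Agent.H91.Dz.cz_prm hprm]
    unfold xab jac
    rw [a2, b2, prod_congr rfl fun u hu => hchi u (hA hu), prod_congr rfl fun u hu => hchi u (hB hu),
      ← ez_sum, ← ez_sum, conj_ez, ← ez_add, ← ez_add, ← sub_eq_add_neg]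
    have h4 := h3 π hπ
    have h5 : Pool.Agent.Y699.E.tht π = rl π := rfl
    rw [h5, h4, ez_zero]
  have h := fiber_le X z S₀ (fun u hu => (hS₀ u hu).1) F (fun S hS => (hF S hS).1)
    (fun π => (1 + 2 * (Pool.Agent.H91.Dz.xz t a b π).re) / 3) (fun π => by
      have := re_nonneg ((Pool.Agent.H91.Dz.xz_ch (t := t) a1 b1).val π)
      positivity) 1 (fun S hS => by
      refine le_of_eq (prod_eq_one fun π hπ => ?_).symm
      rw [hval S hS π hπ]
      norm_num)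
  rw [mul_one] at h
  refine h.trans ((Pool.Agent.H91.Dz.hallz a1 b1 hab _).trans ?_)
  have hnn : nrm a * nrm b ≤ pN S₀ := by
    rw [ha, hb, nrm_prod, nrm_prod, ← prod_union hd]
    unfold pN
    refine prod_le_prod_of_subset_of_one_le' (union_subset hA hB) fun u hu _ => ?_
    exact nrm_pos' (pq_ne (hS₀ u hu).1)
  have h4 : (lg (nrm a * nrm b)) ^ (1 / 3 : ℝ) ≤ lg (pN S₀) := by
    calc (lg (nrm a * nrm b)) ^ (1 / 3 : ℝ) ≤ (lg (nrm a * nrm b)) ^ (1 : ℝ) :=
          Real.rpow_le_rpow_of_exponent_le (one_le_lg _) (by norm_num)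
      _ = lg (nrm a * nrm b) := Real.rpow_one _
      _ ≤ lg (pN S₀) := lg_mono hnn
  have hTl : 0 ≤ ((X / pN S₀ : ℕ) : ℝ) * (lg (X / pN S₀)) ^ (-(1 / 3) : ℝ) :=
    mul_nonneg (Nat.cast_nonneg _) (Real.rpow_nonneg (zero_le_one.trans (one_le_lg _)) _)
  gcongr

theorem bad_count (X : ℕ) (S₀ : Finset Ei) (hS₀ : ∀ u ∈ S₀, Pq u ∧ nrm u ≤ zz X)
    (G : Finset (Finset Ei))
    (hG : ∀ S ∈ G, S ∈ SS X ∧ (S.card ≤ kk X ∧ ¬ Nd (sm (zz X) S) (la (zz X) S)) ∧
      sm (zz X) S = S₀) : (G.card : ℝ) ≤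
        17010 * 4 ^ S₀.card * lg (pN S₀) * (((X / pN S₀ : ℕ) : ℝ) *
          (lg (X / pN S₀)) ^ (-(1 / 3) : ℝ)) := by
  set P := ((S₀.powerset ×ˢ S₀.powerset) ×ˢ (univ : Finset (ZMod 3))).filter fun p =>
    Disjoint p.1.1 p.1.2 ∧ (p.1.1 ≠ p.1.2 ∨ p.2 ≠ 0) with hP
  have hsub : G ⊆ P.biUnion fun p => G.filter fun S => Dg p.1.1 p.1.2 p.2 (la (zz X) S) := by
    intro S hS
    obtain ⟨h1, ⟨h2, h3⟩, h4⟩ := hG S hS
    rw [h4] at h3
    obtain ⟨A, B, t, hA, hB, hd, hAB, hDg⟩ := notNd h3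
    rw [mem_biUnion]
    refine ⟨((A, B), t), ?_, ?_⟩
    · rw [hP, mem_filter, mem_product, mem_product, mem_powerset, mem_powerset]
      exact ⟨⟨⟨hA, hB⟩, mem_univ _⟩, hd, hAB⟩
    · rw [mem_filter]
      exact ⟨hS, hDg⟩
  have h1 : (G.card : ℝ) ≤
      ∑ p ∈ P, ((G.filter fun S => Dg p.1.1 p.1.2 p.2 (la (zz X) S)).card : ℝ) := by
    exact_mod_cast (card_le_card hsub).trans card_biUnion_le
  have h2 : ∀ p ∈ P, ((G.filter fun S => Dg p.1.1 p.1.2 p.2 (la (zz X) S)).card : ℝ) ≤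
      5670 * lg (pN S₀) * (((X / pN S₀ : ℕ) : ℝ) * (lg (X / pN S₀)) ^ (-(1 / 3) : ℝ)) := by
    intro p hp
    rw [hP, mem_filter, mem_product, mem_product, mem_powerset, mem_powerset] at hp
    refine pair_count X (zz X) S₀ hS₀ p.1.1 p.1.2 p.2 hp.1.1.1 hp.1.1.2 hp.2.1 hp.2.2 _ ?_
    intro S hS
    rw [mem_filter] at hS
    have h := hG S hS.1
    exact ⟨⟨h.1, h.2.2⟩, hS.2⟩
  have h3 : (P.card : ℝ) ≤ 3 * 4 ^ S₀.card := by
    have : P.card ≤ 3 * 4 ^ S₀.card := by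
      refine (card_filter_le _ _).trans (le_of_eq ?_)
      rw [card_product, card_product, card_powerset, ← mul_pow, card_univ, ZMod.card]
      norm_num
      ring
    exact_mod_cast this
  have hTl : 0 ≤ ((X / pN S₀ : ℕ) : ℝ) * (lg (X / pN S₀)) ^ (-(1 / 3) : ℝ) :=
    mul_nonneg (Nat.cast_nonneg _) (Real.rpow_nonneg (zero_le_one.trans (one_le_lg _)) _)
  have hlg := lg_pos (pN S₀)
  calc (G.card : ℝ) ≤ ∑ p ∈ P, 5670 * lg (pN S₀) * (((X / pN S₀ : ℕ) : ℝ) *
        (lg (X / pN S₀)) ^ (-(1 / 3) : ℝ)) := h1.trans (sum_le_sum h2)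
    _ = P.card * (5670 * lg (pN S₀) * (((X / pN S₀ : ℕ) : ℝ) *
        (lg (X / pN S₀)) ^ (-(1 / 3) : ℝ))) := by rw [sum_const, nsmul_eq_mul]
    _ ≤ (3 * 4 ^ S₀.card) * (5670 * lg (pN S₀) * (((X / pN S₀ : ℕ) : ℝ) *
        (lg (X / pN S₀)) ^ (-(1 / 3) : ℝ))) :=
        mul_le_mul_of_nonneg_right h3 (by positivity)
    _ = _ := by ring

theorem t_BAD : S_BAD := by
  intro ε hε
  obtain ⟨X₀, hX₀⟩ := gen 4 17010 (by norm_num) (by norm_num)
    (fun X S => ¬ Nd (sm (zz X) S) (la (zz X) S))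
    (fun X S₀ hS₀ _ F hF => bad_count X S₀ hS₀ F hF) ε hε
  refine ⟨X₀, fun X hX => hX₀ X hX _ fun S hS => ?_⟩
  rw [mem_filter] at hS
  exact hS

end Pool.Agent.H91.XRF
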