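import Pool.Agent.H91.X1
import Pool.Graph.R_seed8.Y994.XL.LA
import Pool.Graph.R_seed8.Y170.XL.BOX

/-!
# The count in a box, for the matrices with a root

Adapted from the library (`Pool/Graph/R_seed8/Y170/XL/BOX.lean`).
-/

set_option autoImplicit false
set_option linter.unusedSectionVars false

open scoped Classical

namespace Pool.Agent.H91.XRB

open Finset
open Pool.Agent.Y692.QS (Ei)
open Pool.Agent.Y715.T.Rec (cs)
open Pool.Agent.Y715.T.RecG (Pq)
open Pool.Agent.Y703.XK (HB prs S_EQ)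
open Pool.Agent.Y703.XL (nA S_LA cr)
open Pool.Agent.Y688.XK (lb LN cs_symm ext_sum HB_sub)
open Pool.Agent.Y170.XL (em em_bij fe fe_one fe_two sum_em)
open Pool.Agent.H91.XR

/-! ### the root as a small prime -/

section root

variable {U J : Type} [Fintype U] [Fintype J] [LinearOrder J]

/-- the labels of the small primes and the root -/
def oA (A : U → U → ZMod 3) (a : U → ZMod 3) : Option U → Option U → ZMod 3
  | some u, some v => A u v
  | some u, none => a u
  | none, some v => a v
  | none, none => 0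

/-- the labels of the large primes -/
def oB (B : U → J → ZMod 3) (b : J → ZMod 3) : Option U → J → ZMod 3
  | some u, l => B u l
  | none, l => b l

/-- the number of the solutions of the system with the root -/
noncomputable def nB (A : U → U → ZMod 3) (B : U → J → ZMod 3) (R : J → J → ZMod 3)
    (a : U → ZMod 3) (b : J → ZMod 3) : ℕ :=
  Nat.card {p : (U → ZMod 3) × (J → ZMod 3) //
    (∀ u, ∑ v, A u v * (p.1 v - p.1 u) + ∑ l, B u l * (p.2 l - p.1 u) - a u * p.1 u = 0) ∧
    (∀ k, ∑ u, B u k * (p.1 u - p.2 k) + ∑ l, R k l * (p.2 l - p.2 k) - b k * p.2 k = 0)}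

lemma oA_symm {A : U → U → ZMod 3} (hA : ∀ u v, A u v = A v u) (a : U → ZMod 3) (x y : Option U) :
    oA A a x y = oA A a y x := by
  rcases x with _ | u <;> rcases y with _ | v
  · rfl
  · rfl
  · rfl
  · exact hA u v

/-- the sum of the equations -/
lemma root_row (A : U → U → ZMod 3) (B : U → J → ZMod 3) (hA : ∀ u v, A u v = A v u)
    (α : prs J → ZMod 3) (a : U → ZMod 3) (b : J → ZMod 3) (x : U → ZMod 3) (y : J → ZMod 3)
    (h1 : ∀ u, ∑ v, A u v * (x v - x u) + ∑ l, B u l * (y l - x u) - a u * x u = 0)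
    (h2 : ∀ k, ∑ u, B u k * (x u - y k) +
      ∑ l, Pool.Agent.Y703.XK.ext α k l * (y l - y k) - b k * y k = 0) :
    ∑ u, a u * x u + ∑ k, b k * y k = 0 := by
  have t1 := Pool.Agent.Y85.XK.tot_symm A hA x
  have t2 := Pool.Agent.Y85.XK.tot_symm (Pool.Agent.Y703.XK.ext α)
    (Pool.Agent.Y85.XK.ext_symm α) y
  have t3 := Pool.Agent.Y85.XK.tot_cross B x y
  have t4 : ∑ u, (∑ v, A u v * (x v - x u) + ∑ l, B u l * (y l - x u) - a u * x u) = 0 :=
    sum_eq_zero fun u _ => h1 u
  have t5 : ∑ k, (∑ u, B u k * (x u - y k) +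
      ∑ l, Pool.Agent.Y703.XK.ext α k l * (y l - y k) - b k * y k) = 0 :=
    sum_eq_zero fun u _ => h2 u
  rw [sum_sub_distrib, sum_add_distrib] at t4 t5
  linear_combination t1 + t2 + t3 - t4 - t5

/-- **The root is a small prime.** -/
theorem nA_root (A : U → U → ZMod 3) (B : U → J → ZMod 3) (hA : ∀ u v, A u v = A v u)
    (α : prs J → ZMod 3) (a : U → ZMod 3) (b : J → ZMod 3) :
    nA (oA A a) (oB B b) (Pool.Agent.Y703.XK.ext α) =
      3 * nB A B (Pool.Agent.Y703.XK.ext α) a b := by
  unfold nA nB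
  have h3 : Nat.card (ZMod 3) = 3 := by
    rw [Nat.card_eq_fintype_card, ZMod.card]
  have h4 : Nat.card (ZMod 3 × {p : (U → ZMod 3) × (J → ZMod 3) //
      (∀ u, ∑ v, A u v * (p.1 v - p.1 u) + ∑ l, B u l * (p.2 l - p.1 u) - a u * p.1 u = 0) ∧
      (∀ k, ∑ u, B u k * (p.1 u - p.2 k) +
        ∑ l, Pool.Agent.Y703.XK.ext α k l * (p.2 l - p.2 k) - b k * p.2 k = 0)}) =
      3 * Nat.card {p : (U → ZMod 3) × (J → ZMod 3) //
      (∀ u, ∑ v, A u v * (p.1 v - p.1 u) + ∑ l, B u l * (p.2 l - p.1 u) - a u * p.1 u = 0) ∧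
      (∀ k, ∑ u, B u k * (p.1 u - p.2 k) +
        ∑ l, Pool.Agent.Y703.XK.ext α k l * (p.2 l - p.2 k) - b k * p.2 k = 0)} := by
    rw [Nat.card_prod, h3]
  refine Eq.trans (Nat.card_congr ?_) h4
  exact {
    toFun := fun p => (p.1.1 none,
      ⟨(fun u => p.1.1 (some u) - p.1.1 none, fun k => p.1.2 k - p.1.1 none), by
        obtain ⟨⟨x, y⟩, h1, h2⟩ := p
        simp only at h1 h2
        refine ⟨fun u => ?_, fun k => ?_⟩
        · have g := h1 (some u)
          rw [Fintype.sum_option] at g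
          have g' : a u * (x none - x (some u)) + ∑ v, A u v * (x (some v) - x (some u)) +
            ∑ l, B u l * (y l - x (some u)) = 0 := g
          simp only [sub_sub_sub_cancel_right]
          linear_combination g'
        · have g := h2 k
          rw [Fintype.sum_option] at g
          have g' : b k * (x none - y k) + ∑ u, B u k * (x (some u) - y k) +
            ∑ l, Pool.Agent.Y703.XK.ext α k l * (y l - y k) = 0 := g
          simp only [sub_sub_sub_cancel_right]
          linear_combination g'⟩)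
    invFun := fun q => ⟨(fun o => o.elim q.1 (fun u => q.2.1.1 u + q.1), fun k => q.2.1.2 k + q.1), by
      obtain ⟨t, ⟨x, y⟩, h1, h2⟩ := q
      simp only at h1 h2
      have h5 := root_row A B hA α a b x y h1 h2
      refine ⟨fun o => ?_, fun k => ?_⟩
      · rcases o with _ | u
        · rw [Fintype.sum_option]
          show (0 : ZMod 3) * (t - t) + ∑ v, a v * (x v + t - t) + ∑ l, b l * (y l + t - t) = 0
          simp only [add_sub_cancel_right]
          linear_combination h5
        · rw [Fintype.sum_option]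
          show a u * (t - (x u + t)) + ∑ v, A u v * (x v + t - (x u + t)) +
            ∑ l, B u l * (y l + t - (x u + t)) = 0
          simp only [add_sub_add_right_eq_sub]
          linear_combination h1 u
      · rw [Fintype.sum_option]
        show b k * (t - (y k + t)) + ∑ u, B u k * (x u + t - (y k + t)) +
          ∑ l, Pool.Agent.Y703.XK.ext α k l * (y l + t - (y k + t)) = 0
        simp only [add_sub_add_right_eq_sub]
        linear_combination h2 k⟩
    left_inv := fun p => by
      refine Subtype.ext (Prod.ext (funext fun o => ?_) (funext fun k => ?_))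
      · rcases o with _ | u
        · rfl
        · exact sub_add_cancel _ _
      · exact sub_add_cancel _ _
    right_inv := fun q => by
      refine Prod.ext rfl (Subtype.ext (Prod.ext (funext fun u => ?_) (funext fun k => ?_)))
      · exact add_sub_cancel_right _ _
      · exact add_sub_cancel_right _ _ }

end root

section one
variable {ι : Type} [Fintype ι] [LinearOrder ι] {S₀ : Finset Ei} {p : ι → Ei}

/-- the labels are not degenerate -/
def LNr {ι : Type} (S₀ : Finset Ei) (β : ι → S₀ → ZMod 3) (τ : ι → ZMod 3) : Prop :=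
  ∀ (w : S₀ → ZMod 3) (t : ZMod 3), ((∃ u, w u ≠ 0) ∨ t ≠ 0) →
    ∃ i, ∑ u, w u * β i u + t * τ i ≠ 0

omit [LinearOrder ι] in
theorem nd_iff {τ : ι → ZMod 3} (hτ : ∀ i, rl (p i) = τ i) :
    Nd S₀ (univ.image p) ↔ LNr S₀ (fun i => lb S₀ (p i)) τ := by
  unfold Nd LNr
  constructor
  · intro h w t hw
    obtain ⟨x, hx, hx2⟩ := h (Pool.Agent.Y688.XK.ez0 w) t (by
      rcases hw with ⟨u, hu⟩ | ht
      · exact Or.inl ⟨u, u.2, by rw [Pool.Agent.Y688.XK.ez0_coe]; exact hu⟩
      · exact Or.inr ht)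
    rw [Finset.mem_image] at hx
    obtain ⟨i, -, rfl⟩ := hx
    refine ⟨i, ?_⟩
    rw [← Finset.sum_coe_sort S₀, hτ] at hx2
    intro h0
    apply hx2
    rw [← h0]
    congr 1
    refine Finset.sum_congr rfl fun u _ => ?_
    rw [Pool.Agent.Y688.XK.ez0_coe]
    rfl
  · intro h w t hw
    obtain ⟨i, hi⟩ := h (fun u => w u) t (by
      rcases hw with ⟨u, hu0, hu⟩ | ht
      · exact Or.inl ⟨⟨u, hu0⟩, hu⟩
      · exact Or.inr ht)
    refine ⟨p i, Finset.mem_image_of_mem _ (Finset.mem_univ _), ?_⟩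
    rw [← Finset.sum_coe_sort S₀, hτ]
    exact hi

/-- **the numbers of solutions agree** -/
theorem nS_eq (c : ZMod 3) (hp : Function.Injective p) (hpr : ∀ i, Pq (p i)) (hS₀ : ∀ u ∈ S₀, Pq u)
    (hd : ∀ i, p i ∉ S₀) :
    nS c (S₀ ∪ univ.image p) = nB (fun u v : S₀ => cs u v) (fun (u : S₀) l => cs u (p l))
      (Pool.Agent.Y703.XK.ext fun e : prs ι => cs (p e.1.1) (p e.1.2))
      (fun u => c * rl u) (fun l => c * rl (p l)) := by
  unfold nS nB
  refine Nat.card_congr (Equiv.subtypeEquiv (fe hp hd) fun v => ?_)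
  have hsym : ∀ k : ι, ∑ u : S₀, cs (p k) u * (v (em S₀ p (Sum.inl u)) - v (em S₀ p (Sum.inr k))) =
      ∑ u : S₀, cs u (p k) * (v (em S₀ p (Sum.inl u)) - v (em S₀ p (Sum.inr k))) := by
    intro k
    refine Finset.sum_congr rfl fun u _ => ?_
    rw [cs_symm (hpr k) (hS₀ u u.2)]
  have hext := fun k => ext_sum hpr k (fun l => v (em S₀ p (Sum.inr l)))
  constructor
  · intro h
    refine ⟨fun u => ?_, fun k => ?_⟩
    · have h1 := h (em S₀ p (Sum.inl u))
      rw [sum_em hp hd] at h1
      exact h1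
    · have h1 := h (em S₀ p (Sum.inr k))
      rw [sum_em hp hd] at h1
      have h2 : ∑ u : S₀, cs (p k) u * (v (em S₀ p (Sum.inl u)) - v (em S₀ p (Sum.inr k))) +
        ∑ l, cs (p k) (p l) * (v (em S₀ p (Sum.inr l)) - v (em S₀ p (Sum.inr k))) -
        c * rl (p k) * v (em S₀ p (Sum.inr k)) = 0 := h1
      rw [hsym, ← hext k] at h2
      exact h2
  · rintro ⟨h1, h2⟩ x
    obtain ⟨y, rfl⟩ := (em_bij hp hd).2 x
    rw [sum_em hp hd]
    rcases y with u | k
    · exact h1 u
    · have h3 : ∑ u : S₀, cs u (p k) * (v (em S₀ p (Sum.inl u)) - v (em S₀ p (Sum.inr k))) +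
        ∑ l, Pool.Agent.Y703.XK.ext (fun e : prs ι => cs (p e.1.1) (p e.1.2)) k l *
          (v (em S₀ p (Sum.inr l)) - v (em S₀ p (Sum.inr k))) -
        c * rl (p k) * v (em S₀ p (Sum.inr k)) = 0 := h2 k
      rw [hext k, ← hsym] at h3
      exact h3

end one

end Pool.Agent.H91.XRB
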