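import Pool.Agent.H91.X7

/-!
# The count in a box, for the matrices with a root: second part

Adapted from the library (`Pool/Graph/R_seed8/Y170/XL/BOX.lean`).
-/

set_option autoImplicit false
set_option linter.unusedSectionVars false

open scoped Classical

namespace Pool.Agent.H91.XRB

open Finset
open Pool.Agent.Y692.QS (Ei)
open Pool.Agent.Y715.T.Rec (cs)
open Pool.Agent.Y715.T.RecG (Pq)
open Pool.Agent.Y703.XK (HB prs S_EQ)
open Pool.Agent.Y703.XL (nA S_LA cr)
open Pool.Agent.Y688.XK (lb LN cs_symm ext_sum HB_sub)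
open Pool.Agent.Y170.XL (em em_bij fe fe_one fe_two sum_em)
open Pool.Agent.H91.XR

/-- **The count in a box.** -/
theorem t_BOX {c : ZMod 3} (hc : c ≠ 0) (hEQ : S_EQ) (hLA : S_LA) (r : ℕ) :
    BXG (Gr c r) (cr r) (3 ^ (r + 2)) := by
  intro ι _ _ C X κ S₀ τ hκ hCX hHB hS₀ hC' hdis hcard
  have hC : ∀ i, ∀ π ∈ C i, Pq π ∧ π ∉ S₀ := fun i π hπ => ⟨(hC' i π hπ).1, (hC' i π hπ).2.1⟩
  have hτC : ∀ i, ∀ π ∈ C i, rl π = τ i := fun i π hπ => (hC' i π hπ).2.2
  clear hC'
  obtain ⟨cc, hcc⟩ : ∃ cc : ℝ, cc = 3 ^ (r + 2) * (3 ^ S₀.card / 3 ^ Fintype.card ι) := ⟨_, rfl⟩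
  obtain ⟨R, hR⟩ : ∃ R : ℝ, R = 3 ^ (prs ι).card * (κ * ∏ j, (X j : ℝ)) := ⟨_, rfl⟩
  have hcc0 : 0 ≤ cc := by rw [hcc]; positivity
  have hR0 : 0 ≤ R := by
    rw [hR]
    exact mul_nonneg (by positivity)
      (mul_nonneg hκ (Finset.prod_nonneg fun j _ => by positivity))
  -- facts on tuples
  have hinj : ∀ p ∈ Fintype.piFinset C, Function.Injective p := by
    intro p hp i j hij
    rw [Fintype.mem_piFinset] at hp
    by_contra hne
    have h1 := Finset.disjoint_left.1 (hdis i j hne) (hp i)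
    rw [hij] at h1
    exact h1 (hp j)
  have hd : ∀ p ∈ Fintype.piFinset C, ∀ i, p i ∉ S₀ := by
    intro p hp i
    rw [Fintype.mem_piFinset] at hp
    exact (hC i _ (hp i)).2
  have hpr : ∀ p ∈ Fintype.piFinset C, ∀ i, Pq (p i) := by
    intro p hp i
    rw [Fintype.mem_piFinset] at hp
    exact (hC i _ (hp i)).1
  have hτp : ∀ p ∈ Fintype.piFinset C, ∀ i, rl (p i) = τ i := by
    intro p hp i
    rw [Fintype.mem_piFinset] at hp
    exact hτC i _ (hp i)
  -- the part with given labels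
  have h1 : ∀ β : ι → S₀ → ZMod 3, LNr S₀ β τ →
      |(((Fintype.piFinset C).filter fun p => (fun i => lb S₀ (p i)) = β ∧
          Gr c r (S₀ ∪ univ.image p)).card : ℝ) -
        cr r * (((Fintype.piFinset C).filter fun p => (fun i => lb S₀ (p i)) = β).card : ℝ)| ≤
      cc * (((Fintype.piFinset C).filter fun p => (fun i => lb S₀ (p i)) = β).card : ℝ) + R := by
    intro β hβ
    obtain ⟨C', hC'⟩ : ∃ C' : ι → Finset Ei, C' = fun i => (C i).filter fun q => lb S₀ q = β i :=
      ⟨_, rfl⟩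
    have hpi : (Fintype.piFinset C).filter (fun p => (fun i => lb S₀ (p i)) = β) =
        Fintype.piFinset C' := by
      ext p
      simp only [Finset.mem_filter, Fintype.mem_piFinset, hC']
      constructor
      · rintro ⟨h2, h3⟩ i
        exact ⟨h2 i, congrFun h3 i⟩
      · intro h2
        exact ⟨fun i => (h2 i).1, funext fun i => (h2 i).2⟩
    have h2 := hLA r (Option S₀) ι (oA (fun u v : S₀ => cs u v) (fun u : S₀ => c * rl u))
      (oB (fun (u : S₀) l => β l u) (fun l => c * τ l))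
      (by rw [Fintype.card_option, Fintype.card_coe]; exact hcard)
      (oA_symm (A := fun u v : S₀ => cs u v) (fun u v => cs_symm (hS₀ u u.2) (hS₀ v v.2)) _)
      (fun w hw => by
        obtain ⟨o, ho⟩ := hw
        obtain ⟨i, hi⟩ := hβ (fun u => w (some u)) (w none * c) (by
          rcases o with _ | u
          · exact Or.inr (mul_ne_zero ho hc)
          · exact Or.inl ⟨u, ho⟩)
        refine ⟨i, ?_⟩
        rw [Fintype.sum_option]
        intro h0
        apply hi
        have h0' : w none * (c * τ i) + ∑ u : S₀, w (some u) * β i u = 0 := h0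
        linear_combination h0')
    obtain ⟨Q, hQ⟩ : ∃ Q : (prs ι → ZMod 3) → Prop, Q = fun α =>
        nA (oA (fun u v : S₀ => cs u v) (fun u : S₀ => c * rl u))
          (oB (fun (u : S₀) l => β l u) (fun l => c * τ l))
          (Pool.Agent.Y703.XK.ext α) = 3 ^ (r + 1) := ⟨_, rfl⟩
    have h3 := hEQ ι C' X κ hκ
      (fun i => (Finset.card_le_card (by rw [hC']; exact Finset.filter_subset _ _)).trans (hCX i))
      (by rw [hC']; exact HB_sub hHB fun i q => lb S₀ q = β i) Q
    have h4 : ((Fintype.piFinset C).filter fun p => (fun i => lb S₀ (p i)) = β ∧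
        Gr c r (S₀ ∪ univ.image p)) = ((Fintype.piFinset C').filter fun p =>
          Q fun e => cs (p e.1.1) (p e.1.2)) := by
      rw [← hpi, Finset.filter_filter]
      refine Finset.filter_congr fun p hp => ?_
      refine and_congr_right fun hl => ?_
      unfold Gr
      rw [nS_eq c (hinj p hp) (hpr p hp) hS₀ (hd p hp)]
      subst hl
      rw [hQ]
      simp only [hτp p hp]
      rw [nA_root (fun u v : S₀ => cs u v) _ (fun u v => cs_symm (hS₀ u u.2) (hS₀ v v.2)), pow_succ,
        mul_comm (3 ^ r) 3]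
      exact (Nat.mul_right_inj (by norm_num)).symm
    have h5 : (((Fintype.piFinset C').card : ℕ) : ℝ) = ∏ j, ((C' j).card : ℝ) := by
      rw [Fintype.card_piFinset]
      push_cast
      rfl
    rw [h4, hpi, h5]
    rw [Fintype.card_option, Fintype.card_coe] at h2
    have hcc2 : (3 : ℝ) ^ (r + 1) * (3 ^ (S₀.card + 1) / 3 ^ Fintype.card ι) = cc := by
      rw [hcc, pow_succ 3 (r + 1), pow_succ 3 S₀.card]
      ring
    rw [hcc2] at h2
    rw [← hR] at h3
    obtain ⟨n, hn⟩ : ∃ n : ℝ, n = (((Fintype.piFinset C').filter fun p =>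
          Q fun e => cs (p e.1.1) (p e.1.2)).card : ℝ) := ⟨_, rfl⟩
    obtain ⟨q, hq⟩ : ∃ q : ℝ, q = ((univ.filter Q).card : ℝ) / 3 ^ (prs ι).card := ⟨_, rfl⟩
    obtain ⟨P, hP⟩ : ∃ P : ℝ, P = ∏ j, ((C' j).card : ℝ) := ⟨_, rfl⟩
    have hP0 : 0 ≤ P := by
      rw [hP]
      exact Finset.prod_nonneg fun j _ => by positivity
    have h2' : |q - cr r| ≤ cc := by
      have e : (univ.filter Q) = (univ.filter fun α : prs ι → ZMod 3 =>
          nA (oA (fun u v : S₀ => cs u v) (fun u : S₀ => c * rl u))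
          (oB (fun (u : S₀) l => β l u) (fun l => c * τ l))
            (Pool.Agent.Y703.XK.ext α) = 3 ^ (r + 1)) := by
        ext α
        rw [Finset.mem_filter, Finset.mem_filter, hQ]
      rw [hq, e]
      exact h2
    rw [← hn, ← hq, ← hP] at h3
    rw [← hn, ← hP]
    have h6 : |n - cr r * P| ≤ |n - q * P| + |q - cr r| * P := by
      have h7 : n - cr r * P = (n - q * P) + (q - cr r) * P := by ring
      have h8 : |(q - cr r) * P| = |q - cr r| * P := by rw [abs_mul, abs_of_nonneg hP0]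
      rw [h7, ← h8]
      exact abs_add_le _ _
    have h7 : |q - cr r| * P ≤ cc * P := mul_le_mul_of_nonneg_right h2' hP0
    linarith
  -- sum over the labels
  obtain ⟨LL, hLL⟩ : ∃ LL : Finset (ι → S₀ → ZMod 3), LL = univ.filter (fun β => LNr S₀ β τ) :=
    ⟨_, rfl⟩
  have hfib : ∀ T : (ι → Ei) → Prop,
      (((Fintype.piFinset C).filter fun p => Nd S₀ (univ.image p) ∧ T p).card : ℝ) =
      ∑ β ∈ LL, (((Fintype.piFinset C).filter fun p =>
        (fun i => lb S₀ (p i)) = β ∧ T p).card : ℝ) := by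
    intro T
    rw [Finset.card_eq_sum_card_fiberwise (f := fun (p : ι → Ei) (i : ι) => lb S₀ (p i))
      (t := LL) (by
        intro p hp
        rw [Finset.mem_coe, Finset.mem_filter] at hp
        rw [Finset.mem_coe, hLL, Finset.mem_filter]
        exact ⟨Finset.mem_univ _, (nd_iff (hτp p hp.1)).1 hp.2.1⟩)]
    push_cast
    refine Finset.sum_congr rfl fun β hβ => ?_
    rw [hLL, Finset.mem_filter] at hβ
    congr 2
    ext p
    simp only [Finset.mem_filter]
    constructor
    · rintro ⟨⟨h3, h4, h4'⟩, h5⟩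
      exact ⟨h3, h5, h4'⟩
    · rintro ⟨h3, h4, h5⟩
      refine ⟨⟨h3, ?_, h5⟩, h4⟩
      rw [nd_iff (hτp p h3), h4]
      exact hβ.2
  have hf1 := hfib fun p => Gr c r (S₀ ∪ univ.image p)
  have hf2 := hfib fun _ => True
  simp only [and_true] at hf2
  rw [← hcc, hf1, hf2, Finset.mul_sum, ← Finset.sum_sub_distrib]
  refine (Finset.abs_sum_le_sum_abs _ _).trans ?_
  refine (Finset.sum_le_sum fun β hβ => h1 β (by
    rw [hLL] at hβ
    exact (Finset.mem_filter.1 hβ).2)).trans ?_
  rw [Finset.sum_add_distrib, ← Finset.mul_sum, Finset.sum_const, nsmul_eq_mul]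
  have h5 : ((LL.card : ℕ) : ℝ) ≤ 3 ^ (S₀.card * Fintype.card ι) := by
    have h6 : LL.card ≤ Fintype.card (ι → S₀ → ZMod 3) :=
      Finset.card_le_univ _
    rw [Fintype.card_fun, Fintype.card_fun, ZMod.card, Fintype.card_coe, ← pow_mul] at h6
    exact_mod_cast h6
  have h6 := mul_le_mul_of_nonneg_right h5 hR0
  rw [pow_add, mul_assoc, ← hR]
  linarith

end Pool.Agent.H91.XRB
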