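import Pool.Agent.H91.X3
import Pool.Agent.H91.X4
import Pool.Agent.H91.X5
import Pool.Agent.H91.X6
import Pool.Agent.H91.X8
import Pool.Agent.H91.Dz6
import Pool.Graph.R_seed8.Y703.XL.Fin

/-!
# The exact law for the matrices with a root

Adapted from the library (`Pool/Graph/R_seed8/Y703/XL/Asy.lean`).
-/

set_option autoImplicit false

open scoped Classical
open Finset Filter

namespace Pool.Agent.H91.XR

open Pool.Agent.Y692.QS (Ei w nr toC)
open Pool.Agent.Y715.T.RecG (Pq)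
open Pool.Agent.Y699.E (nrm QB PD)
open Pool.Agent.Y703.CX (jj XX eL zz kk eL_tendsto logX_eq rpow_eL HH NN ev_eL one_le_exp
  HH_ge HH_le HH_pos kk_ge kk_le X_pos one_add_log lin_le zz_ge zz_pos)
open Pool.Agent.Y703.CQ (Sml sml_of sml_add)
open Pool.Agent.Y703.XK (HB prs ext c9 sm la bl S_BIL S_EQ S_C9
  sml_eps sml_main kap kap_nonneg kap_pow cmp)
open Pool.Agent.Y703.XL (cr cr_pos cr_le)

theorem t_DQ {cr' : ZMod 3} {r : ℕ} (hK : KEG (Gr cr' r) (cr r) (3 ^ (r + 2))) (hC : S_CNT)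
    (hB : S_BAD) (hF : S_FEW)
    (hLo : ∃ (c : ℝ) (X₀ : ℕ), 0 < c ∧ ∀ X : ℕ, X₀ ≤ X → c * X ≤ ((SS X).card : ℝ)) (hc9 : S_C9) :
    Filter.Tendsto (fun X : ℕ => (((SS X).filter (Gr cr' r)).card : ℝ) / ((SS X).card : ℝ))
      Filter.atTop (nhds (cr r)) := by
  obtain ⟨C, hC1, hkey⟩ := hK
  obtain ⟨D, hD⟩ := hC
  obtain ⟨c, X₀, hc, hlow⟩ := hLo
  rw [Metric.tendsto_nhds]
  intro ε hε
  obtain ⟨K, hKd⟩ : ∃ K : ℝ, K = 3 ^ (r + 2) := ⟨_, rfl⟩
  have hKp : 0 < K := by rw [hKd]; positivity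
  obtain ⟨V0, hV0⟩ := exists_pow_lt_of_lt_one (show (0 : ℝ) < ε / (2 * K) by positivity)
    (show (1 / 3 : ℝ) < 1 by norm_num)
  obtain ⟨V, hVd⟩ : ∃ V : ℕ, V = V0 + 1 := ⟨_, rfl⟩
  have hV : (1 / 3 : ℝ) ^ V < ε / (2 * K) := by
    rw [hVd, pow_succ]
    have : (0 : ℝ) < (1 / 3) ^ V0 := by positivity
    linarith
  have hV1 : 1 ≤ V := by omega
  have s1 := sml_many hD
  have s2 := sml_cut hD
  have s3 := sml_coll hD
  have s4 := sml_eps (hF V)
  have s5 := sml_eps hB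
  have s6 := sml_main hC1
  have s := sml_add (sml_add (sml_add (sml_add (sml_add s1 s2) s3) s4) s5) s6
  have hδ : (0 : ℝ) < c * ε / 4 := by positivity
  filter_upwards [s (c * ε / 4) hδ, ev_eL 1, eventually_ge_atTop X₀] with X hX hl hX0
  rw [neg_zero, zero_mul, Real.exp_zero, mul_one] at hX
  have hl0 : 0 < eL X := by linarith
  have hlo := hlow X hX0
  have hXp := X_pos hl0
  have hXp' : (0 : ℝ) < X := by exact_mod_cast hXp
  have hSpos : (0 : ℝ) < ((SS X).card : ℝ) := by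
    refine lt_of_lt_of_le ?_ hlo
    positivity
  have hN : (HH X : ℝ) * Real.log X < NN X := by
    unfold NN
    push_cast
    exact Nat.lt_floor_add_one _
  have hmain := hkey X (zz X) (HH X) (kk X) V (NN X) (kap C X) hXp (HH_pos hl0) (zz_pos hl) hV1
    (kap_nonneg hC1 X) (kap_pow hC1 hl) hN
  set T := (RR X (zz X) (HH X) (kk X) V).filter fun S => Nd (sm (zz X) S) (la (zz X) S) with hT
  have hTG : (RR X (zz X) (HH X) (kk X) V).filter
      (fun S => Nd (sm (zz X) S) (la (zz X) S) ∧ Gr cr' r S) = T.filter (Gr cr' r) := by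
    rw [hT, filter_filter]
  rw [hTG] at hmain
  have hTS : T ⊆ SS X := (filter_subset _ _).trans (filter_subset _ _)
  have hRS : ((RR X (zz X) (HH X) (kk X) V).card : ℝ) ≤ ((SS X).card : ℝ) := by
    exact_mod_cast card_le_card (filter_subset _ _)
  have hcmp := cmp (Gr cr' r) T (SS X) hTS (cr r) (cr_pos hc9 r).le (cr_le hc9 r)
  have hout : ((SS X \ T).card : ℝ) ≤
      ((((SS X).filter fun S => kk X < S.card).card : ℝ) +
      (((SS X).filter fun S => S.card ≤ kk X ∧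
        X < (∏ π ∈ sm (zz X) S, nrm π) * ∏ π ∈ la (zz X) S, XX (HH X) (bl (HH X) π)).card : ℝ) +
      (((SS X).filter fun S => ¬ Set.InjOn (bl (HH X)) (la (zz X) S : Set Ei)).card : ℝ) +
      (((SS X).filter fun S => S.card ≤ kk X ∧
        (la (zz X) S).card ≤ (sm (zz X) S).card + V).card : ℝ)) +
      (((SS X).filter fun S => S.card ≤ kk X ∧ ¬ Nd (sm (zz X) S) (la (zz X) S)).card : ℝ) := by
    have g := card_le_card (out_sub X (zz X) (HH X) (kk X) V)
    rw [← hT] at g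
    have g2 := (g.trans (card_union_le _ _)).trans (Nat.add_le_add_right ((card_union_le _ _).trans
      (Nat.add_le_add_right ((card_union_le _ _).trans
      (Nat.add_le_add_right (card_union_le _ _) _)) _)) _)
    exact_mod_cast g2
  rw [← hKd] at hmain
  have htot : |(((SS X).filter (Gr cr' r)).card : ℝ) - cr r * ((SS X).card : ℝ)| ≤
      K * (1 / 3 : ℝ) ^ V * ((SS X).card : ℝ) + c * ε / 4 * X := by
    have g1 : K * (1 / 3 : ℝ) ^ V * ((RR X (zz X) (HH X) (kk X) V).card : ℝ) ≤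
        K * (1 / 3 : ℝ) ^ V * ((SS X).card : ℝ) := mul_le_mul_of_nonneg_left hRS (by positivity)
    linarith
  rw [Real.dist_eq]
  have e3 : (((SS X).filter (Gr cr' r)).card : ℝ) / ((SS X).card : ℝ) - cr r =
      ((((SS X).filter (Gr cr' r)).card : ℝ) - cr r * ((SS X).card : ℝ)) /
        ((SS X).card : ℝ) := by
    field_simp
  rw [e3, abs_div, abs_of_pos hSpos, div_lt_iff₀ hSpos]
  refine lt_of_le_of_lt htot ?_
  have g2 : c * ε / 4 * X ≤ ε / 4 * ((SS X).card : ℝ) := by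
    calc c * ε / 4 * X = ε / 4 * (c * X) := by ring
      _ ≤ _ := mul_le_mul_of_nonneg_left hlo (by linarith)
  have g3 : K * (1 / 3 : ℝ) ^ V * ((SS X).card : ℝ) ≤ K * (ε / (2 * K)) * ((SS X).card : ℝ) := by
    gcongr
  have g5 : K * (ε / (2 * K)) = ε / 2 := by
    field_simp
  rw [g5] at g3
  have g4 : 0 < ε * ((SS X).card : ℝ) := by positivity
  linarith


/-- sets and elements -/
theorem card_filter (X : ℕ) (Q : Finset Ei → Prop) :
    ((SS X).filter Q).card = ((Pool.Agent.Y699.E.SB X).filter fun n => Q (PD n)).card := by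
  symm
  refine Finset.card_bij (fun n _ => PD n) ?_ ?_ ?_
  · intro n hn
    rw [mem_filter, Pool.Agent.Y699.E.mem_SB] at hn
    obtain ⟨⟨h1, h2⟩, h3⟩ := hn
    rw [mem_filter]
    refine ⟨?_, h3⟩
    unfold SS
    rw [mem_filter, mem_powerset]
    refine ⟨fun π hπ => ?_, fun π hπ => ((Pool.Agent.Y699.E.mem_PD h2.ne).1 hπ).1, ?_⟩
    · obtain ⟨h5, h6⟩ := (Pool.Agent.Y699.E.mem_PD h2.ne).1 hπ
      exact Pool.Agent.Y699.E.mem_QB.2
        ⟨(Pool.Agent.Y699.E.norm_le_of_dvd h2.ne h6).trans h1, h5⟩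
    · rw [← Pool.Agent.Y550.XK.NS.nrm_prod, h2.prod]
      exact h1
  · intro n hn m hm h
    rw [mem_filter, Pool.Agent.Y699.E.mem_SB] at hn hm
    rw [← hn.1.2.prod, ← hm.1.2.prod, h]
  · intro S hS
    rw [mem_filter] at hS
    obtain ⟨h1, h2⟩ := hS
    unfold SS at h1
    rw [mem_filter] at h1
    obtain ⟨-, h3, h4⟩ := h1
    obtain ⟨h5, h6⟩ := Pool.Agent.Y699.E.PS_prod h3
    refine ⟨∏ π ∈ S, π, ?_, h6⟩
    rw [mem_filter, Pool.Agent.Y699.E.mem_SB, h6, Pool.Agent.Y550.XK.NS.nrm_prod]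
    exact ⟨⟨h4, h5⟩, h2⟩

theorem card_SS (X : ℕ) : (SS X).card = (Pool.Agent.Y699.E.SB X).card := by
  have h := card_filter X (fun _ => True)
  rwa [Finset.filter_true, Finset.filter_true] at h

/-- **The exact law for the sets.** -/
theorem law {c : ZMod 3} (hc : c ≠ 0) (r : ℕ) :
    Filter.Tendsto (fun X : ℕ => (((SS X).filter (Gr c r)).card : ℝ) / ((SS X).card : ℝ))
      Filter.atTop (nhds (cr r)) := by
  refine t_DQ (t_KEG Pool.Agent.Y363.XK.t_BIL
    (XRB.t_BOX hc Pool.Agent.Y710.XK.t_EQ Pool.Agent.Y703.XL.t_LA r) (by positivity))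
    XRC.t_CNT XRF.t_BAD XRF.t_FEW ?_ Pool.Agent.Y703.XL.t_C9
  obtain ⟨c', hc', X₀, h⟩ := Pool.Agent.H91.Dz.SB_ge
  refine ⟨c', X₀, hc', fun X hX => ?_⟩
  rw [card_SS]
  exact h X hX

end Pool.Agent.H91.XR
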